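import Mathlib

set_option autoImplicit false

/-! Kronecker substitution: truncated power series modulo `m` stored as one natural number. -/

namespace Pool.Agent.Lib.H4Kron

open Polynomial

/-- The `k`-th digit of `z` in base `2 ^ b`. -/
def dig (b z k : ℕ) : ℕ := z / 2 ^ (b * k) % 2 ^ b

theorem dig_zero (b z : ℕ) : dig b z 0 = z % 2 ^ b := by simp [dig]

theorem dig_div (b z n k : ℕ) : dig b (z / 2 ^ (b * n)) k = dig b z (n + k) := by
  simp only [dig, Nat.div_div_eq_div_mul, ← pow_add, mul_add]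

theorem dig_succ (b z k : ℕ) : dig b z (k + 1) = dig b (z / 2 ^ b) k := by
  have := dig_div b z 1 k
  rw [mul_one, add_comm] at this
  exact this.symm

theorem dig_mod (b z n k : ℕ) (h : k < n) : dig b (z % 2 ^ (b * n)) k = dig b z k := by
  obtain ⟨t, rfl⟩ := Nat.exists_eq_add_of_lt h
  have e : 2 ^ (b * (k + t + 1)) = 2 ^ (b * k) * (2 ^ b * 2 ^ (b * t)) := by
    rw [← pow_add, ← pow_add]
    congr 1
    ring
  simp only [dig]
  rw [e, Nat.mod_mul_right_div_self, Nat.mod_mul_right_mod]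

theorem dig_eval (b : ℕ) (k : ℕ) : ∀ T : ℕ[X], (∀ i ≤ k, T.coeff i < 2 ^ b) →
    dig b (T.eval (2 ^ b)) k = T.coeff k := by
  induction k with
  | zero =>
    intro T h
    have e : T.eval (2 ^ b) = T.coeff 0 + 2 ^ b * T.divX.eval (2 ^ b) := by
      conv_lhs => rw [← X_mul_divX_add T]
      simp [add_comm]
    rw [dig_zero, e, Nat.add_mul_mod_self_left, Nat.mod_eq_of_lt (h 0 le_rfl)]
  | succ k ih =>
    intro T h
    have e : T.eval (2 ^ b) = T.coeff 0 + 2 ^ b * T.divX.eval (2 ^ b) := by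
      conv_lhs => rw [← X_mul_divX_add T]
      simp [add_comm]
    rw [dig_succ, e, Nat.add_mul_div_left _ _ (by positivity),
      Nat.div_eq_of_lt (h 0 (Nat.zero_le _)), zero_add, ih, coeff_divX]
    intro i hi
    rw [coeff_divX]
    exact h _ (by omega)

theorem exists_poly (b : ℕ) (hb : 0 < b) (z : ℕ) :
    ∃ T : ℕ[X], T.eval (2 ^ b) = z ∧ ∀ k, T.coeff k = dig b z k := by
  induction z using Nat.strong_induction_on with
  | _ z ih =>
    rcases Nat.eq_zero_or_pos z with rfl | hz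
    · exact ⟨0, by simp, by simp [dig]⟩
    · obtain ⟨T, h1, h2⟩ := ih (z / 2 ^ b) (Nat.div_lt_self hz (Nat.one_lt_two_pow hb.ne'))
      refine ⟨X * T + C (z % 2 ^ b), ?_, ?_⟩
      · simp [h1, Nat.div_add_mod]
      · intro k
        rcases k with _ | k
        · simp [dig_zero]
        · rw [coeff_add, coeff_X_mul, coeff_C_succ, add_zero, h2, dig_succ]

theorem dig_cat (b n x y k : ℕ) (hx : x < 2 ^ (b * n)) :
    dig b (x + y <<< (b * n)) k = if k < n then dig b x k else dig b y (k - n) := by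
  rw [Nat.shiftLeft_eq]
  split_ifs with h
  · rw [← dig_mod b _ n k h, Nat.add_mul_mod_self_right, Nat.mod_eq_of_lt hx]
  · obtain ⟨t, rfl⟩ := Nat.exists_eq_add_of_le (not_lt.1 h)
    rw [← dig_div, Nat.add_mul_div_right _ _ (by positivity), Nat.div_eq_of_lt hx, zero_add,
      Nat.add_sub_cancel_left]

theorem cat_lt (s x y : ℕ) (hx : x < 2 ^ s) (hy : y < 2 ^ s) : x + y <<< s < 2 ^ (s * 2) := by
  rw [Nat.shiftLeft_eq, pow_mul, sq]
  have : (y + 1) * 2 ^ s ≤ 2 ^ s * 2 ^ s := Nat.mul_le_mul_right _ hy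
  nlinarith

theorem dig_small (b x k : ℕ) (hx : x < 2 ^ b) : dig b x k = if k < 1 then x else 0 := by
  rcases k with _ | k
  · simp [dig_zero, Nat.mod_eq_of_lt hx]
  · rw [dig_succ, Nat.div_eq_of_lt hx]
    simp [dig]

theorem dig_lt (b z k : ℕ) : dig b z k < 2 ^ b := Nat.mod_lt _ (by positivity)

theorem dig_and (b x y k : ℕ) : dig b (x &&& y) k = dig b x k &&& dig b y k := by
  simp only [dig, Nat.and_div_two_pow, Nat.and_mod_two_pow]

theorem dig_lin (b : ℕ) (hb : 0 < b) (s t x y k : ℕ)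
    (h : ∀ i ≤ k, s * dig b x i + t * dig b y i < 2 ^ b) :
    dig b (s * x + t * y) k = s * dig b x k + t * dig b y k := by
  obtain ⟨P, p1, p2⟩ := exists_poly b hb x
  obtain ⟨Q, q1, q2⟩ := exists_poly b hb y
  have e : s * x + t * y = (C s * P + C t * Q).eval (2 ^ b) := by
    rw [eval_add, eval_mul, eval_mul, eval_C, eval_C, p1, q1]
  rw [e, dig_eval, coeff_add, coeff_C_mul, coeff_C_mul, p2, q2]
  intro i hi
  rw [coeff_add, coeff_C_mul, coeff_C_mul, p2, q2]
  exact h i hi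

theorem dig_add (b : ℕ) (hb : 0 < b) (x y k : ℕ) (h : ∀ i ≤ k, dig b x i + dig b y i < 2 ^ b) :
    dig b (x + y) k = dig b x k + dig b y k := by
  simpa using dig_lin b hb 1 1 x y k (by simpa using h)

theorem dig_smul (b : ℕ) (hb : 0 < b) (s x k : ℕ) (h : ∀ i ≤ k, s * dig b x i < 2 ^ b) :
    dig b (s * x) k = s * dig b x k := by
  simpa using dig_lin b hb s 0 x 0 k (by simpa using h)

theorem dig_divc (b : ℕ) (hb : 0 < b) (a z k : ℕ) (ha : 0 < a) (h : ∀ i, a ∣ dig b z i) :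
    dig b (z / a) k = dig b z k / a := by
  obtain ⟨P, p1, p2⟩ := exists_poly b hb z
  obtain ⟨Q, hQ⟩ : C a ∣ P := (C_dvd_iff_dvd_coeff a P).2 (fun i => by rw [p2]; exact h i)
  have hc : ∀ i, Q.coeff i = dig b z i / a := by
    intro i
    rw [← p2, hQ, coeff_C_mul, Nat.mul_div_cancel_left _ ha]
  have e : z / a = Q.eval (2 ^ b) := by
    rw [← p1, hQ, eval_mul, eval_C, Nat.mul_div_cancel_left _ ha]
  rw [e, dig_eval, hc]
  intro i _
  rw [hc]
  exact (Nat.div_le_self _ _).trans_lt (dig_lt _ _ _)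

theorem dig_shift (b n y k : ℕ) :
    dig b (y <<< (b * n)) k = if k < n then 0 else dig b y (k - n) := by
  have := dig_cat b n 0 y k (by positivity)
  rw [zero_add] at this
  rw [this]
  simp [dig]

/-- The number with digit one at the places `0, t, 2 t, ..., (J - 1) t`. -/
def geom (b t J : ℕ) : ℕ := (2 ^ (b * t * J) - 1) / (2 ^ (b * t) - 1)

theorem dig_geom (b : ℕ) (hb : 0 < b) (t J k : ℕ) (ht : 0 < t) :
    dig b (geom b t J) k = if t ∣ k ∧ k < t * J then 1 else 0 := by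
  have h2 : 2 ≤ 2 ^ (b * t) := Nat.one_lt_two_pow (by positivity)
  have e : geom b t J = (∑ j ∈ Finset.range J, (X : ℕ[X]) ^ (t * j)).eval (2 ^ b) := by
    rw [geom, pow_mul _ (b * t), ← Nat.geomSum_eq h2, eval_finsetSum]
    apply Finset.sum_congr rfl
    intro j _
    rw [eval_pow, eval_X, ← pow_mul, ← pow_mul, mul_assoc]
  have hc : ∀ i, (∑ j ∈ Finset.range J, (X : ℕ[X]) ^ (t * j)).coeff i =
      if t ∣ i ∧ i < t * J then 1 else 0 := by
    intro i
    rw [finsetSum_coeff]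
    simp only [coeff_X_pow]
    split_ifs with h
    · obtain ⟨⟨c, rfl⟩, h⟩ := h
      rw [Finset.sum_eq_single c, if_pos rfl]
      · intro j _ hj
        rw [if_neg]
        intro e
        exact hj (Nat.eq_of_mul_eq_mul_left ht e).symm
      · intro hc
        exact absurd (Finset.mem_range.2 (lt_of_mul_lt_mul_left h (Nat.zero_le _))) hc
    · apply Finset.sum_eq_zero
      intro j hj
      rw [if_neg]
      rintro rfl
      exact h ⟨Dvd.intro _ rfl, Nat.mul_lt_mul_of_pos_left (Finset.mem_range.1 hj) ht⟩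
  rw [e, dig_eval, hc]
  intro i _
  rw [hc]
  have := Nat.one_lt_two_pow hb.ne'
  split_ifs <;> omega

theorem dig_mask (b : ℕ) (hb : 0 < b) (a : ℕ) (ha : a ≤ b) (t J z k : ℕ) (ht : 0 < t) :
    dig b (z &&& ((2 ^ a - 1) * geom b t J)) k =
      if t ∣ k ∧ k < t * J then dig b z k % 2 ^ a else 0 := by
  have h1 : 2 ^ a ≤ 2 ^ b := Nat.pow_le_pow_right (by norm_num) ha
  have h2 : 0 < 2 ^ a := by positivity
  rw [dig_and, dig_smul b hb, dig_geom b hb _ _ _ ht]
  · split_ifs
    · rw [mul_one, Nat.and_two_pow_sub_one_eq_mod]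
    · simp
  · intro i _
    rw [dig_geom b hb _ _ _ ht]
    split_ifs <;> omega

/-- Pack the values `v lo, v (lo + 1), ...` (`2 ^ d` of them). -/
def pack (b : ℕ) (v : ℕ → ℕ) (d : ℕ) : ℕ → ℕ :=
  Nat.rec v (fun d ih lo => Nat.add (ih lo)
    (Nat.shiftLeft (ih (Nat.add lo (Nat.pow 2 d))) (Nat.mul b (Nat.pow 2 d)))) d

theorem pack_spec (b : ℕ) (v : ℕ → ℕ) (d : ℕ) : ∀ lo, (∀ k < lo + 2 ^ d, v k < 2 ^ b) →
    pack b v d lo < 2 ^ (b * 2 ^ d) ∧
      ∀ k, dig b (pack b v d lo) k = if k < 2 ^ d then v (lo + k) else 0 := by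
  induction d with
  | zero =>
    intro lo hv
    have h : v lo < 2 ^ b := hv lo (by simp)
    refine ⟨by simpa [pack] using h, fun k => ?_⟩
    change dig b (v lo) k = _
    rw [dig_small _ _ _ h, pow_zero]
    split_ifs with hk
    · obtain rfl : k = 0 := by omega
      rfl
    · rfl
  | succ d ih =>
    intro lo hv
    rw [pow_succ] at hv
    obtain ⟨a1, a2⟩ := ih lo (fun k hk => hv k (by omega))
    obtain ⟨b1, b2⟩ := ih (lo + 2 ^ d) (fun k hk => hv k (by omega))
    have e : pack b v (d + 1) lo = pack b v d lo +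
        (pack b v d (lo + 2 ^ d)) <<< (b * 2 ^ d) := rfl
    rw [e]
    refine ⟨by rw [pow_succ 2 d, ← mul_assoc]; exact cat_lt _ _ _ a1 b1, fun k => ?_⟩
    rw [dig_cat _ _ _ _ _ a1, a2, b2, pow_succ]
    by_cases h : k < 2 ^ d
    · rw [if_pos h, if_pos h, if_pos (by omega)]
    · rw [if_neg h, show lo + 2 ^ d + (k - 2 ^ d) = lo + k by omega]
      by_cases h' : k < 2 ^ d * 2
      · rw [if_pos (by omega), if_pos h']
      · rw [if_neg (by omega), if_neg h']

/-- `x` stores the first `N` coefficients of `φ`, with digits at most `c`. -/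
def Rep (b m N c x : ℕ) (φ : PowerSeries (ZMod m)) : Prop :=
  ∀ k < N, dig b x k ≤ c ∧ (dig b x k : ZMod m) = PowerSeries.coeff k φ

theorem Rep.mono {b m N c c' x : ℕ} {φ : PowerSeries (ZMod m)} (h : Rep b m N c x φ)
    (hc : c ≤ c') : Rep b m N c' x φ := fun k hk => ⟨(h k hk).1.trans hc, (h k hk).2⟩

theorem Rep.mul {b m N c c' x y : ℕ} (hb0 : 0 < b) {φ ψ : PowerSeries (ZMod m)}
    (hx : Rep b m N c x φ) (hy : Rep b m N c' y ψ) (hb : N * (c * c') < 2 ^ b) :
    Rep b m N (N * (c * c')) (x * y) (φ * ψ) := by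
  intro k hk
  obtain ⟨P, p1, p2⟩ := exists_poly b hb0 x
  obtain ⟨Q, q1, q2⟩ := exists_poly b hb0 y
  have e : x * y = (P * Q).eval (2 ^ b) := by rw [eval_mul, p1, q1]
  have hbd : ∀ i ≤ k, (P * Q).coeff i ≤ N * (c * c') := by
    intro i hi
    rw [coeff_mul]
    have h1 : ∑ ij ∈ Finset.HasAntidiagonal.antidiagonal i, P.coeff ij.1 * Q.coeff ij.2 ≤
        (Finset.HasAntidiagonal.antidiagonal i).card • (c * c') := by
      apply Finset.sum_le_card_nsmul
      intro ij hij
      have := Finset.HasAntidiagonal.mem_antidiagonal.1 hij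
      rw [p2, q2]
      exact Nat.mul_le_mul (hx _ (by omega)).1 (hy _ (by omega)).1
    rw [Finset.Nat.card_antidiagonal, smul_eq_mul] at h1
    exact h1.trans (Nat.mul_le_mul_right _ (by omega))
  rw [e, dig_eval b k _ (fun i hi => (hbd i hi).trans_lt hb)]
  refine ⟨hbd k le_rfl, ?_⟩
  rw [coeff_mul, PowerSeries.coeff_mul, Nat.cast_sum]
  apply Finset.sum_congr rfl
  intro ij hij
  have := Finset.HasAntidiagonal.mem_antidiagonal.1 hij
  rw [Nat.cast_mul, p2, q2, (hx _ (by omega)).2, (hy _ (by omega)).2]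

theorem Rep.lin {b m N c c' x y : ℕ} (hb0 : 0 < b) (s t : ℕ) {φ ψ : PowerSeries (ZMod m)}
    (hx : Rep b m N c x φ) (hy : Rep b m N c' y ψ) (hb : s * c + t * c' < 2 ^ b) :
    Rep b m N (s * c + t * c') (s * x + t * y)
      (PowerSeries.C (s : ZMod m) * φ + PowerSeries.C (t : ZMod m) * ψ) := by
  intro k hk
  have hbd : ∀ i ≤ k, s * dig b x i + t * dig b y i ≤ s * c + t * c' := fun i hi =>
    Nat.add_le_add (Nat.mul_le_mul_left s (hx i (by omega)).1)
      (Nat.mul_le_mul_left t (hy i (by omega)).1)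
  rw [dig_lin b hb0 _ _ _ _ _ (fun i hi => (hbd i hi).trans_lt hb)]
  refine ⟨hbd k le_rfl, ?_⟩
  rw [map_add, PowerSeries.coeff_C_mul, PowerSeries.coeff_C_mul, ← (hx k hk).2, ← (hy k hk).2]
  push_cast
  rfl

/-- Keep the low `a` bits of each of the first `N` digits. -/
def low (b N a z : ℕ) : ℕ := z &&& ((2 ^ a - 1) * geom b 1 N)

theorem dig_low (b : ℕ) (hb : 0 < b) (N a : ℕ) (ha : a ≤ b) (z k : ℕ) :
    dig b (low b N a z) k = if k < N then dig b z k % 2 ^ a else 0 := by
  rw [low, dig_mask b hb a ha 1 N z k one_pos]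
  simp

theorem rep_low (b m N a : ℕ) (hb : 0 < b) (ha : a ≤ b) (z : ℕ) :
    Rep b m N (2 ^ a) (low b N a z)
      (PowerSeries.mk fun k => (dig b (low b N a z) k : ZMod m)) := by
  intro k hk
  refine ⟨?_, by rw [PowerSeries.coeff_mk]⟩
  rw [dig_low b hb N a ha, if_pos hk]
  exact (Nat.mod_lt _ (by positivity)).le

/-- Montgomery reduction of all digits at once; `m * u + 1` is a multiple of `2 ^ a`. -/
def mont (b m N a u z : ℕ) : ℕ :=
  (low b N b z + m * low b N a (u * low b N a z)) >>> a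

theorem Rep.mont {b m N c z : ℕ} (hb0 : 0 < b) (a u : ℕ) (r : ZMod m) (ha : a ≤ b)
    (hu : u * 2 ^ a < 2 ^ b) (hmu : 2 ^ a ∣ m * u + 1) (hr : r * 2 ^ a = 1)
    {φ : PowerSeries (ZMod m)} (hz : Rep b m N c z φ) (hc : c + m * 2 ^ a < 2 ^ b) :
    Rep b m N (c / 2 ^ a + m) (mont b m N a u z) (PowerSeries.C r * φ) := by
  have hp : 0 < 2 ^ a := by positivity
  have d1 : ∀ i, dig b (low b N b z) i = if i < N then dig b z i else 0 := by
    intro i
    rw [dig_low b hb0 N b le_rfl, Nat.mod_eq_of_lt (dig_lt _ _ _)]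
  have d2 : ∀ i, dig b (u * low b N a z) i = u * if i < N then dig b z i % 2 ^ a else 0 := by
    intro i
    rw [dig_smul b hb0, dig_low b hb0 N a ha]
    intro j _
    rw [dig_low b hb0 N a ha]
    refine lt_of_le_of_lt (Nat.mul_le_mul_left u ?_) hu
    split_ifs
    · exact (Nat.mod_lt _ hp).le
    · exact Nat.zero_le _
  have d3 : ∀ i, dig b (low b N a (u * low b N a z)) i =
      if i < N then (u * (dig b z i % 2 ^ a)) % 2 ^ a else 0 := by
    intro i
    rw [dig_low b hb0 N a ha, d2]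
    split_ifs <;> rfl
  have bd : ∀ i, dig b (low b N b z) i + m * dig b (low b N a (u * low b N a z)) i ≤
      c + m * 2 ^ a := by
    intro i
    rw [d1, d3]
    split_ifs with h
    · exact Nat.add_le_add (hz i h).1 (Nat.mul_le_mul_left m (Nat.mod_lt _ hp).le)
    · simp
  have d4 : ∀ i, dig b (low b N b z + m * low b N a (u * low b N a z)) i =
      dig b (low b N b z) i + m * dig b (low b N a (u * low b N a z)) i := by
    intro i
    have := dig_lin b hb0 1 m (low b N b z) (low b N a (u * low b N a z)) i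
      (fun j _ => by rw [one_mul]; exact (bd j).trans_lt hc)
    simpa using this
  have dv : ∀ i, 2 ^ a ∣ dig b (low b N b z + m * low b N a (u * low b N a z)) i := by
    intro i
    rw [d4, d1, d3]
    split_ifs
    · apply (Nat.modEq_zero_iff_dvd).1
      have h1 : dig b z i + m * (u * (dig b z i % 2 ^ a) % 2 ^ a) ≡
          dig b z i + m * (u * dig b z i) [MOD 2 ^ a] :=
        Nat.ModEq.add_left _ (Nat.ModEq.mul_left _
          ((Nat.mod_modEq _ _).trans (Nat.ModEq.mul_left _ (Nat.mod_modEq _ _))))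
      refine h1.trans ((Nat.modEq_zero_iff_dvd).2 ?_)
      rw [show dig b z i + m * (u * dig b z i) = (m * u + 1) * dig b z i by ring]
      exact Dvd.dvd.mul_right hmu _
    · simp
  intro k hk
  rw [H4Kron.mont, Nat.shiftRight_eq_div_pow, dig_divc b hb0 _ _ _ hp dv]
  constructor
  · rw [d4, ← Nat.add_mul_div_right _ _ hp]
    exact Nat.div_le_div_right (bd k)
  · obtain ⟨t, ht⟩ := dv k
    rw [ht, Nat.mul_div_cancel_left _ hp, PowerSeries.coeff_C_mul, ← (hz k hk).2]
    have h1 := congrArg (Nat.cast : ℕ → ZMod m) ht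
    rw [d4, d1, if_pos hk] at h1
    simp only [Nat.cast_add, Nat.cast_mul, ZMod.natCast_self, zero_mul, add_zero, Nat.cast_pow,
      Nat.cast_ofNat] at h1
    rw [h1, ← mul_assoc, hr, one_mul]

theorem rep_unique {b m N c c' x : ℕ} {φ ψ : PowerSeries (ZMod m)} (h1 : Rep b m N c x φ)
    (h2 : Rep b m N c' x ψ) : (PowerSeries.X : PowerSeries (ZMod m)) ^ N ∣ φ - ψ := by
  rw [PowerSeries.X_pow_dvd_iff]
  intro k hk
  rw [map_sub, ← (h1 k hk).2, ← (h2 k hk).2, sub_self]

theorem rep_one (b m N : ℕ) (hb : 0 < b) : Rep b m N 1 1 1 := by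
  have h : 1 < 2 ^ b := Nat.one_lt_two_pow hb.ne'
  intro k _
  rw [dig_small _ _ _ h, PowerSeries.coeff_one]
  by_cases hk : k = 0
  · simp [hk]
  · rw [if_neg (by omega), if_neg hk, Nat.cast_zero]
    exact ⟨Nat.zero_le _, rfl⟩

theorem sigma_split (s n K : ℕ) (hn : 0 < n) (hK : n < (K + 1) * (K + 1)) :
    ∑ d ∈ Finset.range K, ((if (d + 1) ∣ n then (n / (d + 1)) ^ s else 0) +
      (if (d + 1) ∣ n ∧ (K + 1) * (d + 1) ≤ n then (d + 1) ^ s else 0)) =
    ArithmeticFunction.sigma s n := by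
  rw [Finset.sum_add_distrib, ← Finset.sum_filter, ← Finset.sum_filter,
    ArithmeticFunction.sigma_apply, add_comm,
    ← Finset.sum_filter_add_sum_filter_not n.divisors (fun d => (K + 1) * d ≤ n)]
  congr 1
  · apply Finset.sum_bij (fun d _ => d + 1)
    · intro d hd
      simp only [Finset.mem_filter, Finset.mem_range, Nat.mem_divisors] at hd ⊢
      exact ⟨⟨hd.2.1, hn.ne'⟩, hd.2.2⟩
    · intro a _ b _ h
      omega
    · intro e he
      simp only [Finset.mem_filter, Nat.mem_divisors] at he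
      have h0 : 0 < e := Nat.pos_of_dvd_of_pos he.1.1 hn
      obtain ⟨d, rfl⟩ : ∃ d, e = d + 1 := ⟨e - 1, by omega⟩
      refine ⟨d, ?_, rfl⟩
      simp only [Finset.mem_filter, Finset.mem_range]
      refine ⟨?_, he.1.1, he.2⟩
      by_contra hc
      have h1 : K + 1 ≤ d + 1 := by omega
      have := Nat.mul_le_mul_left (K + 1) h1
      omega
    · intro d _
      rfl
  · apply Finset.sum_bij (fun d _ => n / (d + 1))
    · intro d hd
      simp only [Finset.mem_filter, Finset.mem_range, Nat.mem_divisors] at hd ⊢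
      obtain ⟨h, ⟨c, rfl⟩⟩ := hd
      rw [Nat.mul_div_cancel_left _ (Nat.succ_pos d)]
      have hc : 0 < c := Nat.pos_of_mul_pos_left hn
      refine ⟨⟨Dvd.intro_left _ rfl, hn.ne'⟩, not_le.2 ?_⟩
      exact Nat.mul_lt_mul_of_pos_right (by omega) hc
    · intro a ha b hb h
      simp only [Finset.mem_filter] at ha hb
      have h1 := Nat.div_div_self ha.2 hn.ne'
      have h2 := Nat.div_div_self hb.2 hn.ne'
      have h3 : n / (a + 1) = n / (b + 1) := h
      rw [h3, h2] at h1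
      omega
    · intro e he
      simp only [Finset.mem_filter, Nat.mem_divisors] at he
      obtain ⟨⟨⟨c, rfl⟩, -⟩, h⟩ := he
      have hc0 : 0 < c := Nat.pos_of_mul_pos_left hn
      obtain ⟨d, rfl⟩ : ∃ d, c = d + 1 := ⟨c - 1, by omega⟩
      refine ⟨d, ?_, Nat.mul_div_cancel _ (Nat.succ_pos d)⟩
      simp only [Finset.mem_filter, Finset.mem_range]
      refine ⟨?_, Dvd.intro_left _ rfl⟩
      have h5 := not_le.1 h
      rw [mul_comm (K + 1) e] at h5
      have := lt_of_mul_lt_mul_left h5 (Nat.zero_le _)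
      omega
    · intro d _
      rfl

/-- One step of the hyperbola method for the series of `sigma s`. -/
def hyp (b N s K P t : ℕ) : ℕ :=
  (P &&& ((2 ^ b - 1) * geom b t (N / t + 1))) / t ^ s +
    t ^ s * (geom b t (N / t + 1)) <<< (b * ((K + 1) * t))

theorem dig_hyp (b : ℕ) (hb : 0 < b) (N s K P t : ℕ) (ht : 0 < t) (htN : t ≤ N)
    (hP : ∀ k, dig b P k = if k < N then k ^ s else 0) (hN : 2 * N ^ s < 2 ^ b) :
    ∀ k < N, dig b (hyp b N s K P t) k = (if t ∣ k then (k / t) ^ s else 0) +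
      (if t ∣ k ∧ (K + 1) * t ≤ k then t ^ s else 0) := by
  have hJ : N < t * (N / t + 1) := Nat.lt_mul_div_succ N ht
  have hts : t ^ s ≤ N ^ s := Nat.pow_le_pow_left htN s
  have d1 : ∀ i, dig b (P &&& ((2 ^ b - 1) * geom b t (N / t + 1))) i =
      if t ∣ i ∧ i < N then i ^ s else 0 := by
    intro i
    rw [dig_mask b hb b le_rfl _ _ _ _ ht, Nat.mod_eq_of_lt (dig_lt _ _ _), hP]
    by_cases h1 : t ∣ i
    · by_cases h2 : i < N
      · rw [if_pos ⟨h1, by omega⟩, if_pos h2, if_pos ⟨h1, h2⟩]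
      · simp [h2]
    · simp [h1]
  have d2 : ∀ i < N, dig b ((P &&& ((2 ^ b - 1) * geom b t (N / t + 1))) / t ^ s) i =
      if t ∣ i then (i / t) ^ s else 0 := by
    intro i hi
    rw [dig_divc b hb _ _ _ (by positivity), d1]
    · by_cases h1 : t ∣ i
      · rw [if_pos ⟨h1, hi⟩, if_pos h1, Nat.div_pow h1]
      · simp [h1]
    · intro j
      rw [d1]
      split_ifs with h
      · exact pow_dvd_pow_of_dvd h.1 s
      · exact dvd_zero _
  have d3 : ∀ i < N, dig b ((geom b t (N / t + 1)) <<< (b * ((K + 1) * t))) i =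
      if t ∣ i ∧ (K + 1) * t ≤ i then 1 else 0 := by
    intro i hi
    rw [dig_shift, dig_geom b hb _ _ _ ht]
    by_cases h2 : i < (K + 1) * t
    · rw [if_pos h2, if_neg (by omega)]
    · rw [if_neg h2]
      have h3 : t ∣ i - (K + 1) * t ↔ t ∣ i :=
        Nat.dvd_sub_iff_left (not_lt.1 h2) (Dvd.intro_left _ rfl)
      by_cases h1 : t ∣ i
      · rw [if_pos ⟨h3.2 h1, by omega⟩, if_pos ⟨h1, not_lt.1 h2⟩]
      · rw [if_neg (fun h => h1 (h3.1 h.1)), if_neg (fun h => h1 h.1)]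
  intro k hk
  have := dig_lin b hb 1 (t ^ s) ((P &&& ((2 ^ b - 1) * geom b t (N / t + 1))) / t ^ s)
    ((geom b t (N / t + 1)) <<< (b * ((K + 1) * t))) k (by
      intro i hi
      rw [d2 i (by omega), d3 i (by omega)]
      have h1 : (i / t) ^ s ≤ N ^ s :=
        Nat.pow_le_pow_left ((Nat.div_le_self _ _).trans (by omega)) s
      split_ifs <;> omega)
  rw [one_mul, one_mul, d2 k hk, d3 k hk] at this
  rw [hyp, this]
  simp

/-- The sum of the first `T` hyperbola steps. -/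
def hypSum (b N s K P T : ℕ) : ℕ := Nat.rec 0 (fun t acc => acc + hyp b N s K P (t + 1)) T

theorem dig_hypSum (b : ℕ) (hb : 0 < b) (N s K P : ℕ) (hKN : K ≤ N)
    (hP : ∀ k, dig b P k = if k < N then k ^ s else 0) (hN : (K + 1) * (2 * N ^ s) < 2 ^ b)
    (T : ℕ) (hT : T ≤ K) : ∀ k < N, dig b (hypSum b N s K P T) k ≤ T * (2 * N ^ s) ∧
      dig b (hypSum b N s K P T) k =
      ∑ d ∈ Finset.range T, ((if (d + 1) ∣ k then (k / (d + 1)) ^ s else 0) +
      (if (d + 1) ∣ k ∧ (K + 1) * (d + 1) ≤ k then (d + 1) ^ s else 0)) := by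
  induction T with
  | zero => intro k _; simp [hypSum, dig]
  | succ T ih =>
    have ih' := ih (by omega)
    have hN' : 2 * N ^ s < 2 ^ b := by nlinarith [Nat.zero_le (K * (2 * N ^ s))]
    have hh := dig_hyp b hb N s K P (T + 1) (Nat.succ_pos _) (by omega) hP hN'
    have hle : ∀ i < N, dig b (hyp b N s K P (T + 1)) i ≤ 2 * N ^ s := by
      intro i hi
      rw [hh i hi]
      have h1 : (i / (T + 1)) ^ s ≤ N ^ s :=
        Nat.pow_le_pow_left ((Nat.div_le_self _ _).trans (by omega)) s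
      have h2 : (T + 1) ^ s ≤ N ^ s := Nat.pow_le_pow_left (by omega) s
      split_ifs <;> omega
    have hm : (T + 1) * (2 * N ^ s) ≤ (K + 1) * (2 * N ^ s) := Nat.mul_le_mul_right _ (by omega)
    intro k hk
    have e : hypSum b N s K P (T + 1) = hypSum b N s K P T + hyp b N s K P (T + 1) := rfl
    rw [e, dig_add b hb, Finset.sum_range_succ, ← (ih' k hk).2, ← hh k hk]
    · have := (ih' k hk).1
      have := hle k hk
      exact ⟨by rw [add_mul]; omega, rfl⟩
    · intro i hi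
      have := (ih' i (by omega)).1
      have := hle i (by omega)
      rw [add_mul] at hm
      omega

/-- The series of `sigma s` up to `2 ^ d` terms. -/
def sigSer (b d s K : ℕ) : ℕ := hypSum b (2 ^ d) s K (pack b (fun n => Nat.pow n s) d 0) K

theorem rep_sigma (b m d s K : ℕ) (hb : 0 < b) (hs : 0 < s) (hK : K ≤ 2 ^ d)
    (hK2 : 2 ^ d ≤ (K + 1) * (K + 1)) (hN : (K + 1) * (2 * (2 ^ d) ^ s) < 2 ^ b) :
    Rep b m (2 ^ d) (K * (2 * (2 ^ d) ^ s)) (sigSer b d s K)
      (PowerSeries.mk fun n => (ArithmeticFunction.sigma s n : ZMod m)) := by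
  have hP := (pack_spec b (fun n => Nat.pow n s) d 0 (by
    intro k hk
    have h1 : k ^ s ≤ (2 ^ d) ^ s := Nat.pow_le_pow_left (by omega) s
    change k ^ s < _
    rw [add_mul] at hN
    omega)).2
  intro k hk
  obtain ⟨h1, h2⟩ := dig_hypSum b hb (2 ^ d) s K _ hK (fun k => by rw [hP, zero_add]; rfl) hN K
    le_rfl k hk
  refine ⟨h1, ?_⟩
  rw [sigSer, h2, PowerSeries.coeff_mk]
  rcases Nat.eq_zero_or_pos k with rfl | hk0
  · simp [hs.ne']
  · rw [sigma_split s k K hk0 (by omega)]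

end Pool.Agent.Lib.H4Kron
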