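import Mathlib
import Pool.Agent.Lib.helper4.Kron

set_option autoImplicit false

/-! Coefficients of `E8 (E4^3 - E6^2)^6 / (1024 E4^3 + 704 E6^2)^6` modulo `5 ^ 16`. -/

namespace Pool.Agent.Lib.H4ASD

open Pool.Agent.Lib.H4Kron PowerSeries

/-- The divisor power series over a ring. -/
noncomputable def S (R : Type) [CommRing R] (s : ℕ) : R⟦X⟧ :=
  PowerSeries.mk fun n => (ArithmeticFunction.sigma s n : R)

theorem map_S {R T : Type} [CommRing R] [CommRing T] (f : R →+* T) (s : ℕ) :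
    PowerSeries.map f (S R s) = S T s := by
  ext n
  simp [S]

noncomputable def E4 (R : Type) [CommRing R] : R⟦X⟧ := 1 + 240 * S R 3
noncomputable def E6 (R : Type) [CommRing R] : R⟦X⟧ := 1 - 504 * S R 5
noncomputable def E8 (R : Type) [CommRing R] : R⟦X⟧ := 1 + 480 * S R 7
noncomputable def UU (R : Type) [CommRing R] : R⟦X⟧ := 1024 * E4 R ^ 3 + 704 * E6 R ^ 2
noncomputable def VV (R : Type) [CommRing R] : R⟦X⟧ := E4 R ^ 3 - E6 R ^ 2

theorem twelve (n : ℕ) :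
    12 ∣ 5 * ArithmeticFunction.sigma 3 n + 7 * ArithmeticFunction.sigma 5 n := by
  rw [ArithmeticFunction.sigma_apply, ArithmeticFunction.sigma_apply, Finset.mul_sum,
    Finset.mul_sum, ← Finset.sum_add_distrib]
  apply Finset.dvd_sum
  intro d _
  rw [← ZMod.natCast_eq_zero_iff]
  push_cast
  generalize (d : ZMod 12) = x
  revert x
  decide

theorem S_zero (s : ℕ) : constantCoeff (S ℤ s) = 0 := by
  simp [S, ← coeff_zero_eq_constantCoeff_apply]

theorem exists_D : ∃ D : ℤ⟦X⟧, VV ℤ = 1728 * D ∧ constantCoeff D = 0 := by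
  obtain ⟨W, hW, hW0⟩ : ∃ W : ℤ⟦X⟧, 12 * W = 5 * S ℤ 3 + 7 * S ℤ 5 ∧ constantCoeff W = 0 := by
    refine ⟨PowerSeries.mk fun n =>
      (((5 * ArithmeticFunction.sigma 3 n + 7 * ArithmeticFunction.sigma 5 n) / 12 : ℕ) : ℤ), ?_,
      by simp [← coeff_zero_eq_constantCoeff_apply]⟩
    ext n
    have h := congrArg (Nat.cast : ℕ → ℤ) (Nat.mul_div_cancel' (twelve n))
    simp only [S, map_add, ← nsmul_eq_mul, ← Nat.cast_ofNat (R := ℤ⟦X⟧), map_nsmul, coeff_mk]
    simpa using h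
  refine ⟨W + 100 * S ℤ 3 ^ 2 - 147 * S ℤ 5 ^ 2 + 8000 * S ℤ 3 ^ 3, ?_, by simp [S_zero, hW0]⟩
  simp only [VV, E4, E6]
  linear_combination (-144) * hW

theorem exists_G : ∃ G : ℤ⟦X⟧, G * UU ℤ ^ 6 = E8 ℤ * VV ℤ ^ 6 := by
  obtain ⟨D, hD, hD0⟩ := exists_D
  have hU : UU ℤ = 1728 * (E4 ℤ ^ 3 - 704 * D) := by
    have : E6 ℤ ^ 2 = E4 ℤ ^ 3 - 1728 * D := by rw [← hD, VV]; ring
    rw [UU, this]
    ring
  have hc : constantCoeff ((E4 ℤ ^ 3 - 704 * D) ^ 6) = ((1 : ℤˣ) : ℤ) := by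
    simp [E4, S_zero, hD0]
  have hi := invOfUnit_mul _ 1 hc
  rw [hU, hD]
  generalize E4 ℤ ^ 3 - 704 * D = T at hi ⊢
  generalize invOfUnit (T ^ 6) 1 = I at hi
  refine ⟨E8 ℤ * D ^ 6 * I, ?_⟩
  linear_combination (E8 ℤ * (1728 * D) ^ 6) * hi

theorem map_eq {T : Type} [CommRing T] {G : ℤ⟦X⟧} (h : G * UU ℤ ^ 6 = E8 ℤ * VV ℤ ^ 6) :
    PowerSeries.map (Int.castRingHom T) G * UU T ^ 6 = E8 T * VV T ^ 6 := by
  have := congrArg (PowerSeries.map (Int.castRingHom T)) h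
  simpa only [UU, VV, E4, E6, E8, map_mul, map_pow, map_add, map_sub, map_one, map_ofNat, map_S]
    using this

abbrev m : ℕ := 152587890625

noncomputable def mm (z : ℕ) : ℕ :=
  mont 128 m (2 ^ 14) 56 25665618659663807 (mont 128 m (2 ^ 14) 56 25665618659663807 z)

noncomputable def tau : (ZMod m)⟦X⟧ := C 54349061541 * C 54349061541

theorem rep_mm {c z : ℕ} {φ : (ZMod m)⟦X⟧} (h : Rep 128 m (2 ^ 14) c z φ) (hc : c ≤ 2 ^ 120) :
    Rep 128 m (2 ^ 14) (2 * m) (mm z) (tau * φ) := by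
  have hr : (54349061541 : ZMod m) * 2 ^ 56 = 1 := by decide +kernel
  have h1 := (h.mono hc).mont (by norm_num) 56 25665618659663807 54349061541 (by norm_num)
    (by norm_num) (by norm_num) hr (by norm_num)
  have h2 := h1.mont (by norm_num) 56 25665618659663807 54349061541 (by norm_num)
    (by norm_num) (by norm_num) hr (by norm_num)
  rw [tau, mul_assoc]
  exact h2.mono (by norm_num)

theorem rep_mul2 {x y : ℕ} {φ ψ : (ZMod m)⟦X⟧} (hx : Rep 128 m (2 ^ 14) (2 * m) x φ)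
    (hy : Rep 128 m (2 ^ 14) (2 * m) y ψ) :
    Rep 128 m (2 ^ 14) (2 * m) (mm (x * y)) (tau * (φ * ψ)) :=
  rep_mm (hx.mul (by norm_num) hy (by norm_num)) (by norm_num)

theorem cg {c x : ℕ} {φ ψ : (ZMod m)⟦X⟧} (h : Rep 128 m (2 ^ 14) c x φ) (e : φ = ψ) :
    Rep 128 m (2 ^ 14) c x ψ := e ▸ h

theorem cgx {c x y : ℕ} {φ : (ZMod m)⟦X⟧} (h : Rep 128 m (2 ^ 14) c x φ) (e : x = y) :
    Rep 128 m (2 ^ 14) c y φ := e ▸ h

attribute [local irreducible] mm low geom sigSer dig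

noncomputable def e4 : ℕ := mm (1 * 1 + 240 * sigSer 128 14 3 127)
noncomputable def e6 : ℕ := mm (1 * 1 + 152587890121 * sigSer 128 14 5 127)
noncomputable def e8 : ℕ := mm (1 * 1 + 480 * sigSer 128 14 7 127)
noncomputable def aa : ℕ := mm (mm (e4 * e4) * e4)
noncomputable def bb : ℕ := mm (mm (mm (e6 * e6)))
noncomputable def uu : ℕ := mm (1024 * aa + 704 * bb)
noncomputable def vv : ℕ := mm (1 * aa + 152587890624 * bb)
noncomputable def newton : ℕ := Nat.rec 31404683247 (fun _ w =>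
  mm (24508686716 * mm (w * (2 + 2 * m * geom 128 1 (2 ^ 14) - mm (uu * w))))) (14 : ℕ)
noncomputable def ww : ℕ := low 128 (2 ^ 14) 40 newton
noncomputable def gg : ℕ := mm (vv * ww)
noncomputable def g3 : ℕ := mm (mm (gg * gg) * gg)
noncomputable def ff : ℕ := mm (e8 * mm (g3 * g3))

theorem check : mm (uu * ww) = 1 * 1 + m * low 128 (2 ^ 14) 2 ((mm (uu * ww) - 1) / m) ∧
    (dig 128 ff 15625 + 152587890624 * dig 128 ff 3125 + 280 * dig 128 ff 625 +
      19250 * dig 128 ff 125 + 152585484375 * dig 128 ff 25 + 152041015625 * dig 128 ff 5 +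
      30517578125 * dig 128 ff 1) % m ≠ 0 := by
  decide +kernel

theorem rep_e4 : Rep 128 m (2 ^ 14) (2 * m) e4 (tau * E4 (ZMod m)) := by
  have h := rep_mm ((rep_one 128 m (2 ^ 14) (by norm_num)).lin (by norm_num) 1 240
    (rep_sigma 128 m 14 3 127 (by norm_num) (by norm_num) (by norm_num) (by norm_num)
      (by norm_num)) (by norm_num)) (by norm_num)
  have e : (C ((1 : ℕ) : ZMod m) * 1 + C ((240 : ℕ) : ZMod m) * S (ZMod m) 3) = E4 (ZMod m) := by
    simp [E4, map_ofNat]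
  rw [← e, e4]
  exact h

theorem rep_e6 : Rep 128 m (2 ^ 14) (2 * m) e6 (tau * E6 (ZMod m)) := by
  have h := rep_mm ((rep_one 128 m (2 ^ 14) (by norm_num)).lin (by norm_num) 1 152587890121
    (rep_sigma 128 m 14 5 127 (by norm_num) (by norm_num) (by norm_num) (by norm_num)
      (by norm_num)) (by norm_num)) (by norm_num)
  have e0 : ((152587890121 : ℕ) : ZMod m) = -504 := by decide +kernel
  have e : (C ((1 : ℕ) : ZMod m) * 1 + C ((152587890121 : ℕ) : ZMod m) * S (ZMod m) 5) =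
      E6 (ZMod m) := by
    rw [e0]
    simp [E6, map_ofNat, sub_eq_add_neg]
  rw [← e, e6]
  exact h

theorem rep_e8 : Rep 128 m (2 ^ 14) (2 * m) e8 (tau * E8 (ZMod m)) := by
  have h := rep_mm ((rep_one 128 m (2 ^ 14) (by norm_num)).lin (by norm_num) 1 480
    (rep_sigma 128 m 14 7 127 (by norm_num) (by norm_num) (by norm_num) (by norm_num)
      (by norm_num)) (by norm_num)) (by norm_num)
  have e : (C ((1 : ℕ) : ZMod m) * 1 + C ((480 : ℕ) : ZMod m) * S (ZMod m) 7) = E8 (ZMod m) := by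
    simp [E8, map_ofNat]
  rw [← e, e8]
  exact h

theorem rep_aa : Rep 128 m (2 ^ 14) (2 * m) aa (tau ^ 5 * E4 (ZMod m) ^ 3) := by
  rw [aa]
  exact cg (rep_mul2 (rep_mul2 rep_e4 rep_e4) rep_e4) (by ring)

theorem rep_bb : Rep 128 m (2 ^ 14) (2 * m) bb (tau ^ 5 * E6 (ZMod m) ^ 2) := by
  rw [bb]
  exact cg (rep_mm (rep_mm (rep_mul2 rep_e6 rep_e6) (by norm_num)) (by norm_num)) (by ring)

theorem rep_uu : Rep 128 m (2 ^ 14) (2 * m) uu (tau ^ 6 * UU (ZMod m)) := by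
  have h := rep_mm (rep_aa.lin (by norm_num) 1024 704 rep_bb (by norm_num)) (by norm_num)
  rw [uu]
  refine cg h ?_
  simp only [UU, Nat.cast_ofNat, map_ofNat]
  ring

theorem rep_vv : Rep 128 m (2 ^ 14) (2 * m) vv (tau ^ 6 * VV (ZMod m)) := by
  have h := rep_mm (rep_aa.lin (by norm_num) 1 152587890624 rep_bb (by norm_num)) (by norm_num)
  have e0 : ((152587890624 : ℕ) : ZMod m) = -1 := by decide +kernel
  rw [e0] at h
  rw [vv]
  refine cg h ?_
  simp only [VV, Nat.cast_one, map_neg, map_one]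
  ring

theorem main (G : (ZMod m)⟦X⟧) (hG : G * UU (ZMod m) ^ 6 = E8 (ZMod m) * VV (ZMod m) ^ 6) :
    coeff 15625 G - coeff 3125 G + 280 * coeff 625 G + 19250 * coeff 125 G -
      2406250 * coeff 25 G - 546875000 * coeff 5 G + 30517578125 * coeff 1 G ≠ 0 := by
  obtain ⟨ψ, hψ⟩ : ∃ ψ, Rep 128 m (2 ^ 14) (2 ^ 40) ww ψ := by
    rw [ww]
    exact ⟨_, rep_low 128 m (2 ^ 14) 40 (by norm_num) (by norm_num) newton⟩
  have h1 := rep_mm (rep_uu.mul (by norm_num) hψ (by norm_num)) (by norm_num)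
  obtain ⟨χ, hχ⟩ : ∃ χ, Rep 128 m (2 ^ 14) (2 ^ 2)
      (low 128 (2 ^ 14) 2 ((mm (uu * ww) - 1) / m)) χ :=
    ⟨_, rep_low 128 m (2 ^ 14) 2 (by norm_num) (by norm_num) _⟩
  have h2 := cg (cgx ((rep_one 128 m (2 ^ 14) (by norm_num)).lin (by norm_num) 1 m hχ
    (by norm_num)) check.1.symm) (ψ := 1) (by
      rw [ZMod.natCast_self, map_zero, zero_mul, add_zero, Nat.cast_one, map_one, mul_one])
  have h3 := rep_unique h1 h2
  have hg := rep_mm (rep_vv.mul (by norm_num) hψ (by norm_num)) (by norm_num)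
  rw [← gg] at hg
  have hg3 := rep_mul2 (rep_mul2 hg hg) hg
  rw [← g3] at hg3
  have hf := rep_mul2 rep_e8 (rep_mul2 hg3 hg3)
  rw [← ff] at hf
  have h4 := (h3.trans (sub_dvd_pow_sub_pow _ 1 6)).mul_left (tau ^ 7 * G)
  have h5 : ∀ k < 2 ^ 14, (dig 128 ff k : ZMod m) = 54349061541 ^ 14 * coeff k G := by
    intro k hk
    have h6 := X_pow_dvd_iff.1 h4 k hk
    have e1 : tau ^ 7 = C (54349061541 ^ 14) := by
      rw [tau, map_pow]
      ring
    rw [(hf k hk).2, ← coeff_C_mul, ← e1, ← sub_eq_zero, ← map_sub, ← h6]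
    congr 1
    linear_combination (-(tau ^ 49 * ψ ^ 6)) * hG
  intro h0
  apply check.2
  rw [← Nat.dvd_iff_mod_eq_zero, ← ZMod.natCast_eq_zero_iff]
  have c1 : ((152587890624 : ℕ) : ZMod m) = -1 := by decide +kernel
  have c2 : ((152585484375 : ℕ) : ZMod m) = -2406250 := by decide +kernel
  have c3 : ((152041015625 : ℕ) : ZMod m) = -546875000 := by decide +kernel
  simp only [Nat.cast_add, Nat.cast_mul, c1, c2, c3]
  rw [h5 _ (by norm_num), h5 _ (by norm_num), h5 _ (by norm_num), h5 _ (by norm_num),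
    h5 _ (by norm_num), h5 _ (by norm_num), h5 _ (by norm_num)]
  simp only [Nat.cast_ofNat]
  linear_combination (54349061541 ^ 14 : ZMod m) * h0

theorem main_int (G : ℤ⟦X⟧) (hG : G * UU ℤ ^ 6 = E8 ℤ * VV ℤ ^ 6) :
    ¬ (5 : ℤ) ^ 16 ∣ coeff 15625 G - coeff 3125 G + 280 * coeff 625 G + 19250 * coeff 125 G -
      2406250 * coeff 25 G - 546875000 * coeff 5 G + 30517578125 * coeff 1 G := by
  intro h
  apply main _ (map_eq hG)
  have h1 := (ZMod.intCast_zmod_eq_zero_iff_dvd _ m).2 (by simpa using h)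
  simpa only [coeff_map, eq_intCast, Int.cast_add, Int.cast_sub, Int.cast_mul, Int.cast_ofNat]
    using h1

end Pool.Agent.Lib.H4ASD
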