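import Mathlib

/-! A tree-like semilattice whose point filters cannot be two-coloured cofinally. -/

namespace Pool.Agent.Lib.helper4.BaseRes

open Set

/-- Nodes. -/
inductive N
  | root : N
  | free (x : N) : N
  | u (a : ℕ → N) (i : ℕ) : N

open N

/-- Parent. -/
def par : N → N
  | root => root
  | free x => x
  | u a i => a i

/-- Depth. -/
def dep : N → ℕ
  | root => 0
  | free x => dep x + 1
  | u a i => dep (a i) + 1

/-- Rank. -/
noncomputable def rk : N → Ordinal.{0}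
  | root => 0
  | free x => rk x + 1
  | u a _ => ⨆ k, (rk (a k) + 1)

/-- Index among siblings. -/
def idx : N → ℕ
  | u _ i => i
  | _ => 0

/-- `w` descends from `x`. -/
def D (w x : N) : Prop := ∃ k, par^[k] w = x

theorem D.refl (w : N) : D w w := ⟨0, rfl⟩
theorem D.trans {w x y} : D w x → D x y → D w y := fun ⟨k, hk⟩ ⟨l, hl⟩ =>
  ⟨l + k, by rw [Function.iterate_add_apply, hk, hl]⟩
theorem D_par (w : N) : D w (par w) := ⟨1, rfl⟩
theorem D.cases {w x} : D w x → w = x ∨ D (par w) x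
  | ⟨0, h⟩ => Or.inl h
  | ⟨k + 1, h⟩ => Or.inr ⟨k, h⟩
theorem D.total {w x y} : D w x → D w y → D x y ∨ D y x := by
  rintro ⟨k, rfl⟩ ⟨l, rfl⟩
  rcases le_total k l with h | h <;> obtain ⟨m, rfl⟩ := Nat.exists_eq_add_of_le' h
  · exact Or.inl ⟨m, (Function.iterate_add_apply _ _ _ _).symm⟩
  · exact Or.inr ⟨m, (Function.iterate_add_apply _ _ _ _).symm⟩

theorem rk_lt_u (a : ℕ → N) (k i : ℕ) : rk (a k) < rk (u a i) :=
  (lt_add_one _).trans_le (Ordinal.le_iSup (fun k => rk (a k) + 1) k)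

theorem D.lt {w x} (h : D w x) : x = w ∨ rk x < rk w ∧ dep x < dep w := by
  obtain ⟨k, rfl⟩ := h
  induction k with
  | zero => exact Or.inl rfl
  | succ k ih =>
    rw [Function.iterate_succ_apply']
    have : ∀ y, par y = y ∨ rk (par y) < rk y ∧ dep (par y) < dep y := fun y => by
      cases y with
      | root => exact Or.inl rfl
      | free x => exact Or.inr ⟨lt_add_one _, lt_add_one _⟩
      | u a i => exact Or.inr ⟨rk_lt_u a i i, lt_add_one _⟩
    rcases this (par^[k] w) with h | h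
    · rw [h]; exact ih
    · rcases ih with e | e
      · rw [e] at h ⊢; exact Or.inr h
      · exact Or.inr ⟨h.1.trans e.1, h.2.trans e.2⟩

theorem D.rk_le {w x} (h : D w x) : rk x ≤ rk w := h.lt.elim (fun e => e ▸ le_rfl) fun e => e.1.le
theorem D.dep_le {w x} (h : D w x) : dep x ≤ dep w :=
  h.lt.elim (fun e => e ▸ le_rfl) fun e => e.2.le
theorem D.of_rk {w x y} (h : D w x) (h' : D w y) (e : rk y ≤ rk x) : D x y :=
  (h.total h').elim id fun a => a.lt.elim (fun b => b ▸ D.refl _) fun b => absurd b.1 e.not_gt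
theorem D.of_dep {w x y} (h : D w x) (h' : D w y) (e : dep y ≤ dep x) : D x y :=
  (h.total h').elim id fun a => a.lt.elim (fun b => b ▸ D.refl _) fun b => absurd b.2 e.not_gt
theorem D.eq_rk {w x y} (h : D w x) (h' : D w y) (e : rk y = rk x) : y = x :=
  (h.of_rk h' e.le).lt.resolve_right fun b => b.1.ne e
theorem D.eq_dep {w x y} (h : D w x) (h' : D w y) (e : dep y = dep x) : y = x :=
  (h.of_dep h' e.le).lt.resolve_right fun b => b.2.ne e
theorem D.par_of {w x} (h : D w x) (e : rk x < rk w) : D (par w) x :=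
  h.cases.resolve_left fun b => e.ne (b ▸ rfl)

/-- `w` is `x` or a younger sibling of `x`. -/
def Sib (w x : N) : Prop := w = x ∨ ∃ a i j, j ≤ i ∧ w = u a i ∧ x = u a j

/-- The order. -/
def Le (w x : N) : Prop := ∃ w', D w w' ∧ Sib w' x

/-- Extendable chains. -/
def Ch (a : ℕ → N) : Prop := ∀ k, D (a (k + 1)) (free (a k))

/-- Legitimate nodes. -/
def Good (w : N) : Prop := ∀ a i, D w (u a i) → Ch a

theorem Sib.rk {w x} (h : Sib w x) : rk w = rk x := by
  rcases h with rfl | ⟨a, i, j, -, rfl, rfl⟩ <;> rfl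
theorem Sib.u {w a j} (h : Sib w (u a j)) : ∃ i, j ≤ i ∧ w = u a i := by
  rcases h with rfl | ⟨a, i, j, h, rfl, ⟨⟩⟩
  exacts [⟨j, le_rfl, rfl⟩, ⟨i, h, rfl⟩]
theorem Sib.u' {x a i} (h : Sib (N.u a i) x) : ∃ j, j ≤ i ∧ x = N.u a j := by
  rcases h with rfl | ⟨a, i, j, h, ⟨⟩, rfl⟩
  exacts [⟨i, le_rfl, rfl⟩, ⟨j, h, rfl⟩]
theorem Sib.trans {w x y} (h : Sib w x) (h' : Sib x y) : Sib w y := by
  rcases h with rfl | ⟨a, i, j, h, rfl, rfl⟩
  · exact h'
  · obtain ⟨k, e, rfl⟩ := h'.u'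
    exact Or.inr ⟨a, i, k, e.trans h, rfl, rfl⟩
theorem Sib.of_idx {x y z} (h : Sib x z) (h' : Sib y z) (e : idx x ≤ idx y) : Sib y x := by
  cases z with
  | u a j =>
    obtain ⟨i, -, rfl⟩ := h.u
    obtain ⟨k, -, rfl⟩ := h'.u
    exact Or.inr ⟨a, k, i, e, rfl, rfl⟩
  | _ =>
    obtain rfl := h.resolve_right (by rintro ⟨_, _, _, _, _, ⟨⟩⟩)
    exact h'
theorem Sib.anti {x y} (h : Sib x y) (h' : Sib y x) : x = y := by
  rcases h with rfl | ⟨a, i, j, h, rfl, rfl⟩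
  · rfl
  · obtain ⟨k, e, ⟨⟩⟩ := h'.u'
    rw [le_antisymm h e]

theorem Ch.D {a} (h : Ch a) {i j} (e : j ≤ i) : D (a i) (a j) := by
  induction e with
  | refl => exact D.refl _
  | step _ ih => exact ((h _).trans (D_par _)).trans ih
theorem Ch.dep {a} (h : Ch a) (k : ℕ) : k ≤ dep (a k) := by
  induction k with
  | zero => exact Nat.zero_le _
  | succ k ih => exact (Nat.succ_le_succ ih).trans (h k).dep_le

theorem Good.anc {w x} (h : Good w) (e : D w x) : Good x := fun a i e' => h a i (e.trans e')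
theorem good_u {a i} (h : Ch a) (h' : Good (a i)) : Good (u a i) := fun b j e => by
  rcases e.cases with ⟨⟨⟩⟩ | e
  exacts [h, h' b j e]
theorem good_free {x} (h : Good x) : Good (free x) := fun b j e => by
  rcases e.cases with ⟨⟨⟩⟩ | e
  exact h b j e
theorem good_root : Good root := fun b j e => by
  rcases e.lt with ⟨⟨⟩⟩ | e
  exact absurd e.2 (Nat.not_lt_zero _)
theorem Sib.par {w x} (h : Sib w x) (g : Good w) : D (par w) (par x) := by
  rcases h with rfl | ⟨a, i, j, h, rfl, rfl⟩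
  exacts [D.refl _, (g a i (D.refl _)).D h]
theorem Sib.good {w x} (h : Sib w x) (g : Good w) : Good x := by
  rcases h with rfl | ⟨a, i, j, h, rfl, rfl⟩
  · exact g
  · exact good_u (g a i (D.refl _)) (g.anc ((D_par _).trans ((g a i (D.refl _)).D h)))

theorem D.le {w x} (h : D w x) : Le w x := ⟨x, h, Or.inl rfl⟩
theorem Sib.le {w x} (h : Sib w x) : Le w x := ⟨w, D.refl _, h⟩
theorem Le.good {w x} (h : Le w x) (g : Good w) : Good x :=
  let ⟨_, a, b⟩ := h; b.good (g.anc a)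
theorem Le.rk_le {w x} (h : Le w x) : rk x ≤ rk w := let ⟨_, a, b⟩ := h; b.rk ▸ a.rk_le
theorem Le.trans {w x y} (g : Good w) : Le w x → Le x y → Le w y := by
  rintro ⟨w', a, b⟩ ⟨x', c, d⟩
  rcases c.cases with rfl | c
  · exact ⟨w', a, b.trans d⟩
  · exact ⟨x', (a.trans (D_par _)).trans ((b.par (g.anc a)).trans c), d⟩

theorem comp {w x y} (h1 : Le w x) (h2 : Le w y) (e : rk x ≤ rk y) :
    ∃ y' x', Sib y' y ∧ Sib x' x ∧ D w y' ∧ D y' x' := by
  obtain ⟨x', a, b⟩ := h1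
  obtain ⟨y', c, d⟩ := h2
  exact ⟨y', x', d, b, c, c.of_rk a (by rwa [b.rk, d.rk])⟩

theorem meet (x y : N) (h : ∃ w, Good w ∧ Le w x ∧ Le w y) :
    ∃ z, ∀ w, Good w → (Le w z ↔ Le w x ∧ Le w y) := by
  wlog e : rk x ≤ rk y
  · obtain ⟨z, hz⟩ := this y x (h.imp fun _ h => ⟨h.1, h.2.symm⟩) (le_of_not_ge e)
    exact ⟨z, fun w g => (hz w g).trans and_comm⟩
  obtain ⟨w, g, h1, h2⟩ := h
  obtain ⟨y', x', a, b, c, d⟩ := comp h1 h2 e
  obtain ⟨z, ⟨z1, z2⟩, z3⟩ := (measure idx).wf.has_min {z | Sib z y ∧ Le z x} ⟨y', a, x', d, b⟩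
  refine ⟨z, fun w g => ⟨fun h => ⟨h.trans g z2, h.trans g z1.le⟩, fun h => ?_⟩⟩
  obtain ⟨y', x', a, b, c, d⟩ := comp h.1 h.2 e
  exact ⟨y', c, z1.of_idx a (not_lt.1 (z3 y' ⟨a, x', d, b⟩))⟩

/-- Branches through non-free nodes. -/
def PI (b : ℕ → N) : Prop := Good (b 0) ∧ ∀ k, ∃ a i, Ch a ∧ b (k + 1) = u a i ∧ a i = b k

/-- Extendable chains of legitimate nodes. -/
def PII (a : ℕ → N) : Prop := Ch a ∧ ∀ k, Good (a k)

/-- The filter generated by a sequence. -/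
def fil (s : ℕ → N) : Set N := {x | ∃ k, Le (s k) x}

/-- Points. -/
def IsPt (F : Set N) : Prop := (∃ b, PI b ∧ F = fil b) ∨ ∃ a, PII a ∧ F = fil (u a)

theorem PI.par {b} (h : PI b) (k : ℕ) : par (b (k + 1)) = b k := by
  obtain ⟨a, i, -, e, e'⟩ := h.2 k
  rw [e, ← e']; rfl
theorem PI.good {b} (h : PI b) (k : ℕ) : Good (b k) := by
  induction k with
  | zero => exact h.1
  | succ k ih =>
    obtain ⟨a, i, c, e, e'⟩ := h.2 k
    rw [e]; exact good_u c (e' ▸ ih)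
theorem PI.D {b} (h : PI b) {i j} (e : j ≤ i) : D (b i) (b j) := by
  induction e with
  | refl => exact D.refl _
  | @step m _ ih => exact BaseRes.D.trans ⟨1, h.par m⟩ ih
theorem PI.dep {b} (h : PI b) (k : ℕ) : k ≤ dep (b k) := by
  induction k with
  | zero => exact Nat.zero_le _
  | succ k ih =>
    obtain ⟨a, i, c, e, e'⟩ := h.2 k
    rw [e]; exact Nat.succ_le_succ (e' ▸ ih)
theorem PI.rk {b} (h : PI b) (k : ℕ) : rk (b k) < rk (b (k + 1)) := by
  obtain ⟨a, i, c, e, e'⟩ := h.2 k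
  rw [e, ← e']; exact rk_lt_u _ _ _
theorem PI.anc {b} (h : PI b) {k z} (e : BaseRes.D (b k) z) :
    BaseRes.D (b 0) z ∨ ∃ j, z = b (j + 1) := by
  induction k with
  | zero => exact Or.inl e
  | succ k ih =>
    rcases e.cases with rfl | e
    · exact Or.inr ⟨k, rfl⟩
    · exact ih (h.par k ▸ e)
theorem PI.not_ch {b c} (h : PI b) (hc : Ch c) (e : ∀ n, ∃ k, BaseRes.D (b k) (c n)) : False := by
  obtain ⟨k, hk⟩ := e (BaseRes.dep (b 0) + 1)
  rcases h.anc (hk.trans (hc _)) with a | ⟨j, a⟩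
  · exact absurd ((Nat.succ_le_succ (hc.dep _)).trans a.dep_le) (by omega)
  · obtain ⟨_, _, -, e, -⟩ := h.2 j
    rw [e] at a; cases a

theorem IsPt.seq {F} (h : IsPt F) : ∃ s, F = fil s ∧ (∀ k, Good (s k)) ∧
    (∀ i j, j ≤ i → Le (s i) (s j)) ∧ (∀ i j, j ≤ i → D (par (s i)) (par (s j))) ∧
    (∀ k, k ≤ dep (par (s (k + 1)))) ∧ (PI s ∨ ∃ a, PII a ∧ s = u a) := by
  rcases h with ⟨b, h, rfl⟩ | ⟨a, h, rfl⟩
  · refine ⟨b, rfl, h.good, fun i j e => (h.D e).le, fun i j e => ?_,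
      fun k => h.par k ▸ h.dep k, Or.inl h⟩
    rcases (h.D e).cases with e | e
    · rw [e]; exact D.refl _
    · exact e.trans (D_par _)
  · exact ⟨u a, rfl, fun k => good_u h.1 (h.2 k), fun i j e => Sib.le (Or.inr ⟨a, i, j, e, rfl, rfl⟩),
      fun i j e => h.1.D e, fun k => (Nat.le_succ k).trans (h.1.dep _), Or.inr ⟨a, h, rfl⟩⟩

theorem IsPt.low {F} (h : IsPt F) {x y} (hx : x ∈ F) (hy : y ∈ F) :
    ∃ w ∈ F, Good w ∧ Le w x ∧ Le w y := by
  obtain ⟨s, rfl, g, m, -⟩ := h.seq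
  obtain ⟨i, hi⟩ := hx
  obtain ⟨j, hj⟩ := hy
  exact ⟨s (max i j), ⟨_, (D.refl _).le⟩, g _, (m _ _ (le_max_left _ _)).trans (g _) hi,
    (m _ _ (le_max_right _ _)).trans (g _) hj⟩

theorem IsPt.up {F} (h : IsPt F) {x y} (hx : x ∈ F) (e : Le x y) : y ∈ F := by
  obtain ⟨s, rfl, g, -⟩ := h.seq
  exact hx.imp fun k hk => hk.trans (g k) e

theorem IsPt.good {F} (h : IsPt F) {x} (hx : x ∈ F) : Good x := by
  obtain ⟨s, rfl, g, -⟩ := h.seq
  obtain ⟨k, hk⟩ := hx
  exact hk.good (g k)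

theorem IsPt.max {F} (h : IsPt F) {x} (hx : ∀ y ∈ F, ∃ w, Good w ∧ Le w x ∧ Le w y) : x ∈ F := by
  rcases h with ⟨b, h, rfl⟩ | ⟨a, h, rfl⟩
  · by_cases e : ∃ k, rk x ≤ rk (b k)
    · obtain ⟨k, e⟩ := e
      obtain ⟨w, g, h1, h2⟩ := hx (b (k + 1)) ⟨_, (D.refl _).le⟩
      obtain ⟨y', x', p, q, r, s⟩ := comp h1 h2 (e.trans (h.rk k).le)
      have t := p.par (g.anc r)
      rw [h.par] at t
      exact ⟨k, x', t.of_rk (s.par_of (by rw [p.rk, q.rk]; exact e.trans_lt (h.rk k)))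
        (q.rk ▸ e), q⟩
    push Not at e
    have : ∀ k, ∃ x', Sib x' x ∧ Good x' ∧ D (par x') (b k) := fun k => by
      obtain ⟨w, g, h1, h2⟩ := hx (b (k + 1)) ⟨_, (D.refl _).le⟩
      obtain ⟨x', y', p, q, r, s⟩ := comp h2 h1 (e _).le
      have t := q.par ((g.anc r).anc s)
      rw [h.par] at t
      exact ⟨x', p, g.anc r, ((s.par_of (by rw [p.rk, q.rk]; exact e _)).trans (D_par _)).trans t⟩
    cases x with
    | u c m =>
      have hc : Ch c := by
        obtain ⟨x', p, q, -⟩ := this 0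
        exact p.good q c m (D.refl _)
      refine (h.not_ch hc fun n => ⟨dep (c n), ?_⟩).elim
      obtain ⟨x', p, q, r⟩ := this (dep (c n))
      obtain ⟨i, -, rfl⟩ := p.u
      exact ((hc.D (le_max_left i n)).trans r).of_dep (hc.D (le_max_right i n)) (h.dep _)
    | _ =>
      obtain ⟨x', p, q, r⟩ := this (dep (par _) + 1)
      obtain rfl := p.resolve_right (by rintro ⟨_, _, _, _, _, ⟨⟩⟩)
      exact absurd ((h.dep _).trans r.dep_le) (Nat.not_succ_le_self _)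
  · by_cases e : rk x ≤ rk (u a 0)
    · obtain ⟨w, g, h1, h2⟩ := hx (u a 0) ⟨_, (D.refl _).le⟩
      obtain ⟨y', x', p, q, r, s⟩ := comp h1 h2 e
      obtain ⟨m, -, rfl⟩ := p.u
      exact ⟨m, x', s, q⟩
    push Not at e
    have : ∀ i, ∃ x' m, i ≤ m ∧ Sib x' x ∧ Good x' ∧ D (par x') (u a m) := fun i => by
      obtain ⟨w, g, h1, h2⟩ := hx (u a i) ⟨_, (D.refl _).le⟩
      obtain ⟨x', y', p, q, r, s⟩ := comp h2 h1 e.le
      obtain ⟨m, hm, rfl⟩ := q.u
      exact ⟨x', m, hm, p, g.anc r, s.par_of (by rw [p.rk]; exact e)⟩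
    obtain ⟨x0, m0, -, p0, g0, d0⟩ := this 0
    obtain ⟨x1, m1, hm, p1, g1, d1⟩ := this (m0 + 1)
    have : u a m0 = u a m1 := by
      rcases le_total (idx x0) (idx x1) with e | e
      · exact d1.eq_rk (((p0.of_idx p1 e).par g1).trans d0) rfl
      · exact (((p1.of_idx p0 e).par g0).trans d1).eq_rk d0 rfl
    cases this
    omega

theorem pt_free {w} (g : Good w) : PII fun k => free^[k] w :=
  ⟨fun k => by simp only [Function.iterate_succ_apply']; exact D.refl _, fun k => by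
    induction k with
    | zero => exact g
    | succ k ih => simp only [Function.iterate_succ_apply']; exact good_free ih⟩

theorem exists_pt {w} (g : Good w) : ∃ F, IsPt F ∧ w ∈ F :=
  ⟨_, Or.inr ⟨_, pt_free g, rfl⟩, 0, (D_par _).le⟩

theorem crowded {F} (h : IsPt F) {x} (hx : x ∈ F) : ∃ F', IsPt F' ∧ x ∈ F' ∧ F' ≠ F := by
  have g := h.good hx
  obtain ⟨F1, p1, m1⟩ := exists_pt (good_free g)
  have g2 : Good (u (fun k => free^[k] x) 0) := good_u (pt_free g).1 g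
  have q2 := pt_free g2
  have : fil (u fun k => free^[k] (u (fun k => free^[k] x) 0)) ≠ F1 := by
    rintro rfl
    obtain ⟨i, w', a, b⟩ := m1
    obtain rfl := b.resolve_right (by rintro ⟨_, _, _, _, _, ⟨⟩⟩)
    rcases a.cases with ⟨⟨⟩⟩ | a
    cases a.eq_dep (q2.1.D (Nat.zero_le i)) rfl
  by_cases e : F1 = F
  · exact ⟨_, Or.inr ⟨_, q2, rfl⟩, ⟨0, ((D_par _).trans (D_par _)).le⟩, e ▸ this⟩
  · exact ⟨F1, p1, p1.up m1 (D_par _).le, e⟩

theorem no_colouring (c : N → Prop) (h : ∀ F, IsPt F → ∀ x ∈ F,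
    (∃ z ∈ F, Le z x ∧ c z) ∧ ∃ z ∈ F, Le z x ∧ ¬ c z) : False := by
  have s1 : ∀ y, Good y → ∃ x, D x y ∧ Good x ∧ ∀ a i, Ch a → a i = x →
      (∀ j < i, rk (a j) < rk y) → ¬ (c (u a i) ↔ c y) := by
    intro y g
    by_contra hc
    have : ∀ x : {x // D x y ∧ Good x}, ∃ x' : {x // D x y ∧ Good x}, ∃ a i, Ch a ∧ x'.1 = u a i ∧
        a i = x.1 ∧ (∀ j < i, rk (a j) < rk y) ∧ (c (u a i) ↔ c y) := fun x => by
      by_contra h'
      refine hc ⟨x, x.2.1, x.2.2, fun a i p q r s => h' ⟨⟨u a i, (D_par _).trans ?_, good_u p ?_⟩,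
        a, i, p, rfl, q, r, s⟩⟩
      exacts [show D (a i) y from q ▸ x.2.1, q ▸ x.2.2]
    choose f hf using this
    let b : ℕ → N := fun k => (f^[k] ⟨y, D.refl _, g⟩).1
    have hb : ∀ k, ∃ a i, Ch a ∧ b (k + 1) = u a i ∧ a i = b k ∧ (∀ j < i, rk (a j) < rk y) ∧
        (c (u a i) ↔ c y) := fun k => by
      simp only [b, Function.iterate_succ_apply']; exact hf _
    have pb : PI b := ⟨g, fun k => let ⟨a, i, p, q, r, _⟩ := hb k; ⟨a, i, p, q, r⟩⟩
    have key : ∀ z ∈ fil b, Le z y → (c z ↔ c y) := by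
      rintro z ⟨k, w', p, q⟩ ⟨y', r, s⟩
      rcases pb.anc p with t | ⟨j, rfl⟩
      · have t : D y w' := t
        have e1 : w' = y := t.lt.resolve_right fun e => e.1.not_ge (by
          rw [q.rk, ← s.rk]; exact r.rk_le)
        have e2 : y' = z := r.lt.resolve_right fun e => e.1.not_ge (by
          rw [← q.rk, s.rk]; exact t.rk_le)
        rw [(e1 ▸ q : Sib y z).anti (e2 ▸ s)]
      · obtain ⟨a, i, p, e, e', t, t'⟩ := hb j
        rw [e] at q
        obtain ⟨l, hl, rfl⟩ := q.u'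
        rcases hl.eq_or_lt with rfl | hl
        · exact t'
        · refine absurd (r.par_of ?_).rk_le (by rw [s.rk]; exact (t l hl).not_ge)
          rw [s.rk]
          exact (e' ▸ (pb.D (Nat.zero_le j)).rk_le : rk y ≤ rk (a i)).trans_lt (rk_lt_u a i l)
    obtain ⟨⟨z, a1, a2, a3⟩, z', b1, b2, b3⟩ := h _ (Or.inl ⟨b, pb, rfl⟩) y ⟨0, (D.refl _).le⟩
    exact b3 ((key z' b1 b2).2 ((key z a1 a2).1 a3))
  choose! X x1 x2 x3 using s1
  let y : ℕ → N := fun n => (fun y => free (X y))^[n] root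
  have ys : ∀ n, y (n + 1) = free (X (y n)) := fun n => Function.iterate_succ_apply' _ _ _
  have gy : ∀ n, Good (y n) := fun n => by
    induction n with
    | zero => exact good_root
    | succ n ih => rw [ys]; exact good_free (x2 _ ih)
  have dy : ∀ m n, m < n → D (y n) (free (X (y m))) := fun m n e => by
    induction e with
    | refl => rw [ys]; exact D.refl _
    | @step l _ ih => rw [ys]; exact ((D_par (free (X (y l)))).trans (x1 (y l) (gy l))).trans ih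
  obtain ⟨p, hp⟩ := Finite.exists_infinite_fiber fun n => c (y n)
  have hp := infinite_coe_iff.1 hp
  let φ := Nat.nth fun n => n ∈ (fun n => c (y n)) ⁻¹' {p}
  have mono : StrictMono φ := Nat.nth_strictMono hp
  have col : ∀ i, c (y (φ i)) = p := fun i => Nat.nth_mem_of_infinite hp i
  have pa : PII fun k => X (y (φ k)) :=
    ⟨fun k => (x1 _ (gy _)).trans (dy _ _ (mono (lt_add_one k))), fun k => x2 _ (gy _)⟩
  have key : ∀ z ∈ fil (u fun k => X (y (φ k))), Le z (u (fun k => X (y (φ k))) 0) →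
      ¬ (c z ↔ p) := by
    rintro z ⟨i, w', q, r⟩ s
    rcases q.cases with rfl | q
    · obtain ⟨j, -, rfl⟩ := r.u'
      rw [← col j]
      exact x3 _ (gy _) _ j pa.1 rfl fun l hl =>
        (lt_add_one _).trans_le (dy _ _ (mono hl)).rk_le
    · exact absurd (s.rk_le.trans (r.rk ▸ q.rk_le)) (rk_lt_u (fun k => X (y (φ k))) i 0).not_ge
  obtain ⟨⟨z, a1, a2, a3⟩, z', b1, b2, b3⟩ := h _ (Or.inr ⟨_, pa, rfl⟩) _ ⟨0, (D.refl _).le⟩
  have := key z a1 a2
  have := key z' b1 b2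
  tauto

end Pool.Agent.Lib.helper4.BaseRes
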