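import Mathlib
import Pool.Agent.Lib.helper4.BaseRes1

/-! The space of point filters: a paracompact space with a base that cannot be resolved. -/

namespace Pool.Agent.Lib.helper4.BaseRes

open Set N TopologicalSpace Topology Filter

/-- The space. -/
def X : Type := {F : Set N // IsPt F}

/-- Basic open sets. -/
def B (x : N) : Set X := {F | x ∈ F.1}

/-- The base. -/
def Bs : Set (Set X) := insert ∅ (range B)

instance : TopologicalSpace X := generateFrom Bs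

theorem B_inter (x y : N) : B x ∩ B y = ∅ ∨ ∃ z, B z = B x ∩ B y ∧
    ∀ w, Good w → (Le w z ↔ Le w x ∧ Le w y) := by
  by_cases h : ∃ w, Good w ∧ Le w x ∧ Le w y
  · obtain ⟨z, hz⟩ := meet x y h
    refine Or.inr ⟨z, Set.ext fun F => ⟨fun h => ?_, fun h => ?_⟩, hz⟩
    · have := (hz z (F.2.good h)).1 (D.refl _).le
      exact ⟨F.2.up h this.1, F.2.up h this.2⟩
    · obtain ⟨w, a, b, c⟩ := F.2.low h.1 h.2
      exact F.2.up a ((hz w b).2 c)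
  · refine Or.inl (eq_empty_of_forall_notMem fun F hF => h ?_)
    obtain ⟨w, -, b⟩ := F.2.low hF.1 hF.2
    exact ⟨w, b⟩

theorem Bs_inter : ∀ U ∈ Bs, ∀ V ∈ Bs, U ∩ V ∈ Bs := by
  rintro _ (rfl | ⟨x, rfl⟩) _ (rfl | ⟨y, rfl⟩)
  · exact Or.inl (by simp)
  · exact Or.inl (by simp)
  · exact Or.inl (by simp)
  · exact (B_inter x y).imp id fun ⟨z, h, _⟩ => ⟨z, h⟩

theorem X.ne (F : X) : ∃ x, x ∈ F.1 := by
  obtain ⟨s, e, -⟩ := F.2.seq
  exact ⟨s 0, e ▸ ⟨0, (D.refl _).le⟩⟩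

theorem basis : IsTopologicalBasis Bs :=
  ⟨fun U hU V hV _ h => ⟨_, Bs_inter U hU V hV, h, Subset.rfl⟩,
    eq_univ_of_forall fun F => let ⟨x, h⟩ := F.ne; ⟨_, Or.inr ⟨x, rfl⟩, h⟩, rfl⟩

theorem B_open (x : N) : IsOpen (B x) := basis.isOpen (Or.inr ⟨x, rfl⟩)

theorem exists_B {U : Set X} (hU : IsOpen U) {F} (h : F ∈ U) : ∃ x ∈ F.1, B x ⊆ U := by
  obtain ⟨_, rfl | ⟨x, rfl⟩, a, b⟩ := basis.exists_subset_of_mem_open h hU
  exacts [a.elim, ⟨x, a, b⟩]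

theorem B_closed (x : N) : IsClosed (B x) := by
  refine isOpen_compl_iff.1 (isOpen_iff_forall_mem_open.2 fun F hF => ?_)
  obtain ⟨y, a, b⟩ : ∃ y ∈ F.1, ¬ ∃ w, Good w ∧ Le w x ∧ Le w y := by
    by_contra h
    push Not at h
    exact hF (F.2.max h)
  refine ⟨B y, fun G hG h => b ?_, B_open y, a⟩
  obtain ⟨w, -, b⟩ := G.2.low h hG
  exact ⟨w, b⟩

theorem X.sep {F G : X} (h : F ≠ G) : ∃ x ∈ F.1, x ∉ G.1 := by
  by_contra hc
  push Not at hc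
  refine h (Subtype.ext (Subset.antisymm hc fun x hx => F.2.max fun y hy => ?_))
  obtain ⟨w, -, b⟩ := G.2.low hx (hc y hy)
  exact ⟨w, b⟩

instance : T2Space X := ⟨fun F G h => by
  obtain ⟨x, a, b⟩ := X.sep h
  exact ⟨B x, (B x)ᶜ, B_open x, (B_closed x).isOpen_compl, a, b, disjoint_compl_right⟩⟩

theorem no_isolated (F : X) : ¬ IsOpen ({F} : Set X) := fun h => by
  obtain ⟨x, a, b⟩ := exists_B h rfl
  obtain ⟨G, p, q, r⟩ := crowded F.2 a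
  exact r (congrArg Subtype.val (b (a := ⟨G, p⟩) q))

theorem not_res (B₀ B₁ : Set (Set X)) (h : B₀ ∪ B₁ = Bs) (hd : Disjoint B₀ B₁)
    (h0 : IsTopologicalBasis B₀) (h1 : IsTopologicalBasis B₁) : False := by
  have key : ∀ C ⊆ Bs, IsTopologicalBasis C → ∀ F : X, ∀ x ∈ F.1,
      ∃ z ∈ F.1, Le z x ∧ B z ∈ C := fun C hC hb F x hx => by
    obtain ⟨V, a, b, c⟩ := hb.exists_subset_of_mem_open (show F ∈ B x from hx) (B_open x)
    obtain rfl | ⟨y, rfl⟩ := hC a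
    · exact b.elim
    rcases B_inter x y with e | ⟨z, e, e'⟩
    · exact absurd (show F ∈ B x ∩ B y from ⟨hx, b⟩) (e ▸ notMem_empty _)
    · have : F ∈ B z := e ▸ ⟨hx, b⟩
      exact ⟨z, this, ((e' z (F.2.good this)).1 (D.refl _).le).1,
        by rwa [e, inter_eq_right.2 c]⟩
  refine no_colouring (fun z => B z ∈ B₀) fun F hF x hx =>
    ⟨key _ (h ▸ subset_union_left) h0 ⟨F, hF⟩ x hx, ?_⟩
  obtain ⟨z, a, b, c⟩ := key _ (h ▸ subset_union_right) h1 ⟨F, hF⟩ x hx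
  exact ⟨z, a, b, fun e => disjoint_left.1 hd e c⟩

/-- Strict cones. -/
def C (x : N) : Set X := {F | ∃ y ∈ F.1, D (par y) x}

theorem C_open (x : N) : IsOpen (C x) := isOpen_iff_forall_mem_open.2
  fun _ ⟨y, a, b⟩ => ⟨B y, fun _ h => ⟨y, h, b⟩, B_open y, a⟩

theorem C_sub {x y} (h : Good x → Le x y) : C x ⊆ B y := fun F ⟨_, a, b⟩ =>
  have := F.2.up a ((D_par _).trans b).le
  F.2.up this (h (F.2.good this))

theorem C_mono {x y} (h : D x y) : C x ⊆ C y := fun _ ⟨z, a, b⟩ => ⟨z, a, b.trans h⟩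

theorem C_comp {F : X} {x y} (hx : F ∈ C x) (hy : F ∈ C y) : ∃ w, D w x ∧ D w y := by
  obtain ⟨x', a, b⟩ := hx
  obtain ⟨y', c, d⟩ := hy
  obtain ⟨w, -, g, ⟨p, p1, p2⟩, q, q1, q2⟩ := F.2.low a c
  have : ∀ v, D w v → D (par w) (par v) := fun v h =>
    h.cases.elim (fun e => e ▸ D.refl _) fun e => e.trans (D_par _)
  exact ⟨par w, ((this p p1).trans (p2.par (g.anc p1))).trans b,
    ((this q q1).trans (q2.par (g.anc q1))).trans d⟩

theorem B_u {F : X} {a i} (h : F ∈ B (u a i)) : F.1 = fil (u a) ∨ ∃ j, i ≤ j ∧ F ∈ C (u a j) := by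
  rcases F with ⟨F, ⟨b, p, rfl⟩ | ⟨c, p, rfl⟩⟩ <;> obtain ⟨k, w, q, r⟩ := h <;>
    obtain ⟨j, hj, rfl⟩ := r.u
  · exact Or.inr ⟨j, hj, b (k + 1), ⟨_, (D.refl _).le⟩, (p.par k).symm ▸ q⟩
  · rcases q.cases with ⟨⟨⟩⟩ | q
    · exact Or.inl rfl
    · exact Or.inr ⟨j, hj, u c k, ⟨_, (D.refl _).le⟩, q⟩

instance : ParacompactSpace X := ⟨fun ι s hs hc => by
  classical
  let sm : N → Prop := fun x => ∃ i, C x ⊆ s i
  let Z : Set X := {F | ∀ x, F ∈ C x → ¬ sm x}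
  have : ∀ F : X, ∃ a i, F ∈ Z → F.1 = fil (u a) ∧ ∃ j, B (u a i) ⊆ s j := fun F => by
    by_cases hZ : F ∈ Z
    swap
    · exact ⟨fun _ => root, 0, fun h => absurd h hZ⟩
    obtain ⟨j, hj⟩ := mem_iUnion.1 (hc ▸ mem_univ F : F ∈ ⋃ i, s i)
    obtain ⟨x, hx, h⟩ := exists_B (hs j) hj
    rcases F with ⟨F, ⟨b, p, rfl⟩ | ⟨c, p, rfl⟩⟩ <;> obtain ⟨k, hk⟩ := hx
    · exact absurd ⟨j, (C_sub fun _ => hk).trans h⟩
        (hZ (b k) ⟨b (k + 1), ⟨_, (D.refl _).le⟩, (p.par k).symm ▸ D.refl _⟩)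
    · exact ⟨c, k, fun _ => ⟨rfl, j, fun G hG => h (G.2.up hG hk)⟩⟩
  choose a i hai using this
  have sm1 : ∀ F ∈ Z, ∀ j, i F ≤ j → sm (u (a F) j) := fun F hF j hj =>
    (hai F hF).2.imp fun _ h => (C_sub fun _ => Sib.le (Or.inr ⟨_, _, _, hj, rfl, rfl⟩)).trans h
  have on : ∀ F ∈ Z, ∀ j x, D (a F j) x → F ∈ C x := fun F hF j x h =>
    ⟨u (a F) j, (hai F hF).1 ▸ ⟨j, (D.refl _).le⟩, h⟩
  have me : ∀ F ∈ Z, F ∈ B (u (a F) (i F)) := fun F hF =>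
    show _ ∈ F.1 from (hai F hF).1 ▸ ⟨_, (D.refl _).le⟩
  have bu : ∀ F ∈ Z, ∀ G ∈ B (u (a F) (i F)), G = F ∨ ∃ j, i F ≤ j ∧ G ∈ C (u (a F) j) :=
    fun F hF G hG => (B_u hG).imp_left fun e => Subtype.ext (e.trans (hai F hF).1.symm)
  let ok : N → Prop := fun x => sm x ∧ (∀ y, D x y → sm y → y = x) ∧
    ∀ F ∈ Z, Disjoint (C x) (B (u (a F) (i F)))
  let t : X ⊕ N → Set X := Sum.elim (fun F => {G | F ∈ Z ∧ G ∈ B (u (a F) (i F))})
    fun x => {G | ok x ∧ G ∈ C x}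
  have op : ∀ b, IsOpen (t b) := by
    rintro (F | x)
    · exact isOpen_const.inter (B_open _)
    · exact isOpen_const.inter (C_open _)
  have cov : ∀ G, ∃ b, G ∈ t b := fun G => by
    by_cases h : ∃ F ∈ Z, G ∈ B (u (a F) (i F))
    · obtain ⟨F, h⟩ := h
      exact ⟨Sum.inl F, h⟩
    push Not at h
    obtain ⟨x, ⟨x1, x2⟩, x3⟩ := (measure dep).wf.has_min {x | G ∈ C x ∧ sm x} (by
      by_contra hn
      have : G ∈ Z := fun x p q => hn ⟨x, p, q⟩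
      exact h G this (me G this))
    have mn : ∀ y, D x y → sm y → y = x := fun y p q =>
      p.lt.resolve_right fun e => x3 y ⟨C_mono p x1, q⟩ e.2
    refine ⟨Sum.inr x, ⟨x2, mn, fun F hF => disjoint_left.2 fun H h1 h2 => ?_⟩, x1⟩
    rcases bu F hF H h2 with rfl | ⟨j, hj, e⟩
    · exact hF x h1 x2
    have e' : x ≠ u (a F) j := fun e => h F hF
      (C_sub (fun _ => Sib.le (Or.inr ⟨_, _, _, hj, rfl, rfl⟩)) (e ▸ x1))
    obtain ⟨w, p, q⟩ := C_comp h1 e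
    rcases p.total q with r | r
    · exact e' (mn _ r (sm1 F hF j hj)).symm
    · exact hF x (on F hF j x (r.cases.resolve_left e'.symm)) x2
  have dj : ∀ b b' G, G ∈ t b → G ∈ t b' → b = b' := by
    rintro (F | x) (F' | x') G h h'
    · by_contra hc
      have ne : F ≠ F' := fun e => hc (e ▸ rfl)
      have aux : ∀ F ∈ Z, ∀ F' ∈ Z, F ≠ F' → F ∉ B (u (a F') (i F')) := fun F p F' q r hh =>
        let ⟨j, hj, e⟩ := (bu F' q F hh).resolve_left r; p _ e (sm1 F' q j hj)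
      obtain ⟨j, hj, e⟩ := (bu F h.1 G h.2).resolve_left fun e => aux F h.1 F' h'.1 ne (e ▸ h'.2)
      obtain ⟨j', hj', e'⟩ := (bu F' h'.1 G h'.2).resolve_left
        fun e => aux F' h'.1 F h.1 ne.symm (e ▸ h.2)
      have na : u (a F) j ≠ u (a F') j' := fun e => ne (Subtype.ext (by
        rw [(hai F h.1).1, (hai F' h'.1).1, (N.u.inj e).1]))
      obtain ⟨w, p, q⟩ := C_comp e e'
      rcases p.total q with r | r
      · exact h.1 _ (on F h.1 j _ (r.cases.resolve_left na)) (sm1 F' h'.1 j' hj')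
      · exact h'.1 _ (on F' h'.1 j' _ (r.cases.resolve_left na.symm)) (sm1 F h.1 j hj)
    · exact (disjoint_left.1 (h'.1.2.2 F h.1) h'.2 h.2).elim
    · exact (disjoint_left.1 (h.1.2.2 F' h'.1) h.2 h'.2).elim
    · obtain ⟨w, p, q⟩ := C_comp h.2 h'.2
      rcases p.total q with r | r
      · rw [h.1.2.1 _ r h'.1.1]
      · rw [h'.1.2.1 _ r h.1.1]
  refine ⟨{b // (t b).Nonempty}, fun b => t b, fun b => op b, eq_univ_of_forall fun G => ?_,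
    fun G => ?_, ?_⟩
  · obtain ⟨b, hb⟩ := cov G
    exact mem_iUnion.2 ⟨⟨b, G, hb⟩, hb⟩
  · obtain ⟨b, hb⟩ := cov G
    exact ⟨_, (op b).mem_nhds hb, (finite_singleton ⟨b, G, hb⟩).subset
      fun b' ⟨H, h1, h2⟩ => Subtype.ext (dj _ _ H h1 h2)⟩
  · rintro ⟨F | x, G, h⟩
    · exact (hai F h.1).2.imp fun j e H hH => e hH.2
    · exact h.1.1.imp fun j e H hH => e hH.2⟩

end Pool.Agent.Lib.helper4.BaseRes
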