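import Mathlib
import Pool.Agent.Lib.helper4.BaseRes2

/-! A separable extension of the space of point filters. -/

namespace Pool.Agent.Lib.helper4.BaseRes

open Set N TopologicalSpace Topology Filter

/-- Prepending a value. -/
def cons (a : ℕ) (f : ℕ → ℕ) : ℕ → ℕ
  | 0 => a
  | n + 1 => f n

/-- Codes of nodes. -/
def code : N → ℕ → ℕ
  | root => fun _ => 0
  | free x => cons 1 (code x)
  | u a i => cons (i + 2) fun n => code (a n.unpair.1) n.unpair.2

theorem code_inj : ∀ x y, code x = code y → x = y := by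
  intro x
  induction x with
  | root => rintro (_ | _ | _) h <;> first | rfl | cases congrFun h 0
  | free x ih =>
    rintro (_ | y | _) h
    · cases congrFun h 0
    · rw [ih y (funext fun n => congrFun h (n + 1))]
    · cases congrFun h 0
  | u a i ih =>
    rintro (_ | _ | ⟨b, j⟩) h
    · cases congrFun h 0
    · cases congrFun h 0
    · have e : i + 2 = j + 2 := congrFun h 0
      have : a = b := funext fun k => ih k _ (funext fun m => by
        simpa [code, cons] using congrFun h (Nat.pair k m + 1))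
      rw [this, Nat.add_right_cancel e]

/-- Tags distinguishing the children of a node. -/
def tg : N → ℕ → ℕ
  | u a _ => code (u a 0)
  | _ => fun _ => 0

theorem tg_inj {z z'} (g : Good z) (hp : par z = par z') (hd : dep z = dep z')
    (ht : tg z = tg z') : z = z' := by
  rcases z with _ | x | ⟨a, i⟩ <;> rcases z' with _ | y | ⟨b, j⟩ <;>
    first | rfl | cases hd | cases congrFun ht 0
  · exact congrArg free hp
  · cases code_inj _ _ ht
    have c := g a i (D.refl _)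
    have : ∀ i j, i < j → a i ≠ a j := fun i j h e => by
      have := ((c.D (Nat.succ_le_of_lt h)).trans (c i)).dep_le
      rw [← e] at this
      exact Nat.not_succ_le_self _ this
    rcases lt_trichotomy i j with h | rfl | h
    exacts [absurd hp (this _ _ h), rfl, absurd hp.symm (this _ _ h)]

/-- The countable set of approximations. -/
def Dd : Type := Σ L : ℕ, Fin (L + 1) → Fin L → ℕ

instance : Countable Dd := inferInstanceAs (Countable (Σ L : ℕ, Fin (L + 1) → Fin L → ℕ))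

/-- Approximations of a node. -/
def cc (y : N) : Set Dd :=
  {d | dep y ≤ d.1 ∧ ∀ (j : Fin (d.1 + 1)) z, D y z → dep z = j → ∀ n : Fin d.1, d.2 j n = tg z n}

/-- Approximations of a node or its younger siblings. -/
def ee (x : N) : Set Dd := {d | ∃ x', Sib x' x ∧ Good x' ∧ d ∈ cc x'}

theorem exists_anc (y : N) {j : ℕ} (h : j ≤ dep y) : ∃ z, D y z ∧ dep z = j := by
  induction y with
  | root => exact ⟨root, D.refl _, (Nat.le_zero.1 h).symm⟩
  | free x ih =>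
    rcases h.eq_or_lt with e | e
    · exact ⟨_, D.refl _, e.symm⟩
    · obtain ⟨z, a, b⟩ := ih (Nat.le_of_lt_succ e)
      exact ⟨z, (D_par _).trans a, b⟩
  | u a i ih =>
    rcases h.eq_or_lt with e | e
    · exact ⟨_, D.refl _, e.symm⟩
    · obtain ⟨z, a, b⟩ := ih i (Nat.le_of_lt_succ e)
      exact ⟨z, (D_par _).trans a, b⟩

theorem cc_ne (y : N) : (cc y).Nonempty := by
  choose z z1 z2 using fun j : Fin (dep y + 1) => exists_anc y (Nat.le_of_lt_succ j.2)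
  exact ⟨⟨dep y, fun j n => tg (z j) n⟩, le_rfl, fun j w a b n => by
    rw [(z1 j).eq_dep a (b.trans (z2 j).symm)]⟩

theorem ee_mono {w x} (h : Le w x) : ee w ⊆ ee x := by
  rintro d ⟨w', a, g, b⟩
  obtain ⟨x', p, q⟩ := a.le.trans g h
  exact ⟨x', q, g.anc p, p.dep_le.trans b.1, fun j z e => b.2 j z (p.trans e)⟩

theorem cc_tg {d y x z z'} (hy : d ∈ cc y) (hx : d ∈ cc x) (a : D y z) (b : D x z')
    (e : dep z = dep z') {n : ℕ} (hn : n < d.1) : tg z n = tg z' n :=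
  (hy.2 ⟨dep z, Nat.lt_succ_of_le (a.dep_le.trans hy.1)⟩ z a rfl ⟨n, hn⟩).symm.trans
    (hx.2 _ z' b e.symm ⟨n, hn⟩)

theorem dep_par (y : N) : dep (par y) = dep y - 1 := by cases y <;> rfl

theorem lim {y x : ℕ → N} {d : ℕ → Dd} (g : ∀ k, Good (y k)) (hy : ∀ k, d k ∈ cc (y k))
    (hx : ∀ k, d k ∈ cc (x k)) (hd : ∀ k, k ≤ (d k).1) (m : ℕ) : ∀ z z', dep z = m → dep z' = m →
      (∀ n, ∃ k, n ≤ k ∧ D (y k) z ∧ D (x k) z') → z = z' := by
  induction m with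
  | zero => rintro (_ | _ | _) (_ | _ | _) ⟨⟩ ⟨⟩ -; rfl
  | succ m ih =>
    intro z z' a b h
    obtain ⟨k, -, p, -⟩ := h 0
    refine tg_inj ((g k).anc p) (ih _ _ (by rw [dep_par, a]; rfl) (by rw [dep_par, b]; rfl)
      fun n => (h n).imp fun k h => ⟨h.1, h.2.1.trans (D_par _), h.2.2.trans (D_par _)⟩)
      (a.trans b.symm) (funext fun n => ?_)
    obtain ⟨k, e, p, q⟩ := h (n + 1)
    exact cc_tg (hy k) (hx k) p q (a.trans b.symm) (e.trans (hd k))

theorem ee_small {F} (hF : IsPt F) (d : Dd) : ∃ y ∈ F, d ∉ ee y := by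
  obtain ⟨s, rfl, g, -, -, m, -⟩ := hF.seq
  refine ⟨s (d.1 + 2), ⟨_, (D.refl _).le⟩, fun ⟨y, a, b, c⟩ => ?_⟩
  have := (m _).trans (a.par b).dep_le
  have := c.1
  have := dep_par y
  omega

theorem ee_sep {F} (hF : IsPt F) {x} (hx : x ∉ F) : ∃ y ∈ F, Disjoint (ee y) (ee x) := by
  obtain ⟨s, rfl, g, -, m1, m, ty⟩ := hF.seq
  by_contra hc
  have : ∀ k, ∃ d y x', Sib y (s (k + 1)) ∧ Good y ∧ d ∈ cc y ∧ Sib x' x ∧ Good x' ∧ d ∈ cc x' :=
    fun k => by
    obtain ⟨d, ⟨y, a⟩, x', b⟩ := not_disjoint_iff.1 fun h => hc ⟨s (k + 1), ⟨_, (D.refl _).le⟩, h⟩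
    exact ⟨d, y, x', a.1, a.2.1, a.2.2, b⟩
  choose d y x' y1 y2 y3 x1 x2 x3 using this
  have hd : ∀ k, k ≤ (d k).1 := fun k =>
    (((m k).trans ((y1 k).par (y2 k)).dep_le).trans (D_par _).dep_le).trans (y3 k).1
  have L : ∀ z', (∀ n, ∃ k, n ≤ k ∧ D (x' k) z') → D (par (s (dep z' + 1))) z' := fun z' h => by
    obtain ⟨z, a, b⟩ := exists_anc _ (m (dep z'))
    suffices z = z' by rw [this] at a; exact a
    refine lim y2 y3 x3 hd _ z z' b rfl fun n => ?_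
    obtain ⟨k, p, q⟩ := h (max n (dep z'))
    exact ⟨k, le_of_max_le_left p, ((D_par _).trans (((y1 k).par (y2 k)).trans
      (m1 _ _ (Nat.succ_le_succ (le_of_max_le_right p))))).trans a, q⟩
  by_cases hA : ∃ z', ∀ n, ∃ k, n ≤ k ∧ x' k = z'
  · obtain ⟨z', h⟩ := hA
    obtain ⟨k, -, e⟩ := h 0
    exact hx ⟨_, z', (D_par _).trans (L z' fun n => (h n).imp fun k h => ⟨h.1, 0, h.2⟩),
      e ▸ x1 k⟩
  push Not at hA
  obtain ⟨c, i, rfl⟩ : ∃ c i, x = u c i := by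
    obtain ⟨n, hn⟩ := hA x
    obtain ⟨c, _, j, -, -, e⟩ := (x1 n).resolve_left (hn n le_rfl)
    exact ⟨c, j, e⟩
  choose mm _ hm using fun k => (x1 k).u
  have cc' : Ch c := x2 0 c _ ⟨0, hm 0⟩
  have L2 : ∀ n, D (par (s (dep (c n) + 1))) (c n) := fun n => L _ fun r => by
    choose b hb using fun j => hA (u c j)
    obtain ⟨K, hK⟩ := ((finite_Iio n).image b).bddAbove
    refine ⟨max r K, le_max_left _ _, ?_⟩
    rw [hm]
    refine (D_par _).trans (cc'.D (not_lt.1 fun h => ?_))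
    exact hb _ _ ((hK ⟨_, h, rfl⟩).trans (le_max_right r K)) (hm _)
  rcases ty with p | ⟨a, p, rfl⟩
  · exact p.not_ch cc' fun n => ⟨_, (D_par _).trans (L2 n)⟩
  have L3 : ∀ n, D (c (dep (a n))) (a n) := fun n =>
    ((p.1.D (le_max_left _ n)).trans (L2 _)).of_dep (p.1.D (le_max_right _ n)) (cc'.dep _)
  have aux : ∀ {a c : ℕ → N} {i j : ℕ} {d : Dd}, Ch a → Ch c → (∀ n, ∃ K, D (c K) (a n)) →
      d ∈ cc (u a i) → d ∈ cc (u c j) → 0 < d.1 → ¬ dep (a i) < dep (c j) := by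
    intro a c i j d ha hc h h1 h2 h3 h4
    obtain ⟨K, hK⟩ := h (i + 1)
    have : D (c j) (free (a i)) := (hc.D (le_max_left j K)).of_dep
      (((hc.D (le_max_right j K)).trans hK).trans (ha i)) h4
    cases cc_tg h1 h2 (D.refl _) ((D_par _).trans this) rfl h3
  have : code (u a 0) = code (u c 0) := funext fun n => by
    obtain ⟨r, -, e⟩ := (y1 (n + 1)).u
    have h1 := e ▸ y3 (n + 1)
    have h2 := hm (n + 1) ▸ x3 (n + 1)
    have h3 : 0 < (d (n + 1)).1 := (Nat.succ_pos n).trans_le (hd _)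
    exact cc_tg h1 h2 (D.refl _) (D.refl _) (congrArg (· + 1) (le_antisymm
      (not_lt.1 (aux cc' p.1 (fun n => ⟨_, L2 n⟩) h2 h1 h3))
      (not_lt.1 (aux p.1 cc' (fun n => ⟨_, L3 n⟩) h1 h2 h3)))) (hd (n + 1))
  cases code_inj _ _ this
  exact hx ⟨i, (D.refl _).le⟩

/-- The separable space. -/
def Y : Type := X ⊕ Dd × ℝ

/-- Extended basic sets. -/
def E (x : N) : Set Y
  | .inl F => x ∈ F.1
  | .inr p => p.1 ∈ ee x

/-- Vertical sets. -/
def V (d : Dd) (O : Set ℝ) : Set Y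
  | .inl _ => False
  | .inr p => p.1 = d ∧ p.2 ∈ O

/-- The base of the separable space. -/
def Bt : Set (Set Y) := range E ∪ {U | ∃ d O, IsOpen O ∧ U = V d O}

instance : TopologicalSpace Y := generateFrom Bt

theorem E_mono {w x} (h : Le w x) : E w ⊆ E x := by
  rintro (F | p) hp
  exacts [F.2.up hp h, ee_mono h hp]

theorem vert {U} (hU : U ∈ Bt) {d r} (h : (Sum.inr (d, r) : Y) ∈ U) :
    ∃ O, IsOpen O ∧ r ∈ O ∧ V d O ⊆ U := by
  rcases hU with ⟨x, rfl⟩ | ⟨d', O, a, rfl⟩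
  · refine ⟨univ, isOpen_univ, trivial, ?_⟩
    rintro (F | ⟨_, _⟩) hp
    exacts [hp.elim, show _ ∈ ee x from hp.1 ▸ h]
  · exact ⟨O, a, h.2, (show d = d' from h.1) ▸ Subset.rfl⟩

theorem basisY : IsTopologicalBasis Bt := by
  refine ⟨fun U hU W hW p h => ?_, eq_univ_of_forall fun p => ?_, rfl⟩
  · rcases p with F | ⟨d, r⟩
    · obtain ⟨x, rfl⟩ | ⟨_, _, -, rfl⟩ := hU
      swap
      · exact h.1.elim
      obtain ⟨y, rfl⟩ | ⟨_, _, -, rfl⟩ := hW
      swap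
      · exact h.2.elim
      obtain ⟨w, a, -, b, c⟩ := F.2.low h.1 h.2
      exact ⟨E w, Or.inl ⟨w, rfl⟩, a, subset_inter (E_mono b) (E_mono c)⟩
    · obtain ⟨O, a, b, c⟩ := vert hU h.1
      obtain ⟨O', a', b', c'⟩ := vert hW h.2
      refine ⟨V d (O ∩ O'), Or.inr ⟨d, _, a.inter a', rfl⟩, ⟨rfl, b, b'⟩, ?_⟩
      rintro (F | p) hp
      exacts [hp.elim, ⟨c ⟨hp.1, hp.2.1⟩, c' ⟨hp.1, hp.2.2⟩⟩]
  · rcases p with F | ⟨d, r⟩
    · obtain ⟨x, h⟩ := F.ne
      exact ⟨E x, Or.inl ⟨x, rfl⟩, h⟩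
    · exact ⟨V d univ, Or.inr ⟨d, _, isOpen_univ, rfl⟩, rfl, trivial⟩

theorem E_open (x : N) : IsOpen (E x) := basisY.isOpen (Or.inl ⟨x, rfl⟩)
theorem V_open (d : Dd) {O} (h : IsOpen O) : IsOpen (V d O) := basisY.isOpen (Or.inr ⟨d, O, h, rfl⟩)

theorem exists_E {U : Set Y} (hU : IsOpen U) {F} (h : Sum.inl F ∈ U) : ∃ x ∈ F.1, E x ⊆ U := by
  obtain ⟨_, ⟨x, rfl⟩ | ⟨_, _, -, rfl⟩, a, b⟩ := basisY.exists_subset_of_mem_open h hU
  exacts [⟨x, a, b⟩, a.elim]

theorem exists_V {U : Set Y} (hU : IsOpen U) {d r} (h : Sum.inr (d, r) ∈ U) :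
    ∃ O, IsOpen O ∧ r ∈ O ∧ V d O ⊆ U := by
  obtain ⟨W, a, b, c⟩ := basisY.exists_subset_of_mem_open h hU
  exact (vert a b).imp fun O h => ⟨h.1, h.2.1, h.2.2.trans c⟩

theorem E_closed (x : N) : IsClosed (E x) := by
  refine isOpen_compl_iff.1 (isOpen_iff_forall_mem_open.2 ?_)
  rintro (F | ⟨d, r⟩) h
  · obtain ⟨y, a, b⟩ := ee_sep F.2 h
    obtain ⟨z, c, e⟩ := exists_B (B_closed x).isOpen_compl (show F ∈ (B x)ᶜ from h)
    obtain ⟨w, p, -, q, r⟩ := F.2.low a c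
    refine ⟨E w, ?_, E_open w, p⟩
    rintro (G | t) hG
    exacts [e (G.2.up hG r), disjoint_left.1 b (ee_mono q hG)]
  · refine ⟨V d univ, ?_, V_open d isOpen_univ, rfl, trivial⟩
    rintro (G | ⟨_, _⟩) hG
    exacts [hG.elim, show _ ∉ ee x from hG.1 ▸ h]

theorem V_closed (d : Dd) {O} (h : IsClosed O) : IsClosed (V d O) := by
  refine isOpen_compl_iff.1 (isOpen_iff_forall_mem_open.2 ?_)
  rintro (F | ⟨d', r⟩) hp
  · obtain ⟨y, a, b⟩ := ee_small F.2 d
    refine ⟨E y, ?_, E_open y, a⟩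
    rintro (G | ⟨_, _⟩) hG hc
    exacts [hc, b (hc.1 ▸ hG)]
  · refine ⟨V d' {s | d' = d → s ∉ O}, ?_, V_open _ ?_, rfl, fun e h => hp ⟨e, h⟩⟩
    · rintro (G | ⟨_, _⟩) hG hc
      exacts [hc, hG.2 (hG.1.symm.trans hc.1) hc.2]
    · by_cases e : d' = d
      · simp only [e, forall_const]
        exact h.isOpen_compl
      · simp [e]

instance : T3Space Y := by
  have : RegularSpace Y := by
    refine RegularSpace.of_exists_mem_nhds_isClosed_subset fun p U hU => ?_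
    obtain ⟨W, a, b, c⟩ := mem_nhds_iff.1 hU
    rcases p with F | ⟨d, r⟩
    · obtain ⟨x, p, q⟩ := exists_E b c
      exact ⟨E x, (E_open x).mem_nhds p, E_closed x, q.trans a⟩
    · obtain ⟨O, p, q, e⟩ := exists_V b c
      obtain ⟨K, k1, k2, k3⟩ := exists_mem_nhds_isClosed_subset (p.mem_nhds q)
      have mono : ∀ {O O'}, O ⊆ O' → V d O ⊆ V d O' := fun h => by
        rintro (_ | _) hp
        exacts [hp, ⟨hp.1, h hp.2⟩]
      exact ⟨V d K, mem_of_superset ((V_open d isOpen_interior).mem_nhds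
        ⟨rfl, mem_interior_iff_mem_nhds.2 k1⟩) (mono interior_subset), V_closed d k2,
        ((mono k3).trans e).trans a⟩
  have : T0Space Y := by
    refine (t0Space_iff_not_inseparable _).2 fun p q h hi => ?_
    rcases p with F | ⟨d, r⟩
    · rcases q with G | ⟨d, r⟩
      · obtain ⟨x, a, b⟩ := X.sep fun e : F = G => h (e ▸ rfl)
        exact b ((hi.mem_open_iff (E_open x)).1 a)
      · exact (hi.mem_open_iff (V_open d isOpen_univ)).2 ⟨rfl, trivial⟩
    · have := (hi.mem_closed_iff (V_closed d (isClosed_singleton (x := r)))).1 ⟨rfl, rfl⟩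
      rcases q with G | ⟨d', r'⟩
      · exact this
      · exact h (by rw [show d' = d from this.1, show r' = r from this.2])
  infer_instance

theorem V_ne {U : Set Y} (hU : IsOpen U) {p} (h : p ∈ U) :
    ∃ d O, IsOpen O ∧ O.Nonempty ∧ V d O ⊆ U := by
  rcases p with F | ⟨d, r⟩
  · obtain ⟨x, a, b⟩ := exists_E hU h
    obtain ⟨d, hd⟩ := cc_ne x
    obtain ⟨O, p, q, r⟩ := exists_V hU (b (a := Sum.inr (d, 0)) ⟨x, Or.inl rfl, F.2.good a, hd⟩)
    exact ⟨d, O, p, ⟨_, q⟩, r⟩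
  · obtain ⟨O, p, q, r⟩ := exists_V hU h
    exact ⟨d, O, p, ⟨_, q⟩, r⟩

instance : SeparableSpace Y :=
  ⟨⟨range fun p : Dd × ℚ => Sum.inr (p.1, p.2), countable_range _,
    dense_iff_inter_open.2 fun U hU ⟨p, hp⟩ => by
      obtain ⟨d, O, a, b, c⟩ := V_ne hU hp
      obtain ⟨q, hq⟩ := Rat.denseRange_cast.exists_mem_open a b
      exact ⟨_, c (a := Sum.inr (d, q)) ⟨rfl, hq⟩, (d, q), rfl⟩⟩⟩

theorem no_isolatedY (p : Y) : ¬ IsOpen ({p} : Set Y) := fun h => by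
  obtain ⟨d, O, a, b, c⟩ := V_ne h rfl
  obtain ⟨r, p, s, q, e⟩ := (infinite_of_mem_nhds _ (a.mem_nhds b.some_mem)).nontrivial
  cases (c (a := Sum.inr (d, r)) ⟨rfl, p⟩).trans (c (a := Sum.inr (d, s)) ⟨rfl, q⟩).symm
  exact e rfl

theorem pt_free' (w : N) : Ch fun k => free^[k] w :=
  fun k => by simp only [Function.iterate_succ_apply']; exact D.refl _

theorem anc_free {y z} (t : ℕ) (h : D (free^[t] y) z) :
    D y z ∨ D z (free y) ∧ ∃ x, z = free x := by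
  induction t with
  | zero => exact Or.inl h
  | succ t ih =>
    rw [Function.iterate_succ_apply'] at h
    rcases h.cases with rfl | h
    · refine Or.inr ⟨?_, _, rfl⟩
      rw [← Function.iterate_succ_apply' free]
      exact (pt_free' y).D (Nat.succ_le_succ (Nat.zero_le t))
    · exact ih h

theorem le_of_sub {x y} (g : Good y) (h : B y ⊆ B x) : Le y x := by
  have p1 := pt_free g
  obtain ⟨i, w, a, b⟩ := h (a := ⟨_, Or.inr ⟨_, p1, rfl⟩⟩) ⟨0, (D_par _).le⟩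
  rcases a.cases with rfl | a
  · obtain ⟨j, -, rfl⟩ := b.u'
    obtain ⟨i, w, a, b⟩ := h (a := ⟨_, Or.inr ⟨_, pt_free (good_free g), rfl⟩⟩)
      ⟨0, ((D_par _).trans (D_par _)).le⟩
    obtain ⟨m, -, rfl⟩ := b.u
    rcases a.cases with e | a
    · exact absurd (congrArg dep (congrFun (N.u.inj e).1 0)) (Nat.succ_ne_self _)
    · rcases anc_free (i + 1) a with a | ⟨-, _, ⟨⟩⟩
      exact absurd a.rk_le (rk_lt_u (fun k => free^[k] y) 0 m).not_ge
  · rcases anc_free i a with a | ⟨a, v, rfl⟩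
    · exact ⟨w, a, b⟩
    obtain rfl := b.resolve_right (by rintro ⟨_, _, _, _, ⟨⟩, _⟩)
    have q2 := pt_free (good_u (i := 0) p1.1 g)
    obtain ⟨i, w, c, d⟩ := h (a := ⟨_, Or.inr ⟨_, q2, rfl⟩⟩) ⟨0, ((D_par _).trans (D_par _)).le⟩
    obtain rfl := d.resolve_right (by rintro ⟨_, _, _, _, _, ⟨⟩⟩)
    rcases c.cases with ⟨⟨⟩⟩ | c
    cases (c.trans a).eq_dep (q2.1.D (Nat.zero_le i)) rfl

theorem not_resY (B₀ B₁ : Set (Set Y)) (h : B₀ ∪ B₁ = Bt) (hd : Disjoint B₀ B₁)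
    (h0 : IsTopologicalBasis B₀) (h1 : IsTopologicalBasis B₁) : False := by
  have key : ∀ C ⊆ Bt, IsTopologicalBasis C → ∀ F : X, ∀ x ∈ F.1,
      ∃ z ∈ F.1, Le z x ∧ E z ∈ C := fun C hC hb F x hx => by
    obtain ⟨W, a, b, c⟩ := hb.exists_subset_of_mem_open (show Sum.inl F ∈ E x from hx) (E_open x)
    obtain ⟨y, rfl⟩ | ⟨_, _, -, rfl⟩ := hC a
    · exact ⟨y, b, le_of_sub (F.2.good b) fun G hG => c (a := Sum.inl G) hG, a⟩
    · exact b.elim
  refine no_colouring (fun z => E z ∈ B₀) fun F hF x hx =>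
    ⟨key _ (h ▸ subset_union_left) h0 ⟨F, hF⟩ x hx, ?_⟩
  obtain ⟨z, a, b, c⟩ := key _ (h ▸ subset_union_right) h1 ⟨F, hF⟩ x hx
  exact ⟨z, a, b, fun e => disjoint_left.1 hd e c⟩

end Pool.Agent.Lib.helper4.BaseRes
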