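import Mathlib
import Pool.Agent.Lib.helper4.BaseRes3

/-! An irresolvable self-filling family of closed subsets of the Baire space. -/

namespace Pool.Agent.Lib.helper4.BaseRes

open Set N

/-- Number of free steps above a node. -/
def nf : N → ℕ
  | root => 0
  | free x => nf x + 1
  | u a i => nf (a i)

theorem D.nf_le {w x} (h : D w x) : nf x ≤ nf w := by
  obtain ⟨k, rfl⟩ := h
  induction k with
  | zero => exact le_rfl
  | succ k ih =>
    rw [Function.iterate_succ_apply']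
    refine le_trans ?_ ih
    cases par^[k] w with
    | free x => exact Nat.le_succ _
    | _ => exact le_rfl

/-- Canonical nodes. -/
def G' (w : N) : Prop := Good w ∧ ∀ a i, D w (u a i) → ∀ k, nf (a k) = k

theorem G'.anc {w x} (h : G' w) (e : D w x) : G' x :=
  ⟨h.1.anc e, fun a i e' => h.2 a i (e.trans e')⟩
theorem g'_u {a i} (h : Ch a) (hn : ∀ k, nf (a k) = k) (h' : G' (a i)) : G' (u a i) :=
  ⟨good_u h h'.1, fun b j e => by
    rcases e.cases with ⟨⟨⟩⟩ | e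
    exacts [hn, h'.2 b j e]⟩
theorem g'_free {x} (h : G' x) : G' (free x) := ⟨good_free h.1, fun b j e => by
  rcases e.cases with ⟨⟨⟩⟩ | e
  exact h.2 b j e⟩
theorem g'_root : G' root := ⟨good_root, fun b j e => by
  rcases e.lt with ⟨⟨⟩⟩ | e
  exact absurd e.2 (Nat.not_lt_zero _)⟩

/-- Canonical generating sequences of points. -/
def Pt (s : ℕ → N) : Prop :=
  (∀ k, G' (s k)) ∧ (PI s ∨ ∃ a, PII a ∧ (∀ k, nf (a k) = k) ∧ s = u a)

theorem no_colouring' (c : N → Prop) (h : ∀ s, Pt s → ∀ k,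
    (∃ z ∈ fil s, Le z (s k) ∧ c z) ∧ ∃ z ∈ fil s, Le z (s k) ∧ ¬ c z) : False := by
  have s1 : ∀ y, G' y → ∃ x, D x y ∧ G' x ∧ nf x = nf y ∧ ∀ a i, Ch a → (∀ k, nf (a k) = k) →
      a i = x → ¬ c (u a i) := by
    intro y g
    by_contra hc
    have : ∀ x : {x // D x y ∧ G' x ∧ nf x = nf y}, ∃ x' : {x // D x y ∧ G' x ∧ nf x = nf y},
        ∃ a i, Ch a ∧ x'.1 = u a i ∧ a i = x.1 ∧ c (u a i) := fun x => by
      by_contra h'
      refine hc ⟨x, x.2.1, x.2.2.1, x.2.2.2, fun a i p r q s => h' ⟨⟨u a i, (D_par _).trans ?_,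
        g'_u p r ?_, ?_⟩, a, i, p, rfl, q, s⟩⟩
      exacts [show D (a i) y from q ▸ x.2.1, q ▸ x.2.2.1, show nf (a i) = _ from q ▸ x.2.2.2]
    choose f hf using this
    let b : ℕ → N := fun k => (f^[k] ⟨y, D.refl _, g, rfl⟩).1
    have hb : ∀ k, ∃ a i, Ch a ∧ b (k + 1) = u a i ∧ a i = b k ∧ c (u a i) := fun k => by
      simp only [b, Function.iterate_succ_apply']; exact hf _
    have gb : ∀ k, G' (b k) := fun k => (f^[k] ⟨y, D.refl _, g, rfl⟩).2.2.1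
    have pb : PI fun k => b (k + 1) :=
      ⟨(gb 1).1, fun k => let ⟨a, i, p, q, r, _⟩ := hb (k + 1); ⟨a, i, p, q, r⟩⟩
    obtain ⟨-, z, ⟨k, w', p, q⟩, ⟨y', r, s⟩, b3⟩ := h _ ⟨fun k => gb _, Or.inl pb⟩ 0
    refine b3 ?_
    rcases pb.anc p with t | ⟨j, rfl⟩
    · have e1 : w' = b 1 := t.lt.resolve_right fun e => e.1.not_ge (by
        rw [q.rk, ← s.rk]; exact r.rk_le)
      have e2 : y' = z := r.lt.resolve_right fun e => e.1.not_ge (by
        rw [← q.rk, s.rk]; exact t.rk_le)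
      obtain ⟨a, i, -, e, -, t'⟩ := hb 0
      rw [← (e1 ▸ q : Sib (b 1) z).anti (e2 ▸ s), e]
      exact t'
    · obtain ⟨a, i, p, e, e', t'⟩ := hb (j + 1)
      simp only [e] at q
      obtain ⟨l, hl, rfl⟩ := q.u'
      rcases hl.eq_or_lt with rfl | hl
      · exact t'
      have d1 : rk (b 1) ≤ rk (a l) := by
        refine s.rk ▸ (r.par_of ?_).rk_le
        rw [s.rk]
        exact (e' ▸ (pb.D (Nat.zero_le j)).rk_le : rk (b 1) ≤ rk (a i)).trans_lt (rk_lt_u a i l)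
      rcases pb.anc (k := j) (e' ▸ (p.D (Nat.succ_le_of_lt hl)).trans (p l)) with v | ⟨j', v⟩
      · exact absurd ((lt_add_one _).trans_le v.rk_le) d1.not_gt
      · obtain ⟨_, _, -, e, -⟩ := hb (j' + 1)
        cases v.trans e
  choose! X x1 x2 x4 x3 using s1
  let y : ℕ → N := fun n => (fun y => free (X y))^[n] root
  have ys : ∀ n, y (n + 1) = free (X (y n)) := fun n => Function.iterate_succ_apply' _ _ _
  have gy : ∀ n, G' (y n) ∧ nf (y n) = n := fun n => by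
    induction n with
    | zero => exact ⟨g'_root, rfl⟩
    | succ n ih => rw [ys]; exact ⟨g'_free (x2 _ ih.1), congrArg (· + 1) ((x4 _ ih.1).trans ih.2)⟩
  have ch : Ch fun k => X (y k) := fun k => ys k ▸ x1 _ (gy _).1
  have hn : ∀ k, nf (X (y k)) = k := fun k => (x4 _ (gy k).1).trans (gy k).2
  obtain ⟨⟨z, ⟨i, w', q, r⟩, s, a3⟩, -⟩ := h (u fun k => X (y k))
    ⟨fun k => g'_u ch hn (x2 _ (gy k).1), Or.inr ⟨_, ⟨ch, fun k => (x2 _ (gy k).1).1⟩, hn, rfl⟩⟩ 0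
  rcases q.cases with rfl | q
  · obtain ⟨j, -, rfl⟩ := r.u'
    exact x3 _ (gy j).1 _ j ch hn rfl a3
  · exact absurd (s.rk_le.trans (r.rk ▸ q.rk_le)) (rk_lt_u (fun k => X (y k)) i 0).not_ge

/-- Closed cones. -/
def Ch' (y : N) : Set (ℕ → ℕ) := {z | ∀ w, D y w → ∀ t, z (2 * Nat.pair (dep w) t) = code w t}

/-- The closed sets of the family. -/
def A (x : N) : Set (ℕ → ℕ) :=
  {z | (∃ x', Sib x' x ∧ z ∈ Ch' x') ∨ ∃ c i, x = u c i ∧ ∀ k, z ∈ Ch' (c k)}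

theorem Ch'_closed (y : N) : IsClosed (Ch' y) := by
  simp only [Ch', ofPred_forall]
  exact isClosed_iInter fun w => isClosed_iInter fun _ => isClosed_iInter fun t =>
    isClosed_eq (continuous_apply _) continuous_const

theorem Ch'_mono {w x} (h : D w x) : Ch' w ⊆ Ch' x := fun _ hz v e => hz v (h.trans e)

theorem A_closed {x} (g : Good x) : IsClosed (A x) := by
  have := Ch'_closed x
  cases x with
  | u c i =>
    have hc := g c i (D.refl _)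
    have : A (u c i) = ⋂ k, (Ch' (c k) ∪ ⋃ m ∈ Ico i k, Ch' (u c m)) := by
      ext z
      simp only [mem_iInter, mem_union, mem_iUnion]
      constructor
      · rintro (⟨x', a, b⟩ | ⟨_, _, ⟨⟩, h⟩) k
        · obtain ⟨m, hm, rfl⟩ := a.u
          rcases lt_or_ge m k with e | e
          exacts [Or.inr ⟨m, ⟨hm, e⟩, b⟩, Or.inl (Ch'_mono ((D_par (u c m)).trans (hc.D e)) b)]
        · exact Or.inl (h k)
      · intro h
        by_cases e : ∀ k, z ∈ Ch' (c k)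
        · exact Or.inr ⟨c, i, rfl, e⟩
        · obtain ⟨k, e⟩ := not_forall.1 e
          obtain ⟨m, a, b⟩ := (h k).resolve_left e
          exact Or.inl ⟨_, Or.inr ⟨c, m, i, a.1, rfl, rfl⟩, b⟩
    rw [this]
    exact isClosed_iInter fun k => (Ch'_closed _).union
      ((finite_Ico i k).isClosed_biUnion fun _ _ => Ch'_closed _)
  | _ =>
    convert this using 1
    refine Subset.antisymm ?_ fun z h => Or.inl ⟨_, Or.inl rfl, h⟩
    rintro z (⟨x', a, b⟩ | ⟨_, _, ⟨⟩, _⟩)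
    exact a.resolve_right (by rintro ⟨_, _, _, _, _, ⟨⟩⟩) ▸ b

theorem A_mono {y x} (g : Good y) (h : Le y x) : A y ⊆ A x := by
  obtain ⟨w, a, b⟩ := h
  rcases a.cases with rfl | a
  · rintro z (⟨x', p, q⟩ | ⟨c, i, rfl, q⟩)
    · exact Or.inl ⟨x', p.trans b, q⟩
    · obtain ⟨j, -, rfl⟩ := b.u'
      exact Or.inr ⟨c, j, rfl, q⟩
  · rintro z (⟨x', p, q⟩ | ⟨c, i, rfl, q⟩)
    · refine Or.inl ⟨w, b, Ch'_mono ((D_par _).trans (D.trans ?_ a)) q⟩
      rcases p with rfl | ⟨c, i, j, e, rfl, rfl⟩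
      exacts [D.refl _, (g c j (D.refl _)).D e]
    · exact Or.inl ⟨w, b, Ch'_mono a (q i)⟩

theorem exists_z (P : N → Prop) (h : ∀ w w', P w → P w' → dep w = dep w' → w = w')
    (h' : ∀ w w', P w → D w w' → P w') (h0 : P root) : ∃ z, ∀ w, z ∈ Ch' w ↔ P w := by
  classical
  let β : ℕ → N := fun j => if e : ∃ w, P w ∧ dep w = j then e.choose else root
  have pβ : ∀ j, P (β j) := fun j => by
    simp only [β]; split_ifs with e
    exacts [e.choose_spec.1, h0]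
  refine ⟨fun n => code (β (n / 2).unpair.1) (n / 2).unpair.2, fun w => ⟨fun hz => ?_,
    fun hw v e t => ?_⟩⟩
  · have : β (dep w) = w := code_inj _ _ (funext fun t => by simpa using hz w (D.refl _) t)
    exact this ▸ pβ _
  · have e' : ∃ w, P w ∧ dep w = dep v := ⟨v, h' w v hw e, rfl⟩
    have : β (dep v) = v := by
      simp only [β, dif_pos e']
      exact h _ _ e'.choose_spec.1 (h' w v hw e) e'.choose_spec.2
    simp [this]

theorem D_root (y : N) : D y root := by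
  obtain ⟨z, a, b⟩ := exists_anc y (Nat.zero_le _)
  cases z with
  | root => exact a
  | _ => cases b

theorem le_of_A {y x} (g : Good x) (h : A y ⊆ A x) : Le y x := by
  obtain ⟨z, hz⟩ := exists_z (D y) (fun w w' a b e => b.eq_dep a e) (fun _ _ => D.trans) (D_root y)
  rcases h (Or.inl ⟨y, Or.inl rfl, (hz y).2 (D.refl _)⟩) with ⟨x', a, b⟩ | ⟨c, i, rfl, b⟩
  · exact ⟨x', (hz _).1 b, a⟩
  · exact absurd (((g c i (D.refl _)).dep _).trans ((hz _).1 (b (dep y + 1))).dep_le)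
      (Nat.not_succ_le_self _)

theorem Pt.seq {s} (h : Pt s) : (∀ i j, j ≤ i → Le (s i) (s j)) ∧
    (∀ i j, j ≤ i → D (par (s i)) (par (s j))) ∧ ∀ k, ¬ Le (s k) (s (k + 1)) := by
  rcases h.2 with p | ⟨a, p, -, rfl⟩
  · refine ⟨fun i j e => (p.D e).le, fun i j e => ?_, fun k e => e.rk_le.not_gt (p.rk k)⟩
    rcases (p.D e).cases with e | e
    · rw [e]; exact D.refl _
    · exact e.trans (D_par _)
  · refine ⟨fun i j e => Sib.le (Or.inr ⟨a, i, j, e, rfl, rfl⟩), fun i j e => p.1.D e, ?_⟩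
    rintro k ⟨w, b, c⟩
    obtain ⟨m, hm, rfl⟩ := c.u
    cases (D.refl _).eq_rk b rfl
    exact Nat.not_succ_le_self _ hm

theorem Pt.z {s} (h : Pt s) : ∃ z, ∀ x, G' x → (z ∈ A x ↔ x ∈ fil s) := by
  have m := h.seq.2.1
  have cm : ∀ {w w'}, (∃ K, D (par (s K)) w) → (∃ K, D (par (s K)) w') → ∃ v, D v w ∧ D v w' :=
    fun ⟨K, a⟩ ⟨K', b⟩ => ⟨_, (m _ _ (le_max_left K K')).trans a, (m _ _ (le_max_right _ _)).trans b⟩
  obtain ⟨z, hz⟩ := exists_z (fun w => ∃ K, D (par (s K)) w)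
    (fun w w' a b e => let ⟨_, c, d⟩ := cm a b; d.eq_dep c e)
    (fun _ _ ⟨K, a⟩ b => ⟨K, a.trans b⟩) ⟨0, D_root _⟩
  refine ⟨z, fun x g => ⟨?_, ?_⟩⟩
  · rintro (⟨x', a, b⟩ | ⟨c, i, rfl, b⟩)
    · obtain ⟨K, e⟩ := (hz _).1 b
      exact ⟨K, x', (D_par _).trans e, a⟩
    have hc := g.1 c i (D.refl _)
    rcases h.2 with p | ⟨a, p, q, rfl⟩
    · exact (p.not_ch hc fun n => ((hz _).1 (b n)).imp fun K e => (D_par _).trans e).elim
    obtain rfl : a = c := funext fun k => by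
      obtain ⟨v, d, e⟩ := cm ⟨k + 1, p.1 k⟩ (((hz _).1 (b (k + 1))).imp fun K e => e.trans (hc k))
      have n1 := q k
      have n2 := g.2 c i (D.refl _) k
      rcases d.total e with f | f <;> rcases f.cases with f | f
      · exact N.free.inj f
      · have : nf (c k) + 1 ≤ nf (a k) := f.nf_le
        omega
      · exact (N.free.inj f).symm
      · have : nf (a k) + 1 ≤ nf (c k) := f.nf_le
        omega
    exact ⟨i, (D.refl _).le⟩
  · rintro ⟨k, w, a, b⟩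
    rcases a.cases with rfl | a
    · rcases h.2 with p | ⟨c, p, q, rfl⟩
      · exact Or.inl ⟨_, b, (hz _).2 ⟨k + 1, (p.par k).symm ▸ D.refl _⟩⟩
      · obtain ⟨j, -, rfl⟩ := b.u'
        exact Or.inr ⟨c, j, rfl, fun l => (hz _).2 ⟨l, D.refl _⟩⟩
    · exact Or.inl ⟨w, b, (hz _).2 ⟨k, a⟩⟩

/-- Main points. -/
def Mn : Set (ℕ → ℕ) := {z | ∃ s, Pt s ∧ ∀ x, G' x → (z ∈ A x ↔ x ∈ fil s)}

/-- Small closed sets around the remaining points. -/
def J (z : ℕ → ℕ) (n : ℕ) : Set (ℕ → ℕ) :=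
  {z' | (∀ m, z' (2 * m) = z (2 * m)) ∧ ∀ m < n, z' (2 * m + 1) = z (2 * m + 1)}

theorem J_closed (z n) : IsClosed (J z n) := by
  simp only [J, ofPred_and, ofPred_forall]
  exact (isClosed_iInter fun _ => isClosed_eq (continuous_apply _) continuous_const).inter
    (isClosed_iInter fun _ => isClosed_iInter fun _ =>
      isClosed_eq (continuous_apply _) continuous_const)

theorem A_sat {z z' : ℕ → ℕ} (h : ∀ m, z' (2 * m) = z (2 * m)) (x : N) : z' ∈ A x ↔ z ∈ A x := by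
  simp only [A, Ch', mem_ofPred_eq, h]

/-- The family. -/
def Fam : Set (Set (ℕ → ℕ)) := A '' {x | G' x} ∪ {U | ∃ z n, z ∉ Mn ∧ U = J z n}

theorem Fam_closed : ∀ U ∈ Fam, IsClosed U := by
  rintro _ (⟨x, g, rfl⟩ | ⟨z, n, -, rfl⟩)
  exacts [A_closed g.1, J_closed z n]

theorem J_lt {U z n} (h : J z n ⊆ U) : J z (n + 1) ≠ U ∧ z ∈ J z (n + 1) ∧ J z (n + 1) ⊆ U := by
  refine ⟨fun e => ?_, ⟨fun _ => rfl, fun _ _ => rfl⟩, fun z' h' =>
    h ⟨h'.1, fun m hm => h'.2 m (hm.trans (lt_add_one n))⟩⟩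
  have : Function.update z (2 * n + 1) (z (2 * n + 1) + 1) ∈ J z (n + 1) := e ▸ h
    ⟨fun m => Function.update_of_ne (by omega) _ _, fun m hm => Function.update_of_ne (by omega) _ _⟩
  simpa using this.2 n (lt_add_one n)

theorem J_junk {z n z'} (h : z ∉ Mn) (h' : z' ∈ J z n) : z' ∉ Mn :=
  fun ⟨s, a, b⟩ => h ⟨s, a, fun x g => (A_sat h'.1 x).symm.trans (b x g)⟩

theorem Fam_fill : ∀ U ∈ Fam, ∀ z ∈ U, ∃ W ∈ Fam, W ≠ U ∧ z ∈ W ∧ W ⊆ U := by
  rintro _ (⟨x, g, rfl⟩ | ⟨z', n, h, rfl⟩) z hz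
  · by_cases e : z ∈ Mn
    · obtain ⟨s, p, q⟩ := e
      obtain ⟨k, hk⟩ := (q x g).1 hz
      have s1 := A_mono (p.1 (k + 1)).1 (p.seq.1 _ _ (Nat.le_succ k))
      have s2 := A_mono (p.1 k).1 hk
      exact ⟨_, Or.inl ⟨_, p.1 (k + 1), rfl⟩, fun e => p.seq.2.2 k
        (le_of_A (p.1 _).1 (e ▸ s2)), (q _ (p.1 _)).2 ⟨_, (D.refl _).le⟩, s1.trans s2⟩
    · exact ⟨_, Or.inr ⟨z, 1, e, rfl⟩, J_lt (n := 0) fun z' h => (A_sat h.1 x).2 hz⟩
  · exact ⟨_, Or.inr ⟨z, n + 1, J_junk h hz, rfl⟩, J_lt fun w hw =>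
      ⟨fun m => (hw.1 m).trans (hz.1 m), fun m hm => (hw.2 m hm).trans (hz.2 m hm)⟩⟩

theorem Fam_irr (F₀ F₁ : Set (Set (ℕ → ℕ))) (h : F₀ ∪ F₁ = Fam) (hd : Disjoint F₀ F₁)
    (h0 : ∀ U ∈ Fam, ∀ z ∈ U, ∃ W ∈ F₀, W ≠ U ∧ z ∈ W ∧ W ⊆ U)
    (h1 : ∀ U ∈ Fam, ∀ z ∈ U, ∃ W ∈ F₁, W ≠ U ∧ z ∈ W ∧ W ⊆ U) : False := by
  have key : ∀ C ⊆ Fam, (∀ U ∈ Fam, ∀ z ∈ U, ∃ W ∈ C, W ≠ U ∧ z ∈ W ∧ W ⊆ U) → ∀ s, Pt s → ∀ k,
      ∃ y ∈ fil s, Le y (s k) ∧ A y ∈ C := fun C hC hb s p k => by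
    obtain ⟨z, hz⟩ := p.z
    obtain ⟨W, a, -, b, c⟩ := hb _ (Or.inl ⟨_, p.1 k, rfl⟩) z ((hz _ (p.1 k)).2 ⟨k, (D.refl _).le⟩)
    obtain ⟨y, g, rfl⟩ | ⟨z', n, e, rfl⟩ := hC a
    · exact ⟨y, (hz y g).1 b, le_of_A (p.1 k).1 c, a⟩
    · exact absurd ⟨s, p, hz⟩ (J_junk e b)
  refine no_colouring' (fun z => A z ∈ F₀) fun s p k => ⟨key _ (h ▸ subset_union_left) h0 s p k, ?_⟩
  obtain ⟨z, a, b, c⟩ := key _ (h ▸ subset_union_right) h1 s p k
  exact ⟨z, a, b, fun e => disjoint_left.1 hd e c⟩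

end Pool.Agent.Lib.helper4.BaseRes
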