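import Mathlib

/-! Transfinite construction of subgroups and generic real numbers. -/

namespace Pool.Agent.Lib.helper4.Circ

open Set Cardinal

theorem mk_closure_lt {G : Type} [Group G] (S : Set G) (hS : #S < 𝔠) :
    #(Subgroup.closure S) < 𝔠 := by
  have e : Subgroup.closure S ≤ (FreeGroup.lift (fun x : Option S => x.elim 1 (↑) : Option S → G)).range := by
    rw [FreeGroup.range_lift_eq_closure]
    apply Subgroup.closure_mono
    intro x hx
    exact ⟨some ⟨x, hx⟩, rfl⟩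
  have h1 : #(Subgroup.closure S) ≤ #(FreeGroup (Option S)) :=
    (mk_le_mk_of_subset e).trans mk_range_le
  rw [mk_freeGroup, mk_option] at h1
  exact h1.trans_lt (max_lt (add_lt_of_lt aleph0_le_continuum hS
    (one_lt_aleph0.trans aleph0_lt_continuum)) aleph0_lt_continuum)

theorem transfinite {G I : Type} [Group G] [Nonempty I] (hI : #I ≤ 𝔠) (P : G → Prop) (h1 : P 1)
    (req : I → G → Prop)
    (step : ∀ Γ : Subgroup G, #Γ < 𝔠 → (∀ h ∈ Γ, P h) → ∀ i, ∃ g, req i g ∧
      ∀ h ∈ Subgroup.closure (insert g (Γ : Set G)), P h) :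
    ∃ Γ : Subgroup G, (∀ h ∈ Γ, P h) ∧ ∀ i, ∃ g ∈ Γ, req i g := by
  classical
  let O : Type := (𝔠 : Cardinal).ord.ToType
  have hO : #I ≤ #O := by rw [mk_ord_toType]; exact hI
  obtain ⟨f⟩ := (Cardinal.le_def _ _).mp hO
  let e : O → I := Function.invFun f
  have he : Function.Surjective e := Function.invFun_surjective f.injective
  have step' : ∀ (Γ : Subgroup G) (i : I), ∃ g, #Γ < 𝔠 → (∀ h ∈ Γ, P h) → req i g ∧
      ∀ h ∈ Subgroup.closure (insert g (Γ : Set G)), P h := by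
    intro Γ i
    by_cases h : #Γ < 𝔠 ∧ ∀ h ∈ Γ, P h
    · obtain ⟨g, hg⟩ := step Γ h.1 h.2 i
      exact ⟨g, fun _ _ => hg⟩
    · exact ⟨1, fun a b => absurd ⟨a, b⟩ h⟩
  choose F hF using step'
  let g : O → G := (wellFounded_lt (α := O)).fix
    (fun a IH => F (Subgroup.closure (range fun x : Iio a => IH x.1 x.2)) (e a))
  have hg : ∀ a, g a = F (Subgroup.closure (g '' Iio a)) (e a) := by
    intro a
    rw [image_eq_range]
    show (wellFounded_lt (α := O)).fix _ a = _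
    rw [WellFounded.fix_eq]
  have hcl : ∀ (A : Set O) (h : G), h ∈ Subgroup.closure (g '' A) →
      h = 1 ∨ ∃ b ∈ A, h ∈ Subgroup.closure (g '' Iic b) := by
    intro A h hh
    induction hh using Subgroup.closure_induction with
    | mem x hx =>
      obtain ⟨b, hb, rfl⟩ := hx
      exact Or.inr ⟨b, hb, Subgroup.subset_closure ⟨b, le_refl b, rfl⟩⟩
    | one => exact Or.inl rfl
    | mul x y _ _ hx hy =>
      rcases hx with rfl | ⟨b, hb, hx⟩
      · rwa [one_mul]
      rcases hy with rfl | ⟨c, hc, hy⟩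
      · rw [mul_one]; exact Or.inr ⟨b, hb, hx⟩
      rcases le_total b c with h | h
      · exact Or.inr ⟨c, hc, mul_mem (Subgroup.closure_mono (image_mono (Iic_subset_Iic.2 h)) hx) hy⟩
      · exact Or.inr ⟨b, hb, mul_mem hx (Subgroup.closure_mono (image_mono (Iic_subset_Iic.2 h)) hy)⟩
    | inv x _ hx =>
      rcases hx with rfl | ⟨b, hb, hx⟩
      · exact Or.inl inv_one
      · exact Or.inr ⟨b, hb, inv_mem hx⟩
  have key : ∀ a, req (e a) (g a) ∧ ∀ h ∈ Subgroup.closure (g '' Iic a), P h := by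
    intro a
    induction a using WellFoundedLT.induction with
    | ind a ih =>
      have hc : #(Subgroup.closure (g '' Iio a)) < 𝔠 :=
        mk_closure_lt _ (mk_image_le.trans_lt (mk_Iio_toType_ord_lt a))
      have hP : ∀ h ∈ Subgroup.closure (g '' Iio a), P h := by
        intro h hh
        rcases hcl _ h hh with rfl | ⟨b, hb, hh⟩
        · exact h1
        · exact (ih b hb).2 h hh
      obtain ⟨r1, r2⟩ := hF _ (e a) hc hP
      rw [← hg] at r1 r2
      refine ⟨r1, fun h hh => r2 h ?_⟩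
      refine Subgroup.closure_mono ?_ hh
      rintro _ ⟨b, hb, rfl⟩
      rcases eq_or_lt_of_le (show b ≤ a from hb) with rfl | hb
      · exact mem_insert _ _
      · exact mem_insert_of_mem _ (Subgroup.subset_closure ⟨b, hb, rfl⟩)
  refine ⟨Subgroup.closure (g '' univ), fun h hh => ?_, fun i => ?_⟩
  · rcases hcl _ h hh with rfl | ⟨b, _, hh⟩
    · exact h1
    · exact (key b).2 h hh
  · obtain ⟨a, rfl⟩ := he i
    exact ⟨g a, Subgroup.subset_closure ⟨a, trivial, rfl⟩, (key a).1⟩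

theorem mk_field_lt (S : Set ℝ) (hS : #S < 𝔠) : #(Subfield.closure S) < 𝔠 :=
  (Subfield.cardinalMk_closure_le_max S).trans_lt (max_lt hS aleph0_lt_continuum)

theorem exists_transc (K : Subfield ℝ) (hK : #K < 𝔠) :
    ∃ x : ℝ, 0 < x ∧ Transcendental K x := by
  by_contra h
  push Not at h
  have h1 : #(Ioi (0 : ℝ)) ≤ #{x : ℝ // IsAlgebraic K x} :=
    mk_le_mk_of_subset (s := Ioi (0 : ℝ)) (t := {x : ℝ | IsAlgebraic K x}) (fun x hx => by
      have := h x hx
      unfold Transcendental at this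
      exact not_not.mp this)
  rw [mk_Ioi_real] at h1
  exact absurd (h1.trans (Algebraic.cardinalMk_le_max K ℝ))
    (not_le.mpr (max_lt hK aleph0_lt_continuum))

/-- `x` satisfies no nontrivial quadratic equation over `K`. -/
def Gen (K : Subfield ℝ) (x : ℝ) : Prop :=
  ∀ a ∈ K, ∀ b ∈ K, ∀ c ∈ K, a * x ^ 2 + b * x + c = 0 → a = 0 ∧ b = 0 ∧ c = 0

theorem gen_of_transc {K : Subfield ℝ} {x : ℝ} (h : Transcendental K x) : Gen K x := by
  intro a ha b hb c hc e
  rw [transcendental_iff] at h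
  have := h (Polynomial.C (⟨a, ha⟩ : K) * Polynomial.X ^ 2 + Polynomial.C (⟨b, hb⟩ : K) * Polynomial.X
    + Polynomial.C (⟨c, hc⟩ : K)) (by simp; exact e)
  have h2 := congrArg (fun p => p.coeff 2) this
  have h1 := congrArg (fun p => p.coeff 1) this
  have h0 := congrArg (fun p => p.coeff 0) this
  simp [Polynomial.coeff_X, Polynomial.coeff_C, Subtype.ext_iff] at h2 h1 h0
  exact ⟨h2, h1, h0⟩

theorem Gen.add {K : Subfield ℝ} {x : ℝ} (h : Gen K x) {k : ℝ} (hk : k ∈ K) : Gen K (x + k) := by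
  intro a ha b hb c hc e
  obtain ⟨h1, h2, h3⟩ := h a ha (2 * a * k + b) (add_mem (mul_mem (mul_mem (by simp) ha) hk) hb)
    (a * k ^ 2 + b * k + c) (add_mem (add_mem (mul_mem ha (pow_mem hk 2)) (mul_mem hb hk)) hc)
    (by linarith)
  subst h1
  have : b = 0 := by linarith
  subst this
  exact ⟨rfl, rfl, by linarith⟩

theorem Gen.mono {K L : Subfield ℝ} {x : ℝ} (h : Gen L x) (hKL : K ≤ L) : Gen K x :=
  fun a ha b hb c hc e => h a (hKL ha) b (hKL hb) c (hKL hc) e

/-- `x` and `y` satisfy no nontrivial bilinear equation over `K`. -/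
def Ind (K : Subfield ℝ) (x y : ℝ) : Prop :=
  ∀ a ∈ K, ∀ b ∈ K, ∀ c ∈ K, ∀ d ∈ K, a * x * y + b * x + c * y + d = 0 →
    a = 0 ∧ b = 0 ∧ c = 0 ∧ d = 0

theorem Ind.symm {K : Subfield ℝ} {x y : ℝ} (h : Ind K x y) : Ind K y x := by
  intro a ha b hb c hc d hd e
  obtain ⟨h1, h2, h3, h4⟩ := h a ha c hc b hb d hd (by linarith)
  exact ⟨h1, h3, h2, h4⟩

theorem Ind.add {K : Subfield ℝ} {x y : ℝ} (h : Ind K x y) {k : ℝ} (hk : k ∈ K) :
    Ind K (x + k) y := by
  intro a ha b hb c hc d hd e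
  obtain ⟨h1, h2, h3, h4⟩ := h a ha b hb (a * k + c) (add_mem (mul_mem ha hk) hc) (b * k + d)
    (add_mem (mul_mem hb hk) hd) (by linarith)
  subst h1 h2
  exact ⟨rfl, rfl, by linarith, by linarith⟩

theorem ind_of {K : Subfield ℝ} {x y : ℝ} (hx : Gen K x)
    (hy : Gen (Subfield.closure (insert x (K : Set ℝ))) y) : Ind K x y := by
  intro a ha b hb c hc d hd e
  have m : ∀ k ∈ K, k ∈ Subfield.closure (insert x (K : Set ℝ)) :=
    fun k hk => Subfield.subset_closure (mem_insert_of_mem _ hk)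
  have mx : x ∈ Subfield.closure (insert x (K : Set ℝ)) := Subfield.subset_closure (mem_insert _ _)
  obtain ⟨_, h2, h3⟩ := hy 0 (zero_mem _) (a * x + c) (add_mem (mul_mem (m a ha) mx) (m c hc))
    (b * x + d) (add_mem (mul_mem (m b hb) mx) (m d hd)) (by linarith)
  obtain ⟨_, p1, p2⟩ := hx 0 (zero_mem _) a ha c hc (by linarith)
  obtain ⟨_, p3, p4⟩ := hx 0 (zero_mem _) b hb d hd (by linarith)
  exact ⟨p1, p3, p2, p4⟩

theorem exists_family (K : Subfield ℝ) (hK : #K < 𝔠) {ι : Type} [Countable ι] (l u : ι → ℝ)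
    (hlu : ∀ i, l i < u i) :
    ∃ r : ι → ℝ, (∀ i, l i < r i ∧ r i < u i) ∧ (∀ i, Gen K (r i)) ∧
      ∀ i j, i ≠ j → Ind K (r i) (r j) := by
  obtain ⟨f, hf1, hf2⟩ := exists_seq_of_forall_finset_exists (Gen K) (Ind K) (fun s hs => by
    have hc : #(Subfield.closure ((s : Set ℝ) ∪ K)) < 𝔠 := mk_field_lt _
      ((mk_union_le _ _).trans_lt (add_lt_of_lt aleph0_le_continuum
        (s.finite_toSet.lt_aleph0.trans aleph0_lt_continuum) hK))
    obtain ⟨y, _, hy⟩ := exists_transc _ hc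
    have hy' := gen_of_transc hy
    refine ⟨y, hy'.mono (fun k hk => Subfield.subset_closure (Or.inr hk)), fun x hx =>
      ind_of (hs x hx) (hy'.mono (Subfield.closure_mono ?_))⟩
    exact insert_subset (Or.inl hx) subset_union_right)
  obtain ⟨e, he⟩ := exists_injective_nat ι
  have : ∀ i, ∃ q : ℚ, l i - f (e i) < q ∧ (q : ℝ) < u i - f (e i) := fun i =>
    exists_rat_btwn (by linarith [hlu i])
  choose q hq using this
  have hqK : ∀ i, (q i : ℝ) ∈ K := fun i => SubfieldClass.ratCast_mem K _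
  refine ⟨fun i => f (e i) + q i, fun i => ⟨by linarith [(hq i).1], by linarith [(hq i).2]⟩,
    fun i => (hf1 _).add (hqK i), fun i j hij => ?_⟩
  have : Ind K (f (e i)) (f (e j)) := by
    rcases lt_or_gt_of_ne (he.ne hij) with h | h
    · exact hf2 _ _ h
    · exact (hf2 _ _ h).symm
  exact ((this.add (hqK i)).symm.add (hqK j)).symm

/-- A specialisation relation sending a positive parameter to zero. -/
theorem exists_spec (K : Subfield ℝ) (hK : #K < 𝔠) :
    ∃ τ : ℝ, 0 < τ ∧ ∃ S : Subring (ℝ × ℝ), (∀ k ∈ K, (k, k) ∈ S) ∧ (τ, 0) ∈ S ∧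
      ∀ y, ((0 : ℝ), y) ∈ S → y = 0 := by
  obtain ⟨τ, h0, hτ⟩ := exists_transc K hK
  rw [transcendental_iff] at hτ
  let φ : Polynomial K →+* ℝ × ℝ := RingHom.prod (Polynomial.aeval τ).toRingHom
    (Polynomial.aeval (0 : ℝ)).toRingHom
  refine ⟨τ, h0, φ.range, fun k hk => ⟨Polynomial.C ⟨k, hk⟩, ?_⟩, ⟨Polynomial.X, ?_⟩, ?_⟩
  · ext <;> simp [φ] <;> rfl
  · ext <;> simp [φ]
  · rintro y ⟨p, hp⟩
    have h1 := congrArg Prod.fst hp
    have h2 := congrArg Prod.snd hp
    have : p = 0 := hτ p (by simpa [φ] using h1)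
    subst this
    simpa [φ] using h2.symm

end Pool.Agent.Lib.helper4.Circ
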