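import Mathlib

/-! Staircase homeomorphisms of the line built from fractional linear pieces. -/

namespace Pool.Agent.Lib.helper4.Circ

open Set Real

theorem int_loc (f : ℤ → ℝ) (hf : StrictMono f) (z : ℝ) (h1 : ∃ k, f k ≤ z) (h2 : ∃ k, z < f k) :
    ∃ k, f k ≤ z ∧ z < f (k + 1) := by
  obtain ⟨b, hb⟩ := h2
  obtain ⟨k, hk, hk'⟩ := Int.exists_greatest_of_bdd (P := fun k => f k ≤ z)
    ⟨b, fun k hk => (hf.lt_iff_lt.mp (hk.trans_lt hb)).le⟩ h1
  refine ⟨k, hk, ?_⟩
  by_contra h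
  have := hk' (k + 1) (not_lt.mp h)
  omega

/-- A periodic ladder: special points `σ n` and break points `q n k` filling the gaps. -/
structure Lad (σ : ℤ → ℝ) (q : ℤ → ℤ → ℝ) : Prop where
  smono : StrictMono σ
  mono : ∀ n, StrictMono (q n)
  lo : ∀ n k, σ n < q n k
  hi : ∀ n k, q n k < σ (n + 1)
  coin : ∀ n z, σ n < z → ∃ k, q n k ≤ z
  cof : ∀ n z, z < σ (n + 1) → ∃ k, z < q n k
  per : ∀ n, σ (n + 4) = σ n + 2 * π
  per' : ∀ n k, q (n + 4) k = q n k + 2 * π

theorem per_nat {σ : ℤ → ℝ} (h : ∀ n, σ (n + 4) = σ n + 2 * π) (n m : ℤ) :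
    σ (n + 4 * m) = σ n + m * (2 * π) := by
  induction m using Int.induction_on with
  | zero => simp
  | succ m ih =>
    have := h (n + 4 * m)
    rw [show n + 4 * ((m : ℤ) + 1) = n + 4 * m + 4 by ring, this, ih]
    push_cast; ring
  | pred m ih =>
    have := h (n + 4 * (-(m : ℤ) - 1))
    rw [show n + 4 * (-(m : ℤ) - 1) + 4 = n + 4 * (-m) by ring, ih] at this
    push_cast at this ⊢; linarith

/-- Membership in the cell with index `(n, o)`. -/
def Cell (σ : ℤ → ℝ) (q : ℤ → ℤ → ℝ) (n : ℤ) (o : Option ℤ) (z : ℝ) : Prop :=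
  match o with
  | none => z = σ n
  | some k => q n k ≤ z ∧ z < q n (k + 1)

/-- The order of cells. -/
def CLt (n : ℤ) (o : Option ℤ) (n' : ℤ) (o' : Option ℤ) : Prop :=
  n < n' ∨ (n = n' ∧ ∃ k', o' = some k' ∧ ∀ k, o = some k → k < k')

theorem clt_tri (n : ℤ) (o : Option ℤ) (n' : ℤ) (o' : Option ℤ) :
    CLt n o n' o' ∨ (n = n' ∧ o = o') ∨ CLt n' o' n o := by
  unfold CLt
  rcases lt_trichotomy n n' with h | rfl | h
  · exact Or.inl (Or.inl h)
  · rcases o with _ | k <;> rcases o' with _ | k'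
    · exact Or.inr (Or.inl ⟨rfl, rfl⟩)
    · exact Or.inl (Or.inr ⟨rfl, k', rfl, by simp⟩)
    · exact Or.inr (Or.inr (Or.inr ⟨rfl, k, rfl, by simp⟩))
    · rcases lt_trichotomy k k' with h | rfl | h
      · exact Or.inl (Or.inr ⟨rfl, k', rfl, by simpa using h⟩)
      · exact Or.inr (Or.inl ⟨rfl, rfl⟩)
      · exact Or.inr (Or.inr (Or.inr ⟨rfl, k, rfl, by simpa using h⟩))
  · exact Or.inr (Or.inr (Or.inl h))

theorem Lad.bounds {σ q} (L : Lad σ q) {n o z} (h : Cell σ q n o z) : σ n ≤ z ∧ z < σ (n + 1) := by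
  rcases o with _ | k
  · have h : z = σ n := h
    rw [h]; exact ⟨le_rfl, L.smono (by omega)⟩
  · exact ⟨(L.lo n k).le.trans h.1, h.2.trans (L.hi n _)⟩

theorem Lad.sep {σ q} (L : Lad σ q) {n o n' o' z w} (h : CLt n o n' o') (hz : Cell σ q n o z)
    (hw : Cell σ q n' o' w) : z < w := by
  rcases h with h | ⟨rfl, k', rfl, h⟩
  · exact ((L.bounds hz).2.trans_le (L.smono.monotone (by omega))).trans_le (L.bounds hw).1
  · rcases o with _ | k
    · have hz : z = σ n := hz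
      rw [hz]; exact (L.lo n k').trans_le hw.1
    · have := h k rfl
      exact (hz.2.trans_le ((L.mono n).monotone (by omega))).trans_le hw.1

theorem Lad.cover {σ q} (L : Lad σ q) (z : ℝ) : ∃ n o, Cell σ q n o z := by
  have hp : 0 < 2 * π := by positivity
  obtain ⟨n, h1, h2⟩ := int_loc σ L.smono z
    (by
      obtain ⟨m, hm⟩ := exists_int_lt ((z - σ 0) / (2 * π))
      refine ⟨0 + 4 * m, ?_⟩
      rw [per_nat L.per]
      rw [lt_div_iff₀ hp] at hm
      linarith)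
    (by
      obtain ⟨m, hm⟩ := exists_int_gt ((z - σ 0) / (2 * π))
      refine ⟨0 + 4 * m, ?_⟩
      rw [per_nat L.per]
      rw [div_lt_iff₀ hp] at hm
      linarith)
  rcases h1.eq_or_lt with h | h
  · exact ⟨n, none, h.symm⟩
  · obtain ⟨k, hk⟩ := int_loc (q n) (L.mono n) z (L.coin n z h) (L.cof n z h2)
    exact ⟨n, some k, hk⟩

/-- The equation of one fractional linear piece. -/
def Eqn (q q' p p' τ z z' : ℝ) : Prop := (q' - z) * (z' - p) = τ * (z - q) * (p' - z')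

theorem eqn_ex {q q' p p' τ z : ℝ} (h1 : q ≤ z) (h2 : z < q') (hp : p < p') (hτ : 0 < τ) :
    ∃ z', p ≤ z' ∧ z' < p' ∧ Eqn q q' p p' τ z z' := by
  have hD : 0 < (q' - z) + τ * (z - q) := by
    have := mul_nonneg hτ.le (sub_nonneg.2 h1); linarith
  refine ⟨((q' - z) * p + τ * (z - q) * p') / ((q' - z) + τ * (z - q)), ?_, ?_, ?_⟩
  · rw [le_div_iff₀ hD]
    have := mul_nonneg (mul_nonneg hτ.le (sub_nonneg.2 h1)) (sub_pos.2 hp).le
    nlinarith
  · rw [div_lt_iff₀ hD]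
    have := mul_pos (sub_pos.2 h2) (sub_pos.2 hp)
    nlinarith
  · unfold Eqn
    field_simp
    ring

theorem eqn_symm {q q' p p' τ z z' : ℝ} (hτ : 0 < τ) (h : Eqn p p' q q' τ⁻¹ z' z) :
    Eqn q q' p p' τ z z' := by
  unfold Eqn at *
  field_simp at h
  linarith

theorem eqn_mono {q q' p p' τ z z' w w' : ℝ} (hτ : 0 < τ) (hp : p < p') (h1 : q ≤ z) (h2 : z < q')
    (h3 : q ≤ w) (h4 : w < q') (e : Eqn q q' p p' τ z z') (e' : Eqn q q' p p' τ w w') :
    z < w ↔ z' < w' := by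
  have hD : 0 < (q' - z) + τ * (z - q) := by
    have := mul_nonneg hτ.le (sub_nonneg.2 h1); linarith
  have hD' : 0 < (q' - w) + τ * (w - q) := by
    have := mul_nonneg hτ.le (sub_nonneg.2 h3); linarith
  have key : (w' - z') * (((q' - z) + τ * (z - q)) * ((q' - w) + τ * (w - q))) =
      (w - z) * (τ * (p' - p) * (q' - q)) := by
    unfold Eqn at e e'
    linear_combination ((q' - z) + τ * (z - q)) * e' - ((q' - w) + τ * (w - q)) * e
  have a := mul_pos hD hD'
  have b : 0 < τ * (p' - p) * (q' - q) :=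
    mul_pos (mul_pos hτ (sub_pos.2 hp)) (by linarith)
  rw [← sub_pos, ← sub_pos (a := w'), ← mul_pos_iff_of_pos_right b, ← key,
    mul_pos_iff_of_pos_right a]

theorem stair {σ σ' q p} (L : Lad σ q) (L' : Lad σ' p) {τ : ℝ} (hτ : 0 < τ) :
    ∃ g : ℝ ≃o ℝ, (∀ n, g (σ n) = σ' n) ∧ (∀ z, g (z + 2 * π) = g z + 2 * π) ∧
      ∀ z, (∃ n, z = σ n) ∨
        ∃ n k, Eqn (q n k) (q n (k + 1)) (p n k) (p n (k + 1)) τ z (g z) := by
  let R : ℝ → ℝ → Prop := fun z z' => ∃ n o, Cell σ q n o z ∧ Cell σ' p n o z' ∧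
    ∀ k, o = some k → Eqn (q n k) (q n (k + 1)) (p n k) (p n (k + 1)) τ z z'
  have tot : ∀ z, ∃ z', R z z' := by
    intro z
    obtain ⟨n, o, h⟩ := L.cover z
    rcases o with _ | k
    · exact ⟨σ' n, n, none, h, rfl, by simp⟩
    · obtain ⟨z', a, b, c⟩ := eqn_ex h.1 h.2 (L'.mono n (show k < k + 1 by omega)) hτ
      exact ⟨z', n, some k, h, ⟨a, b⟩, fun k' e => by cases e; exact c⟩
  have sur : ∀ z', ∃ z, R z z' := by
    intro z'
    obtain ⟨n, o, h⟩ := L'.cover z'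
    rcases o with _ | k
    · exact ⟨σ n, n, none, rfl, h, by simp⟩
    · obtain ⟨z, a, b, c⟩ := eqn_ex h.1 h.2 (L.mono n (show k < k + 1 by omega)) (inv_pos.2 hτ)
      exact ⟨z, n, some k, ⟨a, b⟩, h, fun k' e => by cases e; exact eqn_symm hτ c⟩
  have mon : ∀ z z' w w', R z z' → R w w' → (z < w ↔ z' < w') := by
    rintro z z' w w' ⟨n, o, a, b, c⟩ ⟨n', o', a', b', c'⟩
    rcases clt_tri n o n' o' with h | ⟨rfl, rfl⟩ | h
    · exact iff_of_true (L.sep h a a') (L'.sep h b b')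
    · rcases o with _ | k
      · have a : z = σ n := a
        have a' : w = σ n := a'
        have b : z' = σ' n := b
        have b' : w' = σ' n := b'
        rw [a, a', b, b']; simp
      · exact eqn_mono hτ (L'.mono n (show k < k + 1 by omega)) a.1 a.2 a'.1 a'.2 (c k rfl) (c' k rfl)
    · exact iff_of_false (L.sep h a' a).not_gt (L'.sep h b' b).not_gt
  have fn : ∀ z z' w', R z z' → R z w' → z' = w' := by
    intro z z' w' h h'
    rcases lt_trichotomy z' w' with e | e | e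
    · exact absurd ((mon _ _ _ _ h h').2 e) (lt_irrefl _)
    · exact e
    · exact absurd ((mon _ _ _ _ h' h).2 e) (lt_irrefl _)
  choose f hf using tot
  have hm : StrictMono f := fun z w h => (mon _ _ _ _ (hf z) (hf w)).1 h
  have hs : Function.Surjective f := fun z' => by
    obtain ⟨z, h⟩ := sur z'
    exact ⟨z, fn _ _ _ (hf z) h⟩
  refine ⟨hm.orderIsoOfSurjective f hs, fun n => fn _ _ _ (hf _) ⟨n, none, rfl, rfl, by simp⟩,
    fun z => fn _ _ _ (hf _) ?_, fun z => ?_⟩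
  · show R (z + 2 * π) (f z + 2 * π)
    obtain ⟨n, o, a, b, c⟩ := hf z
    refine ⟨n + 4, o, ?_, ?_, fun k e => ?_⟩
    · rcases o with _ | k
      · show _ = _
        rw [L.per, show z = σ n from a]
      · exact ⟨by rw [L.per']; linarith [a.1], by rw [L.per']; linarith [a.2]⟩
    · rcases o with _ | k
      · show _ = _
        rw [L'.per, show f z = σ' n from b]
      · exact ⟨by rw [L'.per']; linarith [b.1], by rw [L'.per']; linarith [b.2]⟩
    · have := c k e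
      unfold Eqn at *
      rw [L.per', L.per', L'.per', L'.per']
      linear_combination this
  · obtain ⟨n, o, a, b, c⟩ := hf z
    rcases o with _ | k
    · exact Or.inl ⟨n, a⟩
    · exact Or.inr ⟨n, k, c k rfl⟩

theorem lad_of {σ : ℤ → ℝ} (hm : StrictMono σ) (hp : ∀ n, σ (n + 4) = σ n + 2 * π)
    (r : ℤ → ℤ → ℝ)
    (hr : ∀ n k, σ n + (σ (n + 1) - σ n) * sigmoid (k : ℤ) < r n k ∧
      r n k < σ n + (σ (n + 1) - σ n) * sigmoid ((k + 1 : ℤ) : ℝ)) :
    Lad σ (fun n k => r (n % 4) k + (n / 4 : ℤ) * (2 * π)) := by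
  have hr' : ∀ n k, σ n + (σ (n + 1) - σ n) * sigmoid (k : ℤ) < r (n % 4) k + (n / 4 : ℤ) * (2 * π) ∧
      r (n % 4) k + (n / 4 : ℤ) * (2 * π) < σ n + (σ (n + 1) - σ n) * sigmoid ((k + 1 : ℤ) : ℝ) := by
    intro n k
    have e1 := per_nat hp (n % 4) (n / 4)
    have e2 := per_nat hp (n % 4 + 1) (n / 4)
    rw [show n % 4 + 4 * (n / 4) = n by omega] at e1
    rw [show n % 4 + 1 + 4 * (n / 4) = n + 1 by omega] at e2
    obtain ⟨a, b⟩ := hr (n % 4) k
    rw [e1, e2]
    constructor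
    · linarith [a]
    · linarith [b]
  have hd : ∀ n, 0 < σ (n + 1) - σ n := fun n => sub_pos.2 (hm (by omega))
  refine ⟨hm, fun n => strictMono_int_of_lt_succ fun k => (hr' n k).2.trans (hr' n (k + 1)).1,
    fun n k => ?_, fun n k => ?_, fun n z hz => ?_, fun n z hz => ?_, hp, fun n k => ?_⟩
  · have := mul_pos (hd n) (sigmoid_pos (k : ℤ))
    linarith [(hr' n k).1]
  · have := mul_lt_mul_of_pos_left (sigmoid_lt_one ((k + 1 : ℤ) : ℝ)) (hd n)
    linarith [(hr' n k).2]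
  · have t := (tendsto_sigmoid_atBot.comp (Filter.Tendsto.comp Filter.tendsto_id (tendsto_intCast_atBot_iff (R := ℝ) (f := id) (l := Filter.atBot) |>.mpr Filter.tendsto_id))).eventually
      (gt_mem_nhds (div_pos (sub_pos.2 hz) (hd n)))
    obtain ⟨k, hk⟩ := t.exists
    refine ⟨k - 1, ?_⟩
    have := (hr' n (k - 1)).2
    rw [sub_add_cancel] at this
    have hk : sigmoid (k : ℝ) < (z - σ n) / (σ (n + 1) - σ n) := hk
    rw [lt_div_iff₀ (hd n)] at hk
    show r _ _ + _ ≤ _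
    linarith
  · have t := (tendsto_sigmoid_atTop.comp (tendsto_intCast_atTop_atTop (R := ℝ))).eventually
      (lt_mem_nhds (show (z - σ n) / (σ (n + 1) - σ n) < 1 by
        rw [div_lt_one (hd n)]; linarith))
    obtain ⟨k, hk⟩ := t.exists
    refine ⟨k, ?_⟩
    have := (hr' n k).1
    have hk : (z - σ n) / (σ (n + 1) - σ n) < sigmoid (k : ℝ) := hk
    rw [div_lt_iff₀ (hd n)] at hk
    show _ < r _ _ + _
    linarith
  · show r _ _ + _ = r _ _ + _ + _
    rw [show (n + 4) % 4 = n % 4 by omega, show (n + 4) / 4 = n / 4 + 1 by omega]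
    push_cast; ring

theorem exists_sigma (s : Fin 4 → ℝ) (hs : StrictMono s) (h : ∀ i j, s j < s i + 2 * π) :
    ∃ σ : ℤ → ℝ, StrictMono σ ∧ (∀ n, σ (n + 4) = σ n + 2 * π) ∧ (∀ i : Fin 4, σ i = s i) ∧
      ∀ n, ∃ i, ∃ m : ℤ, σ n = s i + m * (2 * π) := by
  let σ : ℤ → ℝ := fun n => s ⟨(n % 4).toNat, by omega⟩ + (n / 4 : ℤ) * (2 * π)
  refine ⟨σ, strictMono_int_of_lt_succ fun n => ?_, fun n => ?_, fun i => ?_, fun n => ⟨_, _, rfl⟩⟩
  · show s _ + _ < s _ + _
    by_cases h3 : n % 4 = 3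
    · rw [show (n + 1) / 4 = n / 4 + 1 by omega]
      have := h ⟨((n + 1) % 4).toNat, by omega⟩ ⟨(n % 4).toNat, by omega⟩
      push_cast; linarith
    · rw [show (n + 1) / 4 = n / 4 by omega]
      have := hs (show (⟨(n % 4).toNat, by omega⟩ : Fin 4) < ⟨((n + 1) % 4).toNat, by omega⟩ by
        rw [Fin.mk_lt_mk]; omega)
      linarith
  · show s _ + _ = s _ + _ + _
    simp only [show (n + 4) % 4 = n % 4 by omega, show (n + 4) / 4 = n / 4 + 1 by omega]
    push_cast; ring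
  · fin_cases i <;> simp [σ]

theorem per_int {g : ℝ → ℝ} (h : ∀ z, g (z + 2 * π) = g z + 2 * π) (z : ℝ) (m : ℤ) :
    g (z + m * (2 * π)) = g z + m * (2 * π) := by
  induction m using Int.induction_on with
  | zero => simp
  | succ m ih =>
    have := h (z + (m : ℤ) * (2 * π))
    push_cast at *
    rw [show z + ((m : ℝ) + 1) * (2 * π) = z + m * (2 * π) + 2 * π by ring, this, ih]
    ring
  | pred m ih =>
    have := h (z + (-(m : ℤ) - 1 : ℤ) * (2 * π))
    push_cast at *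
    rw [show z + (-(m : ℝ) - 1) * (2 * π) + 2 * π = z + -m * (2 * π) by ring, ih] at this
    linarith

theorem descend_fun (g : ℝ → ℝ) (hc : Continuous g) (h : ∀ z, g (z + 2 * π) = g z + 2 * π) :
    ∃ γ : Circle → Circle, Continuous γ ∧ ∀ t, γ (Circle.exp t) = Circle.exp (g t) := by
  have e : ∀ t, Circle.exp (g (Complex.arg (Circle.exp t : Circle))) = Circle.exp (g t) := by
    intro t
    obtain ⟨m, hm⟩ := Circle.exp_eq_exp.mp (Circle.exp_arg (Circle.exp t))
    rw [hm, per_int h]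
    exact Circle.exp_eq_exp.mpr ⟨m, rfl⟩
  refine ⟨fun z => Circle.exp (g (Complex.arg z)), ?_, e⟩
  rw [(Circle.isCoveringMap_exp.isQuotientMap Circle.exp_surjective).continuous_iff]
  have : (fun z : Circle => Circle.exp (g (Complex.arg z))) ∘ Circle.exp =
      fun t => Circle.exp (g t) := funext e
  rw [this]
  exact Circle.exp.continuous.comp hc

theorem descend (g : ℝ ≃o ℝ) (h : ∀ z, g (z + 2 * π) = g z + 2 * π) :
    ∃ γ : Circle ≃ₜ Circle, (∀ t, γ (Circle.exp t) = Circle.exp (g t)) ∧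
      ∀ t, γ⁻¹ (Circle.exp t) = Circle.exp (g.symm t) := by
  obtain ⟨a, ha, ha'⟩ := descend_fun g g.continuous h
  obtain ⟨b, hb, hb'⟩ := descend_fun g.symm g.symm.continuous (fun z => by
    apply g.injective
    rw [h]; simp)
  refine ⟨⟨⟨a, b, fun z => ?_, fun z => ?_⟩, ha, hb⟩, ha', hb'⟩
  · obtain ⟨t, rfl⟩ := Circle.exp_surjective z
    rw [ha', hb']; simp
  · obtain ⟨t, rfl⟩ := Circle.exp_surjective z
    rw [hb', ha']; simp

end Pool.Agent.Lib.helper4.Circ
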