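import Mathlib
import Pool.Agent.Lib.helper4.Circ1
import Pool.Agent.Lib.helper4.Circ2

/-! Free extension step for groups of countably piecewise fractional linear circle maps. -/

namespace Pool.Agent.Lib.helper4.Circ

open Set Real Cardinal

/-- Two by two real matrices. -/
structure M where
  a : ℝ
  b : ℝ
  c : ℝ
  d : ℝ

/-- Matrix product. -/
def M.mul (X Y : M) : M :=
  ⟨X.a * Y.a + X.b * Y.c, X.a * Y.b + X.b * Y.d, X.c * Y.a + X.d * Y.c, X.c * Y.b + X.d * Y.d⟩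

/-- Determinant. -/
def M.det (X : M) : ℝ := X.a * X.d - X.b * X.c

theorem M.det_mul (X Y : M) : (X.mul Y).det = X.det * Y.det := by
  unfold M.det M.mul; ring

/-- The fractional linear map of `H` sends `t` to `t'`. -/
def Rl (H : M) (t t' : ℝ) : Prop := H.a * t + H.b = t' * (H.c * t + H.d)

theorem Rl.vec {H : M} {t t' v₁ v₂ : ℝ} (h : Rl H t t') (e : v₁ = t * v₂) :
    H.a * v₁ + H.b * v₂ = t' * (H.c * v₁ + H.d * v₂) := by
  unfold Rl at h; rw [e]; linear_combination v₂ * h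

theorem Rl.mul {H W : M} {t t' t'' : ℝ} (h : Rl W t t') (h' : Rl H t' t'') :
    Rl (H.mul W) t t'' := by
  have := h'.vec h
  unfold Rl M.mul; linear_combination this

/-- `H` is not a translation by a period. -/
def NonT (H : M) : Prop := ∀ m : ℤ, ∃ u, ¬ Rl H u (u + m * (2 * π))

abbrev HC : Type := Circle ≃ₜ Circle

/-- Off `E`, the map `h` is given by the matrices in `P` in the angle coordinate. -/
def PM (h : HC) (P : Set M) (E : Set Circle) : Prop :=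
  ∀ t, Circle.exp t ∉ E → ∃ t', h (Circle.exp t) = Circle.exp t' ∧ ∃ H ∈ P, Rl H t t'

theorem PM.mul {h w : HC} {P P' E E'} (a : PM h P E) (b : PM w P' E') :
    PM (h * w) (image2 M.mul P P') (E' ∪ w ⁻¹' E) := by
  intro t ht
  obtain ⟨t', e, W, hW, r⟩ := b t (fun x => ht (Or.inl x))
  obtain ⟨t'', e', H, hH, r'⟩ := a t' (fun x => ht (Or.inr (by rw [mem_preimage, e]; exact x)))
  exact ⟨t'', by rw [← e', ← e]; rfl, _, mem_image2_of_mem hH hW, r.mul r'⟩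

/-- The invariant of the construction. -/
def Good (A B : Fin 5 → Circle) (h : HC) : Prop :=
  (h ≠ 1 → ∃ P E, P.Countable ∧ E.Countable ∧ PM h P E ∧ ∀ H ∈ P, H.det ≠ 0 ∧ NonT H) ∧
    ¬ ∀ i, h (A i) = B i

/-- All entries lie in `K`. -/
def KM (K : Subfield ℝ) (H : M) : Prop := H.a ∈ K ∧ H.b ∈ K ∧ H.c ∈ K ∧ H.d ∈ K

/-- Reduced words beginning with a new letter. -/
inductive Red (Γ : Subgroup HC) (gg : Bool → HC) : Bool → HC → Prop
  | base (ε : Bool) (h : HC) : h ∈ Γ → Red Γ gg ε (gg ε * h)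
  | step (ε ε' : Bool) (h w : HC) : Red Γ gg ε' w → h ∈ Γ → (ε' = !ε → h ≠ 1) →
      Red Γ gg ε (gg ε * (h * w))

theorem red_closure (Γ : Subgroup HC) (gg : Bool → HC) (hg : gg false = (gg true)⁻¹) (u : HC)
    (hu : u ∈ Subgroup.closure (insert (gg true) (Γ : Set HC))) :
    u ∈ Γ ∨ ∃ h ∈ Γ, ∃ ε w, Red Γ gg ε w ∧ u = h * w := by
  have inv : ∀ ε, gg ε * gg (!ε) = 1 := by
    intro ε; cases ε <;> simp [hg]
  have c1 : ∀ x ∈ Γ, ∀ y, (y ∈ Γ ∨ ∃ h ∈ Γ, ∃ ε w, Red Γ gg ε w ∧ y = h * w) →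
      (x * y ∈ Γ ∨ ∃ h ∈ Γ, ∃ ε w, Red Γ gg ε w ∧ x * y = h * w) := by
    rintro x hx y (hy | ⟨h, hh, ε, w, hw, rfl⟩)
    · exact Or.inl (mul_mem hx hy)
    · exact Or.inr ⟨x * h, mul_mem hx hh, ε, w, hw, (mul_assoc _ _ _).symm⟩
  have c2 : ∀ ε y, (y ∈ Γ ∨ ∃ h ∈ Γ, ∃ ε w, Red Γ gg ε w ∧ y = h * w) →
      (gg ε * y ∈ Γ ∨ ∃ h ∈ Γ, ∃ ε' w, Red Γ gg ε' w ∧ gg ε * y = h * w) := by
    rintro ε y (hy | ⟨h, hh, ε', w, hw, rfl⟩)
    · exact Or.inr ⟨1, one_mem _, ε, _, Red.base ε y hy, (one_mul _).symm⟩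
    · by_cases hc : ε' = !ε → h ≠ 1
      · exact Or.inr ⟨1, one_mem _, ε, _, Red.step ε ε' h w hw hh hc, (one_mul _).symm⟩
      · push Not at hc
        obtain ⟨rfl, rfl⟩ := hc
        generalize he : (!ε) = δ at hw
        cases hw with
        | base _ h' hh' =>
          left
          rw [one_mul, ← mul_assoc, ← he, inv, one_mul]; exact hh'
        | step _ ε'' h' w' hw' hh' _ =>
          right
          refine ⟨h', hh', ε'', w', hw', ?_⟩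
          rw [one_mul, ← mul_assoc, ← he, inv, one_mul]
  induction hu using Subgroup.closure_induction_left with
  | one => exact Or.inl (one_mem _)
  | mul_left x hx y _ ih =>
    rcases hx with rfl | hx
    · exact c2 true y ih
    · exact c1 x hx y ih
  | inv_mul_cancel x hx y _ ih =>
    rcases hx with rfl | hx
    · rw [← hg]; exact c2 false y ih
    · exact c1 _ (inv_mem hx) y ih

/-- The vector specialises to a nonzero multiple of `(x, 1)` with `x ∈ X`. -/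
def TrV (S : Subring (ℝ × ℝ)) (X : Set ℝ) (v₁ v₂ : ℝ) : Prop :=
  ∃ l x, l ≠ 0 ∧ x ∈ X ∧ (v₁, l * x) ∈ S ∧ (v₂, l) ∈ S

/-- The matrix specialises to a rank one matrix with image in `X` and kernel in `Y`. -/
def Letter (S : Subring (ℝ × ℝ)) (X Y : Set ℝ) (A : M) : Prop :=
  A.det ≠ 0 ∧ ∃ x ∈ X, ∃ y ∈ Y, ∃ c, c ≠ 0 ∧ (A.a, c * x) ∈ S ∧ (A.b, -(c * x * y)) ∈ S ∧
    (A.c, c) ∈ S ∧ (A.d, -(c * y)) ∈ S

theorem lin {S : Subring (ℝ × ℝ)} {a a' b b' v v' w w' : ℝ} (h1 : (a, a') ∈ S) (h2 : (b, b') ∈ S)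
    (h3 : (v, v') ∈ S) (h4 : (w, w') ∈ S) : (a * v + b * w, a' * v' + b' * w') ∈ S :=
  S.add_mem (S.mul_mem h1 h3) (S.mul_mem h2 h4)

theorem trv_apply {S X Y A} (hA : Letter S X Y A) {v₁ v₂ w₁ w₂ : ℝ} (h1 : (v₁, w₁) ∈ S)
    (h2 : (v₂, w₂) ∈ S) (hy : ∀ y ∈ Y, w₁ ≠ y * w₂) :
    TrV S X (A.a * v₁ + A.b * v₂) (A.c * v₁ + A.d * v₂) := by
  obtain ⟨_, x, hx, y, hy', c, hc, a1, a2, a3, a4⟩ := hA
  refine ⟨c * (w₁ - y * w₂), x, mul_ne_zero hc (sub_ne_zero.2 (hy y hy')), hx, ?_, ?_⟩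
  · convert lin a1 a2 h1 h2 using 2; ring
  · convert lin a3 a4 h1 h2 using 2; ring

theorem core (A B : Fin 5 → Circle) (hA : Function.Injective A) (Γ : Subgroup HC)
    (hΓ : ∀ h ∈ Γ, Good A B h) (K : Subfield ℝ) (S : Subring (ℝ × ℝ))
    (hKS : ∀ k ∈ K, (k, k) ∈ S) (hS : ∀ y, ((0 : ℝ), y) ∈ S → y = 0)
    (P : HC → Set M) (E : HC → Set Circle)
    (hP : ∀ h ∈ Γ, (P h).Countable ∧ (E h).Countable ∧ PM h (P h) (E h) ∧
      (∀ H ∈ P h, H.det ≠ 0 ∧ KM K H ∧ (h ≠ 1 → NonT H)) ∧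
      (∀ t, Circle.exp t ∈ E h → t ∈ K) ∧ ∀ t i, Circle.exp t = h (A i) → t ∈ K)
    (hB : ∀ t i, Circle.exp t = B i → t ∈ K) (hω : 2 * π ∈ K)
    (X : Bool → Set ℝ) (hX1 : ∀ b, ∀ x ∈ X b, Gen K x)
    (hX2 : ∀ b b', ∀ x ∈ X b, ∀ y ∈ X b', ∀ H, KM K H → H.det ≠ 0 → (b = b' → NonT H) →
      ¬ Rl H x y)
    (gg : Bool → HC) (hg : gg false = (gg true)⁻¹) (L : Bool → Set M)
    (sp : Bool → Fin 4 → Circle) (hL : ∀ ε, (L ε).Countable)
    (hL1 : ∀ ε, PM (gg ε) (L ε) (range (sp ε)))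
    (hL2 : ∀ ε, ∀ H ∈ L ε, Letter S (X ε) (X (!ε)) H)
    (hL3 : ∀ ε t i, Circle.exp t = sp ε i → t ∈ K) :
    ∀ u ∈ Subgroup.closure (insert (gg true) (Γ : Set HC)), Good A B u := by
  have notK : ∀ ε v₁ v₂ H, TrV S (X ε) v₁ v₂ → KM K H → H.det ≠ 0 → ∀ k ∈ K,
      H.a * v₁ + H.b * v₂ ≠ k * (H.c * v₁ + H.d * v₂) := by
    rintro ε v₁ v₂ H ⟨l, x, hl, hx, a1, a2⟩ ⟨k1, k2, k3, k4⟩ hd k hk e
    have m := lin (hKS _ (sub_mem k1 (mul_mem hk k3))) (hKS _ (sub_mem k2 (mul_mem hk k4))) a1 a2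
    have z : (H.a - k * H.c) * (l * x) + (H.b - k * H.d) * l = 0 := by
      apply hS
      convert m using 2
      linarith
    obtain ⟨_, p1, p2⟩ := hX1 ε x hx 0 (zero_mem _) (H.a - k * H.c) (sub_mem k1 (mul_mem hk k3))
      (H.b - k * H.d) (sub_mem k2 (mul_mem hk k4)) (by
        apply mul_left_cancel₀ hl
        linear_combination z)
    apply hd
    unfold M.det
    linear_combination H.d * p1 - H.c * p2
  have notK' : ∀ ε v₁ v₂ t, TrV S (X ε) v₁ v₂ → v₁ = t * v₂ → t ∉ K := by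
    intro ε v₁ v₂ t h e ht
    exact notK ε v₁ v₂ ⟨1, 0, 0, 1⟩ h ⟨one_mem _, zero_mem _, zero_mem _, one_mem _⟩
      (by simp [M.det]) t ht (by simpa using e)
  have tbase : ∀ ε, ∀ G ∈ L ε, ∀ v₁ ∈ K, ∀ v₂ ∈ K, ¬ (v₁ = 0 ∧ v₂ = 0) →
      TrV S (X ε) (G.a * v₁ + G.b * v₂) (G.c * v₁ + G.d * v₂) := by
    intro ε G hG v₁ h1 v₂ h2 hne
    refine trv_apply (hL2 ε G hG) (hKS _ h1) (hKS _ h2) (fun y hy e => hne ?_)
    obtain ⟨_, p1, p2⟩ := hX1 _ y hy 0 (zero_mem _) v₂ h2 (-v₁) (neg_mem h1) (by linarith)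
    exact ⟨by linarith, p1⟩
  have tstep : ∀ ε ε', ∀ G ∈ L ε, ∀ H, KM K H → H.det ≠ 0 → (ε' = !ε → NonT H) → ∀ v₁ v₂,
      TrV S (X ε') v₁ v₂ →
      TrV S (X ε) (G.a * (H.a * v₁ + H.b * v₂) + G.b * (H.c * v₁ + H.d * v₂))
        (G.c * (H.a * v₁ + H.b * v₂) + G.d * (H.c * v₁ + H.d * v₂)) := by
    rintro ε ε' G hG H hH hd hn v₁ v₂ ⟨l, x, hl, hx, a1, a2⟩
    refine trv_apply (hL2 ε G hG) (lin (hKS _ hH.1) (hKS _ hH.2.1) a1 a2)
      (lin (hKS _ hH.2.2.1) (hKS _ hH.2.2.2) a1 a2) (fun y hy e => ?_)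
    apply hX2 _ _ x hx y hy H hH hd hn
    unfold Rl
    apply mul_left_cancel₀ hl
    linear_combination e
  have clA : ∀ ε w, Red Γ gg ε w → ∃ Q F, Q.Countable ∧ F.Countable ∧ PM w Q F ∧
      ∀ W ∈ Q, W.det ≠ 0 ∧ TrV S (X ε) W.b W.d := by
    intro ε w hw
    induction hw with
    | base ε h hh =>
      obtain ⟨c1, c2, c3, c4, -⟩ := hP h hh
      refine ⟨_, _, (hL ε).image2 c1 _,
        c2.union ((countable_range _).preimage h.injective), (hL1 ε).mul c3, ?_⟩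
      rintro _ ⟨G, hG, H, hH, rfl⟩
      obtain ⟨d1, d2, -⟩ := c4 H hH
      refine ⟨by rw [M.det_mul]; exact mul_ne_zero (hL2 ε G hG).1 d1,
        tbase ε G hG _ d2.2.1 _ d2.2.2.2 (fun e => d1 ?_)⟩
      unfold M.det; rw [e.1, e.2]; ring
    | step ε ε' h w _ hh hn ih =>
      obtain ⟨c1, c2, c3, c4, -⟩ := hP h hh
      obtain ⟨Q, F, b1, b2, b3, b4⟩ := ih
      refine ⟨_, _, (hL ε).image2 (c1.image2 b1 _) _,
        (b2.union (c2.preimage w.injective)).union ((countable_range _).preimage (h * w).injective),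
        (hL1 ε).mul (c3.mul b3), ?_⟩
      rintro _ ⟨G, hG, _, ⟨H, hH, W, hW, rfl⟩, rfl⟩
      obtain ⟨d1, d2, d3⟩ := c4 H hH
      refine ⟨by rw [M.det_mul, M.det_mul]; exact mul_ne_zero (hL2 ε G hG).1 (mul_ne_zero d1 (b4 W hW).1),
        tstep ε ε' G hG H d2 d1 (fun e => d3 (hn e)) _ _ (b4 W hW).2⟩
  have thru : ∀ h ∈ Γ, ∀ ε t v₁ v₂, v₁ = t * v₂ → TrV S (X ε) v₁ v₂ → ∃ t', ∃ H ∈ P h,
      h (Circle.exp t) = Circle.exp t' ∧ H.a * v₁ + H.b * v₂ = t' * (H.c * v₁ + H.d * v₂) ∧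
        t' ∉ K := by
    intro h hh ε t v₁ v₂ e tv
    obtain ⟨-, -, c3, c4, c5, -⟩ := hP h hh
    obtain ⟨t', e', H, hH, r⟩ := c3 t (fun x => notK' ε _ _ t tv e (c5 t x))
    exact ⟨t', H, hH, e', r.vec e, fun x => notK ε _ _ H tv (c4 H hH).2.1 (c4 H hH).1 t' x (r.vec e)⟩
  have clB : ∀ ε w, Red Γ gg ε w → ∃ i t v₁ v₂, w (A i) = Circle.exp t ∧ v₁ = t * v₂ ∧
      TrV S (X ε) v₁ v₂ := by
    intro ε w hw
    induction hw with
    | base ε h hh =>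
      have : ∃ i, h (A i) ∉ range (sp ε) := by
        by_contra hc
        push Not at hc
        choose f hf using hc
        have : Function.Injective f := fun i j e => hA (h.injective (by rw [← hf, ← hf, e]))
        have := Fintype.card_le_of_injective f this
        simp at this
      obtain ⟨i, hi⟩ := this
      obtain ⟨c, hc⟩ := Circle.exp_surjective (h (A i))
      obtain ⟨t', e', G, hG, r⟩ := hL1 ε c (by rw [hc]; exact hi)
      refine ⟨i, t', _, _, by rw [← e', hc]; rfl, r.vec (mul_one c).symm,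
        tbase ε G hG c ((hP h hh).2.2.2.2.2 c i hc) 1 (one_mem _) (fun e => one_ne_zero e.2)⟩
    | step ε ε' h w _ hh hn ih =>
      obtain ⟨i, t, v₁, v₂, e1, e2, tv⟩ := ih
      obtain ⟨t', H, hH, e3, e4, nk⟩ := thru h hh ε' t v₁ v₂ e2 tv
      obtain ⟨d1, d2, d3⟩ := (hP h hh).2.2.2.1 H hH
      obtain ⟨t'', e', G, hG, r⟩ := hL1 ε t' (fun ⟨j, hj⟩ => nk (hL3 ε t' j hj.symm))
      refine ⟨i, t'', _, _, by rw [← e', ← e3, ← e1]; rfl, r.vec e4,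
        tstep ε ε' G hG H d2 d1 (fun e => d3 (hn e)) _ _ tv⟩
  intro u hu
  rcases red_closure Γ gg hg u hu with h | ⟨h, hh, ε, w, hw, rfl⟩
  · exact hΓ u h
  obtain ⟨c1, c2, c3, c4, -⟩ := hP h hh
  constructor
  · intro _
    obtain ⟨Q, F, b1, b2, b3, b4⟩ := clA ε w hw
    refine ⟨_, _, c1.image2 b1 _, b2.union (c2.preimage w.injective), c3.mul b3, ?_⟩
    rintro _ ⟨H, hH, W, hW, rfl⟩
    obtain ⟨d1, d2, -⟩ := c4 H hH
    refine ⟨by rw [M.det_mul]; exact mul_ne_zero d1 (b4 W hW).1, fun m => ⟨0, fun r => ?_⟩⟩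
    apply notK ε _ _ H (b4 W hW).2 d2 d1 (m * (2 * π)) (mul_mem (intCast_mem K m) hω)
    unfold Rl M.mul at r
    linear_combination r
  · intro hall
    obtain ⟨i, t, v₁, v₂, e1, e2, tv⟩ := clB ε w hw
    obtain ⟨t', H, hH, e3, e4, nk⟩ := thru h hh ε t v₁ v₂ e2 tv
    apply nk (hB t' i _)
    rw [← e3, ← e1, ← hall i]; rfl

theorem count_exp {E : Set Circle} (h : E.Countable) : (Circle.exp ⁻¹' E).Countable := by
  refine (h.biUnion (t := fun (z : Circle) _ => range fun m : ℤ => Complex.arg z + m * (2 * π))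
    (fun _ _ => countable_range _)).mono ?_
  intro t ht
  obtain ⟨m, hm⟩ := Circle.exp_eq_exp.mp (Circle.exp_arg (Circle.exp t)).symm
  exact mem_biUnion ht ⟨m, hm.symm⟩

theorem step (A B : Fin 5 → Circle) (hA : Function.Injective A) (Γ : Subgroup HC) (hc : #Γ < 𝔠)
    (hΓ : ∀ h ∈ Γ, Good A B h) (s t : Fin 4 → ℝ) (hs : StrictMono s) (ht : StrictMono t)
    (hs' : ∀ i j, s j < s i + 2 * π) (ht' : ∀ i j, t j < t i + 2 * π) :
    ∃ g : HC, (∀ i, Circle.exp (t i) = g (Circle.exp (s i))) ∧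
      ∀ u ∈ Subgroup.closure (insert g (Γ : Set HC)), Good A B u := by
  have ex : ∀ h : HC, ∃ P : Set M, ∃ E : Set Circle, P.Countable ∧ E.Countable ∧
      (h ∈ Γ → PM h P E ∧ ∀ H ∈ P, H.det ≠ 0 ∧ (h ≠ 1 → NonT H)) := by
    intro h
    by_cases hh : h ∈ Γ
    · by_cases h1 : h = 1
      · refine ⟨{⟨1, 0, 0, 1⟩}, ∅, countable_singleton _, countable_empty, fun _ => ⟨fun t _ =>
          ⟨t, by rw [h1]; rfl, _, rfl, by simp [Rl]⟩, ?_⟩⟩
        rintro _ rfl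
        exact ⟨by simp [M.det], fun x => absurd h1 x⟩
      · obtain ⟨P, E, a, b, c, d⟩ := (hΓ h hh).1 h1
        exact ⟨P, E, a, b, fun _ => ⟨c, fun H hH => ⟨(d H hH).1, fun _ => (d H hH).2⟩⟩⟩
    · exact ⟨∅, ∅, countable_empty, countable_empty, fun x => absurd x hh⟩
  choose P E hP1 hP2 hP3 using ex
  let D : Γ → Set ℝ := fun h => (M.a '' P h ∪ M.b '' P h ∪ M.c '' P h ∪ M.d '' P h) ∪
    Circle.exp ⁻¹' (E h ∪ range (fun i => (h : HC) (A i)) ∪ range B) ∪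
    insert (2 * π) (range s ∪ range t)
  have hD : ∀ h, (D h).Countable := fun h =>
    ((((((hP1 h).image _).union ((hP1 h).image _)).union ((hP1 h).image _)).union
      ((hP1 h).image _)).union (count_exp (((hP2 h).union (countable_range _)).union
      (countable_range _)))).union (((countable_range _).union (countable_range _)).insert _)
  let K := Subfield.closure (⋃ h, D h)
  have hK : #K < 𝔠 := mk_field_lt _ ((mk_iUnion_le D).trans_lt (mul_lt_of_lt aleph0_le_continuum hc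
    ((ciSup_le' fun h => le_aleph0_iff_set_countable.2 (hD h)).trans_lt aleph0_lt_continuum)))
  have mK : ∀ h x, x ∈ D h → x ∈ K := fun h x hx => Subfield.subset_closure (mem_iUnion.2 ⟨h, hx⟩)
  have hω : 2 * π ∈ K := mK 1 _ (Or.inr (mem_insert _ _))
  have hmω : ∀ m : ℤ, m * (2 * π) ∈ K := fun m => mul_mem (intCast_mem K m) hω
  obtain ⟨σ, σ1, σ2, σ3, σ4⟩ := exists_sigma s hs hs'
  obtain ⟨σ', σ1', σ2', σ3', σ4'⟩ := exists_sigma t ht ht'
  let Z : Bool → ℤ → ℝ := fun b => cond b σ' σ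
  have Z1 : ∀ b, StrictMono (Z b) := fun b => by cases b; exacts [σ1, σ1']
  obtain ⟨r, r1, r2, r3⟩ := exists_family K hK (ι := Bool × ℤ × ℤ)
    (fun i => Z i.1 i.2.1 + (Z i.1 (i.2.1 + 1) - Z i.1 i.2.1) * sigmoid (i.2.2 : ℤ))
    (fun i => Z i.1 i.2.1 + (Z i.1 (i.2.1 + 1) - Z i.1 i.2.1) * sigmoid ((i.2.2 + 1 : ℤ) : ℝ))
    (fun i => by
      have := mul_lt_mul_of_pos_left (sigmoid_strictMono (show ((i.2.2 : ℤ) : ℝ) < ((i.2.2 + 1 : ℤ) : ℝ) by
        push_cast; linarith)) (sub_pos.2 (Z1 i.1 (show i.2.1 < i.2.1 + 1 by omega)))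
      linarith)
  have Lq := lad_of σ1 σ2 (fun n k => r (false, n, k)) (fun n k => r1 (false, n, k))
  have Lp := lad_of σ1' σ2' (fun n k => r (true, n, k)) (fun n k => r1 (true, n, k))
  set q : ℤ → ℤ → ℝ := fun n k => r (false, n % 4, k) + (n / 4 : ℤ) * (2 * π) with hq
  set p : ℤ → ℤ → ℝ := fun n k => r (true, n % 4, k) + (n / 4 : ℤ) * (2 * π) with hp
  let X : Bool → Set ℝ := fun b => {x | ∃ n k, ∃ m : ℤ, x = r (b, n, k) + m * (2 * π)}
  have qX : ∀ n k, q n k ∈ X false := fun n k => ⟨_, _, _, rfl⟩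
  have pX : ∀ n k, p n k ∈ X true := fun n k => ⟨_, _, _, rfl⟩
  let K' := Subfield.closure ((K : Set ℝ) ∪ range r)
  have hK' : #K' < 𝔠 := mk_field_lt _ ((mk_union_le _ _).trans_lt (add_lt_of_lt aleph0_le_continuum hK
    ((le_aleph0_iff_set_countable.2 (countable_range r)).trans_lt aleph0_lt_continuum)))
  obtain ⟨τ, hτ, S, S1, S2, S3⟩ := exists_spec K' hK'
  have KS : ∀ k ∈ K, (k, k) ∈ S := fun k hk => S1 k (Subfield.subset_closure (Or.inl hk))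
  have XK : ∀ b, ∀ x ∈ X b, x ∈ K' := by
    rintro b _ ⟨n, k, m, rfl⟩
    exact add_mem (Subfield.subset_closure (Or.inr ⟨_, rfl⟩))
      (Subfield.subset_closure (Or.inl (hmω m)))
  have aff : ∀ u ∈ K', ∀ v ∈ K', (τ * u + v, v) ∈ S := by
    intro u hu v hv
    convert lin S2 S.one_mem (S1 u hu) (S1 v hv) using 2 <;> simp
  obtain ⟨g, g1, g2, g3⟩ := stair Lq Lp hτ
  obtain ⟨γ, γ1, γ2⟩ := descend g g2
  let N : ℤ × ℤ → M := fun i => ⟨τ * p i.1 (i.2 + 1) - p i.1 i.2,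
    q i.1 (i.2 + 1) * p i.1 i.2 - τ * q i.1 i.2 * p i.1 (i.2 + 1), τ - 1, q i.1 (i.2 + 1) - τ * q i.1 i.2⟩
  let N' : ℤ × ℤ → M := fun i => ⟨(N i).d, -(N i).b, -(N i).c, (N i).a⟩
  have Nd : ∀ i, (N i).det ≠ 0 := by
    intro i
    have : (N i).det = τ * (p i.1 (i.2 + 1) - p i.1 i.2) * (q i.1 (i.2 + 1) - q i.1 i.2) := by
      simp only [N, M.det]; ring
    rw [this]
    exact (mul_pos (mul_pos hτ (sub_pos.2 (Lp.mono _ (by omega))))
      (sub_pos.2 (Lq.mono _ (by omega)))).ne'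
  have NR : ∀ n k z z', Eqn (q n k) (q n (k + 1)) (p n k) (p n (k + 1)) τ z z' →
      Rl (N (n, k)) z z' ∧ Rl (N' (n, k)) z' z := by
    intro n k z z' e
    unfold Eqn at e
    simp only [Rl, N, N']
    constructor
    · linear_combination -e
    · linear_combination e
  refine ⟨γ, fun i => by rw [γ1, ← σ3, g1, σ3'], ?_⟩
  refine core A B hA Γ hΓ K S KS S3 P E (fun h hh => ?_) (fun t i e => ?_) hω X ?_ ?_
    (fun b => cond b γ γ⁻¹) rfl (fun b => cond b (range N) (range N'))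
    (fun b i => cond b (Circle.exp (s i)) (Circle.exp (t i))) ?_ ?_ ?_ ?_
  · refine ⟨hP1 h, hP2 h, (hP3 h hh).1, fun H hH => ⟨((hP3 h hh).2 H hH).1, ⟨?_, ?_, ?_, ?_⟩,
      ((hP3 h hh).2 H hH).2⟩, fun t e => ?_, fun t i e => ?_⟩
    · exact mK ⟨h, hh⟩ _ (Or.inl (Or.inl (Or.inl (Or.inl (Or.inl ⟨H, hH, rfl⟩)))))
    · exact mK ⟨h, hh⟩ _ (Or.inl (Or.inl (Or.inl (Or.inl (Or.inr ⟨H, hH, rfl⟩)))))
    · exact mK ⟨h, hh⟩ _ (Or.inl (Or.inl (Or.inl (Or.inr ⟨H, hH, rfl⟩))))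
    · exact mK ⟨h, hh⟩ _ (Or.inl (Or.inl (Or.inr ⟨H, hH, rfl⟩)))
    · exact mK ⟨h, hh⟩ _ (Or.inl (Or.inr (Or.inl (Or.inl e))))
    · exact mK ⟨h, hh⟩ _ (Or.inl (Or.inr (Or.inl (Or.inr ⟨i, e.symm⟩))))
  · exact mK 1 _ (Or.inl (Or.inr (Or.inr ⟨i, e.symm⟩)))
  · rintro b _ ⟨n, k, m, rfl⟩
    exact (r2 _).add (hmω m)
  · rintro b b' _ ⟨n, k, m, rfl⟩ _ ⟨n', k', m', rfl⟩ H ⟨k1, k2, k3, k4⟩ hd hn e
    unfold Rl at e
    by_cases hij : (b, n, k) = (b', n', k')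
    · rw [← hij] at e
      obtain ⟨u, hu⟩ := hn (congrArg Prod.fst hij) (m' - m)
      obtain ⟨p1, p2, p3⟩ := (r2 (b, n, k)).add (hmω m) H.c k3
        (H.d + (m' - m : ℤ) * (2 * π) * H.c - H.a)
        (sub_mem (add_mem k4 (mul_mem (hmω _) k3)) k1) ((m' - m : ℤ) * (2 * π) * H.d - H.b)
        (sub_mem (mul_mem (hmω _) k4) k2) (by push_cast; linear_combination -e)
      apply hu
      unfold Rl
      linear_combination -(u ^ 2) * p1 - u * p2 - p3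
    · obtain ⟨p1, p2, p3, p4⟩ := (((r3 _ _ hij).add (hmω m)).symm.add (hmω m')).symm H.c k3
        (-H.a) (neg_mem k1) H.d k4 (-H.b) (neg_mem k2) (by linear_combination -e)
      apply hd
      unfold M.det
      rw [p1, p3]; ring
  · intro b; cases b <;> exact countable_range _
  · intro b
    cases b
    · intro z hz
      refine ⟨g.symm z, γ2 z, ?_⟩
      rcases g3 (g.symm z) with ⟨n, e⟩ | ⟨n, k, e⟩
      · exfalso
        apply hz
        obtain ⟨i, m, hm⟩ := σ4' n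
        refine ⟨i, Circle.exp_eq_exp.mpr ⟨-m, ?_⟩⟩
        have : z = σ' n := by rw [← g1, ← e]; simp
        rw [this, hm]; push_cast; ring
      · rw [g.apply_symm_apply] at e
        exact ⟨_, ⟨(n, k), rfl⟩, (NR n k _ _ e).2⟩
    · intro z hz
      refine ⟨g z, γ1 z, ?_⟩
      rcases g3 z with ⟨n, e⟩ | ⟨n, k, e⟩
      · exfalso
        apply hz
        obtain ⟨i, m, hm⟩ := σ4 n
        refine ⟨i, Circle.exp_eq_exp.mpr ⟨-m, ?_⟩⟩
        rw [e, hm]; push_cast; ring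
      · exact ⟨_, ⟨(n, k), rfl⟩, (NR n k _ _ e).1⟩
  · intro b
    have m1 := fun n k => XK _ _ (qX n k)
    have m2 := fun n k => XK _ _ (pX n k)
    cases b
    · rintro _ ⟨⟨n, k⟩, rfl⟩
      refine ⟨?_, q n (k + 1), qX _ _, p n k, pX _ _, 1, one_ne_zero, ?_, ?_, ?_, ?_⟩
      · have := Nd (n, k)
        simp only [M.det, N'] at this ⊢
        intro e; apply this; linear_combination e
      · convert aff _ (neg_mem (m1 n k)) _ (m1 n (k + 1)) using 2 <;> (try simp only [N, N']) <;> ring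
      · convert aff _ (mul_mem (m1 n k) (m2 n (k + 1))) _ (neg_mem (mul_mem (m1 n (k + 1)) (m2 n k)))
          using 2 <;> (try simp only [N, N']) <;> ring
      · convert aff _ (neg_mem (one_mem _)) _ (one_mem _) using 2
        simp only [N, N']; ring
      · convert aff _ (m2 n (k + 1)) _ (neg_mem (m2 n k)) using 2 <;> (try simp only [N, N']) <;> ring
    · rintro _ ⟨⟨n, k⟩, rfl⟩
      refine ⟨Nd _, p n k, pX _ _, q n (k + 1), qX _ _, -1, by norm_num, ?_, ?_, ?_, ?_⟩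
      · convert aff _ (m2 n (k + 1)) _ (neg_mem (m2 n k)) using 2 <;> (try simp only [N]) <;> ring
      · convert aff _ (neg_mem (mul_mem (m1 n k) (m2 n (k + 1)))) _ (mul_mem (m1 n (k + 1)) (m2 n k))
          using 2 <;> (try simp only [N]) <;> ring
      · convert aff _ (one_mem _) _ (neg_mem (one_mem _)) using 2
        simp only [N]; ring
      · convert aff _ (neg_mem (m1 n k)) _ (m1 n (k + 1)) using 2 <;> (try simp only [N]) <;> ring
  · intro b z i e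
    cases b
    · obtain ⟨m, hm⟩ := Circle.exp_eq_exp.mp e
      rw [hm]
      exact add_mem (mK 1 _ (Or.inr (mem_insert_of_mem _ (Or.inr ⟨i, rfl⟩)))) (hmω m)
    · obtain ⟨m, hm⟩ := Circle.exp_eq_exp.mp e
      rw [hm]
      exact add_mem (mK 1 _ (Or.inr (mem_insert_of_mem _ (Or.inl ⟨i, rfl⟩)))) (hmω m)

end Pool.Agent.Lib.helper4.Circ
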