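import Mathlib

set_option autoImplicit false

/-! Light selectors for weighted sets of natural numbers. -/

namespace Pool.Agent.Lib.H4EUSel

open Finset

theorem sum_zpow_le (C : Finset ℤ) : ∀ a : ℤ, (∀ c ∈ C, c < a) → ∑ c ∈ C, (2 : ℝ) ^ c ≤ 2 ^ a := by
  induction C using Finset.induction_on_max with
  | empty => intro a _; simp only [sum_empty]; positivity
  | insert c s hc ih =>
    intro a ha
    rw [sum_insert (fun h => lt_irrefl _ (hc c h))]
    have h1 := ih c hc
    have h2 : (2 : ℝ) ^ (c + 1) ≤ 2 ^ a :=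
      zpow_le_zpow_right₀ (by norm_num) (ha c (mem_insert_self _ _))
    rw [zpow_add_one₀ (by norm_num)] at h2
    linarith

open Classical in
/-- The class of a point: its weight is zero, or lies between two powers of two. -/
noncomputable def cls (f : ℕ → ℝ) (y : ℕ) : Option ℤ :=
  if f y = 0 then none else some (Int.log 2 (f y))

open Classical in
noncomputable def rk (f : ℕ → ℝ) (y : ℕ) : ℕ := Nat.count (fun z => cls f z = cls f y) y

noncomputable def grp (f : ℕ → ℝ) (K : ℕ) (y : ℕ) : Option ℤ × ℕ := (cls f y, rk f y / K)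

theorem rk_inj (f : ℕ → ℝ) {y z : ℕ} (h : cls f y = cls f z) (hr : rk f y = rk f z) : y = z := by
  classical
  unfold rk at hr
  rw [h] at hr
  exact Nat.count_injective (p := fun w => cls f w = cls f z) h rfl (by convert hr)

theorem fiber_le (f : ℕ → ℝ) (K : ℕ) (hK : 0 < K) (U : Finset ℕ) (g : Option ℤ × ℕ) :
    (U.filter (fun y => grp f K y = g)).card ≤ K := by
  have : (U.filter (fun y => grp f K y = g)).card ≤ (range K).card := by
    apply card_le_card_of_injOn (fun y => rk f y % K)
    · intro y _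
      exact mem_coe.2 (mem_range.2 (Nat.mod_lt _ hK))
    · intro y hy z hz h
      have h1 := (mem_filter.1 hy).2.trans (mem_filter.1 hz).2.symm
      have h2 := congrArg Prod.fst h1
      have h3 : rk f y / K = rk f z / K := congrArg Prod.snd h1
      apply rk_inj f h2
      rw [← Nat.div_add_mod (rk f y) K, ← Nat.div_add_mod (rk f z) K, h3]
      exact congrArg _ h
  simpa using this

theorem light (f : ℕ → ℝ) (hf : ∀ y, 0 ≤ f y) (K : ℕ) (hK : 0 < K) (T : Finset ℕ)
    (hT : Set.InjOn (grp f K) T) (n : ℕ) (hn : ∀ y ∈ T, y < n) (M : ℝ) (hM0 : 0 ≤ M)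
    (hM : ∀ y ∈ T, f y ≤ M) :
    ∑ y ∈ T, f y ≤ 4 * M + 2 / K * ∑ y ∈ range n, f y := by
  classical
  have hc : ∀ y c, cls f y = some c → (2 : ℝ) ^ c ≤ f y ∧ f y ≤ 2 * 2 ^ c := by
    intro y c h
    unfold cls at h
    split_ifs at h with h0
    have hp : 0 < f y := lt_of_le_of_ne (hf y) (Ne.symm h0)
    obtain rfl := Option.some.inj h
    have h1 := Int.zpow_log_le_self (b := 2) (by norm_num) hp
    have h2 := Int.lt_zpow_succ_log_self (b := 2) (by norm_num) (f y)
    rw [zpow_add_one₀ (by norm_num)] at h2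
    push_cast at h1 h2
    exact ⟨h1, by linarith⟩
  set T' := T.filter (fun y => f y ≠ 0) with hT'
  set C := T'.image (fun y => Int.log 2 (f y)) with hC
  have hcls : ∀ y, f y ≠ 0 → cls f y = some (Int.log 2 (f y)) := fun y h => if_neg h
  have e1 : ∑ y ∈ T, f y = ∑ c ∈ C, ∑ y ∈ T'.filter (fun y => Int.log 2 (f y) = c), f y := by
    rw [sum_fiberwise_of_maps_to (fun y hy => mem_image_of_mem _ hy), hT', sum_filter_ne_zero]
  have hN : ∀ c ∈ C, ∑ y ∈ T'.filter (fun y => Int.log 2 (f y) = c), f y ≤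
      2 * 2 ^ c + 2 / K * ∑ y ∈ (range n).filter (fun y => cls f y = some c), f y := by
    intro c _
    set N := ((range n).filter (fun y => cls f y = some c)).card with hNd
    have hmem : ∀ y ∈ T'.filter (fun y => Int.log 2 (f y) = c), y ∈ T ∧ cls f y = some c := by
      intro y hy
      obtain ⟨h1, h2⟩ := mem_filter.1 hy
      obtain ⟨h3, h4⟩ := mem_filter.1 h1
      exact ⟨h3, by rw [hcls y h4, h2]⟩
    have h1 : (T'.filter (fun y => Int.log 2 (f y) = c)).card ≤ (range (N / K + 1)).card := by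
      apply card_le_card_of_injOn (fun y => rk f y / K)
      · intro y hy
        obtain ⟨h1, h2⟩ := hmem y hy
        refine mem_coe.2 (mem_range.2 (Nat.lt_succ_of_le (Nat.div_le_div_right ?_)))
        unfold rk
        rw [h2, Nat.count_eq_card_filter_range]
        apply card_le_card
        intro z hz
        obtain ⟨h3, h4⟩ := mem_filter.1 hz
        exact mem_filter.2 ⟨mem_range.2 ((mem_range.1 h3).trans (hn y h1)), h4⟩
      · intro y hy z hz h
        obtain ⟨h1, h2⟩ := hmem y hy
        obtain ⟨h3, h4⟩ := hmem z hz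
        exact hT h1 h3 (Prod.ext (h2.trans h4.symm) h)
    rw [card_range] at h1
    have h2 : ∑ y ∈ T'.filter (fun y => Int.log 2 (f y) = c), f y ≤
        (T'.filter (fun y => Int.log 2 (f y) = c)).card • (2 * (2 : ℝ) ^ c) :=
      sum_le_card_nsmul _ _ _ (fun y hy => (hc y c (hmem y hy).2).2)
    have h3 : N • ((2 : ℝ) ^ c) ≤ ∑ y ∈ (range n).filter (fun y => cls f y = some c), f y :=
      card_nsmul_le_sum _ _ _ (fun y hy => (hc y c (mem_filter.1 hy).2).1)
    have h4 : ((T'.filter (fun y => Int.log 2 (f y) = c)).card : ℝ) ≤ N / K + 1 := by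
      have h5 : ((N / K : ℕ) : ℝ) ≤ N / K := Nat.cast_div_le
      have h6 : ((T'.filter (fun y => Int.log 2 (f y) = c)).card : ℝ) ≤ ((N / K + 1 : ℕ) : ℝ) := by
        exact_mod_cast h1
      push_cast at h6
      linarith
    rw [nsmul_eq_mul] at h2 h3
    have hp : (0 : ℝ) < 2 ^ c := by positivity
    have h7 : 2 / (K : ℝ) * (N * 2 ^ c) ≤
        2 / K * ∑ y ∈ (range n).filter (fun y => cls f y = some c), f y :=
      mul_le_mul_of_nonneg_left h3 (by positivity)
    have h8 := mul_le_mul_of_nonneg_right h4 (by positivity : (0 : ℝ) ≤ 2 * 2 ^ c)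
    have h9 : ((N : ℝ) / K + 1) * (2 * 2 ^ c) = 2 * 2 ^ c + 2 / (K : ℝ) * (N * 2 ^ c) := by ring
    linarith
  have e2 : ∑ c ∈ C, (2 : ℝ) ^ c ≤ 2 * M := by
    rcases C.eq_empty_or_nonempty with h | h
    · rw [h, sum_empty]; positivity
    · obtain ⟨y, hy, hy'⟩ := mem_image.1 (C.max'_mem h)
      have h1 := sum_zpow_le C (C.max' h + 1) (fun c hc => Int.lt_add_one_iff.2 (C.le_max' c hc))
      rw [zpow_add_one₀ (by norm_num), ← hy'] at h1
      have h2 := (hc y _ (hcls y (mem_filter.1 hy).2)).1
      have h3 := hM y (mem_filter.1 hy).1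
      linarith
  have e3 : ∑ c ∈ C, ∑ y ∈ (range n).filter (fun y => cls f y = some c), f y ≤
      ∑ y ∈ range n, f y := by
    rw [← sum_biUnion]
    · exact sum_le_sum_of_subset_of_nonneg
        (biUnion_subset.2 (fun c _ => filter_subset _ _)) (fun y _ _ => hf y)
    · intro c _ d _ hcd
      rw [Function.onFun, disjoint_filter]
      intro y _ h1 h2
      exact hcd (Option.some.inj (h1.symm.trans h2))
  have e4 := sum_le_sum hN
  rw [sum_add_distrib, ← mul_sum, ← mul_sum] at e4
  have e5 := mul_le_mul_of_nonneg_left e3 (by positivity : (0 : ℝ) ≤ 2 / K)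
  linarith

theorem selector (f : ℕ → ℝ) (K : ℕ) (hK : 0 < K) (u : ℕ → ℕ → ℕ)
    (hu : ∀ x k x' k', u x k = u x' k' → x = x' ∧ k = k') :
    ∃ h : ℕ → ℕ, (∀ x, h x < K) ∧ Function.Injective (fun x => grp f K (u x (h x))) := by
  classical
  obtain ⟨g, hg, hg'⟩ := (Finset.all_card_le_biUnion_card_iff_exists_injective
    (fun x : ℕ => (range K).image (fun k => grp f K (u x k)))).1 (by
      intro s
      set U := (s ×ˢ range K).image (fun p => u p.1 p.2) with hU
      have h1 : U.card = s.card * K := by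
        rw [hU, card_image_of_injective, card_product, card_range]
        intro p q h
        exact Prod.ext (hu _ _ _ _ h).1 (hu _ _ _ _ h).2
      have h2 := card_le_mul_card_image (f := grp f K) U K (fun g _ => fiber_le f K hK U g)
      have h3 : U.image (grp f K) ⊆ s.biUnion (fun x => (range K).image (fun k => grp f K (u x k))) := by
        intro g hg
        obtain ⟨y, hy, rfl⟩ := mem_image.1 hg
        obtain ⟨p, hp, rfl⟩ := mem_image.1 hy
        exact mem_biUnion.2 ⟨p.1, (mem_product.1 hp).1, mem_image_of_mem _ (mem_product.1 hp).2⟩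
      have h4 := card_le_card h3
      rw [h1, mul_comm] at h2
      exact (Nat.le_of_mul_le_mul_left h2 hK).trans h4)
  choose h hh hh' using fun x => mem_image.1 (hg' x)
  refine ⟨h, fun x => mem_range.1 (hh x), ?_⟩
  intro x y hxy
  apply hg
  rw [← hh' x, ← hh' y]
  exact hxy

end Pool.Agent.Lib.H4EUSel
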