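import Mathlib

namespace Pool.Agent.H4EqAng

open Finset Module Polynomial
open scoped RealInnerProductSpace

variable {E : Type} [NormedAddCommGroup E] [InnerProductSpace ℝ E]

lemma welch [FiniteDimensional ℝ E] {ι : Type} (P : Finset ι) (v : ι → E) :
    (∑ i ∈ P, ⟪v i, v i⟫) ^ 2 ≤ finrank ℝ E * ∑ i ∈ P, ∑ j ∈ P, ⟪v i, v j⟫ ^ 2 := by
  let b := stdOrthonormalBasis ℝ E
  let a : ι → Fin (finrank ℝ E) → ℝ := fun i k => ⟪v i, b k⟫
  have h : ∀ i j, ⟪v i, v j⟫ = ∑ k, a i k * a j k := fun i j => by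
    rw [← b.sum_inner_mul_inner]
    exact sum_congr rfl fun k _ => by rw [real_inner_comm (v j) (b k)]
  simp only [h]
  have h1 : ∑ i ∈ P, ∑ j ∈ P, (∑ k, a i k * a j k) ^ 2 = ∑ k, ∑ l, (∑ i ∈ P, a i k * a i l) ^ 2 := by
    simp only [sq, sum_mul_sum]
    calc ∑ i ∈ P, ∑ j ∈ P, ∑ k, ∑ l, a i k * a j k * (a i l * a j l)
        = ∑ i ∈ P, ∑ k, ∑ j ∈ P, ∑ l, a i k * a j k * (a i l * a j l) :=
          sum_congr rfl fun i _ => sum_comm
      _ = ∑ k, ∑ i ∈ P, ∑ j ∈ P, ∑ l, a i k * a j k * (a i l * a j l) := sum_comm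
      _ = ∑ k, ∑ i ∈ P, ∑ l, ∑ j ∈ P, a i k * a j k * (a i l * a j l) :=
          sum_congr rfl fun k _ => sum_congr rfl fun i _ => sum_comm
      _ = ∑ k, ∑ l, ∑ i ∈ P, ∑ j ∈ P, a i k * a j k * (a i l * a j l) :=
          sum_congr rfl fun k _ => sum_comm
      _ = _ := sum_congr rfl fun k _ => sum_congr rfl fun l _ => sum_congr rfl fun i _ =>
          sum_congr rfl fun j _ => by ring
  rw [h1, sum_comm]
  refine sq_sum_le_card_mul_sum_sq.trans ?_
  rw [card_univ, Fintype.card_fin]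
  refine mul_le_mul_of_nonneg_left (sum_le_sum fun k _ => ?_) (Nat.cast_nonneg _)
  exact single_le_sum (f := fun l => (∑ i ∈ P, a i k * a i l) ^ 2) (fun l _ => sq_nonneg _)
    (mem_univ k)

lemma rel_bound [FiniteDimensional ℝ E] {n : ℕ} (v : Fin (n + 1) → E) (c : ℝ)
    (h1 : ∀ i, ‖v i‖ = 1) (h2 : ∀ i j, i ≠ j → |⟪v i, v j⟫| = c) :
    (n + 1 : ℝ) ≤ finrank ℝ E * (1 + n * c ^ 2) := by
  have h := welch univ v
  have e1 : ∀ i, ⟪v i, v i⟫ = 1 := fun i => by rw [real_inner_self_eq_norm_sq, h1]; norm_num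
  have e2 : ∀ i, ∑ j, ⟪v i, v j⟫ ^ 2 = 1 + n * c ^ 2 := fun i => by
    rw [← add_sum_erase _ _ (mem_univ i), e1, sum_congr rfl (g := fun _ => c ^ 2)]
    · simp
    · intro j hj
      rw [← h2 i j (ne_of_mem_erase hj).symm, sq_abs]
  simp only [e1, e2, sum_const, card_univ, Fintype.card_fin, nsmul_eq_mul, mul_one] at h
  push_cast at h
  have : (0 : ℝ) < n + 1 := by positivity
  nlinarith

lemma minpoly_pow_dvd (x : ℝ) (hx : IsIntegral ℚ x) (k : ℕ) : ∀ p : ℚ[X], p ≠ 0 →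
    k ≤ (p.map (algebraMap ℚ ℝ)).rootMultiplicity x → minpoly ℚ x ^ k ∣ p := by
  induction k with
  | zero => intro p _ _; simp
  | succ k ih =>
    intro p hp hk
    have hr : (p.map (algebraMap ℚ ℝ)).IsRoot x :=
      (rootMultiplicity_pos (Polynomial.map_ne_zero hp)).1 (by omega)
    obtain ⟨q, rfl⟩ := minpoly.dvd ℚ x (p := p) (by rwa [aeval_def, ← eval_map])
    have hq : q ≠ 0 := right_ne_zero_of_mul hp
    rw [pow_succ']
    refine mul_dvd_mul_left _ (ih q hq ?_)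
    rw [Polynomial.map_mul, rootMultiplicity_mul (by rw [← Polynomial.map_mul]; exact Polynomial.map_ne_zero hp)] at hk
    have := rootMultiplicity_le_one_of_separable
      ((minpoly.irreducible hx).separable.map (f := algebraMap ℚ ℝ)) x
    omega

/-- an eigenvalue of an integer matrix of multiplicity above half the size is an integer -/
lemma int_eig {n : ℕ} (S : Matrix (Fin n) (Fin n) ℤ) (x : ℝ) (k : ℕ) (hk : n < 2 * k)
    (h : k ≤ finrank ℝ (Module.End.eigenspace (S.map (Int.castRingHom ℝ)).toLin' x)) :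
    ∃ m : ℤ, x = m := by
  have h1 := h.trans (LinearMap.finrank_eigenspace_le _ x)
  rw [Matrix.charpoly_toLin', Matrix.charpoly_map] at h1
  have hm := S.charpoly_monic
  have hi : IsIntegral ℤ x := by
    refine ⟨S.charpoly, hm, ?_⟩
    have := (rootMultiplicity_pos (p := S.charpoly.map (Int.castRingHom ℝ)) (x := x)
      (hm.map _).ne_zero).1 (by omega)
    rwa [IsRoot, eval_map] at this
  have hq : IsIntegral ℚ x := hi.tower_top
  have h2 := minpoly_pow_dvd x hq k (S.charpoly.map (Int.castRingHom ℚ)) (hm.map _).ne_zero (by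
    rw [Polynomial.map_map, RingHom.ext_int ((algebraMap ℚ ℝ).comp (Int.castRingHom ℚ))
      (Int.castRingHom ℝ)]
    exact h1)
  have h3 := natDegree_le_of_dvd h2 (hm.map _).ne_zero
  rw [natDegree_pow, hm.natDegree_map, Matrix.charpoly_natDegree_eq_dim, Fintype.card_fin] at h3
  have h4 := minpoly.natDegree_pos hq
  have h5 : (minpoly ℚ x).natDegree = 1 := by nlinarith
  obtain ⟨y, rfl⟩ := minpoly.natDegree_eq_one_iff.1 h5
  obtain ⟨m, rfl⟩ := IsIntegrallyClosed.isIntegral_iff.1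
    ((isIntegral_algebraMap_iff (algebraMap ℚ ℝ).injective).1 hi)
  exact ⟨m, by simp⟩

lemma rows {ι : Type} (P : Finset ι) (c : ι → E) (h1 : ∀ x ∈ P, ⟪c x, c x⟫ = 2 / 3)
    (h2 : ∀ x ∈ P, ∀ y ∈ P, x ≠ y → ⟪c x, c y⟫ = 0 ∨ ⟪c x, c y⟫ = -2 / 3) :
    ∀ x ∈ P, ∑ y ∈ P, |⟪c x, c y⟫| ≤ 4 / 3 := by
  classical
  intro x hx
  have hneg : ∀ y ∈ P, y ≠ x → ⟪c x, c y⟫ ≠ 0 → c y = -c x := by
    intro y hy hne h0
    have := (h2 x hx y hy hne.symm).resolve_left h0
    rw [eq_neg_iff_add_eq_zero, ← inner_self_eq_zero (𝕜 := ℝ), inner_add_left, inner_add_right,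
      inner_add_right, h1 x hx, h1 y hy, real_inner_comm (c x) (c y), this]
    norm_num
  rw [← add_sum_erase _ _ hx, h1 x hx, ← sum_filter_ne_zero]
  have hc : ((P.erase x).filter fun y => |⟪c x, c y⟫| ≠ 0).card ≤ 1 := by
    refine card_le_one.2 fun y hy z hz => ?_
    simp only [mem_filter, mem_erase, abs_ne_zero] at hy hz
    by_contra hne
    have := h2 y hy.1.2 z hz.1.2 hne
    rw [hneg y hy.1.2 hy.1.1 hy.2, hneg z hz.1.2 hz.1.1 hz.2, inner_neg_neg, h1 x hx] at this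
    norm_num at this
  have := sum_le_card_nsmul ((P.erase x).filter fun y => |⟪c x, c y⟫| ≠ 0)
    (fun y => |⟪c x, c y⟫|) (2 / 3) (by
      intro y hy
      simp only [mem_filter, mem_erase] at hy
      rcases h2 x hx y hy.1.2 hy.1.1.symm with e | e <;> rw [e] <;> norm_num [abs_of_neg])
  rw [nsmul_eq_mul] at this
  have hc' : (((P.erase x).filter fun y => |⟪c x, c y⟫| ≠ 0).card : ℝ) ≤ 1 := by exact_mod_cast hc
  rw [abs_of_pos (by norm_num : (0 : ℝ) < 2 / 3)]
  linarith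

lemma pillar_one [FiniteDimensional ℝ E] {ι : Type} (P : Finset ι) (c : ι → E)
    (h1 : ∀ x ∈ P, ⟪c x, c x⟫ = 2 / 3)
    (h2 : ∀ x ∈ P, ∀ y ∈ P, x ≠ y → ⟪c x, c y⟫ = 0 ∨ ⟪c x, c y⟫ = -2 / 3) :
    P.card ≤ 2 * finrank ℝ E := by
  have h := welch P c
  rw [sum_congr rfl h1, sum_const, nsmul_eq_mul] at h
  have h3 : ∑ x ∈ P, ∑ y ∈ P, ⟪c x, c y⟫ ^ 2 ≤ P.card * (8 / 9) := by
    rw [← nsmul_eq_mul]
    refine sum_le_card_nsmul _ _ _ fun x hx => ?_
    have : ∑ y ∈ P, ⟪c x, c y⟫ ^ 2 = 2 / 3 * ∑ y ∈ P, |⟪c x, c y⟫| := by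
      rw [mul_sum]
      refine sum_congr rfl fun y hy => ?_
      by_cases e : x = y
      · subst e
        rw [h1 x hx]; norm_num [abs_of_pos]
      · rcases h2 x hx y hy e with e | e <;> rw [e] <;> norm_num [abs_of_neg]
    have := rows P c h1 h2 x hx
    linarith
  rcases Nat.eq_zero_or_pos P.card with h0 | h0
  · omega
  have h0' : (0 : ℝ) < P.card := by exact_mod_cast h0
  have h4 := h.trans (mul_le_mul_of_nonneg_left h3 (Nat.cast_nonneg _))
  have : (P.card : ℝ) ≤ 2 * finrank ℝ E := by nlinarith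
  exact_mod_cast this

lemma pillar_two {ι : Type} (P : Finset ι) (c : ι → E) (z : E) (hz : ⟪z, z⟫ = 2 / 3)
    (h1 : ∀ x ∈ P, ⟪c x, c x⟫ = 2 / 3)
    (h2 : ∀ x ∈ P, ∀ y ∈ P, x ≠ y → ⟪c x, c y⟫ = 0 ∨ ⟪c x, c y⟫ = -2 / 3)
    (h3 : ∀ x ∈ P, |⟪z, c x⟫| = 1 / 3) : P.card ≤ 8 := by
  let u : E := ∑ x ∈ P, ⟪z, c x⟫ • c x
  have e1 : ⟪z, u⟫ = P.card * (1 / 9) := by
    simp only [u, inner_sum, real_inner_smul_right]
    rw [← nsmul_eq_mul, ← sum_const]
    refine sum_congr rfl fun x hx => ?_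
    rw [← sq, ← sq_abs, h3 x hx]; norm_num
  have e2 : ⟪u, u⟫ ≤ P.card * (4 / 27) := by
    simp only [u, sum_inner, inner_sum, real_inner_smul_right, real_inner_smul_left]
    rw [← nsmul_eq_mul]
    refine sum_le_card_nsmul _ _ _ fun x hx => ?_
    have := rows P c h1 h2 x hx
    calc _ ≤ ∑ y ∈ P, 1 / 9 * |⟪c x, c y⟫| := by
          refine sum_le_sum fun y hy => (le_abs_self _).trans (le_of_eq ?_)
          rw [abs_mul, abs_mul, h3 x hx, h3 y hy, real_inner_comm]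
          ring
      _ ≤ _ := by rw [← mul_sum]; linarith
  have e3 := real_inner_mul_inner_self_le z u
  rw [e1, hz] at e3
  rcases Nat.eq_zero_or_pos P.card with h0 | h0
  · omega
  have h0' : (0 : ℝ) < P.card := by exact_mod_cast h0
  have : (P.card : ℝ) ≤ 8 := by nlinarith
  exact_mod_cast this

lemma pm {a : ℝ} (h : |a| = 1 / 3) : a = 1 / 3 ∨ a = -1 / 3 := by
  rcases (abs_eq (by norm_num)).1 h with e | e
  · exact Or.inl e
  · exact Or.inr (by rw [e]; norm_num)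

/-- component orthogonal to the base -/
noncomputable def perp (p q r x : E) : E :=
  x - ((3 / 4 * (2 * ⟪x, p⟫ + ⟪x, q⟫ + ⟪x, r⟫)) • p + (3 / 4 * (⟪x, p⟫ + 2 * ⟪x, q⟫ + ⟪x, r⟫)) • q
    + (3 / 4 * (⟪x, p⟫ + ⟪x, q⟫ + 2 * ⟪x, r⟫)) • r)

lemma perp_inner (p q r : E) (hp : ⟪p, p⟫ = 1) (hq : ⟪q, q⟫ = 1) (hr : ⟪r, r⟫ = 1)
    (hpq : ⟪p, q⟫ = -1 / 3) (hpr : ⟪p, r⟫ = -1 / 3) (hqr : ⟪q, r⟫ = -1 / 3) (x y : E) :
    ⟪perp p q r x, perp p q r y⟫ = ⟪x, y⟫ - 3 / 4 * (⟪x, p⟫ * ⟪y, p⟫ + ⟪x, q⟫ * ⟪y, q⟫ +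
      ⟪x, r⟫ * ⟪y, r⟫ + (⟪x, p⟫ + ⟪x, q⟫ + ⟪x, r⟫) * (⟪y, p⟫ + ⟪y, q⟫ + ⟪y, r⟫)) := by
  simp only [perp, inner_sub_left, inner_sub_right, inner_add_left, inner_add_right,
    real_inner_smul_left, real_inner_smul_right, hp, hq, hr, hpq, hpr, hqr,
    real_inner_comm p q, real_inner_comm p r, real_inner_comm q r, real_inner_comm y p,
    real_inner_comm y q, real_inner_comm y r]
  ring

/-- class of a sign pattern -/
noncomputable def cls (a b d : ℝ) : ℕ :=
  if a = b then (if b = d then 0 else 3) else if b = d then 1 else 2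

lemma cls_val : cls (1 / 3) (1 / 3) (1 / 3) = 0 ∧ cls (1 / 3) (1 / 3) (-1 / 3) = 3 ∧
    cls (1 / 3) (-1 / 3) (1 / 3) = 2 ∧ cls (1 / 3) (-1 / 3) (-1 / 3) = 1 ∧
    cls (-1 / 3) (1 / 3) (1 / 3) = 1 ∧ cls (-1 / 3) (1 / 3) (-1 / 3) = 2 ∧
    cls (-1 / 3) (-1 / 3) (1 / 3) = 3 ∧ cls (-1 / 3) (-1 / 3) (-1 / 3) = 0 := by
  norm_num [cls]

lemma aux2 (a b d a' b' d' g : ℝ) (ha : a = 1 / 3 ∨ a = -1 / 3) (hb : b = 1 / 3 ∨ b = -1 / 3)
    (hd : d = 1 / 3 ∨ d = -1 / 3) (ha' : a' = 1 / 3 ∨ a' = -1 / 3) (hb' : b' = 1 / 3 ∨ b' = -1 / 3)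
    (hd' : d' = 1 / 3 ∨ d' = -1 / 3) (hg : g = 1 / 3 ∨ g = -1 / 3) :
    (cls a b d = 0 → cls a' b' d' = 0 →
      g - 3 / 4 * (a * a' + b * b' + d * d' + (a + b + d) * (a' + b' + d')) ≠ 0) ∧
    (cls a b d ≠ 0 → cls a b d = cls a' b' d' →
      9 * (a + b + d) * (a' + b' + d') *
        (g - 3 / 4 * (a * a' + b * b' + d * d' + (a + b + d) * (a' + b' + d'))) = 0 ∨
      9 * (a + b + d) * (a' + b' + d') *
        (g - 3 / 4 * (a * a' + b * b' + d * d' + (a + b + d) * (a' + b' + d'))) = -2 / 3) ∧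
    (cls a b d ≠ 0 → cls a' b' d' ≠ 0 → cls a b d ≠ cls a' b' d' →
      |9 * (a + b + d) * (a' + b' + d') *
        (g - 3 / 4 * (a * a' + b * b' + d * d' + (a + b + d) * (a' + b' + d')))| = 1 / 3) := by
  obtain ⟨c1, c2, c3, c4, c5, c6, c7, c8⟩ := cls_val
  rcases ha with rfl | rfl <;> rcases hb with rfl | rfl <;> rcases hd with rfl | rfl <;>
    rcases ha' with rfl | rfl <;> rcases hb' with rfl | rfl <;> rcases hd' with rfl | rfl <;>
    simp only [c1, c2, c3, c4, c5, c6, c7, c8] <;> clear c1 c2 c3 c4 c5 c6 c7 c8 <;>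
    rcases hg with rfl | rfl <;> norm_num [abs_of_pos, abs_of_neg]

lemma third_base [FiniteDimensional ℝ E] (hE : finrank ℝ E = 13) {ι : Type} (Q : Finset ι)
    (x : ι → E) (p q r : E) (hp : ⟪p, p⟫ = 1) (hq : ⟪q, q⟫ = 1) (hr : ⟪r, r⟫ = 1)
    (hpq : ⟪p, q⟫ = -1 / 3) (hpr : ⟪p, r⟫ = -1 / 3) (hqr : ⟪q, r⟫ = -1 / 3)
    (h1 : ∀ i ∈ Q, ⟪x i, x i⟫ = 1) (h2 : ∀ i ∈ Q, ∀ j ∈ Q, i ≠ j → |⟪x i, x j⟫| = 1 / 3)
    (ha : ∀ i ∈ Q, |⟪x i, p⟫| = 1 / 3) (hb : ∀ i ∈ Q, |⟪x i, q⟫| = 1 / 3)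
    (hd : ∀ i ∈ Q, |⟪x i, r⟫| = 1 / 3) : Q.card ≤ 27 := by
  classical
  let k : ι → ℕ := fun i => cls ⟪x i, p⟫ ⟪x i, q⟫ ⟪x i, r⟫
  let c : ι → E := fun i => (3 * (⟪x i, p⟫ + ⟪x i, q⟫ + ⟪x i, r⟫)) • perp p q r (x i)
  have hc : ∀ i j, ⟪c i, c j⟫ = 9 * (⟪x i, p⟫ + ⟪x i, q⟫ + ⟪x i, r⟫) * (⟪x j, p⟫ + ⟪x j, q⟫ + ⟪x j, r⟫)
      * ⟪perp p q r (x i), perp p q r (x j)⟫ := fun i j => by
    simp only [c, real_inner_smul_left, real_inner_smul_right]; ring
  have pi := perp_inner p q r hp hq hr hpq hpr hqr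
  have d0 : ∀ i ∈ Q, k i = 0 → perp p q r (x i) = 0 := by
    intro i hi
    rw [← inner_self_eq_zero (𝕜 := ℝ), pi, h1 i hi]
    simp only [k, cls]
    rcases pm (ha i hi) with e1 | e1 <;> rcases pm (hb i hi) with e2 | e2 <;>
      rcases pm (hd i hi) with e3 | e3 <;> rw [e1, e2, e3] <;> norm_num
  have d1 : ∀ i ∈ Q, k i ≠ 0 → ⟪c i, c i⟫ = 2 / 3 := by
    intro i hi
    rw [hc, pi, h1 i hi]
    simp only [k, cls]
    rcases pm (ha i hi) with e1 | e1 <;> rcases pm (hb i hi) with e2 | e2 <;>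
      rcases pm (hd i hi) with e3 | e3 <;> rw [e1, e2, e3] <;> norm_num
  have d2 : ∀ i ∈ Q, ∀ j ∈ Q, i ≠ j → (k i = 0 → k j = 0 → ⟪perp p q r (x i), perp p q r (x j)⟫ ≠ 0) ∧
      (k i ≠ 0 → k i = k j → ⟪c i, c j⟫ = 0 ∨ ⟪c i, c j⟫ = -2 / 3) ∧
      (k i ≠ 0 → k j ≠ 0 → k i ≠ k j → |⟪c i, c j⟫| = 1 / 3) := by
    intro i hi j hj hij
    rw [hc, pi]
    exact aux2 _ _ _ _ _ _ _ (pm (ha i hi)) (pm (hb i hi)) (pm (hd i hi)) (pm (ha j hj))
      (pm (hb j hj)) (pm (hd j hj)) (pm (h2 i hi j hj hij))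
  have c0 : (Q.filter fun i => k i = 0).card ≤ 1 := by
    refine card_le_one.2 fun i hi j hj => ?_
    rw [mem_filter] at hi hj
    by_contra hne
    exact (d2 i hi.1 j hj.1 hne).1 hi.2 hj.2 (by rw [d0 i hi.1 hi.2, inner_zero_left])
  have g1 : ∀ t, t ≠ 0 → ∀ i ∈ Q.filter fun i => k i = t, ⟪c i, c i⟫ = 2 / 3 := fun t ht i hi =>
    d1 i (mem_filter.1 hi).1 (by rw [(mem_filter.1 hi).2]; exact ht)
  have g2 : ∀ t, t ≠ 0 → ∀ i ∈ Q.filter fun i => k i = t, ∀ j ∈ Q.filter fun i => k i = t, i ≠ j →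
      ⟪c i, c j⟫ = 0 ∨ ⟪c i, c j⟫ = -2 / 3 := fun t ht i hi j hj hij =>
    (d2 i (mem_filter.1 hi).1 j (mem_filter.1 hj).1 hij).2.1 (by rw [(mem_filter.1 hi).2]; exact ht)
      (by rw [(mem_filter.1 hi).2, (mem_filter.1 hj).2])
  have cA : ∀ t, t ≠ 0 → (Q.filter fun i => k i = t).card ≤ 26 := fun t ht => by
    have := pillar_one _ c (g1 t ht) (g2 t ht)
    omega
  have cB : ∀ t s, t ≠ 0 → s ≠ 0 → s ≠ t → 0 < (Q.filter fun i => k i = s).card →
      (Q.filter fun i => k i = t).card ≤ 8 := fun t s ht hs hst h0 => by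
    obtain ⟨j, hj⟩ := card_pos.1 h0
    refine pillar_two _ c (c j) (g1 s hs j hj) (g1 t ht) (g2 t ht) fun i hi => ?_
    rw [mem_filter] at hi hj
    exact (d2 j hj.1 i hi.1 (by rintro rfl; exact hst (hj.2.symm.trans hi.2))).2.2
      (by rw [hj.2]; exact hs) (by rw [hi.2]; exact ht) (by rw [hi.2, hj.2]; exact hst)
  have tot : Q.card = ∑ t ∈ range 4, (Q.filter fun i => k i = t).card := by
    refine card_eq_sum_card_fiberwise fun i _ => ?_
    simp only [k, cls, coe_range, Set.mem_Iio]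
    split_ifs <;> norm_num
  simp only [sum_range_succ, range_zero, sum_empty] at tot
  have := cA 1 (by norm_num)
  have := cA 2 (by norm_num)
  have := cA 3 (by norm_num)
  have := cB 1 2 (by norm_num) (by norm_num) (by norm_num)
  have := cB 1 3 (by norm_num) (by norm_num) (by norm_num)
  have := cB 2 1 (by norm_num) (by norm_num) (by norm_num)
  have := cB 2 3 (by norm_num) (by norm_num) (by norm_num)
  have := cB 3 1 (by norm_num) (by norm_num) (by norm_num)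
  have := cB 3 2 (by norm_num) (by norm_num) (by norm_num)
  omega

lemma ker_big [FiniteDimensional ℝ E] {n : ℕ} (v : Fin n → E) :
    n ≤ finrank ℝ E + finrank ℝ (LinearMap.ker (Fintype.linearCombination ℝ v)) := by
  have h := (Fintype.linearCombination ℝ v).finrank_range_add_finrank_ker
  have := Submodule.finrank_le (LinearMap.range (Fintype.linearCombination ℝ v))
  simp only [finrank_pi, Fintype.card_fin] at h
  omega

lemma dep [FiniteDimensional ℝ E] {n : ℕ} (v : Fin n → E) (h : finrank ℝ E < n) :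
    ∃ a : Fin n → ℝ, a ≠ 0 ∧ ∀ i, ∑ j, a j * ⟪v i, v j⟫ = 0 := by
  have h1 := ker_big v
  have : LinearMap.ker (Fintype.linearCombination ℝ v) ≠ ⊥ := by
    intro e
    rw [e, finrank_bot] at h1
    omega
  obtain ⟨a, ha, h0⟩ := Submodule.exists_mem_ne_zero_of_ne_bot this
  refine ⟨a, h0, fun i => ?_⟩
  have := congrArg (fun w => ⟪v i, w⟫) (LinearMap.mem_ker.1 ha)
  simpa [Fintype.linearCombination_apply, inner_sum, real_inner_smul_right] using this

lemma third [FiniteDimensional ℝ E] (hE : finrank ℝ E = 13) (v : Fin 33 → E)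
    (h1 : ∀ i, ⟪v i, v i⟫ = 1) (h2 : ∀ i j, i ≠ j → |⟪v i, v j⟫| = 1 / 3) : False := by
  classical
  by_cases h : ∃ i j k, i ≠ j ∧ i ≠ k ∧ j ≠ k ∧ ⟪v i, v j⟫ * ⟪v i, v k⟫ * ⟪v j, v k⟫ = -1 / 27
  · obtain ⟨i, j, k, hij, hik, hjk, e⟩ := h
    have s1 : ⟪v i, v j⟫ * ⟪v i, v j⟫ = 1 / 9 := by
      rcases pm (h2 i j hij) with e | e <;> rw [e] <;> norm_num
    have s2 : ⟪v i, v k⟫ * ⟪v i, v k⟫ = 1 / 9 := by
      rcases pm (h2 i k hik) with e | e <;> rw [e] <;> norm_num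
    have := third_base hE (univ \ {i, j, k}) v (v i) ((-3 * ⟪v i, v j⟫) • v j)
      ((-3 * ⟪v i, v k⟫) • v k) (h1 i)
      (by simp only [real_inner_smul_left, real_inner_smul_right, h1]; linarith)
      (by simp only [real_inner_smul_left, real_inner_smul_right, h1]; linarith)
      (by simp only [real_inner_smul_right]; linarith)
      (by simp only [real_inner_smul_right]; linarith)
      (by simp only [real_inner_smul_left, real_inner_smul_right]; linarith)
      (fun l _ => h1 l) (fun l _ m _ hlm => h2 l m hlm)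
      (fun l hl => h2 l i (by rintro rfl; simp at hl))
      (fun l hl => by
        rw [real_inner_smul_right, abs_mul, abs_mul, h2 i j hij, h2 l j (by rintro rfl; simp at hl)]
        norm_num)
      (fun l hl => by
        rw [real_inner_smul_right, abs_mul, abs_mul, h2 i k hik, h2 l k (by rintro rfl; simp at hl)]
        norm_num)
    have h3 := le_card_sdiff ({i, j, k} : Finset (Fin 33)) univ
    have h4 : ({i, j, k} : Finset (Fin 33)).card ≤ 3 := card_le_three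
    rw [card_univ, Fintype.card_fin] at h3
    omega
  · push Not at h
    let s : Fin 33 → ℝ := fun i => if i = 0 then 1 else 3 * ⟪v 0, v i⟫
    have hs : ∀ i j, ⟪v i, v j⟫ = s i * s j * (1 / 3 + if i = j then 2 / 3 else 0) := by
      intro i j
      by_cases hi : i = 0 <;> by_cases hj : j = 0
      · subst hi hj
        simp only [s, h1]; norm_num
      · subst hi
        simp only [s, if_neg hj, if_neg (Ne.symm hj)]; norm_num; ring
      · subst hj
        simp only [s, if_neg hi, real_inner_comm (v 0) (v i)]; norm_num; ring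
      · simp only [s, if_neg hi, if_neg hj]
        by_cases hij : i = j
        · subst hij
          rw [h1, if_pos rfl]
          rcases pm (h2 0 i (Ne.symm hi)) with e | e <;> rw [e] <;> norm_num
        · have := h 0 i j (Ne.symm hi) (Ne.symm hj) hij
          rw [if_neg hij]
          rcases pm (h2 0 i (Ne.symm hi)) with e1 | e1 <;> rcases pm (h2 0 j (Ne.symm hj)) with e2 | e2 <;>
            rcases pm (h2 i j hij) with e3 | e3 <;> rw [e1, e2, e3] at this ⊢ <;>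
            first | (norm_num; done) | (norm_num at this)
    have hs0 : ∀ i, s i ≠ 0 := fun i e => by
      have := hs i i
      rw [h1, e] at this
      norm_num at this
    obtain ⟨a, ha, h0⟩ := dep v (by omega)
    have k1 : ∀ i, 2 * (a i * s i) + ∑ j, a j * s j = 0 := fun i => by
      have := h0 i
      simp only [hs i, mul_add, sum_add_distrib, mul_ite, mul_zero, sum_ite_eq, mem_univ,
        if_true] at this
      have e : ∑ j, a j * (s i * s j * (1 / 3)) = s i / 3 * ∑ j, a j * s j := by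
        rw [mul_sum]; exact sum_congr rfl fun j _ => by ring
      rw [e] at this
      apply mul_left_cancel₀ (hs0 i)
      linarith
    have k2 : ∑ i, (2 * (a i * s i) + ∑ j, a j * s j) = 0 := sum_eq_zero fun i _ => k1 i
    rw [sum_add_distrib, ← mul_sum, sum_const, card_univ, Fintype.card_fin, nsmul_eq_mul] at k2
    have k3 : ∑ j, a j * s j = 0 := by push_cast at k2; linarith
    refine ha (funext fun i => ?_)
    have := k1 i
    rw [k3] at this
    exact (mul_eq_zero.1 (by linarith : a i * s i = 0)).resolve_right (hs0 i)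

/-- the sign matrix -/
noncomputable def sgn {n : ℕ} (v : Fin n → E) : Matrix (Fin n) (Fin n) ℤ :=
  fun i j => if i = j then 0 else if 0 < ⟪v i, v j⟫ then 1 else -1

lemma sgn_spec {n : ℕ} (v : Fin n → E) (c : ℝ) (hc : 0 < c) (h1 : ∀ i, ⟪v i, v i⟫ = 1)
    (h2 : ∀ i j, i ≠ j → |⟪v i, v j⟫| = c) (i j : Fin n) :
    ⟪v i, v j⟫ = c * sgn v i j + if i = j then 1 else 0 := by
  unfold sgn
  by_cases hij : i = j
  · subst hij; rw [h1]; simp
  · have := h2 i j hij
    simp only [if_neg hij]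
    split_ifs with h
    · rw [abs_of_pos h] at this; simp [this]
    · rw [abs_of_nonpos (not_lt.1 h)] at this; simp [← this]

lemma even_case [FiniteDimensional ℝ E] (hE : finrank ℝ E = 13) (v : Fin 14 → E) (c : ℝ) (m : ℤ)
    (hc : 0 < c) (hm : c * (2 * m) = 1) (h1 : ∀ i, ⟪v i, v i⟫ = 1)
    (h2 : ∀ i j, i ≠ j → |⟪v i, v j⟫| = c) : False := by
  obtain ⟨a, ha, h0⟩ := dep v (by omega)
  let A : Matrix (Fin 14) (Fin 14) ℤ := fun i j => sgn v i j + if i = j then 2 * m else 0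
  have hA : (A.map (Int.castRingHom ℝ)).det = 0 := by
    refine Matrix.exists_mulVec_eq_zero_iff.1 ⟨a, ha, funext fun i => ?_⟩
    apply mul_left_cancel₀ hc.ne'
    rw [Pi.zero_apply, mul_zero, ← h0 i]
    simp only [Matrix.mulVec, dotProduct, mul_sum]
    refine sum_congr rfl fun j _ => ?_
    rw [sgn_spec v c hc h1 h2]
    simp only [A, Matrix.map_apply, eq_intCast]
    split_ifs
    · push_cast; linear_combination a j * hm
    · push_cast; ring
  have hA' : A.det = 0 := by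
    have : ((Int.castRingHom ℝ) A.det) = 0 := by rw [RingHom.map_det]; exact hA
    simpa using this
  have hB : A.map (Int.castRingHom (ZMod 2)) = Matrix.of fun i j => if i = j then 0 else 1 := by
    ext i j
    simp only [A, sgn, Matrix.map_apply, eq_intCast, Matrix.of_apply]
    split_ifs
    · push_cast
      rw [show (2 : ZMod 2) = 0 from rfl]; simp
    · simp
    · simp
  have hC : (Matrix.of fun i j : Fin 14 => if i = j then (0 : ZMod 2) else 1) *
      (Matrix.of fun i j : Fin 14 => if i = j then (0 : ZMod 2) else 1) = 1 := by decide +kernel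
  have hD := congrArg Matrix.det hC
  rw [Matrix.det_mul, Matrix.det_one, ← hB] at hD
  have : (A.map (Int.castRingHom (ZMod 2))).det = 0 := by
    have := (Int.castRingHom (ZMod 2)).map_det A
    rw [hA', map_zero] at this
    exact this.symm
  rw [this] at hD
  simp at hD

theorem bound13 [FiniteDimensional ℝ E] (hE : finrank ℝ E = 13) (v : Fin 33 → E) (c : ℝ)
    (hc : c < 1) (hn : ∀ i, ‖v i‖ = 1) (h2 : ∀ i j, i ≠ j → |⟪v i, v j⟫| = c) : False := by
  have h1 : ∀ i, ⟪v i, v i⟫ = 1 := fun i => by rw [real_inner_self_eq_norm_sq, hn]; norm_num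
  have c0 : 0 ≤ c := by rw [← h2 0 1 (by decide)]; exact abs_nonneg _
  have rb := rel_bound v c hn h2
  rw [hE] at rb
  push_cast at rb
  have c5 : 1 / 5 < c := by nlinarith
  have hc0 : 0 < c := by linarith
  obtain ⟨m, hm⟩ := int_eig (sgn v) (-c⁻¹) 20 (by norm_num) (by
    have h := ker_big v
    refine le_trans (by omega) (Submodule.finrank_mono
      (s := LinearMap.ker (Fintype.linearCombination ℝ v)) fun a ha => ?_)
    rw [Module.End.mem_eigenspace_iff]
    funext i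
    have := congrArg (fun w => ⟪v i, w⟫) (LinearMap.mem_ker.1 ha)
    simp only [Fintype.linearCombination_apply, inner_sum, real_inner_smul_right, inner_zero_right,
      sgn_spec v c hc0 h1 h2 i, mul_add, sum_add_distrib, mul_ite, mul_one, mul_zero, sum_ite_eq,
      mem_univ, if_true] at this
    simp only [Matrix.toLin'_apply, Matrix.mulVec, dotProduct, Matrix.map_apply, eq_intCast,
      Pi.smul_apply, smul_eq_mul]
    have e : ∑ j, a j * (c * (sgn v i j : ℝ)) = c * ∑ j, (sgn v i j : ℝ) * a j := by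
      rw [mul_sum]; exact sum_congr rfl fun j _ => by ring
    rw [e] at this
    field_simp
    linarith)
  have hcm : c * (-m) = 1 := by rw [← hm]; field_simp
  have m1 : (1 : ℝ) < -m := by nlinarith
  have m2 : (-m : ℝ) < 5 := by nlinarith
  have m3 : m = -2 ∨ m = -3 ∨ m = -4 := by
    have : 1 < -m := by exact_mod_cast m1
    have : -m < 5 := by exact_mod_cast m2
    omega
  have inj := Fin.castLE_injective (show 14 ≤ 33 by norm_num)
  rcases m3 with rfl | rfl | rfl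
  · exact even_case hE (fun i => v (Fin.castLE (by norm_num) i)) c 1 hc0 (by push_cast at hcm ⊢; linarith)
      (fun i => h1 _) fun i j hij => h2 _ _ (inj.ne hij)
  · refine third hE v h1 fun i j hij => ?_
    rw [h2 i j hij]
    push_cast at hcm
    linarith
  · exact even_case hE (fun i => v (Fin.castLE (by norm_num) i)) c 2 hc0 (by push_cast at hcm ⊢; linarith)
      (fun i => h1 _) fun i j hij => h2 _ _ (inj.ne hij)

end Pool.Agent.H4EqAng
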