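import Mathlib

/-! An abstract setting for free objects (vector spaces, free groups) and the one-step extension
lemma of a back-and-forth construction of free actions on bases. -/

namespace Pool.Agent.H4Fr

open Set
open scoped Pointwise

/-- closure operator and bases on a set with a group of automorphisms -/
structure Fr (Γ M : Type) [Group Γ] [MulAction Γ M] where
  cl : Set M → Set M
  IsB : Set M → Prop
  sub : ∀ S, S ⊆ cl S
  le : ∀ {S T}, S ⊆ cl T → cl S ⊆ cl T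
  fin : ∀ {S x}, x ∈ cl S → ∃ T ⊆ S, T.Finite ∧ x ∈ cl T
  smul : ∀ (g : Γ) {S x}, x ∈ cl S → g • x ∈ cl (g • S)
  eqOn : ∀ {g h : Γ} {S}, (∀ x ∈ S, g • x = h • x) → ∀ x ∈ cl S, g • x = h • x
  span : ∀ {X}, IsB X → ∀ x, x ∈ cl X
  map : ∀ (g : Γ) {X}, IsB X → IsB (g • X)
  ext : ∀ {X Y} {φ : M → M}, IsB X → IsB Y → BijOn φ X Y → ∃ g : Γ, ∀ x ∈ X, g • x = φ x
  kur : ∀ {X Y S B}, IsB X → IsB Y → S ⊆ Y → B ⊆ X → S ⊆ cl B →
    ∃ S', S ⊆ S' ∧ S' ⊆ cl B ∧ B ⊆ cl S' ∧ IsB (S' ∪ (X \ B))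
  lim : ∀ {S}, (∀ T ⊆ S, T.Finite → ∃ Y, IsB Y ∧ T ⊆ Y) → (∀ x, x ∈ cl S) → IsB S
  ind : ∀ {X x}, IsB X → x ∈ X → x ∉ cl (X \ {x})

variable {Γ M : Type} [Group Γ] [MulAction Γ M] (A : Fr Γ M)

namespace Fr

theorem mono {S T : Set M} (h : S ⊆ T) : A.cl S ⊆ A.cl T := A.le (h.trans (A.sub T))

def Prim (S : Set M) : Prop := ∃ Z, A.IsB Z ∧ S ⊆ Z

variable {A}

theorem Prim.smul {S : Set M} (h : A.Prim S) (g : Γ) : A.Prim (g • S) := by
  obtain ⟨Z, h1, h2⟩ := h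
  exact ⟨g • Z, A.map g h1, smul_set_mono h2⟩

theorem mem_of_cl {X B : Set M} (hX : A.IsB X) (hB : B ⊆ X) {x : M} (hx : x ∈ X)
    (h : x ∈ A.cl B) : x ∈ B := by
  by_contra hn
  have : B ⊆ X \ {x} := fun y hy => ⟨hB hy, fun e => hn (mem_singleton_iff.1 e ▸ hy)⟩
  exact A.ind hX hx (A.mono this h)

theorem smul_cl (g : Γ) {S T : Set M} (h : S ⊆ A.cl T) : g • S ⊆ A.cl (g • T) := by
  rintro _ ⟨x, hx, rfl⟩
  exact A.smul g (h hx)

theorem fin_set {S P : Set M} (hP : P.Finite) (h : P ⊆ A.cl S) :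
    ∃ T ⊆ S, T.Finite ∧ P ⊆ A.cl T := by
  choose! T h1 h2 h3 using fun x (hx : x ∈ P) => A.fin (h hx)
  refine ⟨⋃ x ∈ P, T x, iUnion₂_subset h1, hP.biUnion h2, fun x hx => ?_⟩
  exact A.mono (subset_biUnion_of_mem (u := T) hx) (h3 x hx)

theorem kur' {X S B : Set M} (hX : A.IsB X) (hS : A.Prim S) (hB : B ⊆ X) (h : S ⊆ A.cl B) :
    ∃ S', S ⊆ S' ∧ S' ⊆ A.cl B ∧ B ⊆ A.cl S' ∧ A.IsB (S' ∪ (X \ B)) := by
  obtain ⟨Y, h1, h2⟩ := hS
  exact A.kur hX h1 h2 hB h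

end Fr

theorem card_eq_of_fin {D S : Set M} (hD : D.Infinite) (h1 : (D \ S).Finite)
    (h2 : (S \ D).Finite) : Cardinal.mk S = Cardinal.mk D := by
  have key : ∀ {P Q : Set M}, Q.Infinite → (P \ Q).Finite → Cardinal.mk P ≤ Cardinal.mk Q := by
    intro P Q hQ h
    have a : Cardinal.mk P ≤ Cardinal.mk (Q ∪ (P \ Q) : Set M) :=
      Cardinal.mk_le_mk_of_subset (by intro x hx; by_cases c : x ∈ Q <;> simp [*])
    have b := Cardinal.mk_union_le Q (P \ Q)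
    have c : Cardinal.aleph0 ≤ Cardinal.mk Q := Cardinal.infinite_iff.1 hQ.to_subtype
    have d : Cardinal.mk (P \ Q : Set M) ≤ Cardinal.mk Q :=
      (Cardinal.lt_aleph0_iff_set_finite.2 h).le.trans c
    rw [Cardinal.add_eq_left c d] at b
    exact a.trans b
  have hS : S.Infinite := fun h => hD ((h.union h1).subset (by
    intro x hx; by_cases c : x ∈ S <;> simp [*]))
  exact le_antisymm (key hD h2) (key hS h1)

theorem bijOn_of_card {P Q : Set M} (h : Cardinal.mk P = Cardinal.mk Q) :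
    ∃ k : M → M, BijOn k P Q := by
  classical
  obtain ⟨e⟩ := Cardinal.eq.1 h
  refine ⟨fun x => if hx : x ∈ P then (e ⟨x, hx⟩ : M) else x, ?_, ?_, ?_⟩
  · intro x hx; simp [hx]
  · intro x hx y hy hxy
    simp only [hx, hy, dif_pos] at hxy
    simpa using e.injective (Subtype.ext hxy)
  · intro y hy
    refine ⟨e.symm ⟨y, hy⟩, (e.symm ⟨y, hy⟩).2, ?_⟩
    simp

namespace Fr

variable {A}

theorem ext_part {Z P : Set M} (hZ : A.IsB Z) (hP : P ⊆ Z) {φ : M → M} (hi : InjOn φ P)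
    (hm : φ '' P ⊆ Z) (hc : Cardinal.mk (Z \ P : Set M) = Cardinal.mk (Z \ φ '' P : Set M)) :
    ∃ g : Γ, ∀ x ∈ P, g • x = φ x := by
  classical
  obtain ⟨k, hk⟩ := bijOn_of_card hc
  have : BijOn (fun x => if x ∈ P then φ x else k x) Z Z := by
    refine ⟨fun x hx => ?_, fun x hx y hy e => ?_, fun y hy => ?_⟩
    · by_cases c : x ∈ P
      · simp only [c, if_true]; exact hm (mem_image_of_mem _ c)
      · simp only [c, if_false]; exact (hk.1 ⟨hx, c⟩).1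
    · by_cases c : x ∈ P <;> by_cases d : y ∈ P <;> simp only [c, d, if_true, if_false] at e
      · exact hi c d e
      · exact absurd (e ▸ mem_image_of_mem φ c) (hk.1 ⟨hy, d⟩).2
      · exact absurd (e ▸ mem_image_of_mem φ d) (hk.1 ⟨hx, c⟩).2
      · exact hk.2.1 ⟨hx, c⟩ ⟨hy, d⟩ e
    · by_cases c : y ∈ φ '' P
      · obtain ⟨x, hx, rfl⟩ := c
        exact ⟨x, hP hx, by simp [hx]⟩
      · obtain ⟨x, hx, rfl⟩ := hk.2.2 ⟨hy, c⟩
        exact ⟨x, hx.1, by simp [hx.2]⟩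
  obtain ⟨g, hg⟩ := A.ext hZ hZ this
  exact ⟨g, fun x hx => by rw [hg x (hP hx)]; simp [hx]⟩

end Fr

theorem label {Φ : Type} [Group Φ] {N E E' : Set M} (hE : E ⊆ E') {z : Γ} {τ : Φ} {h : M → Φ}
    (h1 : ∀ x ∈ N, z • x ∈ E ∧ h (z • x) = τ * h x) (h2 : ∀ c ∈ E' \ N, z • c ∉ E') :
    ∃ h' : M → Φ, (∀ x ∈ E', h' x = h x) ∧ ∀ x ∈ E', h' (z • x) = τ * h' x := by
  classical
  have a : ∀ x ∈ E', (if z⁻¹ • x ∈ E' \ N then τ * h (z⁻¹ • x) else h x) = h x := by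
    intro x hx
    rw [if_neg]
    intro c
    exact h2 _ c (by simpa using hx)
  refine ⟨fun x => if z⁻¹ • x ∈ E' \ N then τ * h (z⁻¹ • x) else h x, a, fun x hx => ?_⟩
  simp only
  rw [a x hx]
  by_cases c : x ∈ N
  · rw [a _ (hE (h1 x c).1), (h1 x c).2]
  · rw [if_pos (by simpa using ⟨hx, c⟩)]; simp

/-- one generator of the two partial actions -/
structure Link {Φ : Type} [Group Φ] (E F N O : Set M) (v p q : Γ) (τ : Φ) (he hf : M → Φ) :
    Prop where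
  sE : N ⊆ E
  sF : O ⊆ F
  aE : ∀ x ∈ N, v • x ∈ E ∧ he (v • x) = τ * he x
  aF : ∀ x ∈ O, (q * v * p) • x ∈ F ∧ hf ((q * v * p) • x) = τ * hf x
  c1 : N ⊆ A.cl (p • O)
  c2 : p • O ⊆ A.cl N

variable {A}

theorem Link.symm {Φ : Type} [Group Φ] {E F N O : Set M} {v p q : Γ} {τ : Φ} {he hf : M → Φ}
    (h : Link A E F N O v p q τ he hf) :
    Link A E F (v • N) ((q * v * p) • O) v⁻¹ q⁻¹ p⁻¹ τ⁻¹ he hf := by
  have e : q⁻¹ • ((q * v * p) • O) = v • (p • O) := by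
    rw [smul_smul, smul_smul]; congr 1; group
  refine ⟨?_, ?_, ?_, ?_, ?_, ?_⟩
  · rintro _ ⟨x, hx, rfl⟩; exact (h.aE x hx).1
  · rintro _ ⟨x, hx, rfl⟩; exact (h.aF x hx).1
  · rintro _ ⟨x, hx, rfl⟩
    simp only [inv_smul_smul]
    exact ⟨h.sE hx, by rw [(h.aE x hx).2]; simp⟩
  · rintro _ ⟨x, hx, rfl⟩
    have : (p⁻¹ * v⁻¹ * q⁻¹) • (q * v * p) • x = x := by
      rw [smul_smul, show p⁻¹ * v⁻¹ * q⁻¹ * (q * v * p) = 1 by group, one_smul]
    simp only [this]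
    exact ⟨h.sF hx, by rw [(h.aF x hx).2]; simp⟩
  · rw [e]; exact Fr.smul_cl v h.c1
  · rw [e]; exact Fr.smul_cl v h.c2

theorem Link.mono {Φ : Type} [Group Φ] {E F N O E' F' : Set M} {v p q : Γ} {τ : Φ}
    {he hf he' hf' : M → Φ} (h : Link A E F N O v p q τ he hf) (hE : E ⊆ E') (hF : F ⊆ F')
    (h1 : ∀ x ∈ E, he' x = he x) (h2 : ∀ x ∈ F, hf' x = hf x) :
    Link A E' F' N O v p q τ he' hf' := by
  refine ⟨h.sE.trans hE, h.sF.trans hF, fun x hx => ⟨hE (h.aE x hx).1, ?_⟩,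
    fun x hx => ⟨hF (h.aF x hx).1, ?_⟩, h.c1, h.c2⟩
  · rw [h1 _ (h.aE x hx).1, h1 _ (h.sE hx), (h.aE x hx).2]
  · rw [h2 _ (h.aF x hx).1, h2 _ (h.sF hx), (h.aF x hx).2]

variable (A) in
/-- finite type over `B0` inside `X1` -/
def FT (B0 X1 S : Set M) : Prop := ∃ T ⊆ X1, T.Finite ∧ S ⊆ A.cl (B0 ∪ T)

variable (A) in
def Pres (r : Γ) (S : Set M) : Prop := r • S ⊆ A.cl S

theorem FT.union {B0 X1 S S' : Set M} (h : FT A B0 X1 S) (h' : FT A B0 X1 S') :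
    FT A B0 X1 (S ∪ S') := by
  obtain ⟨T, a, b, c⟩ := h
  obtain ⟨T', a', b', c'⟩ := h'
  exact ⟨T ∪ T', union_subset a a', b.union b', union_subset
    (c.trans (A.mono (union_subset_union_right _ subset_union_left)))
    (c'.trans (A.mono (union_subset_union_right _ subset_union_right)))⟩

theorem FT.of_cl {B0 X1 S S' : Set M} (h : FT A B0 X1 S) (h' : S' ⊆ A.cl S) : FT A B0 X1 S' := by
  obtain ⟨T, a, b, c⟩ := h
  exact ⟨T, a, b, h'.trans (A.le c)⟩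

theorem FT.of_fin {B0 X1 S : Set M} (h : S.Finite) (h' : S ⊆ A.cl X1) : FT A B0 X1 S := by
  obtain ⟨T, a, b, c⟩ := Fr.fin_set h h'
  exact ⟨T, a, b, c.trans (A.mono subset_union_right)⟩

theorem FT.smul {B0 X1 S : Set M} (h : FT A B0 X1 S) {r : Γ} (h0 : Pres A r B0)
    (h1 : Pres A r X1) : FT A B0 X1 (r • S) := by
  obtain ⟨T, a, b, c⟩ := h
  have k1 : FT A B0 X1 (r • T) := FT.of_fin b.smul_set ((smul_set_mono a).trans h1)
  have k2 : FT A B0 X1 (r • B0) := ⟨∅, empty_subset _, finite_empty, by rw [union_empty]; exact h0⟩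
  refine (k2.union k1).of_cl ?_
  rw [← smul_set_union]
  exact Fr.smul_cl r c

theorem fin_diff {Z E' N B0 T : Set M} (hZ : A.IsB Z) (hE : E' ⊆ Z) (hN : N ⊆ E')
    (h0 : B0 ⊆ A.cl N) (hT : T.Finite) (h1 : T ⊆ A.cl E') (h2 : E' ⊆ A.cl (B0 ∪ T)) :
    (E' \ N).Finite := by
  obtain ⟨P, a, b, c⟩ := Fr.fin_set hT h1
  refine b.subset fun x hx => ?_
  have : x ∈ A.cl (N ∪ P) := A.le (union_subset (h0.trans (A.mono subset_union_left))
    (c.trans (A.mono subset_union_right))) (h2 hx.1)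
  exact (Fr.mem_of_cl hZ ((union_subset hN a).trans hE) (hE hx.1) this).resolve_left hx.2

theorem core {Φ : Type} [Group Φ] {X B0 X1 : Set M} (hX : A.IsB X) (h01 : B0 ⊆ X1) (h1 : X1 ⊆ X)
    (hinf : (X1 \ B0).Infinite) {E F N O : Set M} {v p q : Γ} {τ : Φ} {he hf : M → Φ}
    (p0 : Pres A p B0) (p1 : Pres A p X1) (p0' : Pres A p⁻¹ B0) (p1' : Pres A p⁻¹ X1)
    (q0 : Pres A q B0) (q1 : Pres A q X1) (q0' : Pres A q⁻¹ B0) (q1' : Pres A q⁻¹ X1)
    (L : Link A E F N O v p q τ he hf) (pE : A.Prim E) (pF : A.Prim F)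
    (fE : FT A B0 X1 E) (fF : FT A B0 X1 F) (b1 : B0 ⊆ A.cl N) (b2 : B0 ⊆ A.cl (v • N))
    {x0 : M} (hx0 : x0 ∈ X1) :
    ∃ (E2 F2 N' O' : Set M) (v' : Γ) (he' hf' : M → Φ), Link A E2 F2 N' O' v' p q τ he' hf' ∧
      A.Prim E2 ∧ A.Prim F2 ∧ FT A B0 X1 E2 ∧ FT A B0 X1 F2 ∧ E ⊆ N' ∧ F ⊆ O' ∧
      (∀ x ∈ N, v' • x = v • x) ∧ (∀ x ∈ E, he' x = he x) ∧ (∀ x ∈ F, hf' x = hf x) ∧
      x0 ∈ A.cl E2 := by
  classical
  obtain ⟨T, T1, T2, T3⟩ := (fE.union (fF.smul p0 p1)).union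
    (FT.of_fin (finite_singleton x0) (singleton_subset_iff.2 (A.sub _ hx0)))
  have hB : B0 ∪ T ⊆ X := (union_subset h01 T1).trans h1
  obtain ⟨E', e1, e2, e3, e4⟩ := Fr.kur' hX pE hB
    ((subset_union_left.trans subset_union_left).trans T3)
  obtain ⟨G', g1, g2, g3, g4⟩ := Fr.kur' hX (pF.smul p) hB
    ((subset_union_right.trans subset_union_left).trans T3)
  have fE' : FT A B0 X1 E' := ⟨T, T1, T2, e2⟩
  have fG' : FT A B0 X1 G' := ⟨T, T1, T2, g2⟩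
  have pG' : A.Prim G' := ⟨_, g4, subset_union_left⟩
  have fF' : FT A B0 X1 (p⁻¹ • G') := fG'.smul p0' p1'
  have hFF' : F ⊆ p⁻¹ • G' := fun x hx => by
    rw [mem_inv_smul_set_iff]; exact g1 (smul_mem_smul_set hx)
  obtain ⟨T', T1', T2', T3'⟩ := fF'.smul q0' q1'
  have hB' : B0 ∪ (T' ∪ T) ⊆ X := (union_subset h01 (union_subset T1' T1)).trans h1
  have hvN : v • N ⊆ E' := by rintro _ ⟨x, hx, rfl⟩; exact e1 (L.aE x hx).1
  have hC : (E' \ N).Finite := fin_diff e4 subset_union_left (L.sE.trans e1) b1 T2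
    (subset_union_right.trans e3) e2
  have hC' : (E' \ v • N).Finite := fin_diff e4 subset_union_left hvN b2 T2
    (subset_union_right.trans e3) e2
  have hinf' : (X1 \ (B0 ∪ (T' ∪ T))).Infinite := by
    rw [← sdiff_sdiff]; exact hinf.sdiff (T2'.union T2)
  have : Nonempty M := ⟨x0⟩
  obtain ⟨j, j1, j2⟩ := hC.exists_injOn_of_encard_le (t := X1 \ (B0 ∪ (T' ∪ T)))
    (by rw [hinf'.encard_eq]; exact le_top)
  have jX : ∀ c ∈ E' \ N, j c ∈ X \ (B0 ∪ T) := fun c hc =>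
    ⟨h1 (j1 hc).1, fun a => (j1 hc).2 (union_subset_union_right _ subset_union_right a)⟩
  have jE : ∀ c ∈ E' \ N, j c ∉ E' := fun c hc a =>
    (jX c hc).2 (Fr.mem_of_cl hX hB (jX c hc).1 (e2 a))
  have jB : ∀ c ∈ E' \ N, j c ∉ A.cl (B0 ∪ (T' ∪ T)) := fun c hc a =>
    (j1 hc).2 (Fr.mem_of_cl hX hB' (jX c hc).1 a)
  have hD : (X \ (B0 ∪ T)).Infinite := hinf'.mono
    (sdiff_subset_sdiff h1 (union_subset_union_right _ subset_union_right))
  have hDE : ∀ x ∈ X \ (B0 ∪ T), x ∉ E' := fun x hx a =>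
    hx.2 (Fr.mem_of_cl hX hB hx.1 (e2 a))
  have him : (fun x => if x ∈ N then v • x else j x) '' E' = v • N ∪ j '' (E' \ N) := by
    ext y
    constructor
    · rintro ⟨x, hx, rfl⟩
      by_cases c : x ∈ N
      · left; simp only [c, if_true]; exact smul_mem_smul_set c
      · right; simp only [c, if_false]; exact mem_image_of_mem _ ⟨hx, c⟩
    · rintro (⟨x, hx, rfl⟩ | ⟨x, hx, rfl⟩)
      · exact ⟨x, e1 (L.sE hx), by simp [hx]⟩
      · exact ⟨x, hx.1, by simp [hx.2]⟩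
  obtain ⟨v', hv'⟩ := Fr.ext_part (φ := fun x => if x ∈ N then v • x else j x) e4
    subset_union_left (by
      intro x hx y hy e
      by_cases c : x ∈ N <;> by_cases d : y ∈ N <;> simp only [c, d, if_true, if_false] at e
      · exact smul_left_cancel v e
      · exact absurd (e ▸ hvN (smul_mem_smul_set c)) (jE y ⟨hy, d⟩)
      · exact absurd (e ▸ hvN (smul_mem_smul_set d)) (jE x ⟨hx, c⟩)
      · exact j2 ⟨hx, c⟩ ⟨hy, d⟩ e)
    (by
      rw [him]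
      refine union_subset (hvN.trans subset_union_left) ?_
      rintro _ ⟨c, hc, rfl⟩
      exact Or.inr (jX c hc))
    (by
      rw [him]
      refine (card_eq_of_fin hD ?_ ?_).trans (card_eq_of_fin hD ?_ ?_).symm
      · refine finite_empty.subset fun x hx => hx.2 ⟨Or.inr hx.1, hDE x hx.1⟩
      · refine finite_empty.subset fun x hx => ?_
        exact hx.1.1.elim hx.1.2 hx.2
      · refine (hC.image j).subset fun x hx => ?_
        by_contra c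
        refine hx.2 ⟨Or.inr hx.1, ?_⟩
        rintro (a | a)
        · exact hDE x hx.1 (hvN a)
        · exact c a
      · refine hC'.subset fun x hx => ?_
        exact ⟨hx.1.1.resolve_right hx.2, fun a => hx.1.2 (Or.inl a)⟩)
  have vN : ∀ x ∈ N, v' • x = v • x := fun x hx => by
    rw [hv' x (e1 (L.sE hx))]; simp [hx]
  have vC : ∀ x ∈ E' \ N, v' • x = j x := fun x hx => by
    rw [hv' x hx.1]; simp [hx.2]
  have vO : ∀ x ∈ O, (q * v' * p) • x = (q * v * p) • x := fun x hx => by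
    simp only [mul_smul]
    rw [A.eqOn vN _ (L.c2 (smul_mem_smul_set hx))]
  have vE' : v' • E' ⊆ v • N ∪ j '' (E' \ N) := by
    rintro _ ⟨x, hx, rfl⟩
    rw [← him]
    exact ⟨x, hx, (hv' x hx).symm⟩
  -- the second basis
  obtain ⟨S', s1, -, -, s4⟩ := Fr.kur' hX ((pG'.smul p⁻¹).smul q⁻¹) hB'
    (T3'.trans (A.mono (union_subset_union_right _ subset_union_left)))
  have z2 := A.map q s4
  have zF : p⁻¹ • G' ⊆ q • (S' ∪ X \ (B0 ∪ (T' ∪ T))) := fun x hx => by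
    rw [mem_smul_set_iff_inv_smul_mem]; exact Or.inl (s1 (smul_mem_smul_set hx))
  have hBq : (q * v * p) • O ∪ q • j '' (E' \ N) ⊆ q • (S' ∪ X \ (B0 ∪ (T' ∪ T))) := by
    refine union_subset ?_ (smul_set_mono ?_)
    · rintro _ ⟨x, hx, rfl⟩; exact zF (hFF' (L.aF x hx).1)
    · rintro _ ⟨c, hc, rfl⟩; exact Or.inr ⟨h1 (j1 hc).1, (j1 hc).2⟩
  have hS0 : v' • G' ⊆ A.cl (v • N ∪ j '' (E' \ N)) :=
    (Fr.smul_cl v' (g2.trans (A.le e3))).trans (A.mono vE')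
  have hS : (q * v') • G' ⊆ A.cl ((q * v * p) • O ∪ q • j '' (E' \ N)) := by
    rw [mul_smul, mul_assoc, mul_smul, ← smul_set_union]
    refine Fr.smul_cl q (hS0.trans (A.le (union_subset ?_ ?_)))
    · rw [mul_smul]
      exact (Fr.smul_cl v L.c1).trans (A.mono subset_union_left)
    · exact subset_union_right.trans (A.sub _)
  obtain ⟨S2, r1, -, -, r4⟩ := Fr.kur' z2 (pG'.smul (q * v')) hBq hS
  have key : ∀ a ∈ p⁻¹ • G', a ∈ (q * v * p) • O ∪ q • j '' (E' \ N) →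
      ∃ n ∈ O, a = (q * v' * p) • n := by
    rintro a ha (⟨n, hn, rfl⟩ | ⟨_, ⟨c, hc, rfl⟩, rfl⟩)
    · exact ⟨n, hn, (vO n hn).symm⟩
    · exfalso
      refine jB c hc (A.mono (union_subset_union_right _ subset_union_left) (T3' ?_))
      simpa using smul_mem_smul_set (a := q⁻¹) ha
  have inS : ∀ c ∈ p⁻¹ • G', (q * v' * p) • c ∈ (q * v') • G' := fun c hc => by
    rw [mul_smul (q * v') p c]; exact smul_mem_smul_set (mem_inv_smul_set_iff.1 hc)
  have dis : ∀ c ∈ p⁻¹ • G' \ O, (q * v' * p) • c ∉ p⁻¹ • G' := by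
    intro c hc a
    obtain ⟨n, hn, e⟩ := key _ a (Fr.mem_of_cl z2 hBq (zF a) (hS (inS c hc.1)))
    exact hc.2 (smul_left_cancel _ e ▸ hn)
  obtain ⟨he', l1, l2⟩ := label (N := N) (z := v') (τ := τ) (h := he) e1
    (fun x hx => by rw [vN x hx]; exact L.aE x hx) (fun c hc => by rw [vC c hc]; exact jE c hc)
  obtain ⟨hf', m1, m2⟩ := label (N := O) (z := q * v' * p) (τ := τ) (h := hf) hFF'
    (fun x hx => by rw [vO x hx]; exact L.aF x hx) dis
  have fW : FT A B0 X1 (j '' (E' \ N)) := FT.of_fin (hC.image j) (by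
    rintro _ ⟨c, hc, rfl⟩; exact A.sub _ (j1 hc).1)
  refine ⟨E' ∪ j '' (E' \ N), p⁻¹ • G' ∪ (q * v') • G', E', p⁻¹ • G', v', he', hf',
    ⟨subset_union_left, subset_union_left, fun x hx => ⟨?_, l2 x hx⟩,
      fun x hx => ⟨Or.inr (inS x hx), m2 x hx⟩, ?_, ?_⟩, ⟨_, e4, ?_⟩, ⟨_, r4, ?_⟩, fE'.union fW,
      fF'.union ?_, e1, hFF', vN, fun x hx => l1 x (e1 hx), fun x hx => m1 x (hFF' hx), ?_⟩
  · exact union_subset_union_left _ hvN (vE' (smul_mem_smul_set hx))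
  · rw [smul_inv_smul]; exact e2.trans (A.le g3)
  · rw [smul_inv_smul]; exact g2.trans (A.le e3)
  · refine union_subset subset_union_left ?_
    rintro _ ⟨c, hc, rfl⟩
    exact Or.inr (jX c hc)
  · refine union_subset (fun a ha => ?_) (r1.trans subset_union_left)
    by_cases c : a ∈ (q * v * p) • O ∪ q • j '' (E' \ N)
    · obtain ⟨n, hn, rfl⟩ := key a ha c
      exact Or.inl (r1 (inS n (hFF' (L.sF hn))))
    · exact Or.inr ⟨zF ha, c⟩
  · rw [mul_smul]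
    exact ((fE'.union fW).of_cl (hS0.trans (A.mono (union_subset_union_left _ hvN)))).smul q0 q1
  · exact A.mono subset_union_left (A.le e3 (T3 (Or.inr rfl)))

end Pool.Agent.H4Fr
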