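import Pool.Agent.Lib.helper4.FrA

/-! The back-and-forth construction of two linked free actions on bases. -/

namespace Pool.Agent.H4Fr

open Set
open scoped Pointwise

variable {Γ M : Type} [Group Γ] [MulAction Γ M] {Φ ι : Type} [Group Φ]

structure St (A : Fr Γ M) (t : ι → Φ) (g : ι → Γ) where
  E : Set M
  F : Set M
  Ne : ι → Set M
  Nf : ι → Set M
  y : ι → Γ
  he : M → Φ
  hf : M → Φ
  prE : A.Prim E
  prF : A.Prim F
  link : ∀ n, Link A E F (Ne n) (Nf n) (y n) 1 (g n) (t n) he hf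

variable {A : Fr Γ M} {t : ι → Φ} {g : ι → Γ}

instance : Preorder (St A t g) where
  le s u := s.E ⊆ u.E ∧ s.F ⊆ u.F ∧
    (∀ n, s.Ne n ⊆ u.Ne n ∧ s.Nf n ⊆ u.Nf n ∧ ∀ x ∈ s.Ne n, u.y n • x = s.y n • x) ∧
    (∀ x ∈ s.E, u.he x = s.he x) ∧ ∀ x ∈ s.F, u.hf x = s.hf x
  le_refl s := ⟨subset_rfl, subset_rfl, fun _ => ⟨subset_rfl, subset_rfl, fun _ _ => rfl⟩,
    fun _ _ => rfl, fun _ _ => rfl⟩
  le_trans _ _ _ h k := ⟨h.1.trans k.1, h.2.1.trans k.2.1, fun n =>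
    ⟨(h.2.2.1 n).1.trans (k.2.2.1 n).1, (h.2.2.1 n).2.1.trans (k.2.2.1 n).2.1, fun x hx =>
      ((k.2.2.1 n).2.2 x ((h.2.2.1 n).1 hx)).trans ((h.2.2.1 n).2.2 x hx)⟩,
    fun x hx => (k.2.2.2.1 x (h.1 hx)).trans (h.2.2.2.1 x hx),
    fun x hx => (k.2.2.2.2 x (h.2.1 hx)).trans (h.2.2.2.2 x hx)⟩

theorem St.y_eq {s u : St A t g} (h : s ≤ u) (n : ι) {x : M} (hx : x ∈ s.Nf n) :
    (g n * u.y n * 1) • x = (g n * s.y n * 1) • x := by
  simp only [mul_smul]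
  rw [A.eqOn (h.2.2.1 n).2.2 _ ((s.link n).c2 (smul_mem_smul_set hx))]

theorem St.mE {s u : St A t g} (h : s ≤ u) (n : ι) : s.y n • s.Ne n ⊆ u.y n • u.Ne n := by
  rintro _ ⟨x, hx, rfl⟩
  exact ⟨x, (h.2.2.1 n).1 hx, (h.2.2.1 n).2.2 x hx⟩

theorem St.mF {s u : St A t g} (h : s ≤ u) (n : ι) :
    (g n * s.y n * 1) • s.Nf n ⊆ (g n * u.y n * 1) • u.Nf n := by
  rintro _ ⟨x, hx, rfl⟩
  exact ⟨x, (h.2.2.1 n).2.1 hx, St.y_eq h n hx⟩

/-- `u` defines generator `n` and its inverse on everything in `s` -/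
def Sat (s u : St A t g) (n : ι) : Prop :=
  s.E ⊆ u.Ne n ∧ s.F ⊆ u.Nf n ∧ s.E ⊆ u.y n • u.Ne n ∧ s.F ⊆ (g n * u.y n * 1) • u.Nf n

theorem St.upd (s : St A t g) (n : ι) {E2 F2 N' O' : Set M} {v' : Γ} {he' hf' : M → Φ}
    (L : Link A E2 F2 N' O' v' 1 (g n) (t n) he' hf') (p1 : A.Prim E2) (p2 : A.Prim F2)
    (hE : s.E ⊆ E2) (hF : s.F ⊆ F2) (hN : s.Ne n ⊆ N') (hO : s.Nf n ⊆ O')
    (hv : ∀ x ∈ s.Ne n, v' • x = s.y n • x) (h1 : ∀ x ∈ s.E, he' x = s.he x)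
    (h2 : ∀ x ∈ s.F, hf' x = s.hf x) :
    ∃ u : St A t g, s ≤ u ∧ u.E = E2 ∧ u.F = F2 ∧ u.Ne n = N' ∧ u.Nf n = O' ∧ u.y n = v' := by
  classical
  refine ⟨⟨E2, F2, Function.update s.Ne n N', Function.update s.Nf n O',
    Function.update s.y n v', he', hf', p1, p2, fun m => ?_⟩, ⟨hE, hF, fun m => ?_, h1, h2⟩,
    rfl, rfl, by simp, by simp, by simp⟩
  · by_cases c : m = n
    · subst c; simpa only [Function.update_self] using L
    · simp only [Function.update_of_ne c]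
      exact (s.link m).mono hE hF h1 h2
  · by_cases c : m = n
    · subst c; simp only [Function.update_self]; exact ⟨hN, hO, hv⟩
    · simp only [Function.update_of_ne c]
      exact ⟨subset_rfl, subset_rfl, fun _ _ => trivial⟩

theorem pres_one (S : Set M) : Pres A (1 : Γ) S := by
  unfold Pres; rw [one_smul]; exact A.sub _

theorem St.step {X B0 X1 : Set M} (hX : A.IsB X) (h01 : B0 ⊆ X1) (h1 : X1 ⊆ X)
    (hinf : (X1 \ B0).Infinite) (n : ι)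
    (q0 : Pres A (g n) B0) (q1 : Pres A (g n) X1) (q0' : Pres A (g n)⁻¹ B0)
    (q1' : Pres A (g n)⁻¹ X1) (s : St A t g) (fE : FT A B0 X1 s.E) (fF : FT A B0 X1 s.F)
    (b1 : B0 ⊆ A.cl (s.Ne n)) (b2 : B0 ⊆ A.cl (s.y n • s.Ne n)) {x0 : M} (hx0 : x0 ∈ X1) :
    ∃ u : St A t g, s ≤ u ∧ FT A B0 X1 u.E ∧ FT A B0 X1 u.F ∧ Sat s u n ∧ x0 ∈ A.cl u.E := by
  have o0 : Pres A (1 : Γ)⁻¹ B0 := by rw [inv_one]; exact pres_one _
  have o1 : Pres A (1 : Γ)⁻¹ X1 := by rw [inv_one]; exact pres_one _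
  obtain ⟨E2, F2, N', O', v', he', hf', L, a1, a2, a3, a4, a5, a6, a7, a8, a9, a10⟩ :=
    core hX h01 h1 hinf (pres_one _) (pres_one _) o0 o1 q0 q1 q0' q1' (s.link n) s.prE s.prF
      fE fF b1 b2 hx0
  obtain ⟨u, u1, u2, u3, u4, u5, u6⟩ := s.upd n L a1 a2 (a5.trans L.sE) (a6.trans L.sF)
    ((s.link n).sE.trans a5) ((s.link n).sF.trans a6) a7 a8 a9
  obtain ⟨E3, F3, N3, O3, w, he3, hf3, L3, c1, c2, c3, c4, c5, c6, c7, c8, c9, -⟩ :=
    core hX h01 h1 hinf q0' q1' (by rw [inv_inv]; exact q0) (by rw [inv_inv]; exact q1) o0 o1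
      (by rw [inv_inv]; exact pres_one _) (by rw [inv_inv]; exact pres_one _)
      (u.link n).symm u.prE u.prF (u2 ▸ a3) (u3 ▸ a4) (b2.trans (A.mono (St.mE u1 n)))
      (by rw [inv_smul_smul]; exact b1.trans (A.mono (u1.2.2.1 n).1)) hx0
  have L4 := L3.symm
  simp only [inv_inv] at L4
  have hw : ∀ x ∈ u.Ne n, w • u.y n • x = x := fun x hx => by
    rw [c7 _ (smul_mem_smul_set hx), inv_smul_smul]
  have hw' : ∀ x ∈ u.Nf n, w • u.y n • x = x := fun x hx => by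
    have := A.eqOn (g := w * u.y n) (h := 1) (S := u.Ne n)
      (fun z hz => by rw [mul_smul, hw z hz, one_smul]) x
      ((u.link n).c2 (by rw [one_smul]; exact hx))
    rwa [mul_smul, one_smul] at this
  obtain ⟨r, r1, r2, r3, r4, r5, r6⟩ := u.upd n L4 c1 c2 (c5.trans L3.sE) (c6.trans L3.sF)
    (fun x hx => ⟨u.y n • x, c5 ((u.link n).aE x hx).1, hw x hx⟩)
    (fun x hx => ⟨(g n * u.y n * 1) • x, c6 ((u.link n).aF x hx).1, by
      simp only [mul_smul, inv_one, one_smul, inv_smul_smul]; exact hw' x hx⟩)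
    (fun x hx => by rw [inv_smul_eq_iff, hw x hx]) c8 c9
  refine ⟨r, u1.trans r1, r2 ▸ c3, r3 ▸ c4, ⟨?_, ?_, ?_, ?_⟩, ?_⟩
  · exact (u4 ▸ a5).trans (r1.2.2.1 n).1
  · exact (u5 ▸ a6).trans (r1.2.2.1 n).2.1
  · rw [r4, r6, inv_smul_smul]; exact u1.1.trans c5
  · rw [r5, r6, smul_smul, show g n * w⁻¹ * 1 * (1⁻¹ * w * (g n)⁻¹) = 1 by group, one_smul]
    exact u1.2.1.trans c6
  · exact A.mono r1.1 (u2 ▸ a10)

theorem glue {κ β : Type} [Nonempty β] {D : κ → Set M} {f : κ → M → β}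
    (h : ∀ i j, ∀ x ∈ D i, x ∈ D j → f i x = f j x) :
    ∃ F : M → β, ∀ i, ∀ x ∈ D i, F x = f i x := by
  classical
  refine ⟨fun x => if c : ∃ i, x ∈ D i then f c.choose x else Classical.arbitrary β,
    fun i x hx => ?_⟩
  have c : ∃ i, x ∈ D i := ⟨i, hx⟩
  simp only [dif_pos c]
  exact h _ _ x c.choose_spec hx

theorem prim_union {κ : Type} [Nonempty κ] {X B : Set M} (hX : A.IsB X) (hB : B ⊆ X)
    {D : κ → Set M} (hd : Directed (· ⊆ ·) D) (hp : ∀ i, A.Prim (D i)) (h1 : ∀ i, D i ⊆ A.cl B)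
    (h2 : B ⊆ A.cl (⋃ i, D i)) : A.IsB ((⋃ i, D i) ∪ (X \ B)) := by
  refine A.lim (fun T hT hf => ?_) fun x => ?_
  · obtain ⟨i, hi⟩ := hd.exists_mem_subset_of_finset_subset_biUnion
      (s := (hf.inter_of_left (⋃ i, D i)).toFinset) (by simp)
    obtain ⟨S', a1, -, -, a4⟩ := Fr.kur' hX (hp i) hB (h1 i)
    refine ⟨_, a4, fun x hx => ?_⟩
    rcases hT hx with c | c
    · exact Or.inl (a1 (hi (by simpa using ⟨hx, by simpa using c⟩)))
    · exact Or.inr c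
  · refine A.le (fun z hz => ?_) (A.span hX x)
    by_cases c : z ∈ B
    · exact A.mono subset_union_left (h2 c)
    · exact A.sub _ (Or.inr ⟨hz, c⟩)

theorem limit [Nonempty ι] {κ : Type} [Nonempty κ] {X B : Set M} (hX : A.IsB X) (hB : B ⊆ X)
    (s : κ → St A t g) (hd : Directed (· ≤ ·) s) (hE : ∀ i, (s i).E ⊆ A.cl B)
    (hB' : B ⊆ A.cl (⋃ i, (s i).E)) (hs : ∀ i n, ∃ j, Sat (s i) (s j) n) :
    ∃ u : St A t g, (∀ n, Sat u u n) ∧ (∀ i, s i ≤ u) ∧ u.E = ⋃ i, (s i).E := by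
  classical
  obtain ⟨n0⟩ := ‹Nonempty ι›
  have EF : (⋃ i, (s i).E) ⊆ A.cl (⋃ i, (s i).F) := by
    refine iUnion_subset fun i => ?_
    obtain ⟨j, hj⟩ := hs i n0
    have := ((s j).link n0).c1
    rw [one_smul] at this
    exact hj.1.trans (this.trans (A.mono (((s j).link n0).sF.trans (subset_iUnion (fun i => (s i).F) j))))
  have FE : (⋃ i, (s i).F) ⊆ A.cl (⋃ i, (s i).E) := by
    refine iUnion_subset fun i => ?_
    obtain ⟨j, hj⟩ := hs i n0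
    have := ((s j).link n0).c2
    rw [one_smul] at this
    exact hj.2.1.trans (this.trans (A.mono (((s j).link n0).sE.trans (subset_iUnion (fun i => (s i).E) j))))
  have bE := prim_union hX hB (D := fun i => (s i).E)
    (fun i j => (hd i j).imp fun _ h => ⟨h.1.1, h.2.1⟩) (fun i => (s i).prE) hE hB'
  have bF := prim_union hX hB (D := fun i => (s i).F)
    (fun i j => (hd i j).imp fun _ h => ⟨h.1.2.1, h.2.2.1⟩) (fun i => (s i).prF)
    (fun i => ((subset_iUnion (fun i => (s i).F) i).trans FE).trans (A.le (iUnion_subset hE)))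
    (hB'.trans (A.le EF))
  obtain ⟨he, hhe⟩ := glue (D := fun i => (s i).E) (f := fun i => (s i).he) (fun i j x a b => by
    obtain ⟨k, c, d⟩ := hd i j
    rw [← c.2.2.2.1 x a, ← d.2.2.2.1 x b])
  obtain ⟨hf, hhf⟩ := glue (D := fun i => (s i).F) (f := fun i => (s i).hf) (fun i j x a b => by
    obtain ⟨k, c, d⟩ := hd i j
    rw [← c.2.2.2.2 x a, ← d.2.2.2.2 x b])
  have cov : ∀ n, ∀ x ∈ ⋃ i, (s i).E, ∃ j, x ∈ (s j).Ne n := fun n x hx => by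
    obtain ⟨i, hi⟩ := mem_iUnion.1 hx
    obtain ⟨j, hj⟩ := hs i n
    exact ⟨j, hj.1 hi⟩
  have covF : ∀ n, ∀ x ∈ ⋃ i, (s i).F, ∃ j, x ∈ (s j).Nf n := fun n x hx => by
    obtain ⟨i, hi⟩ := mem_iUnion.1 hx
    obtain ⟨j, hj⟩ := hs i n
    exact ⟨j, hj.2.1 hi⟩
  have hy : ∀ n, ∃ Y : Γ, ∀ i, ∀ x ∈ (s i).Ne n, Y • x = (s i).y n • x := by
    intro n
    have : Nonempty (M → M) := ⟨id⟩
    obtain ⟨ψ, hψ⟩ := glue (D := fun i => (s i).Ne n) (f := fun i x _ => (s i).y n • x)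
      (β := M → M) (fun i j x a b => by
        obtain ⟨k, c, d⟩ := hd i j
        funext _
        rw [← (c.2.2.1 n).2.2 x a, ← (d.2.2.1 n).2.2 x b])
    have hψ' : ∀ i, ∀ x ∈ (s i).Ne n, ψ x x = (s i).y n • x := fun i x hx => by rw [hψ i x hx]
    have him : (fun x => ψ x x) '' (⋃ i, (s i).E) = ⋃ i, (s i).E := by
      apply Subset.antisymm
      · rintro _ ⟨x, hx, rfl⟩
        obtain ⟨j, hj⟩ := cov n x hx
        simp only [hψ' j x hj]
        exact mem_iUnion.2 ⟨j, (((s j).link n).aE x hj).1⟩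
      · intro z hz
        obtain ⟨i, hi⟩ := mem_iUnion.1 hz
        obtain ⟨j, hj⟩ := hs i n
        obtain ⟨x, hx, e⟩ := hj.2.2.1 hi
        exact ⟨x, mem_iUnion.2 ⟨j, ((s j).link n).sE hx⟩, (hψ' j x hx).trans e⟩
    obtain ⟨Y, hY⟩ := Fr.ext_part (φ := fun x => ψ x x) bE subset_union_left (by
      intro x hx z hz e
      obtain ⟨i, hi⟩ := cov n x hx
      obtain ⟨j, hj⟩ := cov n z hz
      obtain ⟨k, c, d⟩ := hd i j
      simp only [hψ' k x ((c.2.2.1 n).1 hi), hψ' k z ((d.2.2.1 n).1 hj)] at e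
      exact smul_left_cancel _ e) (by rw [him]; exact subset_union_left) (by rw [him])
    exact ⟨Y, fun i x hx => by
      rw [hY x (mem_iUnion.2 ⟨i, ((s i).link n).sE hx⟩), hψ' i x hx]⟩
  choose Y hY using hy
  have hYF : ∀ n i, ∀ x ∈ (s i).Nf n, (g n * Y n * 1) • x = (g n * (s i).y n * 1) • x := by
    intro n i x hx
    simp only [mul_smul]
    rw [A.eqOn (hY n i) _ (((s i).link n).c2 (smul_mem_smul_set hx))]
  refine ⟨⟨⋃ i, (s i).E, ⋃ i, (s i).F, fun _ => ⋃ i, (s i).E, fun _ => ⋃ i, (s i).F, Y, he, hf,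
    ⟨_, bE, subset_union_left⟩, ⟨_, bF, subset_union_left⟩, fun n =>
      ⟨subset_rfl, subset_rfl, fun x hx => ?_, fun x hx => ?_, by rw [one_smul]; exact EF,
        by rw [one_smul]; exact FE⟩⟩,
    fun n => ⟨subset_rfl, subset_rfl, fun z hz => ?_, fun z hz => ?_⟩,
    fun i => ⟨subset_iUnion (fun i => (s i).E) i, subset_iUnion (fun i => (s i).F) i,
      fun n => ⟨((s i).link n).sE.trans (subset_iUnion (fun i => (s i).E) i),
        ((s i).link n).sF.trans (subset_iUnion (fun i => (s i).F) i), hY n i⟩, hhe i, hhf i⟩, rfl⟩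
  · obtain ⟨j, hj⟩ := cov n x hx
    have a := ((s j).link n).aE x hj
    rw [hY n j x hj, hhe j _ a.1, hhe j _ (((s j).link n).sE hj)]
    exact ⟨mem_iUnion.2 ⟨j, a.1⟩, a.2⟩
  · obtain ⟨j, hj⟩ := covF n x hx
    have a := ((s j).link n).aF x hj
    rw [hYF n j x hj, hhf j _ a.1, hhf j _ (((s j).link n).sF hj)]
    exact ⟨mem_iUnion.2 ⟨j, a.1⟩, a.2⟩
  · obtain ⟨i, hi⟩ := mem_iUnion.1 hz
    obtain ⟨j, hj⟩ := hs i n
    obtain ⟨x, hx, e⟩ := hj.2.2.1 hi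
    exact ⟨x, mem_iUnion.2 ⟨j, ((s j).link n).sE hx⟩, (hY n j x hx).trans e⟩
  · obtain ⟨i, hi⟩ := mem_iUnion.1 hz
    obtain ⟨j, hj⟩ := hs i n
    obtain ⟨x, hx, e⟩ := hj.2.2.2 hi
    exact ⟨x, mem_iUnion.2 ⟨j, ((s j).link n).sF hx⟩, (hYF n j x hx).trans e⟩

theorem Sat.mono {s s' u u' : St A t g} {n : ι} (h : Sat s u n) (a : s' ≤ s) (b : u ≤ u') :
    Sat s' u' n :=
  ⟨a.1.trans (h.1.trans (b.2.2.1 n).1), a.2.1.trans (h.2.1.trans (b.2.2.1 n).2.1),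
    a.1.trans (h.2.2.1.trans (St.mE b n)), a.2.1.trans (h.2.2.2.trans (St.mF b n))⟩

theorem complete_cl {s : St A t g} {n : ι} (h : Sat s s n) :
    s.E ⊆ A.cl s.F ∧ s.F ⊆ A.cl s.E := by
  have a := (s.link n).c1
  have b := (s.link n).c2
  rw [one_smul] at a b
  exact ⟨h.1.trans (a.trans (A.mono (s.link n).sF)), h.2.1.trans (b.trans (A.mono (s.link n).sE))⟩

theorem complete_pres {s : St A t g} {n : ι} (h : Sat s s n) {B : Set M} (h1 : s.E ⊆ A.cl B)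
    (h2 : B ⊆ A.cl s.E) : Pres A (g n) B ∧ Pres A (g n)⁻¹ B := by
  have c := complete_cl h
  constructor
  · have a : g n • s.E ⊆ A.cl s.F := by
      refine (smul_set_mono h.2.2.1).trans ?_
      rw [smul_smul]
      refine (Fr.smul_cl _ (s.link n).c1).trans (A.mono ?_)
      rw [smul_smul]
      rintro _ ⟨x, hx, rfl⟩
      exact ((s.link n).aF x hx).1
    exact (Fr.smul_cl _ h2).trans (A.le (a.trans (A.le (c.2.trans (A.le h1)))))
  · have a : (g n)⁻¹ • s.F ⊆ A.cl s.E := by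
      refine (smul_set_mono h.2.2.2).trans ?_
      rw [mul_assoc, mul_smul, inv_smul_smul, mul_smul]
      refine (Fr.smul_cl _ (s.link n).c2).trans (A.mono ?_)
      rintro _ ⟨x, hx, rfl⟩
      exact ((s.link n).aE x hx).1
    exact (Fr.smul_cl _ (h2.trans (A.le c.1))).trans (A.le (a.trans (A.le h1)))

theorem stage [Nonempty ι] [Countable ι] {X B0 X1 : Set M} (hX : A.IsB X) (h01 : B0 ⊆ X1)
    (h1 : X1 ⊆ X) (hinf : (X1 \ B0).Infinite) (hc : (X1 \ B0).Countable)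
    (q1 : ∀ n, Pres A (g n) X1 ∧ Pres A (g n)⁻¹ X1) (s0 : St A t g) (h0 : ∀ n, Sat s0 s0 n)
    (e1 : s0.E ⊆ A.cl B0) (e2 : B0 ⊆ A.cl s0.E) :
    ∃ u : St A t g, (∀ n, Sat u u n) ∧ s0 ≤ u ∧ u.E ⊆ A.cl X1 ∧ X1 ⊆ A.cl u.E := by
  obtain ⟨n0⟩ := ‹Nonempty ι›
  have : Nonempty (X1 \ B0 : Set M) := hinf.nonempty.to_subtype
  have : Countable (X1 \ B0 : Set M) := hc.to_subtype
  obtain ⟨e, he⟩ := exists_surjective_nat (ι × (X1 \ B0 : Set M))
  let T := {s : St A t g // s0 ≤ s ∧ FT A B0 X1 s.E ∧ FT A B0 X1 s.F}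
  have nxt : ∀ (k : ℕ) (s : T), ∃ u : T, s.1 ≤ u.1 ∧ Sat s.1 u.1 (e k.unpair.1).1 ∧
      ((e k.unpair.1).2 : M) ∈ A.cl u.1.E := by
    rintro k ⟨s, a, b, c⟩
    generalize e k.unpair.1 = p
    have q0 := complete_pres (h0 p.1) e1 e2
    obtain ⟨u, u1, u2, u3, u4, u5⟩ := St.step hX h01 h1 hinf p.1 q0.1 (q1 _).1 q0.2 (q1 _).2 s b c
      (e2.trans (A.mono ((h0 p.1).1.trans (a.2.2.1 _).1)))
      (e2.trans (A.mono ((h0 p.1).2.2.1.trans (St.mE a _)))) p.2.2.1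
    exact ⟨⟨u, a.trans u1, u2, u3⟩, u1, u4, u5⟩
  choose F f1 f2 f3 using nxt
  let t0 : T := ⟨s0, le_rfl, ⟨∅, empty_subset _, finite_empty, by rw [union_empty]; exact e1⟩,
    ⟨∅, empty_subset _, finite_empty, by
      rw [union_empty]; exact (complete_cl (h0 n0)).2.trans (A.le e1)⟩⟩
  let s : ℕ → T := fun n => Nat.rec t0 F n
  have hm : Monotone fun k => (s k).1 := monotone_nat_of_le_succ fun k => f1 k (s k)
  have hE : ∀ k, (s k).1.E ⊆ A.cl X1 := fun k => by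
    obtain ⟨T', a, -, c⟩ := (s k).2.2.1
    exact c.trans (A.mono (union_subset h01 a))
  have hX1 : X1 ⊆ A.cl (⋃ k, (s k).1.E) := by
    intro x hx
    by_cases c : x ∈ B0
    · exact A.mono (subset_iUnion (fun k => (s k).1.E) 0) (e2 c)
    · obtain ⟨j, hj⟩ := he (n0, ⟨x, hx, c⟩)
      have := f3 (Nat.pair j 0) (s (Nat.pair j 0))
      rw [Nat.unpair_pair, hj] at this
      exact A.mono (subset_iUnion (fun k => (s k).1.E) (Nat.pair j 0 + 1)) this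
  obtain ⟨u, u1, u2, u3⟩ := limit hX h1 (fun k => (s k).1) hm.directed_le hE hX1 (by
    intro i n
    obtain ⟨j, hj⟩ := he (n, Classical.arbitrary _)
    have := f2 (Nat.pair j i) (s (Nat.pair j i))
    rw [Nat.unpair_pair, hj] at this
    exact ⟨Nat.pair j i + 1, this.mono (hm (Nat.right_le_pair j i)) le_rfl⟩)
  exact ⟨u, u1, u2 0, by rw [u3]; exact iUnion_subset hE, by rw [u3]; exact hX1⟩

end Pool.Agent.H4Fr
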