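import Pool.Agent.Lib.helper4.FrB

/-! Zorn's lemma step and consequences: free shifts, twisting and bounded width. -/

namespace Pool.Agent.H4Fr

open Set
open scoped Pointwise

variable {Γ M : Type} [Group Γ] [MulAction Γ M] {Φ ι : Type} [Group Φ]
variable {A : Fr Γ M} {t : ι → Φ} {g : ι → Γ}

theorem blocks {X : Set M} (hX : X.Infinite) : ∃ p : M → M, ∀ x ∈ X,
    {z ∈ X | p z = p x}.Infinite ∧ {z ∈ X | p z = p x}.Countable := by
  classical
  have := hX.to_subtype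
  obtain ⟨e⟩ : Nonempty (X ≃ X × ℕ) := Cardinal.eq.1 (by simp)
  refine ⟨fun z => if h : z ∈ X then ((e ⟨z, h⟩).1 : M) else z, fun x hx => ?_⟩
  have : {z ∈ X | (if h : z ∈ X then ((e ⟨z, h⟩).1 : M) else z) =
      if h : x ∈ X then ((e ⟨x, h⟩).1 : M) else x} =
      range fun n : ℕ => (e.symm ((e ⟨x, hx⟩).1, n) : M) := by
    ext z
    simp only [dif_pos hx, mem_range]
    constructor
    · rintro ⟨hz, h⟩
      rw [dif_pos hz] at h
      refine ⟨(e ⟨z, hz⟩).2, ?_⟩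
      rw [← Subtype.ext h]; simp
    · rintro ⟨n, rfl⟩
      refine ⟨(e.symm _).2, ?_⟩
      rw [dif_pos (e.symm _).2]; simp
  simp only [this]
  refine ⟨infinite_range_of_injective fun m n h => ?_, countable_range _⟩
  simpa using e.symm.injective (Subtype.ext h)

theorem countable_closure {X : Set M} {R : M → Set M} (h1 : ∀ x ∈ X, R x ⊆ X)
    (h2 : ∀ x ∈ X, (R x).Countable) {x0 : M} (h0 : x0 ∈ X) :
    ∃ K : Set M, x0 ∈ K ∧ K ⊆ X ∧ K.Countable ∧ ∀ x ∈ K, R x ⊆ K := by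
  let K : ℕ → Set M := fun n => Nat.rec {x0} (fun _ S => ⋃ x ∈ S, R x) n
  have a : ∀ n, K n ⊆ X ∧ (K n).Countable := by
    intro n
    induction n with
    | zero => exact ⟨singleton_subset_iff.2 h0, countable_singleton _⟩
    | succ n ih =>
      exact ⟨iUnion₂_subset fun x hx => h1 x (ih.1 hx), ih.2.biUnion fun x hx => h2 x (ih.1 hx)⟩
  refine ⟨⋃ n, K n, mem_iUnion.2 ⟨0, rfl⟩, iUnion_subset fun n => (a n).1,
    countable_iUnion fun n => (a n).2, fun x hx => ?_⟩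
  obtain ⟨n, hn⟩ := mem_iUnion.1 hx
  exact (subset_biUnion_of_mem (u := R) hn).trans (subset_iUnion K (n + 1))

theorem main [Nonempty ι] [Countable ι] {X : Set M} (hX : A.IsB X) (hinf : X.Infinite) :
    ∃ u : St A t g, (∀ n, Sat u u n) ∧ A.IsB u.E ∧ A.IsB u.F := by
  obtain ⟨p, hp⟩ := blocks hinf
  let T := {s : St A t g // (∀ n, Sat s s n) ∧ ∃ B ⊆ X, (∀ x ∈ B, ∀ z ∈ X, p z = p x → z ∈ B) ∧
    s.E ⊆ A.cl B ∧ B ⊆ A.cl s.E}
  have : Nonempty T := ⟨⟨⟨∅, ∅, fun _ => ∅, fun _ => ∅, fun _ => 1, fun _ => 1, fun _ => 1,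
    ⟨X, hX, empty_subset _⟩, ⟨X, hX, empty_subset _⟩, fun n =>
      ⟨subset_rfl, subset_rfl, by simp, by simp, by simp, by simp⟩⟩,
    fun n => ⟨subset_rfl, subset_rfl, empty_subset _, empty_subset _⟩, ∅, empty_subset _,
    by simp, empty_subset _, empty_subset _⟩⟩
  obtain ⟨m, hm⟩ := zorn_le_nonempty (α := T) (by
    intro c hc hne
    have := hne.to_subtype
    choose B b1 b2 b3 b4 using fun s : c => s.1.2.2
    obtain ⟨u, u1, u2, u3⟩ := limit hX (B := ⋃ s, B s) (iUnion_subset b1) (fun s : c => s.1.1)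
      (fun i j => by
        rcases hc.total i.2 j.2 with h | h
        · exact ⟨j, h, le_rfl⟩
        · exact ⟨i, le_rfl, h⟩)
      (fun i => (b3 i).trans (A.mono (subset_iUnion B i)))
      (iUnion_subset fun i => (b4 i).trans (A.mono (subset_iUnion (fun s : c => s.1.1.E) i)))
      (fun i n => ⟨i, i.1.2.1 n⟩)
    refine ⟨⟨u, u1, ⋃ s, B s, iUnion_subset b1, fun x hx z hz e => ?_, ?_, ?_⟩,
      fun s hs => u2 ⟨s, hs⟩⟩
    · obtain ⟨i, hi⟩ := mem_iUnion.1 hx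
      exact mem_iUnion.2 ⟨i, b2 i x hi z hz e⟩
    · rw [u3]; exact iUnion_subset fun i => (b3 i).trans (A.mono (subset_iUnion B i))
    · rw [u3]
      exact iUnion_subset fun i => (b4 i).trans (A.mono (subset_iUnion (fun s : c => s.1.1.E) i)))
  obtain ⟨s, hs, B, b1, b2, b3, b4⟩ := m
  have hXB : X ⊆ B := by
    intro x0 h0
    by_contra hn
    choose S s1 s2 s3 using fun a => A.fin (A.span hX a)
    obtain ⟨K, k1, k2, k3, k4⟩ := countable_closure
      (R := fun x => {z ∈ X | p z = p x} ∪ ⋃ n, (S (g n • x) ∪ S ((g n)⁻¹ • x)))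
      (fun x _ => union_subset (fun z hz => hz.1)
        (iUnion_subset fun n => union_subset (s1 _) (s1 _)))
      (fun x hx => (hp x hx).2.union
        (countable_iUnion fun n => ((s2 _).union (s2 _)).countable)) h0
    obtain ⟨u, u1, u2, u3, u4⟩ := stage hX (B0 := B) (X1 := B ∪ K) subset_union_left
      (union_subset b1 k2) ((hp x0 h0).1.mono fun z hz =>
        ⟨Or.inr (k4 x0 k1 (Or.inl hz)), fun c => hn (b2 z c x0 h0 hz.2.symm)⟩)
      (k3.mono fun z hz => hz.1.resolve_left hz.2) (fun n => by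
        have q := complete_pres (hs n) b3 b4
        constructor
        · rintro _ ⟨x, hx | hx, rfl⟩
          · exact A.mono subset_union_left (q.1 (smul_mem_smul_set hx))
          · exact A.mono (fun z hz => Or.inr (k4 x hx (Or.inr (mem_iUnion.2 ⟨n, Or.inl hz⟩))))
              (s3 _)
        · rintro _ ⟨x, hx | hx, rfl⟩
          · exact A.mono subset_union_left (q.2 (smul_mem_smul_set hx))
          · exact A.mono (fun z hz => Or.inr (k4 x hx (Or.inr (mem_iUnion.2 ⟨n, Or.inr hz⟩))))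
              (s3 _)) s hs b3 b4
    have hle := hm (b := ⟨u, u1, B ∪ K, union_subset b1 k2, fun x hx z hz e => by
      rcases hx with hx | hx
      · exact Or.inl (b2 x hx z hz e)
      · exact Or.inr (k4 x hx (Or.inl ⟨hz, e⟩)), u3, u4⟩) u2
    exact hn (Fr.mem_of_cl hX b1 h0 (A.le (hle.1.trans b3) (u4 (Or.inr k1))))
  have sp : ∀ x, x ∈ A.cl s.E := fun x => A.le (hXB.trans b4) (A.span hX x)
  obtain ⟨n0⟩ := ‹Nonempty ι›
  refine ⟨s, hs, A.lim (fun T hT _ => ?_) sp, A.lim (fun T hT _ => ?_) fun x =>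
    A.le (complete_cl (hs n0)).1 (sp x)⟩
  · obtain ⟨Y, a, b⟩ := s.prE; exact ⟨Y, a, hT.trans b⟩
  · obtain ⟨Y, a, b⟩ := s.prF; exact ⟨Y, a, hT.trans b⟩

variable (A) in
/-- the free group acts freely on a basis through `y` -/
def Act (y : ℤ → Γ) : Prop := ∃ (E : Set M) (h : M → FreeGroup ℤ), A.IsB E ∧ E.Nonempty ∧
  ∀ n, ∀ x ∈ E, y n • x ∈ E ∧ (y n)⁻¹ • x ∈ E ∧ h (y n • x) = FreeGroup.of n * h x

theorem exists_act {X : Set M} (hX : A.IsB X) (hinf : X.Infinite) (g : ℤ → Γ) :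
    ∃ y : ℤ → Γ, Act A y ∧ Act A fun n => g n * y n := by
  obtain ⟨u, h1, h2, h3⟩ := main (t := FreeGroup.of) (g := g) hX hinf
  have ne : ∀ E, A.IsB E → E.Nonempty := by
    intro E hE
    by_contra c
    rw [not_nonempty_iff_eq_empty] at c
    obtain ⟨x, hx⟩ := hinf.nonempty
    exact Fr.mem_of_cl hX (empty_subset X) hx (c ▸ A.span hE x)
  refine ⟨u.y, ⟨u.E, u.he, h2, ne _ h2, fun n x hx => ?_⟩, u.F, u.hf, h3, ne _ h3, fun n x hx => ?_⟩
  · have a := (u.link n).aE x ((h1 n).1 hx)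
    exact ⟨a.1, (u.link n).sE (mem_smul_set_iff_inv_smul_mem.1 ((h1 n).2.2.1 hx)), a.2⟩
  · have a := (u.link n).aF x ((h1 n).2.1 hx)
    have b := (u.link n).sF (mem_smul_set_iff_inv_smul_mem.1 ((h1 n).2.2.2 hx))
    rw [mul_one] at a b
    exact ⟨a.1, b, a.2⟩

theorem act_lift {y : ℤ → Γ} {E : Set M} {h : M → FreeGroup ℤ}
    (H : ∀ n, ∀ x ∈ E, y n • x ∈ E ∧ (y n)⁻¹ • x ∈ E ∧ h (y n • x) = FreeGroup.of n * h x)
    (φ : FreeGroup ℤ) : ∀ x ∈ E, FreeGroup.lift y φ • x ∈ E ∧ h (FreeGroup.lift y φ • x) = φ * h x := by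
  induction φ using FreeGroup.induction_on with
  | C1 => intro x hx; simpa using hx
  | of n => intro x hx; simpa using ⟨(H n x hx).1, (H n x hx).2.2⟩
  | inv_of n _ =>
    intro x hx
    have a := (H n x hx).2.1
    have b := (H n _ a).2.2
    rw [smul_inv_smul] at b
    simp only [map_inv, FreeGroup.lift_apply_of]
    exact ⟨a, by rw [b]; simp⟩
  | mul a b ha hb =>
    intro x hx
    rw [map_mul, mul_smul]
    exact ⟨(ha _ (hb x hx).1).1, by rw [(ha _ (hb x hx).1).2, (hb x hx).2, mul_assoc]⟩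

theorem eq_of_basis [FaithfulSMul Γ M] {E : Set M} (hE : A.IsB E) {a b : Γ}
    (h : ∀ x ∈ E, a • x = b • x) : a = b :=
  eq_of_smul_eq_smul fun x : M => A.eqOn h x (A.span hE x)

theorem Act.twist [FaithfulSMul Γ M] {y : ℤ → Γ} (H : Act A y) :
    ∃ b : Γ, ∀ n, b * y n = y (n + 1) * b := by
  obtain ⟨E, h, hE, -, H⟩ := H
  have L := act_lift H
  let β : (FreeGroup ℤ ≃* FreeGroup ℤ) → M → M := fun σ x =>
    FreeGroup.lift y (σ (h x) * (h x)⁻¹) • x
  have b1 : ∀ σ, ∀ x ∈ E, β σ x ∈ E ∧ h (β σ x) = σ (h x) := fun σ x hx =>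
    ⟨(L _ x hx).1, by rw [(L _ x hx).2]; simp⟩
  have b2 : ∀ σ, ∀ x ∈ E, β σ.symm (β σ x) = x := fun σ x hx => by
    simp only [β] at b1 ⊢
    rw [(b1 σ x hx).2, smul_smul, ← map_mul]
    simp
  let σ : FreeGroup ℤ ≃* FreeGroup ℤ := FreeGroup.freeGroupCongr (Equiv.addRight 1)
  have bij : BijOn (β σ) E E := InvOn.bijOn (f' := β σ.symm)
    ⟨fun x hx => b2 σ x hx, fun x hx => b2 σ.symm x hx⟩ (fun x hx => (b1 σ x hx).1)
    (fun x hx => (b1 σ.symm x hx).1)
  obtain ⟨b, hb⟩ := A.ext hE hE bij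
  refine ⟨b, fun n => eq_of_basis hE fun x hx => ?_⟩
  rw [mul_smul, mul_smul, hb _ (H n x hx).1, hb x hx]
  simp only [β]
  rw [(H n x hx).2.2, smul_smul, smul_smul]
  congr 1
  simp [σ, mul_assoc]

variable (A) in
/-- `z` is a free shift of a basis with infinitely many orbits -/
def Shift (z : Γ) : Prop := ∃ (E : Set M) (h : M → ℤ), A.IsB E ∧ {x ∈ E | h x = 0}.Infinite ∧
  ∀ x ∈ E, z • x ∈ E ∧ z⁻¹ • x ∈ E ∧ h (z • x) = h x + 1

theorem Act.shift {y : ℤ → Γ} (H : Act A y) : Shift A (y 0) := by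
  obtain ⟨E, h, hE, ⟨x, hx⟩, H⟩ := H
  have L := act_lift H
  let d : ℤ → FreeGroup ℤ →* Multiplicative ℤ := fun m =>
    FreeGroup.lift fun n => if n = m then Multiplicative.ofAdd 1 else 1
  refine ⟨E, fun x => (d 0 (h x)).toAdd, hE, ?_, fun x hx => ⟨(H 0 x hx).1, (H 0 x hx).2.1, ?_⟩⟩
  · refine infinite_of_injective_forall_mem
      (f := fun k : ℕ => FreeGroup.lift y (FreeGroup.of 1 ^ k * (h x)⁻¹) • x) ?_ ?_
    · intro k l e
      have := congrArg (fun z => (d 1 (h z)).toAdd) e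
      simp only [(L _ x hx).2] at this
      simpa [d] using this
    · intro k
      refine ⟨(L _ x hx).1, ?_⟩
      simp only [(L _ x hx).2]
      simp [d]
  · simp only [(H 0 x hx).2.2]
    simp [d, add_comm]

theorem basis_card {E E' : Set M} (hE : A.IsB E) (hE' : A.IsB E') (hi : E'.Infinite) :
    Cardinal.mk E ≤ Cardinal.mk E' := by
  choose S s1 s2 s3 using fun a => A.fin (A.span hE a)
  have a : E ⊆ ⋃ x : E', S x := fun z hz => Fr.mem_of_cl hE (iUnion_subset fun x => s1 _) hz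
    (A.le (fun x hx => A.mono (subset_iUnion (fun x : E' => S x) ⟨x, hx⟩) (s3 x)) (A.span hE' z))
  have := hi.to_subtype
  refine (Cardinal.mk_le_mk_of_subset a).trans (Cardinal.mk_iUnion_le_sum_mk.trans ?_)
  refine (Cardinal.sum_le_sum _ (fun _ => Cardinal.aleph0)
    fun x => (Cardinal.lt_aleph0_iff_set_finite.2 (s2 _)).le).trans ?_
  simp

theorem shift_zpow {z : Γ} {E : Set M} {h : M → ℤ}
    (H : ∀ x ∈ E, z • x ∈ E ∧ z⁻¹ • x ∈ E ∧ h (z • x) = h x + 1) (n : ℤ) :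
    ∀ x ∈ E, z ^ n • x ∈ E ∧ h (z ^ n • x) = h x + n := by
  induction n using Int.induction_on with
  | zero => intro x hx; simpa using hx
  | succ n ih =>
    intro x hx
    rw [zpow_add_one, mul_smul]
    exact ⟨(ih _ (H x hx).1).1, by rw [(ih _ (H x hx).1).2, (H x hx).2.2]; ring⟩
  | pred n ih =>
    intro x hx
    have a := (H x hx).2.1
    have b := (H _ a).2.2
    rw [smul_inv_smul] at b
    rw [zpow_sub_one, mul_smul]
    exact ⟨(ih _ a).1, by rw [(ih _ a).2, b]; ring⟩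

theorem level_card {z : Γ} {E : Set M} {h : M → ℤ} (hi : {x ∈ E | h x = 0}.Infinite)
    (H : ∀ x ∈ E, z • x ∈ E ∧ z⁻¹ • x ∈ E ∧ h (z • x) = h x + 1) :
    Cardinal.mk {x ∈ E | h x = 0} = Cardinal.mk E := by
  refine le_antisymm (Cardinal.mk_le_mk_of_subset fun x hx => hx.1) ?_
  have := hi.to_subtype
  have a : Cardinal.mk E ≤ Cardinal.mk ({x ∈ E | h x = 0} × ℤ) := by
    refine Cardinal.mk_le_of_injective (f := fun x : E =>
      ((⟨z ^ (-h x) • (x : M), (shift_zpow H _ _ x.2).1, by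
        rw [(shift_zpow H _ _ x.2).2]; ring⟩ : {x ∈ E | h x = 0}), h x)) fun x w e => ?_
    simp only [Prod.mk.injEq, Subtype.mk.injEq] at e
    rw [e.2] at e
    exact Subtype.ext (smul_left_cancel _ e.1)
  simpa using a

theorem Shift.conj [FaithfulSMul Γ M] {z z' : Γ} (H : Shift A z) (H' : Shift A z') :
    ∃ c : Γ, c * z = z' * c := by
  obtain ⟨E, h, hE, hi, H⟩ := H
  obtain ⟨E', h', hE', hi', H'⟩ := H'
  obtain ⟨k, hk⟩ := bijOn_of_card (P := {x ∈ E | h x = 0}) (Q := {x ∈ E' | h' x = 0}) (by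
    rw [level_card hi H, level_card hi' H']
    exact le_antisymm (basis_card hE hE' (hi'.mono fun x hx => hx.1))
      (basis_card hE' hE (hi.mono fun x hx => hx.1)))
  have l0 : ∀ x ∈ E, z ^ (-h x) • x ∈ {x ∈ E | h x = 0} := fun x hx =>
    ⟨(shift_zpow H _ _ hx).1, by rw [(shift_zpow H _ _ hx).2]; ring⟩
  have l1 : ∀ x ∈ E, z' ^ (h x) • k (z ^ (-h x) • x) ∈ E' ∧
      h' (z' ^ (h x) • k (z ^ (-h x) • x)) = h x := fun x hx => by
    have a := hk.1 (l0 x hx)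
    exact ⟨(shift_zpow H' _ _ a.1).1, by rw [(shift_zpow H' _ _ a.1).2, a.2]; ring⟩
  have bij : BijOn (fun x => z' ^ (h x) • k (z ^ (-h x) • x)) E E' := by
    refine ⟨fun x hx => (l1 x hx).1, fun x hx w hw e => ?_, fun w hw => ?_⟩
    · have a : h x = h w := by
        rw [← (l1 x hx).2, ← (l1 w hw).2]; exact congrArg h' e
      simp only at e
      rw [← a] at e
      have b := hk.2.1 (l0 x hx) (a ▸ l0 w hw) (smul_left_cancel _ e)
      exact smul_left_cancel _ b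
    · obtain ⟨a, ha, e⟩ := hk.2.2 (show z' ^ (-h' w) • w ∈ {x ∈ E' | h' x = 0} from
        ⟨(shift_zpow H' _ _ hw).1, by rw [(shift_zpow H' _ _ hw).2]; ring⟩)
      refine ⟨z ^ (h' w) • a, (shift_zpow H _ _ ha.1).1, ?_⟩
      simp only [(shift_zpow H _ _ ha.1).2, ha.2, zero_add, smul_smul]
      simp [e, smul_smul]
  obtain ⟨c, hc⟩ := A.ext hE hE' bij
  refine ⟨c, eq_of_basis hE fun x hx => ?_⟩
  rw [mul_smul, mul_smul, hc _ (H x hx).1, hc x hx]
  simp only [(H x hx).2.2, smul_smul]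
  rw [show z ^ (-(h x + 1)) * z = z ^ (-h x) by group,
    show z' ^ (h x + 1) = z' * z' ^ h x by group]

theorem exists_shift {X : Set M} (hX : A.IsB X) (hinf : X.Infinite) (g : Γ) :
    ∃ y : Γ, Shift A y ∧ Shift A (g * y) := by
  obtain ⟨y, a, b⟩ := exists_act hX hinf fun _ => g
  exact ⟨y 0, a.shift, b.shift⟩

theorem commutator [FaithfulSMul Γ M] {X : Set M} (hX : A.IsB X) (hinf : X.Infinite) (g : Γ) :
    ∃ a b : Γ, g = a * b * a⁻¹ * b⁻¹ := by
  obtain ⟨y, a, b⟩ := exists_shift hX hinf g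
  obtain ⟨c, hc⟩ := a.conj b
  exact ⟨c, y, by rw [hc]; group⟩

theorem normal_top [FaithfulSMul Γ M] {X : Set M} (hX : A.IsB X) (hinf : X.Infinite) {s : Γ}
    (hs : Shift A s) {N : Subgroup Γ} (hN : N.Normal) (h : s ∈ N) : N = ⊤ := by
  have key : ∀ z, Shift A z → z ∈ N := fun z hz => by
    obtain ⟨c, hc⟩ := hs.conj hz
    have := hN.conj_mem s h c
    rwa [hc, mul_inv_cancel_right] at this
  rw [eq_top_iff]
  intro g _
  obtain ⟨y, a, b⟩ := exists_shift hX hinf g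
  simpa using N.mul_mem (key _ b) (N.inv_mem (key _ a))

/-- `g` is a word of length at most `n` -/
def W (X : Set Γ) (n : ℕ) (g : Γ) : Prop :=
  ∃ l : List Γ, l.length ≤ n ∧ (∀ x ∈ l, x ∈ X ∨ x⁻¹ ∈ X) ∧ l.prod = g

theorem W.mul {X : Set Γ} {n m : ℕ} {a b : Γ} (h : W X n a) (k : W X m b) :
    W X (n + m) (a * b) := by
  obtain ⟨l, h1, h2, rfl⟩ := h
  obtain ⟨l', k1, k2, rfl⟩ := k
  refine ⟨l ++ l', by simp; omega, fun x hx => ?_, by simp⟩
  rcases List.mem_append.1 hx with c | c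
  · exact h2 x c
  · exact k2 x c

theorem W.inv {X : Set Γ} {n : ℕ} {a : Γ} (h : W X n a) : W X n a⁻¹ := by
  obtain ⟨l, h1, h2, rfl⟩ := h
  refine ⟨(l.map fun x => x⁻¹).reverse, by simpa using h1, fun x hx => ?_,
    (List.prod_inv_reverse l).symm⟩
  simp only [List.mem_reverse, List.mem_map] at hx
  obtain ⟨z, hz, rfl⟩ := hx
  simpa using (h2 z hz).symm

theorem W.mono {X : Set Γ} {n m : ℕ} {a : Γ} (h : W X n a) (k : n ≤ m) : W X m a := by
  obtain ⟨l, h1, h2⟩ := h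
  exact ⟨l, h1.trans k, h2⟩

theorem W.pow {X : Set Γ} {n : ℕ} {a : Γ} (h : W X n a) (k : ℕ) : W X (k * n) (a ^ k) := by
  induction k with
  | zero => exact ⟨[], by simp, by simp, by simp⟩
  | succ k ih => rw [pow_succ, Nat.succ_mul]; exact ih.mul h

theorem W.ex {X : Set Γ} (hX : Subgroup.closure X = ⊤) (a : Γ) : ∃ n, W X n a := by
  have : a ∈ Subgroup.closure X := hX ▸ Subgroup.mem_top a
  induction this using Subgroup.closure_induction with
  | mem x hx => exact ⟨1, [x], by simp, by simp [hx], by simp⟩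
  | one => exact ⟨0, [], by simp, by simp, by simp⟩
  | mul x y _ _ a b => obtain ⟨n, a⟩ := a; obtain ⟨m, b⟩ := b; exact ⟨_, a.mul b⟩
  | inv x _ a => obtain ⟨n, a⟩ := a; exact ⟨_, a.inv⟩

theorem twist_pow {y : ℤ → Γ} {b : Γ} (h : ∀ n, b * y n = y (n + 1) * b) (k : ℕ) :
    y k = b ^ k * y 0 * (b ^ k)⁻¹ := by
  induction k with
  | zero => simp
  | succ k ih =>
    have : y ((k : ℤ) + 1) = b * y k * b⁻¹ := by rw [h]; group
    rw [Nat.cast_succ, this, ih, pow_succ']; group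

theorem bounded_width [FaithfulSMul Γ M] {X : Set M} (hX : A.IsB X) (hinf : X.Infinite)
    {S : Set Γ} (hS : Subgroup.closure S = ⊤) : ∃ n, ∀ g, W S n g := by
  by_contra hc
  push Not at hc
  choose G hG using hc
  obtain ⟨y, a, b⟩ := exists_act hX hinf fun n => G (n.toNat * (4 * n.toNat + 2))
  obtain ⟨c, hc⟩ := a.twist
  obtain ⟨d, hd⟩ := b.twist
  obtain ⟨n1, w1⟩ := W.ex hS c
  obtain ⟨n2, w2⟩ := W.ex hS d
  obtain ⟨n3, w3⟩ := W.ex hS (y 0)
  obtain ⟨n4, w4⟩ := W.ex hS (G ((0 : ℤ).toNat * (4 * (0 : ℤ).toNat + 2)) * y 0)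
  obtain ⟨m, hm⟩ : ∃ m, m = n1 + n2 + n3 + n4 := ⟨_, rfl⟩
  have v1 := (w1.mono (by omega : n1 ≤ m)).pow m
  have v2 := (w2.mono (by omega : n2 ≤ m)).pow m
  have v3 := (v1.mul (w3.mono (by omega : n3 ≤ m))).mul v1.inv
  have v4 := (v2.mul (w4.mono (by omega : n4 ≤ m))).mul v2.inv
  rw [← twist_pow hc m] at v3
  rw [← twist_pow (y := fun n => G (n.toNat * (4 * n.toNat + 2)) * y n) hd m] at v4
  have v5 := v4.mul v3.inv
  simp only [mul_inv_cancel_right, Int.toNat_natCast] at v5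
  exact hG _ (v5.mono (by ring_nf; exact le_rfl))

end Pool.Agent.H4Fr
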