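import Pool.Agent.Lib.helper4.FrC

/-! Free groups as an instance of the abstract setting (with a Schreier basis argument). -/

namespace Pool.Agent.H4Fr

open Set Subgroup
open scoped Pointwise

variable {G : Type} [Group G]

/-- `S` is a free basis of the subgroup it generates -/
def Free (S : Set G) : Prop := Function.Injective (FreeGroup.lift (Subtype.val : S → G))

open Classical in
/-- the generator named by `a` -/
noncomputable def gen (S : Set G) (a : G) : FreeGroup S := if h : a ∈ S then FreeGroup.of ⟨a, h⟩ else 1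

theorem free_of {S : Set G} {H : Subgroup G} (hS : S ⊆ H) (ρ : H →* FreeGroup S)
    (h : ∀ a (ha : a ∈ S), ρ ⟨a, hS ha⟩ = gen S a) : Free S := by
  have m : ∀ w, FreeGroup.lift (Subtype.val : S → G) w ∈ H := fun w =>
    FreeGroup.range_lift_le (s := H) (by simpa using hS) ⟨w, rfl⟩
  have : ρ.comp ((FreeGroup.lift (Subtype.val : S → G)).codRestrict H m) = MonoidHom.id _ := by
    refine FreeGroup.ext_hom _ _ fun a => ?_
    have k := h a a.2
    simp only [gen, dif_pos a.2] at k
    have e : (FreeGroup.lift (Subtype.val : S → G)).codRestrict H m (FreeGroup.of a) =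
        ⟨a, hS a.2⟩ := Subtype.ext (by simp)
    rw [MonoidHom.comp_apply, e, k]; rfl
  intro a b e
  have e' : (FreeGroup.lift (Subtype.val : S → G)).codRestrict H m a =
      (FreeGroup.lift (Subtype.val : S → G)).codRestrict H m b := Subtype.ext e
  have e2 := congrArg ρ e'
  rwa [← MonoidHom.comp_apply, ← MonoidHom.comp_apply, this] at e2

theorem Free.ext {S : Set G} (h : Free S) {K : Type} [Group K] (φ : G → K) :
    ∃ L : closure S →* K, ∀ a (ha : a ∈ S), L ⟨a, subset_closure ha⟩ = φ a := by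
  have e : (FreeGroup.lift (Subtype.val : S → G)).range = closure S := by
    rw [FreeGroup.range_lift_eq_closure]; simp
  refine ⟨(FreeGroup.lift fun s : S => φ s).comp
    (((MonoidHom.ofInjective h).trans (MulEquiv.subgroupCongr e)).symm : _ →* _), fun a ha => ?_⟩
  have : ((MonoidHom.ofInjective h).trans (MulEquiv.subgroupCongr e)).symm ⟨a, subset_closure ha⟩ =
      FreeGroup.of ⟨a, ha⟩ := by
    rw [MulEquiv.symm_apply_eq]
    ext; simp [MonoidHom.ofInjective_apply]
  simp [this]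

theorem basis_ext {X : Set G} (h : Free X) (h' : closure X = ⊤) {K : Type} [Group K] (φ : G → K) :
    ∃ L : G →* K, ∀ a ∈ X, L a = φ a := by
  obtain ⟨L, hL⟩ := h.ext φ
  exact ⟨L.comp ((MonoidHom.id G).codRestrict _ fun a => h' ▸ mem_top a), hL⟩

theorem lift_incl {T Y : Set G} (h : T ⊆ Y) (w : FreeGroup T) :
    FreeGroup.lift (Subtype.val : Y → G) (FreeGroup.map (Set.inclusion h) w) =
      FreeGroup.lift (Subtype.val : T → G) w := by
  have : (FreeGroup.lift (Subtype.val : Y → G)).comp (FreeGroup.map (Set.inclusion h)) =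
      FreeGroup.lift (Subtype.val : T → G) := by ext; simp
  exact DFunLike.congr_fun this w

theorem Free.mono {T Y : Set G} (hY : Free Y) (h : T ⊆ Y) : Free T := by
  intro a b e
  rw [← lift_incl h, ← lift_incl h] at e
  exact FreeGroup.map_injective (Set.inclusion_injective h) (hY e)

omit [Group G] in
theorem exists_fin_support {S : Set G} (w : FreeGroup S) :
    ∃ (T : Set G) (h : T ⊆ S), T.Finite ∧ w ∈ (FreeGroup.map (Set.inclusion h)).range := by
  have up : ∀ {T T' : Set G} (h : T ⊆ S) (h' : T' ⊆ S), T ⊆ T' →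
      (FreeGroup.map (Set.inclusion h)).range ≤ (FreeGroup.map (Set.inclusion h')).range := by
    rintro T T' h h' k _ ⟨w, rfl⟩
    exact ⟨FreeGroup.map (Set.inclusion k) w, by rw [FreeGroup.map.comp]; rfl⟩
  induction w using FreeGroup.induction_on with
  | C1 => exact ⟨∅, empty_subset _, finite_empty, one_mem _⟩
  | of a => exact ⟨{a.1}, singleton_subset_iff.2 a.2, finite_singleton _,
      FreeGroup.of ⟨a, rfl⟩, rfl⟩
  | inv_of a ih => obtain ⟨T, h, a, b⟩ := ih; exact ⟨T, h, a, inv_mem b⟩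
  | mul a b ha hb =>
    obtain ⟨T, h, a1, a2⟩ := ha
    obtain ⟨T', h', b1, b2⟩ := hb
    exact ⟨T ∪ T', union_subset h h', a1.union b1,
      mul_mem (up _ _ subset_union_left a2) (up _ _ subset_union_right b2)⟩

theorem basis_ind {X : Set G} (h : Free X) (h' : closure X = ⊤) {x : G} (hx : x ∈ X) :
    x ∉ closure (X \ {x}) := by
  classical
  obtain ⟨L, hL⟩ := basis_ext h h' (K := Multiplicative ℤ)
    fun a => if a = x then Multiplicative.ofAdd 1 else 1
  intro c
  have : closure (X \ {x}) ≤ L.ker := by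
    rw [closure_le]
    intro a ha
    have : a ≠ x := ha.2
    simp [hL a ha.1, this]
  have := this c
  rw [MonoidHom.mem_ker, hL x hx] at this
  simp at this

open Classical in
/-- a Schreier transversal -/
noncomputable def tau {Ω : Type} [MulAction G Ω] (o : Ω) (l : Ω → ℕ) (a : Ω → G)
    (h : ∀ ω, ω ≠ o → l ((a ω)⁻¹ • ω) < l ω) (ω : Ω) : G :=
  if _hω : ω = o then 1 else a ω * tau o l a h ((a ω)⁻¹ • ω)
termination_by l ω
decreasing_by exact h ω _hω

theorem exists_tau {Ω : Type} [MulAction G Ω] (o : Ω) {Y : Set G} (hY : closure Y = ⊤)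
    (ht : ∀ ω, ∃ g : G, g • o = ω) : ∃ (τ : Ω → G) (l : Ω → ℕ), τ o = 1 ∧
      ∀ ω, ω ≠ o → ∃ a, (a ∈ Y ∨ a⁻¹ ∈ Y) ∧ l (a⁻¹ • ω) < l ω ∧ τ ω = a * τ (a⁻¹ • ω) := by
  classical
  let P : ℕ → Ω → Prop := fun n => Nat.rec (fun ω => ω = o)
    (fun _ Q ω => ∃ a, (a ∈ Y ∨ a⁻¹ ∈ Y) ∧ Q (a⁻¹ • ω)) n
  have ex : ∀ ω, ∃ n, P n ω := by
    intro ω
    obtain ⟨g, rfl⟩ := ht ω
    have : g ∈ closure Y := hY ▸ mem_top g
    induction this using closure_induction_left with
    | one => exact ⟨0, one_smul _ _⟩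
    | mul_left x hx y _ ih =>
      obtain ⟨n, ih⟩ := ih
      exact ⟨n + 1, x, Or.inl hx, by rwa [mul_smul, inv_smul_smul]⟩
    | inv_mul_cancel x hx y _ ih =>
      obtain ⟨n, ih⟩ := ih
      exact ⟨n + 1, x⁻¹, Or.inr (by simpa using hx), by rwa [mul_smul, inv_smul_smul]⟩
  have par : ∀ ω : Ω, ∃ a : G, ω ≠ o →
      (a ∈ Y ∨ a⁻¹ ∈ Y) ∧ sInf {n | P n (a⁻¹ • ω)} < sInf {n | P n ω} := by
    intro ω
    by_cases c : ω = o
    · exact ⟨1, fun h => absurd c h⟩
    have h : P (sInf {n | P n ω}) ω := Nat.sInf_mem (s := {n | P n ω}) (ex ω)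
    rcases e : sInf {n | P n ω} with _ | n
    · rw [e] at h; exact absurd h c
    · rw [e] at h
      obtain ⟨a, h1, h2⟩ := h
      exact ⟨a, fun _ => ⟨h1, Nat.lt_succ_of_le (Nat.sInf_le h2)⟩⟩
  choose a ha using par
  refine ⟨tau o (fun ω => sInf {n | P n ω}) a fun ω h => (ha ω h).2, fun ω => sInf {n | P n ω},
    by rw [tau]; simp, fun ω h => ⟨a ω, (ha ω h).1, (ha ω h).2, ?_⟩⟩
  rw [tau]; simp [h]

theorem schreier {Y S : Set G} (hY : Free Y) (hY' : closure Y = ⊤) (hS : S ⊆ Y) (H : Subgroup G)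
    (hH : S ⊆ H) : ∃ S', S ⊆ S' ∧ closure S' = H ∧ Free S' := by
  obtain ⟨τ, l, t0, t1⟩ := exists_tau (Ω := G ⧸ H) ((1 : G) : G ⧸ H) hY' (fun ω => by
    obtain ⟨g, rfl⟩ := QuotientGroup.mk_surjective ω
    exact ⟨g, by simp⟩)
  have fix : ∀ a : G, a • ((1 : G) : G ⧸ H) = ((1 : G) : G ⧸ H) ↔ a ∈ H := fun a => by
    simp [QuotientGroup.eq]
  generalize ((1 : G) : G ⧸ H) = o at t0 t1 fix
  let γ : G ⧸ H → G → G := fun ω y => (τ (y • ω))⁻¹ * y * τ ω
  let S' : Set G := {a | a ≠ 1 ∧ ∃ ω, ∃ y ∈ Y, a = γ ω y}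
  let π : G → Equiv.Perm ((G ⧸ H) × FreeGroup S') := fun a =>
    ⟨fun p => (a • p.1, gen S' (γ p.1 a) * p.2),
      fun p => (a⁻¹ • p.1, (gen S' (γ (a⁻¹ • p.1) a))⁻¹ * p.2), fun p => by simp, fun p => by simp⟩
  obtain ⟨θ, hθ⟩ := basis_ext hY hY' π
  have g1 : gen S' 1 = 1 := by simp [gen, S']
  have Q : ∀ a : G, ∃ κ : G ⧸ H → FreeGroup S', ∀ ω k, θ a (ω, k) = (a • ω, κ ω * k) := by
    intro a
    have : a ∈ closure Y := hY' ▸ mem_top a
    induction this using closure_induction with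
    | mem x hx => exact ⟨fun ω => gen S' (γ ω x), fun ω k => by rw [hθ x hx]; rfl⟩
    | one => exact ⟨fun _ => 1, by simp⟩
    | mul x y _ _ a b =>
      obtain ⟨κ, a⟩ := a
      obtain ⟨κ', b⟩ := b
      exact ⟨fun ω => κ (y • ω) * κ' ω, fun ω k => by simp [a, b, mul_smul, mul_assoc]⟩
    | inv x _ a =>
      obtain ⟨κ, a⟩ := a
      refine ⟨fun ω => (κ (x⁻¹ • ω))⁻¹, fun ω k => ?_⟩
      rw [map_inv, Equiv.Perm.inv_eq_iff_eq, a]; simp
  have T : ∀ ω k, θ (τ ω) (o, k) = (ω, k) := by
    intro ω k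
    induction hn : l ω using Nat.strong_induction_on generalizing ω with
    | _ n ih =>
      by_cases c : ω = o
      · rw [c, t0]; simp
      obtain ⟨a, a1, a2, a3⟩ := t1 ω c
      rw [a3, map_mul, Equiv.Perm.mul_apply, ih _ (hn ▸ a2) _ rfl]
      rcases a1 with a1 | a1
      · have : γ (a⁻¹ • ω) a = 1 := by simp only [γ, smul_inv_smul]; rw [a3]; group
        rw [hθ a a1]
        simp [π, this, g1]
      · have : γ ω a⁻¹ = 1 := by simp only [γ]; rw [a3]; group
        rw [← inv_inv a, map_inv, Equiv.Perm.inv_eq_iff_eq, hθ _ a1]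
        simp [π, this, g1]
  have T1 : ∀ ω, τ ω • o = ω := fun ω => by
    obtain ⟨κ, h⟩ := Q (τ ω)
    have := T ω 1
    rw [h] at this
    exact congrArg Prod.fst this
  have hγ : ∀ ω y, γ ω y ∈ H := fun ω y => by
    rw [← fix]
    simp only [γ, mul_smul, T1]
    rw [inv_smul_eq_iff, T1]
  have sub : S' ⊆ H := by rintro _ ⟨-, ω, y, -, rfl⟩; exact hγ ω y
  refine ⟨S', fun s hs => ⟨fun e => ?_, o, s, hS hs, ?_⟩, le_antisymm ((closure_le _).2 sub) ?_,
    free_of sub (MonoidHom.mk' (fun h : H => (θ h (o, 1)).2) fun a b => ?_) ?_⟩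
  · exact basis_ind hY hY' (hS hs) (e ▸ one_mem _)
  · simp [γ, (fix s).2 (hH hs), t0]
  · have key : ∀ a ∈ closure Y, ∀ ω, γ ω a ∈ closure S' := by
      intro a ha
      induction ha using closure_induction with
      | mem x hx =>
        intro ω
        by_cases c : γ ω x = 1
        · rw [c]; exact one_mem _
        · exact subset_closure ⟨c, ω, x, hx, rfl⟩
      | one => intro ω; simp [γ]
      | mul x y _ _ a b =>
        intro ω
        have := mul_mem (a (y • ω)) (b ω)
        simpa [γ, mul_smul, mul_assoc] using this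
      | inv x _ a =>
        intro ω
        have := inv_mem (a (x⁻¹ • ω))
        simpa [γ, mul_assoc] using this
    intro h hh
    have := key h (hY' ▸ mem_top h) o
    simpa [γ, (fix h).2 hh, t0] using this
  · obtain ⟨κ, h⟩ := Q a
    obtain ⟨κ', h'⟩ := Q b
    simp [h, h', (fix b).2 b.2]
  · rintro _ ⟨h, ω, y, hy, rfl⟩
    simp only [MonoidHom.mk'_apply, γ, map_mul, map_inv, Equiv.Perm.mul_apply, T]
    rw [hθ y hy]
    have : (θ (τ (y • ω)))⁻¹ (π y (ω, 1)) = (o, gen S' (γ ω y)) := by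
      rw [Equiv.Perm.inv_eq_iff_eq, T]; simp [π]
    rw [this]

theorem replace {X B S : Set G} (hX : Free X) (hX' : closure X = ⊤) (hB : B ⊆ X) (hS : Free S)
    (e : closure S = closure B) : Free (S ∪ X \ B) ∧ closure (S ∪ X \ B) = ⊤ := by
  classical
  constructor
  · obtain ⟨ρ, hρ⟩ := hS.ext (gen (S ∪ X \ B))
    obtain ⟨L, hL⟩ := basis_ext hX hX'
      fun x => if h : x ∈ closure S then ρ ⟨x, h⟩ else gen (S ∪ X \ B) x
    have key : ∀ a ∈ closure B, ∀ h : a ∈ closure S, L a = ρ ⟨a, h⟩ := by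
      intro a ha
      induction ha using closure_induction with
      | mem x hx => intro h; rw [hL x (hB hx), dif_pos h]
      | one => intro h; rw [map_one]; exact (map_one ρ).symm
      | mul x y hx hy a b =>
        intro h
        rw [map_mul, a (e ▸ hx), b (e ▸ hy), ← map_mul]; rfl
      | inv x hx a =>
        intro h
        rw [map_inv, a (e ▸ hx), ← map_inv]; rfl
    refine free_of (H := ⊤) (subset_univ _) (L.comp (Subgroup.subtype _)) ?_
    rintro a (ha | ha)
    · simp only [MonoidHom.comp_apply, coe_subtype]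
      rw [key a (e ▸ subset_closure ha) (subset_closure ha), hρ a ha]
    · simp only [MonoidHom.comp_apply, coe_subtype]
      rw [hL a ha.1, dif_neg]
      rw [e]
      have : B ⊆ X \ {a} := fun z hz => ⟨hB hz, fun d => ha.2 (mem_singleton_iff.1 d ▸ hz)⟩
      exact fun c => basis_ind hX hX' ha.1 (Subgroup.closure_mono this c)
  · rw [Subgroup.closure_union, e, ← Subgroup.closure_union, union_sdiff_cancel hB, hX']

variable (G) in
/-- subgroup closure and free bases -/
def grp : Fr (MulAut G) G where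
  cl S := closure S
  IsB X := Free X ∧ closure X = ⊤
  sub _ := subset_closure
  le h := (closure_le _).2 h
  fin {S x} h := by
    induction h using closure_induction with
    | mem x hx => exact ⟨{x}, singleton_subset_iff.2 hx, finite_singleton _, subset_closure rfl⟩
    | one => exact ⟨∅, empty_subset _, finite_empty, one_mem _⟩
    | mul x y _ _ a b =>
      obtain ⟨T, a1, a2, a3⟩ := a
      obtain ⟨T', b1, b2, b3⟩ := b
      exact ⟨T ∪ T', union_subset a1 b1, a2.union b2,
        mul_mem (closure_mono subset_union_left a3) (closure_mono subset_union_right b3)⟩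
    | inv x _ a => obtain ⟨T, a1, a2, a3⟩ := a; exact ⟨T, a1, a2, inv_mem a3⟩
  smul g S x h := by
    have := MonoidHom.map_closure (g : G →* G) S
    have k : g x ∈ (closure S).map (g : G →* G) := mem_map_of_mem _ h
    rw [this] at k
    exact k
  eqOn {g h S} e x hx := MonoidHom.eqOn_closure (f := (g : G →* G)) (g := (h : G →* G)) e hx
  span h x := by rw [h.2]; trivial
  map g X h := by
    constructor
    · obtain ⟨L, hL⟩ := basis_ext h.1 h.2 fun x => gen (g • X) (g x)
      refine free_of (H := ⊤) (subset_univ _)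
        ((L.comp (g.symm : G →* G)).comp (Subgroup.subtype _)) ?_
      rintro _ ⟨x, hx, rfl⟩
      simp [hL x hx]
    · have := MonoidHom.map_closure (g : G →* G) X
      rw [h.2, map_top_of_surjective _ g.surjective] at this
      exact this.symm
  ext {X Y φ} hX hY hφ := by
    obtain ⟨L, hL⟩ := basis_ext hX.1 hX.2 φ
    obtain ⟨L', hL'⟩ := basis_ext hY.1 hY.2 (Function.invFunOn φ X)
    have i := hφ.invOn_invFunOn
    refine ⟨L.toMulEquiv L' (MonoidHom.eq_of_eqOn_dense hX.2 fun x hx => ?_)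
      (MonoidHom.eq_of_eqOn_dense hY.2 fun x hx => ?_), hL⟩
    · simp [hL x hx, hL' _ (hφ.1 hx), i.1 hx]
    · simp [hL' x hx, hL _ (hφ.2.2.mapsTo_invFunOn hx), i.2 hx]
  kur {X Y S B} hX hY hS hB h := by
    obtain ⟨S', a, b, c⟩ := schreier hY.1 hY.2 hS (closure B) h
    exact ⟨S', a, b ▸ subset_closure, b ▸ subset_closure, replace hX.1 hX.2 hB c b⟩
  lim {S} h1 h2 := by
    refine ⟨(injective_iff_map_eq_one _).2 fun w hw => ?_, eq_top_iff.2 fun x _ => h2 x⟩
    obtain ⟨T, h, a, w, rfl⟩ := exists_fin_support w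
    obtain ⟨Y, c, d⟩ := h1 T h a
    rw [lift_incl] at hw
    rw [(injective_iff_map_eq_one _).1 (c.1.mono d) w hw, map_one]
  ind h hx := basis_ind h.1 h.2 hx

theorem grp_basis (α : Type) : (grp (FreeGroup α)).IsB (range FreeGroup.of) := by
  refine ⟨free_of (H := ⊤) (subset_univ _)
    ((FreeGroup.lift fun a => gen _ (FreeGroup.of a)).comp (Subgroup.subtype _)) ?_,
    FreeGroup.closure_range_of α⟩
  rintro _ ⟨a, rfl⟩
  simp

theorem grp_inf (α : Type) [Infinite α] : (range (FreeGroup.of : α → FreeGroup α)).Infinite :=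
  infinite_range_of_injective FreeGroup.of_injective

end Pool.Agent.H4Fr
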