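import Pool.Agent.Lib.helper4.FrGrp

/-! An involution permuting a basis whose normal closure is everything. -/

namespace Pool.Agent.H4Fr

open Set

def invA (β : Type) : Equiv.Perm (β × Bool × ℤ) :=
  Function.Involutive.toPerm (fun p => (p.1, p.2.1, (if p.2.1 then 2 else 1) - p.2.2))
    (fun p => by simp)

def invC (β : Type) : Equiv.Perm (β × Bool × ℤ) where
  toFun p := (p.1, !p.2.1, if p.2.1 then p.2.2 - 1 else p.2.2)
  invFun p := (p.1, !p.2.1, if p.2.1 then p.2.2 else p.2.2 + 1)
  left_inv := by rintro ⟨a, _ | _, n⟩ <;> simp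
  right_inv := by rintro ⟨a, _ | _, n⟩ <;> simp

theorem invAC (β : Type) (p : β × Bool × ℤ) :
    (invA β * (invC β * invA β * (invC β)⁻¹)) p = (p.1, p.2.1, p.2.2 + 1) := by
  obtain ⟨a, _ | _, n⟩ := p <;> simp [invA, invC, Equiv.Perm.inv_def] <;> ring

/-- permutations of the generators -/
def permAut (α : Type) : Equiv.Perm α →* MulAut (FreeGroup α) where
  toFun := FreeGroup.freeGroupCongr
  map_one' := by ext x; simp
  map_mul' a b := by
    ext x
    simp [FreeGroup.map.comp]

theorem permAut_of {α : Type} (π : Equiv.Perm α) (a : α) :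
    permAut α π • FreeGroup.of a = FreeGroup.of (π a) := by simp [permAut]

theorem involution (α : Type) [Infinite α] : ∃ σ : MulAut (FreeGroup α), σ ≠ 1 ∧ σ * σ = 1 ∧
    Subgroup.normalClosure ({σ} : Set (MulAut (FreeGroup α))) = ⊤ := by
  classical
  obtain ⟨e⟩ : Nonempty (α × Bool × ℤ ≃ α) := Cardinal.eq.1 (by simp)
  let f : Equiv.Perm (α × Bool × ℤ) →* MulAut (FreeGroup α) :=
    (permAut α).comp e.permCongrHom.toMonoidHom
  have hf : ∀ π p, f π • FreeGroup.of (e p) = FreeGroup.of (e (π p)) := fun π p => by
    simp only [f, MonoidHom.comp_apply, permAut_of]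
    simp
  refine ⟨f (invA α), fun h => ?_, ?_, ?_⟩
  · have := hf (invA α) (Classical.arbitrary α, false, 0)
    rw [h, one_smul] at this
    simpa [invA] using e.injective (FreeGroup.of_injective this)
  · rw [← map_mul, show invA α * invA α = 1 from by ext1 p; simp [invA], map_one]
  · refine normal_top (grp_basis α) (grp_inf α)
      (s := f (invA α * (invC α * invA α * (invC α)⁻¹))) ?_ inferInstance ?_
    · let h : FreeGroup α → ℤ := fun w => (e.symm (Function.invFun FreeGroup.of w)).2.2
      have hh : ∀ p, h (FreeGroup.of (e p)) = p.2.2 := fun p => by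
        simp only [h]
        rw [Function.leftInverse_invFun FreeGroup.of_injective]; simp
      refine ⟨_, h, grp_basis α, ?_, ?_⟩
      · refine infinite_of_injective_forall_mem
          (f := fun a : α => FreeGroup.of (e (a, false, 0))) (fun a b c => ?_)
          fun a => ⟨⟨_, rfl⟩, hh _⟩
        simpa using e.injective (FreeGroup.of_injective c)
      · rintro _ ⟨a, rfl⟩
        obtain ⟨p, rfl⟩ := e.surjective a
        refine ⟨by rw [hf]; exact ⟨_, rfl⟩, by rw [← map_inv, hf]; exact ⟨_, rfl⟩, ?_⟩
        rw [hf, hh, hh, invAC]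
    · have m := Subgroup.subset_normalClosure (s := {f (invA α)}) rfl
      simp only [map_mul, map_inv]
      exact mul_mem m (Subgroup.normalClosure_normal.conj_mem _ m _)

end Pool.Agent.H4Fr
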