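import Pool.Agent.Lib.helper4.FrC

/-! Vector spaces as an instance of the abstract setting. -/

namespace Pool.Agent.H4Fr

open Set Submodule
open scoped Pointwise

variable (D V : Type) [DivisionRing D] [AddCommGroup V] [Module D V]

theorem gl_smul (g : LinearMap.GeneralLinearGroup D V) (x : V) : g • x = (g : V →ₗ[D] V) x := rfl

theorem gl_set (g : LinearMap.GeneralLinearGroup D V) (S : Set V) :
    g • S = (g : V →ₗ[D] V) '' S := rfl

/-- spans and bases -/
def vec : Fr (LinearMap.GeneralLinearGroup D V) V where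
  cl S := span D S
  IsB X := LinearIndepOn D id X ∧ span D X = ⊤
  sub _ := subset_span
  le h := span_le.2 h
  fin h := by
    obtain ⟨T, a, b⟩ := mem_span_finite_of_mem_span h
    exact ⟨T, a, T.finite_toSet, b⟩
  smul g S x h := by
    rw [gl_set, span_image]
    exact mem_map_of_mem h
  eqOn h _ hx := LinearMap.eqOn_span h hx
  span h x := by rw [h.2]; trivial
  map g X h := by
    rw [gl_set]
    refine ⟨h.1.id_imageₛ (MulAction.injective g).injOn, ?_⟩
    rw [span_image, h.2, Submodule.map_top, LinearMap.range_eq_top]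
    exact MulAction.surjective g
  ext {X Y φ} hX hY hφ := by
    let bX := Module.Basis.mk (v := (Subtype.val : X → V)) hX.1 (by simp [hX.2])
    let bY := Module.Basis.mk (v := (Subtype.val : Y → V)) hY.1 (by simp [hY.2])
    refine ⟨LinearMap.GeneralLinearGroup.ofLinearEquiv (bX.equiv bY (hφ.equiv φ)), fun x hx => ?_⟩
    have := bX.equiv_apply ⟨x, hx⟩ bY (hφ.equiv φ)
    simp only [bX, bY, Module.Basis.mk_apply] at this
    exact this
  kur {X Y S B} hX hY hS hB h := by
    obtain ⟨b, b1, b2, b3, b4⟩ := exists_linearIndepOn_id_extension (hY.1.mono hS) h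
    have e : span D b = span D B := le_antisymm (span_le.2 b1) (span_le.2 (subset_span.trans b3))
    have u : B ∪ X \ B = X := union_sdiff_cancel hB
    have := (linearIndepOn_union_iff (R := D) (v := id) (s := B) (t := X \ B)
      disjoint_sdiff_right).1 (by rw [u]; exact hX.1)
    refine ⟨b, b2, b1, subset_span.trans b3, b4.union this.2.1 ?_, ?_⟩
    · simpa [e] using this.2.2
    · rw [span_union, e, ← span_union, u, hX.2]
  lim h1 h2 := ⟨linearIndepOn_of_finite _ fun T a b => by
      obtain ⟨Y, c, d⟩ := h1 T a b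
      exact c.1.mono d, eq_top_iff.2 fun x _ => h2 x⟩
  ind {X x} h hx := by
    have := h.1.notMem_span hx
    simpa using this

theorem vec_basis (h : ¬ Module.Finite D V) : ∃ X : Set V, (vec D V).IsB X ∧ X.Infinite := by
  obtain ⟨b, -, -, b3, b4⟩ := exists_linearIndepOn_id_extension (K := D)
    (linearIndepOn_empty D (id : V → V)) (empty_subset (univ : Set V))
  have e : span D b = ⊤ := eq_top_iff.2 fun x _ => b3 (mem_univ x)
  exact ⟨b, ⟨b4, e⟩, fun hf => h ⟨Submodule.fg_def.2 ⟨b, hf, e⟩⟩⟩

end Pool.Agent.H4Fr
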