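import Mathlib

namespace H4FreeBall

open FreeGroup Pointwise

variable {α : Type} [DecidableEq α]

def inv (a : α × Bool) : α × Bool := (a.1, !a.2)

omit [DecidableEq α] in
lemma inv_inv' (a : α × Bool) : inv (inv a) = a := by simp [inv]

omit [DecidableEq α] in
lemma mk_inv (a : α × Bool) : mk [inv a] = (mk [a])⁻¹ := by
  rw [inv_mk]; rfl

section Lower

omit [DecidableEq α] in
lemma red_invRev {l : List (α × Bool)} (h : IsReduced l) : IsReduced (invRev l) := by
  classical
  rw [isReduced_iff_reduce_eq, reduce_invRev, h.reduce_eq]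

lemma toWord_mul_start {u : List (α × Bool)} {a : α × Bool} (h : IsReduced (u ++ [a]))
    {g : FreeGroup α} (hg : g ∈ startsWith a) : u ++ [a] <+: (mk u * g).toWord := by
  have h1 : g.toWord[0]? = some a := hg
  obtain ⟨w, hw⟩ : ∃ w, g.toWord = a :: w := by
    cases hh : g.toWord with
    | nil => simp [hh] at h1
    | cons b w =>
      rw [hh] at h1
      simp only [List.getElem?_cons_zero, Option.some.injEq] at h1
      exact ⟨w, by rw [h1]⟩
  have h2 : IsReduced ([a] ++ w) := by
    have := isReduced_toWord (x := g)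
    rwa [hw] at this
  have h3 := h.append_overlap h2 (by simp)
  have h4 : mk u * g = mk (u ++ [a] ++ w) := by
    conv_lhs => rw [← mk_toWord (x := g), hw, mul_mk]
    simp
  rw [h4, toWord_mk, h3.reduce_eq]
  exact List.prefix_append _ _

omit [DecidableEq α] in
lemma lift_inj_subsingleton {ι : Type} [Subsingleton ι] (γ : ι → FreeGroup α) (h : ∀ i, γ i ≠ 1) :
    Function.Injective (FreeGroup.lift γ) := by
  rw [injective_iff_map_eq_one]
  intro w hw
  rcases isEmpty_or_nonempty ι with hι | ⟨⟨i⟩⟩
  · exact Subsingleton.elim _ _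
  have key : ∀ w : FreeGroup ι, ∃ n : ℤ, w = of i ^ n := by
    intro w
    induction w using FreeGroup.induction_on with
    | C1 => exact ⟨0, by simp⟩
    | of x => exact ⟨1, by rw [Subsingleton.elim x i, zpow_one]⟩
    | inv_of x _ => exact ⟨-1, by rw [Subsingleton.elim x i]; simp⟩
    | mul x y hx hy =>
      obtain ⟨m, rfl⟩ := hx
      obtain ⟨n, rfl⟩ := hy
      exact ⟨m + n, by rw [zpow_add]⟩
  obtain ⟨n, rfl⟩ := key w
  rw [map_zpow, lift_apply_of] at hw
  by_cases hn : n = 0
  · simp [hn]
  · exact absurd ((IsMulTorsionFree.zpow_eq_one_iff_left hn).1 hw) (h i)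

lemma norm_gen {u v : List (α × Bool)} {a : α × Bool} (hu : IsReduced (u ++ [a]))
    (hv : IsReduced (v ++ [inv a])) :
    (mk u * mk [a] * (mk v)⁻¹).norm = u.length + 1 + v.length := by
  have h1 : IsReduced ([a] ++ invRev v) := by
    have := red_invRev hv
    have e : invRev (v ++ [inv a]) = [a] ++ invRev v := by
      simp [invRev, inv]
    rwa [e] at this
  have h2 := hu.append_overlap h1 (by simp)
  rw [inv_mk, mul_mk, mul_mk, FreeGroup.norm, toWord_mk, h2.reduce_eq]
  simp only [List.length_append, invRev_length, List.length_singleton]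

lemma pingpong {ι : Type} (u v : ι → List (α × Bool)) (a : ι → α × Bool)
    (hu : ∀ i, IsReduced (u i ++ [a i])) (hv : ∀ i, IsReduced (v i ++ [inv (a i)]))
    (hXX : ∀ i j w, u i ++ [a i] <+: w → u j ++ [a j] <+: w → i = j)
    (hYY : ∀ i j w, v i ++ [inv (a i)] <+: w → v j ++ [inv (a j)] <+: w → i = j)
    (hXY : ∀ i j w, u i ++ [a i] <+: w → v j ++ [inv (a j)] <+: w → False) :
    Function.Injective (FreeGroup.lift fun i => mk (u i) * mk [a i] * (mk (v i))⁻¹) := by
  rcases subsingleton_or_nontrivial ι with hι | hι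
  · refine lift_inj_subsingleton _ fun i h => ?_
    have := norm_gen (hu i) (hv i)
    rw [h, FreeGroup.norm_one] at this
    omega
  refine FreeGroup.injective_lift_of_ping_pong (α := FreeGroup α) _
    (fun i => mk (u i) • startsWith (a i)) (fun i => mk (v i) • startsWith (inv (a i)))
    ?_ ?_ ?_ ?_ ?_ ?_
  · intro i
    refine ⟨_, mk [a i], ?_, rfl⟩
    simp [startsWith]
  · intro i j hij
    refine Set.disjoint_left.2 ?_
    rintro _ ⟨g, hg, rfl⟩ ⟨g', hg', e⟩
    have h1 := toWord_mul_start (hu i) hg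
    have h2 := toWord_mul_start (hu j) hg'
    have e' : mk (u j) * g' = mk (u i) * g := e
    rw [e'] at h2
    exact hij (hXX i j _ h1 h2)
  · intro i j hij
    refine Set.disjoint_left.2 ?_
    rintro _ ⟨g, hg, rfl⟩ ⟨g', hg', e⟩
    have h1 := toWord_mul_start (hv i) hg
    have h2 := toWord_mul_start (hv j) hg'
    have e' : mk (v j) * g' = mk (v i) * g := e
    rw [e'] at h2
    exact hij (hYY i j _ h1 h2)
  · intro i j
    refine Set.disjoint_left.2 ?_
    rintro _ ⟨g, hg, rfl⟩ ⟨g', hg', e⟩
    have h1 := toWord_mul_start (hu i) hg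
    have h2 := toWord_mul_start (hv j) hg'
    have e' : mk (v j) * g' = mk (u i) * g := e
    rw [e'] at h2
    exact hXY i j _ h1 h2
  · rintro i _ ⟨g, hg, rfl⟩
    refine ⟨mk [a i] * ((mk (v i))⁻¹ * g), startsWith_mk_mul _ fun h => hg ⟨_, h, ?_⟩, ?_⟩
    · simp only [smul_eq_mul]; group
    · simp only [smul_eq_mul]; group
  · rintro i _ ⟨g, hg, rfl⟩
    refine ⟨mk [inv (a i)] * ((mk (u i))⁻¹ * g), startsWith_mk_mul _ fun h => hg ⟨(mk (u i))⁻¹ * g, ?_, ?_⟩, ?_⟩
    · simpa only [inv, Bool.not_not] using h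
    · simp only [smul_eq_mul]; group
    · simp only [smul_eq_mul, mk_inv, Pi.inv_apply]; group

variable [Fintype α]

lemma exists_words (k : ℕ) : ∀ a : α × Bool, ∃ T : Finset (List (α × Bool)),
    T.card = (2 * Fintype.card α - 1) ^ k ∧ ∀ u ∈ T, u.length = k ∧ IsReduced (u ++ [a]) := by
  induction k with
  | zero => intro a; exact ⟨{[]}, by simp, by simp⟩
  | succ k ih =>
    intro a
    choose T hT hT' using ih
    refine ⟨(Finset.univ.erase (inv a)).biUnion fun b => (T b).image (· ++ [b]), ?_, ?_⟩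
    · rw [Finset.card_biUnion]
      · have : ∀ b ∈ Finset.univ.erase (inv a),
            ((T b).image (· ++ [b])).card = (2 * Fintype.card α - 1) ^ k := by
          intro b _
          rw [Finset.card_image_of_injective _ (List.append_left_injective _), hT]
        rw [Finset.sum_congr rfl this, Finset.sum_const, Finset.card_erase_of_mem (by simp)]
        simp [pow_succ, mul_comm]
      · intro b _ c _ hbc
        refine Finset.disjoint_left.2 fun w hw hw' => hbc ?_
        obtain ⟨x, -, rfl⟩ := Finset.mem_image.1 hw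
        obtain ⟨y, -, e⟩ := Finset.mem_image.1 hw'
        have := List.append_inj_right' e rfl
        simpa using this.symm
    · intro w hw
      obtain ⟨b, hb, hw⟩ := Finset.mem_biUnion.1 hw
      obtain ⟨x, hx, rfl⟩ := Finset.mem_image.1 hw
      refine ⟨by simp [(hT' b x hx).1], ?_⟩
      have h2 : IsReduced ([b] ++ [a]) := by
        have hne : b ≠ inv a := Finset.ne_of_mem_erase hb
        simp only [List.cons_append, List.nil_append, isReduced_cons_cons, IsReduced.singleton,
          and_true]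
        intro h1
        by_contra h2
        apply hne
        ext
        · exact h1
        · simp only [inv]
          cases hb2 : b.2 <;> cases ha2 : a.2 <;> simp_all
      exact (hT' b x hx).2.append_overlap h2 (by simp)

lemma exists_enc (k : ℕ) : ∃ e : α × Bool → Fin ((2 * Fintype.card α - 1) ^ k) → List (α × Bool),
    ∀ a, Function.Injective (e a) ∧ ∀ z, (e a z).length = k ∧ IsReduced (e a z ++ [a]) := by
  choose T hT hT' using exists_words (α := α) k
  refine ⟨fun a z => ((T a).equivFinOfCardEq (hT a)).symm z, fun a => ⟨?_, fun z => ?_⟩⟩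
  · exact Subtype.val_injective.comp (Equiv.injective _)
  · exact hT' a _ (Subtype.prop _)

omit [DecidableEq α] [Fintype α] in
lemma pre_eq {l m w : List (α × Bool)} (h1 : l <+: w) (h2 : m <+: w) (h : l.length = m.length) :
    l = m := (List.prefix_of_prefix_length_le h1 h2 h.le).eq_of_length h

omit [Fintype α] in
lemma to_finset {ι : Type} [Fintype ι] (γ : ι → FreeGroup α)
    (h : Function.Injective (FreeGroup.lift γ)) :
    ∃ X : Finset (FreeGroup α), X.card = Fintype.card ι ∧ (∀ g ∈ X, ∃ i, γ i = g) ∧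
      Function.Injective (FreeGroup.lift (Subtype.val : X → FreeGroup α)) := by
  have hγ : Function.Injective γ := by
    intro i j hij
    apply FreeGroup.of_injective
    apply h
    simpa using hij
  refine ⟨Finset.univ.image γ, by rw [Finset.card_image_of_injective _ hγ, Finset.card_univ],
    fun g hg => by simpa using hg, ?_⟩
  let e : ι ≃ (Finset.univ.image γ : Finset (FreeGroup α)) :=
    Equiv.ofBijective (fun i => ⟨γ i, by simp⟩)
      ⟨fun i j hij => hγ (congrArg Subtype.val hij), fun ⟨g, hg⟩ => by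
        obtain ⟨i, -, rfl⟩ := Finset.mem_image.1 hg
        exact ⟨i, rfl⟩⟩
  have : (FreeGroup.lift (Subtype.val : ↥(Finset.univ.image γ) → FreeGroup α)).comp
      (freeGroupCongr e).toMonoidHom = FreeGroup.lift γ := by
    ext i
    simp [e]
  have h2 : Function.Injective
      ((FreeGroup.lift (Subtype.val : ↥(Finset.univ.image γ) → FreeGroup α)) ∘
        (freeGroupCongr e)) := by
    rw [← this] at h
    exact h
  exact (Function.Injective.of_comp_iff' _ (freeGroupCongr e).bijective).1 h2

theorem lower_odd (k : ℕ) : ∃ X : Finset (FreeGroup α),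
    X.card = Fintype.card α * (2 * Fintype.card α - 1) ^ k ∧ (∀ g ∈ X, g.norm = 2 * k + 1) ∧
      Function.Injective (FreeGroup.lift (Subtype.val : X → FreeGroup α)) := by
  obtain ⟨e, he⟩ := exists_enc (α := α) k
  have hp := pingpong (ι := α × Fin ((2 * Fintype.card α - 1) ^ k))
    (fun p => e (p.1, true) p.2) (fun p => e (p.1, false) p.2) (fun p => (p.1, true))
    (fun p => ((he _).2 _).2) (fun p => ((he _).2 _).2) ?_ ?_ ?_
  · obtain ⟨X, h1, h2, h3⟩ := to_finset _ hp
    refine ⟨X, by simpa using h1, fun g hg => ?_, h3⟩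
    obtain ⟨p, rfl⟩ := h2 g hg
    rw [norm_gen ((he _).2 _).2 ((he (p.1, false)).2 _).2, ((he _).2 _).1, ((he _).2 _).1]
    omega
  · rintro ⟨i, z⟩ ⟨j, y⟩ w h1 h2
    have h := pre_eq h1 h2 (by simp [((he _).2 _).1])
    have h3 : i = j := by simpa using List.append_inj_right' h rfl
    subst h3
    exact Prod.ext rfl ((he _).1 (List.append_inj_left' h rfl))
  · rintro ⟨i, z⟩ ⟨j, y⟩ w h1 h2
    have h := pre_eq h1 h2 (by simp [((he _).2 _).1])
    have h3 : i = j := by simpa [inv] using List.append_inj_right' h rfl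
    subst h3
    exact Prod.ext rfl ((he _).1 (List.append_inj_left' h rfl))
  · rintro ⟨i, z⟩ ⟨j, y⟩ w h1 h2
    have h := pre_eq h1 h2 (by simp [((he _).2 _).1])
    simpa [inv] using List.append_inj_right' h rfl

theorem lower_even [Nonempty α] (k : ℕ) : ∃ X : Finset (FreeGroup α),
    X.card = (2 * Fintype.card α - 1) ^ (k + 1) ∧ (∀ g ∈ X, g.norm = 2 * k + 2) ∧
      Function.Injective (FreeGroup.lift (Subtype.val : X → FreeGroup α)) := by
  obtain ⟨e, he⟩ := exists_enc (α := α) k
  obtain ⟨a0⟩ : Nonempty (α × Bool) := inferInstance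
  have hv : ∀ (p : {a : α × Bool // a ≠ a0} × Fin ((2 * Fintype.card α - 1) ^ k)),
      IsReduced (e a0 p.2 ++ [a0] ++ [inv p.1.1]) := by
    intro p
    have h2 : IsReduced ([a0] ++ [inv p.1.1]) := by
      have hne := p.1.2
      simp only [List.cons_append, List.nil_append, isReduced_cons_cons, IsReduced.singleton,
        and_true, inv]
      intro h1
      by_contra h2
      apply hne
      ext
      · exact h1.symm
      · cases hb2 : p.1.1.2 <;> cases ha2 : a0.2 <;> simp_all
    exact ((he _).2 _).2.append_overlap h2 (by simp)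
  have hp := pingpong (ι := {a : α × Bool // a ≠ a0} × Fin ((2 * Fintype.card α - 1) ^ k))
    (fun p => e p.1.1 p.2) (fun p => e a0 p.2 ++ [a0]) (fun p => p.1.1)
    (fun p => ((he _).2 _).2) hv ?_ ?_ ?_
  · obtain ⟨X, h1, h2, h3⟩ := to_finset _ hp
    refine ⟨X, ?_, fun g hg => ?_, h3⟩
    · rw [h1]
      simp [pow_succ, mul_comm]
    obtain ⟨p, rfl⟩ := h2 g hg
    rw [norm_gen ((he _).2 _).2 (hv p), List.length_append, ((he _).2 _).1, ((he _).2 _).1]
    simp only [List.length_singleton]
    omega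
  · rintro ⟨i, z⟩ ⟨j, y⟩ w h1 h2
    have h := pre_eq h1 h2 (by simp [((he _).2 _).1])
    have h3 : i = j := Subtype.ext (by simpa using List.append_inj_right' h rfl)
    subst h3
    exact Prod.ext rfl ((he _).1 (List.append_inj_left' h rfl))
  · rintro ⟨i, z⟩ ⟨j, y⟩ w h1 h2
    have h := pre_eq h1 h2 (by simp [((he _).2 _).1])
    have h4 : inv i.1 = inv j.1 := by simpa using List.append_inj_right' h rfl
    have h3 : i = j := Subtype.ext (by rw [← inv_inv' i.1, h4, inv_inv'])
    subst h3
    exact Prod.ext rfl ((he _).1 (List.append_inj_left' (List.append_inj_left' h rfl) rfl))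
  · rintro ⟨i, z⟩ ⟨j, y⟩ w h1 h2
    have h := pre_eq h1 ((List.prefix_append _ _).trans h2) (by simp [((he _).2 _).1])
    exact i.2 (by simpa using List.append_inj_right' h rfl)

end Lower

section Upper

variable {Q : Type} [MulAction (FreeGroup α) Q] (o : Q)

noncomputable def D (v : Q) : ℕ := sInf {n | ∃ g : FreeGroup α, g • o = v ∧ g.norm = n}

lemma D_le (g : FreeGroup α) : D (α := α) o (g • o) ≤ g.norm := Nat.sInf_le ⟨g, rfl, rfl⟩

variable {o} (hq : ∀ v : Q, ∃ g : FreeGroup α, g • o = v)
include hq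

lemma D_spec (v : Q) : ∃ g : FreeGroup α, g • o = v ∧ g.norm = D (α := α) o v := by
  obtain ⟨g, hg⟩ := hq v
  exact Nat.sInf_mem (s := {n | ∃ g : FreeGroup α, g • o = v ∧ g.norm = n}) ⟨_, g, hg, rfl⟩

lemma D_step (a : α × Bool) (v : Q) : D (α := α) o (mk [a] • v) ≤ D (α := α) o v + 1 := by
  obtain ⟨g, hg, hn⟩ := D_spec hq v
  have h1 := D_le o (mk [a] * g)
  have h2 := FreeGroup.norm_mul_le (mk [a]) g
  have h3 : (mk [a]).norm ≤ 1 := norm_mk_le
  rw [mul_smul, hg] at h1
  omega

lemma D_step' (a : α × Bool) (v : Q) : D (α := α) o v ≤ D (α := α) o (mk [a] • v) + 1 := by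
  have := D_step hq (inv a) (mk [a] • v)
  rwa [mk_inv, inv_smul_smul] at this

lemma D_zero {v : Q} (h : D (α := α) o v = 0) : v = o := by
  obtain ⟨g, hg, hn⟩ := D_spec hq v
  rw [h, FreeGroup.norm_eq_zero] at hn
  rw [← hg, hn, one_smul]

lemma D_succ {v : Q} (h : D (α := α) o v ≠ 0) :
    ∃ a : α × Bool, D (α := α) o ((mk [a])⁻¹ • v) + 1 = D (α := α) o v := by
  obtain ⟨g, hg, hn⟩ := D_spec hq v
  cases hw : g.toWord with
  | nil => rw [FreeGroup.norm, hw] at hn; exact absurd hn.symm h
  | cons a w =>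
    refine ⟨a, ?_⟩
    have e : g = mk [a] * mk w := by
      rw [mul_mk, ← mk_toWord (x := g), hw]; rfl
    have h1 : (mk [a])⁻¹ • v = mk w • o := by rw [← hg, e, mul_smul, inv_smul_smul]
    have h2 := D_le o (mk w)
    have h3 : (mk w).norm ≤ w.length := norm_mk_le
    have h4 := D_step hq a ((mk [a])⁻¹ • v)
    rw [smul_inv_smul] at h4
    rw [FreeGroup.norm, hw, List.length_cons] at hn
    rw [← h1] at h2
    omega

omit hq in
variable (o) in
noncomputable def par [Nonempty α] (v : Q) : α × Bool :=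
  Classical.epsilon fun a : α × Bool => D (α := α) o ((mk [a])⁻¹ • v) + 1 = D (α := α) o v

variable [Nonempty α]

lemma par_spec {v : Q} (h : D (α := α) o v ≠ 0) :
    D (α := α) o ((mk [par (α := α) o v])⁻¹ • v) + 1 = D (α := α) o v :=
  Classical.epsilon_spec (D_succ hq h)

omit hq in
variable (o) in
noncomputable def T : ℕ → Q → FreeGroup α
  | 0, _ => 1
  | n + 1, v => mk [par (α := α) o v] * T n ((mk [par (α := α) o v])⁻¹ • v)

omit hq in
variable (o) in
noncomputable def t (v : Q) : FreeGroup α := T o (D (α := α) o v) v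

lemma T_spec : ∀ (n : ℕ) (v : Q), D (α := α) o v = n → T (α := α) o n v • o = v
  | 0, v, h => by rw [T, one_smul, D_zero hq h]
  | n + 1, v, h => by
    have h1 := par_spec hq (v := v) (by omega)
    rw [T, mul_smul, T_spec n _ (by omega), smul_inv_smul]

lemma t_spec (v : Q) : t (α := α) o v • o = v := T_spec hq _ v rfl

lemma t_succ {v : Q} (h : D (α := α) o v ≠ 0) :
    t (α := α) o v = mk [par (α := α) o v] * t o ((mk [par (α := α) o v])⁻¹ • v) := by
  have h1 := par_spec hq h
  unfold t
  conv_lhs => rw [← h1]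
  rfl

omit hq in
variable (o) in
noncomputable def gam (p : Q × α) : FreeGroup α := (t o ((of p.2 : FreeGroup α) • p.1))⁻¹ * of p.2 * t o p.1

lemma gam_fix (p : Q × α) : gam o p • o = o := by
  unfold gam
  rw [mul_smul, mul_smul, t_spec hq, inv_smul_eq_iff, t_spec hq]

omit hq [Nonempty α] [DecidableEq α] in
def ed (v : Q) (a : α × Bool) : Q × α := if a.2 then (v, a.1) else (mk [a] • v, a.1)

omit hq [Nonempty α] [DecidableEq α] in
lemma ed_cases (v : Q) (a : α × Bool) :
    ((ed v a).1 = v ∧ (of (ed v a).2 : FreeGroup α) = mk [a]) ∨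
    ((ed v a).1 = mk [a] • v ∧ (of (ed v a).2 : FreeGroup α) = (mk [a])⁻¹) := by
  obtain ⟨i, b⟩ := a
  cases b
  · right
    exact ⟨rfl, by rw [← mk_inv]; rfl⟩
  · left
    exact ⟨rfl, rfl⟩

omit hq in
lemma gam_ed (v : Q) (a : α × Bool) :
    (t o (mk [a] • v))⁻¹ * mk [a] * t o v = gam o (ed v a) ∨
    (t o (mk [a] • v))⁻¹ * mk [a] * t o v = (gam o (ed v a))⁻¹ := by
  unfold gam
  rcases ed_cases v a with ⟨h1, h2⟩ | ⟨h1, h2⟩
  · left; rw [h1, h2]
  · right; rw [h1, h2, inv_smul_smul]; group

omit hq [Nonempty α] in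
lemma ed_sum (v : Q) (a : α × Bool) :
    D (α := α) o (ed v a).1 + D (α := α) o ((of (ed v a).2 : FreeGroup α) • (ed v a).1)
      = D (α := α) o v + D (α := α) o (mk [a] • v) := by
  rcases ed_cases v a with ⟨h1, h2⟩ | ⟨h1, h2⟩
  · rw [h1, h2]
  · rw [h1, h2, inv_smul_smul, add_comm]

omit hq in
variable (o) in
noncomputable def tau (v : Q) : Q × α := ed ((mk [par (α := α) o v])⁻¹ • v) (par (α := α) o v)

lemma gam_tau {v : Q} (h : D (α := α) o v ≠ 0) : gam o (tau (α := α) o v) = 1 := by
  have h1 := gam_ed (o := o) ((mk [par (α := α) o v])⁻¹ • v) (par (α := α) o v)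
  rw [smul_inv_smul, mul_assoc, ← t_succ hq h, inv_mul_cancel] at h1
  rcases h1 with h1 | h1
  · exact h1.symm
  · exact inv_eq_one.1 h1.symm

lemma tau_inj {v w : Q} (hv : D (α := α) o v ≠ 0) (hw : D (α := α) o w ≠ 0)
    (h : tau (α := α) o v = tau o w) : v = w := by
  have key : ∀ v : Q, D (α := α) o v ≠ 0 → v = (if D (α := α) o (tau (α := α) o v).1 <
      D (α := α) o ((of (tau (α := α) o v).2 : FreeGroup α) • (tau (α := α) o v).1)
      then (of (tau (α := α) o v).2 : FreeGroup α) • (tau (α := α) o v).1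
      else (tau (α := α) o v).1) := by
    intro v hv
    have h1 := par_spec hq hv
    unfold tau
    rcases ed_cases ((mk [par (α := α) o v])⁻¹ • v) (par (α := α) o v) with ⟨h2, h3⟩ | ⟨h2, h3⟩
    · rw [h2, h3, smul_inv_smul, if_pos (by omega)]
    · rw [h2, h3, smul_inv_smul, if_neg (by omega)]
  rw [key v hv, key w hw, h]

lemma path (n : ℕ) (K : Subgroup (FreeGroup α))
    (hK : ∀ p : Q × α, D (α := α) o p.1 + D (α := α) o ((of p.2 : FreeGroup α) • p.1) + 1 ≤ n →
      gam o p ∈ K) : ∀ (w : List (α × Bool)) (c : ℕ), D (α := α) o (mk w • o) ≤ c →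
      c + w.length ≤ n → (t o (mk w • o))⁻¹ * mk w ∈ K
  | [], c, _, _ => by
    have h0 : D (α := α) o o = 0 := by simpa using D_le (α := α) o 1
    have : (mk [] : FreeGroup α) = 1 := rfl
    rw [this, one_smul, t, h0, T]
    simp
  | a :: w, c, h1, h2 => by
    have e : mk (a :: w) = mk [a] * mk w := by rw [mul_mk]; rfl
    rw [e, mul_smul] at h1 ⊢
    rw [List.length_cons] at h2
    have h3 := D_step' hq a (mk w • o)
    have h4 := (D_le o (mk w)).trans (norm_mk_le (L₁ := w))
    have ih := path n K hK w (c + 1) (by omega) (by omega)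
    have h5 := hK (ed (mk w • o) a) (by rw [ed_sum]; omega)
    have h6 : (t o (mk [a] • mk w • o))⁻¹ * mk [a] * t o (mk w • o) ∈ K := by
      rcases gam_ed (o := o) (mk w • o) a with h | h
      · rw [h]; exact h5
      · rw [h]; exact K.inv_mem h5
    have h7 := K.mul_mem h6 ih
    convert h7 using 1
    group

variable [Fintype α]

omit [Nonempty α] in
lemma lev_finite : ∀ j : ℕ, {v : Q | D (α := α) o v = j}.Finite
  | 0 => (Set.finite_singleton o).subset fun _ hv => D_zero hq hv
  | j + 1 => by
    refine (((lev_finite j).prod (Set.finite_univ (α := α × Bool))).image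
      fun p => mk [p.2] • p.1).subset fun v hv => ?_
    have hv' : D (α := α) o v = j + 1 := hv
    obtain ⟨a, ha⟩ := D_succ hq (v := v) (by omega)
    refine ⟨((mk [a])⁻¹ • v, a), ⟨?_, trivial⟩, smul_inv_smul _ _⟩
    change D (α := α) o _ = j
    simp only
    omega

omit [Nonempty α] in
noncomputable def Lv (j : ℕ) : Finset Q := (lev_finite hq j).toFinset

omit [Nonempty α] in
lemma mem_Lv {j : ℕ} {v : Q} : v ∈ Lv hq j ↔ D (α := α) o v = j := by simp [Lv]

open Classical in
omit [Nonempty α] in
noncomputable def Vle (j : ℕ) : Finset Q := (Finset.range (j + 1)).biUnion (Lv hq)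

omit [Nonempty α] in
lemma mem_Vle {j : ℕ} {v : Q} : v ∈ Vle hq j ↔ D (α := α) o v ≤ j := by
  simp [Vle, mem_Lv]

omit [Nonempty α] in
lemma card_Vle_succ (j : ℕ) : (Vle hq (j + 1)).card = (Vle hq j).card + (Lv hq (j + 1)).card := by
  classical
  rw [← Finset.card_union_of_disjoint]
  · congr 1
    ext v
    simp only [mem_Vle, mem_Lv, Finset.mem_union]
    omega
  · refine Finset.disjoint_left.2 fun v h1 h2 => ?_
    rw [mem_Vle] at h1
    rw [mem_Lv] at h2
    omega

omit [Nonempty α] in
lemma card_Lv_zero : (Lv hq 0).card ≤ 1 :=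
  Finset.card_le_one.2 fun _ ha _ hb =>
    (D_zero hq ((mem_Lv hq).1 ha)).trans (D_zero hq ((mem_Lv hq).1 hb)).symm

omit [Nonempty α] in
noncomputable def Up (j : ℕ) : Finset (Q × (α × Bool)) :=
  (Lv hq j ×ˢ Finset.univ).filter fun p => D (α := α) o (mk [p.2] • p.1) = j + 1

omit [Nonempty α] in
lemma mem_Up {j : ℕ} {p : Q × (α × Bool)} :
    p ∈ Up hq j ↔ D (α := α) o p.1 = j ∧ D (α := α) o (mk [p.2] • p.1) = j + 1 := by
  simp [Up, mem_Lv]

omit [Nonempty α] in
lemma Lv_le_Up (j : ℕ) : (Lv hq (j + 1)).card ≤ (Up hq j).card := by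
  refine Finset.card_le_card_of_surjOn (fun p => mk [p.2] • p.1) fun v hv => ?_
  have hv' := (mem_Lv hq).1 hv
  obtain ⟨a, ha⟩ := D_succ hq (v := v) (by omega)
  refine ⟨((mk [a])⁻¹ • v, a), (mem_Up hq).2 ⟨?_, ?_⟩, smul_inv_smul _ _⟩
  · simp only; omega
  · simp only [smul_inv_smul]; omega

omit [Nonempty α] in
lemma Up_le_Lv (j : ℕ) : (Up hq j).card ≤ (Lv hq (j + 1)).card * (2 * Fintype.card α) := by
  have : (Up hq j).card ≤ (Lv hq (j + 1) ×ˢ (Finset.univ : Finset (α × Bool))).card := by
    refine Finset.card_le_card_of_injOn (fun p => (mk [p.2] • p.1, p.2)) (fun p hp => ?_) ?_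
    · have := (mem_Up hq).1 hp
      simp [mem_Lv, this.2]
    · rintro ⟨v, a⟩ - ⟨w, b⟩ - h
      simp only [Prod.mk.injEq] at h
      obtain ⟨h1, rfl⟩ := h
      rw [smul_left_cancel _ h1]
  simpa [mul_comm] using this

lemma Up_bound : ∀ j : ℕ, (Up hq j).card ≤ 2 * Fintype.card α * (2 * Fintype.card α - 1) ^ j
  | 0 => by
    have h1 : (Up hq 0).card ≤ (Lv hq 0 ×ˢ (Finset.univ : Finset (α × Bool))).card :=
      Finset.card_filter_le _ _
    have h2 := card_Lv_zero hq
    rw [Finset.card_product, Finset.card_univ, Fintype.card_prod, Fintype.card_bool] at h1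
    nlinarith
  | j + 1 => by
    classical
    have h1 : Up hq (j + 1) ⊆ (Lv hq (j + 1)).biUnion fun u =>
        (Finset.univ.erase (inv (par (α := α) o u))).image fun a => (u, a) := by
      rintro ⟨u, a⟩ hp
      obtain ⟨h1, h2⟩ := (mem_Up hq).1 hp
      simp only at h1 h2
      refine Finset.mem_biUnion.2 ⟨u, (mem_Lv hq).2 h1, Finset.mem_image.2 ⟨a, ?_, rfl⟩⟩
      refine Finset.mem_erase.2 ⟨?_, Finset.mem_univ _⟩
      rintro rfl
      have := par_spec hq (v := u) (by omega)
      rw [mk_inv] at h2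
      omega
    have h2 := (Finset.card_le_card h1).trans (Finset.card_biUnion_le_card_mul _ _
      (2 * Fintype.card α - 1) fun u _ => Finset.card_image_le.trans (by
        rw [Finset.card_erase_of_mem (Finset.mem_univ _)]
        simp [mul_comm]))
    have h3 := (Lv_le_Up hq j).trans (Up_bound j)
    calc _ ≤ _ := h2
      _ ≤ 2 * Fintype.card α * (2 * Fintype.card α - 1) ^ j * (2 * Fintype.card α - 1) :=
        Nat.mul_le_mul_right _ h3
      _ = _ := by ring

lemma Vle_bound {s : ℕ} (hs : Fintype.card α = s + 1) :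
    ∀ j : ℕ, s * (Vle hq j).card + 1 ≤ (s + 1) * (2 * s + 1) ^ j
  | 0 => by
    have : (Vle hq 0).card ≤ 1 := by
      refine le_trans (Finset.card_le_card fun v hv => ?_) (card_Lv_zero hq)
      rw [mem_Vle] at hv
      rw [mem_Lv]; omega
    nlinarith
  | j + 1 => by
    have h1 := Vle_bound hs j
    have h2 := (Lv_le_Up hq j).trans (Up_bound hq j)
    rw [hs, show 2 * (s + 1) - 1 = 2 * s + 1 by omega] at h2
    rw [card_Vle_succ, pow_succ]
    nlinarith [Nat.mul_le_mul_left s h2]

omit [Nonempty α] in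
noncomputable def Ed (n : ℕ) : Finset (Q × α) :=
  (Vle hq n ×ˢ Finset.univ).filter fun p =>
    D (α := α) o p.1 + D (α := α) o ((of p.2 : FreeGroup α) • p.1) + 1 ≤ n

omit [Nonempty α] in
lemma mem_Ed {n : ℕ} {p : Q × α} : p ∈ Ed hq n ↔
    D (α := α) o p.1 + D (α := α) o ((of p.2 : FreeGroup α) • p.1) + 1 ≤ n := by
  simp only [Ed, Finset.mem_filter, Finset.mem_product, mem_Vle, Finset.mem_univ, and_true]
  omega

lemma exists_gen (n : ℕ) : ∃ Y : Finset (FreeGroup α), (∀ y ∈ Y, y • o = o) ∧
    (∀ g : FreeGroup α, g • o = o → g.norm ≤ n → g ∈ Subgroup.closure (Y : Set (FreeGroup α))) ∧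
    Y.card + (Vle hq (n / 2)).card ≤ (Ed hq n).card + 1 := by
  classical
  let P := (Vle hq (n / 2)).filter fun v => D (α := α) o v ≠ 0
  refine ⟨(Ed hq n \ P.image (tau o)).image (gam o), ?_, ?_, ?_⟩
  · intro y hy
    obtain ⟨p, -, rfl⟩ := Finset.mem_image.1 hy
    exact gam_fix hq p
  · intro g hg hn
    have h0 : D (α := α) o o = 0 := by simpa using D_le (α := α) o 1
    have := path hq n (Subgroup.closure ((Ed hq n \ P.image (tau o)).image (gam o) :
      Finset (FreeGroup α))) (fun p hp => ?_) g.toWord 0 (by rw [mk_toWord, hg, h0])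
      (by simpa [FreeGroup.norm] using hn)
    · rw [mk_toWord, hg, t, h0, T] at this
      simpa using this
    · by_cases h : p ∈ P.image (tau o)
      · obtain ⟨v, hv, rfl⟩ := Finset.mem_image.1 h
        rw [gam_tau hq (Finset.mem_filter.1 hv).2]
        exact Subgroup.one_mem _
      · exact Subgroup.subset_closure (Finset.mem_coe.2
          (Finset.mem_image_of_mem _ (Finset.mem_sdiff.2 ⟨(mem_Ed hq).2 hp, h⟩)))
  · have h1 : P.image (tau o) ⊆ Ed hq n := by
      intro p hp
      obtain ⟨v, hv, rfl⟩ := Finset.mem_image.1 hp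
      obtain ⟨h1, h2⟩ := Finset.mem_filter.1 hv
      rw [mem_Vle] at h1
      have h3 := par_spec hq h2
      rw [mem_Ed, tau, ed_sum, smul_inv_smul]
      omega
    have h2 : (P.image (tau (α := α) o)).card = P.card :=
      Finset.card_image_of_injOn fun v hv w hw h =>
        tau_inj hq (Finset.mem_filter.1 hv).2 (Finset.mem_filter.1 hw).2 h
    have h3 := Finset.card_sdiff_add_card_eq_card h1
    have h4 : ((Ed hq n \ P.image (tau o)).image (gam o)).card
        ≤ (Ed hq n \ P.image (tau (α := α) o)).card := Finset.card_image_le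
    have h5 : (Vle hq (n / 2)).card ≤ P.card + 1 := by
      have : Vle hq (n / 2) ⊆ P ∪ Lv hq 0 := by
        intro v hv
        by_cases h : D (α := α) o v = 0
        · exact Finset.mem_union_right _ ((mem_Lv hq).2 h)
        · exact Finset.mem_union_left _ (Finset.mem_filter.2 ⟨hv, h⟩)
      have h6 := (Finset.card_le_card this).trans (Finset.card_union_le _ _)
      have h7 := card_Lv_zero hq
      omega
    omega

omit [Nonempty α] in
lemma Ed_odd (k : ℕ) : (Ed hq (2 * k + 1)).card ≤ (Vle hq k).card * Fintype.card α := by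
  have : Ed hq (2 * k + 1) ⊆ Vle hq k ×ˢ Finset.univ := by
    intro p hp
    rw [mem_Ed] at hp
    have h := D_step' hq (p.2, true) p.1
    have e : (mk [(p.2, true)] : FreeGroup α) = of p.2 := rfl
    rw [e] at h
    simp only [Finset.mem_product, mem_Vle, Finset.mem_univ, and_true]
    omega
  simpa using Finset.card_le_card this

omit [Nonempty α] in
lemma Ed_even (k : ℕ) : 2 * (Ed hq (2 * k + 2)).card
    ≤ (Vle hq k).card * (2 * Fintype.card α) + (Up hq k).card := by
  classical
  let f : (Q × α) × Bool → (Q × (α × Bool)) × Bool := fun x =>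
    let v : Q := if x.2 then x.1.1 else (of x.1.2 : FreeGroup α) • x.1.1
    let a : α × Bool := (x.1.2, x.2)
    if D (α := α) o v ≤ k then ((v, a), true) else ((mk [a] • v, inv a), false)
  have h : (Ed hq (2 * k + 2) ×ˢ (Finset.univ : Finset Bool)).card ≤
      (((Vle hq k ×ˢ (Finset.univ : Finset (α × Bool))) ×ˢ ({true} : Finset Bool)) ∪
        (Up hq k ×ˢ ({false} : Finset Bool))).card := by
    refine Finset.card_le_card_of_injOn f ?_ ?_
    · rintro ⟨⟨v, i⟩, b⟩ hx
      have h1 := (mem_Ed hq).1 (Finset.mem_product.1 hx).1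
      simp only at h1
      have h2 := D_step' hq (i, true) v
      have h3 := D_step hq (i, true) v
      have e : (mk [(i, true)] : FreeGroup α) = of i := rfl
      have e' : (mk [(i, false)] : FreeGroup α) = (of i)⁻¹ := mk_inv (i, true)
      rw [e] at h2 h3
      cases b
      · simp only [f, Bool.false_eq_true, if_false]
        split_ifs with hc
        · simp [mem_Vle, hc]
        · simp only [Finset.coe_union, Set.mem_union, Finset.mem_coe, Finset.mem_product, mem_Up,
            mk_inv, inv_smul_smul, e', Finset.mem_singleton, and_true, inv_inv]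
          right; omega
      · simp only [f, if_true]
        split_ifs with hc
        · simp [mem_Vle, hc]
        · simp only [Finset.coe_union, Set.mem_union, Finset.mem_coe, Finset.mem_product, mem_Up,
            mk_inv, inv_smul_smul, e, Finset.mem_singleton, and_true]
          right; omega
    · have g : ∀ x y : (Q × α) × Bool,
          (if x.2 then x.1.1 else (of x.1.2 : FreeGroup α) • x.1.1)
            = (if y.2 then y.1.1 else (of y.1.2 : FreeGroup α) • y.1.1) →
          ((x.1.2, x.2) : α × Bool) = (y.1.2, y.2) → x = y := by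
        rintro ⟨⟨v, i⟩, b⟩ ⟨⟨w, j⟩, c⟩ h1 h2
        simp only [Prod.mk.injEq] at h2
        obtain ⟨rfl, rfl⟩ := h2
        cases b
        · simp only [Bool.false_eq_true, if_false] at h1
          rw [smul_left_cancel _ h1]
        · simp only [if_true] at h1
          rw [h1]
      intro x _ y _ hxy
      simp only [f] at hxy
      by_cases hx : D (α := α) o (if x.2 then x.1.1 else (of x.1.2 : FreeGroup α) • x.1.1) ≤ k <;>
      by_cases hy : D (α := α) o (if y.2 then y.1.1 else (of y.1.2 : FreeGroup α) • y.1.1) ≤ k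
      · rw [if_pos hx, if_pos hy] at hxy
        exact g x y (congrArg (fun z => z.1.1) hxy) (congrArg (fun z => z.1.2) hxy)
      · rw [if_pos hx, if_neg hy] at hxy
        exact absurd (congrArg Prod.snd hxy) (by simp)
      · rw [if_neg hx, if_pos hy] at hxy
        exact absurd (congrArg Prod.snd hxy) (by simp)
      · rw [if_neg hx, if_neg hy] at hxy
        have h1 : inv (x.1.2, x.2) = inv (y.1.2, y.2) := congrArg (fun z => z.1.2) hxy
        have h2 : ((x.1.2, x.2) : α × Bool) = (y.1.2, y.2) := by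
          rw [← inv_inv' (x.1.2, x.2), h1, inv_inv']
        have h3 := congrArg (fun z => z.1.1) hxy
        simp only [h2] at h3
        exact g x y (smul_left_cancel _ h3) h2
  have h2 := h.trans (Finset.card_union_le _ _)
  simp only [Finset.card_product, Finset.card_univ, Fintype.card_bool, Finset.card_singleton,
    Fintype.card_prod, mul_one] at h2
  linarith

end Upper

lemma card_le_gen {G : Type} [Group G] (X Y : Finset G)
    (hX : Function.Injective (FreeGroup.lift (Subtype.val : X → G)))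
    (h1 : ∀ y ∈ Y, y ∈ Subgroup.closure (X : Set G))
    (h2 : ∀ x ∈ X, x ∈ Subgroup.closure (Y : Set G)) : X.card ≤ Y.card := by
  classical
  have hr : (FreeGroup.lift (Subtype.val : X → G)).range = Subgroup.closure (X : Set G) := by
    rw [FreeGroup.range_lift_eq_closure]
    congr 1
    ext x; simp
  have h3 : ∀ y : Y, ∃ w, FreeGroup.lift (Subtype.val : X → G) w = y := by
    intro y
    have := h1 y y.2
    rwa [← hr] at this
  choose p hp using h3
  have h4 : Subgroup.closure (Set.range p) = ⊤ := by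
    rw [eq_top_iff, ← FreeGroup.closure_range_of, Subgroup.closure_le]
    rintro _ ⟨x, rfl⟩
    have a1 : (Subgroup.closure (Set.range p)).map (FreeGroup.lift (Subtype.val : X → G))
        = Subgroup.closure (Y : Set G) := by
      rw [MonoidHom.map_closure]
      congr 1
      ext y
      constructor
      · rintro ⟨_, ⟨y, rfl⟩, rfl⟩
        rw [hp]; exact y.2
      · intro hy
        exact ⟨_, ⟨⟨y, hy⟩, rfl⟩, hp _⟩
    have a2 := h2 x x.2
    rw [← a1] at a2
    obtain ⟨w, hw, e⟩ := a2
    have : w = of x := hX (by rw [e]; simp)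
    exact this ▸ hw
  have h5 : Function.Injective (fun (f : X → Multiplicative (ZMod 2)) (y : Y) =>
      FreeGroup.lift f (p y)) := by
    intro f g hfg
    have : FreeGroup.lift f = FreeGroup.lift g :=
      MonoidHom.eq_of_eqOn_dense h4 (by
        rintro _ ⟨y, rfl⟩
        exact congrFun hfg y)
    exact FreeGroup.lift.injective this
  have h6 := Fintype.card_le_of_injective _ h5
  simp only [Fintype.card_fun, Fintype.card_multiplicative, ZMod.card, Fintype.card_coe] at h6
  exact (Nat.pow_le_pow_iff_right (by norm_num)).1 h6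

theorem upper [Fintype α] [Nonempty α] (n : ℕ) (X : Finset (FreeGroup α))
    (hn : ∀ g ∈ X, g.norm ≤ n)
    (hX : Function.Injective (FreeGroup.lift (Subtype.val : X → FreeGroup α))) :
    (∀ k, n = 2 * k + 1 → X.card ≤ Fintype.card α * (2 * Fintype.card α - 1) ^ k) ∧
    (∀ k, n = 2 * k + 2 → X.card ≤ (2 * Fintype.card α - 1) ^ (k + 1)) := by
  let H := Subgroup.closure (X : Set (FreeGroup α))
  let o : FreeGroup α ⧸ H := ((1 : FreeGroup α) : FreeGroup α ⧸ H)
  have hs : ∀ g : FreeGroup α, g • o = (g : FreeGroup α ⧸ H) := by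
    intro g
    change ((g * 1 : FreeGroup α) : FreeGroup α ⧸ H) = _
    rw [mul_one]
  have hq : ∀ v : FreeGroup α ⧸ H, ∃ g : FreeGroup α, g • o = v := by
    intro v
    obtain ⟨g, rfl⟩ := QuotientGroup.mk_surjective v
    exact ⟨g, hs g⟩
  have hfix : ∀ g : FreeGroup α, g • o = o ↔ g ∈ H := by
    intro g
    rw [hs, QuotientGroup.eq, mul_one, inv_mem_iff]
  obtain ⟨Y, h1, h2, h3⟩ := exists_gen hq n
  have h4 : X.card ≤ Y.card := card_le_gen X Y hX (fun y hy => (hfix y).1 (h1 y hy))
    fun x hx => h2 x ((hfix x).2 (Subgroup.subset_closure hx)) (hn x hx)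
  obtain ⟨s, hs⟩ : ∃ s, Fintype.card α = s + 1 :=
    ⟨Fintype.card α - 1, by have := Fintype.card_pos (α := α); omega⟩
  constructor
  · rintro k rfl
    have a1 := Ed_odd hq k
    have a2 := Vle_bound hq hs k
    rw [show (2 * k + 1) / 2 = k by omega] at h3
    rw [hs] at a1 ⊢
    rw [show 2 * (s + 1) - 1 = 2 * s + 1 by omega]
    nlinarith
  · rintro k rfl
    have a1 := Ed_even hq k
    have a2 := Vle_bound hq hs k
    have a3 := Up_le_Lv hq k
    have a4 := Up_bound hq k
    rw [show (2 * k + 2) / 2 = k + 1 by omega, card_Vle_succ] at h3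
    rw [hs] at a1 a3 a4 ⊢
    rw [show 2 * (s + 1) - 1 = 2 * s + 1 by omega] at a4 ⊢
    rw [pow_succ]
    set A := (Vle hq k).card
    set B := (Lv hq (k + 1)).card
    set e := (Up hq k).card
    set E := (Ed hq (2 * k + 2)).card
    set P := (2 * s + 1) ^ k
    have b1 : 2 * Y.card + 2 * B ≤ 2 * (s * A + 1) + e := by nlinarith
    have b2 : 2 * Y.card + 2 * B ≤ 2 * ((s + 1) * P) + e := by omega
    have b3 : (s + 1) * (2 * Y.card) ≤ (s + 1) * (2 * (P * (2 * s + 1))) := by
      nlinarith [Nat.mul_le_mul_left (s + 1) b2, Nat.mul_le_mul_left s a4]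
    have b4 := Nat.le_of_mul_le_mul_left b3 (by omega)
    omega

end H4FreeBall
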