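import Mathlib

namespace Pool.Agent.H4Free

open FreeGroup

abbrev G := FreeGroup ℕ

def Lo (t : ℕ) : Subgroup G := Subgroup.closure (of '' Set.Iio t)

lemma Lo_mono {s t : ℕ} (h : s ≤ t) : Lo s ≤ Lo t :=
  Subgroup.closure_mono (Set.image_mono (Set.Iio_subset_Iio h))

lemma of_mem {s t : ℕ} (h : s < t) : of s ∈ Lo t := Subgroup.subset_closure ⟨s, h, rfl⟩

lemma exists_Lo (g : G) : ∃ t, g ∈ Lo t := by
  induction g using FreeGroup.induction_on with
  | C1 => exact ⟨0, Subgroup.one_mem _⟩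
  | of s => exact ⟨s + 1, of_mem (Nat.lt_succ_self s)⟩
  | inv_of s h => exact ⟨s + 1, Subgroup.inv_mem _ (of_mem (Nat.lt_succ_self s))⟩
  | mul x y hx hy =>
    obtain ⟨a, ha⟩ := hx
    obtain ⟨b, hb⟩ := hy
    exact ⟨max a b, Subgroup.mul_mem _ (Lo_mono (le_max_left _ _) ha)
      (Lo_mono (le_max_right _ _) hb)⟩

lemma exists_Lo_finset (X : Finset G) : ∃ t, ∀ x ∈ X, x ∈ Lo t := by
  choose f hf using exists_Lo
  exact ⟨X.sup f, fun x hx => Lo_mono (Finset.le_sup hx) (hf x)⟩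

lemma split (z : G) (t : ℕ) : ∃ D : G → Prop, (∀ h ∈ Lo t, ∀ g, D (h * g) ↔ D g) ∧ D 1 ∧
    ¬ (D (of t * z) ↔ D z) ∧ ∀ z' t', (z', t') ≠ (z, t) → (D (of t' * z') ↔ D z') := by
  classical
  let p : ℕ → Equiv.Perm (G × Bool) := fun s =>
    { toFun := fun q => (of s * q.1, if s = t ∧ q.1 = z then !q.2 else q.2)
      invFun := fun q => ((of s)⁻¹ * q.1, if s = t ∧ (of s)⁻¹ * q.1 = z then !q.2 else q.2)
      left_inv := fun q => by
        simp only [inv_mul_cancel_left]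
        split_ifs <;> simp
      right_inv := fun q => by
        simp only [mul_inv_cancel_left]
        split_ifs <;> simp }
  let ρ : G →* Equiv.Perm (G × Bool) := lift p
  have h1 : ∀ g q, (ρ g q).1 = g * q.1 := by
    intro g
    induction g using FreeGroup.induction_on with
    | C1 => simp
    | of s => intro q; simp [ρ, p]
    | inv_of s _ => intro q; simp [ρ, p, Equiv.Perm.inv_def]
    | mul x y hx hy => intro q; simp [hx, hy, mul_assoc]
  have h2 : ∀ s g, (ρ (of s * g) (1, false)).2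
      = if s = t ∧ g = z then !(ρ g (1, false)).2 else (ρ g (1, false)).2 := by
    intro s g
    have := h1 g (1, false)
    rw [mul_one] at this
    rw [MonoidHom.map_mul, Equiv.Perm.mul_apply]
    simp only [ρ, lift_apply_of, p, Equiv.coe_fn_mk]
    simp only [ρ, p] at this
    rw [this]
  have h3 : ∀ z' t', (z', t') ≠ (z, t) →
      (ρ (of t' * z') (1, false)).2 = (ρ z' (1, false)).2 := by
    intro z' t' h
    rw [h2, if_neg fun h' => h (by rw [h'.1, h'.2])]
  refine ⟨fun g => (ρ g (1, false)).2 = false, fun h hh => ?_, by simp, by simp only [h2]; simp,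
    fun z' t' h => by simp only [h3 z' t' h]⟩
  induction hh using Subgroup.closure_induction with
  | mem x hx =>
    obtain ⟨s, hs, rfl⟩ := hx
    intro g
    simp only [h3 g s fun e => (Set.mem_Iio.1 hs).ne (congrArg Prod.snd e)]
  | one => simp
  | mul x y _ _ hx hy => exact fun g => mul_assoc x y g ▸ (hx _).trans (hy g)
  | inv x _ hx => exact fun g => (hx _).symm.trans (by rw [mul_inv_cancel_left])

def W : Fin 7 → ℕ := ![64, 96, 144, 216, 324, 486, 729]

def V (P : Finset (G × Fin 7)) : Prop := ∃ σ : Equiv.Perm (Fin 7), ∑ p ∈ P, W (σ p.2) < 2059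

lemma W_sum (σ : Equiv.Perm (Fin 7)) : ∑ i, W (σ i) = 2059 := by
  rw [Equiv.sum_comp σ W]
  decide

lemma W_cyc : ∀ m j : Fin 7, 2 * W (m.cycleRange j) ≤ 3 * W j ∧ W (m.cycleRange m) = 64 := by
  decide

lemma V_mono {P Q : Finset (G × Fin 7)} (h : P ⊆ Q) (hQ : V Q) : V P := by
  obtain ⟨σ, hσ⟩ := hQ
  exact ⟨σ, (Finset.sum_le_sum_of_subset h).trans_lt hσ⟩

lemma V_add {P : Finset (G × Fin 7)} {σ : Equiv.Perm (Fin 7)}
    (h : 2 * ∑ p ∈ P, W (σ p.2) < 2059) (i : Fin 7) (X : Finset G) (hX : X.card ≤ 7) :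
    V (P ∪ X.image fun x => (x, i)) := by
  refine ⟨σ.trans (σ i).cycleRange, ?_⟩
  have h1 : 2 * ∑ p ∈ P, W ((σ i).cycleRange (σ p.2)) ≤ 3 * ∑ p ∈ P, W (σ p.2) := by
    rw [Finset.mul_sum, Finset.mul_sum]
    exact Finset.sum_le_sum fun p _ => (W_cyc _ _).1
  have h2 : ∑ p ∈ X.image fun x => (x, i), W ((σ i).cycleRange (σ p.2)) ≤ 7 * 64 := by
    rw [Finset.sum_image fun a _ b _ e => congrArg Prod.fst e]
    simp only [(W_cyc (σ i) i).2, Finset.sum_const, smul_eq_mul]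
    omega
  have h3 := Finset.sum_union_inter (s₁ := P) (s₂ := X.image fun x => (x, i))
    (f := fun p => W ((σ i).cycleRange (σ p.2)))
  simp only [Equiv.trans_apply]
  omega

abbrev Dat := (Fin 7 × Finset G × Finset G) ⊕ (G × Fin 7 × Fin 7)

variable (φ : ℕ → Dat)

def Sat (c : G → Fin 7) (e : G × ℕ) : Prop :=
  ∀ i X Y, φ e.2 = Sum.inl (i, X, Y) → X.card ≤ 7 → Y.card ≤ 7 → (∀ x ∈ X, x ∈ Lo e.2) →
    (∀ y ∈ Y, y ∈ Lo e.2) → ∀ x ∈ X, ∀ y ∈ Y, c (y * e.1) ≠ i ∨ c (x⁻¹ * (of e.2 * e.1)) ≠ i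

def Force (c : G → Fin 7) (e : G × ℕ) : Prop :=
  ∀ g i j, φ e.2 = Sum.inr (g, i, j) → g ∈ Lo e.2 →
    (e.1 = 1 → c (of e.2) = i) ∧ (of e.2 * e.1 = g → c e.1 = j)

variable {φ}

open Classical in
lemma comb {D : G → Prop} {t : ℕ} (hD : ∀ h ∈ Lo t, ∀ g, D (h * g) ↔ D g) {e : G × ℕ}
    (h1 : e.2 ≤ t) (h2 : D (of e.2 * e.1) ↔ D e.1) {c0 c1 : G → Fin 7} (s0 : Sat φ c0 e)
    (s1 : Sat φ c1 e) : Sat φ (fun g => if D g then c0 g else c1 g) e := by
  intro i X Y a1 a2 a3 a4 a5 x hx y hy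
  simp only [hD _ (Lo_mono h1 (a5 y hy)), hD _ (Lo_mono h1 (Subgroup.inv_mem _ (a4 x hx))), h2]
  split_ifs
  · exact s0 i X Y a1 a2 a3 a4 a5 x hx y hy
  · exact s1 i X Y a1 a2 a3 a4 a5 x hx y hy

lemma lemA (E : Finset (G × ℕ)) : ∀ P, V P →
    ∃ c : G → Fin 7, (∀ p ∈ P, c p.1 ≠ p.2) ∧ ∀ e ∈ E, Sat φ c e := by
  classical
  induction E using Finset.induction_on_max_value (α := ℕ) (fun e : G × ℕ => e.2) with
  | empty =>
    rintro P ⟨σ, hσ⟩
    have : ∀ g, ∃ i, (g, i) ∉ P := by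
      intro g
      by_contra hn
      push Not at hn
      have h1 : ∑ p ∈ Finset.univ.image fun i => (g, i), W (σ p.2) ≤ ∑ p ∈ P, W (σ p.2) :=
        Finset.sum_le_sum_of_subset fun p hp => by
          obtain ⟨i, -, rfl⟩ := Finset.mem_image.1 hp
          exact hn i
      rw [Finset.sum_image fun a _ b _ e => congrArg Prod.snd e, W_sum] at h1
      omega
    choose c hc using this
    exact ⟨c, fun p hp e => hc p.1 (by rwa [e]), by simp⟩
  | insert a s ha hs ih =>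
    obtain ⟨z, t⟩ := a
    replace hs : ∀ e ∈ s, e.2 ≤ t := hs
    intro P hP
    by_cases hact : ∃ i X Y, φ t = Sum.inl (i, X, Y) ∧ X.card ≤ 7 ∧ Y.card ≤ 7
    swap
    · obtain ⟨c, h1, h2⟩ := ih P hP
      refine ⟨c, h1, fun e he => ?_⟩
      rcases Finset.mem_insert.1 he with rfl | he
      · exact fun i X Y a1 a2 a3 => absurd ⟨i, X, Y, a1, a2, a3⟩ hact
      · exact h2 e he
    obtain ⟨i, X, Y, a1, a2, a3⟩ := hact
    obtain ⟨D0, d1, -, d3, d4⟩ := split z t
    obtain ⟨σ, hσ⟩ := hP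
    obtain ⟨D, d1, d3, d4, d5⟩ : ∃ D : G → Prop, (∀ h ∈ Lo t, ∀ g, D (h * g) ↔ D g) ∧
        ¬ (D (of t * z) ↔ D z) ∧ (∀ z' t', (z', t') ≠ (z, t) → (D (of t' * z') ↔ D z')) ∧
        2 * ∑ p ∈ P with D p.1, W (σ p.2) < 2059 := by
      have := Finset.sum_filter_add_sum_filter_not P (fun p => D0 p.1) fun p => W (σ p.2)
      by_cases h : 2 * ∑ p ∈ P with D0 p.1, W (σ p.2) < 2059
      · exact ⟨D0, d1, d3, d4, h⟩
      · refine ⟨fun g => ¬ D0 g, fun h hh g => not_congr (d1 h hh g), by tauto,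
          fun z' t' h => not_congr (d4 z' t' h), ?_⟩
        have h2 : 2 * ∑ p ∈ P with ¬ D0 p.1, W (σ p.2) < 2059 := by omega
        convert h2
    obtain ⟨c0, p0, s0⟩ := ih _ (V_add d5 i
      (if D z then Y.image (· * z) else X.image fun x => x⁻¹ * (of t * z))
      (by split_ifs <;> exact Finset.card_image_le.trans ‹_›))
    obtain ⟨c1, p1, s1⟩ := ih P ⟨σ, hσ⟩
    refine ⟨fun g => if D g then c0 g else c1 g, fun p hp => ?_, fun e he => ?_⟩
    · beta_reduce
      split_ifs with h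
      · exact p0 p (Finset.mem_union_left _ (Finset.mem_filter.2 ⟨hp, h⟩))
      · exact p1 p hp
    · rcases Finset.mem_insert.1 he with rfl | he
      · intro i' X' Y' b1 _ _ b4 b5 x hx y hy
        obtain ⟨rfl, rfl, rfl⟩ : i = i' ∧ X = X' ∧ Y = Y' := by simpa [a1] using b1
        simp only [d1 _ (b5 y hy), d1 _ (Subgroup.inv_mem _ (b4 x hx))]
        by_cases h : D z
        · left
          rw [if_pos h]
          refine p0 (y * z, i) (Finset.mem_union_right _ (Finset.mem_image.2 ⟨_, ?_, rfl⟩))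
          rw [if_pos h]
          exact Finset.mem_image_of_mem _ hy
        · right
          rw [if_pos (by tauto)]
          refine p0 (x⁻¹ * (of t * z), i)
            (Finset.mem_union_right _ (Finset.mem_image.2 ⟨_, ?_, rfl⟩))
          rw [if_neg h]
          exact Finset.mem_image_of_mem _ hx
      · exact comb d1 (hs e he) (d4 _ _ fun h => ha (h ▸ he)) (s0 e he) (s1 e he)

lemma lemB (E : Finset (G × ℕ)) : ∃ c : G → Fin 7, ∀ e ∈ E, Sat φ c e ∧ Force φ c e := by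
  classical
  induction E using Finset.induction_on_max_value (α := ℕ) (fun e : G × ℕ => e.2) with
  | empty => exact ⟨0, by simp⟩
  | insert a s ha hs ih =>
    obtain ⟨z, t⟩ := a
    replace hs : ∀ e ∈ s, e.2 ≤ t := hs
    obtain ⟨c0, h0⟩ := ih
    obtain ⟨D, d1, d2, d3, d4⟩ := split z t
    have dLo : ∀ h ∈ Lo t, D h := fun h hh => by simpa [d2] using d1 h hh 1
    have key : ∀ P, V P → ∃ c : G → Fin 7, (∀ p ∈ P, ¬ D p.1 → c p.1 ≠ p.2) ∧
        ∀ e ∈ s, Sat φ c e ∧ Force φ c e := by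
      intro P hP
      obtain ⟨c1, p1, s1⟩ := lemA (φ := φ) s P hP
      refine ⟨fun g => if D g then c0 g else c1 g, fun p hp h => by simpa [h] using p1 p hp,
        fun e he => ?_⟩
      have e1 := d4 e.1 e.2 fun h => ha (h ▸ he)
      refine ⟨comb d1 (hs e he) e1 (h0 e he).1 (s1 e he), fun g i j b1 b2 => ?_⟩
      obtain ⟨f1, f2⟩ := (h0 e he).2 g i j b1 b2
      refine ⟨fun h => ?_, fun h => ?_⟩
      · rw [h, mul_one] at e1
        simp only [e1.2 d2, if_true, f1 h]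
      · rw [h] at e1
        simp only [e1.1 (dLo g (Lo_mono (hs e he) b2)), if_true, f2 h]
    have frc : ∀ (q : G) (i : Fin 7), ¬ D q → ∃ c : G → Fin 7, c q = i ∧
        ∀ e ∈ s, Sat φ c e ∧ Force φ c e := by
      intro q i hq
      obtain ⟨c, h1, h2⟩ := key ((Finset.univ.erase i).image fun j => (q, j)) ⟨1, by
        rw [Finset.sum_image fun a _ b _ e => congrArg Prod.snd e]
        exact (by decide : ∀ i : Fin 7, ∑ x ∈ Finset.univ.erase i, W x < 2059) i⟩
      refine ⟨c, ?_, h2⟩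
      by_contra hn
      exact h1 (q, c q) (Finset.mem_image_of_mem _ (by simpa using hn)) hq rfl
    suffices h : ∃ c : G → Fin 7, (Sat φ c (z, t) ∧ Force φ c (z, t)) ∧
        ∀ e ∈ s, Sat φ c e ∧ Force φ c e by
      obtain ⟨c, h1, h2⟩ := h
      exact ⟨c, fun e he => by
        rcases Finset.mem_insert.1 he with rfl | he
        exacts [h1, h2 e he]⟩
    rcases hφ : φ t with ⟨i, X, Y⟩ | ⟨g, i, j⟩
    · by_cases hact : X.card ≤ 7 ∧ Y.card ≤ 7
      swap
      · refine ⟨c0, ⟨fun i' X' Y' b1 b2 b3 => ?_, fun g i j b1 => by simp [hφ] at b1⟩, h0⟩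
        obtain ⟨rfl, rfl, rfl⟩ : i = i' ∧ X = X' ∧ Y = Y' := by simpa [hφ] using b1
        exact absurd ⟨b2, b3⟩ hact
      obtain ⟨c, h1, h2⟩ := key _ (V_add (P := ∅) (σ := 1) (by simp) i
        (if D z then X.image fun x => x⁻¹ * (of t * z) else Y.image (· * z))
        (by split_ifs <;> exact Finset.card_image_le.trans (by tauto)))
      refine ⟨c, ⟨fun i' X' Y' b1 _ _ b4 b5 x hx y hy => ?_, fun g i j b1 => by simp [hφ] at b1⟩, h2⟩
      obtain ⟨rfl, rfl, rfl⟩ : i = i' ∧ X = X' ∧ Y = Y' := by simpa [hφ] using b1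
      by_cases h : D z
      · right
        refine h1 (x⁻¹ * (of t * z), i)
          (Finset.mem_union_right _ (Finset.mem_image.2 ⟨_, ?_, rfl⟩)) ?_
        · rw [if_pos h]
          exact Finset.mem_image_of_mem _ hx
        · rw [d1 _ (Subgroup.inv_mem _ (b4 x hx))]
          tauto
      · left
        refine h1 (y * z, i) (Finset.mem_union_right _ (Finset.mem_image.2 ⟨_, ?_, rfl⟩)) ?_
        · rw [if_neg h]
          exact Finset.mem_image_of_mem _ hy
        · rwa [d1 _ (b5 y hy)]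
    · have hS : ∀ c, Sat φ c (z, t) := fun c i X Y b1 => by simp [hφ] at b1
      have hF : ∀ c : G → Fin 7, (g ∈ Lo t → (z = 1 → c (of t) = i) ∧ (of t * z = g → c z = j)) →
          Force φ c (z, t) := by
        intro c h g' i' j' b1 b2
        obtain ⟨rfl, rfl, rfl⟩ : g = g' ∧ i = i' ∧ j = j' := by simpa [hφ] using b1
        exact h b2
      by_cases hg : g ∈ Lo t
      swap
      · exact ⟨c0, ⟨hS _, hF _ fun h => absurd h hg⟩, h0⟩
      by_cases hz : z = 1
      · subst hz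
        rw [mul_one] at d3
        obtain ⟨c, h1, h2⟩ := frc (of t) i (by tauto)
        refine ⟨c, ⟨hS _, hF _ fun _ => ⟨fun _ => h1, fun h => ?_⟩⟩, h2⟩
        rw [mul_one] at h
        exact absurd (dLo g hg) (h ▸ by tauto)
      by_cases hz' : of t * z = g
      · have := dLo g hg
        obtain ⟨c, h1, h2⟩ := frc z j (by rw [hz'] at d3; tauto)
        exact ⟨c, ⟨hS _, hF _ fun _ => ⟨fun h => absurd h hz, fun _ => h1⟩⟩, h2⟩
      · exact ⟨c0, ⟨hS _, hF _ fun _ => ⟨fun h => absurd h hz, fun h => absurd h hz'⟩⟩, h0⟩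

theorem main : ∃ c : G → Fin 7,
    (∀ i (X Y : Finset G), X.card ≤ 7 → Y.card ≤ 7 → ∃ t, ∀ x ∈ X, ∀ y ∈ Y, ∀ a b,
      c a = i → c b = i → t ≠ x * a * b⁻¹ * y) ∧
    ∀ g i j, ∃ a b, c a = i ∧ c b = j ∧ a * b = g := by
  obtain ⟨f, hf⟩ := exists_surjective_nat Dat
  let φ : ℕ → Dat := fun t => f t.unpair.1
  have hφ : ∀ d N, ∃ t, N ≤ t ∧ φ t = d := by
    intro d N
    obtain ⟨a, rfl⟩ := hf d
    exact ⟨a.pair N, Nat.right_le_pair _ _, by simp [φ]⟩
  have hcl : ∀ (p : G) (S : Set (Fin 7)), IsClosed {c : G → Fin 7 | c p ∈ S} := fun p S =>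
    (isClosed_discrete S).preimage (continuous_apply p)
  obtain ⟨c, -, hc⟩ := isCompact_univ.inter_iInter_nonempty
    (fun e : G × ℕ => {c : G → Fin 7 | Sat φ c e ∧ Force φ c e}) (fun e => by
      refine IsClosed.and ?_ ?_
      · simp only [Sat, Set.ofPred_forall]
        iterate 12 refine isClosed_iInter fun _ => ?_
        exact (hcl _ {_}ᶜ).union (hcl _ {_}ᶜ)
      · simp only [Force, Set.ofPred_forall]
        iterate 5 refine isClosed_iInter fun _ => ?_
        refine IsClosed.and ?_ ?_ <;> simp only [Set.ofPred_forall] <;>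
          exact isClosed_iInter fun _ => hcl _ {_})
    (fun u => by
      obtain ⟨c, hc⟩ := lemB (φ := φ) u
      exact ⟨c, trivial, Set.mem_iInter₂.2 hc⟩)
  simp only [Set.mem_iInter, Set.mem_ofPred_eq] at hc
  refine ⟨c, fun i X Y hX hY => ?_, fun g i j => ?_⟩
  · classical
    obtain ⟨N, hN⟩ := exists_Lo_finset (X ∪ Y)
    obtain ⟨t, h1, h2⟩ := hφ (Sum.inl (i, X, Y)) N
    refine ⟨of t, fun x hx y hy a b ha hb e => ?_⟩
    have := (hc (y⁻¹ * b, t)).1 i X Y h2 hX hY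
      (fun x hx => Lo_mono h1 (hN x (Finset.mem_union_left _ hx)))
      (fun y hy => Lo_mono h1 (hN y (Finset.mem_union_right _ hy))) x hx y hy
    simp only [e] at this
    simp [mul_assoc, ha, hb] at this
  · obtain ⟨N, hN⟩ := exists_Lo g
    obtain ⟨t, h1, h2⟩ := hφ (Sum.inr (g, i, j)) N
    exact ⟨of t, (of t)⁻¹ * g, ((hc (1, t)).2 g i j h2 (Lo_mono h1 hN)).1 rfl,
      ((hc ((of t)⁻¹ * g, t)).2 g i j h2 (Lo_mono h1 hN)).2 (by simp), by simp⟩

end Pool.Agent.H4Free
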