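import Mathlib

/-! Order-theoretic tools for total termination: a well-order of type omega-one and the
common block refinement of two countable well-orders. -/

namespace Pool.Agent.Lib.helper4.TotOrd

open Set

/-- A well-order of type omega-one. -/
abbrev Om : Type := (Cardinal.aleph 1).ord.ToType

theorem Iio_count (x : Om) : (Iio x).Countable := by
  have h := Cardinal.mk_Iio_toType_ord_lt x
  exact (Cardinal.countable_iff_lt_aleph_one _).mpr h

theorem Iic_count (x : Om) : (Iic x).Countable := by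
  rw [← Set.Iio_insert]
  exact (Iio_count x).insert x

theorem om_unc : ¬ (univ : Set Om).Countable := by
  rw [← Cardinal.le_aleph0_iff_set_countable, Cardinal.mk_univ, Cardinal.mk_ord_toType]
  exact not_le.mpr Cardinal.aleph0_lt_aleph_one

theorem exists_ub (s : Set Om) (hs : s.Countable) : ∃ y, ∀ x ∈ s, x < y := by
  by_contra h
  push Not at h
  apply om_unc
  refine (hs.biUnion (fun x _ => Iic_count x)).mono ?_
  intro y _
  obtain ⟨x, hx, hy⟩ := h y
  exact mem_biUnion hx hy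

instance : Nonempty Om := by
  obtain ⟨y, _⟩ := exists_ub ∅ countable_empty
  exact ⟨y⟩

theorem rec_exists {N : Type} (r : N → N → Prop) (wf : WellFounded r)
    (hc : ∀ m, {m' | r m' m}.Countable) (H : Om → Om) :
    ∃ S : N → Om, ∀ m m', r m' m → H (S m') < S m := by
  classical
  have hub : ∀ s : Set Om, ∃ y, s.Countable → ∀ x ∈ s, x < y := by
    intro s
    by_cases hs : s.Countable
    · obtain ⟨y, hy⟩ := exists_ub s hs
      exact ⟨y, fun _ => hy⟩
    · exact ⟨Classical.arbitrary _, fun h => absurd h hs⟩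
  choose ub hub using hub
  let S : N → Om := wf.fix (fun m IH => ub (range fun x : {m' // r m' m} => H (IH x.1 x.2)))
  refine ⟨S, fun m m' h => ?_⟩
  have e : S m = ub (range fun x : {m' // r m' m} => H (S x.1)) := by
    show wf.fix _ m = _
    rw [WellFounded.fix_eq]
  rw [e]
  have : Countable {m' // r m' m} := (hc m).to_subtype
  exact hub _ (countable_range _) _ ⟨⟨m', h⟩, rfl⟩

theorem exists_P (n : ℕ) : ∃ P : Om × (Fin n → Om) → Om, StrictMono P := by
  obtain ⟨S, hS⟩ := rec_exists (N := Om × (Fin n → Om)) (· < ·) wellFounded_lt (fun m => by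
    refine ((Iic_count m.1).prod (Set.countable_univ_pi (fun i => Iic_count (m.2 i)))).mono ?_
    intro m' h
    have h' : m' ≤ m := le_of_lt h
    exact ⟨h'.1, fun i _ => h'.2 i⟩) id
  exact ⟨S, fun a b h => hS b a h⟩

theorem exists_lev (B : Type) [LinearOrder B] [Countable B] [Nonempty B] [NoMaxOrder B] :
    ∃ lev : B → ℕ, Monotone lev ∧ ∀ N, ∃ z, N < lev z := by
  classical
  obtain ⟨e, he⟩ := exists_surjective_nat B
  have hex : ∀ z, ∃ n, z ≤ e n := fun z => by
    obtain ⟨n, hn⟩ := he z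
    exact ⟨n, hn.ge⟩
  refine ⟨fun z => Nat.find (hex z), fun a b hab => ?_, fun N => ?_⟩
  · exact Nat.find_min' _ (hab.trans (Nat.find_spec (hex b)))
  · obtain ⟨y, hy⟩ := ((Set.finite_Iic N).image e).bddAbove
    obtain ⟨z, hz⟩ := exists_gt y
    refine ⟨z, ?_⟩
    by_contra h
    have h1 : Nat.find (hex z) ≤ N := not_lt.mp h
    have h2 : e (Nat.find (hex z)) ≤ y := hy ⟨_, h1, rfl⟩
    exact absurd ((Nat.find_spec (hex z)).trans h2) (not_le.mpr hz)

/-- Block data: a monotone projection with enough room in every block. -/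
def Blocks (B W : Type) [LinearOrder B] [LinearOrder W] : Prop :=
  ∃ (π : W → B) (g : B → (n : ℕ) → (Fin n → W) → W), Monotone π ∧
    (∀ z n w, (∀ j, π (w j) < z) → π (g z n w) = z) ∧
    (∀ z n w w', (∀ j, π (w j) < z) → (∀ j, π (w' j) < z) → w < w' → g z n w < g z n w')

theorem blocks_of (B M : Type) [LinearOrder B] [WellFoundedLT B] [LinearOrder M]
    (P : (n : ℕ) → Om × (Fin n → Om) → Om) (hP : ∀ n, StrictMono (P n)) (H : Om → Om)
    (hH : ∀ s n w, (∀ j, w j < s) → P n (s, w) < H s)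
    (S : M → Om) (hS : ∀ m m', m' < m → H (S m') < S m)
    (ι : B → M) (hι : StrictMono ι) (hcof : ∀ m, ∃ z, m < ι z)
    (hne : Nonempty {w : Om // ∃ m, w < H (S m)}) :
    Blocks B {w : Om // ∃ m, w < H (S m)} := by
  classical
  have hle : ∀ n s w, s ≤ P n (s, w) := fun n s w => by
    have : StrictMono (fun s => P n (s, w)) := fun a b h =>
      hP n (Prod.mk_lt_mk_iff_left.mpr h)
    exact this.le_apply
  have hSH : ∀ s, s < H s := fun s =>
    (hle 0 s (fun j => j.elim0)).trans_lt (hH s 0 _ (fun j => j.elim0))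
  have hex : ∀ w : {w : Om // ∃ m, w < H (S m)}, {z : B | w.1 < H (S (ι z))}.Nonempty := by
    rintro ⟨w, m, hm⟩
    obtain ⟨z, hz⟩ := hcof m
    exact ⟨z, hm.trans ((hS _ _ hz).trans (hSH _))⟩
  let π : {w : Om // ∃ m, w < H (S m)} → B := fun w => wellFounded_lt.min _ (hex w)
  have hπ1 : ∀ w, w.1 < H (S (ι (π w))) := fun w => wellFounded_lt.min_mem _ (hex w)
  have hπ2 : ∀ w z, w.1 < H (S (ι z)) → π w ≤ z := fun w z h =>
    not_lt.mp (wellFounded_lt.not_lt_min {z : B | w.1 < H (S (ι z))} h)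
  let g : B → (n : ℕ) → (Fin n → {w : Om // ∃ m, w < H (S m)}) → {w : Om // ∃ m, w < H (S m)} :=
    fun z n w => if h : P n (S (ι z), fun j => (w j).1) < H (S (ι z)) then
      ⟨P n (S (ι z), fun j => (w j).1), ι z, h⟩ else Classical.choice hne
  have hlt : ∀ z n (w : Fin n → {w : Om // ∃ m, w < H (S m)}), (∀ j, π (w j) < z) →
      P n (S (ι z), fun j => (w j).1) < H (S (ι z)) := fun z n w h =>
    hH _ _ _ (fun j => (hπ1 (w j)).trans (hS _ _ (hι (h j))))
  have hg : ∀ z n (w : Fin n → {w : Om // ∃ m, w < H (S m)}), (∀ j, π (w j) < z) →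
      (g z n w).1 = P n (S (ι z), fun j => (w j).1) := fun z n w h => by
    simp only [g, dif_pos (hlt z n w h)]
  refine ⟨π, g, fun a b hab => hπ2 _ _ (lt_of_le_of_lt hab (hπ1 b)), fun z n w h => ?_,
    fun z n w w' h h' hw => ?_⟩
  · apply le_antisymm
    · apply hπ2
      rw [hg z n w h]
      exact hlt z n w h
    · by_contra hc
      have h1 := hS _ _ (hι (not_le.mp hc))
      have h2 := hπ1 (g z n w)
      rw [hg z n w h] at h2
      exact absurd (h2.trans h1) (not_lt.mpr (hle _ _ _))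
  · show (g z n w).1 < (g z n w').1
    rw [hg z n w h, hg z n w' h']
    apply hP n
    rw [Prod.mk_lt_mk_iff_right]
    refine lt_of_le_of_ne (fun j => hw.le j) (fun e => hw.ne ?_)
    funext j
    exact Subtype.ext (congrFun e j)

theorem common (B₁ B₂ : Type) [LinearOrder B₁] [WellFoundedLT B₁] [Countable B₁] [Nonempty B₁]
    [NoMaxOrder B₁] [LinearOrder B₂] [WellFoundedLT B₂] [Countable B₂] [Nonempty B₂]
    [NoMaxOrder B₂] :
    ∃ (W : Type) (_ : LinearOrder W) (_ : WellFoundedLT W) (_ : Nonempty W),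
      Blocks B₁ W ∧ Blocks B₂ W := by
  classical
  choose P hP using exists_P
  have hHex : ∀ s : Om, ∃ t, ∀ n (w : Fin n → Om), (∀ j, w j < s) → P n (s, w) < t := by
    intro s
    obtain ⟨t, ht⟩ := exists_ub (⋃ n, (fun w => P n (s, w)) '' (Set.univ.pi fun _ => Iio s))
      (countable_iUnion fun n => (Set.countable_univ_pi (fun _ => Iio_count s)).image _)
    exact ⟨t, fun n w h => ht _ (mem_iUnion.mpr ⟨n, w, fun j _ => h j, rfl⟩)⟩
  choose H hH using hHex
  obtain ⟨l₁, hl₁, hu₁⟩ := exists_lev B₁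
  obtain ⟨l₂, hl₂, hu₂⟩ := exists_lev B₂
  have : WellFoundedLT (B₁ ⊕ₗ B₂) := ⟨Sum.lex_wf wellFounded_lt wellFounded_lt⟩
  have : Countable (B₁ ⊕ₗ B₂) := inferInstanceAs (Countable (B₁ ⊕ B₂))
  have : Countable (ℕ ×ₗ (B₁ ⊕ₗ B₂)) := inferInstanceAs (Countable (ℕ × (B₁ ⊕ₗ B₂)))
  obtain ⟨S, hS⟩ := rec_exists (N := ℕ ×ₗ (B₁ ⊕ₗ B₂)) (· < ·) wellFounded_lt
    (fun m => Set.to_countable _) H
  have hne : Nonempty {w : Om // ∃ m, w < H (S m)} := by
    obtain ⟨z⟩ := ‹Nonempty B₁›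
    let m : ℕ ×ₗ (B₁ ⊕ₗ B₂) := toLex (0, toLex (Sum.inl z))
    refine ⟨⟨P 0 (S m, fun j => j.elim0), m, hH _ _ _ (fun j => j.elim0)⟩⟩
  refine ⟨{w : Om // ∃ m, w < H (S m)}, inferInstance, inferInstance, hne, ?_, ?_⟩
  · refine blocks_of B₁ _ P hP H hH S hS (fun z => toLex (l₁ z, toLex (Sum.inl z))) ?_ ?_ hne
    · intro a b hab
      rw [Prod.Lex.toLex_lt_toLex]
      rcases (hl₁ hab.le).lt_or_eq with h | h
      · exact Or.inl h
      · exact Or.inr ⟨h, Sum.Lex.inl_lt_inl_iff.mpr hab⟩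
    · intro m
      obtain ⟨z, hz⟩ := hu₁ (ofLex m).1
      exact ⟨z, Prod.Lex.left _ _ hz⟩
  · refine blocks_of B₂ _ P hP H hH S hS (fun z => toLex (l₂ z, toLex (Sum.inr z))) ?_ ?_ hne
    · intro a b hab
      rw [Prod.Lex.toLex_lt_toLex]
      rcases (hl₂ hab.le).lt_or_eq with h | h
      · exact Or.inl h
      · exact Or.inr ⟨h, Sum.Lex.inr_lt_inr_iff.mpr hab⟩
    · intro m
      obtain ⟨z, hz⟩ := hu₂ (ofLex m).1
      exact ⟨z, Prod.Lex.left _ _ hz⟩

/-- The omega-one model data for the second system of the counterexample. -/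
theorem exists_G : ∃ G : Om → Om → Om, (∀ ξ, StrictMono (G ξ)) ∧
    ∀ (η : Om) (s : ℕ ↪ Om), ∃ h : ℕ → Om × Om → Om, (∀ k, StrictMono (h k)) ∧
      ∀ k x, h (k + 1) (x, G η x) < h k (s k, G (s k) x) := by
  classical
  obtain ⟨ι, hι⟩ := rec_exists (N := Om ×ₗ ℕ) (· < ·) wellFounded_lt (fun m => by
    have : ((Iic (ofLex m).1) ×ˢ (univ : Set ℕ)).Countable :=
      (Iic_count _).prod countable_univ
    refine (this.image toLex).mono ?_
    intro m' h
    have h' : m' ≤ m := le_of_lt h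
    exact ⟨ofLex m', ⟨Prod.Lex.monotone_fst m' m h', trivial⟩, rfl⟩) id
  have hι' : StrictMono ι := fun a b h => hι b a h
  have he : ∀ x : Om, ∃ e : Om → ℕ, InjOn e (Iic x) := fun x =>
    Set.countable_iff_exists_injOn.mp (Iic_count x)
  choose e he using he
  let G : Om → Om → Om := fun ξ x => ι (toLex (x, e x ξ))
  have hG : ∀ ξ, StrictMono (G ξ) := fun ξ a b h => hι' (Prod.Lex.left _ _ h)
  refine ⟨G, hG, fun η s => ?_⟩
  have hex : ∀ v : Om, {x : Om | ∃ m, v ≤ ι (toLex (x, m))}.Nonempty := fun v =>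
    ⟨v, e v η, (hG η).le_apply⟩
  let b : Om → Om := fun v => wellFounded_lt.min _ (hex v)
  have hb1 : ∀ v, ∃ m, v ≤ ι (toLex (b v, m)) := fun v => wellFounded_lt.min_mem _ (hex v)
  have hb2 : ∀ v x m, v ≤ ι (toLex (x, m)) → b v ≤ x := fun v x m h =>
    not_lt.mp (wellFounded_lt.not_lt_min {x : Om | ∃ m, v ≤ ι (toLex (x, m))} ⟨m, h⟩)
  have hbm : Monotone b := fun v v' h => by
    obtain ⟨m, hm⟩ := hb1 v'
    exact hb2 _ _ m (h.trans hm)
  have hbG : ∀ ξ x, b (G ξ x) = x := fun ξ x => by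
    apply le_antisymm (hb2 _ _ _ le_rfl)
    obtain ⟨m, hm⟩ := hb1 (G ξ x)
    exact Prod.Lex.monotone_fst _ _ (hι'.le_iff_le.mp hm)
  have hK : ∀ x : Om, ∃ K : ℕ, ∀ k, s k ≤ x → G (s k) x ≤ G η x → k < K := by
    intro x
    have hf : {k : ℕ | s k ≤ x ∧ e x (s k) ≤ e x η}.Finite := by
      refine Set.Finite.of_finite_image (f := fun k => e x (s k))
        ((Set.finite_Iic (e x η)).subset ?_) ?_
      · rintro _ ⟨k, hk, rfl⟩
        exact hk.2
      · intro k hk k' hk' h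
        exact s.injective (he x hk.1 hk'.1 h)
    obtain ⟨K, hK⟩ := hf.bddAbove
    refine ⟨K + 1, fun k h1 h2 => Nat.lt_succ_of_le (hK ⟨h1, ?_⟩)⟩
    have h3 := hι'.le_iff_le.mp h2
    rw [Prod.Lex.toLex_le_toLex] at h3
    rcases h3 with h3 | h3
    · exact absurd h3 (lt_irrefl _)
    · exact h3.2
  choose K hK using hK
  let r : ℕ × Om × Om → ℕ × Om × Om → Prop := fun p q =>
    (p.1 = q.1 ∧ p.2 < q.2) ∨ ∃ x, p = (q.1 + 1, x, G η x) ∧ q.2 = (s q.1, G (s q.1) x)
  let μ : ℕ × Om × Om → ℕ := fun p =>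
    if s p.1 ≤ p.2.1 ∧ G (s p.1) (b p.2.2) ≤ p.2.2 then 1 + (K (b p.2.2) - p.1) else 0
  have wf : WellFounded r := by
    have w0 : WellFounded (Prod.Lex (fun a b : Om => a < b)
        (Prod.Lex (fun a b : ℕ => a < b) (fun a b : Om × Om => a < b))) :=
      WellFounded.prod_lex wellFounded_lt (WellFounded.prod_lex wellFounded_lt wellFounded_lt)
    refine Subrelation.wf (r := InvImage _ (fun p => (b p.2.2, μ p, p.2))) ?_ (InvImage.wf _ w0)
    rintro ⟨k, u, v⟩ ⟨k', u', v'⟩ h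
    rcases h with ⟨h1, h2⟩ | ⟨x, h1, h2⟩
    · simp only at h1 h2
      subst h1
      have h3 : u ≤ u' := h2.le.1
      have h4 : v ≤ v' := h2.le.2
      rcases (hbm h4).lt_or_eq with h5 | h5
      · exact Prod.Lex.left _ _ h5
      · show Prod.Lex _ _ (b v, μ (k, u, v), (u, v)) (b v', μ (k, u', v'), (u', v'))
        rw [h5]
        apply Prod.Lex.right
        have h6 : μ (k, u, v) ≤ μ (k, u', v') := by
          simp only [μ]
          rw [h5]
          by_cases hc : s k ≤ u ∧ G (s k) (b v') ≤ v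
          · rw [if_pos hc, if_pos ⟨hc.1.trans h3, hc.2.trans h4⟩]
          · rw [if_neg hc]
            exact Nat.zero_le _
        rcases h6.lt_or_eq with h7 | h7
        · exact Prod.Lex.left _ _ h7
        · rw [h7]
          exact Prod.Lex.right _ h2
    · simp only [Prod.mk.injEq] at h1 h2
      obtain ⟨rfl, rfl, rfl⟩ := h1
      obtain ⟨rfl, rfl⟩ := h2
      show Prod.Lex _ _ (b (G η u), μ (k' + 1, u, G η u), (u, G η u))
        (b (G (s k') u), μ (k', s k', G (s k') u), (s k', G (s k') u))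
      rw [hbG, hbG]
      apply Prod.Lex.right
      apply Prod.Lex.left
      simp only [μ, hbG]
      rw [if_pos (⟨le_rfl, le_rfl⟩ : s k' ≤ s k' ∧ G (s k') u ≤ G (s k') u)]
      split_ifs with hc
      · have := hK u (k' + 1) hc.1 hc.2
        omega
      · omega
  obtain ⟨S, hS⟩ := rec_exists r wf (fun q => by
    have c1 : (({q.1} : Set ℕ) ×ˢ (Iic q.2.1 ×ˢ Iic q.2.2)).Countable :=
      (countable_singleton _).prod ((Iic_count _).prod (Iic_count _))
    have c2 : ((fun x => (q.1 + 1, x, G η x)) '' Iic q.2.2).Countable := (Iic_count _).image _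
    refine (c1.union c2).mono ?_
    rintro p (⟨h1, h2⟩ | ⟨x, h1, h2⟩)
    · exact Or.inl ⟨h1, h2.le.1, h2.le.2⟩
    · refine Or.inr ⟨x, ?_, h1.symm⟩
      rw [h2]
      exact (hG _).le_apply) id
  refine ⟨fun k p => S (k, p), fun k p q h => hS _ _ (Or.inl ⟨rfl, h⟩), fun k x => ?_⟩
  exact hS (k, s k, G (s k) x) (k + 1, x, G η x) (Or.inr ⟨x, rfl, rfl⟩)

end Pool.Agent.Lib.helper4.TotOrd
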