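import Mathlib
import Pool.Agent.Lib.helper4.TotOrd

/-! The neighbourhood filter of a free topological group over an omega-narrow uniform space. -/

namespace Pool.Agent.Lib.helper4.FreeTukey

open Set Filter Topology Uniformity
open Pool.Agent.Lib.helper4.TotOrd

/-- `P ≤_T Q`: some map `Q → P` sends cofinal sets to cofinal sets. -/
def TukeyLE (P Q : Type) [Preorder P] [Preorder Q] : Prop :=
  ∃ ψ : Q → P, ∀ C : Set Q, IsCofinal C → IsCofinal (ψ '' C)

/-- An `ω`-narrow uniform space. -/
def Narrow (X : Type) [UniformSpace X] : Prop :=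
  ∀ U ∈ 𝓤 X, ∃ A : Set X, A.Countable ∧ ∀ y, ∃ a ∈ A, (a, y) ∈ U

/-- Group topologies on the free group for which the canonical map of `X` is uniformly continuous
for the two-sided uniformity: both `x⁻¹ y` and `x y⁻¹` tend to `1` along the entourage filter. -/
def Adm (X : Type) [UniformSpace X] (t : TopologicalSpace (FreeGroup X)) : Prop :=
  @IsTopologicalGroup _ t _ ∧
    Tendsto (fun p : X × X => (FreeGroup.of p.1)⁻¹ * FreeGroup.of p.2) (𝓤 X) (@nhds _ t 1) ∧
    Tendsto (fun p : X × X => FreeGroup.of p.1 * (FreeGroup.of p.2)⁻¹) (𝓤 X) (@nhds _ t 1)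

theorem main : ∃ (X : Type) (_ : UniformSpace X), T2Space X ∧ Narrow X ∧
    ∃ t : TopologicalSpace (FreeGroup X), (Adm X t ∧ ∀ t', Adm X t' → t ≤ t') ∧
      ¬ TukeyLE (@nhds _ t 1).setsᵒᵈ ((ℕ → ℕ) × (ℕ → (𝓤 X).setsᵒᵈ)) := by
  classical
  have comb : ∀ (G : (Om → ℕ) → ℕ → ℕ) (Γ : (Om → ℕ) → Om), (∀ g γ α, ∃ M, ∀ f : Om → ℕ,
      (Function.support f).Countable → G f ≤ g → Γ f ≤ γ → f α ≤ M) → False := fun G Γ H => by
    let A : (Σ n, (Fin n → ℕ) × ℕ) → Set Om := fun s => {α | ∀ f : Om → ℕ,
      (Function.support f).Countable → (∀ i : Fin s.1, G f i ≤ s.2.1 i) → f α ≤ s.2.2}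
    have h1 : ∀ (g : ℕ → ℕ) α, ∃ n M, α ∈ A ⟨n, fun i => g i, M⟩ := fun g α => by
      by_contra h
      simp only [A, not_exists, mem_ofPred_eq, not_forall, not_le] at h
      choose f a b c using fun n => h n n
      obtain ⟨γ, hγ⟩ := exists_ub _ (countable_range fun n => Γ (f n))
      obtain ⟨M, hM⟩ := H (fun i => max (g i) ((Finset.range (i + 1)).sup fun n => G (f n) i)) γ α
      refine (c M).not_ge (hM _ (a M) (fun i => ?_) (hγ _ ⟨M, rfl⟩).le)
      rcases lt_or_ge i M with e | e
      · exact (b M ⟨i, e⟩).trans (le_max_left _ _)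
      · exact (Finset.le_sup (f := fun n => G (f n) i)
          (Finset.mem_range.2 (Nat.lt_succ_of_le e))).trans (le_max_right _ _)
    obtain ⟨e, he⟩ := exists_surjective_nat (Σ n, (Fin n → ℕ) × ℕ)
    have : ∀ k x, ∃ y, x < y ∧ (¬ (A (e k)).Countable → y ∈ A (e k)) := fun k x => by
      by_contra h
      push Not at h
      obtain ⟨y, hy⟩ := exists_ub {x} (countable_singleton x)
      exact (h y (hy x rfl)).1 ((Iic_count x).mono fun z hz => not_lt.1 fun c => (h z c).2 hz)
    choose nx n1 n2 using this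
    let a : ℕ → Om := fun k => Nat.rec (nx 0 (Classical.arbitrary _)) (fun k y => nx (k + 1) y) k
    have m : StrictMono a := strictMono_nat_of_lt_succ fun k => n1 _ _
    let f : Om → ℕ := Function.extend a (fun k => (e k).2.2 + 1) 0
    obtain ⟨n, M, h⟩ : ∃ n M, ¬ (A ⟨n, fun i => G f i, M⟩).Countable := by
      by_contra h
      push Not at h
      exact om_unc ((countable_iUnion fun n => countable_iUnion (h n)).mono fun α _ => by
        simpa using h1 (G f) α)
    obtain ⟨k, hk⟩ := he ⟨n, fun i => G f i, M⟩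
    have : a k ∈ A (e k) := by cases k <;> exact n2 _ _ (hk ▸ h)
    have := this f ((countable_range a).mono fun x hx => by_contra fun c =>
      hx (Function.extend_apply' _ _ _ c)) (by rw [hk]; exact fun _ => le_rfl)
    simp [f, m.injective.extend_apply] at this
  let c : ℕ × Om → ℕ ⊕ Om → ℕ ⊕ Om := fun p => Sum.map (min p.1) (min p.2)
  let E : ℕ × Om → Set ((ℕ ⊕ Om) × (ℕ ⊕ Om)) := fun p => {z | c p z.1 = c p z.2}
  have anti : Antitone E := fun p q h z hz => by
    have : ∀ x, c p x = c p (c q x) := by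
      rintro (x | x) <;> simp [c, ← min_assoc, h.1, h.2]
    exact (this _).trans ((congrArg _ hz).trans (this _).symm)
  let u : UniformSpace (ℕ ⊕ Om) := ⨅ p, UniformSpace.comap (c p) ⊥
  have hb : (@uniformity _ u).HasBasis (fun _ => True) E := by
    have := hasBasis_iInf_principal (anti.directed_ge)
    convert this
    rw [iInf_uniformity]
    refine iInf_congr fun p => ?_
    rw [uniformity_comap, bot_uniformity, comap_principal]
    rfl
  let t := sInf {t | @Adm _ u t}
  have ht : @Adm _ u t := ⟨topologicalGroup_sInf fun _ h => h.1, by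
    simp only [t, nhds_sInf, tendsto_iInf]
    exact ⟨fun _ h => h.2.1, fun _ h => h.2.2⟩⟩
  refine ⟨ℕ ⊕ Om, u, ?_, fun U hU => ?_, t, ⟨ht, fun _ h => sInf_le h⟩, fun ⟨ψ, hψ⟩ => ?_⟩
  · have : @T0Space _ u.toTopologicalSpace := (@t0Space_iff_inseparable _ (_)).2 fun x y h => by
      have := (@Filter.HasBasis.inseparable_iff_uniformity _ u _ _ _ hb _ _).1 h
      rcases x with x | x <;> rcases y with y | y
      · simpa [E, c] using this (max x y, Classical.arbitrary _) trivial
      · simpa [E, c] using this (0, y) trivial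
      · simpa [E, c] using this (0, x) trivial
      · simpa [E, c] using this (0, max x y) trivial
    exact @T25Space.t2Space _ (_) (@T3Space.t25Space _ (_) (@instT3Space _ (_) this
      (@UniformSpace.to_regularSpace _ u)))
  · obtain ⟨p, -, hp⟩ := hb.mem_iff.1 hU
    refine ⟨range Sum.inl ∪ Sum.inr '' Iic p.2, (countable_range _).union ((Iic_count _).image _),
      fun y => ⟨c p y, ?_, hp ?_⟩⟩
    · rcases y with y | y
      exacts [Or.inl ⟨_, rfl⟩, Or.inr ⟨_, min_le_left p.2 y, rfl⟩]
    · rcases y with y | y <;> simp [E, c]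
  have key : ∀ f : Om → ℕ, (Function.support f).Countable → ∃ V ∈ @nhds _ t 1, ∀ α, f α ≠ 0 →
      .of (.inr α) * (.of (.inl (f α)) * (.of (.inl (f α + 1)))⁻¹) * (.of (.inr α))⁻¹ ∉ V := by
    intro f hf
    let τ : ℕ → Option (Om × Bool) → Option (Om × Bool) := fun i =>
      Option.map fun z => (z.1, if f z.1 = i then !z.2 else z.2)
    have inv : ∀ i, Function.Involutive (τ i) := by
      rintro i (_ | ⟨α, b⟩)
      · rfl
      · by_cases h : f α = i <;> simp [τ, h]
    let σ : ℕ ⊕ Om → Equiv.Perm (Option (Om × Bool)) := Sum.elim (fun i => (inv i).toPerm)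
      fun α => if f α = 0 then 1 else Equiv.swap none (some (α, false))
    let π := FreeGroup.lift σ
    let : TopologicalSpace (Option (Om × Bool)) := ⊥
    have : DiscreteTopology (Option (Om × Bool)) := ⟨rfl⟩
    let s : TopologicalSpace (FreeGroup (ℕ ⊕ Om)) := .induced (fun g w => π g w) inferInstance
    have ev : ∀ g w, ∀ᶠ h in 𝓝 g, π h w = π g w := fun g w =>
      (((continuous_apply w).comp continuous_induced_dom).tendsto g)
        ((isOpen_discrete {π g w}).mem_nhds rfl)
    have tn : ∀ {Y : Type} (l : Filter Y) (k : Y → FreeGroup (ℕ ⊕ Om)) g,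
        (∀ w, ∀ᶠ y in l, π (k y) w = π g w) → Tendsto k l (𝓝 g) := fun l k g h => by
      rw [nhds_induced, tendsto_comap_iff, tendsto_pi_nhds]
      exact fun w => tendsto_const_nhds.congr' ((h w).mono fun _ e => e.symm)
    obtain ⟨β, hβ⟩ := exists_ub _ hf
    have eq : ∀ w, ∀ᶠ z in @uniformity _ u, σ z.1 w = σ z.2 w ∧ (σ z.1)⁻¹ w = (σ z.2)⁻¹ w := by
      intro w
      refine hb.eventually_iff.2 ⟨(w.elim 0 (fun z => f z.1 + 1), β), trivial, ?_⟩
      rintro ⟨x | x, y | y⟩ h
      · have : τ x w = τ y w := by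
          rcases w with _ | ⟨α, b⟩
          · rfl
          · have h : min (f α + 1) x = min (f α + 1) y := Sum.inl_injective h
            simp only [τ, Option.map_some, show f α = x ↔ f α = y by omega]
        exact ⟨this, this⟩
      · cases h
      · cases h
      · have h : min β x = min β y := Sum.inr_injective h
        have z : ∀ x, β ≤ x → f x = 0 := fun x e => by_contra fun c => (hβ x c).not_ge e
        rcases le_total β x with a | a <;> rcases le_total β y with b | b
        · simp [σ, z x a, z y b]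
        all_goals simp only [a, b, min_eq_left, min_eq_right] at h
        · subst h; simp [σ, z x a, z _ le_rfl]
        · subst h; simp [σ, z y b, z _ le_rfl]
        · subst h; exact ⟨rfl, rfl⟩
    have adm : @Adm _ u s := ⟨{
        continuous_mul := continuous_iff_continuousAt.2 fun p => tn _ _ _ fun w =>
          ((continuousAt_fst.eventually (ev p.1 (π p.2 w))).and
            (continuousAt_snd.eventually (ev p.2 w))).mono fun q h => by simp [h.1, h.2]
        continuous_inv := continuous_iff_continuousAt.2 fun g => tn _ _ _ fun w =>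
          (ev g (π g⁻¹ w)).mono fun q h => by
            rw [map_inv, Equiv.Perm.inv_eq_iff_eq, h]; simp },
      tn _ _ _ fun w => (eq w).mono fun z h => by simp [π, ← h.1],
      tn _ _ _ fun w => (eq w).mono fun z h => by
        simp only [π, map_mul, map_inv, FreeGroup.lift_apply_of, Equiv.Perm.mul_apply, ← h.2]; simp⟩
    refine ⟨{h | π h none = π 1 none}, nhds_mono (sInf_le adm) (ev 1 none), fun α h => ?_⟩
    simp [π, σ, h, τ, Equiv.swap_apply_of_ne_of_ne]
  choose! V V1 V2 using key
  have : ∀ f : Om → ℕ, (Function.support f).Countable → ∃ q, ∀ q', q ≤ q' → (ψ q').1 ⊆ V f := by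
    intro f hf
    by_contra h
    push Not at h
    obtain ⟨_, ⟨q, a, rfl⟩, b⟩ := hψ {q | ¬ (ψ q).1 ⊆ V f}
      (fun q => (h q).imp fun _ h => h.symm) ⟨V f, V1 f hf⟩
    exact a b
  choose! q hq using this
  choose p _ hp using fun f n => hb.mem_iff.1 ((q f).2 n).2
  choose Γ hΓ using fun f => exists_ub _ (countable_range fun n => (p f n).2)
  refine comb (fun f n => max ((q f).1 n) (p f n).1) Γ fun g γ α => ?_
  let Q : (ℕ → ℕ) × (ℕ → (@uniformity _ u).setsᵒᵈ) :=
    (g, fun n => ⟨E (g n, γ), hb.mem_of_mem trivial⟩)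
  have := ht.1
  have cj : Tendsto (fun x => FreeGroup.of (.inr α) * x * (FreeGroup.of (.inr α))⁻¹)
      (@nhds _ t 1) (@nhds _ t 1) := Continuous.tendsto' (by fun_prop) _ _ (by simp)
  obtain ⟨r, -, hr⟩ := hb.mem_iff.1 ((cj.comp ht.2.2) (ψ Q).2)
  refine ⟨r.1, fun f a b d => not_lt.1 fun e => V2 f a α (by omega) (hq f a Q
    ⟨fun n => le_of_max_le_left (b n), fun n => (anti ⟨le_of_max_le_right (b n),
      (hΓ f _ ⟨n, rfl⟩).le.trans d⟩).trans (hp f n)⟩
    (hr (a := (.inl (f α), .inl (f α + 1))) (congrArg Sum.inl (by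
      show min r.1 (f α) = min r.1 (f α + 1); omega))))⟩

end Pool.Agent.Lib.helper4.FreeTukey
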