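import Mathlib

/-! A generic derivation of the real numbers. -/

namespace Pool.Agent.Lib.helper4.GenDer

open Set Cardinal Algebra

open scoped IntermediateField.algebraAdjoinAdjoin in
theorem exists_der {ι : Type} (x : ι → ℝ) (hx : AlgebraicIndependent ℚ x) (d : ι → ℝ) :
    ∃ D : Derivation ℚ ℝ ℝ, ∀ i, D (x i) = d i := by
  obtain ⟨t, ht, hb⟩ := exists_isTranscendenceBasis_superset (R := ℚ) (s := range x)
    hx.to_subtype_range
  obtain ⟨d', hd⟩ : ∃ d' : ℝ → ℝ, ∀ i, d' (x i) = d i :=
    ⟨Function.extend x d 0, hx.injective.extend_apply _ _⟩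
  let R := adjoin ℚ (range ((↑) : t → ℝ))
  let K := IntermediateField.adjoin ℚ (range ((↑) : t → ℝ))
  have : FormallyEtale R K := .of_isLocalization (nonZeroDivisors _)
  have := hb.isAlgebraic_field
  have : FormallyEtale K ℝ := .of_isSeparable _ _
  have : FormallyEtale R ℝ := .comp R K ℝ
  let φ : R →ₐ[ℚ] TrivSqZeroExt ℝ ℝ := (MvPolynomial.aeval fun b : t =>
    TrivSqZeroExt.inl b.1 + TrivSqZeroExt.inr (d' b)).comp hb.1.repr
  have h1 : ∀ a, (φ a).fst = a := fun a => by
    have : (TrivSqZeroExt.fstHom ℚ ℝ ℝ).comp (MvPolynomial.aeval fun b : t =>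
        TrivSqZeroExt.inl b.1 + TrivSqZeroExt.inr (d' b)) = MvPolynomial.aeval (↑) := by
      ext b; simp
    exact (DFunLike.congr_fun this _).trans (hb.1.aeval_repr a)
  let D0 : Derivation ℚ R ℝ := Derivation.mk'
    (((TrivSqZeroExt.sndHom ℝ ℝ).restrictScalars ℚ).comp φ.toLinearMap) fun a b => by
      simp [h1, Subalgebra.smul_def, mul_comm]
  let B := KaehlerDifferential.isBaseChange_of_formallyEtale ℚ R ℝ
  refine ⟨(B.lift D0.liftKaehlerDifferential).compDer (KaehlerDifferential.D ℚ ℝ), fun i => ?_⟩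
  let a : R := ⟨x i, subset_adjoin ⟨⟨x i, ht ⟨i, rfl⟩⟩, rfl⟩⟩
  have e := B.lift_eq D0.liftKaehlerDifferential (KaehlerDifferential.D ℚ R a)
  rw [KaehlerDifferential.map_D, Derivation.liftKaehlerDifferential_comp_D] at e
  refine e.trans ?_
  have : hb.1.repr a = MvPolynomial.X ⟨x i, ht ⟨i, rfl⟩⟩ :=
    hb.1 ((hb.1.aeval_repr a).trans (by simp [a]))
  show (φ a).snd = _
  simp [φ, this, hd]

theorem indep_of_lt {ι : Type} [LinearOrder ι] (x : ι → ℝ)
    (h : ∀ i, Transcendental (adjoin ℚ (x '' Iio i)) (x i)) : AlgebraicIndependent ℚ x := by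
  refine algebraicIndependent_of_finite_type fun t ht => ?_
  lift t to Finset ι using ht
  induction t using Finset.induction_on_max with
  | empty => rw [Finset.coe_empty]; exact algebraicIndependent_empty_type
  | insert a s hs ih =>
    rw [Finset.coe_insert]
    exact AlgebraicIndepOn.insert ih ((h a).of_tower_top_of_subalgebra_le
      (adjoin_mono (image_mono hs)))

theorem exists_tr (S : Set ℝ) (h : #S < 𝔠) : ∃ y : ℝ, Transcendental (adjoin ℚ S) y := by
  by_contra hn
  simp only [Transcendental, not_exists, not_not] at hn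
  have := Algebraic.cardinalMk_le_max (adjoin ℚ S) ℝ
  rw [mk_congr (Equiv.subtypeUnivEquiv hn), mk_real] at this
  refine this.not_gt (max_lt ((cardinalMk_adjoin_le ℚ S).trans_lt (max_lt (max_lt ?_ h)
    aleph0_lt_continuum)) aleph0_lt_continuum)
  simpa using aleph0_lt_continuum

theorem generic {Q : Type} (hQ : #Q = 𝔠) (H : Q → AddSubgroup (ℕ × ℕ → ℝ)) :
    ∃ D : Derivation ℚ ℝ ℝ, ∀ q, (∀ u : ℕ → ℝ, (fun p => D^[p.2] (u p.1)) ∈ H q) → H q = ⊤ := by
  classical
  let O := (𝔠 : Cardinal).ord.ToType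
  obtain ⟨e⟩ : Nonempty (O ≃ Q × ℕ × ℕ) := Cardinal.eq.1 (by simp [O, hQ])
  have : ∀ q, ∃ r, H q ≠ ⊤ → r ∉ H q := fun q => by
    by_contra h
    push Not at h
    exact (h 0).1 (eq_top_iff.2 fun r _ => (h r).2)
  choose r hr using this
  choose! f hf using exists_tr
  let A : O → Set ℝ := fun i => ⋃ j : Iic i, range (r (e j).1)
  let s : O → ℝ := wellFounded_lt.fix fun i IH => f (range (fun j : Iio i => IH j j.2) ∪ A i)
  have hs : ∀ i, Transcendental (adjoin ℚ (range (fun j : Iio i => s j) ∪ A i)) (s i) := fun i => by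
    rw [show s i = f (range (fun j : Iio i => s j) ∪ A i) from WellFounded.fix_eq _ _ _]
    have h1 : #(Iio i) < 𝔠 := mk_Iio_toType_ord_lt i
    have h2 : #(Iic i) < 𝔠 := by
      rw [← Iio_insert]
      exact mk_insert_le.trans_lt (add_lt_of_lt aleph0_le_continuum h1
        (one_lt_aleph0.trans aleph0_lt_continuum))
    refine hf _ ((mk_union_le _ _).trans_lt (add_lt_of_lt aleph0_le_continuum
      (mk_range_le.trans_lt h1) ((mk_iUnion_le _).trans_lt (mul_lt_of_lt aleph0_le_continuum h2
        ((ciSup_le' fun j => (countable_range _).le_aleph0).trans_lt aleph0_lt_continuum)))))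
  let x : O → ℝ := fun i => if (fun p => s (e.symm ((e i).1, p))) ∈ H (e i).1 then
    r (e i).1 (e i).2 - s i else s i
  have hx : AlgebraicIndependent ℚ x := indep_of_lt x fun i => by
    have m : ∀ j ≤ i, r (e j).1 (e j).2 ∈ adjoin ℚ (range (fun j : Iio i => s j) ∪ A i) :=
      fun j h => subset_adjoin (Or.inr (mem_iUnion.2 ⟨⟨j, h⟩, _, rfl⟩))
    refine Transcendental.of_tower_top_of_subalgebra_le
      (B := adjoin ℚ (range (fun j : Iio i => s j) ∪ A i)) (adjoin_le ?_) ?_
    · rintro _ ⟨j, h, rfl⟩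
      have : s j ∈ adjoin ℚ (range (fun j : Iio i => s j) ∪ A i) :=
        subset_adjoin (Or.inl ⟨⟨j, h⟩, rfl⟩)
      simp only [x]
      split_ifs
      exacts [sub_mem (m j h.le) this, this]
    · simp only [x]
      split_ifs
      · exact fun h => hs i (by
          simpa using (isAlgebraic_algebraMap (⟨_, m i le_rfl⟩ : adjoin ℚ _)).sub h)
      · exact hs i
  obtain ⟨D, hD⟩ := exists_der x hx fun i => x (e.symm ((e i).1, (e i).2.1, (e i).2.2 + 1))
  refine ⟨D, fun q h => by_contra fun hq => ?_⟩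
  have h := h fun k => x (e.symm (q, k, 0))
  have : ∀ k n, D^[n] (x (e.symm (q, k, 0))) = x (e.symm (q, k, n)) := fun k n => by
    induction n with
    | zero => rfl
    | succ n ih => rw [Function.iterate_succ_apply', ih, hD]; simp
  simp only [this] at h
  simp only [x, Equiv.apply_symm_apply] at h
  by_cases c : (fun p => s (e.symm (q, p))) ∈ H q
  · simp only [c, if_true] at h
    exact hr q hq (by convert add_mem h c; ext p; simp)
  · simp only [c, if_false] at h

end Pool.Agent.Lib.helper4.GenDer
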