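import Mathlib

set_option autoImplicit false

namespace Pool.Agent.Lib.H4Genus

/-- A rotation system: at every vertex `v` the permutation `π v` acts on the neighbours of `v`
as one cycle. -/
def IsRotation {W : Type} (Γ : SimpleGraph W) (π : W → Equiv.Perm W) : Prop :=
  ∀ v, (π v).IsCycleOn (Γ.neighborSet v)

/-- Face tracing: the dart `(u, v)` is followed by the dart `(v, π v u)`. -/
def FaceStep {W : Type} (Γ : SimpleGraph W) (π : W → Equiv.Perm W) (d e : Γ.Dart) : Prop :=
  e.fst = d.snd ∧ e.snd = π d.snd d.fst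

/-- The number of faces of the cellular embeddings of the components given by a rotation system:
the orbits of face tracing on darts, plus one face for every isolated vertex. -/
noncomputable def faces {W : Type} (Γ : SimpleGraph W) (π : W → Equiv.Perm W) : ℕ :=
  Nat.card (Quot (FaceStep Γ π)) + {v | ∀ w, ¬ Γ.Adj v w}.ncard

/-- The orientable genus of a finite graph: the least `g` such that some rotation system has
`V - E + F ≥ 2 c - 2 g`, with `c` the number of connected components. -/
noncomputable def genus {W : Type} (Γ : SimpleGraph W) : ℕ :=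
  sInf {g | ∃ π, IsRotation Γ π ∧
    Nat.card Γ.edgeSet + 2 * Nat.card Γ.ConnectedComponent ≤ Nat.card W + faces Γ π + 2 * g}

/-- The incidence graph of the hypergraph with vertex set `V` and edges `E i`. -/
def incidence {V ι : Type} (E : ι → Set V) : SimpleGraph (V ⊕ ι) :=
  SimpleGraph.fromRel (fun a b => ∃ v i, a = Sum.inl v ∧ b = Sum.inr i ∧ v ∈ E i)

/-- The adjacency multigraph of the hypergraph `E` is the simple graph `G`. -/
def AdjEq {V ι : Type} (E : ι → Set V) (G : SimpleGraph V) : Prop :=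
  ∀ u v, u ≠ v → (G.Adj u v → {i | u ∈ E i ∧ v ∈ E i}.ncard = 1) ∧
    (¬ G.Adj u v → {i | u ∈ E i ∧ v ∈ E i}.ncard = 0)

/-- The reduced genus: the least genus of a finite hypergraph whose adjacency multigraph
is `G`. -/
noncomputable def reducedGenus {V : Type} (G : SimpleGraph V) : ℕ :=
  sInf {g | ∃ (ι : Type) (_ : Finite ι) (E : ι → Set V), AdjEq E G ∧ genus (incidence E) = g}

/-- The Heawood function. -/
noncomputable def heawood (g : ℕ) : ℝ := (7 + Real.sqrt (1 + 48 * g)) / 2

/-- Any two different maximal cliques share at most one vertex. -/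
def CliquePartitioned {V : Type} (G : SimpleGraph V) : Prop :=
  ∀ s t : Set V, Maximal G.IsClique s → Maximal G.IsClique t → s ≠ t → (s ∩ t).Subsingleton

theorem exists_rotation {W : Type} [Finite W] (Γ : SimpleGraph W) : ∃ π, IsRotation Γ π := by
  classical
  have h : ∀ v, ∃ f : Equiv.Perm W, f.IsCycleOn (Γ.neighborSet v) := by
    intro v
    obtain ⟨f, hf, -⟩ := (Set.toFinite (Γ.neighborSet v)).countable.exists_cycleOn
    exact ⟨f, hf⟩
  choose π hπ using h
  exact ⟨π, hπ⟩

theorem genus_le {W : Type} [Finite W] (Γ : SimpleGraph W) (g : ℕ)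
    (h : Nat.card Γ.edgeSet + Nat.card W ≤ 2 * g) : genus Γ ≤ g := by
  obtain ⟨π, hπ⟩ := exists_rotation Γ
  apply Nat.sInf_le
  refine ⟨π, hπ, ?_⟩
  have hc : Nat.card Γ.ConnectedComponent ≤ Nat.card W :=
    Nat.card_le_card_of_surjective Γ.connectedComponentMk (fun c => Quot.exists_rep c)
  omega

theorem reducedGenus_le {V ι : Type} [Finite ι] (G : SimpleGraph V) (E : ι → Set V)
    (h : AdjEq E G) : reducedGenus G ≤ genus (incidence E) :=
  Nat.sInf_le ⟨ι, inferInstance, E, h, rfl⟩

theorem incidence_adj {V ι : Type} (E : ι → Set V) (a b : V ⊕ ι) :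
    (incidence E).Adj a b ↔ ∃ v i, v ∈ E i ∧
      ((a = Sum.inl v ∧ b = Sum.inr i) ∨ (a = Sum.inr i ∧ b = Sum.inl v)) := by
  simp only [incidence, SimpleGraph.fromRel_adj]
  constructor
  · rintro ⟨-, ⟨v, i, h1, h2, h3⟩ | ⟨v, i, h1, h2, h3⟩⟩
    · exact ⟨v, i, h3, Or.inl ⟨h1, h2⟩⟩
    · exact ⟨v, i, h3, Or.inr ⟨h2, h1⟩⟩
  · rintro ⟨v, i, h, ⟨rfl, rfl⟩ | ⟨rfl, rfl⟩⟩
    · exact ⟨by simp, Or.inl ⟨v, i, rfl, rfl, h⟩⟩
    · exact ⟨by simp, Or.inr ⟨v, i, rfl, rfl, h⟩⟩

theorem card_edges_le {W T : Type} [Finite T] (Γ : SimpleGraph W) (f : T → Sym2 W)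
    (h : ∀ a b, Γ.Adj a b → ∃ t, f t = s(a, b)) : Nat.card Γ.edgeSet ≤ Nat.card T := by
  have h1 : Γ.edgeSet ⊆ Set.range f := by
    intro e he
    induction e using Sym2.ind with
    | _ a b => exact h a b he
  calc Nat.card Γ.edgeSet ≤ Nat.card (Set.range f) :=
        Nat.card_mono (Set.finite_range f) h1
    _ ≤ Nat.card T := Finite.card_range_le f

theorem lt_toNat {V : Type} [Finite V] (G : SimpleGraph V) (k : ℕ) (h : ¬ G.Colorable k) :
    k + 1 ≤ G.chromaticNumber.toNat := by
  classical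
  have := Fintype.ofFinite V
  by_contra hlt
  apply h
  have hne : G.chromaticNumber ≠ ⊤ :=
    ne_top_of_le_ne_top (ENat.natCast_ne_top _) G.colorable_of_fintype.chromaticNumber_le
  rw [← SimpleGraph.chromaticNumber_le_iff_colorable, ← ENat.natCast_toNat hne]
  exact_mod_cast (by omega : G.chromaticNumber.toNat ≤ k)

end Pool.Agent.Lib.H4Genus
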