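import Mathlib

/-! A predimension construction: finite structures of points and colours. -/

namespace Pool.Agent.H4Hrush

open Finset

/-- points are `(n, false)`, colours are `(n, true)` -/
abbrev U := ℕ × Bool

/-- predimension -/
def dd (E : Finset (Finset U)) (X : Finset U) : ℤ :=
  (X.card : ℤ) - ((E.filter (· ⊆ X)).card : ℤ)

def Strong (E : Finset (Finset U)) (A : Finset U) : Prop := ∀ X, A ⊆ X → dd E A ≤ dd E X

def nc (e : Finset U) : ℕ := (e.filter (fun x => x.2 = true)).card

structure Good (V : Finset U) (E : Finset (Finset U)) : Prop where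
  sub : ∀ e ∈ E, e ⊆ V
  card : ∀ e ∈ E, e.card = 4
  col : ∀ e ∈ E, nc e = 1
  big : ∀ X : Finset U, 5 ≤ X.card → 4 ≤ dd E X

structure Ext (V : Finset U) (E : Finset (Finset U)) (V' : Finset U) (E' : Finset (Finset U)) :
    Prop where
  sub : V ⊆ V'
  agree : ∀ e, e ⊆ V → (e ∈ E' ↔ e ∈ E)
  strong : Strong E' V

theorem submod (E : Finset (Finset U)) (X Y : Finset U) :
    dd E (X ∪ Y) + dd E (X ∩ Y) ≤ dd E X + dd E Y := by
  unfold dd
  have h1 := Finset.card_union_add_card_inter X Y
  have h2 := Finset.card_union_add_card_inter (E.filter (· ⊆ X)) (E.filter (· ⊆ Y))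
  have h3 : (E.filter (· ⊆ X) ∪ E.filter (· ⊆ Y)).card ≤ (E.filter (· ⊆ X ∪ Y)).card := by
    apply card_le_card
    intro e he
    simp only [mem_union, mem_filter] at he ⊢
    rcases he with h | h
    · exact ⟨h.1, h.2.trans subset_union_left⟩
    · exact ⟨h.1, h.2.trans subset_union_right⟩
  have h4 : (E.filter (· ⊆ X) ∩ E.filter (· ⊆ Y)).card ≤ (E.filter (· ⊆ X ∩ Y)).card := by
    apply card_le_card
    intro e he
    simp only [mem_inter, mem_filter] at he ⊢
    exact ⟨he.1.1, subset_inter he.1.2 he.2.2⟩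
  omega

theorem dd_congr {E E' : Finset (Finset U)} {X : Finset U} (h : ∀ e, e ⊆ X → (e ∈ E' ↔ e ∈ E)) :
    dd E' X = dd E X := by
  unfold dd
  have : E'.filter (· ⊆ X) = E.filter (· ⊆ X) := by
    ext e
    simp only [mem_filter]
    constructor
    · rintro ⟨h1, h2⟩; exact ⟨(h e h2).1 h1, h2⟩
    · rintro ⟨h1, h2⟩; exact ⟨(h e h2).2 h1, h2⟩
  rw [this]

theorem dd_anti {E E' : Finset (Finset U)} (h : E' ⊆ E) (X : Finset U) : dd E X ≤ dd E' X := by
  unfold dd
  have : (E'.filter (· ⊆ X)).card ≤ (E.filter (· ⊆ X)).card :=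
    card_le_card (filter_subset_filter _ h)
  omega

theorem Strong.inter_le {E : Finset (Finset U)} {B : Finset U} (h : Strong E B) (X : Finset U) :
    dd E (X ∩ B) ≤ dd E X := by
  have h1 := submod E X B
  have h2 := h (X ∪ B) subset_union_right
  omega

theorem Ext.transfer {V E V' E'} (h : Ext V E V' E') {A : Finset U} (hA : A ⊆ V)
    (hs : Strong E A) : Strong E' A := by
  intro X hX
  have h1 := h.strong.inter_le X
  have h2 : dd E' (X ∩ V) = dd E (X ∩ V) :=
    dd_congr fun e he => h.agree e (he.trans inter_subset_right)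
  have h3 : dd E' A = dd E A := dd_congr fun e he => h.agree e (he.trans hA)
  have h4 := hs (X ∩ V) (subset_inter hX hA)
  omega

theorem Good.strong_sup {V E} (h : Good V E) {W : Finset U} (hW : V ⊆ W) : Strong E W := by
  intro X hX
  unfold dd
  have h1 : (E.filter (· ⊆ X)).card ≤ (E.filter (· ⊆ W)).card := by
    apply card_le_card
    intro e he
    simp only [mem_filter] at he ⊢
    exact ⟨he.1, (h.sub e he.1).trans hW⟩
  have := card_le_card hX
  omega

theorem Good.mono {V E} (h : Good V E) {W : Finset U} (hW : V ⊆ W) : Good W E :=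
  ⟨fun e he => (h.sub e he).trans hW, h.card, h.col, h.big⟩

theorem Good.ext_sup {V E} (h : Good V E) {W : Finset U} (hW : V ⊆ W) : Ext V E W E :=
  ⟨hW, fun _ _ => Iff.rfl, h.strong_sup subset_rfl⟩

theorem Ext.trans {V E V' E' V'' E''} (h : Ext V E V' E') (h' : Ext V' E' V'' E'') :
    Ext V E V'' E'' :=
  ⟨h.sub.trans h'.sub, fun e he => (h'.agree e (he.trans h.sub)).trans (h.agree e he),
    h'.transfer h.sub h.strong⟩

theorem two_le_filter {E : Finset (Finset U)} {X e1 e2 : Finset U} (h1 : e1 ∈ E) (h2 : e2 ∈ E)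
    (hne : e1 ≠ e2) (s1 : e1 ⊆ X) (s2 : e2 ⊆ X) : 2 ≤ (E.filter (· ⊆ X)).card := by
  have : ({e1, e2} : Finset (Finset U)) ⊆ E.filter (· ⊆ X) := by
    intro e he
    simp only [mem_insert, mem_singleton] at he
    rcases he with rfl | rfl <;> simp [*]
  have h := card_le_card this
  rwa [card_pair hne] at h

theorem Good.lin {V E} (h : Good V E) {e1 e2 : Finset U} (h1 : e1 ∈ E) (h2 : e2 ∈ E)
    (hne : e1 ≠ e2) : (e1 ∩ e2).card ≤ 2 := by
  by_contra hc
  have c1 := h.card e1 h1
  have c2 := h.card e2 h2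
  have hu := Finset.card_union_add_card_inter e1 e2
  have h4 : (e1 ∩ e2).card ≠ 4 := by
    intro h4
    have a1 : e1 ∩ e2 = e1 := eq_of_subset_of_card_le inter_subset_left (by omega)
    have a2 : e1 ∩ e2 = e2 := eq_of_subset_of_card_le inter_subset_right (by omega)
    exact hne (a1.symm.trans a2)
  have h5 : (e1 ∩ e2).card ≤ 4 := c1 ▸ card_le_card inter_subset_left
  have hb := h.big (e1 ∪ e2) (by omega)
  have := two_le_filter h1 h2 hne (subset_union_left (s₂ := e2)) subset_union_right
  unfold dd at hb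
  omega

theorem amalg_key {V1 E1 V2 E2} (g1 : Good V1 E1) (g2 : Good V2 E2)
    (hag : ∀ e, e ⊆ V1 ∩ V2 → (e ∈ E1 ↔ e ∈ E2)) (s2 : Strong E2 (V1 ∩ V2)) (X : Finset U) :
    dd E1 (X \ (V2 \ V1)) ≤ dd (E1 ∪ E2) X := by
  have h1 := s2.inter_le (X ∩ V2)
  have e1 : (E1 ∪ E2).filter (· ⊆ X) =
      E1.filter (· ⊆ X \ (V2 \ V1)) ∪ E2.filter (· ⊆ X ∩ V2) := by
    ext e
    simp only [mem_union, mem_filter]
    constructor
    · rintro ⟨h | h, hX⟩
      · left
        refine ⟨h, fun x hx => ?_⟩
        have := g1.sub e h hx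
        simp [hX hx, this]
      · right
        exact ⟨h, subset_inter hX (g2.sub e h)⟩
    · rintro (⟨h, hX⟩ | ⟨h, hX⟩)
      · exact ⟨Or.inl h, hX.trans sdiff_subset⟩
      · exact ⟨Or.inr h, hX.trans inter_subset_left⟩
  have e2 : (E2.filter (· ⊆ X ∩ V2 ∩ (V1 ∩ V2))).card ≤
      (E1.filter (· ⊆ X \ (V2 \ V1)) ∩ E2.filter (· ⊆ X ∩ V2)).card := by
    apply card_le_card
    intro e he
    simp only [mem_inter, mem_filter] at he ⊢
    obtain ⟨h, hX⟩ := he
    have hB : e ⊆ V1 ∩ V2 := hX.trans inter_subset_right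
    refine ⟨⟨(hag e hB).2 h, fun x hx => ?_⟩, h, hX.trans inter_subset_left⟩
    have a := hX hx
    simp only [mem_inter] at a
    simp [a.1.1, a.2.1]
  have e3 := Finset.card_union_add_card_inter (E1.filter (· ⊆ X \ (V2 \ V1)))
    (E2.filter (· ⊆ X ∩ V2))
  have e4 := Finset.card_union_add_card_inter (X \ (V2 \ V1)) (X ∩ V2)
  have e5 : X \ (V2 \ V1) ∪ X ∩ V2 = X := by
    ext x; simp only [mem_union, mem_sdiff, mem_inter]; tauto
  have e6 : X \ (V2 \ V1) ∩ (X ∩ V2) = X ∩ V2 ∩ (V1 ∩ V2) := by
    ext x; simp only [mem_sdiff, mem_inter]; tauto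
  rw [e5, e6] at e4
  unfold dd at h1 ⊢
  rw [e1]
  omega

theorem amalg_ext {V1 E1 V2 E2} (g1 : Good V1 E1) (g2 : Good V2 E2)
    (hag : ∀ e, e ⊆ V1 ∩ V2 → (e ∈ E1 ↔ e ∈ E2)) (s2 : Strong E2 (V1 ∩ V2)) :
    Ext V1 E1 (V1 ∪ V2) (E1 ∪ E2) := by
  have hag' : ∀ e, e ⊆ V1 → (e ∈ E1 ∪ E2 ↔ e ∈ E1) := by
    intro e he
    simp only [mem_union]
    constructor
    · rintro (h | h)
      · exact h
      · exact (hag e (subset_inter he (g2.sub e h))).2 h
    · exact Or.inl
  refine ⟨subset_union_left, hag', fun X hX => ?_⟩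
  have h1 := amalg_key g1 g2 hag s2 X
  have h2 := g1.strong_sup subset_rfl (X \ (V2 \ V1)) (fun x hx => by simp [hX hx, hx])
  have h3 := dd_congr hag'
  omega

theorem amalg_good {V1 E1 V2 E2} (g1 : Good V1 E1) (g2 : Good V2 E2)
    (hag : ∀ e, e ⊆ V1 ∩ V2 → (e ∈ E1 ↔ e ∈ E2)) (s1 : Strong E1 (V1 ∩ V2))
    (s2 : Strong E2 (V1 ∩ V2))
    (hlin : ∀ e1 ∈ E1, ∀ e2 ∈ E2, e1 ≠ e2 → (e1 ∩ e2).card ≤ 2) :
    Good (V1 ∪ V2) (E1 ∪ E2) := by
  have hc : ∀ e ∈ E1 ∪ E2, e.card = 4 := by
    intro e he
    rcases mem_union.1 he with h | h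
    · exact g1.card e h
    · exact g2.card e h
  refine ⟨?_, hc, ?_, ?_⟩
  · intro e he
    rcases mem_union.1 he with h | h
    · exact (g1.sub e h).trans subset_union_left
    · exact (g2.sub e h).trans subset_union_right
  · intro e he
    rcases mem_union.1 he with h | h
    · exact g1.col e h
    · exact g2.col e h
  · intro X hX
    have k1 := amalg_key g1 g2 hag s2 X
    have k2 := amalg_key g2 g1 (by rw [inter_comm]; exact fun e he => (hag e he).symm)
      (by rw [inter_comm]; exact s1) X
    rw [union_comm E2 E1] at k2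
    by_cases a1 : 5 ≤ (X \ (V2 \ V1)).card
    · exact (g1.big _ a1).trans k1
    by_cases a2 : 5 ≤ (X \ (V1 \ V2)).card
    · exact (g2.big _ a2).trans k2
    by_cases a3 : X.card = 5
    · have : ((E1 ∪ E2).filter (· ⊆ X)).card ≤ 1 := by
        rw [card_le_one]
        intro e he e' he'
        rw [mem_filter] at he he'
        by_contra hne
        have hl : (e ∩ e').card ≤ 2 := by
          rcases mem_union.1 he.1 with h | h <;> rcases mem_union.1 he'.1 with h' | h'
          · exact g1.lin h h' hne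
          · exact hlin e h e' h' hne
          · rw [inter_comm]; exact hlin e' h' e h (Ne.symm hne)
          · exact g2.lin h h' hne
        have u1 := Finset.card_union_add_card_inter e e'
        have u2 : (e ∪ e').card ≤ X.card := card_le_card (union_subset he.2 he'.2)
        have := hc e he.1
        have := hc e' he'.1
        omega
      unfold dd; omega
    · have : (E1 ∪ E2).filter (· ⊆ X) ⊆ {X \ (V2 \ V1), X \ (V1 \ V2)} := by
        intro e he
        rw [mem_filter] at he
        simp only [mem_insert, mem_singleton]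
        have hc4 := hc e he.1
        rcases mem_union.1 he.1 with h | h
        · left
          apply eq_of_subset_of_card_le _ (by omega)
          intro x hx
          have := g1.sub e h hx
          simp [he.2 hx, this]
        · right
          apply eq_of_subset_of_card_le _ (by omega)
          intro x hx
          have := g2.sub e h hx
          simp [he.2 hx, this]
      have h2 := (card_le_card this).trans card_le_two
      unfold dd; omega

theorem Good.strong_three {V E} (h : Good V E) {T : Finset U} (hT : T.card = 3) : Strong E T := by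
  intro X hX
  have a := card_le_card hX
  have b : dd E T ≤ 3 := by unfold dd; omega
  by_cases c : 5 ≤ X.card
  · have := h.big X c; omega
  have : E.filter (· ⊆ X) ⊆ {X} := by
    intro e he
    rw [mem_filter] at he
    have := h.card e he.1
    rw [mem_singleton]
    exact eq_of_subset_of_card_le he.2 (by omega)
  by_cases d : X.card = 4
  · have := card_le_card this
    rw [card_singleton] at this
    unfold dd at b ⊢; omega
  · have : X = T := (eq_of_subset_of_card_le hX (by omega)).symm
    rw [this]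

theorem exists_fresh (W : Finset U) (b : Bool) : ∃ d : U, d ∉ W ∧ d.2 = b := by
  obtain ⟨n, hn⟩ := Infinite.exists_notMem_finset (W.image Prod.fst)
  refine ⟨(n, b), fun h => hn ?_, rfl⟩
  exact mem_image.2 ⟨_, h, rfl⟩

theorem nc_insert {T : Finset U} {d : U} (hd : d ∉ T) :
    nc (insert d T) = nc T + if d.2 = true then 1 else 0 := by
  unfold nc
  rw [filter_insert]
  split_ifs with h
  · rw [card_insert_of_notMem (by simp [hd])]
  · rfl

theorem complete {V E} (h : Good V E) {T : Finset U} (hTV : T ⊆ V) (hT : T.card = 3)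
    (hc : nc T ≤ 1) : ∃ V' E', Good V' E' ∧ Ext V E V' E' ∧ ∃ d, d ∉ T ∧ insert d T ∈ E' := by
  by_cases hex : ∃ d, d ∉ T ∧ insert d T ∈ E
  · exact ⟨V, E, h, h.ext_sup subset_rfl, hex⟩
  push Not at hex
  obtain ⟨d, hdV, hd⟩ := exists_fresh V (decide (nc T = 0))
  have hdT : d ∉ T := fun a => hdV (hTV a)
  have hcard : (insert d T).card = 4 := by rw [card_insert_of_notMem hdT, hT]
  have g2 : Good (insert d T) {insert d T} := by
    refine ⟨by simp, by simp [hcard], ?_, ?_⟩
    · intro e he
      rw [mem_singleton] at he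
      rw [he, nc_insert hdT, hd]
      by_cases a : nc T = 0 <;> simp [a]
      omega
    · intro X hX
      have : (({insert d T} : Finset (Finset U)).filter (· ⊆ X)).card ≤ 1 :=
        (card_filter_le _ _).trans (by simp)
      unfold dd; omega
  have hB : V ∩ insert d T = T := by
    rw [inter_insert_of_notMem hdV]; exact inter_eq_right.2 hTV
  have hag : ∀ e, e ⊆ V ∩ insert d T → (e ∈ E ↔ e ∈ ({insert d T} : Finset (Finset U))) := by
    intro e he
    rw [hB] at he
    have := card_le_card he
    constructor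
    · intro a; have := h.card e a; omega
    · intro a; have := g2.card e a; omega
  have s1 : Strong E (V ∩ insert d T) := by rw [hB]; exact h.strong_three hT
  have s2 : Strong {insert d T} (V ∩ insert d T) := by rw [hB]; exact g2.strong_three hT
  refine ⟨_, _, amalg_good h g2 hag s1 s2 ?_, amalg_ext h g2 hag s2, d, hdT, by simp⟩
  intro e1 h1 e2 h2 _
  rw [mem_singleton] at h2
  subst h2
  by_contra hcon
  have hde : d ∉ e1 := fun a => hdV (h.sub e1 h1 a)
  rw [inter_insert_of_notMem hde] at hcon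
  have a1 : e1 ∩ T = T := eq_of_subset_of_card_le inter_subset_right (by omega)
  have a2 : T ⊆ e1 := by rw [← a1]; exact inter_subset_left
  have a3 := h.card e1 h1
  obtain ⟨x, hx, hx'⟩ := (exists_eq_insert_iff (s := T) (t := e1)).2 ⟨a2, by omega⟩
  exact hex x hx (hx' ▸ h1)

theorem strong_insert {E : Finset (Finset U)} {A e : Finset U} {c : U} (hs : Strong E A)
    (hc : c ∉ A) (he : e ∈ E) (hce : c ∈ e) (hsub : e ⊆ insert c A) :
    Strong E (insert c A) ∧ ∀ e' ∈ E, e' ⊆ insert c A → e' ⊆ A ∨ e' = e := by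
  have h1 : insert e (E.filter (· ⊆ A)) ⊆ E.filter (· ⊆ insert c A) := by
    intro x hx
    rcases mem_insert.1 hx with rfl | hx
    · simp [he, hsub]
    · rw [mem_filter] at hx ⊢
      exact ⟨hx.1, hx.2.trans (subset_insert _ _)⟩
  have h2 : e ∉ E.filter (· ⊆ A) := by
    rw [mem_filter]; exact fun a => hc (a.2 hce)
  have h3 := hs (insert c A) (subset_insert _ _)
  have h4 := card_le_card h1
  rw [card_insert_of_notMem h2] at h4
  have h5 := card_insert_of_notMem hc
  have h6 : dd E (insert c A) = dd E A := by unfold dd at h3 ⊢; omega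
  refine ⟨fun X hX => ?_, fun e' he' hs' => ?_⟩
  · rw [h6]; exact hs X ((subset_insert _ _).trans hX)
  · have h7 : insert e (E.filter (· ⊆ A)) = E.filter (· ⊆ insert c A) := by
      apply eq_of_subset_of_card_le h1
      rw [card_insert_of_notMem h2]
      unfold dd at h6; omega
    have : e' ∈ insert e (E.filter (· ⊆ A)) := by rw [h7]; simp [he', hs']
    rcases mem_insert.1 this with a | a
    · exact Or.inr a
    · exact Or.inl (mem_filter.1 a).2

end Pool.Agent.H4Hrush
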