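import Pool.Agent.Lib.helper4.Hrush

/-! Extension of finite isomorphisms in the predimension construction. -/

namespace Pool.Agent.H4Hrush

open Finset

def SortP (g : Equiv.Perm U) : Prop := ∀ x, (g x).2 = x.2

theorem SortP.inv {g} (h : SortP g) : SortP g⁻¹ := by
  intro x
  have := h (g⁻¹ x)
  simpa using this.symm

theorem img_inj (g : Equiv.Perm U) : Function.Injective (fun e : Finset U => e.image g) :=
  Finset.image_injective g.injective

theorem img_inv (g : Equiv.Perm U) (X : Finset U) : (X.image g).image ⇑g⁻¹ = X := by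
  rw [image_image]; simp

theorem img_inv' (g : Equiv.Perm U) (X : Finset U) : (X.image ⇑g⁻¹).image g = X := by
  rw [image_image]; simp

theorem img_card (g : Equiv.Perm U) (X : Finset U) : (X.image g).card = X.card :=
  card_image_of_injective _ g.injective

theorem img_sub (g : Equiv.Perm U) {X Y : Finset U} : X.image g ⊆ Y.image g ↔ X ⊆ Y :=
  image_subset_image_iff g.injective

theorem nc_img {g} (h : SortP g) (X : Finset U) : nc (X.image g) = nc X := by
  unfold nc
  rw [filter_image, card_image_of_injective _ g.injective]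
  congr 1
  ext x; simp [h x]

/-- transported edge set -/
def tr (g : Equiv.Perm U) (E : Finset (Finset U)) : Finset (Finset U) :=
  E.image (fun e => e.image g)

theorem mem_tr (g : Equiv.Perm U) (E : Finset (Finset U)) (e : Finset U) :
    e.image g ∈ tr g E ↔ e ∈ E := (img_inj g).mem_finset_image

theorem dd_tr (g : Equiv.Perm U) (E : Finset (Finset U)) (X : Finset U) :
    dd (tr g E) (X.image g) = dd E X := by
  unfold dd tr
  rw [img_card, filter_image, card_image_of_injective _ (img_inj g)]
  congr 3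
  ext e; simp only [mem_filter, img_sub]

theorem Strong.tr {E A} (h : Strong E A) (g : Equiv.Perm U) : Strong (tr g E) (A.image g) := by
  intro X hX
  rw [← img_inv' g X] at hX ⊢
  rw [dd_tr, dd_tr]
  exact h _ ((img_sub g).1 hX)

theorem Good.tr {V E} (h : Good V E) {g : Equiv.Perm U} (hg : SortP g) :
    Good (V.image g) (tr g E) := by
  refine ⟨?_, ?_, ?_, ?_⟩
  · intro e he
    obtain ⟨e0, h0, rfl⟩ := mem_image.1 he
    exact (img_sub g).2 (h.sub e0 h0)
  · intro e he
    obtain ⟨e0, h0, rfl⟩ := mem_image.1 he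
    rw [img_card]; exact h.card e0 h0
  · intro e he
    obtain ⟨e0, h0, rfl⟩ := mem_image.1 he
    rw [nc_img hg]; exact h.col e0 h0
  · intro X hX
    rw [← img_inv' g X] at hX ⊢
    rw [dd_tr]
    rw [img_card] at hX
    exact h.big _ hX

theorem Good.restrict {V E} (h : Good V E) (C : Finset U) : Good C (E.filter (· ⊆ C)) :=
  ⟨fun _ he => (mem_filter.1 he).2, fun e he => h.card e (mem_filter.1 he).1,
    fun e he => h.col e (mem_filter.1 he).1,
    fun X hX => (h.big X hX).trans (dd_anti (filter_subset _ _) X)⟩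

theorem Strong.restrict {E A} (h : Strong E A) {C : Finset U} (hC : A ⊆ C) :
    Strong (E.filter (· ⊆ C)) A := by
  intro X hX
  have h1 : dd (E.filter (· ⊆ C)) A = dd E A :=
    dd_congr fun e he => by simp [he.trans hC]
  rw [h1]
  exact (h X hX).trans (dd_anti (filter_subset _ _) X)

/-- `g` restricts to an isomorphism between strong substructures -/
structure PI (V : Finset U) (E : Finset (Finset U)) (A : Finset U) (g : Equiv.Perm U) : Prop where
  sort : SortP g
  sub1 : A ⊆ V
  sub2 : A.image g ⊆ V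
  st1 : Strong E A
  st2 : Strong E (A.image g)
  iso : ∀ e, e ⊆ A → (e.image g ∈ E ↔ e ∈ E)

theorem PI.ext {V E V' E' A g} (h : PI V E A g) (x : Ext V E V' E') : PI V' E' A g := by
  refine ⟨h.sort, h.sub1.trans x.sub, h.sub2.trans x.sub, x.transfer h.sub1 h.st1,
    x.transfer h.sub2 h.st2, fun e he => ?_⟩
  rw [x.agree e (he.trans h.sub1), x.agree _ (((img_sub g).2 he).trans h.sub2)]
  exact h.iso e he

theorem PI.symm {V E A g} (h : PI V E A g) : PI V E (A.image g) g⁻¹ := by
  refine ⟨h.sort.inv, h.sub2, by rw [img_inv]; exact h.sub1, h.st2,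
    by rw [img_inv]; exact h.st1, fun e he => ?_⟩
  have : e.image ⇑g⁻¹ ⊆ A := by
    rw [← img_sub g, img_inv']; exact he
  rw [← h.iso _ this, img_inv']

theorem sortP_swap {g} (h : SortP g) {c d : U} (hd : d.2 = c.2) :
    SortP (Equiv.swap (g c) d * g) := by
  intro x
  simp only [Equiv.Perm.mul_apply, Equiv.swap_apply_def]
  split_ifs with a b
  · rw [hd, g.injective a]
  · rw [h c, ← hd, ← b, h x]
  · exact h x

theorem fresh_perm {g} (h : SortP g) (A W D : Finset U) (hD : Disjoint D A) :
    ∃ g', SortP g' ∧ (∀ x ∈ A, g' x = g x) ∧ ∀ x ∈ D, g' x ∉ W := by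
  induction D using Finset.induction_on with
  | empty => exact ⟨g, h, fun _ _ => rfl, by simp⟩
  | insert c D hc ih =>
    rw [disjoint_insert_left] at hD
    obtain ⟨g1, s1, a1, b1⟩ := ih hD.2
    obtain ⟨d, hd, hd2⟩ := exists_fresh (W ∪ (A ∪ D).image g1) c.2
    have key : ∀ x ∈ A ∪ D, (Equiv.swap (g1 c) d * g1) x = g1 x := by
      intro x hx
      rw [Equiv.Perm.mul_apply, Equiv.swap_apply_of_ne_of_ne]
      · intro e
        have := g1.injective e
        subst this
        rcases mem_union.1 hx with a | a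
        · exact hD.1 a
        · exact hc a
      · intro e
        apply hd
        rw [← e]
        exact mem_union_right _ (mem_image_of_mem _ hx)
    refine ⟨_, sortP_swap s1 hd2, fun x hx => ?_, fun x hx => ?_⟩
    · rw [key x (mem_union_left _ hx), a1 x hx]
    · rcases mem_insert.1 hx with rfl | hx
      · simp only [Equiv.Perm.mul_apply, Equiv.swap_apply_left]
        exact fun a => hd (mem_union_left _ a)
      · rw [key x (mem_union_right _ hx)]; exact b1 x hx

theorem img_congr {g g' : Equiv.Perm U} {A X : Finset U} (h : ∀ x ∈ A, g' x = g x) (hX : X ⊆ A) :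
    X.image g' = X.image g := image_congr fun x hx => h x (hX hx)

theorem step_one {V E A g} (hg : Good V E) (h : PI V E A g) {c : U} {e : Finset U} (hc : c ∉ A)
    (he : e ∈ E) (hce : c ∈ e) (hsub : e ⊆ insert c A) :
    ∃ V' E' g', Good V' E' ∧ Ext V E V' E' ∧ (∀ x ∈ A, g' x = g x) ∧ PI V' E' (insert c A) g' := by
  have hT0 : e.erase c ⊆ A := by
    intro x hx
    rw [mem_erase] at hx
    rcases mem_insert.1 (hsub hx.2) with a | a
    · exact absurd a hx.1
    · exact a
  have hT0c : (e.erase c).card = 3 := by rw [card_erase_of_mem hce, hg.card e he]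
  have hee : insert c (e.erase c) = e := insert_erase hce
  have hn := nc_insert (T := e.erase c) (d := c) (notMem_erase c e)
  rw [hee, hg.col e he] at hn
  have hTA : (e.erase c).image g ⊆ A.image g := (img_sub g).2 hT0
  obtain ⟨V1, E1, g1, x1, d, hdT, hdE⟩ := complete hg (T := (e.erase c).image g)
    (hTA.trans h.sub2) (by rw [img_card, hT0c]) (by rw [nc_img h.sort]; omega)
  have hdA : d ∉ A.image g := by
    intro hd
    obtain ⟨y, hy, rfl⟩ := mem_image.1 hd
    have s1 : insert y (e.erase c) ⊆ A := insert_subset hy hT0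
    rw [← image_insert] at hdE
    have s2 := (h.iso _ s1).1 ((x1.agree _ (((img_sub g).2 s1).trans h.sub2)).1 hdE)
    have s3 : insert y (e.erase c) ≠ e := fun a => hc (s1 (by rw [a]; exact hce))
    have s4 := hg.lin s2 he s3
    have s5 : e.erase c ⊆ insert y (e.erase c) ∩ e :=
      subset_inter (subset_insert _ _) (erase_subset _ _)
    have := card_le_card s5
    omega
  have hd2 : d.2 = c.2 := by
    have a := nc_insert hdT
    rw [g1.col _ hdE, nc_img h.sort] at a
    cases hd : d.2 <;> cases hc' : c.2 <;> simp [hd, hc'] at a hn ⊢ <;> omega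
  have key : ∀ x ∈ A, (Equiv.swap (g c) d * g) x = g x := by
    intro x hx
    rw [Equiv.Perm.mul_apply, Equiv.swap_apply_of_ne_of_ne]
    · intro e
      have := g.injective e
      subst this
      exact hc hx
    · intro e
      apply hdA
      rw [← e]
      exact mem_image_of_mem _ hx
  have kc : (Equiv.swap (g c) d * g) c = d := by simp
  generalize hg' : Equiv.swap (g c) d * g = g' at key kc
  have hs' : SortP g' := hg' ▸ sortP_swap h.sort hd2
  have h1 := h.ext x1
  have im1 : (insert c A).image g' = insert d (A.image g) := by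
    rw [image_insert, kc, img_congr key subset_rfl]
  have im2 : e.image g' = insert d ((e.erase c).image g) := by
    conv_lhs => rw [← hee]
    rw [image_insert, kc, img_congr key hT0]
  have he1 : e ∈ E1 := (x1.agree e (hg.sub e he)).2 he
  obtain ⟨p1, p2⟩ := strong_insert h1.st1 hc he1 hce hsub
  obtain ⟨q1, q2⟩ := strong_insert h1.st2 hdA hdE (mem_insert_self _ _)
    (insert_subset_insert _ hTA)
  refine ⟨V1, E1, g', g1, x1, key, hs', ?_, ?_, p1, by rw [im1]; exact q1, ?_⟩
  · exact insert_subset (x1.sub (hg.sub e he hce)) h1.sub1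
  · rw [im1]; exact insert_subset (g1.sub _ hdE (mem_insert_self _ _)) h1.sub2
  · intro e' he'
    by_cases hce' : c ∈ e'
    · constructor
      · intro a
        rcases q2 _ a (by rw [← im1]; exact (img_sub g').2 he') with b | b
        · exact absurd (b (kc ▸ mem_image_of_mem _ hce')) hdA
        · rw [← im2] at b
          rw [img_inj g' b]; exact he1
      · intro a
        rcases p2 _ a he' with b | b
        · exact absurd (b hce') hc
        · rw [b, im2]; exact hdE
    · have : e' ⊆ A := (subset_insert_iff_of_notMem hce').1 he'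
      rw [img_congr key this]
      exact h1.iso e' this

theorem step_free {V E A g} (hg : Good V E) (h : PI V E A g) {C : Finset U} (hAC : A ⊆ C)
    (hCV : C ⊆ V) (hC : Strong E C)
    (hno : ∀ c ∈ C, c ∉ A → ∀ e ∈ E, c ∈ e → ¬ e ⊆ insert c A) :
    ∃ V' E' g', Good V' E' ∧ Ext V E V' E' ∧ (∀ x ∈ A, g' x = g x) ∧ PI V' E' C g' := by
  obtain ⟨g', s', a', b'⟩ := fresh_perm h.sort A V (C \ A) sdiff_disjoint
  have g2 : Good (C.image g') (tr g' (E.filter (· ⊆ C))) := (hg.restrict C).tr s'
  have hB : V ∩ C.image g' = A.image g' := by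
    ext x
    simp only [mem_inter, mem_image]
    constructor
    · rintro ⟨hx, y, hy, rfl⟩
      by_cases hyA : y ∈ A
      · exact ⟨y, hyA, rfl⟩
      · exact absurd hx (b' y (mem_sdiff.2 ⟨hy, hyA⟩))
    · rintro ⟨y, hy, rfl⟩
      refine ⟨?_, y, hAC hy, rfl⟩
      rw [a' y hy]; exact h.sub2 (mem_image_of_mem _ hy)
  have hag : ∀ e, e ⊆ V ∩ C.image g' → (e ∈ E ↔ e ∈ tr g' (E.filter (· ⊆ C))) := by
    intro e he
    rw [hB] at he
    rw [← img_inv' g' e] at he ⊢
    rw [img_sub] at he
    rw [mem_tr, img_congr a' he, h.iso _ he, mem_filter]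
    exact ⟨fun a => ⟨a, he.trans hAC⟩, fun a => a.1⟩
  have s1 : Strong E (V ∩ C.image g') := by
    rw [hB, img_congr a' subset_rfl]; exact h.st2
  have s2 : Strong (tr g' (E.filter (· ⊆ C))) (V ∩ C.image g') := by
    rw [hB]; exact (h.st1.restrict hAC).tr g'
  have x1 := amalg_ext hg g2 hag s2
  have x2 := amalg_ext g2 hg (by rw [inter_comm]; exact fun e he => (hag e he).symm)
    (by rw [inter_comm]; exact s1)
  rw [union_comm (C.image g'), union_comm (tr g' _)] at x2
  refine ⟨_, _, g', amalg_good hg g2 hag s1 s2 ?_, x1, a', s', hCV.trans x1.sub, x2.sub,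
    x1.transfer hCV hC, x2.strong, fun e he => ?_⟩
  · intro e1 h1 e2 h2 hne
    obtain ⟨e0, h0, rfl⟩ := mem_image.1 h2
    rw [mem_filter] at h0
    by_cases hA : e0 ⊆ A
    · refine hg.lin h1 ?_ hne
      rw [img_congr a' hA, h.iso _ hA]; exact h0.1
    by_contra hcon
    have t1 : e1 ∩ e0.image g' ⊆ (e0 ∩ A).image g' := by
      intro x hx
      rw [mem_inter] at hx
      have : x ∈ V ∩ C.image g' := mem_inter.2 ⟨hg.sub e1 h1 hx.1, (img_sub g').2 h0.2 hx.2⟩
      rw [hB] at this
      rw [image_inter _ _ g'.injective]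
      exact mem_inter.2 ⟨hx.2, this⟩
    have t2 := card_le_card t1
    rw [img_card] at t2
    have t3 := hg.card e0 h0.1
    have t4 : (e0 ∩ A).card ≠ 4 := by
      intro a
      have : e0 ∩ A = e0 := eq_of_subset_of_card_le inter_subset_left (by omega)
      exact hA (this ▸ inter_subset_right)
    have t5 : (e0 ∩ A).card ≤ 4 := t3 ▸ card_le_card inter_subset_left
    obtain ⟨c, hc, hc'⟩ := (exists_eq_insert_iff (s := e0 ∩ A) (t := e0)).2
      ⟨inter_subset_left, by omega⟩
    have hce : c ∈ e0 := hc' ▸ mem_insert_self _ _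
    refine hno c (h0.2 hce) (fun a => hc (mem_inter.2 ⟨hce, a⟩)) e0 h0.1 hce ?_
    rw [← hc']
    exact insert_subset_insert _ inter_subset_right
  · rw [x2.agree _ ((img_sub g').2 he), x1.agree _ (he.trans hCV), mem_tr]
    simp [he]

theorem extend (C : Finset U) (n : ℕ) : ∀ V E A g, Good V E → PI V E A g → A ⊆ C → C ⊆ V →
    Strong E C → (C \ A).card = n →
    ∃ V' E' g', Good V' E' ∧ Ext V E V' E' ∧ (∀ x ∈ A, g' x = g x) ∧ PI V' E' C g' := by
  induction n using Nat.strong_induction_on with
  | _ n ih =>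
    intro V E A g hg h hAC hCV hC hn
    by_cases hno : ∀ c ∈ C, c ∉ A → ∀ e ∈ E, c ∈ e → ¬ e ⊆ insert c A
    · exact step_free hg h hAC hCV hC hno
    push Not at hno
    obtain ⟨c, hcC, hcA, e, he, hce, hsub⟩ := hno
    obtain ⟨V1, E1, g1, G1, x1, a1, p1⟩ := step_one hg h hcA he hce hsub
    have hlt : (C \ insert c A).card < n := by
      rw [← hn]
      apply card_lt_card
      refine ⟨sdiff_subset_sdiff subset_rfl (subset_insert _ _), fun a => ?_⟩
      have := a (mem_sdiff.2 ⟨hcC, hcA⟩)
      simp at this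
    obtain ⟨V2, E2, g2, G2, x2, a2, p2⟩ := ih _ hlt V1 E1 _ g1 G1 p1 (insert_subset hcC hAC)
      (hCV.trans x1.sub) (x1.transfer hCV hC) rfl
    exact ⟨V2, E2, g2, G2, x1.trans x2,
      fun x hx => (a2 x (mem_insert_of_mem hx)).trans (a1 x hx), p2⟩

theorem extend_dom {V E A g} (hg : Good V E) (h : PI V E A g) :
    ∃ V' E' A' g', Good V' E' ∧ Ext V E V' E' ∧ A ⊆ A' ∧ (∀ x ∈ A, g' x = g x) ∧ PI V' E' A' g' ∧
      V ⊆ A' := by
  obtain ⟨V', E', g', a, b, c, d⟩ := extend V _ V E A g hg h h.sub1 subset_rfl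
    (hg.strong_sup subset_rfl) rfl
  exact ⟨V', E', V, g', a, b, h.sub1, c, d, subset_rfl⟩

theorem extend_ran {V E A g} (hg : Good V E) (h : PI V E A g) :
    ∃ V' E' A' g', Good V' E' ∧ Ext V E V' E' ∧ A ⊆ A' ∧ (∀ x ∈ A, g' x = g x) ∧ PI V' E' A' g' ∧
      V ⊆ A'.image g' := by
  obtain ⟨V', E', g', a, b, c, d⟩ := extend V _ V E _ _ hg h.symm h.sub2 subset_rfl
    (hg.strong_sup subset_rfl) rfl
  refine ⟨V', E', V.image g', g'⁻¹, a, b, ?_, ?_, d.symm, by rw [img_inv]⟩
  · intro x hx
    refine mem_image.2 ⟨g x, h.sub2 (mem_image_of_mem _ hx), ?_⟩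
    rw [c _ (mem_image_of_mem _ hx)]; simp
  · intro x hx
    have := c _ (mem_image_of_mem g hx)
    rw [Equiv.Perm.inv_eq_iff_eq, this]; simp

end Pool.Agent.H4Hrush
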