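import Pool.Agent.Lib.helper4.Hrush2

/-! The generic limit in the predimension construction. -/

namespace Pool.Agent.H4Hrush

open Finset

abbrev I := {p : (Fin 4 → ℕ) × (Fin 4 → ℕ) // Function.Injective p.1 ∧ Function.Injective p.2}

def pts (a : Fin 4 → ℕ) : Finset U := univ.image fun j => (a j, false)

theorem pts_card {a : Fin 4 → ℕ} (h : Function.Injective a) : (pts a).card = 4 := by
  unfold pts
  rw [card_image_of_injective]
  · simp
  · intro i j e
    exact h (congrArg Prod.fst e)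

theorem pts_nc {a : Fin 4 → ℕ} {e : Finset U} (h : e ⊆ pts a) : nc e = 0 := by
  unfold nc
  rw [card_eq_zero, filter_eq_empty_iff]
  intro x hx
  obtain ⟨j, _, rfl⟩ := mem_image.1 (h hx)
  simp

theorem Good.pts_not {V E} (h : Good V E) {a : Fin 4 → ℕ} {e : Finset U} (he : e ⊆ pts a) :
    e ∉ E := fun x => by
  have := h.col e x
  rw [pts_nc he] at this
  omega

theorem Good.pts_strong {V E} (h : Good V E) {a : Fin 4 → ℕ} (ha : Function.Injective a) :
    Strong E (pts a) := by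
  intro X hX
  have c := pts_card ha
  by_cases b : 5 ≤ X.card
  · have := h.big X b
    unfold dd at this ⊢; omega
  · rw [eq_of_subset_of_card_le hX (by omega)]

structure Cond where
  V : Finset U
  E : Finset (Finset U)
  A : I → Finset U
  g : I → Equiv.Perm U
  good : Good V E
  sort : ∀ i, SortP (g i)
  seed : ∀ i, pts i.1.1 ⊆ A i
  val : ∀ i j, g i (i.1.1 j, false) = (i.1.2 j, false)
  inv : ∀ i, A i = pts i.1.1 ∨ PI V E (A i) (g i)

instance : Preorder Cond where
  le s t := Ext s.V s.E t.V t.E ∧ ∀ i, s.A i ⊆ t.A i ∧ ∀ x ∈ s.A i, t.g i x = s.g i x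
  le_refl s := ⟨s.good.ext_sup subset_rfl, fun _ => ⟨subset_rfl, fun _ _ => rfl⟩⟩
  le_trans _ _ _ h k := ⟨h.1.trans k.1, fun i => ⟨(h.2 i).1.trans (k.2 i).1, fun x hx =>
    ((k.2 i).2 x ((h.2 i).1 hx)).trans ((h.2 i).2 x hx)⟩⟩

theorem Cond.le_iff (s t : Cond) : s ≤ t ↔
    Ext s.V s.E t.V t.E ∧ ∀ i, s.A i ⊆ t.A i ∧ ∀ x ∈ s.A i, t.g i x = s.g i x := Iff.rfl

theorem Cond.grow (s : Cond) {V' E'} (hg : Good V' E') (x : Ext s.V s.E V' E') :
    ∃ t : Cond, s ≤ t ∧ t.V = V' ∧ t.E = E' ∧ t.A = s.A ∧ t.g = s.g :=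
  ⟨⟨V', E', s.A, s.g, hg, s.sort, s.seed, s.val, fun i => (s.inv i).imp id fun h => h.ext x⟩,
    ⟨x, fun _ => ⟨subset_rfl, fun _ _ => rfl⟩⟩, rfl, rfl, rfl, rfl⟩

theorem Cond.upd (s : Cond) (i : I) {V' E' A' g'} (hg : Good V' E') (x : Ext s.V s.E V' E')
    (hA : s.A i ⊆ A') (hv : ∀ x ∈ s.A i, g' x = s.g i x) (hp : PI V' E' A' g') :
    ∃ t : Cond, s ≤ t ∧ t.A i = A' ∧ t.g i = g' ∧ PI t.V t.E (t.A i) (t.g i) := by
  classical
  refine ⟨⟨V', E', Function.update s.A i A', Function.update s.g i g', hg, ?_, ?_, ?_, ?_⟩,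
    ⟨x, ?_⟩, by simp, by simp, by simpa using hp⟩
  · intro k
    by_cases h : k = i
    · subst h; simpa using hp.sort
    · simpa [h] using s.sort k
  · intro k
    by_cases h : k = i
    · subst h; simpa using (s.seed k).trans hA
    · simpa [h] using s.seed k
  · intro k j
    by_cases h : k = i
    · subst h
      simp only [Function.update_self]
      rw [hv _ (s.seed k (mem_image.2 ⟨j, mem_univ _, rfl⟩)), s.val]
    · simpa [h] using s.val k j
  · intro k
    by_cases h : k = i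
    · subst h; right; simpa using hp
    · simp only [Function.update_of_ne h]
      exact (s.inv k).imp id fun h => h.ext x
  · intro k
    by_cases h : k = i
    · subst h; simp only [Function.update_self]; exact ⟨hA, hv⟩
    · simp [h]

theorem Cond.norm (s : Cond) (i : I) (u : U) :
    ∃ t : Cond, s ≤ t ∧ u ∈ t.V ∧ PI t.V t.E (t.A i) (t.g i) := by
  have hW : s.V ⊆ insert u (s.V ∪ (pts i.1.1 ∪ pts i.1.2)) :=
    subset_union_left.trans (subset_insert _ _)
  obtain ⟨t, h1, h2, h3, h4, h5⟩ := s.grow (s.good.mono hW) (s.good.ext_sup hW)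
  refine ⟨t, h1, by rw [h2]; exact mem_insert_self _ _, ?_⟩
  rcases t.inv i with h | h
  · have im : (pts i.1.1).image (t.g i) = pts i.1.2 := by
      unfold pts
      rw [image_image]
      congr 1
      funext j
      exact t.val i j
    rw [h]
    refine ⟨t.sort i, ?_, ?_, t.good.pts_strong i.2.1, ?_, ?_⟩
    · rw [h2]
      exact (subset_union_left.trans subset_union_right).trans (subset_insert _ _)
    · rw [h2, im]
      exact (subset_union_right.trans subset_union_right).trans (subset_insert _ _)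
    · rw [im]; exact t.good.pts_strong i.2.2
    · intro e he
      have a1 := t.good.pts_not he
      have a2 := t.good.pts_not (a := i.1.2) (e := e.image (t.g i))
        (by rw [← im]; exact (img_sub _).2 he)
      simp [a1, a2]
  · exact h

/-- the tasks -/
def task : Finset U ⊕ (I × U) ⊕ (I × U) → Set Cond
  | .inl T => {s | T.card = 3 → nc T ≤ 1 → ∃ d, d ∉ T ∧ insert d T ∈ s.E}
  | .inr (.inl (i, u)) => {s | u ∈ s.A i ∧ PI s.V s.E (s.A i) (s.g i)}
  | .inr (.inr (i, u)) => {s | u ∈ (s.A i).image (s.g i)}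

theorem task_cofinal (k) : IsCofinal (task k) := by
  intro s
  rcases k with T | ⟨i, u⟩ | ⟨i, u⟩
  · by_cases h : T.card = 3 ∧ nc T ≤ 1
    · have hW : s.V ⊆ s.V ∪ T := subset_union_left
      obtain ⟨V', E', a, b, c⟩ := complete (s.good.mono hW) subset_union_right h.1 h.2
      obtain ⟨t, h1, h2, h3, h4, h5⟩ := s.grow a ((s.good.ext_sup hW).trans b)
      exact ⟨t, fun _ _ => by rw [h3]; exact c, h1⟩
    · exact ⟨s, fun a b => absurd ⟨a, b⟩ h, le_rfl⟩
  · obtain ⟨t, h1, h2, h3⟩ := s.norm i u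
    obtain ⟨V', E', A', g', a, b, c, d, e, f⟩ := extend_dom t.good h3
    obtain ⟨r, r1, r2, r3, r4⟩ := t.upd i a b c d e
    exact ⟨r, ⟨by rw [r2]; exact f h2, r4⟩, h1.trans r1⟩
  · obtain ⟨t, h1, h2, h3⟩ := s.norm i u
    obtain ⟨V', E', A', g', a, b, c, d, e, f⟩ := extend_ran t.good h3
    obtain ⟨r, r1, r2, r3, r4⟩ := t.upd i a b c d e
    exact ⟨r, by show u ∈ (r.A i).image (r.g i); rw [r2, r3]; exact f h2, h1.trans r1⟩

theorem cond_nonempty : Nonempty Cond := by
  have : ∀ i : I, ∃ g : Equiv.Perm U, SortP g ∧ ∀ j, g (i.1.1 j, false) = (i.1.2 j, false) := by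
    intro i
    obtain ⟨σ, hσ⟩ := Equiv.Perm.exists_extending_pair _ _ i.2.1 i.2.2
    exact ⟨Equiv.prodCongr σ (Equiv.refl _), fun x => rfl, fun j => by simp [hσ]⟩
  choose g h1 h2 using this
  refine ⟨⟨∅, ∅, fun i => pts i.1.1, g, ⟨by simp, by simp, by simp, ?_⟩, h1, fun _ => subset_rfl,
    h2, fun _ => Or.inl rfl⟩⟩
  intro X hX
  unfold dd; simp; omega

theorem exists_seq : ∃ s : ℕ → Cond, Monotone s ∧ ∀ k, ∃ n, s n ∈ task k := by
  obtain ⟨p⟩ := cond_nonempty
  have : Encodable (Finset U ⊕ (I × U) ⊕ (I × U)) := Encodable.ofCountable _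
  let D : Finset U ⊕ (I × U) ⊕ (I × U) → Order.Cofinal Cond := fun k => ⟨task k, task_cofinal k⟩
  exact ⟨Order.sequenceOfCofinals p D, Order.sequenceOfCofinals.monotone p D,
    fun k => ⟨_, Order.sequenceOfCofinals.encode_mem p D k⟩⟩

theorem limit : ∃ L : Set (Finset U), (∀ e ∈ L, e.card = 4 ∧ nc e = 1) ∧
    (∀ e1 ∈ L, ∀ e2 ∈ L, e1 ≠ e2 → (e1 ∩ e2).card ≤ 2) ∧
    (∀ T : Finset U, T.card = 3 → nc T ≤ 1 → ∃ d, d ∉ T ∧ insert d T ∈ L) ∧
    ∀ a b : Fin 4 → ℕ, Function.Injective a → Function.Injective b →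
      ∃ f : Equiv.Perm U, SortP f ∧ (∀ j, f (a j, false) = (b j, false)) ∧
        ∀ e : Finset U, e.image f ∈ L ↔ e ∈ L := by
  obtain ⟨s, hm, ht⟩ := exists_seq
  have up : ∀ {m n e}, m ≤ n → e ∈ (s m).E → e ∈ (s n).E := fun {m n e} h he =>
    ((hm h).1.agree e ((s m).good.sub e he)).2 he
  have down : ∀ {n e}, e ⊆ (s n).V → (∃ m, e ∈ (s m).E) → e ∈ (s n).E := by
    rintro n e he ⟨m, h⟩
    exact ((hm (le_max_left n m)).1.agree e he).1 (up (le_max_right n m) h)
  refine ⟨{e | ∃ n, e ∈ (s n).E}, ?_, ?_, ?_, ?_⟩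
  · rintro e ⟨n, h⟩
    exact ⟨(s n).good.card e h, (s n).good.col e h⟩
  · rintro e1 ⟨m, h1⟩ e2 ⟨n, h2⟩ hne
    exact (s (max m n)).good.lin (up (le_max_left _ _) h1) (up (le_max_right _ _) h2) hne
  · intro T h1 h2
    obtain ⟨n, hn⟩ := ht (.inl T)
    obtain ⟨d, a, b⟩ := hn h1 h2
    exact ⟨d, a, n, b⟩
  · intro a b ha hb
    let i : I := ⟨(a, b), ha, hb⟩
    have hdom : ∀ u, ∃ n, u ∈ (s n).A i ∧ PI (s n).V (s n).E ((s n).A i) ((s n).g i) :=
      fun u => ht (.inr (.inl (i, u)))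
    choose N hN hP using hdom
    have hval : ∀ n u, u ∈ (s n).A i → (s (N u)).g i u = (s n).g i u := by
      intro n u hu
      rw [← ((hm (le_max_left (N u) n)).2 i).2 u (hN u),
        ((hm (le_max_right (N u) n)).2 i).2 u hu]
    have hmono : ∀ {m n u}, m ≤ n → u ∈ (s m).A i → u ∈ (s n).A i := fun h hu =>
      ((hm h).2 i).1 hu
    have hbij : Function.Bijective fun u => (s (N u)).g i u := by
      constructor
      · intro u v h
        simp only at h
        rw [hval _ u (hmono (le_max_left (N u) (N v)) (hN u)),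
          hval _ v (hmono (le_max_right (N u) (N v)) (hN v))] at h
        exact Equiv.injective _ h
      · intro u
        obtain ⟨n, hn⟩ := ht (.inr (.inr (i, u)))
        obtain ⟨v, hv, rfl⟩ := mem_image.1 hn
        exact ⟨v, hval n v hv⟩
    refine ⟨Equiv.ofBijective _ hbij, fun u => (s (N u)).sort i u, fun j => (s _).val i j, ?_⟩
    intro e
    obtain ⟨u0, hu0⟩ : ∃ u0 : U, u0 ∉ pts a := Infinite.exists_notMem_finset _
    have hsub : e ⊆ (s ((insert u0 e).sup N)).A i := fun u hu =>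
      hmono (le_sup (f := N) (mem_insert_of_mem hu)) (hN u)
    have hpi : PI (s ((insert u0 e).sup N)).V (s ((insert u0 e).sup N)).E
        ((s ((insert u0 e).sup N)).A i) ((s ((insert u0 e).sup N)).g i) := by
      rcases (s ((insert u0 e).sup N)).inv i with h | h
      · have := hmono (le_sup (f := N) (mem_insert_self u0 e)) (hN u0)
        rw [h] at this
        exact absurd this hu0
      · exact h
    generalize (insert u0 e).sup N = n at hsub hpi
    have him : e.image (Equiv.ofBijective _ hbij) = e.image ((s n).g i) :=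
      image_congr fun u hu => hval n u (hsub hu)
    rw [him]
    constructor
    · intro h
      exact ⟨n, (hpi.iso e hsub).1 (down (((img_sub _).2 hsub).trans hpi.sub2) h)⟩
    · intro h
      exact ⟨n, (hpi.iso e hsub).2 (down (hsub.trans hpi.sub1) h)⟩

end Pool.Agent.H4Hrush
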