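import Mathlib

/-! Ladder-system groups over a regular uncountable cardinal have no suitable sets. -/

namespace Pool.Agent.Lib.helper4.Ladder2

open Set Filter Topology
open Cardinal

/-- `K` is (the order type of) a regular uncountable cardinal. -/
class Reg (K : Type) [LinearOrder K] : Prop where
  unc : ℵ₀ < #K
  seg : ∀ x : K, #(Iic x) < #K
  ub : ∀ s : Set K, #s < #K → ∃ y, ∀ x ∈ s, x < y

variable {Om : Type} [LinearOrder Om]

theorem exists_ub [Reg Om] (s : Set Om) (hs : s.Countable) : ∃ y, ∀ x ∈ s, x < y :=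
  Reg.ub s (hs.le_aleph0.trans_lt Reg.unc)

instance [Reg Om] : Nonempty Om := by
  obtain ⟨y, _⟩ := exists_ub (∅ : Set Om) countable_empty
  exact ⟨y⟩

/-- `A` is a ladder converging to `δ`. -/
def Lad (δ : Om) (A : Set Om) : Prop :=
  A ⊆ Iio δ ∧ (∀ β < δ, (A ∩ Iio β).Finite) ∧ ∀ β < δ, ∃ ξ ∈ A, β ≤ ξ

open Classical in
/-- A ladder system. -/
noncomputable def A (δ : Om) : Set Om := if h : ∃ A, Lad δ A then h.choose else ∅

theorem A_sub (δ : Om) : A δ ⊆ Iio δ := by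
  unfold A; split_ifs with h
  exacts [h.choose_spec.1, empty_subset _]
theorem A_fin {δ β : Om} (h : β < δ) : (A δ ∩ Iio β).Finite := by
  unfold A; split_ifs with h'
  exacts [h'.choose_spec.2.1 β h, by simp]
theorem A_cof {δ β : Om} (h' : ∃ A, Lad δ A) (h : β < δ) : ∃ ξ ∈ A δ, β ≤ ξ := by
  unfold A; rw [dif_pos h']
  exact h'.choose_spec.2.2 β h

/-- Generators. -/
noncomputable def gen : Om × Bool → Om → ℤ
  | (ξ, true) => Pi.single ξ 1
  | (δ, false) => (A δ).indicator 1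

/-- The ladder-system group. -/
noncomputable def L : Submodule ℤ (Om → ℤ) := Submodule.span ℤ (range gen)

/-- The part generated at stage `β`. -/
noncomputable def M (β : Om) : Submodule ℤ (Om → ℤ) :=
  Submodule.span ℤ (range fun p : Iic β × Bool => gen (p.1, p.2))

theorem M_le (β : Om) : M β ≤ L :=
  Submodule.span_mono (by rintro _ ⟨p, rfl⟩; exact ⟨_, rfl⟩)

theorem M_count [Reg Om] (β : Om) : #(M β : Set (Om → ℤ)) < #Om := by
  have : Nonempty (Iic β) := ⟨⟨β, mem_Iic.2 le_rfl⟩⟩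
  have e : (M β : Set (Om → ℤ)) =
      range (Finsupp.linearCombination ℤ fun p : Iic β × Bool => gen (p.1.1, p.2)) := by
    rw [M, ← Finsupp.range_linearCombination]; rfl
  rw [e]
  refine mk_range_le.trans_lt ?_
  rw [mk_finsupp_of_infinite', mk_prod]
  refine max_lt (mul_lt_of_lt Reg.unc.le (by simpa using Reg.seg β) ?_) (by simpa using Reg.unc)
  simpa using (natCast_lt_aleph0 (n := 2)).trans Reg.unc

theorem fin_mem {β : Om} {y : Om → ℤ} (h : (Function.support y).Finite)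
    (h' : Function.support y ⊆ Iio β) : y ∈ M β := by
  have : y = ∑ ξ ∈ h.toFinset, y ξ • (Pi.single ξ 1 : Om → ℤ) := by
    funext η
    simp only [Finset.sum_apply, Pi.smul_apply, Pi.single_apply, smul_eq_mul, mul_ite, mul_one,
      mul_zero, Finset.sum_ite_eq, Finite.mem_toFinset, Function.mem_support]
    split_ifs with h <;> simp_all
  rw [this]
  refine Submodule.sum_mem _ fun ξ hξ => Submodule.smul_mem _ _ (Submodule.subset_span ?_)
  exact ⟨(⟨ξ, mem_Iic.2 (le_of_lt (h' (h.mem_toFinset.1 hξ)))⟩, true), rfl⟩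

theorem res_mem (β : Om) {y : Om → ℤ} (hy : y ∈ L) : (Iio β).indicator y ∈ M β := by
  induction hy using Submodule.span_induction with
  | mem x hx =>
    obtain ⟨⟨δ, b⟩, rfl⟩ := hx
    cases b
    · by_cases h : δ ≤ β
      · have : (Iio β).indicator (gen (δ, false)) = gen (δ, false) :=
          indicator_eq_self.2 (support_indicator_subset.trans fun ξ hξ => (A_sub δ hξ).trans_le h)
        rw [this]
        exact Submodule.subset_span ⟨(⟨δ, h⟩, false), rfl⟩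
      · refine fin_mem ((A_fin (not_le.1 h)).subset fun ξ hξ => ?_) support_indicator_subset
        rw [support_indicator] at hξ
        exact ⟨support_indicator_subset hξ.2, hξ.1⟩
    · refine fin_mem ((finite_singleton δ).subset fun ξ hξ => ?_) support_indicator_subset
      rw [support_indicator] at hξ
      by_contra hc
      exact hξ.2 (Pi.single_eq_of_ne hc _)
  | zero => simp
  | add x y _ _ hx hy => rw [indicator_add']; exact add_mem hx hy
  | smul a x _ hx =>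
    have : (Iio β).indicator (a • x) = a • (Iio β).indicator x := by
      funext ξ; by_cases h : ξ ∈ Iio β <;> simp [h]
    rw [this]; exact Submodule.smul_mem _ _ hx

theorem bdd [Reg Om] {y : Om → ℤ} (hy : y ∈ L) : ∃ β, ∀ ξ, β ≤ ξ → y ξ = 0 := by
  induction hy using Submodule.span_induction with
  | mem x hx =>
    obtain ⟨⟨δ, b⟩, rfl⟩ := hx
    cases b
    · exact ⟨δ, fun ξ h => indicator_of_notMem (fun hc => not_lt.2 h (A_sub δ hc)) _⟩
    · obtain ⟨β, hβ⟩ := exists_ub {δ} (countable_singleton _)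
      exact ⟨β, fun ξ h => Pi.single_eq_of_ne ((hβ δ rfl).trans_le h).ne' _⟩
  | zero => exact ⟨Classical.arbitrary _, fun _ _ => rfl⟩
  | add x y _ _ hx hy =>
    obtain ⟨a, ha⟩ := hx
    obtain ⟨b, hb⟩ := hy
    exact ⟨max a b, fun ξ h => by simp [ha ξ (le_of_max_le_left h), hb ξ (le_of_max_le_right h)]⟩
  | smul a x _ hx => exact hx.imp fun b hb ξ h => by simp [hb ξ h]

/-- `δ` is a nonzero limit closed under `H`. -/
def Cl (H : Om → Om) (δ : Om) : Prop := (∃ β, β < δ) ∧ ∀ β < δ, H β < δ ∧ ∃ η, β < η ∧ η < δ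

theorem exists_cl [Reg Om] [WellFoundedLT Om] (H : Om → Om) (β : Om) :
    ∃ δ, β < δ ∧ Cl H δ ∧ ∃ A, Lad δ A := by
  have : ∀ a : Om, ∃ b, a < b ∧ ∀ c ≤ a, H c < b := fun a => by
    obtain ⟨b, hb⟩ := Reg.ub (insert a (H '' Iic a)) (mk_insert_le.trans_lt
      (add_one_lt_of_lt Reg.unc.le (mk_image_le.trans_lt (Reg.seg a))))
    exact ⟨b, hb a (mem_insert _ _), fun c hc => hb _ (mem_insert_of_mem _ ⟨c, hc, rfl⟩)⟩
  choose nx h1 h2 using this
  obtain ⟨δ, h3, h4⟩ := (wellFounded_lt (α := Om)).has_min {δ | ∀ n, nx^[n] β < δ}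
    (by obtain ⟨b, hb⟩ := exists_ub _ (countable_range fun n => nx^[n] β)
        exact ⟨b, fun n => hb _ ⟨n, rfl⟩⟩)
  have cof : ∀ c < δ, ∃ n, c ≤ nx^[n] β := fun c hc => by
    by_contra h
    push Not at h
    exact h4 c h hc
  have mono : StrictMono fun n => nx^[n] β := strictMono_nat_of_lt_succ fun n => by
    simp only [Function.iterate_succ_apply']; exact h1 _
  refine ⟨δ, h3 0, ⟨⟨β, h3 0⟩, fun c hc => ?_⟩, range fun n => nx^[n] β, ?_, fun c hc => ?_,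
    fun c hc => ?_⟩
  · obtain ⟨n, hn⟩ := cof c hc
    have := h3 (n + 1)
    rw [Function.iterate_succ_apply'] at this
    exact ⟨(h2 _ c hn).trans this, _, hn.trans_lt (h1 _), this⟩
  · rintro _ ⟨n, rfl⟩; exact h3 n
  · obtain ⟨n, hn⟩ := cof c hc
    refine ((finite_Iio n).image fun n => nx^[n] β).subset ?_
    rintro _ ⟨⟨m, rfl⟩, hm⟩
    exact ⟨m, mono.lt_iff_lt.1 (lt_of_lt_of_le hm hn), rfl⟩
  · obtain ⟨n, hn⟩ := cof c hc
    exact ⟨_, ⟨n, rfl⟩, hn⟩

/-- `y` vanishes on a final part of `δ`. -/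
def Van (y : Om → ℤ) (δ : Om) : Prop := ∃ β < δ, ∀ ξ, β ≤ ξ → ξ < δ → y ξ = 0

theorem Van.add {x y} {δ : Om} (hx : Van x δ) (hy : Van y δ) : Van (x + y) δ := by
  obtain ⟨a, ha, h⟩ := hx
  obtain ⟨b, hb, h'⟩ := hy
  exact ⟨max a b, max_lt ha hb, fun ξ h1 h2 => by
    simp [h ξ (le_of_max_le_left h1) h2, h' ξ (le_of_max_le_right h1) h2]⟩

theorem acc_fin (H : Om → Om) {y : Om → ℤ} (hy : y ∈ L) : {δ | Cl H δ ∧ ¬ Van y δ}.Finite := by
  have fin : ∀ (y : Om → ℤ) δ, Cl H δ → (Function.support y ∩ Iio δ).Finite → Van y δ := by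
    intro y δ hδ hf
    obtain ⟨β, hβ⟩ := hδ.1
    obtain ⟨m, m1, m2⟩ := (hf.insert β).exists_maximal (insert_nonempty _ _)
    have hm : m < δ := m1.elim (fun h => h ▸ hβ) fun h => h.2
    obtain ⟨η, e1, e2⟩ := (hδ.2 m hm).2
    refine ⟨η, e2, fun ξ a b => by_contra fun hc => ?_⟩
    exact not_lt.2 (m2 (Or.inr ⟨hc, b⟩) (e1.trans_le a).le) (e1.trans_le a)
  induction hy using Submodule.span_induction with
  | mem x hx =>
    obtain ⟨⟨γ, b⟩, rfl⟩ := hx
    refine (finite_singleton γ).subset fun δ hδ => by_contra fun hc => hδ.2 ?_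
    cases b
    · rcases lt_or_gt_of_ne hc with h | h
      · exact fin _ _ hδ.1 ((A_fin h).subset (inter_subset_inter_left _ support_indicator_subset))
      · exact ⟨γ, h, fun ξ a _ => indicator_of_notMem (fun hc => not_lt.2 a (A_sub γ hc)) _⟩
    · refine fin _ _ hδ.1 ((finite_singleton γ).subset fun ξ hξ => by_contra fun hc => ?_)
      exact hξ.1 (Pi.single_eq_of_ne hc _)
  | zero =>
    refine finite_empty.subset fun δ hδ => hδ.2 ?_
    obtain ⟨β, hβ⟩ := hδ.1.1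
    exact ⟨β, hβ, fun _ _ _ => rfl⟩
  | add x y _ _ hx hy =>
    refine (hx.union hy).subset fun δ hδ => by_contra fun hc => hδ.2 ?_
    simp only [mem_union, mem_ofPred_eq, hδ.1, true_and, not_or, not_not] at hc
    exact hc.1.add hc.2
  | smul a x _ hx =>
    refine hx.subset fun δ hδ => ⟨hδ.1, fun ⟨β, h1, h2⟩ => hδ.2 ⟨β, h1, fun ξ a b => ?_⟩⟩
    simp [h2 ξ a b]

theorem alg [Reg Om] [WellFoundedLT Om] (S : Set (Om → ℤ)) (hS : S ⊆ L (Om := Om))
    (h1 : ∀ y ∈ L, y ≠ 0 → ∃ α, ∀ s ∈ S, (∀ ξ < α, s ξ = y ξ) → s = y)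
    (h2 : ∀ y ∈ L, ∀ α, ∃ d ∈ AddSubgroup.closure S, ∀ ξ < α, d ξ = y ξ) : False := by
  choose! a ha using h1
  have : ∀ β, ∃ γ, ∀ y ∈ M β, a y < γ := fun β => by
    obtain ⟨γ, h⟩ := Reg.ub _ ((mk_image_le (f := a)).trans_lt (M_count β))
    exact ⟨γ, fun y hy => h _ ⟨y, hy, rfl⟩⟩
  choose H hH using this
  have bd : ∀ β, ∃ γ, ∀ s ∈ S, s β ≠ 0 → ∀ ξ, γ ≤ ξ → s ξ = 0 := by
    intro β
    choose nx n1 n2 n3 using exists_cl H
    have mono : StrictMono fun n => nx^[n] β := strictMono_nat_of_lt_succ fun n => by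
      simp only [Function.iterate_succ_apply']; exact n1 _
    obtain ⟨γ, hγ⟩ := exists_ub _ (countable_range fun n => nx^[n] β)
    refine ⟨γ, fun s hs h0 ξ hξ => by_contra fun hc => ?_⟩
    refine infinite_range_of_injective (f := fun n => nx^[n + 1] β)
      (fun m n h => by simpa using mono.injective h) ((acc_fin H (hS hs)).subset ?_)
    rintro _ ⟨n, rfl⟩
    have hcl : Cl H (nx^[n + 1] β) := by rw [Function.iterate_succ_apply']; exact n2 _
    have hlt : β < nx^[n + 1] β := mono (Nat.succ_pos n)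
    refine ⟨hcl, fun ⟨b, b1, b2⟩ => ?_⟩
    obtain ⟨η, e1, e2⟩ := (hcl.2 _ (max_lt b1 hlt)).2
    have m := res_mem η (hS hs)
    have e := ha _ (M_le η m) (fun h => h0 (by
      have := congrFun h β
      rwa [indicator_of_mem (show β ∈ Iio η from (le_max_right _ _).trans_lt e1)] at this)) s hs
      (fun ζ hζ => by
        by_cases h : ζ < η
        · exact (indicator_of_mem (show ζ ∈ Iio η from h) _).symm
        · rw [indicator_of_notMem (show ζ ∉ Iio η from h)]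
          exact b2 ζ (((le_max_left _ _).trans e1.le).trans (not_lt.1 h))
            (hζ.trans ((hH η _ m).trans (hcl.2 η e2).1)))
    apply hc
    rw [e]
    exact indicator_of_notMem (show ξ ∉ Iio η from
      not_lt.2 ((e2.trans (hγ _ ⟨n + 1, rfl⟩)).le.trans hξ)) _
  choose Γ hΓ using bd
  obtain ⟨δ, -, hδ, hl⟩ := exists_cl Γ (Classical.arbitrary _)
  obtain ⟨d, hd, hd'⟩ := h2 (gen (δ, false)) (Submodule.subset_span ⟨_, rfl⟩) δ
  have : Van d δ := by
    clear hd'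
    induction hd using AddSubgroup.closure_induction with
    | mem s hs =>
      by_cases h : ∃ β < δ, s β ≠ 0
      · obtain ⟨β, b1, b2⟩ := h
        exact ⟨Γ β, (hδ.2 β b1).1, fun ξ a _ => hΓ β s hs b2 ξ a⟩
      · push Not at h
        obtain ⟨β, hβ⟩ := hδ.1
        exact ⟨β, hβ, fun ξ _ b => h ξ b⟩
    | zero => obtain ⟨β, hβ⟩ := hδ.1; exact ⟨β, hβ, fun _ _ _ => rfl⟩
    | add x y _ _ hx hy => exact hx.add hy
    | neg x _ hx => exact hx.imp fun β h => ⟨h.1, fun ξ a b => by simp [h.2 ξ a b]⟩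
  obtain ⟨β, b1, b2⟩ := this
  obtain ⟨ξ, x1, x2⟩ := A_cof hl b1
  have := b2 ξ x2 (A_sub δ x1)
  rw [hd' ξ (A_sub δ x1)] at this
  simp [gen, x1] at this

theorem core [Reg Om] [WellFoundedLT Om] {K : Type} [TopologicalSpace K] (φ : K → Om → ℤ)
    (hr : range φ = L (Om := Om))
    (hb : ∀ x, (𝓝 x).HasBasis (fun _ : Om => True) fun α => {y | ∀ ξ < α, φ y ξ = φ x ξ})
    (z : K) (hz : φ z = 0) (S D : Set K) (h1 : IsDiscrete S) (h2 : IsClosed (insert z S))
    (h3 : Dense D) (h4 : ∀ d ∈ D, φ d ∈ AddSubgroup.closure (φ '' S)) : False := by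
  refine alg (φ '' S) (hr ▸ image_subset_range _ _) (fun y hy h0 => ?_) (fun y hy α => ?_)
  · obtain ⟨x, rfl⟩ : y ∈ range φ := hr ▸ hy
    by_cases hx : x ∈ S
    · obtain ⟨u, u1, u2⟩ := isDiscrete_iff_forall_mem_exists_isOpen.1 h1 x hx
      have hxu : x ∈ u ∩ S := u2 ▸ rfl
      obtain ⟨α, -, hα⟩ := (hb x).mem_iff.1 (u1.mem_nhds hxu.1)
      refine ⟨α, ?_⟩
      rintro _ ⟨s, hs, rfl⟩ h
      have : s ∈ u ∩ S := ⟨hα h, hs⟩
      rw [u2] at this
      rw [this]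
    · obtain ⟨α, -, hα⟩ := (hb x).mem_iff.1 (h2.isOpen_compl.mem_nhds (by
        rintro (rfl | h)
        · exact h0 hz
        · exact hx h))
      refine ⟨α, ?_⟩
      rintro _ ⟨s, hs, rfl⟩ h
      exact absurd (Or.inr hs) (hα h)
  · obtain ⟨x, rfl⟩ : y ∈ range φ := hr ▸ hy
    obtain ⟨d, d1, d2⟩ := mem_closure_iff_nhds.1 (h3 x) _ ((hb x).mem_of_mem (i := α) trivial)
    exact ⟨_, h4 d d2, d1⟩

/-- The ladder group inside the lexicographic power. -/
def LL (Om : Type) [LinearOrder Om] : AddSubgroup (Lex (Om → ℤ)) where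
  carrier := {x | ofLex x ∈ L}
  add_mem' a b := L.add_mem a b
  zero_mem' := L.zero_mem
  neg_mem' a := L.neg_mem a

/-- The ladder group with the lexicographic order. -/
abbrev G (Om : Type) [LinearOrder Om] : Type := LL Om

/-- The underlying function. -/
def ph (x : (G Om)) : Om → ℤ := ofLex x.1

theorem ph_inj : Function.Injective (ph (Om := Om)) := Subtype.val_injective
theorem ph_range : range (ph (Om := Om)) = L (Om := Om) :=
  Subset.antisymm (by rintro _ ⟨x, rfl⟩; exact x.2) fun y hy => ⟨⟨toLex y, hy⟩, rfl⟩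
theorem lt_iff {x y : (G Om)} : x < y ↔ ∃ i, (∀ j < i, ph x j = ph y j) ∧ ph x i < ph y i := Iff.rfl

variable [WellFoundedLT Om]

/-- Basic elements. -/
noncomputable def e (α : Om) : (G Om) := 
  ⟨toLex (gen (α, true)), show gen (α, true) ∈ L from Submodule.subset_span ⟨_, rfl⟩⟩

theorem e_pos (α : Om) : 0 < e α :=
  lt_iff.2 ⟨α, fun j h => by
    show (0 : ℤ) = (Pi.single α 1 : Om → ℤ) j
    rw [Pi.single_eq_of_ne h.ne], by
    show (0 : ℤ) < (Pi.single α 1 : Om → ℤ) α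
    simp⟩

theorem near {x y : (G Om)} {α : Om} (h1 : x - e α < y) (h2 : y < x + e α) :
    ∀ ξ < α, ph y ξ = ph x ξ := by
  by_contra hc
  push Not at hc
  obtain ⟨ξ, ⟨a, b⟩, m⟩ := (wellFounded_lt (α := Om)).has_min {ξ | ξ < α ∧ ph y ξ ≠ ph x ξ} hc
  have z : ∀ j ≤ ξ, ph (e α) j = 0 := fun j hj => Pi.single_eq_of_ne (hj.trans_lt a).ne _
  have eq : ∀ j < ξ, ph y j = ph x j := fun j hj => by_contra fun h => m j ⟨hj.trans a, h⟩ hj
  rcases lt_or_gt_of_ne b with h | h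
  · refine lt_asymm h1 (lt_iff.2 ⟨ξ, fun j hj => ?_, ?_⟩)
    · show _ = ph x j - ph (e α) j
      rw [z j hj.le, eq j hj, sub_zero]
    · show _ < ph x ξ - ph (e α) ξ
      rw [z ξ le_rfl, sub_zero]; exact h
  · refine lt_asymm h2 (lt_iff.2 ⟨ξ, fun j hj => ?_, ?_⟩)
    · show ph x j + ph (e α) j = _
      rw [z j hj.le, eq j hj, add_zero]
    · show ph x ξ + ph (e α) ξ < _
      rw [z ξ le_rfl, add_zero]; exact h

variable [Reg Om]

theorem lt_near {x l : (G Om)} (h : l < x) : ∃ α, ∀ y : (G Om), (∀ ξ < α, ph y ξ = ph x ξ) → l < y := by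
  obtain ⟨i, h1, h2⟩ := lt_iff.1 h
  obtain ⟨α, hα⟩ := exists_ub {i} (countable_singleton _)
  have hi := hα i rfl
  exact ⟨α, fun y hy => lt_iff.2 ⟨i, fun j hj => by rw [hy j (hj.trans hi), h1 j hj],
    by rw [hy i hi]; exact h2⟩⟩

theorem gt_near {x u : (G Om)} (h : x < u) : ∃ α, ∀ y : (G Om), (∀ ξ < α, ph y ξ = ph x ξ) → y < u := by
  obtain ⟨i, h1, h2⟩ := lt_iff.1 h
  obtain ⟨α, hα⟩ := exists_ub {i} (countable_singleton _)
  have hi := hα i rfl
  exact ⟨α, fun y hy => lt_iff.2 ⟨i, fun j hj => by rw [hy j (hj.trans hi), h1 j hj],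
    by rw [hy i hi]; exact h2⟩⟩

instance : Nontrivial (G Om) := ⟨⟨0, _, (e_pos (Classical.arbitrary _)).ne⟩⟩

theorem basis [TopologicalSpace (G Om)] [OrderTopology (G Om)] (x : (G Om)) :
    (𝓝 x).HasBasis (fun _ : Om => True) fun α => {y | ∀ ξ < α, ph y ξ = ph x ξ} := by
  refine ⟨fun U => ⟨fun hU => ?_, fun ⟨α, _, h⟩ => mem_of_superset (mem_of_superset
    (Ioo_mem_nhds (sub_lt_self x (e_pos α)) (lt_add_of_pos_right x (e_pos α)))
    fun y hy => near hy.1 hy.2) h⟩⟩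
  obtain ⟨l, u, h1, h2⟩ := mem_nhds_iff_exists_Ioo_subset.1 hU
  obtain ⟨a, ha⟩ := lt_near h1.1
  obtain ⟨b, hb⟩ := gt_near h1.2
  exact ⟨max a b, trivial, fun y hy => h2 ⟨ha y fun ξ h => hy ξ (lt_max_of_lt_left h),
    hb y fun ξ h => hy ξ (lt_max_of_lt_right h)⟩⟩

omit [WellFoundedLT Om] [Reg Om] [LinearOrder Om] in
theorem exists_K : ∃ (K : Type) (_ : LinearOrder K) (_ : WellFoundedLT K), Reg K ∧
    ∃ ψ : (ℕ → ℕ) → K, Monotone ψ ∧ ∀ α, ∃ g, α < ψ g := by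
  obtain ⟨κ, ⟨B, hB, rfl⟩, hm⟩ := (wellFounded_lt (α := Cardinal.{0})).has_min
    {c | ∃ B : Set (ℕ → ℕ), (∀ g, ∃ b ∈ B, ¬ b ≤ᶠ[atTop] g) ∧ #B = c}
    ⟨_, univ, fun g => ⟨fun n => g n + 1, trivial, fun h => by
      obtain ⟨n, hn⟩ := h.exists
      simp at hn⟩, rfl⟩
  have bd : ∀ C : Set (ℕ → ℕ), #C < #B → ∃ g, ∀ b ∈ C, b ≤ᶠ[atTop] g := fun C hC => by
    by_contra h
    push Not at h
    exact hm _ ⟨C, h, rfl⟩ hC
  have unc : ℵ₀ < #B := by
    by_contra h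
    obtain ⟨f, hf⟩ := (le_aleph0_iff_set_countable.1 (not_lt.1 h)).exists_eq_range
      (by obtain ⟨b, hb, -⟩ := hB 0; exact ⟨b, hb⟩)
    obtain ⟨_, hb, h⟩ := hB fun n => ∑ i ∈ Finset.range (n + 1), f i n
    rw [hf] at hb
    obtain ⟨i, rfl⟩ := hb
    exact h (eventually_atTop.2 ⟨i, fun n hn => Finset.single_le_sum (f := fun i => f i n)
      (fun _ _ => Nat.zero_le _) (Finset.mem_range.2 (Nat.lt_succ_of_le hn))⟩)
  let K := (#B).ord.ToType
  have hK : #K = #B := mk_ord_toType _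
  obtain ⟨e⟩ := Cardinal.eq.1 hK
  have seg : ∀ x : K, #(Iic x) < #K := fun x => mk_Iic_lt x (by simp [K]) (hK ▸ unc.le)
  have : ∀ g : ℕ → ℕ, ∃ ξ : K, ∀ η, (e η).1 ≤ᶠ[atTop] g ∨ ξ ≤ η ∧ ¬ (e ξ).1 ≤ᶠ[atTop] g :=
    fun g => by
    obtain ⟨b, h1, h2⟩ := hB g
    obtain ⟨ξ, a, b⟩ := (wellFounded_lt (α := K)).has_min {ξ | ¬ (e ξ).1 ≤ᶠ[atTop] g}
      ⟨e.symm ⟨b, h1⟩, by simpa using h2⟩
    exact ⟨ξ, fun η => or_iff_not_imp_left.2 fun h => ⟨not_lt.1 (b η h), a⟩⟩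
  choose ψ hψ using this
  have nb : ∀ g, ¬ (e (ψ g)).1 ≤ᶠ[atTop] g := fun g => by
    obtain ⟨b, h1, h2⟩ := hB g
    exact ((hψ g (e.symm ⟨b, h1⟩)).resolve_left (by simpa using h2)).2
  have mono : ∀ g g', g ≤ᶠ[atTop] g' → ψ g ≤ ψ g' := fun g g' h =>
    ((hψ g (ψ g')).resolve_left fun h' => nb g' (h'.trans h)).1
  have cof : ∀ α, ∃ g, α < ψ g := fun α => by
    obtain ⟨g, hg⟩ := bd ((fun x => (e x).1) '' Iic α) (mk_image_le.trans_lt ((seg α).trans_eq hK))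
    exact ⟨g, not_le.1 fun h => nb g (hg _ ⟨_, h, rfl⟩)⟩
  refine ⟨K, inferInstance, inferInstance, ⟨hK ▸ unc, seg, fun s hs => ?_⟩, ψ,
    fun g g' h => mono g g' (Eventually.of_forall h), cof⟩
  choose c hc using cof
  obtain ⟨g, hg⟩ := bd (c '' s) (mk_image_le.trans_lt (hK ▸ hs))
  exact ⟨ψ g, fun x hx => (hc x).trans_le (mono _ _ (hg _ ⟨x, hx, rfl⟩))⟩

end Pool.Agent.Lib.helper4.Ladder2
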