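import Mathlib

namespace Pool.Agent.H4Large

open Cardinal hiding univ
open Set Pointwise

universe u

def Large {G : Type u} [Group G] (κ : Cardinal.{u}) (A : Set G) : Prop :=
  (∃ F : Set G, #F < κ ∧ F * A = univ) ∧ ∃ F : Set G, #F < κ ∧ A * F = univ

lemma inj_choice {J Q : Type u} (S : J → Set Q) (h : ∀ j, #J ≤ #(S j)) :
    ∃ φ : J → Q, Function.Injective φ ∧ ∀ j, φ j ∈ S j := by
  obtain ⟨r, wo, hr⟩ := Cardinal.exists_ord_eq J
  have key : ∀ (j : J) (prev : ∀ i, r i j → Q),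
      ∃ x ∈ S j, x ∉ range fun i : {i // r i j} => prev i.1 i.2 := by
    intro j prev
    by_contra hn
    push Not at hn
    have h1 : #(S j) ≤ #{i // r i j} := (mk_le_mk_of_subset hn).trans mk_range_le
    have h2 := Cardinal.card_typein_lt j hr
    rw [Ordinal.card_typein] at h2
    exact absurd ((h j).trans h1) (not_le.2 h2)
  choose F hF1 hF2 using key
  let φ : J → Q := wo.wf.fix F
  have hφ : ∀ j, φ j = F j fun i _ => φ i := fun j => wo.wf.fix_eq F j
  have hne : ∀ i j, r i j → φ j ≠ φ i := by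
    intro i j hij e
    refine hF2 j (fun i _ => φ i) ⟨⟨i, hij⟩, ?_⟩
    rw [← hφ, e]
  refine ⟨φ, fun i j e => ?_, fun j => hφ j ▸ hF1 _ _⟩
  rcases trichotomous_of r i j with h | h | h
  · exact absurd e.symm (hne i j h)
  · exact h
  · exact absurd e (hne j i h)

lemma inj_choice_blocks {J Q Ω : Type u} (S : J → Set Q) (b : J → Ω)
    (h : ∀ j, #(b ⁻¹' {b j}) ≤ #(S j)) (hd : ∀ j j', (S j ∩ S j').Nonempty → b j = b j') :
    ∃ φ : J → Q, Function.Injective φ ∧ ∀ j, φ j ∈ S j := by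
  have key : ∀ ω : Ω, ∃ φ : b ⁻¹' {ω} → Q, Function.Injective φ ∧ ∀ j, φ j ∈ S j.1 := by
    intro ω
    refine inj_choice (fun j : b ⁻¹' {ω} => S j.1) fun j => ?_
    have h1 : b j.1 = ω := j.2
    have := h j.1
    rwa [h1] at this
  choose φ h1 h2 using key
  refine ⟨fun j => φ (b j) ⟨j, rfl⟩, fun i j e => ?_, fun j => h2 _ ⟨j, rfl⟩⟩
  have e1 : b i = b j := hd i j ⟨_, h2 _ ⟨i, rfl⟩, by
    have := h2 (b j) ⟨j, rfl⟩
    simp only at e
    rwa [← e] at this⟩
  have key : ∀ (ω : Ω) (hω : b i = ω), φ (b i) ⟨i, rfl⟩ = φ ω ⟨i, hω⟩ := by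
    rintro _ rfl; rfl
  simp only at e
  rw [key _ e1] at e
  exact congrArg Subtype.val (h1 _ e)

variable {G : Type u} [Group G]

def Meets (K : Subgroup G) (B : Set G) : Prop :=
  ∀ x, (∃ k ∈ K, k * x ∈ B) ∧ ∃ k ∈ K, x * k ∈ B

def BiInv {T : Sort*} (H : Subgroup G) (γ : G → T) : Prop :=
  ∀ h ∈ H, ∀ x, γ (h * x) = γ x ∧ γ (x * h) = γ x

lemma dc_card (H : Subgroup G) (x : G) :
    #((DoubleCoset.mk H H) ⁻¹' {DoubleCoset.mk H H x}) ≤ #H * #H := by
  have : (DoubleCoset.mk H H) ⁻¹' {DoubleCoset.mk H H x}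
      ⊆ range fun p : H × H => p.1.1 * x * p.2.1 := by
    intro y hy
    have h1 : DoubleCoset.mk H H y = DoubleCoset.mk H H x := hy
    obtain ⟨h, hh, k, hk, e⟩ := (DoubleCoset.eq H H x y).1 h1.symm
    exact ⟨(⟨h, hh⟩, ⟨k, hk⟩), e.symm⟩
  simpa using (mk_le_mk_of_subset this).trans mk_range_le

lemma image_big {H K : Subgroup G} (hlt : #H < #K) (hK : ℵ₀ ≤ #K) (f : K → G)
    (hf : Function.Injective f) : #K ≤ #(range fun k => DoubleCoset.mk H H (f k)) := by
  by_contra hn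
  push Not at hn
  have h1 := mk_le_mk_mul_of_mk_preimage_le (c := #H * #H)
    (Set.rangeFactorization fun k => DoubleCoset.mk H H (f k)) (by
      rintro ⟨_, k, rfl⟩
      refine le_trans ?_ (dc_card H (f k))
      refine mk_le_of_injective (f := fun l => ⟨f l.1, congrArg Subtype.val l.2⟩) ?_
      intro a b e
      exact Subtype.ext (hf (congrArg Subtype.val e)))
  exact absurd h1 (not_le.2 (mul_lt_of_lt hK hn (mul_lt_of_lt hK hlt hlt)))

lemma split {H K : Subgroup G} (hle : H ≤ K) (hlt : #H < #K) (hK : ℵ₀ ≤ #K) {T : Type u}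
    [Nonempty T] (C : Set T) (hC : #C ≤ #K) :
    ∃ γ : G → T, BiInv H γ ∧ ∀ c ∈ C, Meets K (γ ⁻¹' {c}) := by
  classical
  let f : G × Bool × C → K → G := fun j k => if j.2.1 then k.1 * j.1 else j.1 * k.1
  have hf : ∀ j, Function.Injective (f j) := by
    rintro ⟨x, s, c⟩ a b e
    cases s
    · exact Subtype.ext (mul_left_cancel e)
    · exact Subtype.ext (mul_right_cancel e)
  have hb : ∀ j k, DoubleCoset.mk K K (f j k) = DoubleCoset.mk K K j.1 := by
    rintro ⟨x, s, c⟩ k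
    rw [eq_comm, DoubleCoset.eq]
    cases s
    · exact ⟨1, K.one_mem, k, k.2, by simp [f]⟩
    · exact ⟨k, k.2, 1, K.one_mem, by simp [f]⟩
  obtain ⟨φ, h1, h2⟩ := inj_choice_blocks
    (fun j : G × Bool × C => range fun k => DoubleCoset.mk H H (f j k))
    (fun j => DoubleCoset.mk K K j.1) (fun j => by
      refine le_trans ?_ (image_big hlt hK (f j) (hf j))
      have a1 : #((fun j : G × Bool × C => DoubleCoset.mk K K j.1) ⁻¹' {DoubleCoset.mk K K j.1})
          ≤ #(((DoubleCoset.mk K K) ⁻¹' {DoubleCoset.mk K K j.1}) × Bool × C) := by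
        refine mk_le_of_injective (f := fun l => (⟨l.1.1, l.2⟩, l.1.2)) ?_
        intro a b e
        exact Subtype.ext (Prod.ext (congrArg Subtype.val (Prod.ext_iff.1 e).1) (Prod.ext_iff.1 e).2)
      refine a1.trans ?_
      simp only [mk_prod, lift_id, mk_bool, lift_ofNat, lift_uzero]
      have a2 := dc_card K j.1
      rw [mul_eq_self hK] at a2
      have a3 : (2 : Cardinal.{u}) ≤ #K := (natCast_lt_aleph0 (n := 2)).le.trans hK
      calc _ ≤ #K * (#K * #K) := by gcongr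
        _ = #K := by rw [mul_eq_self hK, mul_eq_self hK])
    (by
      rintro j j' ⟨_, ⟨k, rfl⟩, k', e⟩
      obtain ⟨h, hh, h', hh', e'⟩ := (DoubleCoset.eq H H _ _).1 e
      rw [← hb j k, ← hb j' k', eq_comm, DoubleCoset.eq]
      exact ⟨h, hle hh, h', hle hh', e'⟩)
  let g : DoubleCoset.Quotient (H : Set G) H → T := fun q =>
    if h : ∃ j, φ j = q then h.choose.2.2.1 else Classical.arbitrary T
  have hg : ∀ j, g (φ j) = j.2.2.1 := by
    intro j
    have h : ∃ i, φ i = φ j := ⟨j, rfl⟩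
    simp only [g, dif_pos h, h1 h.choose_spec]
  refine ⟨fun x => g (DoubleCoset.mk H H x), fun h hh x => ⟨?_, ?_⟩, fun c hc x => ⟨?_, ?_⟩⟩
  · refine congrArg g ?_
    rw [eq_comm, DoubleCoset.eq]
    exact ⟨h, hh, 1, H.one_mem, by simp⟩
  · refine congrArg g ?_
    rw [eq_comm, DoubleCoset.eq]
    exact ⟨1, H.one_mem, h, hh, by simp⟩
  · obtain ⟨k, hk⟩ := h2 (x, true, ⟨c, hc⟩)
    refine ⟨k, k.2, ?_⟩
    have := hg (x, true, ⟨c, hc⟩)
    rw [← hk] at this
    exact this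
  · obtain ⟨k, hk⟩ := h2 (x, false, ⟨c, hc⟩)
    refine ⟨k, k.2, ?_⟩
    have := hg (x, false, ⟨c, hc⟩)
    rw [← hk] at this
    exact this

lemma reservoir {I : Type u} [Nonempty I] (H : Subgroup G) (hH : ℵ₀ ≤ #H) (B : I → Set G)
    (K : I → Subgroup G)
    (hle : ∀ i, H ≤ K i) (hinv : BiInv H fun x => {i | x ∈ B i})
    (hpt : ∀ x, #{i | x ∈ B i} ≤ #H) (hm : ∀ i, Meets (K i) (B i)) :
    ∃ c : G → I, ∀ i, Meets (K i) (c ⁻¹' {i}) := by
  obtain ⟨γ, -, hγ⟩ := split (H := ⊥) (K := H) bot_le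
    (by simpa using one_lt_aleph0.trans_le hH) hH (T := H) univ (by simp)
  have key : ∀ S : Set I, ∃ e : H → I, #S ≤ #H → S ⊆ range e := by
    intro S
    by_cases h : #S ≤ #H
    · obtain ⟨f⟩ := (Cardinal.le_def _ _).1 h
      refine ⟨Function.extend f Subtype.val fun _ => Classical.arbitrary I, fun _ x hx => ⟨f ⟨x, hx⟩, ?_⟩⟩
      rw [f.injective.extend_apply]
    · exact ⟨fun _ => Classical.arbitrary I, fun h' => absurd h' h⟩
  choose e he using key
  refine ⟨fun x => e {i | x ∈ B i} (γ x), fun i x => ⟨?_, ?_⟩⟩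
  · obtain ⟨k, hk, hy⟩ := (hm i x).1
    obtain ⟨n, hn⟩ := he _ (hpt (k * x)) hy
    obtain ⟨h, hh, h2⟩ := (hγ n trivial (k * x)).1
    refine ⟨h * k, (K i).mul_mem (hle i hh) hk, ?_⟩
    have h3 : γ (h * (k * x)) = n := h2
    have h4 := (hinv h hh (k * x)).1
    simp only at h4
    simp only [mem_preimage, mem_singleton_iff, mul_assoc, h3, h4, hn]
  · obtain ⟨k, hk, hy⟩ := (hm i x).2
    obtain ⟨n, hn⟩ := he _ (hpt (x * k)) hy
    obtain ⟨h, hh, h2⟩ := (hγ n trivial (x * k)).2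
    refine ⟨k * h, (K i).mul_mem hk (hle i hh), ?_⟩
    have h3 : γ (x * k * h) = n := h2
    have h4 := (hinv h hh (x * k)).2
    simp only at h4
    simp only [mem_preimage, mem_singleton_iff, ← mul_assoc, h3, h4, hn]

lemma closure_card (s : Set G) : #(Subgroup.closure s) ≤ max #s ℵ₀ := by
  rcases isEmpty_or_nonempty s with h | h
  · rw [Set.isEmpty_coe_sort.1 h, Subgroup.closure_empty]
    simp
  have : Subgroup.closure s = (FreeGroup.lift (Subtype.val : s → G)).range := by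
    rw [FreeGroup.range_lift_eq_closure]; simp
  rw [this, ← mk_freeGroup]
  exact mk_range_le

lemma closure_card_eq {s : Set G} (hs : ℵ₀ ≤ #s) : #(Subgroup.closure s) = #s :=
  le_antisymm ((closure_card s).trans (max_le le_rfl hs))
    (mk_le_mk_of_subset Subgroup.subset_closure)

lemma seg_card {X : Type u} (r : X → X → Prop) [IsWellOrder X r]
    (hr : (#X).ord = Ordinal.type r) {ν : Cardinal.{u}} (hν : ν < #X) :
    #{g | Ordinal.typein r g < ν.ord} = ν := by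
  obtain ⟨g, hg⟩ := Ordinal.typein_surj r (o := ν.ord) (by rw [← hr]; exact ord_lt_ord.2 hν)
  have : {g | Ordinal.typein r g < ν.ord} = {y | r y g} := by
    ext y
    simp only [mem_ofPred_eq, ← hg, Ordinal.typein_lt_typein]
  rw [this, ← card_ord ν, ← hg, Ordinal.card_typein]
  rfl

lemma succ_case (μ : Cardinal.{u}) (hμ : ℵ₀ ≤ μ) (hG : Order.succ μ ≤ #G) (I : Type u)
    (hI : #I = Order.succ μ) :
    ∃ (c : G → I) (K : I → Subgroup G), ∀ i, #(K i) < Order.succ μ ∧ Meets (K i) (c ⁻¹' {i}) := by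
  have hμ' : ℵ₀ ≤ Order.succ μ := hμ.trans (Order.le_succ μ)
  have : Nonempty I := mk_ne_zero_iff.1 (by rw [hI]; exact (aleph0_pos.trans_le hμ').ne')
  obtain ⟨r, wo, hr⟩ := Cardinal.exists_ord_eq I
  have hseg : ∀ x, #{y | r y x} ≤ μ := by
    intro x
    have h2 := Cardinal.card_typein_lt x hr
    rw [Ordinal.card_typein, hI] at h2
    exact Order.lt_succ_iff.1 h2
  have hone : (1 : Cardinal.{u}) ≤ μ := one_lt_aleph0.le.trans hμ
  have hbd : ∀ T : Set I, #T ≤ μ → ∃ i, ∀ t ∈ T, r t i := by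
    intro T hT
    have h1 : #(⋃ t : T, insert t.1 {y | r y t.1} : Set I) ≤ μ := by
      refine (mk_iUnion_le _).trans ?_
      refine (mul_le_mul' hT (ciSup_le' fun t => ?_)).trans (mul_eq_self hμ).le
      exact mk_insert_le.trans (add_le_of_le hμ (hseg _) hone)
    have h2 : ∃ i, i ∉ (⋃ t : T, insert t.1 {y | r y t.1} : Set I) := by
      by_contra hn
      push Not at hn
      rw [eq_univ_of_forall hn, mk_univ, hI] at h1
      exact absurd h1 (not_le.2 (Order.lt_succ μ))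
    obtain ⟨i, hi⟩ := h2
    refine ⟨i, fun t ht => ?_⟩
    rcases trichotomous_of r t i with h | h | h
    · exact h
    · exact (hi (mem_iUnion.2 ⟨⟨t, ht⟩, mem_insert_iff.2 (Or.inl h.symm)⟩)).elim
    · exact (hi (mem_iUnion.2 ⟨⟨t, ht⟩, mem_insert_iff.2 (Or.inr h)⟩)).elim
  obtain ⟨s0, hs0⟩ := le_mk_iff_exists_set.1 hG
  let G0 := Subgroup.closure s0
  have hG0 : #G0 = Order.succ μ := by rw [closure_card_eq (hs0 ▸ hμ'), hs0]
  obtain ⟨e⟩ := Cardinal.eq.1 (hI.trans hG0.symm)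
  obtain ⟨s, hsG, hs⟩ := le_mk_iff_exists_subset.1
    (show μ ≤ #(G0 : Set G) from (Order.le_succ μ).trans hG0.ge)
  have hH : #(Subgroup.closure s) = μ := by rw [closure_card_eq (hs ▸ hμ), hs]
  let L : I → Subgroup G := fun i => Subgroup.closure (s ∪ (fun j => (e j : G)) '' {y | r y i})
  have hcl : ∀ t : Set G, #t ≤ μ → #(Subgroup.closure t) ≤ μ := fun t ht =>
    (closure_card t).trans (max_le ht hμ)
  have hun : ∀ a b : Set G, #a ≤ μ → #b ≤ μ → #(a ∪ b : Set G) ≤ μ := fun a b ha hb =>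
    (mk_union_le a b).trans (add_le_of_le hμ ha hb)
  have hL : ∀ i, #(L i) ≤ μ := fun i => hcl _ (hun _ _ hs.le (mk_image_le.trans (hseg i)))
  have hLG : ∀ i, L i ≤ G0 := by
    intro i
    refine (Subgroup.closure_le _).2 (union_subset hsG ?_)
    rintro _ ⟨j, -, rfl⟩
    exact (e j).2
  have hLm : ∀ i j, r i j → L i ≤ L j := fun i j h =>
    Subgroup.closure_mono (union_subset_union_right _ (image_mono fun y hy => trans_of r hy h))
  have hLt : ∀ i j, L i ≤ L j ∨ L j ≤ L i := by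
    intro i j
    rcases trichotomous_of r i j with h | h | h
    · exact Or.inl (hLm _ _ h)
    · exact Or.inl (h ▸ le_rfl)
    · exact Or.inr (hLm _ _ h)
  have hbd' : ∀ S : Set G, #S ≤ μ → ∃ i, ∀ x ∈ S, x ∈ G0 → x ∈ L i := by
    intro S hS
    obtain ⟨i, hi⟩ := hbd ((fun j => (e j : G)) ⁻¹' S)
      ((mk_preimage_of_injective _ _ (Subtype.val_injective.comp e.injective)).trans hS)
    refine ⟨i, fun x hx hx0 => Subgroup.subset_closure (Or.inr ⟨e.symm ⟨x, hx0⟩, hi _ ?_, ?_⟩)⟩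
    · simpa using hx
    · simp
  have hex : ∀ i, ∃ g ∈ G0, g ∉ L i := by
    intro i
    by_contra hn
    push Not at hn
    have : #G0 ≤ #(L i) := mk_le_mk_of_subset (s := (G0 : Set G)) (t := (L i : Set G)) hn
    exact absurd (this.trans (hL i)) (not_le.2 (hG0 ▸ Order.lt_succ μ))
  choose g hg0 hg using hex
  let K : I → Subgroup G := fun i => Subgroup.closure (L i ∪ {g i})
  have hHL : ∀ i, Subgroup.closure s ≤ L i := fun i => Subgroup.closure_mono subset_union_left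
  let Closed : G → Subgroup G → Prop := fun x N =>
    (∀ n ∈ N, x * n * x⁻¹ ∈ G0 → x * n * x⁻¹ ∈ N) ∧ ∀ n ∈ N, x⁻¹ * n * x ∈ G0 → x⁻¹ * n * x ∈ N
  let Good : Subgroup G → Prop := fun N => ∀ n ∈ N, ∃ β, n ∈ L β ∧ L β ≤ N
  have hGH : ∀ N, Good N → Subgroup.closure s ≤ N := by
    intro N hN
    obtain ⟨β, -, h⟩ := hN 1 N.one_mem
    exact (hHL β).trans h
  have hGt : ∀ N N', Good N → Good N' → N ≤ N' ∨ N' ≤ N := by
    intro N N' h h'
    by_cases h1 : N ≤ N'
    · exact Or.inl h1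
    · obtain ⟨n, hn, hn'⟩ := SetLike.not_le_iff_exists.1 h1
      obtain ⟨β, hβ, hβ'⟩ := h n hn
      refine Or.inr fun m hm => ?_
      obtain ⟨δ, hδ, hδ'⟩ := h' m hm
      rcases hLt β δ with h2 | h2
      · exact absurd (hδ' (h2 hβ)) hn'
      · exact hβ' (h2 hδ)
  have hcof : ∀ x i, ∃ N, Good N ∧ Closed x N ∧ L i ≤ N ∧ ∃ j, N ≤ L j := by
    intro x i
    have step : ∀ β, ∃ β', L β ≤ L β' ∧ (∀ n ∈ L β, x * n * x⁻¹ ∈ G0 → x * n * x⁻¹ ∈ L β') ∧
        ∀ n ∈ L β, x⁻¹ * n * x ∈ G0 → x⁻¹ * n * x ∈ L β' := by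
      intro β
      obtain ⟨β', h⟩ := hbd' ((L β : Set G) ∪ ((fun n => x * n * x⁻¹) '' (L β : Set G)
          ∪ (fun n => x⁻¹ * n * x) '' (L β : Set G)))
        (hun _ _ (hL β) (hun _ _ (mk_image_le.trans (hL β)) (mk_image_le.trans (hL β))))
      exact ⟨β', fun n hn => h n (Or.inl hn) (hLG β hn),
        fun n hn h0 => h _ (Or.inr (Or.inl ⟨n, hn, rfl⟩)) h0,
        fun n hn h0 => h _ (Or.inr (Or.inr ⟨n, hn, rfl⟩)) h0⟩
    choose f hf1 hf2 hf3 using step
    have hdir : Directed (· ≤ ·) fun n : ℕ => L (f^[n] i) := by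
      refine Monotone.directed_le (monotone_nat_of_le_succ fun n => ?_)
      rw [Function.iterate_succ_apply']
      exact hf1 _
    have hle : ∀ n : ℕ, L (f (f^[n] i)) ≤ ⨆ n : ℕ, L (f^[n] i) := by
      intro n
      rw [← Function.iterate_succ_apply' f n i]
      exact le_iSup (fun n : ℕ => L (f^[n] i)) (n + 1)
    refine ⟨⨆ n : ℕ, L (f^[n] i), fun n hn => ?_, ⟨fun n hn h0 => ?_, fun n hn h0 => ?_⟩,
      le_iSup (fun n : ℕ => L (f^[n] i)) 0, ?_⟩
    · obtain ⟨k, hk⟩ := (Subgroup.mem_iSup_of_directed hdir).1 hn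
      exact ⟨_, hk, le_iSup (fun n : ℕ => L (f^[n] i)) k⟩
    · obtain ⟨k, hk⟩ := (Subgroup.mem_iSup_of_directed hdir).1 hn
      exact hle k (hf2 _ n hk h0)
    · obtain ⟨k, hk⟩ := (Subgroup.mem_iSup_of_directed hdir).1 hn
      exact hle k (hf3 _ n hk h0)
    · obtain ⟨j, hj⟩ := hbd (range fun n : ℕ => f^[n] i) ((countable_range _).le_aleph0.trans hμ)
      exact ⟨j, iSup_le fun n => hLm _ _ (hj _ ⟨n, rfl⟩)⟩
  let rep : G → G := fun y => (DoubleCoset.mk G0 G0 y).out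
  have hrep : ∀ y, ∃ a ∈ G0, ∃ b ∈ G0, y = a * rep y * b := fun y =>
    (DoubleCoset.eq G0 G0 _ _).1 (DoubleCoset.out_eq' G0 G0 _)
  have hrl : ∀ h ∈ G0, ∀ y, rep (h * y) = rep y := by
    intro h hh y
    refine congrArg Quotient.out ?_
    rw [eq_comm]
    exact (DoubleCoset.eq G0 G0 _ _).2 ⟨h, hh, 1, G0.one_mem, by simp⟩
  have hrr : ∀ h ∈ G0, ∀ y, rep (y * h) = rep y := by
    intro h hh y
    refine congrArg Quotient.out ?_
    rw [eq_comm]
    exact (DoubleCoset.eq G0 G0 _ _).2 ⟨1, G0.one_mem, h, hh, by simp⟩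
  let D : I → Set G := fun i => {y | ∃ N, Good N ∧ Closed (rep y) N ∧ N ≤ L i ∧
    ∃ a ∈ N, ∃ b ∈ N, y = a * rep y * b}
  have hD : ∀ i, ∀ h ∈ Subgroup.closure s, ∀ y ∈ D i, h * y ∈ D i ∧ y * h ∈ D i := by
    rintro i h hh y ⟨N, h1, h2, h3, a, ha, b, hb, e1⟩
    have h0 : h ∈ G0 := hLG i (hHL i hh)
    refine ⟨⟨N, h1, by rwa [hrl h h0], h3, h * a, N.mul_mem (hGH N h1 hh) ha, b, hb, ?_⟩,
      ⟨N, h1, by rwa [hrr h h0], h3, a, ha, b * h, N.mul_mem hb (hGH N h1 hh), ?_⟩⟩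
    · rw [hrl h h0]
      conv_lhs => rw [e1]
      group
    · rw [hrr h h0]
      conv_lhs => rw [e1]
      group
  have hmax : ∀ i x N N', Good N → Good N' → Closed x N → Closed x N' → N ≤ L i → N' ≤ L i →
      ∃ M, Closed x M ∧ N ≤ M ∧ N' ≤ M ∧ M ≤ L i := by
    intro i x N N' h1 h2 h3 h4 h5 h6
    rcases hGt N N' h1 h2 with h | h
    · exact ⟨N', h4, h, le_rfl, h6⟩
    · exact ⟨N, h3, le_rfl, h, h5⟩
  obtain ⟨c, hc⟩ := reservoir (Subgroup.closure s) (hH ▸ hμ) (fun i => (D i)ᶜ) K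
    (fun i x hx => Subgroup.subset_closure (Or.inl (hHL i hx)))
    (fun h hh x => ⟨by
      ext i
      simp only [mem_ofPred_eq, mem_compl_iff]
      refine not_congr ⟨fun h1 => ?_, fun h1 => (hD i h hh x h1).1⟩
      simpa using (hD i h⁻¹ (Subgroup.inv_mem _ hh) _ h1).1, by
      ext i
      simp only [mem_ofPred_eq, mem_compl_iff]
      refine not_congr ⟨fun h1 => ?_, fun h1 => (hD i h hh x h1).2⟩
      simpa using (hD i h⁻¹ (Subgroup.inv_mem _ hh) _ h1).2⟩)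
    (fun y => by
      rw [hH]
      obtain ⟨a, ha, b, hb, e1⟩ := hrep y
      obtain ⟨i0, hi0⟩ := hbd' {a, b} (mk_insert_le.trans (add_le_of_le hμ (by simpa) hone))
      obtain ⟨N, h1, h2, h3, j, h4⟩ := hcof (rep y) i0
      refine le_trans (mk_le_mk_of_subset (t := {i | r i j}) fun i hi => ?_) (hseg j)
      have key : L j ≤ L i → False := fun h => hi ⟨N, h1, h2, h4.trans h, a,
        h3 (hi0 a (by simp) ha), b, h3 (hi0 b (by simp) hb), e1⟩
      rcases trichotomous_of r i j with h | h | h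
      · exact h
      · exact (key (h ▸ le_rfl)).elim
      · exact (key (hLm _ _ h)).elim)
    (fun i y => by
      have a1 : g i ∈ K i := Subgroup.subset_closure (Or.inr rfl)
      by_cases hy : y ∈ D i
      · obtain ⟨N, h1, h2, h3, a, ha, b, hb, e1⟩ := hy
        refine ⟨⟨g i, a1, ?_⟩, ⟨g i, a1, ?_⟩⟩
        · rintro ⟨N', h1', h2', h3', a', ha', b', hb', e2⟩
          rw [hrl _ (hg0 i)] at h2' e2
          obtain ⟨M, m1, m2, m3, m4⟩ := hmax i _ N N' h1 h1' h2 h2' h3 h3'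
          have e3 : rep y * (b' * b⁻¹) * (rep y)⁻¹ = a'⁻¹ * g i * a := by
            have : g i = a' * rep y * b' * (a * rep y * b)⁻¹ := by rw [← e1, ← e2]; group
            rw [this]; group
          have m5 := m1.1 (b' * b⁻¹) (M.mul_mem (m3 hb') (M.inv_mem (m2 hb))) (by
            rw [e3]
            exact G0.mul_mem (G0.mul_mem (G0.inv_mem (hLG i (h3' ha'))) (hg0 i)) (hLG i (h3 ha)))
          rw [e3, M.mul_mem_cancel_right (m2 ha), M.mul_mem_cancel_left (M.inv_mem (m3 ha'))] at m5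
          exact hg i (m4 m5)
        · rintro ⟨N', h1', h2', h3', a', ha', b', hb', e2⟩
          rw [hrr _ (hg0 i)] at h2' e2
          obtain ⟨M, m1, m2, m3, m4⟩ := hmax i _ N N' h1 h1' h2 h2' h3 h3'
          have e3 : (rep y)⁻¹ * (a⁻¹ * a') * rep y = b * g i * b'⁻¹ := by
            have : g i = (a * rep y * b)⁻¹ * (a' * rep y * b') := by rw [← e1, ← e2]; group
            rw [this]; group
          have m5 := m1.2 (a⁻¹ * a') (M.mul_mem (M.inv_mem (m2 ha)) (m3 ha')) (by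
            rw [e3]
            exact G0.mul_mem (G0.mul_mem (hLG i (h3 hb)) (hg0 i)) (G0.inv_mem (hLG i (h3' hb'))))
          rw [e3, M.mul_mem_cancel_right (M.inv_mem (m3 hb')), M.mul_mem_cancel_left (m2 hb)] at m5
          exact hg i (m4 m5)
      · exact ⟨⟨1, (K i).one_mem, by simpa using hy⟩, ⟨1, (K i).one_mem, by simpa using hy⟩⟩)
  refine ⟨c, K, fun i => ⟨?_, hc i⟩⟩
  rw [Order.lt_succ_iff]
  exact hcl _ (hun _ _ (hL i) (by simpa using hone))

lemma limit_case (κ : Cardinal.{u}) (h0 : ℵ₀ < κ) (hκ : κ ≤ #G)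
    (hlim : ∀ ν < κ, Order.succ ν < κ) (I : Type u) (hI : #I = κ) :
    ∃ (c : G → I) (K : I → Subgroup G), ∀ i, #(K i) < κ ∧ Meets (K i) (c ⁻¹' {i}) := by
  have : Nonempty I := mk_ne_zero_iff.1 (by rw [hI]; exact (aleph0_pos.trans h0).ne')
  obtain ⟨r, wo, hr⟩ := Cardinal.exists_ord_eq G
  obtain ⟨r', wo', hr'⟩ := Cardinal.exists_ord_eq I
  let seg' : Cardinal.{u} → Set I := fun ν => {g | Ordinal.typein r' g < ν.ord}
  have hseg' : ∀ ν < κ, #(seg' ν) = ν := fun ν hν => seg_card r' hr' (hI ▸ hν)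
  let seg : Cardinal.{u} → Set G := fun ν => {g | Ordinal.typein r g < ν.ord}
  have hseg : ∀ ν < κ, #(seg ν) = ν := fun ν hν => seg_card r hr (hν.trans_le hκ)
  let H : Cardinal.{u} → Subgroup G := fun ν => Subgroup.closure (seg ν)
  have hH : ∀ ν, ℵ₀ ≤ ν → ν < κ → #(H ν) = ν := fun ν h1 h2 => by
    rw [closure_card_eq ((hseg ν h2).symm ▸ h1), hseg ν h2]
  have hmono : ∀ ν ν', ν ≤ ν' → H ν ≤ H ν' := fun ν ν' h =>
    Subgroup.closure_mono fun g hg => show Ordinal.typein r g < ν'.ord from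
      lt_of_lt_of_le (show Ordinal.typein r g < ν.ord from hg) (ord_le_ord.2 h)
  let lev : I → Cardinal.{u} := fun g => max ℵ₀ (Ordinal.typein r' g).card
  have lev1 : ∀ g, ℵ₀ ≤ lev g := fun g => le_max_left _ _
  have lev2 : ∀ g, lev g < κ := fun g => max_lt h0 (hI ▸ Cardinal.card_typein_lt g hr')
  have lev3 : ∀ g, g ∈ seg' (Order.succ (lev g)) := fun g =>
    show Ordinal.typein r' g < (Order.succ (lev g)).ord from
      lt_ord.2 (Order.lt_succ_iff.2 (le_max_right _ _))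
  have hsp : ∀ ν : Cardinal.{u}, ∃ γ : G → I × Bool, ℵ₀ ≤ ν → ν < κ →
      BiInv (H ν) γ ∧ ∀ c ∈ seg' (Order.succ ν) ×ˢ (univ : Set Bool),
        Meets (H (Order.succ ν)) (γ ⁻¹' {c}) := by
    intro ν
    by_cases h : ℵ₀ ≤ ν ∧ ν < κ
    · have a1 := hH ν h.1 h.2
      have a0 : ℵ₀ ≤ Order.succ ν := h.1.trans (Order.le_succ ν)
      have a2 := hH (Order.succ ν) a0 (hlim ν h.2)
      obtain ⟨γ, hγ⟩ := split (hmono ν _ (Order.le_succ ν)) (by rw [a1, a2]; exact Order.lt_succ ν)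
        (a2.symm ▸ a0) (seg' (Order.succ ν) ×ˢ (univ : Set Bool)) (by
          rw [a2, mk_congr (Equiv.Set.prod _ _)]
          simp only [mk_prod, mk_univ, mk_bool, lift_ofNat, lift_uzero,
            hseg' _ (hlim ν h.2)]
          exact (mul_le_mul_right ((natCast_lt_aleph0 (n := 2)).le.trans a0) _).trans (mul_eq_self a0).le)
      exact ⟨γ, fun _ _ => hγ⟩
    · exact ⟨fun _ => (Classical.arbitrary I, true), fun h1 h2 => absurd ⟨h1, h2⟩ h⟩
  choose γ hγ using hsp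
  let cl : Cardinal.{u} → G → Set Ordinal.{u} := fun ν x =>
    {o | ∃ a ∈ H ν, ∃ b ∈ H ν, o = Ordinal.typein r (a * x * b)}
  let m : Cardinal.{u} → G → Ordinal.{u} := fun ν x => sInf (cl ν x)
  have hne : ∀ ν x, (cl ν x).Nonempty := fun ν x => ⟨_, 1, (H ν).one_mem, 1, (H ν).one_mem, rfl⟩
  have hcl : ∀ ν, BiInv (H ν) (cl ν) := by
    intro ν h hh x
    constructor
    · ext o
      constructor
      · rintro ⟨a, ha, b, hb, rfl⟩
        exact ⟨a * h, (H ν).mul_mem ha hh, b, hb, by simp only [mul_assoc]⟩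
      · rintro ⟨a, ha, b, hb, rfl⟩
        exact ⟨a * h⁻¹, (H ν).mul_mem ha ((H ν).inv_mem hh), b, hb, by congr 1; group⟩
    · ext o
      constructor
      · rintro ⟨a, ha, b, hb, rfl⟩
        exact ⟨a, ha, h * b, (H ν).mul_mem hh hb, by simp only [mul_assoc]⟩
      · rintro ⟨a, ha, b, hb, rfl⟩
        exact ⟨a, ha, h⁻¹ * b, (H ν).mul_mem ((H ν).inv_mem hh) hb, by congr 1; group⟩
  have hm : ∀ ν, ∀ h ∈ H ν, ∀ x, m ν (h * x) = m ν x ∧ m ν (x * h) = m ν x := fun ν h hh x =>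
    ⟨congrArg sInf (hcl ν h hh x).1, congrArg sInf (hcl ν h hh x).2⟩
  have hanti : ∀ ν ν' x, ν ≤ ν' → m ν' x ≤ m ν x := by
    intro ν ν' x h
    refine csInf_le_csInf (OrderBot.bddBelow _) (hne ν x) ?_
    rintro _ ⟨a, ha, b, hb, rfl⟩
    exact ⟨a, hmono _ _ h ha, b, hmono _ _ h hb, rfl⟩
  have hsame : ∀ ν, ℵ₀ ≤ ν → ν < κ → ∀ y z, m ν y = m ν z → γ ν y = γ ν z := by
    intro ν h1 h2 y z e
    obtain ⟨a, ha, b, hb, e1⟩ := csInf_mem (hne ν y)
    obtain ⟨a', ha', b', hb', e2⟩ := csInf_mem (hne ν z)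
    have e3 : a * y * b = a' * z * b' := Ordinal.typein_injective r (e1.symm.trans (e.trans e2))
    have hb1 := (hγ ν h1 h2).1
    rw [← (hb1 a ha y).1, ← (hb1 b hb _).2, e3, (hb1 b' hb' _).2, (hb1 a' ha' _).1]
  let B : I → Set G := fun g =>
    {x | m (Order.succ (lev g)) x ≠ m (lev g) x ∧ (γ (lev g) x).1 = g}
  have hH0 := hH ℵ₀ le_rfl h0
  obtain ⟨c, hc⟩ := reservoir (H ℵ₀) hH0.ge B (fun g => H (Order.succ (lev g)))
    (fun g => hmono _ _ ((lev1 g).trans (Order.le_succ _)))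
    (fun h hh x => by
      have a1 : ∀ g, h ∈ H (lev g) := fun g => hmono _ _ (lev1 g) hh
      have a2 : ∀ g, h ∈ H (Order.succ (lev g)) := fun g => hmono _ _ (Order.le_succ _) (a1 g)
      constructor
      · ext g
        simp only [B, mem_ofPred_eq, (hm _ h (a1 g) x).1, (hm _ h (a2 g) x).1,
          ((hγ _ (lev1 g) (lev2 g)).1 h (a1 g) x).1]
      · ext g
        simp only [B, mem_ofPred_eq, (hm _ h (a1 g) x).2, (hm _ h (a2 g) x).2,
          ((hγ _ (lev1 g) (lev2 g)).1 h (a1 g) x).2])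
    (fun x => by
      rw [hH0]
      have a1 : ((fun g => (lev g, m (lev g) x)) '' {g | x ∈ B g}).Finite := by
        refine WellQuasiOrderedLE.finite_of_isAntichain ?_
        rintro _ ⟨g, hg, rfl⟩ _ ⟨g', -, rfl⟩ hne ⟨h1, h2⟩
        simp only at h1 h2
        rcases h1.lt_or_eq with h3 | h3
        · have b1 := hanti _ _ x (Order.succ_le_of_lt h3)
          have b2 := hanti _ _ x (Order.le_succ (lev g))
          exact hg.1 (le_antisymm b2 (h2.trans b1))
        · exact hne (by simp only [h3])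
      have a2 : {g | x ∈ B g}.Finite := by
        refine Set.Finite.of_finite_image a1 fun g hg g' hg' e => ?_
        have e1 : lev g = lev g' := congrArg Prod.fst e
        rw [← hg.2, ← hg'.2, e1]
      exact a2.lt_aleph0.le)
    (fun g x => by
      have a := (hγ _ (lev1 g) (lev2 g)).2
      have key : ∀ y z, γ (lev g) y = (g, true) → γ (lev g) z = (g, false) →
          m (Order.succ (lev g)) y = m (Order.succ (lev g)) z → y ∈ B g ∨ z ∈ B g := by
        intro y z hy hz e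
        by_contra hn
        push Not at hn
        have b1 : m (Order.succ (lev g)) y = m (lev g) y := by
          by_contra h; exact hn.1 ⟨h, by rw [hy]⟩
        have b2 : m (Order.succ (lev g)) z = m (lev g) z := by
          by_contra h; exact hn.2 ⟨h, by rw [hz]⟩
        have b3 := hsame _ (lev1 g) (lev2 g) y z (b1.symm.trans (e.trans b2))
        rw [hy, hz] at b3
        simp at b3
      obtain ⟨⟨k1, hk1, e1⟩, ⟨k2, hk2, e2⟩⟩ := a (g, true) ⟨lev3 g, trivial⟩ x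
      obtain ⟨⟨k3, hk3, e3⟩, ⟨k4, hk4, e4⟩⟩ := a (g, false) ⟨lev3 g, trivial⟩ x
      constructor
      · rcases key _ _ e1 e3 ((hm _ _ hk1 x).1.trans (hm _ _ hk3 x).1.symm) with h | h
        · exact ⟨k1, hk1, h⟩
        · exact ⟨k3, hk3, h⟩
      · rcases key _ _ e2 e4 ((hm _ _ hk2 x).2.trans (hm _ _ hk4 x).2.symm) with h | h
        · exact ⟨k2, hk2, h⟩
        · exact ⟨k4, hk4, h⟩)
  refine ⟨c, _, fun g => ⟨?_, hc g⟩⟩
  rw [hH _ ((lev1 g).trans (Order.le_succ _)) (hlim _ (lev2 g))]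
  exact hlim _ (lev2 g)

lemma large_of_meets {κ : Cardinal.{u}} {K : Subgroup G} (hK : #K < κ) {A : Set G}
    (h : Meets K A) : Large κ A := by
  refine ⟨⟨K, hK, eq_univ_of_forall fun x => ?_⟩, ⟨K, hK, eq_univ_of_forall fun x => ?_⟩⟩
  · obtain ⟨k, hk, h⟩ := (h x).1
    exact ⟨k⁻¹, K.inv_mem hk, _, h, by simp⟩
  · obtain ⟨k, hk, h⟩ := (h x).2
    exact ⟨_, h, k⁻¹, K.inv_mem hk, by simp⟩

lemma exists_max {X : Type u} (τ : X → Finset X) (hτ : ∀ x, (τ x).Nonempty) :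
    ∃ T : Set X, (∀ s ∈ T, ∀ t ∈ T, s ≠ t → Disjoint (τ s) (τ t)) ∧
      ∀ x, ∃ t ∈ T, ¬ Disjoint (τ x) (τ t) := by
  obtain ⟨T, hT⟩ := zorn_subset {T : Set X | ∀ s ∈ T, ∀ t ∈ T, s ≠ t → Disjoint (τ s) (τ t)} (by
    intro c hc hch
    refine ⟨⋃₀ c, ?_, fun s hs => subset_sUnion_of_mem hs⟩
    rintro s ⟨a, ha, hs⟩ t ⟨b, hb, ht⟩ hst
    rcases hch.total ha hb with h | h
    · exact hc hb s (h hs) t ht hst
    · exact hc ha s hs t (h ht) hst)
  refine ⟨T, hT.prop, fun x => ?_⟩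
  by_contra hn
  push Not at hn
  have h1 : insert x T ∈ {T : Set X | ∀ s ∈ T, ∀ t ∈ T, s ≠ t → Disjoint (τ s) (τ t)} := by
    rintro s (rfl | hs) t (rfl | ht) hst
    · exact absurd rfl hst
    · exact hn t ht
    · exact (hn s hs).symm
    · exact hT.prop s hs t ht hst
  have h2 : x ∈ T := hT.2 h1 (subset_insert _ _) (mem_insert _ _)
  exact (hτ x).ne_empty (disjoint_self.1 (hn x h2))

lemma countable_case [Infinite G] : ∃ c : G → ℕ, ∀ n, Large ℵ₀ (c ⁻¹' {n}) := by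
  classical
  have hF : ∀ m : ℕ, ∃ F : Finset G, F.card = 2 ^ (m + 1) := fun m => Infinite.exists_subset_card_eq G _
  choose F hF using hF
  let τ : ℕ → G → Finset G := fun m t => (F m).image fun f => if m % 2 = 0 then f * t else t * f
  have hτ : ∀ m t, (τ m t).card = 2 ^ (m + 1) := by
    intro m t
    rw [Finset.card_image_of_injective, hF]
    intro a b e
    by_cases h : m % 2 = 0
    · simpa [h] using e
    · simpa [h] using e
  choose T hT1 hT2 using fun m => exists_max (τ m) fun x =>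
    Finset.card_pos.1 (by rw [hτ]; positivity)
  obtain ⟨φ, h1, h2⟩ := (Finset.all_card_le_biUnion_card_iff_exists_injective
    (fun j : (Σ m : ℕ, T m) => τ j.1 j.2.1)).1 (by
      intro s
      set U := (s.biUnion fun j => τ j.1 j.2.1).card with hU
      have a1 : ∀ m, (s.filter fun j => j.1 = m).card * 2 ^ (m + 1) ≤ U := by
        intro m
        have b1 : ((s.filter fun j => j.1 = m).biUnion fun j => τ j.1 j.2.1).card
            = (s.filter fun j => j.1 = m).card * 2 ^ (m + 1) := by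
          rw [Finset.card_biUnion]
          · rw [Finset.sum_congr rfl (g := fun _ => 2 ^ (m + 1))]
            · simp
            · intro j hj
              rw [hτ, (Finset.mem_filter.1 hj).2]
          · rintro ⟨a, x⟩ ha ⟨b, y⟩ hb hne
            have e1 : a = m := (Finset.mem_filter.1 ha).2
            have e2 : b = m := (Finset.mem_filter.1 hb).2
            subst e1
            subst e2
            refine hT1 _ _ x.2 _ y.2 fun e => hne ?_
            rw [Subtype.ext e]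
        rw [← b1]
        exact Finset.card_le_card (Finset.biUnion_subset_biUnion_of_subset_left _
          (Finset.filter_subset _ _))
      have a2 : (s.card : ℝ) = ∑ m ∈ s.image (·.1), ((s.filter fun j => j.1 = m).card : ℝ) := by
        exact_mod_cast Finset.card_eq_sum_card_image (·.1) s
      have a3 : (s.card : ℝ) ≤ ∑ m ∈ s.image (·.1), (U : ℝ) / 2 / 2 ^ m := by
        rw [a2]
        refine Finset.sum_le_sum fun m _ => ?_
        have : (((s.filter fun j => j.1 = m).card : ℝ)) * 2 ^ (m + 1) ≤ U := by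
          exact_mod_cast a1 m
        rw [div_div, le_div_iff₀ (by positivity), ← pow_succ']
        exact this
      have a4 := sum_le_hasSum (s.image (·.1)) (fun m _ => by positivity)
        (hasSum_geometric_two' (U : ℝ))
      exact_mod_cast a3.trans a4)
  let c : G → ℕ := fun x => if h : ∃ j, φ j = x then h.choose.1 / 2 else 0
  have hc : ∀ j, c (φ j) = j.1 / 2 := by
    intro j
    have h : ∃ i, φ i = φ j := ⟨j, rfl⟩
    simp only [c, dif_pos h, h1 h.choose_spec]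
  have hfin : ∀ m, #((F m : Set G)⁻¹ * (F m) * (F m : Set G)⁻¹ : Set G) < ℵ₀ := fun m =>
    (((F m).finite_toSet.inv.mul (F m).finite_toSet).mul (F m).finite_toSet.inv).lt_aleph0
  refine ⟨c, fun n => ⟨⟨_, hfin (2 * n), eq_univ_of_forall fun x => ?_⟩,
    ⟨_, hfin (2 * n + 1), eq_univ_of_forall fun x => ?_⟩⟩⟩
  · obtain ⟨t, ht, hd⟩ := hT2 (2 * n) x
    obtain ⟨y, hy1, hy2⟩ := Finset.not_disjoint_iff.1 hd
    have e : 2 * n % 2 = 0 := by omega
    obtain ⟨f1, hf1, e1⟩ := Finset.mem_image.1 hy1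
    obtain ⟨f2, hf2, e2⟩ := Finset.mem_image.1 hy2
    obtain ⟨f3, hf3, e3⟩ := Finset.mem_image.1 (h2 ⟨2 * n, t, ht⟩)
    simp only [e, if_true] at e1 e2 e3
    refine ⟨f1⁻¹ * f2 * f3⁻¹, Set.mul_mem_mul (Set.mul_mem_mul (Set.inv_mem_inv.2 hf1) hf2)
      (Set.inv_mem_inv.2 hf3), φ ⟨2 * n, t, ht⟩, ?_, ?_⟩
    · change c _ = n
      rw [hc]; simp
    · simp only [← e3]
      have : f2 * t = f1 * x := e2.trans e1.symm
      calc f1⁻¹ * f2 * f3⁻¹ * (f3 * t) = f1⁻¹ * (f2 * t) := by group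
        _ = x := by rw [this]; group
  · obtain ⟨t, ht, hd⟩ := hT2 (2 * n + 1) x
    obtain ⟨y, hy1, hy2⟩ := Finset.not_disjoint_iff.1 hd
    have e : ¬ (2 * n + 1) % 2 = 0 := by omega
    obtain ⟨f1, hf1, e1⟩ := Finset.mem_image.1 hy1
    obtain ⟨f2, hf2, e2⟩ := Finset.mem_image.1 hy2
    obtain ⟨f3, hf3, e3⟩ := Finset.mem_image.1 (h2 ⟨2 * n + 1, t, ht⟩)
    simp only [e, if_false] at e1 e2 e3
    refine ⟨φ ⟨2 * n + 1, t, ht⟩, ?_, f3⁻¹ * f2 * f1⁻¹,
      Set.mul_mem_mul (Set.mul_mem_mul (Set.inv_mem_inv.2 hf3) hf2) (Set.inv_mem_inv.2 hf1), ?_⟩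
    · change c _ = n
      rw [hc]
      simp only
      omega
    · simp only [← e3]
      have : t * f2 = x * f1 := e2.trans e1.symm
      calc t * f3 * (f3⁻¹ * f2 * f1⁻¹) = t * f2 * f1⁻¹ := by group
        _ = x := by rw [this]; group

lemma exists_colouring (G : Type u) [Group G] [Infinite G] (κ : Cardinal.{u}) (h1 : ℵ₀ ≤ κ)
    (h2 : κ ≤ #G) (I : Type u) (hI : #I = κ) : ∃ c : G → I, ∀ i, Large κ (c ⁻¹' {i}) := by
  rcases h1.lt_or_eq with h0 | h0
  · have : ∃ (c : G → I) (K : I → Subgroup G), ∀ i, #(K i) < κ ∧ Meets (K i) (c ⁻¹' {i}) := by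
      by_cases hl : ∀ ν < κ, Order.succ ν < κ
      · exact limit_case κ h0 h2 hl I hI
      · push Not at hl
        obtain ⟨ν, h1, h3⟩ := hl
        have e : κ = Order.succ ν := le_antisymm h3 (Order.succ_le_of_lt h1)
        subst e
        exact succ_case ν (Order.lt_succ_iff.1 h0) h2 I hI
    obtain ⟨c, K, h⟩ := this
    exact ⟨c, fun i => large_of_meets (h i).1 (h i).2⟩
  · obtain ⟨c, hc⟩ := countable_case (G := G)
    obtain ⟨e⟩ := denumerable_iff.2 (hI.trans h0.symm)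
    refine ⟨fun x => (Denumerable.eqv I).symm (c x), fun i => ?_⟩
    have : (fun x => (Denumerable.eqv I).symm (c x)) ⁻¹' {i} = c ⁻¹' {Denumerable.eqv I i} := by
      ext x
      simp [Equiv.symm_apply_eq]
    rw [this, ← h0]
    exact hc _

theorem exists_partition (G : Type u) [Group G] [Infinite G] (κ : Cardinal.{u}) (h1 : ℵ₀ ≤ κ)
    (h2 : κ ≤ #G) :
    ∃ P : Set (Set G), Setoid.IsPartition P ∧ #P = κ ∧ ∀ A ∈ P, Large κ A := by
  obtain ⟨c, hc⟩ := exists_colouring G κ h1 h2 κ.out (mk_out κ)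
  have hs : ∀ i, ∃ x, c x = i := by
    intro i
    obtain ⟨F, -, h⟩ := (hc i).1
    obtain ⟨_, -, x, hx, -⟩ := (h ▸ mem_univ 1 : (1 : G) ∈ F * c ⁻¹' {i})
    exact ⟨x, hx⟩
  refine ⟨range fun i => c ⁻¹' {i}, ⟨?_, fun x => ⟨c ⁻¹' {c x}, ⟨⟨_, rfl⟩, rfl⟩, ?_⟩⟩, ?_, ?_⟩
  · rintro ⟨i, hi⟩
    obtain ⟨x, hx⟩ := hs i
    have : x ∈ c ⁻¹' {i} := hx
    have hi' : c ⁻¹' {i} = ∅ := hi
    rw [hi'] at this
    exact this
  · rintro _ ⟨⟨i, rfl⟩, hx⟩
    have : c x = i := hx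
    rw [this]
  · refine (mk_range_eq _ fun i j e => ?_).trans (mk_out κ)
    obtain ⟨x, hx⟩ := hs i
    have h1 : x ∈ c ⁻¹' {i} := hx
    have e' : c ⁻¹' {i} = c ⁻¹' {j} := e
    rw [e'] at h1
    exact hx.symm.trans h1
  · rintro _ ⟨i, rfl⟩
    exact hc i

end Pool.Agent.H4Large
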