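import Mathlib

/-! A linearly ordered space with a base that cannot be split into two bases. -/

namespace Pool.Agent.Lib.helper4.LotsRes

open Set TopologicalSpace Topology

/-- Nodes. -/
inductive M
  | root : M
  | free (x : M) : M
  | dum (k : ℤ) (x : M) : M
  | u (γ : ℕ → M) (i : ℕ) : M

open M

/-- Parent. -/
def par : M → M
  | root => root
  | free x => x
  | dum _ x => x
  | u γ i => γ i

/-- Depth. -/
def dep : M → ℕ
  | root => 0
  | free x => dep x + 1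
  | dum _ x => dep x + 1
  | u γ i => dep (γ i) + 1

/-- Position among siblings. -/
def lev : M → ℤ
  | dum k _ => k
  | u _ _ => 1
  | _ => 0

noncomputable instance : LinearOrder M :=
  LinearOrder.lift' (fun z => toLex (lev z, embeddingToCardinal z))
    fun _ _ h => embeddingToCardinal.injective (congrArg (fun p => (ofLex p).2) h)

theorem lt_of_lev {x y : M} (h : lev x < lev y) : x < y :=
  Prod.Lex.toLex_lt_toLex.2 (Or.inl h)

/-- Branches. -/
def Br (β : ℕ → M) : Prop := β 0 = root ∧ ∀ j, par (β (j + 1)) = β j ∧ β (j + 1) ≠ root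

/-- Branches with infinitely many free steps. -/
def II (β : ℕ → M) : Prop := ∀ k, ∃ i, k ≤ i ∧ β (i + 1) = free (β i)

/-- Legitimate nodes. -/
def ok : M → Prop
  | root => True
  | free x => ok x
  | dum _ x => ok x
  | u γ i => (∀ j, ok (γ j)) ∧ Br γ ∧ II γ ∧ γ (i + 1) = free (γ i)

theorem dep_par {x : M} (h : x ≠ root) : dep x = dep (par x) + 1 := by
  cases x <;> first | rfl | exact absurd rfl h

theorem Br.dep {β} (h : Br β) (j : ℕ) : dep (β j) = j := by
  induction j with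
  | zero => rw [h.1]; rfl
  | succ j ih => rw [dep_par (h.2 j).2, (h.2 j).1, ih]

theorem Br.agree {β γ} (h : Br β) (h' : Br γ) {k} (e : β k = γ k) : ∀ j ≤ k, β j = γ j := by
  intro j hj
  induction hj with
  | refl => exact e
  | step _ ih => exact ih (by rw [← (h.2 _).1, ← (h'.2 _).1, e])

theorem ok.par {x} (h : ok x) : ok (par x) := by
  cases x with
  | u γ i => exact h.1 i
  | _ => exact h

/-- The space. -/
def L : Type := {p : Lex (ℕ → M) ×ₗ Bool //
  Br (ofLex (ofLex p).1) ∧ (∀ j, ok (ofLex (ofLex p).1 j)) ∧ ((ofLex p).2 = true ∨ II (ofLex (ofLex p).1))}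

noncomputable instance : LinearOrder L := inferInstanceAs (LinearOrder (Subtype _))
noncomputable instance : TopologicalSpace L := Preorder.topology L
instance : OrderTopology L := ⟨rfl⟩

/-- The branch of a point. -/
def br (p : L) : ℕ → M := ofLex (ofLex p.1).1

/-- The side of a point. -/
def sd (p : L) : Bool := (ofLex p.1).2

/-- Building points. -/
def mk (β : ℕ → M) (e : Bool) (h : Br β ∧ (∀ j, ok (β j)) ∧ (e = true ∨ II β)) : L :=
  ⟨toLex (toLex β, e), h⟩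

theorem lt_iff {p q : L} : p < q ↔ (∃ i, (∀ j < i, br p j = br q j) ∧ br p i < br q i) ∨
    br p = br q ∧ sd p < sd q := Prod.Lex.lt_iff

theorem hb (p : L) : Br (br p) := p.2.1

theorem ext_pt {x} (h : ok x) : ∃ p : L, br p (dep x) = x := by
  have : ∀ x, ok x → ∃ β : ℕ → M, β 0 = root ∧ β (dep x) = x ∧
      ∀ j < dep x, par (β (j + 1)) = β j ∧ β (j + 1) ≠ root ∧ ok (β (j + 1)) := by
    have st : ∀ x, x ≠ root → ok x → (∃ β : ℕ → M, β 0 = root ∧ β (dep (par x)) = par x ∧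
        ∀ j < dep (par x), par (β (j + 1)) = β j ∧ β (j + 1) ≠ root ∧ ok (β (j + 1))) →
        ∃ β : ℕ → M, β 0 = root ∧ β (dep x) = x ∧
        ∀ j < dep x, par (β (j + 1)) = β j ∧ β (j + 1) ≠ root ∧ ok (β (j + 1)) := by
      rintro x a b ⟨β, c, d, e⟩
      rw [dep_par a]
      refine ⟨Function.update β (dep (par x) + 1) x, by simpa using c, by simp, fun j hj => ?_⟩
      rcases (Nat.le_of_lt_succ hj).eq_or_lt with rfl | hj
      · simpa [d] using ⟨a, b⟩
      · rw [Function.update_of_ne (by omega), Function.update_of_ne (by omega)]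
        exact e j hj
    intro x
    induction x with
    | root => exact fun _ => ⟨fun _ => root, rfl, rfl, fun j hj => absurd hj (Nat.not_lt_zero _)⟩
    | free x ih => exact fun h => st _ (by simp) h (ih h)
    | dum k x ih => exact fun h => st _ (by simp) h (ih h)
    | u γ i ih => exact fun h => st _ (by simp) h (ih i (h.1 i))
  obtain ⟨β, a, b, c⟩ := this x h
  let δ : ℕ → M := fun j => Nat.rec root (fun j y => if j < dep x then β (j + 1) else dum 0 y) j
  have e : ∀ j ≤ dep x, δ j = β j := fun j hj => by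
    cases j with
    | zero => exact a.symm
    | succ j => exact if_pos hj
  have s : ∀ j, δ (j + 1) = if j < dep x then β (j + 1) else dum 0 (δ j) := fun _ => rfl
  refine ⟨mk δ true ⟨⟨rfl, fun j => ?_⟩, fun j => ?_, Or.inl rfl⟩, (e _ le_rfl).trans b⟩
  · rw [s]; split_ifs with h
    exacts [⟨(c j h).1.trans (e j h.le).symm, (c j h).2.1⟩, ⟨rfl, by simp⟩]
  · induction j with
    | zero => trivial
    | succ j ih => rw [s]; split_ifs with h; exacts [(c j h).2.2, ih]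

theorem child (p : L) (m : ℕ) {x} (h : ok x) (h0 : x ≠ root) (hp : par x = br p m) :
    ∃ q : L, br q (m + 1) = x ∧ ∀ j ≤ m, br q j = br p j := by
  obtain ⟨q, hq⟩ := ext_pt h
  rw [dep_par h0, hp, (hb p).dep] at hq
  exact ⟨q, hq, (hb q).agree (hb p) (by rw [← ((hb q).2 m).1, hq, hp])⟩

theorem lt_at {p q : L} {m} (h : ∀ j ≤ m, br p j = br q j)
    (h' : lev (br p (m + 1)) < lev (br q (m + 1))) : p < q :=
  lt_iff.2 (Or.inl ⟨m + 1, fun j hj => h j (Nat.le_of_lt_succ hj), lt_of_lev h'⟩)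

theorem left (p : L) (m : ℕ) : ∃ q < p, (∀ j ≤ m, br q j = br p j) ∧
    lev (br q (m + 1)) < lev (br p (m + 1)) := by
  obtain ⟨q, a, b⟩ := child p m (x := dum (lev (br p (m + 1)) - 1) (br p m)) (p.2.2.1 m)
    (by simp) rfl
  have : lev (br q (m + 1)) < lev (br p (m + 1)) := by rw [a]; exact sub_one_lt _
  exact ⟨q, lt_at b this, b, this⟩

theorem right (p : L) (m : ℕ) : ∃ q > p, ∀ j ≤ m, br q j = br p j := by
  obtain ⟨q, a, b⟩ := child p m (x := dum (lev (br p (m + 1)) + 1) (br p m)) (p.2.2.1 m)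
    (by simp) rfl
  exact ⟨q, lt_at (fun j hj => (b j hj).symm) (by rw [a]; exact lt_add_one _), b⟩

instance : NoMinOrder L := ⟨fun p => (left p 0).imp fun _ h => h.1⟩
instance : NoMaxOrder L := ⟨fun p => (right p 0).imp fun _ h => h.1⟩

/-- Cones. -/
def C (x : M) : Set L := {p | br p (dep x) = x}

theorem mem_C {p q : L} {k} : q ∈ C (br p k) ↔ br q k = br p k := by
  rw [C, (hb p).dep]; rfl

theorem between {l p r : L} {m} (h1 : l < p) (h2 : p < r) (e : ∀ j ≤ m, br l j = br r j) :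
    ∀ j ≤ m, br p j = br l j := by
  by_contra hc
  push Not at hc
  obtain ⟨j, ⟨a, b⟩, c⟩ := (wellFounded_lt (α := ℕ)).has_min {j | j ≤ m ∧ br p j ≠ br l j} hc
  have d : ∀ i < j, br p i = br l i := fun i hi => by_contra fun h => c i ⟨hi.le.trans a, h⟩ hi
  rcases lt_or_gt_of_ne b with h | h
  · exact lt_asymm h1 (lt_iff.2 (Or.inl ⟨j, d, h⟩))
  · exact lt_asymm h2 (lt_iff.2 (Or.inl ⟨j, fun i hi => by
      rw [d i hi, e i (hi.le.trans a)], e j a ▸ h⟩))

theorem C_open (x : M) : IsOpen (C x) := isOpen_iff_mem_nhds.2 fun p hp => by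
  obtain ⟨l, a, b, -⟩ := left p (dep x)
  obtain ⟨r, c, d⟩ := right p (dep x)
  refine Filter.mem_of_superset (Ioo_mem_nhds a c) fun q hq => ?_
  exact ((between hq.1 hq.2 (fun j hj => (b j hj).trans (d j hj).symm) _ le_rfl).trans
    (b _ le_rfl)).trans hp

theorem near {p q : L} (h : p < q) (e : br p ≠ br q) :
    ∃ k, ∀ p' q' : L, br p' k = br p k → br q' k = br q k → p' < q' := by
  obtain ⟨i, a, b⟩ := (lt_iff.1 h).resolve_right fun h => e h.1
  exact ⟨i, fun p' q' c d => lt_iff.2 (Or.inl ⟨i, fun j hj => by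
    rw [(hb _).agree (hb _) c j hj.le, (hb _).agree (hb _) d j hj.le, a j hj], c ▸ d ▸ b⟩)⟩

theorem nearR {p q : L} (h : p < q) (e : sd p = true) :
    ∃ k, ∀ p' : L, br p' k = br p k → p' < q := by
  refine (near h fun e' => ?_).imp fun k hk p' c => hk p' q c rfl
  rcases lt_iff.1 h with ⟨i, -, b⟩ | ⟨-, b⟩
  · exact b.ne (congrFun e' i)
  · exact absurd (e ▸ b) (by simp)

theorem nearL {p q : L} (h : p < q) (e : sd q = false ∨ ¬ II (br q)) :
    ∃ k, ∀ q' : L, br q' k = br q k → p < q' := by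
  refine (near h fun e' => ?_).imp fun k hk q' c => hk p q' rfl c
  rcases lt_iff.1 h with ⟨i, -, b⟩ | ⟨-, b⟩
  · exact b.ne (congrFun e' i)
  · rcases e with e | e
    · exact absurd (e ▸ b) (by simp)
    · rcases p.2.2.2 with f | f
      · exact absurd ((show sd p = true from f) ▸ b) (by simp)
      · exact e (e' ▸ f)

theorem no_isolated (p : L) : ¬ IsOpen ({p} : Set L) := fun h => by
  obtain ⟨l, r, ⟨a, b⟩, c⟩ := mem_nhds_iff_exists_Ioo_subset.1 (h.mem_nhds rfl)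
  cases e : sd p
  · obtain ⟨k, hk⟩ := nearL a (Or.inl e)
    obtain ⟨q, d, f, -⟩ := left p k
    exact d.ne (c ⟨hk q (f k le_rfl), d.trans b⟩)
  · obtain ⟨k, hk⟩ := nearR b e
    obtain ⟨q, d, f⟩ := right p k
    exact d.ne' (c ⟨a.trans d, hk q (f k le_rfl)⟩)

/-- The main basic sets. -/
def W : M → Set L
  | u γ i => C (u γ i) ∪ {p | br p (i + 1) = γ (i + 1) ∧ ∀ q, br q = γ → q ≤ p}
  | x => C x

/-- The basic sets for the additional points. -/
def U (γ : ℕ → M) (m : ℕ) : Set L := {p | br p m = γ m ∧ ∀ q, br q = γ → p ≤ q}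

/-- The base. -/
def B : Set (Set L) := W '' {x | ok x} ∪ {E | ∃ γ m, ok (u γ m) ∧ E = U γ m}

theorem twins {γ i} (h : ok (u γ i)) : ∃ p₀ p₁ : L, br p₀ = γ ∧ br p₁ = γ ∧
    (∀ p, (∀ q, br q = γ → q ≤ p) ↔ p₀ < p) ∧ (∀ p, (∀ q, br q = γ → p ≤ q) ↔ p < p₁) ∧
    ∀ q, br q = γ → p₀ ≤ q ∧ q ≤ p₁ := by
  let p₀ := mk γ false ⟨h.2.1, h.1, Or.inr h.2.2.1⟩
  let p₁ := mk γ true ⟨h.2.1, h.1, Or.inl rfl⟩
  have lt : p₀ < p₁ := lt_iff.2 (Or.inr ⟨rfl, Bool.false_lt_true⟩)
  have two : ∀ q, br q = γ → q = p₀ ∨ q = p₁ := by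
    rintro ⟨⟨β, _ | _⟩, hq⟩ rfl
    exacts [Or.inl rfl, Or.inr rfl]
  have gap : ∀ p, p₀ < p → p < p₁ → False := fun p a b => by
    rcases two p (funext fun j => between a b (m := j) (fun _ _ => rfl) j le_rfl) with rfl | rfl
    exacts [lt_irrefl _ a, lt_irrefl _ b]
  have bd : ∀ q, br q = γ → p₀ ≤ q ∧ q ≤ p₁ := fun q e => by
    rcases two q e with rfl | rfl
    exacts [⟨le_rfl, lt.le⟩, ⟨lt.le, le_rfl⟩]
  exact ⟨p₀, p₁, rfl, rfl, fun p => ⟨fun a => lt.trans_le (a p₁ rfl),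
    fun a q e => (bd q e).2.trans (not_lt.1 (gap p a))⟩, fun p => ⟨fun a => (a p₀ rfl).trans_lt lt,
    fun a q e => (not_lt.1 fun b => gap p b a).trans (bd q e).1⟩, bd⟩

theorem B_open : ∀ E ∈ B, IsOpen E := by
  rintro _ (⟨x, h, rfl⟩ | ⟨γ, m, h, rfl⟩)
  · cases x with
    | u γ i =>
      obtain ⟨p₀, -, a, -, b, -⟩ := twins h
      refine (C_open _).union ?_
      convert (C_open (br p₀ (i + 1))).inter (isOpen_Ioi (a := p₀)) using 1
      ext p
      rw [mem_inter_iff, mem_C, a]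
      exact and_congr_right fun _ => b p
    | _ => exact C_open _
  · obtain ⟨p₀, p₁, a, -, -, b, -⟩ := twins h
    convert (C_open (br p₀ m)).inter (isOpen_Iio (a := p₁)) using 1
    ext p
    rw [mem_inter_iff, mem_C, a]
    exact and_congr_right fun _ => b p

theorem C_sub_W (x : M) : C x ⊆ W x := by
  cases x with
  | u γ i => exact subset_union_left
  | _ => exact Subset.rfl

theorem dep_u {γ i} (h : ok (u γ i)) : dep (u γ i) = i + 1 := congrArg (· + 1) (h.2.1.dep i)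

theorem W_u {γ i} (h : ok (u γ i)) {q} (hq : q ∈ W (u γ i)) :
    (br q (i + 1) = u γ i ∨ br q (i + 1) = free (γ i)) ∧ br q i = γ i ∧
      ∀ p, br p = γ → p ≤ q := by
  rcases hq with e | e
  · have e : br q (i + 1) = u γ i := dep_u h ▸ e
    have e' : br q i = γ i := by rw [← ((hb q).2 i).1, e]; rfl
    refine ⟨Or.inl e, e', ?_⟩
    rintro p rfl
    exact (lt_at (fun j hj => ((hb q).agree (hb p) e' j hj).symm)
      (by rw [e, h.2.2.2]; exact zero_lt_one)).le
  · exact ⟨Or.inr (e.1.trans h.2.2.2), by rw [← ((hb q).2 i).1, e.1, h.2.2.2]; rfl, e.2⟩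

theorem W_sub (p : L) (k : ℕ) {q} (hq : q ∈ W (br p (k + 1))) : br q k = br p k := by
  have h := p.2.2.1 (k + 1)
  have h1 := ((hb p).2 k).1
  have h2 := (hb p).dep (k + 1)
  have h3 : q ∈ C (br p (k + 1)) → br q k = br p k := fun e =>
    (hb q).agree (hb p) (mem_C.1 e) k (Nat.le_succ k)
  change ok (br p (k + 1)) at h
  generalize br p (k + 1) = x at *
  cases x with
  | u γ i =>
    obtain rfl : i = k := by have := dep_u h; omega
    exact (W_u h hq).2.1.trans h1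
  | _ => exact h3 hq

theorem ok_u (p : L) (h : II (br p)) {i} (e : br p (i + 1) = free (br p i)) : ok (u (br p) i) :=
  ⟨p.2.2.1, hb p, h, e⟩

theorem top {p q : L} (e : sd p = true) (h : br q = br p) : q ≤ p := not_lt.1 fun a => by
  rcases lt_iff.1 a with ⟨i, -, b⟩ | ⟨-, b⟩
  · exact b.ne (congrFun h i).symm
  · exact absurd (e ▸ b) (by simp)

theorem basis : IsTopologicalBasis B := by
  refine isTopologicalBasis_of_isOpen_of_nhds B_open fun p O hp hO => ?_
  obtain ⟨l, r, ⟨a, b⟩, c⟩ := mem_nhds_iff_exists_Ioo_subset.1 (hO.mem_nhds hp)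
  cases e : sd p
  · have h : II (br p) := p.2.2.2.resolve_left fun h => by
      cases e.symm.trans (show sd p = true from h)
    obtain ⟨k, hk⟩ := nearL a (Or.inl e)
    obtain ⟨i, hi, f⟩ := h k
    refine ⟨U (br p) i, Or.inr ⟨_, _, ok_u p h f, rfl⟩, ⟨rfl, fun q g => not_lt.1 fun a => ?_⟩,
      fun q hq => c ⟨hk q ((hb q).agree (hb p) hq.1 k hi), (hq.2 p rfl).trans_lt b⟩⟩
    rcases lt_iff.1 a with ⟨i, -, b⟩ | ⟨-, b⟩
    · exact b.ne (congrFun g i)
    · exact absurd (e ▸ b) (by simp)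
  · obtain ⟨k, hk⟩ := nearR b e
    by_cases h : II (br p)
    · obtain ⟨i, hi, f⟩ := h k
      have o := ok_u p h f
      exact ⟨W (u (br p) i), Or.inl ⟨_, o, rfl⟩, Or.inr ⟨rfl, fun q => top e⟩, fun q hq =>
        c ⟨a.trans_le ((W_u o hq).2.2 p rfl), hk q ((hb q).agree (hb p) (W_u o hq).2.1 k hi)⟩⟩
    · obtain ⟨k', hk'⟩ := nearL a (Or.inr h)
      exact ⟨W (br p (max k k' + 1)), Or.inl ⟨_, p.2.2.1 _, rfl⟩, C_sub_W _ (mem_C.2 rfl),
        fun q hq => c ⟨hk' q ((hb q).agree (hb p) (W_sub p _ hq) _ (le_max_right _ _)),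
          hk q ((hb q).agree (hb p) (W_sub p _ hq) _ (le_max_left _ _))⟩⟩

theorem mem_W {x p} (h : p ∈ W x) : p ∈ C x ∨ ∃ γ i, x = u γ i ∧
    br p (i + 1) = γ (i + 1) ∧ ∀ q, br q = γ → q ≤ p := by
  cases x with
  | u γ i => exact h.imp_right fun e => ⟨γ, i, rfl, e⟩
  | _ => exact Or.inl h

theorem id2 {p : L} {E} (hE : E ∈ B) (hp : p ∈ E) (h : E ⊆ Ici p) :
    (∃ i, ok (u (br p) i) ∧ E = W (u (br p) i)) := by
  rcases hE with ⟨x, o, rfl⟩ | ⟨γ, m, o, rfl⟩
  · rcases mem_W hp with e | ⟨γ, i, rfl, e, e'⟩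
    · obtain ⟨q, a, b, -⟩ := left p (dep x)
      exact absurd (h (C_sub_W x ((b _ le_rfl).trans e))) a.not_ge
    · obtain ⟨p₀, p₁, -, a, -, -, b⟩ := twins o
      obtain rfl : p = p₁ := le_antisymm
        (h (Or.inr ⟨congrFun a _, fun q e => (b q e).2⟩)) (e' p₁ a)
      exact ⟨i, a ▸ o, a ▸ rfl⟩
  · obtain ⟨q, a, b, -⟩ := left p m
    exact absurd (h ⟨(b _ le_rfl).trans hp.1, fun r e => a.le.trans (hp.2 r e)⟩) a.not_ge

theorem id1 {p : L} {n} (hn : ∀ j, n ≤ j → ∃ γ i, br p (j + 1) = u γ i) {E} (hE : E ∈ B)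
    (hp : p ∈ E) (h : E ⊆ W (br p (n + 1))) : ∃ j, n ≤ j ∧ E = W (br p (j + 1)) := by
  have nl : ∀ m ≤ n, ∀ q ∈ E, (∀ j ≤ m, br q j = br p j) →
      lev (br q (m + 1)) < lev (br p (m + 1)) → lev (br q (m + 1)) = 0 ∧ m = n := by
    intro m hm q a b c
    have d := (hb q).agree (hb p) (W_sub p n (h a))
    obtain rfl : m = n := hm.eq_or_lt.resolve_right fun e => c.ne (by rw [d _ e])
    obtain ⟨γ, i, e⟩ := hn m le_rfl
    have o : ok (u γ i) := e ▸ p.2.2.1 (m + 1)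
    obtain rfl : i = m := by have := (hb p).dep (m + 1); rw [e, dep_u o] at this; omega
    rcases (W_u o (e ▸ h a)).1 with f | f
    · exact absurd (by rw [e, f]) c.ne
    · exact ⟨by rw [f]; rfl, rfl⟩
  have nl2 : ∀ m ≤ n, (∀ q < p, br q m = br p m → q ∈ E) → False := fun m hm H => by
    obtain ⟨q, a, b, c⟩ := left p m
    obtain ⟨r, a', b', c'⟩ := left q m
    have h1 := (nl m hm q (H q a (b _ le_rfl)) b c).1
    have h2 := (nl m hm r (H r (a'.trans a) ((b' _ le_rfl).trans (b _ le_rfl)))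
      (fun j hj => (b' j hj).trans (b j hj)) (c'.trans c)).1
    omega
  rcases hE with ⟨x, o, rfl⟩ | ⟨γ, m, o, rfl⟩
  · rcases mem_W hp with e | ⟨γ, i, rfl, e, e'⟩
    · rcases le_or_gt (dep x) n with f | f
      · exact (nl2 _ f fun q _ g => C_sub_W x (g.trans e)).elim
      · obtain ⟨j, hj⟩ : ∃ j, dep x = j + 1 := ⟨dep x - 1, by omega⟩
        exact ⟨j, by omega, by rw [← hj, show br p (dep x) = x from e]⟩
    · have f : i < n := not_le.1 fun f => by
        obtain ⟨_, _, g⟩ := hn i f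
        cases g.symm.trans (e.trans o.2.2.2)
      obtain ⟨q, hq⟩ := ext_pt o
      have := (hb q).agree (hb p) (W_sub p n (h (C_sub_W _ hq))) (i + 1) f
      rw [dep_u o] at hq
      cases hq.symm.trans (this.trans (e.trans o.2.2.2))
  · rcases le_or_gt n m with f | f
    · obtain ⟨_, _, g⟩ := hn m f
      obtain ⟨p₀, -, a, -⟩ := twins o
      exact absurd (hp.2 p₀ a) (lt_at (m := m) (fun j hj =>
        (hb p₀).agree (hb p) (a ▸ hp.1.symm) j hj) (by rw [g, a, o.2.2.2]; exact zero_lt_one)).not_ge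
    · exact (nl2 m f.le fun q a g => ⟨g.trans hp.1, fun r e => a.le.trans (hp.2 r e)⟩).elim

theorem not_res (B₀ : Set (Set L)) (h : B₀ ⊆ B) (h0 : IsTopologicalBasis B₀)
    (h1 : IsTopologicalBasis (B \ B₀)) : False := by
  have : ∀ x : {x // ok x}, ∃ y : {x // ok x}, par y.1 = x.1 ∧ y.1 ≠ root ∧
      ((∃ γ i, y.1 = u γ i ∧ W y.1 ∈ B₀) ∨
        y.1 = free x.1 ∧ ∀ γ i, ok (u γ i) → γ i = x.1 → W (u γ i) ∉ B₀) := fun x => by
    by_cases e : ∃ γ i, ok (u γ i) ∧ γ i = x.1 ∧ W (u γ i) ∈ B₀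
    · obtain ⟨γ, i, a, b, c⟩ := e
      exact ⟨⟨_, a⟩, b, by simp, Or.inl ⟨γ, i, rfl, c⟩⟩
    · exact ⟨⟨free x, x.2⟩, rfl, by simp, Or.inr ⟨rfl, fun γ i a b c => e ⟨γ, i, a, b, c⟩⟩⟩
  choose f f1 f2 f3 using this
  let β : ℕ → {x // ok x} := fun k => f^[k] ⟨root, trivial⟩
  have s : ∀ k, β (k + 1) = f (β k) := fun k => Function.iterate_succ_apply' _ _ _
  let p : L := mk (fun k => β k) true
    ⟨⟨rfl, fun j => by simp only [s]; exact ⟨f1 _, f2 _⟩⟩, fun j => (β j).2, Or.inl rfl⟩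
  have sp : ∀ k, br p (k + 1) = f (β k) := fun k => congrArg Subtype.val (s k)
  by_cases e : II (br p)
  · obtain ⟨i, -, g⟩ := e 0
    have o := ok_u p e g
    obtain ⟨E, a, b, c⟩ := h0.exists_subset_of_mem_open
      (show p ∈ W (u (br p) i) from Or.inr ⟨rfl, fun q => top rfl⟩) (B_open _ (Or.inl ⟨_, o, rfl⟩))
    obtain ⟨j, o', rfl⟩ := id2 (h a) b fun q hq => (W_u o (c hq)).2.2 p rfl
    rcases f3 (β j) with ⟨_, _, g, -⟩ | g
    · cases g.symm.trans ((sp j).symm.trans o'.2.2.2)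
    · exact g.2 _ j o' rfl a
  · simp only [II, not_forall, not_exists, not_and] at e
    obtain ⟨n, hn⟩ := e
    have hn' : ∀ j, n ≤ j → ∃ γ i, br p (j + 1) = u γ i ∧ W (br p (j + 1)) ∈ B₀ := fun j hj => by
      rw [sp]
      exact (f3 (β j)).resolve_right fun g => hn j hj ((sp j).trans g.1)
    obtain ⟨E, a, b, c⟩ := h1.exists_subset_of_mem_open (C_sub_W _ (mem_C.2 rfl) : p ∈ W (br p (n + 1)))
      (B_open _ (Or.inl ⟨_, p.2.2.1 _, rfl⟩))
    obtain ⟨j, hj, rfl⟩ := id1 (fun j hj => (hn' j hj).imp fun _ h => h.imp fun _ h => h.1) a.1 b c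
    obtain ⟨_, _, -, g⟩ := hn' j hj
    exact a.2 g

end Pool.Agent.Lib.helper4.LotsRes
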