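import Mathlib

set_option autoImplicit false

open Cardinal Set

namespace Pool.Agent.Lib.helper4.MProd

/-- A Boolean `m`-algebra: all subsets of size at most `m` have a join and a meet. -/
def IsMAlg (m : Cardinal.{0}) (B : Type) [BooleanAlgebra B] : Prop :=
  ∀ S : Set B, #S ≤ m → (∃ a, IsLUB S a) ∧ ∃ a, IsGLB S a

/-- An `m`-homomorphism: a Boolean homomorphism preserving every existing join and meet of at most
`m` elements. -/
def IsMHom (m : Cardinal.{0}) {A B : Type} [BooleanAlgebra A] [BooleanAlgebra B]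
    (h : BoundedLatticeHom A B) : Prop :=
  ∀ S : Set A, #S ≤ m → ∀ a, (IsLUB S a → IsLUB (h '' S) (h a)) ∧ (IsGLB S a → IsGLB (h '' S) (h a))

/-- The images of the `i t` generate `B` as a Boolean `m`-algebra: the only subset containing them
and closed under complements and under joins of at most `m` elements is `B`. -/
def MGen (m : Cardinal.{0}) {T : Type} {A : T → Type} [∀ t, BooleanAlgebra (A t)] {B : Type}
    [BooleanAlgebra B] (i : ∀ t, BoundedLatticeHom (A t) B) : Prop :=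
  ∀ C : Set B, (∀ t a, i t a ∈ C) → (∀ b ∈ C, bᶜ ∈ C) →
    (∀ S ⊆ C, #S ≤ m → ∀ b, IsLUB S b → b ∈ C) → C = Set.univ

/-- Independence over index sets in `P`: for `T'` in `P` and nonzero `a t` (`t ∈ T'`), the meet of
the `i t (a t)`, `t ∈ T'`, exists and is nonzero. -/
def Indep {T : Type} (P : Set T → Prop) {A : T → Type} [∀ t, BooleanAlgebra (A t)] {B : Type}
    [BooleanAlgebra B] (i : ∀ t, BoundedLatticeHom (A t) B) : Prop :=
  ∀ T', P T' → ∀ a : ∀ t, A t, (∀ t ∈ T', a t ≠ ⊥) →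
    ∃ b, IsGLB ((fun t => i t (a t)) '' T') b ∧ b ≠ ⊥

/-- An `m`-product with independence over index sets in `P` (`P` = finite: `(m,0)`-product;
`P` = of size at most `n`: `(m,n)`-product). -/
def IsProd (m : Cardinal.{0}) {T : Type} (P : Set T → Prop) {A : T → Type}
    [∀ t, BooleanAlgebra (A t)] {B : Type} [BooleanAlgebra B]
    (i : ∀ t, BoundedLatticeHom (A t) B) : Prop :=
  IsMAlg m B ∧ (∀ t, IsMHom m (i t) ∧ Function.Injective (i t)) ∧ Indep P i ∧ MGen m i

/-- Minimality: the meets of the `i t (a t)` over index sets in `P` are dense in `B`. -/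
def Dense' {T : Type} (P : Set T → Prop) {A : T → Type} [∀ t, BooleanAlgebra (A t)] {B : Type}
    [BooleanAlgebra B] (i : ∀ t, BoundedLatticeHom (A t) B) : Prop :=
  ∀ b : B, b ≠ ⊥ → ∃ T', P T' ∧ ∃ (a : ∀ t, A t) (g : B),
    IsGLB ((fun t => i t (a t)) '' T') g ∧ g ≠ ⊥ ∧ g ≤ b

section

variable {T : Type} (P : Set T → Prop)

/-- cylinders in the field of all subsets of the set of small subsets -/
def cyl (t : T) : BoundedLatticeHom (Set Prop) (Set {x : Set T // P x}) :=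
  (CompleteLatticeHom.setPreimage fun x : {x : Set T // P x} => t ∈ x.1 : CompleteLatticeHom _ _)

lemma cyl_apply (t : T) (s : Set Prop) (x : {x : Set T // P x}) : x ∈ cyl P t s ↔ (t ∈ x.1) ∈ s :=
  Iff.rfl

lemma cyl_prod (m : Cardinal.{0}) (hT : #T ≤ m) (hD : #{x : Set T // P x} ≤ m)
    (hsub : ∀ x y, P x → y ⊆ x → P y) (h1 : ∀ t, P {t}) :
    IsProd m P (A := fun _ => Set Prop) (cyl P) := by
  have hind : Indep P (A := fun _ => Set Prop) (cyl P) := by
    intro T' hT' a ha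
    refine ⟨_, isGLB_sInf _, (nonempty_iff_ne_empty.mp ⟨⟨{t ∈ T' | True ∈ a t},
      hsub _ _ hT' (sep_subset _ _)⟩, ?_⟩)⟩
    rintro _ ⟨t, ht, rfl⟩
    show (t ∈ T' ∧ True ∈ a t) ∈ a t
    by_cases h : True ∈ a t
    · rw [eq_true (show t ∈ T' ∧ True ∈ a t from ⟨ht, h⟩)]; exact h
    · obtain ⟨p, hp⟩ := nonempty_iff_ne_empty.mpr (ha t ht)
      have hp' : ¬ p := fun h' => h (eq_true h' ▸ hp)
      rw [eq_false (show ¬ (t ∈ T' ∧ True ∈ a t) from fun h' => h h'.2), ← eq_false hp']; exact hp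
  refine ⟨fun S _ => ⟨⟨_, isLUB_sSup S⟩, _, isGLB_sInf S⟩, fun t => ⟨fun S _ a => ⟨fun h => ?_, fun h => ?_⟩, ?_⟩,
    hind, fun C h1 h2 h3 => ?_⟩
  · rw [← h.sSup_eq]
    have := (CompleteLatticeHom.setPreimage fun x : {x : Set T // P x} => t ∈ x.1).map_sSup' S
    exact (show cyl P t (sSup S) = sSup (cyl P t '' S) from this) ▸ isLUB_sSup _
  · rw [← h.sInf_eq]
    have := (CompleteLatticeHom.setPreimage fun x : {x : Set T // P x} => t ∈ x.1).map_sInf' S
    exact (show cyl P t (sInf S) = sInf (cyl P t '' S) from this) ▸ isGLB_sInf _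
  · refine Function.Surjective.preimage_injective (f := fun x : {x : Set T // P x} => t ∈ x.1) fun p => ?_
    by_cases hp : p
    · exact ⟨⟨{t}, h1 t⟩, by simp [hp]⟩
    · exact ⟨⟨∅, hsub _ _ (h1 t) (empty_subset _)⟩, by simp [hp]⟩
  · have hs : ∀ x, {x} ∈ C := by
      intro x
      have h4 := h2 _ (h3 (range fun t => cyl P t {t ∈ x.1}ᶜ) (by rintro _ ⟨t, rfl⟩; exact h1 _ _)
        (mk_range_le.trans hT) _ (isLUB_sSup _))
      convert h4 using 1
      ext y
      simp only [mem_singleton_iff, sSup_eq_sUnion, sUnion_range, mem_compl_iff, mem_iUnion, cyl_apply,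
        not_exists, not_not, eq_iff_iff]
      exact ⟨fun h t => by rw [h], fun h => Subtype.ext (Set.ext h)⟩
    refine eq_univ_of_forall fun s => h3 (singleton '' s) (by rintro _ ⟨x, -, rfl⟩; exact hs x)
      (mk_image_le.trans ((mk_set_le s).trans hD)) s ?_
    exact ⟨by rintro _ ⟨x, hx, rfl⟩; exact singleton_subset_iff.mpr hx,
      fun u hu x hx => hu ⟨x, hx, rfl⟩ rfl⟩

lemma small (hins : ∀ x t, P x → P (insert t x)) (hU : ¬ P Set.univ) {M : Type} [BooleanAlgebra M]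
    (j : ∀ _ : T, BoundedLatticeHom (Set Prop) M) (hj : Indep P (A := fun _ => Set Prop) j)
    (hd : Dense' P (A := fun _ => Set Prop) j) (c : M) (x : T → Prop) (hc : ∀ t, c ≤ j t {x t}) :
    c = ⊥ := by
  classical
  by_contra hx
  obtain ⟨T', hT', a, g, hg, hg0, hgb⟩ := hd _ hx
  obtain ⟨t, ht⟩ : ∃ t, t ∉ T' := by
    by_contra h'
    push Not at h'
    exact hU (eq_univ_of_forall h' ▸ hT')
  obtain ⟨b, hb, hb0⟩ := hj _ (hins _ t hT') (Function.update a t {x t}ᶜ) (by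
    intro s hs
    by_cases hst : s = t
    · subst hst
      rw [Function.update_self]
      exact nonempty_iff_ne_empty.mp ⟨¬ x s, fun h' => by simp at h'⟩
    · rw [Function.update_of_ne hst]
      intro h'
      have := hg.1 ⟨s, hs.resolve_left hst, rfl⟩
      simp only [h', map_bot, le_bot_iff] at this
      exact hg0 this)
  have b1 : b ≤ g := hg.2 (by
    rintro _ ⟨s, hs, rfl⟩
    have hst : s ≠ t := fun h' => ht (h' ▸ hs)
    have := hb.1 ⟨s, Or.inr hs, rfl⟩
    simpa only [Function.update_of_ne hst] using this)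
  have b2 : b ≤ (j t {x t})ᶜ := by
    have := hb.1 ⟨t, Or.inl rfl, rfl⟩
    simpa only [Function.update_self, map_compl'] using this
  exact hb0 (le_bot_iff.mp ((le_inf (b1.trans (hgb.trans (hc t))) b2).trans inf_compl_eq_bot.le))

lemma no_hom (m : Cardinal.{0}) (hD : #{x : Set T // P x} ≤ m) (h0 : P ∅)
    (hins : ∀ x t, P x → P (insert t x)) (hU : ¬ P Set.univ) {M : Type} [BooleanAlgebra M]
    (j : ∀ _ : T, BoundedLatticeHom (Set Prop) M) (hj : Indep P (A := fun _ => Set Prop) j)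
    (hd : Dense' P (A := fun _ => Set Prop) j) :
    ¬ ∃ h : BoundedLatticeHom (Set {x : Set T // P x}) M, IsMHom m h ∧
      ∀ t a, j t a = h (cyl P t a) := by
  rintro ⟨h, hh, he⟩
  have hs : ∀ x, h {x} = ⊥ := fun x => small P hins hU j hj hd _ (fun t => t ∈ x.1) fun t => by
    rw [he]
    exact OrderHomClass.mono h (singleton_subset_iff.mpr rfl)
  have hl : IsLUB (range singleton) (⊤ : Set {x : Set T // P x}) :=
    ⟨fun _ _ => le_top, fun u hu x _ => hu ⟨x, rfl⟩ rfl⟩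
  have h2 := (hh _ (mk_range_le.trans hD) _).1 hl
  have h3 : h ⊤ ≤ ⊥ := h2.2 (by rintro _ ⟨_, ⟨x, rfl⟩, rfl⟩; exact (hs x).le)
  obtain ⟨b, -, hb0⟩ := hj ∅ h0 (fun _ => ⊤) (fun _ h => h.elim)
  rw [map_top] at h3
  exact hb0 (le_bot_iff.mp (le_top.trans h3))

/-- the space of all maps `T → Prop` with the topology of small boxes -/
def X (_h0 : P ∅) (_hu : ∀ x y, P x → P y → P (x ∪ y)) : Type := T → Prop

variable {P} (h0 : P ∅) (hu : ∀ x y, P x → P y → P (x ∪ y))

instance : TopologicalSpace (X P h0 hu) where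
  IsOpen U := ∀ y ∈ U, ∃ T', P T' ∧ ∀ z : X P h0 hu, (∀ t ∈ T', z t = y t) → z ∈ U
  isOpen_univ := fun _ _ => ⟨∅, h0, fun _ _ => trivial⟩
  isOpen_inter := fun _ _ hU hV y hy => by
    obtain ⟨a, ha, h1⟩ := hU y hy.1
    obtain ⟨b, hb, h2⟩ := hV y hy.2
    exact ⟨a ∪ b, hu _ _ ha hb, fun z hz =>
      ⟨h1 z fun t ht => hz t (Or.inl ht), h2 z fun t ht => hz t (Or.inr ht)⟩⟩
  isOpen_sUnion := fun _ hS y ⟨U, hU, hy⟩ => by
    obtain ⟨a, ha, h1⟩ := hS U hU y hy
    exact ⟨a, ha, fun z hz => ⟨U, hU, h1 z hz⟩⟩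

/-- the regular open algebra -/
abbrev RO : Type := Heyting.Regular (TopologicalSpace.Opens (X P h0 hu))

/-- sets determined by a small set of coordinates are regular open -/
def mk (U : Set (X P h0 hu)) (T' : Set T) (hT' : P T')
    (hU : ∀ y z : X P h0 hu, (∀ t ∈ T', z t = y t) → y ∈ U → z ∈ U) : RO h0 hu :=
  ⟨⟨U, fun y hy => ⟨T', hT', fun z hz => hU y z hz hy⟩⟩, by
    have h : IsCompl (⟨U, fun y hy => ⟨T', hT', fun z hz => hU y z hz hy⟩⟩ : TopologicalSpace.Opens (X P h0 hu))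
        ⟨Uᶜ, fun y hy => ⟨T', hT', fun z hz h => hy (hU z y (fun t ht => (hz t ht).symm) h)⟩⟩ := by
      constructor
      · rw [disjoint_iff]; ext1; simp
      · rw [codisjoint_iff]; ext1; simp
    show _ᶜᶜ = _
    rw [h.compl_eq, h.symm.compl_eq]⟩

/-- underlying set -/
def st (b : RO h0 hu) : Set (X P h0 hu) := ((b : TopologicalSpace.Opens (X P h0 hu)) : Set _)

lemma le_iff {a b : RO h0 hu} : a ≤ b ↔ st h0 hu a ⊆ st h0 hu b := Iff.rfl

lemma ne_bot {a : RO h0 hu} : a ≠ ⊥ ↔ (st h0 hu a).Nonempty := by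
  rw [nonempty_iff_ne_empty, ne_eq, ← le_bot_iff, le_iff]
  exact subset_empty_iff.not

/-- the embeddings -/
def jj (h1 : ∀ t, P {t}) (t : T) : BoundedLatticeHom (Set Prop) (RO h0 hu) where
  toFun s := mk h0 hu {y | y t ∈ s} {t} (h1 t) fun y z hz hy => by
    show z t ∈ s
    rw [hz t rfl]; exact hy
  map_sup' a b := by
    apply Heyting.Regular.coe_injective
    rw [Heyting.Regular.coe_sup, ← (Heyting.Regular.prop _).eq]
    congr 2
  map_inf' a b := rfl
  map_top' := rfl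
  map_bot' := rfl

lemma ro_alg (S : Set (RO h0 hu)) : (∃ a, IsLUB S a) ∧ ∃ a, IsGLB S a :=
  ⟨⟨_, Heyting.Regular.gi.isLUB_of_u_image (isLUB_sSup _)⟩,
    _, Heyting.Regular.gi.isGLB_of_u_image (isGLB_sInf _)⟩

lemma mhom_fin (m : Cardinal.{0}) {A B : Type} [BooleanAlgebra A] [BooleanAlgebra B] [Finite A]
    (h : BoundedLatticeHom A B) : IsMHom m h := by
  classical
  intro S _ a
  obtain ⟨s, rfl⟩ := (toFinite S).exists_finset_coe
  constructor
  · intro ha
    rw [ha.unique s.isLUB_sup_id, map_finset_sup]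
    simpa only [Function.comp_id] using (Finset.isLUB_sup (s := s) (f := h))
  · intro ha
    rw [ha.unique s.isGLB_inf_id, map_finset_inf]
    simpa only [Function.comp_id] using (Finset.isGLB_inf (s := s) (f := h))

/-- boxes -/
def box (T' : Set T) (hT' : P T') (a : T → Set Prop) : RO h0 hu :=
  mk h0 hu {y | ∀ t ∈ T', y t ∈ a t} T' hT' fun y z hz hy t ht => by rw [hz t ht]; exact hy t ht

lemma box_glb (h1 : ∀ t, P {t}) (T' : Set T) (hT' : P T') (a : T → Set Prop) :
    IsGLB ((fun t => jj h0 hu h1 t (a t)) '' T') (box h0 hu T' hT' a) :=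
  ⟨by rintro _ ⟨t, ht, rfl⟩ y hy; exact hy t ht, fun _ hb y hy t ht => hb ⟨t, ht, rfl⟩ hy⟩

lemma ro_min (m : Cardinal.{0}) (hm : ℵ₀ ≤ m) (hT : #T ≤ m) (hD : #{x : Set T // P x} ≤ m)
    (hsub : ∀ x y, P x → y ⊆ x → P y) (h1 : ∀ t, P {t}) :
    IsProd m P (A := fun _ => Set Prop) (jj h0 hu h1) ∧
      Dense' P (A := fun _ => Set Prop) (jj h0 hu h1) := by
  refine ⟨⟨fun S _ => ro_alg h0 hu S, fun t => ⟨mhom_fin _ _, fun a b h => ?_⟩, fun T' hT' a ha => ?_,
    fun C c1 c2 c3 => eq_univ_of_forall fun b => ?_⟩, fun b hb => ?_⟩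
  · ext p
    exact Set.ext_iff.mp (congrArg (st h0 hu) h) (fun _ => p)
  · classical
    refine ⟨_, box_glb h0 hu h1 T' hT' a, (ne_bot h0 hu).mpr
      ⟨fun t => if h : (a t).Nonempty then h.some else True, fun t ht => ?_⟩⟩
    have h := nonempty_iff_ne_empty.mpr (ha t ht)
    simp only [h, dif_pos]
    exact h.some_mem
  · have hb : ∀ T' (hT' : P T') a, box h0 hu T' hT' a ∈ C := by
      intro T' hT' a
      have h2 := (box_glb h0 hu h1 T' hT' a)
      have h3 : IsLUB ((fun t => jj h0 hu h1 t (a t)ᶜ) '' T') (box h0 hu T' hT' a)ᶜ := by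
        constructor
        · rintro _ ⟨t, ht, rfl⟩
          simp only [map_compl']
          exact compl_le_compl (h2.1 ⟨t, ht, rfl⟩)
        · intro u hu'
          rw [compl_le_iff_compl_le]
          refine h2.2 ?_
          rintro _ ⟨t, ht, rfl⟩
          have := hu' ⟨t, ht, rfl⟩
          simp only [map_compl'] at this
          exact compl_le_iff_compl_le.mp this
      have := c2 _ (c3 _ (by rintro _ ⟨t, -, rfl⟩; exact c1 _ _)
        (mk_image_le.trans ((mk_set_le _).trans hT)) _ h3)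
      rwa [compl_compl] at this
    let f : {x : Set T // P x} × {x : Set T // P x} → RO h0 hu := fun p =>
      box h0 hu p.1.1 p.1.2 fun t => {t ∈ p.2.1}
    refine c3 (range f ∩ Iic b) (by rintro _ ⟨⟨p, rfl⟩, -⟩; exact hb _ _ _) ?_ b
      ⟨fun _ h => h.2, fun u hu' y hy => ?_⟩
    · refine (mk_le_mk_of_subset inter_subset_left).trans (mk_range_le.trans ?_)
      rw [mk_prod, lift_id]
      exact mul_le_of_le hm hD hD
    · obtain ⟨T', hT', h⟩ := b.1.2 y hy
      refine hu' (a := f (⟨T', hT'⟩, ⟨{t ∈ T' | y t}, hsub _ _ hT' (sep_subset _ _)⟩))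
        ⟨⟨_, rfl⟩, fun z hz => h z fun t ht => ?_⟩ fun t ht => ?_
      · have : z t = (t ∈ T' ∧ y t) := hz t ht
        rw [this]; simp [ht]
      · show y t = (t ∈ T' ∧ y t)
        have ht' : t ∈ T' := ht
        simp [ht']
  · obtain ⟨y, hy⟩ := (ne_bot h0 hu).mp hb
    obtain ⟨T', hT', h⟩ := b.1.2 y hy
    exact ⟨T', hT', fun t => {y t}, _, box_glb h0 hu h1 T' hT' _,
      (ne_bot h0 hu).mpr ⟨y, fun _ _ => rfl⟩, fun z hz => h z hz⟩

end

end Pool.Agent.Lib.helper4.MProd
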