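import Mathlib

/-! Real-line data for a rational flow without equivariant compactification. -/

namespace Pool.Agent.Lib.helper4.Smir

open Set Filter Topology MeasureTheory

/-- An enumeration of the rationals. -/
noncomputable def qq : ℕ → ℚ := (exists_surjective_nat ℚ).choose

theorem qq_surj : Function.Surjective qq := (exists_surjective_nat ℚ).choose_spec

/-- Irrational radii. -/
noncomputable def dl (i l : ℕ) : ℝ := √2 * ((1 / 2) ^ i * (1 / 2) ^ l)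

theorem dl_pos (i l : ℕ) : 0 < dl i l := by unfold dl; positivity

theorem dl_irr (i l : ℕ) : Irrational (dl i l) := by
  have := irrational_sqrt_two.mul_ratCast (q := (1 / 2) ^ i * (1 / 2) ^ l) (by positivity)
  unfold dl
  simpa using this

/-- Finite unions of small intervals around rationals. -/
def G (i k : ℕ) : Set ℝ := {u | ∃ l < k, |u - qq l| < dl i l}

/-- The shrinking open sets attached to the nodes of a tree. -/
def E : List ℕ → Set ℝ
  | [] => univ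
  | k :: s => E s ∩ G s.length k

/-- Finite initial parts of a branch. -/
def br (x : ℕ → ℕ) : ℕ → List ℕ
  | 0 => []
  | j + 1 => x j :: br x j

theorem br_length (x : ℕ → ℕ) (j : ℕ) : (br x j).length = j := by
  induction j with
  | zero => rfl
  | succ j ih => simp [br, ih]

theorem E_anti (x : ℕ → ℕ) {j j' : ℕ} (h : j ≤ j') : E (br x j') ⊆ E (br x j) := by
  induction h with
  | refl => exact Subset.rfl
  | step _ ih => exact inter_subset_left.trans ih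

theorem ball_lc {t c d : ℝ} (h : |t - c| ≠ d) : ∀ᶠ u in 𝓝 t, (|u - c| < d ↔ |t - c| < d) := by
  have hc : ContinuousAt (fun u : ℝ => |u - c|) t := by fun_prop
  rcases lt_or_gt_of_ne h with h | h
  · exact (hc.eventually (gt_mem_nhds h)).mono fun u hu => iff_of_true hu h
  · exact (hc.eventually (lt_mem_nhds h)).mono fun u hu => iff_of_false (not_lt.2 hu.le) (not_lt.2 h.le)

theorem G_lc (i k : ℕ) (t : ℚ) : ∀ᶠ u in 𝓝 (t : ℝ), (u ∈ G i k ↔ (t : ℝ) ∈ G i k) := by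
  have : ∀ᶠ u : ℝ in 𝓝 (t : ℝ), ∀ l ∈ Iio k, (|u - qq l| < dl i l ↔ |(t : ℝ) - qq l| < dl i l) := by
    rw [eventually_all_finite (finite_Iio k)]
    intro l _
    apply ball_lc
    intro e
    apply dl_irr i l
    exact ⟨|t - qq l|, by rw [← e]; push_cast; rfl⟩
  refine this.mono fun u hu => ?_
  constructor
  · rintro ⟨l, hl, h⟩; exact ⟨l, hl, (hu l hl).1 h⟩
  · rintro ⟨l, hl, h⟩; exact ⟨l, hl, (hu l hl).2 h⟩

theorem E_lc (s : List ℕ) (t : ℚ) : ∀ᶠ u in 𝓝 (t : ℝ), (u ∈ E s ↔ (t : ℝ) ∈ E s) := by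
  induction s with
  | nil => simp [E]
  | cons k s ih =>
    filter_upwards [ih, G_lc s.length k t] with u h1 h2
    exact and_congr h1 h2

theorem E_conv (s : List ℕ) (t : ℚ) :
    ∃ m, ∀ᶠ u in 𝓝 (t : ℝ), ∀ k, m ≤ k → (u ∈ E (k :: s) ↔ (t : ℝ) ∈ E s) := by
  obtain ⟨l, rfl⟩ := qq_surj t
  refine ⟨l + 1, ?_⟩
  have h0 : |((qq l : ℚ) : ℝ) - qq l| < dl s.length l := by simpa using dl_pos _ _
  filter_upwards [E_lc s (qq l), ball_lc h0.ne] with u h1 h2 k hk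
  exact ⟨fun h => h1.1 h.1, fun h => ⟨h1.2 h, l, by omega, h2.2 h0⟩⟩

theorem exists_theta : ∃ θ : ℝ, (∀ q : ℚ, θ ≠ √2 + q) ∧
    ∀ (q : ℚ) (x : ℕ → ℕ), ∃ j, ∀ᶠ u in 𝓝 (θ + q), u ∉ E (br x j) := by
  have h1 : ∀ᵐ θ : ℝ, θ ∉ range (fun q : ℚ => √2 + q) := (countable_range _).ae_notMem _
  have h2 : ∀ᵐ θ : ℝ, ∀ q : ℚ,
      {p : ℕ × ℕ | θ ∈ Metric.closedBall ((qq p.2 : ℝ) - q) (dl p.1 p.2)}.Finite := by
    rw [ae_all_iff]
    intro q
    apply ae_finite_setOfPred_mem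
    simp only [Real.volume_closedBall]
    have hs : Summable fun p : ℕ × ℕ => 2 * dl p.1 p.2 :=
      ((summable_geometric_two.mul_of_nonneg summable_geometric_two (fun _ => by positivity)
        (fun _ => by positivity)).mul_left _).mul_left _
    rw [← ENNReal.ofReal_tsum_of_nonneg (fun p => by have := dl_pos p.1 p.2; positivity) hs]
    exact ENNReal.ofReal_ne_top
  obtain ⟨θ, a, b⟩ := (h1.and h2).exists
  refine ⟨θ, fun q e => a ⟨q, e.symm⟩, fun q x => ?_⟩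
  obtain ⟨i, hi⟩ := ((b q).image Prod.fst).exists_notMem
  refine ⟨i + 1, ?_⟩
  have hne : ∀ l, dl i l < |θ + q - qq l| := by
    intro l
    by_contra hc
    apply hi
    refine ⟨(i, l), ?_, rfl⟩
    show dist _ _ ≤ _
    rw [Real.dist_eq, show θ - ((qq l : ℝ) - q) = θ + q - qq l by ring]
    exact not_lt.1 hc
  have : ∀ᶠ u : ℝ in 𝓝 (θ + q), ∀ l ∈ Iio (x i),
      (|u - qq l| < dl i l ↔ |θ + q - qq l| < dl i l) := by
    rw [eventually_all_finite (finite_Iio _)]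
    exact fun l _ => ball_lc (hne l).ne'
  refine this.mono fun u hu h => ?_
  obtain ⟨l, hl, h⟩ := h.2
  rw [br_length] at h
  exact absurd ((hu l hl).1 h) (not_lt.2 (hne l).le)

/-- The chosen irrational offset. -/
noncomputable def θ : ℝ := exists_theta.choose

abbrev Node : Type := ℕ × List ℕ
abbrev Row : Type := Node × ℕ
abbrev End : Type := Node ⊕ (ℕ × (ℕ → ℕ))

/-- The rows attached to an end. -/
def F : End → ℕ → Set Row
  | .inl ν, m => {ρ | (ρ.1 = ν ∧ m ≤ ρ.2) ∨ ∃ k, m ≤ k ∧ ρ.1 = (ν.1, k :: ν.2)}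
  | .inr p, m => {ρ | (ρ.1 = (p.1, []) ∧ m ≤ ρ.2) ∨ ∃ j, m ≤ j ∧ ρ = ((p.1 + 1, br p.2 j), 0)}

theorem F_anti (e : End) {m m' : ℕ} (h : m ≤ m') : F e m' ⊆ F e m := by
  rcases e with ν | p
  · rintro ρ (⟨a, b⟩ | ⟨k, a, b⟩)
    · exact Or.inl ⟨a, h.trans b⟩
    · exact Or.inr ⟨k, h.trans a, b⟩
  · rintro ρ (⟨a, b⟩ | ⟨k, a, b⟩)
    · exact Or.inl ⟨a, h.trans b⟩
    · exact Or.inr ⟨k, h.trans a, b⟩

theorem F_out (e : End) (ρ : Row) : ∃ m, ρ ∉ F e m := by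
  rcases e with ν | p
  · refine ⟨ρ.2 + ρ.1.2.headI + 1, ?_⟩
    rintro (⟨_, b⟩ | ⟨k, a, b⟩)
    · omega
    · rw [b] at a; simp at a
  · refine ⟨ρ.2 + ρ.1.2.length + 1, ?_⟩
    rintro (⟨_, b⟩ | ⟨k, a, b⟩)
    · omega
    · rw [b] at a; simp [br_length] at a

/-- The level of an end. -/
def lev : End → ℕ
  | .inl ν => ν.1
  | .inr p => p.1

theorem F_lev {e : End} {m : ℕ} {ρ : Row} (h : ρ ∈ F e m) : lev e ≤ ρ.1.1 ∧ ρ.1.1 ≤ lev e + 1 := by
  rcases e with ν | p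
  · rcases h with ⟨a, _⟩ | ⟨k, _, a⟩ <;> simp [lev, a]
  · rcases h with ⟨a, _⟩ | ⟨k, _, a⟩ <;> simp [lev, a]

theorem descend (c : Row → ℝ)
    (hc : ∀ e, ∀ ε > 0, ∃ m, ∀ ρ ∈ F e m, ∀ ρ' ∈ F e m, |c ρ - c ρ'| < ε) (n : ℕ)
    (h : ∃ a > 0, ∀ᶠ l in atTop, a ≤ c ((n + 1, []), l)) :
    ∃ a > 0, ∀ᶠ l in atTop, a ≤ c ((n, []), l) := by
  obtain ⟨a, ha, h⟩ := h
  have h1 : ∀ s : List ℕ, ∃ m, ∀ ρ ∈ F (.inl (n + 1, s)) m, ∀ ρ' ∈ F (.inl (n + 1, s)) m,
      |c ρ - c ρ'| < a / 4 * (1 / 2) ^ s.length := fun s => hc _ _ (by positivity)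
  choose μ hμ using h1
  let y : ℕ → List ℕ := fun j => Nat.rec [] (fun _ s => μ s :: s) j
  let x : ℕ → ℕ := fun j => μ (y j)
  have hy : ∀ j, br x j = y j := by
    intro j
    induction j with
    | zero => rfl
    | succ j ih => show x j :: br x j = μ (y j) :: y j; rw [ih]
  have one : ∀ j b, (∀ᶠ l in atTop, b ≤ c ((n + 1, br x j), l)) →
      ∀ l, b - a / 4 * (1 / 2) ^ j ≤ c ((n + 1, br x (j + 1)), l) := by
    intro j b hb l
    obtain ⟨l', h1, h2⟩ := (hb.and (eventually_ge_atTop (μ (br x j)))).exists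
    have := hμ (br x j) ((n + 1, br x j), l') (Or.inl ⟨rfl, h2⟩) ((n + 1, br x (j + 1)), l)
      (Or.inr ⟨x j, by rw [hy], rfl⟩)
    rw [br_length] at this
    linarith [(abs_lt.1 this).2]
  have all : ∀ j, ∀ᶠ l in atTop, a / 2 + a / 2 * (1 / 2) ^ j ≤ c ((n + 1, br x j), l) := by
    intro j
    induction j with
    | zero => simpa [br] using h
    | succ j ih =>
      refine Eventually.of_forall fun l => ?_
      have := one j _ ih l
      rw [pow_succ]; linarith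
  obtain ⟨m, hm⟩ := hc (.inr (n, x)) (a / 4) (by positivity)
  refine ⟨a / 4, by positivity, (eventually_ge_atTop m).mono fun l hl => ?_⟩
  have h1 := hm ((n + 1, br x (m + 1)), 0) (Or.inr ⟨m + 1, by omega, rfl⟩) ((n, []), l)
    (Or.inl ⟨rfl, hl⟩)
  have h2 := one m _ (all m) 0
  have : (0 : ℝ) < a / 4 * (1 / 2) ^ m := by positivity
  linarith [(abs_lt.1 h1).2]

end Pool.Agent.Lib.helper4.Smir
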