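import Mathlib
import Pool.Agent.Lib.helper4.Smir1

/-! A regularly submetrizable Moore space that is not completely regular. -/

namespace Pool.Agent.Lib.helper4.Moore

open Set Filter Topology
open Pool.Agent.Lib.helper4.Smir (br br_length)

theorem exists_enum : ∃ e : (ℕ → ℕ) → List ℕ → Set (List ℕ), Function.Surjective e := by
  have : Cardinal.mk (List ℕ → Set (List ℕ)) ≤ Cardinal.mk (ℕ → ℕ) := by simp
  obtain ⟨f⟩ := (Cardinal.le_def _ _).1 this
  exact ⟨Function.invFun f, Function.invFun_surjective f.injective⟩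

/-- Escaping nodes. -/
noncomputable def ψ (x : ℕ → ℕ) (i : ℕ) : List ℕ :=
  Classical.epsilon fun u => u ∉ exists_enum.choose x (br x i)

/-- Branches meeting a set of nodes infinitely often. -/
def star (S : Set (List ℕ)) : Set (ℕ → ℕ) := {x | ∃ᶠ i in atTop, br x i ∈ S}

/-- Small sets of branches at each depth. -/
def J : ℕ → Set (Set (ℕ → ℕ))
  | 0 => {∅}
  | d + 1 => {A | ∃ S : List ℕ → Set (List ℕ), (∀ t, star (S t) ∈ J d) ∧
      ∀ x ∈ A, ∀ᶠ i in atTop, ψ x i ∈ S (br x i)}

theorem univ_big (d : ℕ) : univ ∉ J d := by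
  induction d with
  | zero => exact fun h => univ_nonempty.ne_empty h
  | succ d ih =>
    rintro ⟨S, h1, h2⟩
    obtain ⟨x, hx⟩ := exists_enum.choose_spec S
    obtain ⟨i, hi⟩ := (h2 x trivial).exists
    have : ∃ u, u ∉ exists_enum.choose x (br x i) := by
      by_contra hc
      push Not at hc
      apply ih
      convert h1 (br x i)
      refine (eq_univ_of_forall fun y => Frequently.of_forall fun j => ?_).symm
      rw [← hx]; exact hc _
    rw [← hx] at hi
    exact Classical.epsilon_spec this hi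

theorem br_suffix (x : ℕ → ℕ) {i j : ℕ} (h : i ≤ j) : br x i <:+ br x j := by
  induction h with
  | refl => exact List.suffix_refl _
  | step _ ih => exact ih.trans (List.suffix_cons _ _)

theorem suffix_br {x : ℕ → ℕ} {u : List ℕ} {j : ℕ} (hj : u.length ≤ j) :
    u <:+ br x j ↔ br x u.length = u :=
  ⟨fun h => (List.suffix_of_suffix_length_le (br_suffix x hj) h (by rw [br_length])).eq_of_length
    (br_length _ _), fun h => h ▸ br_suffix x hj⟩

/-- Points of the space. -/
inductive X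
  | p
  | a (m : ℕ) (σ : List (List ℕ)) (x : ℕ → ℕ)
  | c (m : ℕ) (σ : List (List ℕ)) (u : List ℕ)

/-- Neighbourhoods of the bad point. -/
def V (n : ℕ) : Set X := {z | match z with
  | .p => True
  | .a m σ _ => n + σ.length ≤ m
  | .c m σ _ => n + σ.length ≤ m + 1}

/-- Basic neighbourhoods. -/
def Nb (n : ℕ) : X → Set X
  | .p => V n
  | .a m σ x => insert (.a m σ x)
      {z | ∃ i, n ≤ i ∧ (z = .c m σ (br x i) ∨ z = .c m (br x i :: σ) (ψ x i))}
  | .c m σ u => {.c m σ u}

theorem Nb_self (n : ℕ) (z : X) : z ∈ Nb n z := by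
  cases z with
  | p => trivial
  | a m σ x => exact mem_insert _ _
  | c m σ u => rfl

theorem Nb_anti (z : X) {n n' : ℕ} (h : n ≤ n') : Nb n' z ⊆ Nb n z := by
  cases z with
  | p =>
    intro w hw
    cases w with
    | p => trivial
    | a m σ x => simp only [Nb, V, mem_ofPred_eq] at *; omega
    | c m σ x => simp only [Nb, V, mem_ofPred_eq] at *; omega
  | a m σ x => exact insert_subset_insert fun w ⟨i, hi, hw⟩ => ⟨i, h.trans hi, hw⟩
  | c m σ u => exact Subset.rfl

instance : TopologicalSpace X where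
  IsOpen U := ∀ z ∈ U, ∃ n, Nb n z ⊆ U
  isOpen_univ _ _ := ⟨0, subset_univ _⟩
  isOpen_inter s t hs ht z hz := by
    obtain ⟨n, hn⟩ := hs z hz.1
    obtain ⟨m, hm⟩ := ht z hz.2
    exact ⟨max n m, subset_inter ((Nb_anti z (le_max_left _ _)).trans hn)
      ((Nb_anti z (le_max_right _ _)).trans hm)⟩
  isOpen_sUnion S hS z := fun ⟨s, hs, h⟩ =>
    let ⟨n, hn⟩ := hS s hs z h
    ⟨n, hn.trans (subset_sUnion_of_mem hs)⟩

theorem isOpen_iff {U : Set X} : IsOpen U ↔ ∀ z ∈ U, ∃ n, Nb n z ⊆ U := Iff.rfl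

theorem Nb_open (n : ℕ) (z : X) : IsOpen (Nb n z) := by
  intro w hw
  cases z with
  | p =>
    cases w with
    | p => exact ⟨n, Subset.rfl⟩
    | a m σ x =>
      refine ⟨0, ?_⟩
      rintro _ (rfl | ⟨i, _, rfl | rfl⟩) <;> simp only [Nb, V, mem_ofPred_eq, List.length_cons] at * <;>
        omega
    | c m σ u => exact ⟨0, singleton_subset_iff.2 hw⟩
  | a m σ x =>
    rcases hw with rfl | ⟨i, hi, rfl | rfl⟩
    · exact ⟨n, Subset.rfl⟩
    · exact ⟨0, singleton_subset_iff.2 (Or.inr ⟨i, hi, Or.inl rfl⟩)⟩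
    · exact ⟨0, singleton_subset_iff.2 (Or.inr ⟨i, hi, Or.inr rfl⟩)⟩
  | c m σ u =>
    rw [show w = .c m σ u from hw]
    exact ⟨0, Subset.rfl⟩

theorem clopen_of {A : Set X} (h : ∀ z, ∃ n, ∀ w ∈ Nb n z, (w ∈ A ↔ z ∈ A)) : IsClopen A :=
  ⟨⟨fun z hz => let ⟨n, hn⟩ := h z; ⟨n, fun w hw hA => hz ((hn w hw).1 hA)⟩⟩,
    fun z hz => let ⟨n, hn⟩ := h z; ⟨n, fun w hw => (hn w hw).2 hz⟩⟩

/-- A countable family of clopen sets. -/
def C (m : ℕ) (σ : List (List ℕ)) (u : List ℕ) (k : Fin 3) : Set X := {z | match z with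
  | .p => False
  | .a m' τ x => m' = m ∧ ((k = 1 ∧ σ <:+ τ) ∨
      (k = 2 ∧ ((τ = σ ∧ br x u.length = u) ∨ ∃ t, u <:+ t ∧ t :: σ <:+ τ)))
  | .c m' τ w => m' = m ∧ ((k = 0 ∧ τ = σ ∧ w = u) ∨ (k = 1 ∧ σ <:+ τ) ∨
      (k = 2 ∧ ((τ = σ ∧ u <:+ w) ∨ ∃ t, u <:+ t ∧ t :: σ <:+ τ)))}

theorem C_clopen (m : ℕ) (σ : List (List ℕ)) (u : List ℕ) (k : Fin 3) : IsClopen (C m σ u k) := by
  apply clopen_of
  intro z
  cases z with
  | p =>
    refine ⟨m + 2, fun w hw => iff_of_false (fun h => ?_) (fun h => h)⟩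
    cases w with
    | p => exact h
    | a m' τ x => have := h.1; simp only [Nb, V, mem_ofPred_eq] at hw; omega
    | c m' τ x => have := h.1; simp only [Nb, V, mem_ofPred_eq] at hw; omega
  | c m' τ w => exact ⟨0, fun w hw => by rw [show w = _ from hw]⟩
  | a m' τ x =>
    refine ⟨u.length + σ.headI.length + 1, ?_⟩
    rintro _ (rfl | ⟨i, hi, rfl | rfl⟩)
    · rfl
    · have h1 : br x i ≠ u := fun e => by rw [← e, br_length] at hi; omega
      simp only [C, mem_ofPred_eq, h1, and_false, false_or, suffix_br (show u.length ≤ i by omega)]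
    · have h1 : br x i :: τ ≠ σ := fun e => by
        rw [← e] at hi; simp [br_length] at hi
      have h2 : (∃ t, u <:+ t ∧ t :: σ <:+ br x i :: τ) ↔
          ((τ = σ ∧ br x u.length = u) ∨ ∃ t, u <:+ t ∧ t :: σ <:+ τ) := by
        rw [← suffix_br (show u.length ≤ i by omega)]
        simp only [List.suffix_cons_iff, List.cons.injEq]
        constructor
        · rintro ⟨t, a, ⟨rfl, rfl⟩ | b⟩
          · exact Or.inl ⟨rfl, a⟩
          · exact Or.inr ⟨t, a, b⟩
        · rintro (⟨rfl, a⟩ | ⟨t, a, b⟩)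
          · exact ⟨_, a, Or.inl ⟨rfl, rfl⟩⟩
          · exact ⟨t, a, Or.inr b⟩
      have h3 : σ <:+ br x i :: τ ↔ σ <:+ τ := by
        simp only [List.suffix_cons_iff, h1.symm, false_or]
      simp only [C, mem_ofPred_eq, h1, false_and, and_false, false_or, h2, h3]

abbrev ι : Type := ℕ × List (List ℕ) × List ℕ × Fin 3

/-- The map to a Cantor cube that induces the coarser metrizable topology. -/
noncomputable def hh (z : X) (j : ι) : Bool := (C j.1 j.2.1 j.2.2.1 j.2.2.2).boolIndicator z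

theorem hh_cont : Continuous hh :=
  continuous_pi fun _ => (continuous_boolIndicator_iff_isClopen _).2 (C_clopen _ _ _ _)

theorem hh_iff {z w : X} (h : hh z = hh w) (m σ u k) : z ∈ C m σ u k ↔ w ∈ C m σ u k := by
  rw [mem_iff_boolIndicator, mem_iff_boolIndicator]
  exact iff_of_eq (congrArg (· = true) (congrFun h (m, σ, u, k)))

theorem hh_inj : Function.Injective hh := by
  have hc : ∀ m σ u w, hh (.c m σ u) = hh w → .c m σ u = w := by
    intro m σ u w h
    have := (hh_iff h m σ u 0).1 ⟨rfl, Or.inl ⟨rfl, rfl, rfl⟩⟩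
    cases w with
    | p => exact absurd this id
    | a m' τ x => simp [C] at this
    | c m' τ x => simp [C] at this; simp [this]
  have ha : ∀ m σ x w, hh (.a m σ x) = hh w → .a m σ x = w := by
    intro m σ x w h
    have h1 := (hh_iff h m σ [] 1).1 ⟨rfl, Or.inl ⟨rfl, List.suffix_refl _⟩⟩
    cases w with
    | p => exact absurd h1 id
    | c m' τ x => exact (hc _ _ _ _ h.symm).symm
    | a m' τ y =>
      have h2 := (hh_iff h m' τ [] 1).2 ⟨rfl, Or.inl ⟨rfl, List.suffix_refl _⟩⟩
      simp [C] at h1 h2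
      obtain ⟨rfl, h1⟩ := h1
      obtain rfl := h1.eq_of_length (le_antisymm h1.length_le h2.2.length_le)
      congr
      funext i
      have h3 := (hh_iff h m' σ (br x (i + 1)) 2).1 ⟨rfl, Or.inr ⟨rfl, Or.inl ⟨rfl, by rw [br_length]⟩⟩⟩
      rcases h3.2 with ⟨h, _⟩ | ⟨_, ⟨_, h⟩ | ⟨t, _, h⟩⟩
      · simp at h
      · rw [br_length] at h
        exact (List.cons.inj h).1.symm
      · have := h.length_le
        simp at this
  intro z w h
  cases z with
  | a m σ x => exact ha _ _ _ _ h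
  | c m σ x => exact hc _ _ _ _ h
  | p =>
    cases w with
    | p => rfl
    | a m σ x => exact (ha _ _ _ _ h.symm).symm
    | c m σ x => exact (hc _ _ _ _ h.symm).symm

theorem tend {m σ x} {f : ℕ → X} (hf : ∀ i, f i ∈ Nb i (.a m σ x)) (n : ℕ) :
    Tendsto (fun i => f (i + n)) atTop (𝓝 (.a m σ x)) := by
  intro U hU
  obtain ⟨W, h1, h2, h3⟩ := mem_nhds_iff.1 hU
  obtain ⟨k, hk⟩ := h2 _ h3
  exact (eventually_ge_atTop k).mono fun i hi => h1 (hk (Nb_anti _ (by omega) (hf (i + n))))

theorem small (z : X) (n : ℕ) : hh ⁻¹' closure (hh '' Nb (n + 1) z) ⊆ Nb n z := by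
  have comp : IsCompact (Nb (n + 1) z) → hh ⁻¹' closure (hh '' Nb (n + 1) z) ⊆ Nb n z := by
    intro h
    rw [(h.image hh_cont).isClosed.closure_eq, preimage_image_eq _ hh_inj]
    exact Nb_anti z (by omega)
  cases z with
  | c m σ u => exact comp isCompact_singleton
  | a m σ x =>
    apply comp
    have h1 := (tend (f := fun i => .c m σ (br x i)) (fun i => Or.inr ⟨i, le_rfl, Or.inl rfl⟩)
      (n + 1)).isCompact_insert_range
    have h2 := (tend (f := fun i => .c m (br x i :: σ) (ψ x i))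
      (fun i => Or.inr ⟨i, le_rfl, Or.inr rfl⟩) (n + 1)).isCompact_insert_range
    convert h1.union h2 using 1
    ext w
    constructor
    · rintro (rfl | ⟨i, hi, rfl | rfl⟩)
      · exact Or.inl (mem_insert _ _)
      · exact Or.inl (Or.inr ⟨i - (n + 1), by simp only [Nat.sub_add_cancel hi]⟩)
      · exact Or.inr (Or.inr ⟨i - (n + 1), by simp only [Nat.sub_add_cancel hi]⟩)
    · rintro ((rfl | ⟨i, rfl⟩) | (rfl | ⟨i, rfl⟩))
      · exact mem_insert _ _
      · exact Or.inr ⟨_, by omega, Or.inl rfl⟩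
      · exact mem_insert _ _
      · exact Or.inr ⟨_, by omega, Or.inr rfl⟩
  | p =>
    intro y hy
    by_contra hn
    have key : ∀ m σ, m < n + σ.length → y ∉ C m σ [] 1 := by
      intro m σ h
      have : closure (hh '' Nb (n + 1) .p) ⊆ {g | g (m, σ, [], 1) = false} := by
        refine closure_minimal ?_ (isClosed_eq (continuous_apply _) continuous_const)
        rintro _ ⟨w, hw, rfl⟩
        refine (notMem_iff_boolIndicator _ _).1 fun hc => ?_
        cases w with
        | p => exact hc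
        | a m' τ x =>
          simp [C] at hc
          have := hc.2.length_le
          simp only [Nb, V, mem_ofPred_eq] at hw; omega
        | c m' τ x =>
          simp [C] at hc
          have := hc.2.length_le
          simp only [Nb, V, mem_ofPred_eq] at hw; omega
      exact (notMem_iff_boolIndicator _ _).2 (this hy)
    cases y with
    | p => exact hn trivial
    | a m σ x =>
      exact key m σ (by simp only [Nb, V, mem_ofPred_eq] at hn; omega)
        ⟨rfl, Or.inl ⟨rfl, List.suffix_refl _⟩⟩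
    | c m σ x =>
      exact key m σ (by simp only [Nb, V, mem_ofPred_eq] at hn; omega)
        ⟨rfl, Or.inr (Or.inl ⟨rfl, List.suffix_refl _⟩)⟩

theorem star_small (z : X) : ∃ n, ∀ k, n ≤ k → ∀ w, z ∈ Nb k w → w = z := by
  cases z with
  | p =>
    refine ⟨0, fun k _ w hw => ?_⟩
    cases w with
    | p => rfl
    | a m σ x => simp [Nb] at hw
    | c m σ x => simp [Nb] at hw
  | a m σ x =>
    refine ⟨m + 1, fun k hk w hw => ?_⟩
    cases w with
    | p => simp only [Nb, V, mem_ofPred_eq] at hw; omega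
    | a m σ x => rcases hw with h | ⟨i, _, h | h⟩ <;> cases h; rfl
    | c m σ x => simp [Nb] at hw
  | c m σ u =>
    refine ⟨m + 2 + u.length + σ.headI.length, fun k hk w hw => ?_⟩
    cases w with
    | p => simp only [Nb, V, mem_ofPred_eq] at hw; omega
    | a m σ x =>
      rcases hw with h | ⟨i, hi, h | h⟩ <;> cases h
      · rw [br_length] at hk; omega
      · simp [br_length] at hk; omega
    | c m σ x => exact (show _ = _ from hw).symm

theorem spread (g : X → ℝ) (hg : Continuous g) (d : ℕ) : ∀ m σ, m - σ.length = d → ∀ c > 0,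
    ∀ A ∉ J d, (∀ x ∈ A, c < g (.a m σ x)) → ∃ y ∉ V 1, 0 < g y := by
  induction d with
  | zero =>
    intro m σ hd c hc A hA h
    obtain ⟨x, hx⟩ := nonempty_iff_ne_empty.2 hA
    exact ⟨.a m σ x, by simp only [V, mem_ofPred_eq]; omega, hc.trans (h x hx)⟩
  | succ d ih =>
    intro m σ hd c hc A hA h
    by_cases hS : ∀ t, star {u | c < g (.c m (t :: σ) u)} ∈ J d
    · refine absurd ⟨_, hS, fun x hx => ?_⟩ hA
      have := (hg.tendsto _).comp (tend (f := fun i => .c m (br x i :: σ) (ψ x i))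
        (fun i => Or.inr ⟨i, le_rfl, Or.inr rfl⟩) 0)
      exact this.eventually (lt_mem_nhds (h x hx))
    · push Not at hS
      obtain ⟨t, ht⟩ := hS
      refine ih m (t :: σ) (by simp; omega) (c / 2) (by positivity) _ ht fun x hx => ?_
      have := (hg.tendsto _).comp (tend (f := fun i => .c m (t :: σ) (br x i))
        (fun i => Or.inr ⟨i, le_rfl, Or.inl rfl⟩) 0)
      have : c ≤ g (.a m (t :: σ) x) := ge_of_tendsto_of_frequently this (hx.mono fun i hi => le_of_lt hi)
      linarith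

theorem not_cr : ¬ CompletelyRegularSpace X := by
  intro h
  obtain ⟨f, hf, f0, f1⟩ := h.completely_regular .p (V 1)ᶜ (Nb_open 1 .p).isClosed_compl
    (fun h => h trivial)
  have hg : Continuous fun z => 1 - (f z : ℝ) := by fun_prop
  obtain ⟨n, hn⟩ := (isOpen_lt (continuous_const (y := (1 / 2 : ℝ))) hg) .p (by
    show _ < 1 - (f .p : ℝ)
    rw [f0]; norm_num)
  obtain ⟨y, hy, h⟩ := spread _ hg n n [] rfl (1 / 2) (by norm_num) _ (univ_big n)
    (fun x _ => hn (show X.a n [] x ∈ V n from le_refl n))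
  rw [f1 hy] at h
  simp at h

end Pool.Agent.Lib.helper4.Moore
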