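import Mathlib

set_option autoImplicit false

namespace Pool.Agent.Lib.H4Planar

/-- Orientation determinant of three integer points. -/
def ori (A B C : ℤ × ℤ) : ℤ := (B.1 - A.1) * (C.2 - A.2) - (B.2 - A.2) * (C.1 - A.1)

/-- Scalar product of `B - A` with `C`. -/
def dot (A B C : ℤ × ℤ) : ℤ := (B.1 - A.1) * C.1 + (B.2 - A.2) * C.2

/-- A decidable sufficient condition for the segment `C D` to miss the interior of `A B`. -/
def sep (A B C D : ℤ × ℤ) : Bool :=
  (decide (0 < ori A B C * ori A B D)) ||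
  (decide (0 ≤ ori C D A * ori C D B) && (decide (ori C D A ≠ 0) || decide (ori C D B ≠ 0))) ||
  (decide (dot A B C ≤ dot A B A) && decide (dot A B D ≤ dot A B A)) ||
  (decide (dot A B B ≤ dot A B C) && decide (dot A B B ≤ dot A B D))

/-- The point with parameter `t` on the segment from `A` to `B`. -/
def seg (A B : ℤ × ℤ) (t : ℝ) : ℝ × ℝ :=
  ((1 - t) * A.1 + t * B.1, (1 - t) * A.2 + t * B.2)

def Sep (A B C D : ℤ × ℤ) : Prop :=
  ∀ t r : ℝ, 0 ≤ t → t ≤ 1 → 0 ≤ r → r ≤ 1 → seg A B t = seg C D r → t = 0 ∨ t = 1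

theorem seg_swap (A B : ℤ × ℤ) (t : ℝ) : seg B A t = seg A B (1 - t) := by
  simp only [seg, Prod.mk.injEq]
  constructor <;> ring

theorem Sep.swap_left {A B C D : ℤ × ℤ} (h : Sep A B C D) : Sep B A C D := by
  intro t r h1 h2 h3 h4 h5
  rw [seg_swap] at h5
  rcases h (1 - t) r (by linarith) (by linarith) h3 h4 h5 with h | h
  · right; linarith
  · left; linarith

theorem Sep.swap_right {A B C D : ℤ × ℤ} (h : Sep A B C D) : Sep A B D C := by
  intro t r h1 h2 h3 h4 h5
  rw [seg_swap C D] at h5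
  exact h t (1 - r) h1 h2 (by linarith) (by linarith) h5

theorem sq_pos_of_ne {A B : ℤ × ℤ} (h : A ≠ B) :
    (0 : ℝ) < ((B.1 : ℝ) - A.1) ^ 2 + ((B.2 : ℝ) - A.2) ^ 2 := by
  by_contra hle
  have h1 : ((B.1 : ℝ) - A.1) = 0 := by nlinarith [sq_nonneg ((B.1 : ℝ) - A.1), sq_nonneg ((B.2 : ℝ) - A.2)]
  have h2 : ((B.2 : ℝ) - A.2) = 0 := by nlinarith [sq_nonneg ((B.1 : ℝ) - A.1), sq_nonneg ((B.2 : ℝ) - A.2)]
  apply h
  have h3 : A.1 = B.1 := by exact_mod_cast (by linarith : (A.1 : ℝ) = B.1)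
  have h4 : A.2 = B.2 := by exact_mod_cast (by linarith : (A.2 : ℝ) = B.2)
  exact Prod.ext h3 h4

theorem Sep_of_sep {A B C D : ℤ × ℤ} (hne : A ≠ B) (h : sep A B C D = true) : Sep A B C D := by
  intro t r t0 t1 r0 r1 he
  simp only [seg, Prod.mk.injEq] at he
  obtain ⟨e1, e2⟩ := he
  have hp := sq_pos_of_ne hne
  simp only [sep, Bool.or_eq_true, Bool.and_eq_true, decide_eq_true_eq] at h
  rcases h with ((h | ⟨h, h'⟩) | ⟨h, h'⟩) | ⟨h, h'⟩
  · exfalso
    have k : (1 - r) * (ori A B C : ℝ) + r * (ori A B D : ℝ) = 0 := by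
      simp only [ori]
      push_cast
      linear_combination ((B.2 : ℝ) - A.2) * e1 - ((B.1 : ℝ) - A.1) * e2
    have h2 : (0 : ℝ) < (ori A B C : ℝ) * (ori A B D : ℝ) := by exact_mod_cast h
    generalize (ori A B C : ℝ) = a at *
    generalize (ori A B D : ℝ) = b at *
    have k1 : (1 - r) * a ^ 2 + r * (a * b) = 0 := by linear_combination a * k
    have k2 : (1 - r) * (a * b) + r * b ^ 2 = 0 := by linear_combination b * k
    have k3 : r = 0 := by nlinarith [sq_nonneg a, mul_nonneg (sub_nonneg.2 r1) (sq_nonneg a)]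
    subst k3
    nlinarith
  · have k : (1 - t) * (ori C D A : ℝ) + t * (ori C D B : ℝ) = 0 := by
      simp only [ori]
      push_cast
      linear_combination ((D.1 : ℝ) - C.1) * e2 - ((D.2 : ℝ) - C.2) * e1
    have h2 : (0 : ℝ) ≤ (ori C D A : ℝ) * (ori C D B : ℝ) := by exact_mod_cast h
    rcases h' with h' | h'
    · have h3 : (ori C D A : ℝ) ≠ 0 := by exact_mod_cast h'
      generalize (ori C D A : ℝ) = a at *
      generalize (ori C D B : ℝ) = b at *
      right
      have k1 : (1 - t) * a ^ 2 + t * (a * b) = 0 := by linear_combination a * k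
      have k2 : 0 < a ^ 2 := by positivity
      nlinarith [mul_nonneg t0 h2]
    · have h3 : (ori C D B : ℝ) ≠ 0 := by exact_mod_cast h'
      generalize (ori C D A : ℝ) = a at *
      generalize (ori C D B : ℝ) = b at *
      left
      have k1 : (1 - t) * (a * b) + t * b ^ 2 = 0 := by linear_combination b * k
      have k2 : 0 < b ^ 2 := by positivity
      nlinarith [mul_nonneg (sub_nonneg.2 t1) h2]
  · left
    have h1 : (dot A B C : ℝ) ≤ dot A B A := by exact_mod_cast h
    have h2 : (dot A B D : ℝ) ≤ dot A B A := by exact_mod_cast h'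
    have k : (1 - r) * (dot A B C : ℝ) + r * dot A B D =
        dot A B A + t * (((B.1 : ℝ) - A.1) ^ 2 + ((B.2 : ℝ) - A.2) ^ 2) := by
      simp only [dot]
      push_cast
      linear_combination (-((B.1 : ℝ) - A.1)) * e1 - ((B.2 : ℝ) - A.2) * e2
    have k1 : t * (((B.1 : ℝ) - A.1) ^ 2 + ((B.2 : ℝ) - A.2) ^ 2) ≤ 0 := by
      nlinarith [mul_nonneg r0 (sub_nonneg.2 h2), mul_nonneg (sub_nonneg.2 r1) (sub_nonneg.2 h1)]
    nlinarith
  · right
    have h1 : (dot A B B : ℝ) ≤ dot A B C := by exact_mod_cast h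
    have h2 : (dot A B B : ℝ) ≤ dot A B D := by exact_mod_cast h'
    have k : (1 - r) * (dot A B C : ℝ) + r * dot A B D =
        dot A B B - (1 - t) * (((B.1 : ℝ) - A.1) ^ 2 + ((B.2 : ℝ) - A.2) ^ 2) := by
      simp only [dot]
      push_cast
      linear_combination (-((B.1 : ℝ) - A.1)) * e1 - ((B.2 : ℝ) - A.2) * e2
    have k1 : (1 - t) * (((B.1 : ℝ) - A.1) ^ 2 + ((B.2 : ℝ) - A.2) ^ 2) ≤ 0 := by
      nlinarith [mul_nonneg r0 (sub_nonneg.2 h2), mul_nonneg (sub_nonneg.2 r1) (sub_nonneg.2 h1)]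
    nlinarith

theorem seg_inj {A B : ℤ × ℤ} (hne : A ≠ B) : Function.Injective (seg A B) := by
  intro s t h
  simp only [seg, Prod.mk.injEq] at h
  obtain ⟨e1, e2⟩ := h
  have hp := sq_pos_of_ne hne
  have k : (s - t) * (((B.1 : ℝ) - A.1) ^ 2 + ((B.2 : ℝ) - A.2) ^ 2) = 0 := by
    linear_combination ((B.1 : ℝ) - A.1) * e1 + ((B.2 : ℝ) - A.2) * e2
  rcases mul_eq_zero.1 k with h | h
  · linarith
  · linarith

/-- The Boolean certificate for a straight-line drawing of the edge list `E`. -/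
def check {V : Type} [DecidableEq V] (vs : List V) (E : List (V × V)) (p : V → ℤ × ℤ) : Bool :=
  E.all (fun e => vs.all (fun w => sep (p e.1) (p e.2) (p w) (p w))) &&
  E.all (fun e => E.all (fun f => decide (e = f) || sep (p e.1) (p e.2) (p f.1) (p f.2)))

theorem drawing {V : Type} [DecidableEq V] (G : SimpleGraph V) (vs : List V)
    (hvs : ∀ v, v ∈ vs) (E : List (V × V))
    (hE : ∀ u v, G.Adj u v → (u, v) ∈ E ∨ (v, u) ∈ E)
    (p : V → ℤ × ℤ) (hp : Function.Injective p) (hc : check vs E p = true) :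
    ∃ (p : V → ℝ × ℝ) (γ : V → V → unitInterval → ℝ × ℝ),
      Function.Injective p ∧
      (∀ u v, G.Adj u v →
        Continuous (γ u v) ∧ Function.Injective (γ u v) ∧
        γ u v 0 = p u ∧ γ u v 1 = p v ∧
        (∀ w t, γ u v t = p w → t = 0 ∨ t = 1)) ∧
      (∀ u v x y, G.Adj u v → G.Adj x y → s(u, v) ≠ s(x, y) →
        ∀ t r, γ u v t = γ x y r → t = 0 ∨ t = 1) := by
  simp only [check, Bool.and_eq_true, List.all_eq_true, Bool.or_eq_true, decide_eq_true_eq] at hc
  obtain ⟨hc1, hc2⟩ := hc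
  have conv : ∀ t : unitInterval, (t : ℝ) = 0 ∨ (t : ℝ) = 1 → t = 0 ∨ t = 1 := by
    intro t h
    rcases h with h | h
    · left; exact Subtype.ext h
    · right; exact Subtype.ext h
  refine ⟨fun v => (((p v).1 : ℝ), ((p v).2 : ℝ)), fun u v t => seg (p u) (p v) t, ?_, ?_, ?_⟩
  · intro u v h
    simp only [Prod.mk.injEq, Int.cast_inj] at h
    exact hp (Prod.ext h.1 h.2)
  · intro u v huv
    have hne : p u ≠ p v := fun h => huv.ne (hp h)
    refine ⟨?_, ?_, ?_, ?_, ?_⟩
    · unfold seg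
      fun_prop
    · intro s t h
      exact Subtype.ext (seg_inj hne h)
    · simp [seg]
    · simp [seg]
    · intro w t h
      have hS : Sep (p u) (p v) (p w) (p w) := by
        rcases hE u v huv with h1 | h1
        · exact Sep_of_sep hne (hc1 _ h1 w (hvs w))
        · exact (Sep_of_sep hne.symm (hc1 _ h1 w (hvs w))).swap_left
      apply conv
      apply hS t 0 t.2.1 t.2.2 le_rfl zero_le_one
      refine h.trans ?_
      simp only [seg, Prod.mk.injEq]
      constructor <;> ring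
  · intro u v x y huv hxy hne t r h
    have hne' : p u ≠ p v := fun h => huv.ne (hp h)
    have hS : Sep (p u) (p v) (p x) (p y) := by
      rcases hE u v huv with h1 | h1 <;> rcases hE x y hxy with h2 | h2
      · rcases hc2 _ h1 _ h2 with h3 | h3
        · exact absurd (by cases h3; rfl) hne
        · exact Sep_of_sep hne' h3
      · rcases hc2 _ h1 _ h2 with h3 | h3
        · exact absurd (by cases h3; exact Sym2.eq_swap) hne
        · exact (Sep_of_sep hne' h3).swap_right
      · rcases hc2 _ h1 _ h2 with h3 | h3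
        · exact absurd (by cases h3; exact Sym2.eq_swap) hne
        · exact (Sep_of_sep hne'.symm h3).swap_left
      · rcases hc2 _ h1 _ h2 with h3 | h3
        · exact absurd (by cases h3; rfl) hne
        · exact (Sep_of_sep hne'.symm h3).swap_left.swap_right
    exact conv t (hS t r t.2.1 t.2.2 r.2.1 r.2.2 h)

end Pool.Agent.Lib.H4Planar
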