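import Mathlib
import Pool.Agent.Lib.helper4.TotOrd

/-! A Ramsey-type statement for labelled finite subsets of omega-one. -/

namespace Pool.Agent.Lib.helper4.PowRes

open Set Pool.Agent.Lib.helper4.TotOrd

/-- Points. -/
abbrev I : Type := ℕ × Om

/-- Labels. -/
abbrev L : Type := Om × Finset I

theorem card_Om : Cardinal.mk Om = Cardinal.aleph 1 := Cardinal.mk_ord_toType _

theorem card_I : Cardinal.mk I = Cardinal.aleph 1 := by
  simp

theorem card_F : Cardinal.mk (Finset I) = Cardinal.aleph 1 := by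
  rw [Cardinal.mk_finset_of_infinite, card_I]

theorem card_L : Cardinal.mk L = Cardinal.aleph 1 := by
  simp

/-- An enumeration of the finite sets. -/
noncomputable def g : Om ≃ Finset I := (Cardinal.eq.1 (card_Om.trans card_F.symm)).some

/-- The requirement attached to a point. -/
noncomputable def F (γ : I) : Finset I := (g γ.2).filter fun δ => δ.1 < γ.1

theorem F_surj (A : Finset I) : ∃ γ : I, γ.1 ≠ 0 ∧ F γ = A :=
  ⟨(A.sup Prod.fst + 1, g.symm A), Nat.succ_ne_zero _, by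
    simp only [F, Equiv.apply_symm_apply]
    exact Finset.filter_true_of_mem fun δ h => Nat.lt_succ_of_le (Finset.le_sup h)⟩

/-- Domain. -/
def dom (x : Set (I × L)) : Set I := Prod.fst '' x

/-- Single-valued. -/
def Fn (x : Set (I × L)) : Prop := ∀ γ l l', (γ, l) ∈ x → (γ, l') ∈ x → l = l'

/-- All pointers are valid. -/
def Cl (x : Set (I × L)) : Prop := ∀ p ∈ x, p.1.1 ≠ 0 →
  ∃ l, ((0, p.2.1), l) ∈ x ∧ (0, p.2.1) ∈ l.2 ∧ F p.1 ⊆ l.2

/-- The announced sets containing `τ` have the colour `c`. -/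
def Co (c : Set (I × L) → Prop) (τ : I) (x : Set (I × L)) : Prop :=
  ∀ p ∈ x, p.1 ∈ p.2.2 → τ ∈ p.2.2 → ∃ q ⊆ x, dom q = p.2.2 ∧ c q

/-- Good conditions. -/
def Good (c : Set (I × L) → Prop) (τ : I) (x : Set (I × L)) : Prop :=
  Fn x ∧ Cl x ∧ Co c τ x ∧ x.Countable

/-- Stuck conditions. -/
def Stuck (c : Set (I × L) → Prop) (τ : I) (x : Set (I × L)) : Prop :=
  ∃ A : Finset I, ↑A ⊆ dom x ∧ ∀ x', x ⊆ x' → Good c τ x' →
    ∀ ξ l, ((0, ξ), l) ∈ x' → (0, ξ) ∈ l.2 → ¬ A ⊆ l.2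

/-- Success. -/
def Win (c : Set (I × L) → Prop) : Prop :=
  ∃ τ x, Fn x ∧ Cl x ∧ Co c τ x ∧ ∀ γ, γ ∈ dom x

theorem dom_mono {x y} (h : x ⊆ y) : dom x ⊆ dom y := image_mono h

theorem Fn.mono {x y} (h : Fn y) (e : x ⊆ y) : Fn x := fun _ _ _ a b => h _ _ _ (e a) (e b)

theorem Fn.sUnion {S : Set (Set (I × L))} (hc : IsChain (· ⊆ ·) S) (h : ∀ x ∈ S, Fn x) :
    Fn (⋃₀ S) := by
  rintro γ l l' ⟨x, a, b⟩ ⟨y, c, d⟩
  rcases hc.total a c with e | e
  exacts [h y c _ _ _ (e b) d, h x a _ _ _ b (e d)]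

theorem Cl.sUnion {S : Set (Set (I × L))} (h : ∀ x ∈ S, Cl x) : Cl (⋃₀ S) := by
  rintro p ⟨x, a, b⟩ e
  obtain ⟨l, c, d⟩ := h x a p b e
  exact ⟨l, ⟨x, a, c⟩, d⟩

theorem Co.sUnion {c τ} {S : Set (Set (I × L))} (h : ∀ x ∈ S, Co c τ x) : Co c τ (⋃₀ S) := by
  rintro p ⟨x, a, b⟩ e e'
  obtain ⟨q, c, d⟩ := h x a p b e e'
  exact ⟨q, c.trans (subset_sUnion_of_mem a), d⟩

theorem Cl.union {x y} (h : Cl x) (h' : Cl y) : Cl (x ∪ y) := by
  rw [← sUnion_pair]
  exact Cl.sUnion (by rintro _ (rfl | rfl) <;> assumption)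

theorem Fn.insert {x} (h : Fn x) {p : I × L} (e : p.1 ∉ dom x) : Fn (insert p x) := by
  rintro γ l l' (a | a) (b | b)
  · exact congrArg Prod.snd (a.trans b.symm)
  · exact absurd ⟨_, b, (congrArg Prod.fst a :)⟩ e
  · exact absurd ⟨_, a, (congrArg Prod.fst b :)⟩ e
  · exact h _ _ _ a b

theorem Cl.insert {x} (h : Cl x) {p : I × L} (e : p.1.1 ≠ 0 →
    ∃ l, ((0, p.2.1), l) ∈ x ∧ (0, p.2.1) ∈ l.2 ∧ F p.1 ⊆ l.2) : Cl (insert p x) := by
  rintro q (rfl | a) b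
  · exact (e b).imp fun l h => ⟨Or.inr h.1, h.2⟩
  · exact (h q a b).imp fun l h => ⟨Or.inr h.1, h.2⟩

theorem Co.insert {c τ x} (h : Co c τ x) (γ : I) (ξ : Om) : Co c τ (insert (γ, ξ, ∅) x) := by
  rintro q (rfl | a) b d
  · exact absurd b (Finset.notMem_empty _)
  · exact (h q a b d).imp fun q h => ⟨h.1.trans (subset_insert _ _), h.2⟩

theorem fresh {S : Set I} (h : S.Countable) : ∃ ξ, (0, ξ) ∉ S := by
  by_contra e
  push Not at e
  exact om_unc ((h.image Prod.snd).mono fun ξ _ => mem_image_of_mem _ (e ξ))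

theorem fin_cl {x} (h : Cl x) (A : Finset I) (e : ↑A ⊆ dom x) :
    ∃ p ⊆ x, p.Finite ∧ Cl p ∧ ↑A ⊆ dom p := by
  induction A using Finset.induction_on with
  | empty => exact ⟨∅, empty_subset _, finite_empty, fun _ h => h.elim, by simp⟩
  | insert γ A _ ih =>
    rw [Finset.coe_insert, insert_subset_iff] at e
    obtain ⟨p, a, b, c, d⟩ := ih e.2
    obtain ⟨q, hq, rfl⟩ := e.1
    by_cases f : q.1.1 = 0
    · exact ⟨insert q p, insert_subset hq a, b.insert _, c.insert fun e => absurd f e, by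
        rw [Finset.coe_insert, dom, image_insert_eq]; exact insert_subset_insert d⟩
    · obtain ⟨l, hl⟩ := h q hq f
      exact ⟨insert q (insert ((0, q.2.1), l) p), insert_subset hq (insert_subset hl.1 a),
        (b.insert _).insert _, (c.insert fun e => absurd rfl e).insert
          fun _ => ⟨l, Or.inl rfl, hl.2⟩, by
        rw [Finset.coe_insert, dom, image_insert_eq]
        exact insert_subset_insert (d.trans (dom_mono (subset_insert _ _)))⟩

theorem dc {α : Type} (Gd : Set α → Prop) (D : Om → Set α → Prop) (x0 : Set α) (h0 : Gd x0)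
    (hb : ∀ x, Gd x → x0 ⊆ x)
    (hu : ∀ S : Set (Set α), S.Countable → S.Nonempty → IsChain (· ⊆ ·) S → (∀ x ∈ S, Gd x) →
      Gd (⋃₀ S)) (hD : ∀ ξ x, Gd x → ∃ x', x ⊆ x' ∧ Gd x' ∧ D ξ x') :
    ∃ G : Om → Set α, Monotone G ∧ ∀ ξ, Gd (G ξ) ∧ D ξ (G ξ) := by
  choose! f hf using hD
  let G : Om → Set α := wellFounded_lt.fix fun ξ IH =>
    f ξ (⋃₀ insert x0 (range fun η : Iio ξ => IH η η.2))
  have e : ∀ ξ, G ξ = f ξ (⋃₀ insert x0 (range fun η : Iio ξ => G η)) := fun ξ =>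
    WellFounded.fix_eq _ _ _
  have k : ∀ ξ, (Gd (G ξ) ∧ D ξ (G ξ)) ∧ ∀ η < ξ, G η ⊆ G ξ := fun ξ => by
    induction ξ using WellFoundedLT.induction with
    | ind ξ ih =>
      have := (Iio_count ξ).to_subtype
      have := hf ξ _ (hu (insert x0 (range fun η : Iio ξ => G η)) ((countable_range _).insert _)
        (insert_nonempty _ _) (IsChain.insert ?_ ?_) ?_)
      · rw [← e] at this
        exact ⟨this.2, fun η h => (subset_sUnion_of_mem (Or.inr ⟨⟨η, h⟩, rfl⟩)).trans this.1⟩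
      · rintro _ ⟨a, rfl⟩ _ ⟨b, rfl⟩ h
        rcases lt_trichotomy a.1 b.1 with c | c | c
        exacts [Or.inl ((ih b b.2).2 _ c), absurd (congrArg G c) h, Or.inr ((ih a a.2).2 _ c)]
      · rintro _ ⟨a, rfl⟩ -
        exact Or.inl (hb _ (ih a a.2).1.1)
      · rintro _ (rfl | ⟨a, rfl⟩)
        exacts [h0, (ih a a.2).1.1]
  exact ⟨G, fun a b h => h.eq_or_lt.elim (fun h => h ▸ le_rfl) ((k b).2 a), fun ξ => (k ξ).1⟩

theorem dich (c : Set (I × L) → Prop) (hw : ¬ Win c) (x0 : Set (I × L)) (h1 : Fn x0) (h2 : Cl x0)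
    (h3 : x0.Countable) : ∃ τ x, τ ∉ dom x0 ∧ τ ∈ dom x ∧ x0 ⊆ x ∧ Good c τ x ∧ Stuck c τ x := by
  by_contra hn
  obtain ⟨ξ, hξ⟩ := fresh (S := dom x0 ∪ ⋃ p ∈ x0, (p.2.2 : Set I))
    ((h3.image _).union (h3.biUnion fun p _ => p.2.2.countable_toSet))
  simp only [mem_union, mem_iUnion, not_or, not_exists] at hξ
  let Gd : Set (I × L) → Prop := fun x => insert ((0, ξ), ξ, ∅) x0 ⊆ x ∧ Good c (0, ξ) x
  have inc : ∀ n, ∀ γ : I, γ.1 = n → ∀ x, Gd x → ∃ x', x ⊆ x' ∧ Gd x' ∧ γ ∈ dom x' := by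
    intro n
    induction n using Nat.strong_induction_on with
    | _ n ih =>
      rintro γ rfl x hx
      have : ∀ A : Finset I, (∀ δ ∈ A, δ.1 < γ.1) → ∃ x', x ⊆ x' ∧ Gd x' ∧ ↑A ⊆ dom x' := by
        intro A hA
        induction A using Finset.induction_on with
        | empty => exact ⟨x, Subset.rfl, hx, by simp⟩
        | insert δ A _ ih' =>
          obtain ⟨y, a, b, d⟩ := ih' fun δ h => hA δ (Finset.mem_insert_of_mem h)
          obtain ⟨z, a', b', d'⟩ := ih _ (hA δ (Finset.mem_insert_self _ _)) δ rfl y b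
          exact ⟨z, a.trans a', b', by
            rw [Finset.coe_insert]; exact insert_subset d' (d.trans (dom_mono a'))⟩
      obtain ⟨y, a, b, d⟩ := this (F γ) fun δ h => (Finset.mem_filter.1 h).2
      have : ∃ z, y ⊆ z ∧ Good c (0, ξ) z ∧ ∃ β l, ((0, β), l) ∈ z ∧ (0, β) ∈ l.2 ∧ F γ ⊆ l.2 := by
        by_contra f
        exact hn ⟨(0, ξ), y, hξ.1, ⟨_, b.1 (Or.inl rfl), rfl⟩, (subset_insert _ _).trans b.1, b.2,
          F γ, d, fun z p q β l r s t => f ⟨z, p, q, β, l, r, s, t⟩⟩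
      obtain ⟨z, p, q, β, l, r⟩ := this
      by_cases f : γ ∈ dom z
      · exact ⟨z, a.trans p, ⟨b.1.trans p, q⟩, f⟩
      · exact ⟨insert (γ, β, ∅) z, (a.trans p).trans (subset_insert _ _),
          ⟨(b.1.trans p).trans (subset_insert _ _), q.1.insert f, q.2.1.insert fun _ => ⟨l, r⟩,
            q.2.2.1.insert _ _, q.2.2.2.insert _⟩, _, Or.inl rfl, rfl⟩
  obtain ⟨e⟩ := Cardinal.eq.1 (card_Om.trans card_I.symm)
  obtain ⟨G, m, hG⟩ := dc Gd (fun η x => e η ∈ dom x) (insert ((0, ξ), ξ, ∅) x0)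
    ⟨Subset.rfl, h1.insert hξ.1, h2.insert fun e => absurd rfl e,
      Co.insert (fun p a _ b => absurd b (hξ.2 p a)) _ _, h3.insert _⟩ (fun _ h => h.1)
    (fun S a ⟨x, b⟩ d f => ⟨(f x b).1.trans (subset_sUnion_of_mem b),
      Fn.sUnion d fun x h => (f x h).2.1, Cl.sUnion fun x h => (f x h).2.2.1,
      Co.sUnion fun x h => (f x h).2.2.2.1, a.sUnion fun x h => (f x h).2.2.2.2⟩)
    fun η => inc _ _ rfl
  refine hw ⟨(0, ξ), ⋃₀ range G, Fn.sUnion m.isChain_range ?_, Cl.sUnion ?_, Co.sUnion ?_,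
    fun γ => dom_mono (subset_sUnion_of_mem (mem_range_self (e.symm γ))) ?_⟩
  · rintro _ ⟨η, rfl⟩; exact (hG η).1.2.1
  · rintro _ ⟨η, rfl⟩; exact (hG η).1.2.2.1
  · rintro _ ⟨η, rfl⟩; exact (hG η).1.2.2.2.1
  · simpa using (hG (e.symm γ)).2

theorem win (c : Set (I × L) → Prop) : Win c ∨ Win fun q => ¬ c q := by
  by_contra hn
  rw [not_or] at hn
  have : ∀ x : {x : Set (I × L) // Fn x ∧ Cl x ∧ x.Countable},
      ∃ y : {x : Set (I × L) // Fn x ∧ Cl x ∧ x.Countable}, ∃ τ,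
        τ ∉ dom x.1 ∧ τ ∈ dom y.1 ∧ x.1 ⊆ y.1 ∧ Good c τ y.1 ∧ Stuck c τ y.1 := fun x => by
    obtain ⟨τ, y, h⟩ := dich c hn.1 x.1 x.2.1 x.2.2.1 x.2.2.2
    exact ⟨⟨y, h.2.2.2.1.1, h.2.2.2.1.2.1, h.2.2.2.1.2.2.2⟩, τ, h⟩
  choose f t hf using this
  let s := fun n => f^[n] ⟨∅, fun _ _ _ h => h.elim, fun _ h => h.elim, countable_empty⟩
  have e : ∀ n, s (n + 1) = f (s n) := fun n => Function.iterate_succ_apply' _ _ _
  have m : Monotone fun n => (s n).1 := monotone_nat_of_le_succ fun n => e n ▸ (hf (s n)).2.2.1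
  have inj : Function.Injective fun n => t (s n) := Function.Injective.of_lt_imp_ne fun a b h i =>
    (hf (s b)).1 (dom_mono (m h) (show _ ∈ dom (s (a + 1)).1 by
      rw [e]; exact (show t (s a) = t (s b) from i) ▸ (hf (s a)).2.1))
  obtain ⟨τ, y, -, -, a, b, A, d, k⟩ := dich _ hn.2 (⋃₀ range fun n => (s n).1)
    (Fn.sUnion m.isChain_range (by rintro _ ⟨n, rfl⟩; exact (s n).2.1))
    (Cl.sUnion (by rintro _ ⟨n, rfl⟩; exact (s n).2.2.1))
    ((countable_range _).sUnion (by rintro _ ⟨n, rfl⟩; exact (s n).2.2.2))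
  obtain ⟨p, p1, p2, p3, p4⟩ := fin_cl b.2.1 A d
  obtain ⟨_, ⟨n, rfl⟩, hn⟩ := (infinite_range_of_injective inj).exists_notMem_finite
    (p2.biUnion (t := fun r => (r.2.2 : Set I)) fun r _ => r.2.2.finite_toSet)
  obtain ⟨-, -, -, b', A', d', k'⟩ := hf (s n)
  have a' : (f (s n)).1 ⊆ y := e n ▸ (subset_sUnion_of_mem (mem_range_self (f := fun n => (s n).1) (n + 1))).trans a
  obtain ⟨q, q1, q2, q3, q4⟩ := fin_cl b'.2.1 A' d'
  obtain ⟨ξ, hξ⟩ := fresh (S := dom y) (b.2.2.2.image _)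
  let u := (((p2.union q2).image Prod.fst).insert (0, ξ)).toFinset
  let r := insert ((0, ξ), ξ, u) (p ∪ q)
  have r1 : dom r = u := by simp only [r, u, dom, image_insert_eq, Finite.coe_toFinset]
  have r2 : Fn (insert ((0, ξ), ξ, u) y) := b.1.insert hξ
  have r3 : Cl r := (p3.union q3).insert fun e => absurd rfl e
  have r4 : r ⊆ insert ((0, ξ), ξ, u) y := insert_subset_insert (union_subset p1 (q1.trans a'))
  have r5 : (0, ξ) ∈ u := by rw [← Finset.mem_coe, ← r1]; exact ⟨_, Or.inl rfl, rfl⟩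
  have r6 : r.Countable := ((p2.union q2).insert _).countable
  have key : ∀ c τ x, x ⊆ y → Good c τ x → c r →
      (∀ z ∈ p ∪ q, τ ∈ z.2.2 → z ∈ x) → Good c τ (x ∪ r) := fun c τ x i j k l =>
    ⟨r2.mono (union_subset (i.trans (subset_insert _ _)) r4), j.2.1.union r3, by
      have : ∀ z ∈ x, z.1 ∈ z.2.2 → τ ∈ z.2.2 → ∃ q ⊆ x ∪ r, dom q = z.2.2 ∧ c q :=
        fun z a b d => (j.2.2.1 z a b d).imp fun _ h => ⟨h.1.trans subset_union_left, h.2⟩
      rintro z (a | rfl | a) b d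
      exacts [this z a b d, ⟨r, subset_union_right, r1, k⟩, this z (l z a d) b d],
      j.2.2.2.union r6⟩
  by_cases hc : c r
  · refine k' _ subset_union_left (key c _ _ a' b' hc ?_) ξ (ξ, u) (Or.inr (Or.inl rfl)) r5 ?_
    · rintro z (i | i) j
      exacts [absurd (mem_biUnion i j) hn, q1 i]
    · rw [← Finset.coe_subset, ← r1]
      exact q4.trans (dom_mono (subset_union_right.trans (subset_insert _ _)))
  · refine k _ subset_union_left (key _ _ _ Subset.rfl b hc ?_) ξ (ξ, u) (Or.inr (Or.inl rfl)) r5 ?_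
    · exact fun z i _ => union_subset p1 (q1.trans a') i
    · rw [← Finset.coe_subset, ← r1]
      exact p4.trans (dom_mono (subset_union_left.trans (subset_insert _ _)))

end Pool.Agent.Lib.helper4.PowRes
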