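import Pool.Agent.Lib.helper4.PowRes1

/-! A base of an uncountable power of the reals that cannot be split into two bases. -/

namespace Pool.Agent.Lib.helper4.PowRes

open Set Pool.Agent.Lib.helper4.TotOrd TopologicalSpace Filter Topology

theorem exists_E : ∃ E : Om → Om → ℕ, ∀ β, InjOn (E β) (Iio β) := by
  choose E h using fun β => Set.countable_iff_exists_injOn.1 (Iio_count β)
  exact ⟨E, h⟩

/-- Injections of the initial segments. -/
noncomputable def E : Om → Om → ℕ := exists_E.choose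

/-- Numbering of the labels. -/
noncomputable def k : L ≃ Om := (Cardinal.eq.1 (card_L.trans card_Om.symm)).some

theorem ub2 (a b : Om) : ∃ c, a < c ∧ b < c :=
  (exists_ub {a, b} (to_countable _)).imp fun _ h => ⟨h a (by simp), h b (by simp)⟩

/-- A closed discrete copy of the set of labels. -/
noncomputable def j (l : L) (δ : I) : ℕ :=
  if δ.1 = 0 then (if δ.2 < k l then E (k l) δ.2 + 1 else 0)
  else if k l < δ.2 then E δ.2 (k l) + 1 else 0

/-- An isolating coordinate. -/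
noncomputable def iso (l : L) : I := (1, (ub2 (k l) (k l)).choose)

theorem j_one {l l' α} (h : j l' (1, α) = j l (1, α)) (h0 : j l (1, α) ≠ 0) : l' = l := by
  simp only [j, one_ne_zero, if_false] at h h0
  split_ifs at h h0 with a b b
  · exact k.injective (exists_E.choose_spec α a b (Nat.succ_injective h))
  all_goals simp_all

theorem j_iso {l l'} (h : j l' (iso l) = j l (iso l)) : l' = l :=
  j_one h (by rw [j, if_neg one_ne_zero, if_pos (ub2 (k l) (k l)).choose_spec.1]; simp)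

theorem j_closed : IsClosed (range j) := isClosed_of_closure_subset fun w hw => by
  have key : ∀ a b c, ∃ l, j l a = w a ∧ j l b = w b ∧ j l c = w c := fun a b c => by
    have o : ∀ a, IsOpen {v : I → ℕ | v a = w a} := fun a =>
      (isOpen_discrete {w a}).preimage (f := fun v : I → ℕ => v a) (continuous_apply a)
    obtain ⟨_, h, l, rfl⟩ := mem_closure_iff.1 hw _ ((o a).inter ((o b).inter (o c)))
      ⟨rfl, rfl, rfl⟩
    exact ⟨l, h⟩
  by_cases e : ∃ α, w (1, α) ≠ 0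
  · obtain ⟨α, e⟩ := e
    obtain ⟨l, a, -⟩ := key (1, α) (1, α) (1, α)
    refine ⟨l, funext fun δ => ?_⟩
    obtain ⟨l', b, c, -⟩ := key (1, α) δ δ
    rw [← j_one (b.trans a.symm) (a ▸ e), c]
  push Not at e
  obtain ⟨a, b, c, d⟩ : ∃ a b : Om, w (0, a) = w (0, b) ∧ a ≠ b := by
    by_contra h
    push Not at h
    exact om_unc (countable_univ_iff.2 (Function.Injective.countable h))
  obtain ⟨α, p, q⟩ := ub2 a b
  obtain ⟨l, r, s, t⟩ := key (1, α) (0, a) (0, b)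
  have : α ≤ k l := not_lt.1 fun h => by simp [j, h, e] at r
  have p := p.trans_le this
  have q := q.trans_le this
  rw [← s, ← t] at c
  simp only [j, if_true, p, q] at c
  exact absurd (exists_E.choose_spec _ p q (Nat.succ_injective c)) d

/-- The closed subspace. -/
noncomputable def emb (f : I → L) (p : I × I) : ℝ := j (f p.1) p.2

theorem emb_closed : IsClosed (range emb) := by
  have h := (IsClosedEmbedding.piMap fun _ : I => Nat.isClosedEmbedding_coe_real).isClosedMap _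
    j_closed
  convert isClosed_iInter fun γ : I => h.preimage
    (continuous_pi fun δ => continuous_apply (γ, δ) : Continuous fun (z : I × I → ℝ) δ => z (γ, δ))
  ext z
  rw [mem_iInter]
  refine ⟨?_, fun h => ?_⟩
  · rintro ⟨f, rfl⟩ γ
    exact ⟨_, ⟨f γ, rfl⟩, rfl⟩
  · choose v h h' using h
    choose f hf using h
    exact ⟨f, funext fun p => by rw [emb, hf]; exact congrFun (h' p.1) p.2⟩

/-- Boxes. -/
def U (q : Set (I × L)) : Set (I × I → ℝ) :=
  ⋂ p ∈ q, ({z | |z (p.1, iso p.2) - j p.2 (iso p.2)| < 1} ∩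
    ⋂ δ ∈ dom q, {z | |z (p.1, δ) - j p.2 δ| < 1 / (((dom q).ncard : ℝ) + 1)})

/-- Indices of the basic boxes. -/
def BY (q : Set (I × L)) : Prop := q.Finite ∧ ((∃ p ∈ q, p.1 ∈ p.2.2 ∧ dom q = p.2.2) ∨
  ∃ p ∈ q, p.1.1 ≠ 0 ∧ ∃ l, ((0, p.2.1), l) ∈ q ∧ ¬ ((0, p.2.1) ∈ l.2 ∧ F p.1 ⊆ l.2))

/-- The base. -/
def B : Set (Set (I × I → ℝ)) := U '' {q | BY q} ∪ {V | IsOpen V ∧ ∀ f, emb f ∉ V}

theorem op (p : I × I) (a b : ℝ) : IsOpen {z : I × I → ℝ | |z p - a| < b} :=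
  isOpen_lt (by fun_prop) continuous_const

/-- Finite parts of a graph. -/
def gr (f : I → L) (a : Finset I) : Set (I × L) := (fun γ => (γ, f γ)) '' a

theorem dom_gr (f a) : dom (gr f a) = a := by simp [dom, gr, image_image]

theorem basis : IsTopologicalBasis B := by
  refine isTopologicalBasis_of_isOpen_of_nhds ?_ fun z O hz hO => ?_
  · rintro _ (⟨q, h, rfl⟩ | h)
    exacts [h.1.isOpen_biInter fun p _ => (op _ _ _).inter
      ((h.1.image _).isOpen_biInter fun δ _ => op _ _ _), h.1]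
  by_cases e : z ∈ range emb
  swap
  · exact ⟨O ∩ (range emb)ᶜ, Or.inr ⟨hO.inter emb_closed.isOpen_compl,
      fun f h => h.2 ⟨f, rfl⟩⟩, ⟨hz, e⟩, inter_subset_left⟩
  obtain ⟨f, rfl⟩ := e
  obtain ⟨G, u, h1, h2⟩ := isOpen_pi_iff.1 hO _ hz
  have : ∀ᶠ a : Finset I in atTop, ∀ i ∈ G, (i.1 ∈ a ∧ i.2 ∈ a) ∧
      Metric.ball (emb f i) (1 / ((a.card : ℝ) + 1)) ⊆ u i := by
    refine (eventually_all_finset G).2 fun i hi => Eventually.and ?_ ?_
    · exact (eventually_ge_atTop {i.1, i.2}).mono fun a h => ⟨h (by simp), h (by simp)⟩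
    · obtain ⟨ε, a, b⟩ := Metric.isOpen_iff.1 (h1 i hi).1 _ (h1 i hi).2
      exact ((tendsto_one_div_add_atTop_nhds_zero_nat.comp
        tendsto_card_atTop_atTop).eventually (gt_mem_nhds a)).mono fun c h =>
          (Metric.ball_subset_ball h.le).trans b
  obtain ⟨A, hA⟩ := eventually_atTop.1 this
  obtain ⟨γ, g0, rfl⟩ := F_surj A
  obtain ⟨a, ha, hb⟩ : ∃ a, F γ ⊆ a ∧ BY (gr f a) := by
    by_cases e : (0, (f γ).1) ∈ (f (0, (f γ).1)).2 ∧ F γ ⊆ (f (0, (f γ).1)).2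
    · exact ⟨_, e.2, (Finset.finite_toSet _).image _, Or.inl ⟨_, ⟨_, e.1, rfl⟩, e.1, dom_gr _ _⟩⟩
    · exact ⟨insert γ (insert (0, (f γ).1) (F γ)), fun _ h => by simp [h],
        (Finset.finite_toSet _).image _,
        Or.inr ⟨_, ⟨γ, by simp, rfl⟩, g0, _, ⟨_, by simp, rfl⟩, e⟩⟩
  refine ⟨_, Or.inl ⟨_, hb, rfl⟩, mem_iInter₂.2 ?_, fun z hz => h2 fun i hi => ?_⟩
  · rintro _ ⟨δ, -, rfl⟩
    refine ⟨by simp [emb], mem_iInter₂.2 fun δ _ => ?_⟩
    simp only [emb, mem_ofPred_eq, sub_self, abs_zero]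
    positivity
  · obtain ⟨⟨p, q⟩, r⟩ := hA a ha i hi
    have := mem_iInter₂.1 (mem_iInter₂.1 hz _ ⟨i.1, p, rfl⟩).2 i.2 (by rwa [dom_gr])
    rw [dom_gr, ncard_coe_finset] at this
    exact r this

theorem main (c : Set (I × L) → Prop) (hw : Win c) (B₀ : Set (Set (I × I → ℝ))) (h : B₀ ⊆ B)
    (hb : IsTopologicalBasis B₀) (hc : ∀ q, U q ∈ B₀ → ¬ c q) : False := by
  obtain ⟨τ, x, a, b, d, e⟩ := hw
  choose v v1 v2 using e
  let f : I → L := fun γ => (v γ).2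
  have hf : ∀ γ, (γ, f γ) ∈ x := fun γ => (Prod.ext (v2 γ) rfl : v γ = (γ, f γ)) ▸ v1 γ
  obtain ⟨V, p, q, r⟩ := hb.exists_subset_of_mem_open
    (show emb f ∈ {z : I × I → ℝ | |z (τ, iso (f τ)) - j (f τ) (iso (f τ))| < 1} by simp [emb]) (op _ _ _)
  obtain ⟨s, ⟨-, hs⟩, rfl⟩ := (h p).resolve_right fun h => h.2 f q
  have sub : s ⊆ x := fun t ht => by
    have := (mem_iInter₂.1 q t ht).1
    simp only [emb, mem_ofPred_eq] at this
    have : f t.1 = t.2 := j_iso (by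
      rw [abs_lt] at this
      have h1 : j (f t.1) (iso t.2) < j t.2 (iso t.2) + 1 := by exact_mod_cast (by linarith :
        (j (f t.1) (iso t.2) : ℝ) < j t.2 (iso t.2) + 1)
      have h2 : j t.2 (iso t.2) < j (f t.1) (iso t.2) + 1 := by exact_mod_cast (by linarith :
        (j t.2 (iso t.2) : ℝ) < j (f t.1) (iso t.2) + 1)
      omega)
    exact (Prod.ext rfl this : (t.1, f t.1) = t) ▸ hf t.1
  have ht : τ ∈ dom s := by
    by_contra ht
    have := r (a := fun p => if p.1 = τ then emb f p + 1 else emb f p) (mem_iInter₂.2 fun t h => by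
      have : t.1 ≠ τ := fun e => ht ⟨t, h, e⟩
      simpa [this] using mem_iInter₂.1 q t h)
    simp [emb] at this
  rcases hs with ⟨t, t1, t2, t3⟩ | ⟨t, t1, t2, l, t3, t4⟩
  · obtain ⟨s', s1, s2, s3⟩ := d t (sub t1) t2 (by rwa [t3] at ht)
    have : ∀ s ⊆ x, ∀ s' ⊆ x, dom s = dom s' → s ⊆ s' := fun s h s' h' e t ht => by
      obtain ⟨t', p, q⟩ : t.1 ∈ dom s' := e ▸ ⟨t, ht, rfl⟩
      exact (Prod.ext q (a t.1 _ _ (q ▸ h' p) (h ht)) : t' = t) ▸ p
    exact hc s p ((this _ s1 _ sub (s2.trans t3.symm)).antisymm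
      (this _ sub _ s1 (t3.trans s2.symm)) ▸ s3)
  · obtain ⟨l', p, q⟩ := b t (sub t1) t2
    exact t4 (a _ _ _ p (sub t3) ▸ q)

theorem not_res (B₀ B₁ : Set (Set (I × I → ℝ))) (h : B₀ ∪ B₁ = B) (hd : Disjoint B₀ B₁)
    (h0 : IsTopologicalBasis B₀) (h1 : IsTopologicalBasis B₁) : False :=
  (win fun q => U q ∈ B₀).elim
    (fun w => main _ w B₁ (h ▸ subset_union_right) h1 fun _ a b => disjoint_left.1 hd b a)
    fun w => main _ w B₀ (h ▸ subset_union_left) h0 fun _ a b => b a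

theorem real_res (B : Set (Set ℝ)) (h : IsTopologicalBasis B) : ∃ B₀ B₁ : Set (Set ℝ),
    B₀ ∪ B₁ = B ∧ Disjoint B₀ B₁ ∧ IsTopologicalBasis B₀ ∧ IsTopologicalBasis B₁ := by
  have step : ∀ (n : ℕ) (r : {r : ENNReal // r ≠ 0}), ∃ δ : {r : ENNReal // r ≠ 0},
      δ.1 ≤ r.1 ∧ δ.1 ≤ (n : ENNReal)⁻¹ ∧ ∀ x ∈ Icc (-n : ℝ) n,
        ∃ V ∈ B, x ∈ V ∧ δ.1 < Metric.ediam V ∧ Metric.ediam V ≤ r.1 := fun n r => by
    obtain ⟨m, hm⟩ := (isCompact_Icc (a := (-n : ℝ)) (b := n)).elim_directed_cover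
      (fun m : ℕ => ⋃₀ {V ∈ B | (m : ENNReal)⁻¹ < Metric.ediam V ∧ Metric.ediam V ≤ r.1})
      (fun m => isOpen_sUnion fun V hV => h.isOpen hV.1) (fun x _ => by
        obtain ⟨V, a, b, c⟩ := h.exists_subset_of_mem_open
          (Metric.mem_eball_self (x := x) (ENNReal.half_pos r.2)) Metric.isOpen_eball
        obtain ⟨m, hm⟩ := ENNReal.exists_inv_nat_lt (Metric.ediam_pos_iff.2
          (infinite_of_mem_nhds x ((h.isOpen a).mem_nhds b)).nontrivial).ne'
        refine mem_iUnion.2 ⟨m, V, ⟨a, hm, (Metric.ediam_mono c).trans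
          (Metric.ediam_eball_le.trans ?_)⟩, b⟩
        rw [two_mul, ENNReal.add_halves])
      (Monotone.directed_le fun a b e => sUnion_subset_sUnion fun V hV =>
        ⟨hV.1, (ENNReal.inv_le_inv.2 (Nat.cast_le.2 e)).trans_lt hV.2.1, hV.2.2⟩)
    refine ⟨⟨min (min r.1 (n : ENNReal)⁻¹) (m : ENNReal)⁻¹, by simp [r.2]⟩,
      (min_le_left _ _).trans (min_le_left _ _), (min_le_left _ _).trans (min_le_right _ _),
      fun x hx => ?_⟩
    obtain ⟨V, a, b⟩ := hm hx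
    exact ⟨V, a.1, b, (min_le_right _ _).trans_lt a.2.1, a.2.2⟩
  choose f f1 f2 f3 using step
  let r : ℕ → {r : ENNReal // r ≠ 0} := fun n => Nat.rec ⟨1, one_ne_zero⟩ f n
  have m : Antitone fun n => (r n).1 := antitone_nat_of_succ_le fun n => f1 n _
  have key : ∀ B' ⊆ B, (∀ N, ∃ n, N ≤ n ∧ ∀ V ∈ B, (r (n + 1)).1 < Metric.ediam V →
      Metric.ediam V ≤ (r n).1 → V ∈ B') → IsTopologicalBasis B' := fun B' a b => by
    refine isTopologicalBasis_of_isOpen_of_nhds (fun V hV => h.isOpen (a hV)) fun x O c d => ?_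
    obtain ⟨ε, e, g⟩ := EMetric.isOpen_iff.1 d x c
    obtain ⟨M, hM⟩ := ENNReal.exists_inv_nat_lt e.ne'
    obtain ⟨K, hK⟩ := exists_nat_ge |x|
    obtain ⟨n, p, q⟩ := b (max K (M + 1))
    obtain ⟨V, s, t, u⟩ := f3 n (r n) x (abs_le.1 (hK.trans (Nat.cast_le.2 (le_of_max_le_left p))))
    exact ⟨V, q V s u.1 u.2, t, fun y hy => g ((Metric.edist_le_ediam_of_mem hy t).trans_lt
      ((u.2.trans ((m (le_of_max_le_right p)).trans (f2 M _))).trans_lt hM))⟩
  let B₀ := {V ∈ B | ∃ n, (r (2 * n + 1)).1 < Metric.ediam V ∧ Metric.ediam V ≤ (r (2 * n)).1}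
  refine ⟨B₀, B \ B₀, union_sdiff_cancel fun _ h => h.1, disjoint_sdiff_right,
    key _ (fun _ h => h.1) fun N => ⟨2 * N, by omega, fun V a b c => ⟨a, N, b, c⟩⟩,
    key _ sdiff_subset fun N => ⟨2 * N + 1, by omega, fun V a b c => ⟨a, ?_⟩⟩⟩
  rintro ⟨-, n, p, q⟩
  rcases le_or_gt n N with e | e
  · exact p.not_ge (c.trans (m (by omega : 2 * n + 1 ≤ 2 * N + 1)))
  · exact b.not_ge (q.trans (m (by omega : 2 * N + 1 + 1 ≤ 2 * n)))

end Pool.Agent.Lib.helper4.PowRes
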