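import Mathlib

/-! Spaces obtained by adding limit points along decreasing sequences of clopen sets. -/

namespace Pool.Agent.Lib.helper4.PsiChain

open Set Filter Topology

/-- Data for the extension. -/
structure Dat (C T : Type) [TopologicalSpace C] where
  M : T → ℕ → Set C
  anti : ∀ t, Antitone (M t)
  clopen : ∀ t k, IsClopen (M t k)
  sep : ∀ t t', t ≠ t' → ∃ k, Disjoint (M t' k) (M t 0)
  loc : ∀ c U, IsOpen U → c ∈ U → ∃ V, IsClopen V ∧ c ∈ V ∧ V ⊆ U ∧ ∀ t, ∃ k, Disjoint (M t k) V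

variable {C T C' T' : Type} [TopologicalSpace C] [TopologicalSpace C']

/-- The extension. -/
def S (_ : Dat C T) : Type := C ⊕ T

/-- The inclusion. -/
def il (d : Dat C T) : C → S d := Sum.inl

/-- Induced maps. -/
def mp (d : Dat C T) (d' : Dat C' T') (f : C → C') (g : T → T') : S d → S d' := Sum.map f g

instance (d : Dat C T) : TopologicalSpace (S d) where
  IsOpen U := IsOpen (il d ⁻¹' U) ∧ ∀ t, Sum.inr t ∈ U → ∃ k, d.M t k ⊆ il d ⁻¹' U
  isOpen_univ := ⟨isOpen_univ, fun _ _ => ⟨0, subset_univ _⟩⟩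
  isOpen_inter := fun U V a b => ⟨a.1.inter b.1, fun t h => by
    obtain ⟨i, hi⟩ := a.2 t h.1
    obtain ⟨j, hj⟩ := b.2 t h.2
    exact ⟨max i j, subset_inter ((d.anti t (le_max_left _ _)).trans hi)
      ((d.anti t (le_max_right _ _)).trans hj)⟩⟩
  isOpen_sUnion := fun s h => ⟨by
    rw [preimage_sUnion]; exact isOpen_biUnion fun U a => (h U a).1,
    fun t ⟨U, a, b⟩ => ((h U a).2 t b).imp fun _ e => e.trans
      (preimage_mono (subset_sUnion_of_mem a))⟩

theorem inl_cont (d : Dat C T) : Continuous (il d) := ⟨fun _ h => h.1⟩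

/-- Basic sets. -/
def N (d : Dat C T) (V : Set C) (A : Set T) : Set (S d) := {p | Sum.elim (· ∈ V) (· ∈ A) p}

theorem N_t (d : Dat C T) (t k) : IsClopen (N d (d.M t k) {t}) :=
  ⟨⟨⟨(d.clopen t k).1.isOpen_compl, fun t' h => (d.sep t t' (Ne.symm h)).imp fun _ e =>
    (e.mono_right (d.anti t (Nat.zero_le k))).subset_compl_right⟩⟩,
    (d.clopen t k).2, fun _ h => ⟨k, h ▸ Subset.rfl⟩⟩

theorem zero (d : Dat C T) (p : S d) (U : Set (S d)) (h : IsOpen U) (hp : p ∈ U) :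
    ∃ V, IsClopen V ∧ p ∈ V ∧ V ⊆ U := by
  rcases p with c | t
  · obtain ⟨V, a, b, e, f⟩ := d.loc c _ h.1 hp
    refine ⟨N d V ∅, ⟨⟨⟨a.1.isOpen_compl, fun t _ => (f t).imp fun _ e => e.subset_compl_right⟩⟩,
      a.2, fun _ h => h.elim⟩, b, ?_⟩
    rintro (c | t) h
    exacts [e h, h.elim]
  · obtain ⟨k, hk⟩ := h.2 t hp
    refine ⟨_, N_t d t k, rfl, ?_⟩
    rintro (c | t) h
    exacts [hk h, (h : t = _) ▸ hp]

instance (d : Dat C T) [T1Space C] : T1Space (S d) := ⟨by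
  rintro (c | t)
  · refine ⟨⟨?_, fun t _ => ?_⟩⟩
    · convert isOpen_compl_singleton (x := c)
      ext; exact Sum.inl_injective.ne_iff
    · obtain ⟨V, -, b, -, f⟩ := d.loc c _ isOpen_univ trivial
      exact (f t).imp fun k e x hx h => disjoint_left.1 e hx (Sum.inl_injective h ▸ b)
  · have : (il d ⁻¹' ({Sum.inr t} : Set (S d))ᶜ) = univ :=
      eq_univ_of_forall fun _ => Sum.inl_ne_inr
    exact ⟨⟨this ▸ isOpen_univ, fun _ _ => ⟨0, this ▸ subset_univ _⟩⟩⟩⟩

instance (d : Dat C T) : CompletelyRegularSpace (S d) := ⟨fun p K hK hp => by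
  classical
  obtain ⟨V, a, b, e⟩ := zero d p _ hK.isOpen_compl hp
  exact ⟨fun y => if y ∈ V then 0 else 1, Continuous.if (fun _ h => ((show frontier {y | y ∈ V} = ∅
    from a.frontier_eq) ▸ h).elim) continuous_const continuous_const, if_pos b,
    fun y hy => if_neg fun h => e h hy⟩⟩

instance (d : Dat C T) [T1Space C] : T35Space (S d) := {}

theorem perfect (d : Dat C T) (d' : Dat C' T') (f : C → C') (g : T → T') (h1 : Continuous f)
    (h2 : IsClosedMap f) (h3 : Function.Surjective f) (h4 : ∀ y, IsCompact (f ⁻¹' {y}))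
    (h5 : Function.Surjective g) (h6 : ∀ y, (g ⁻¹' {y}).Finite)
    (h7 : ∀ t' k c, f c ∈ d'.M t' k ↔ ∃ t, g t = t' ∧ c ∈ d.M t k) :
    Continuous (mp d d' f g) ∧ IsClosedMap (mp d d' f g) ∧
    Function.Surjective (mp d d' f g) ∧
    ∀ y, IsCompact ((mp d d' f g) ⁻¹' {y}) := by
  refine ⟨⟨fun U h => ⟨h.1.preimage h1, fun t a => (h.2 _ a).imp fun k e c b =>
    e ((h7 _ _ _).2 ⟨t, rfl, b⟩)⟩⟩, fun F hF => ⟨⟨?_, fun t' a => ?_⟩⟩, h3.sumMap h5, ?_⟩
  · convert (h2 _ (hF.preimage (inl_cont d))).isOpen_compl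
    ext c
    refine not_congr ⟨?_, fun ⟨x, a, b⟩ => ⟨_, a, congrArg Sum.inl b⟩⟩
    rintro ⟨x | x, a, b⟩
    exacts [⟨x, a, Sum.inl_injective b⟩, (Sum.inr_ne_inl b).elim]
  · have : ∀ᶠ k in atTop, ∀ t ∈ g ⁻¹' {t'}, d.M t k ⊆ il d ⁻¹' Fᶜ :=
      (eventually_all_finite (h6 t')).2 fun t b => by
        obtain ⟨k, hk⟩ := hF.isOpen_compl.2 t fun e => a ⟨_, e, congrArg Sum.inr b⟩
        exact (eventually_ge_atTop k).mono fun j e => (d.anti t e).trans hk
    refine this.exists.imp fun k hk c b => ?_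
    rintro ⟨x | x, p, q⟩
    · obtain rfl := Sum.inl_injective q
      obtain ⟨t, r, s⟩ := (h7 _ _ _).1 b
      exact hk t r s p
    · exact Sum.inr_ne_inl q
  · rintro (c | t)
    · convert (h4 c).image (inl_cont d)
      ext (x | x)
      · exact ⟨fun h => ⟨x, Sum.inl_injective h, rfl⟩,
          fun ⟨_, a, b⟩ => Sum.inl_injective b ▸ congrArg Sum.inl a⟩
      · exact ⟨fun h => (Sum.inr_ne_inl h).elim, fun ⟨_, _, b⟩ => (Sum.inl_ne_inr b).elim⟩
    · refine Finite.isCompact (X := S d) (((h6 t).image Sum.inr).subset ?_)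
      rintro (x | x) h
      exacts [(Sum.inl_ne_inr h).elim, ⟨x, Sum.inr_injective h, rfl⟩]

/-- Branches, with the discrete topology. -/
def P : Type := ℕ → Bool

/-- Levels and nodes, with the discrete topology. -/
def R : Type := ℕ × List Bool

instance : TopologicalSpace P := ⊥
instance : DiscreteTopology P := ⟨rfl⟩
instance : TopologicalSpace R := ⊥
instance : DiscreteTopology R := ⟨rfl⟩
instance : Countable R := inferInstanceAs (Countable (ℕ × List Bool))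
instance : Uncountable P := Cardinal.aleph0_lt_mk_iff.1 (by
  simpa [P] using Cardinal.aleph0_lt_continuum)

/-- Long initial segments of a branch. -/
def br (a : P) (k : ℕ) (l : List Bool) : Prop := ∃ j, k ≤ j ∧ l = PiNat.res a j

theorem br_anti {a i j l} (h : i ≤ j) : br a j l → br a i l :=
  fun ⟨m, p, q⟩ => ⟨m, h.trans p, q⟩

theorem br_len (a l) : ¬ br a (l.length + 1) l := fun ⟨m, p, q⟩ => by
  rw [q, PiNat.res_length] at p; omega

theorem br_sep {a b : P} (h : a ≠ b) : ∃ k, ∀ l, br b k l → ¬ br a 0 l := by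
  obtain ⟨m, hm⟩ := Function.ne_iff.1 h
  refine ⟨m + 1, ?_⟩
  rintro _ ⟨i, p, rfl⟩ ⟨j, -, q⟩
  obtain rfl : i = j := by simpa using congrArg List.length q
  exact hm (PiNat.res_eq_res.1 q p).symm

/-- The Moore space. -/
def dD : Dat R (ℕ × P) where
  M t k := {r | r.1 = t.1 ∧ br t.2 k r.2}
  anti _ _ _ h _ e := ⟨e.1, br_anti h e.2⟩
  clopen _ _ := isClopen_discrete _
  sep t t' h := by
    by_cases e : t.2 = t'.2
    · exact ⟨0, disjoint_left.2 fun r a b => h (Prod.ext (b.1.symm.trans a.1) e)⟩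
    · exact (br_sep e).imp fun k hk => disjoint_left.2 fun r a b => hk _ a.2 b.2
  loc c U _ b := ⟨{c}, isClopen_discrete _, rfl, singleton_subset_iff.2 b,
    fun t => ⟨_, disjoint_singleton_right.2 fun h => br_len _ _ h.2⟩⟩

/-- Columns. -/
abbrev Co : Type := R × OnePoint P

theorem opK {W : Set (OnePoint P)} (h : OnePoint.infty ∉ W) : IsOpen W :=
  (OnePoint.isOpen_iff_of_notMem h).2 (isOpen_discrete _)

/-- The indicator of an isolated point of a column. -/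
noncomputable def χ (a : P) (c : Co) : R × Bool := (c.1, boolIndicator {(a : OnePoint P)} c.2)

theorem χ_clopen (a : P) (A : Set (R × Bool)) : IsClopen (χ a ⁻¹' A) :=
  (isClopen_discrete A).preimage (continuous_fst.prodMk (((continuous_boolIndicator_iff_isClopen
    _).2 ⟨isClosed_singleton, opK (OnePoint.infty_ne_coe a)⟩).comp continuous_snd))

theorem locC (c : Co) (U : Set Co) (h : IsOpen U) (hc : c ∈ U) :
    ∃ V, IsClopen V ∧ c ∈ V ∧ V ⊆ U ∧ ∀ x ∈ V, x.1 = c.1 := by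
  obtain ⟨r, o⟩ := c
  obtain ⟨W, a, b, e⟩ : ∃ W, IsClopen W ∧ o ∈ W ∧ W ⊆ Prod.mk r ⁻¹' U := by
    induction o using OnePoint.rec with
    | infty => exact ⟨_, ⟨⟨opK fun h => h hc⟩, h.preimage (by fun_prop)⟩, hc, Subset.rfl⟩
    | coe a => exact ⟨_, ⟨isClosed_singleton, opK (OnePoint.infty_ne_coe a)⟩, rfl,
        singleton_subset_iff.2 hc⟩
  refine ⟨{r} ×ˢ W, (isClopen_discrete _).prod a, ⟨rfl, b⟩, ?_, fun x h => h.1⟩
  rintro ⟨_, o⟩ ⟨rfl, h⟩
  exact e h

/-- The perfect preimage. -/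
noncomputable def dX : Dat Co ((ℕ × P) × Bool) where
  M t k := χ t.1.2 ⁻¹' {p | p.1 ∈ dD.M t.1 k ∧ p.2 = t.2}
  anti t _ _ h _ e := ⟨dD.anti _ h e.1, e.2⟩
  clopen _ _ := χ_clopen _ _
  sep t t' h := by
    by_cases e : t.1 = t'.1
    · exact ⟨0, disjoint_left.2 fun r a b => h (Prod.ext e (b.2.symm.trans (e ▸ a.2)))⟩
    · exact (dD.sep _ _ e).imp fun k hk => disjoint_left.2 fun r a b =>
        disjoint_left.1 hk a.1 b.1
  loc c U a b := (locC c U a b).imp fun V h => ⟨h.1, h.2.1, h.2.2.1, fun t =>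
    ⟨c.1.2.length + 1, disjoint_left.2 fun x p q => br_len _ _ (h.2.2.2 x q ▸ p.1.2)⟩⟩

/-- The perfect image. -/
noncomputable def dY : Dat Co (ℕ × P) where
  M t k := χ t.2 ⁻¹' {p | p.1.1 + p.2.toNat = t.1 ∧ br t.2 k p.1.2}
  anti _ _ _ h _ e := ⟨e.1, br_anti h e.2⟩
  clopen _ _ := χ_clopen _ _
  sep t t' h := by
    by_cases e : t.2 = t'.2
    · exact ⟨0, disjoint_left.2 fun r a b => h (Prod.ext (b.1.symm.trans (e ▸ a.1)) e)⟩
    · exact (br_sep e).imp fun k hk => disjoint_left.2 fun r a b => hk _ a.2 b.2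
  loc c U a b := (locC c U a b).imp fun V h => ⟨h.1, h.2.1, h.2.2.1, fun t =>
    ⟨c.1.2.length + 1, disjoint_left.2 fun x p q => br_len _ _ (h.2.2.2 x q ▸ p.2)⟩⟩

theorem develop : ∃ G : ℕ → Set (Set (S dD)), (∀ n, (∀ U ∈ G n, IsOpen U) ∧ ⋃₀ G n = univ) ∧
    ∀ y, (𝓝 y).HasBasis (fun _ : ℕ => True) fun n => ⋃₀ {U ∈ G n | y ∈ U} := by
  let G : ℕ → Set (Set (S dD)) := fun n =>
    range (fun c => N dD {c} ∅) ∪ range fun t => N dD (dD.M t n) {t}
  have o : ∀ n, ∀ U ∈ G n, IsOpen U := by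
    rintro n _ (⟨c, rfl⟩ | ⟨t, rfl⟩)
    exacts [⟨isOpen_discrete _, fun _ h => h.elim⟩, (N_t _ _ _).2]
  have c : ∀ n y, ∃ U ∈ G n, y ∈ U := by
    rintro n (c | t)
    exacts [⟨_, Or.inl ⟨c, rfl⟩, rfl⟩, ⟨_, Or.inr ⟨t, rfl⟩, rfl⟩]
  refine ⟨G, fun n => ⟨o n, eq_univ_of_forall (c n)⟩, fun y => ⟨fun U => ⟨fun h => ?_, ?_⟩⟩⟩
  · obtain ⟨V, a, b, e⟩ := mem_nhds_iff.1 h
    rcases y with r | t
    · refine ⟨r.2.length + 1, trivial, ?_⟩
      rintro z ⟨_, ⟨⟨c, rfl⟩ | ⟨t, rfl⟩, p⟩, q⟩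
      · rcases z with z | z
        exacts [a (((q : z = c).trans (p : r = c).symm) ▸ e), q.elim]
      · exact (br_len _ _ p.2).elim
    · obtain ⟨k, hk⟩ := b.2 t e
      refine ⟨k, trivial, ?_⟩
      rintro z ⟨_, ⟨⟨c, rfl⟩ | ⟨t', rfl⟩, p⟩, q⟩
      · exact p.elim
      · obtain rfl : t = t' := p
        rcases z with z | z
        exacts [a (hk q), a ((q : z = t) ▸ e)]
  · rintro ⟨n, -, h⟩
    obtain ⟨V, a, b⟩ := c n y
    exact mem_of_superset ((o n V a).mem_nhds b) fun z hz => h ⟨V, ⟨a, b⟩, hz⟩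

theorem no_perfect {E : Type} [TopologicalSpace E] (G : ℕ → Set (Set E))
    (hG : ∀ y, (𝓝 y).HasBasis (fun _ : ℕ => True) fun n => ⋃₀ {U ∈ G n | y ∈ U})
    (h : S dY → E) (h1 : Continuous h) (h2 : IsClosedMap h) (h3 : Function.Surjective h)
    (h4 : ∀ y, IsCompact (h ⁻¹' {y})) : False := by
  have hp := isProperMap_iff_isClosedMap_and_compact_fibers.2 ⟨h1, h2, h4⟩
  have : T2Space E := t2_iff_isClosed_diagonal.2 (by
    convert (hp.prodMap hp).isClosedMap _ isClosed_diagonal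
    ext ⟨x, y⟩
    refine ⟨?_, ?_⟩
    · rintro (rfl : x = y)
      obtain ⟨z, rfl⟩ := h3 x
      exact ⟨(z, z), rfl, rfl⟩
    · rintro ⟨⟨z, w⟩, (rfl : z = w), ⟨⟩⟩
      rfl)
  have cnt : ∀ r : R, {a : P | h (.inl (r, a)) ≠ h (.inl (r, OnePoint.infty))}.Countable := by
    intro r
    have c : Continuous fun o : OnePoint P => h (.inl (r, o)) :=
      h1.comp ((inl_cont dY).comp (by fun_prop))
    have c := (c.tendsto _).comp (OnePoint.tendsto_coe_infty (X := P))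
    rw [coclosedCompact_eq_cocompact, cocompact_eq_cofinite] at c
    refine (countable_iUnion fun n => Finite.countable
      (mem_cofinite.1 (c ((hG _).mem_of_mem (i := n) trivial)))).mono fun a ha => ?_
    obtain ⟨n, -, hn⟩ := (hG _).mem_iff.1 (isOpen_compl_singleton.mem_nhds (Ne.symm ha))
    exact mem_iUnion.2 ⟨n, fun e => hn e rfl⟩
  obtain ⟨a, ha⟩ : ∃ a : P, ∀ r : R, h (.inl (r, a)) = h (.inl (r, OnePoint.infty)) := by
    by_contra e
    push Not at e
    exact not_countable_univ ((countable_iUnion cnt).mono fun a _ => mem_iUnion.2 (e a))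
  have lim : ∀ n (o : OnePoint P), Tendsto (fun k => h (.inl ((n, PiNat.res a k), o))) atTop
      (𝓝 (h (.inr (n + (boolIndicator {(a : OnePoint P)} o).toNat, a)))) := fun n o =>
    (h1.tendsto _).comp (tendsto_nhds.2 fun U p q => by
      obtain ⟨k, hk⟩ := p.2 _ q
      exact (eventually_ge_atTop k).mono fun j e => hk ⟨rfl, j, e, rfl⟩)
  have eq : ∀ n, h (.inr (n, a)) = h (.inr (0, a)) := fun n => by
    induction n with
    | zero => rfl
    | succ n ih =>
      have p := lim n a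
      have q := lim n OnePoint.infty
      rw [(mem_iff_boolIndicator {(a : OnePoint P)} _).1 rfl] at p
      rw [(notMem_iff_boolIndicator {(a : OnePoint P)} _).1 (OnePoint.infty_ne_coe a)] at q
      exact (tendsto_nhds_unique p (q.congr fun k => (ha _).symm)).trans ih
  obtain ⟨m, hm⟩ := (h4 (h (.inr (0, a)))).elim_directed_cover
    (fun m : ℕ => N dY {c | c.1.1 ≤ m} {t | t.1 ≤ m})
    (fun m => ⟨(isOpen_discrete {r : R | r.1 ≤ m}).preimage continuous_fst,
      fun t p => ⟨0, fun c q => (Nat.le_add_right _ _).trans (q.1.trans_le p)⟩⟩)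
    (by rintro (c | t) -; exacts [mem_iUnion.2 ⟨_, le_refl c.1.1⟩, mem_iUnion.2 ⟨_, le_refl t.1⟩])
    (Monotone.directed_le fun i j e => by rintro (c | t) p <;> exact le_trans p e)
  exact Nat.not_succ_le_self m (hm (eq (m + 1)))

end Pool.Agent.Lib.helper4.PsiChain
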