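import Mathlib

/-! Permutations of the naturals that are increasing on each of finitely many pieces. -/

namespace Pool.Agent.H4PwInc

open Finset

/-- the group of piecewise increasing permutations with finitely many pieces -/
def pw : Subgroup (Equiv.Perm ℕ) where
  carrier := {g | ∃ (N : ℕ) (c : ℕ → ℕ), (∀ x, c x < N) ∧ ∀ x y, c x = c y → x < y → g x < g y}
  one_mem' := ⟨1, fun _ => 0, by simp, fun _ _ _ h => h⟩
  mul_mem' := by
    rintro g h ⟨N, c, h1, h2⟩ ⟨M, d, k1, k2⟩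
    refine ⟨Nat.pair N M + 1, fun x => Nat.pair (c (h x)) (d x), fun x => ?_, fun x y e l => ?_⟩
    · have a := Nat.pair_lt_pair_left (d x) (h1 (h x))
      have b := Nat.pair_lt_pair_right N (k1 x)
      dsimp only; omega
    · rw [Nat.pair_eq_pair] at e
      exact h2 _ _ e.1 (k2 _ _ e.2 l)
  inv_mem' := by
    rintro g ⟨N, c, h1, h2⟩
    refine ⟨N, fun x => c (g⁻¹ x), fun x => h1 _, fun x y e l => ?_⟩
    rcases lt_trichotomy (g⁻¹ x) (g⁻¹ y) with a | a | a
    · exact a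
    · have := (g⁻¹).injective a; omega
    · have := h2 _ _ e.symm a
      simp at this; omega

theorem swap_mem (a b : ℕ) : Equiv.swap a b ∈ pw := by
  refine ⟨3, fun x => if x = a then 1 else if x = b then 2 else 0, fun x => ?_, fun x y e l => ?_⟩
  · dsimp only; split_ifs <;> omega
  · dsimp only at e
    simp only [Equiv.swap_apply_def]
    split_ifs at e ⊢ <;> omega

def rev (x : ℕ) : ℕ := 2 * (x.sqrt * x.sqrt) + 2 * x.sqrt - x

theorem rev_sqrt (x : ℕ) : (rev x).sqrt = x.sqrt := by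
  symm
  rw [Nat.eq_sqrt]
  have h := Nat.eq_sqrt.1 (rfl : x.sqrt = x.sqrt)
  unfold rev
  generalize x.sqrt = n at h ⊢
  have : (n + 1) * (n + 1) = n * n + 2 * n + 1 := by ring
  omega

theorem rev_rev : Function.Involutive rev := by
  intro x
  have h := Nat.eq_sqrt.1 (rfl : x.sqrt = x.sqrt)
  have h1 := rev_sqrt x
  unfold rev at h1 ⊢
  rw [h1]
  generalize x.sqrt = n at h ⊢
  have : (n + 1) * (n + 1) = n * n + 2 * n + 1 := by ring
  omega

theorem pw_ne_top : pw ≠ ⊤ := by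
  intro h
  have : rev_rev.toPerm ∈ pw := h ▸ Subgroup.mem_top _
  obtain ⟨N, c, h1, h2⟩ := this
  have key : ∀ i ≤ N, rev (N * N + i) = N * N + 2 * N - i := by
    intro i hi
    have : (N * N + i).sqrt = N := by
      symm; rw [Nat.eq_sqrt]
      have : (N + 1) * (N + 1) = N * N + 2 * N + 1 := by ring
      omega
    unfold rev; rw [this]; omega
  obtain ⟨i, hi, j, hj, hne, he⟩ := exists_ne_map_eq_of_card_lt_of_maps_to
    (s := range (N + 1)) (t := range N) (by simp) (f := fun i => c (N * N + i))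
    (fun i _ => by simpa using h1 _)
  rw [mem_range] at hi hj
  rcases lt_or_gt_of_ne hne with l | l
  · have := h2 _ _ he (by omega : N * N + i < N * N + j)
    simp only [Function.Involutive.coe_toPerm] at this
    rw [key i (by omega), key j (by omega)] at this; omega
  · have := h2 _ _ he.symm (by omega : N * N + j < N * N + i)
    simp only [Function.Involutive.coe_toPerm] at this
    rw [key i (by omega), key j (by omega)] at this; omega

structure Inv (a b : ℕ → ℚ) (f g : ℕ × ℕ → ℕ) (P Q : Finset (ℕ × ℕ)) : Prop where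
  iso : ∀ x ∈ P ∪ Q, ∀ y ∈ P ∪ Q, a (f x) < a (f y) ↔ b (g x) < b (g y)
  m0 : ∀ x ∈ P, ∀ y ∈ P, f x < f y → g x < g y
  m1 : ∀ x ∈ Q, ∀ y ∈ Q, g x < g y → f x < f y
  i0 : ∀ x ∈ P, ∀ p < f x, ∃ y ∈ P ∪ Q, f y = p
  i1 : ∀ x ∈ Q, ∀ p < g x, ∃ y ∈ P ∪ Q, g y = p

theorem Inv.symm {a b f g P Q} (h : Inv a b f g P Q) : Inv b a g f Q P := by
  refine ⟨?_, h.m1, h.m0, ?_, ?_⟩
  · rw [union_comm]; exact fun x hx y hy => (h.iso x hx y hy).symm
  · rw [union_comm]; exact h.i1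
  · rw [union_comm]; exact h.i0

theorem step {a b : ℕ → ℚ} {f g : ℕ × ℕ → ℕ} (ha : Function.Injective a)
    (hb : Function.Surjective b) (hfg : ∀ p q, ∃ x, f x = p ∧ g x = q) {P Q}
    (h : Inv a b f g P Q) (p : ℕ) (hp : ∀ p' < p, ∃ y ∈ P ∪ Q, f y = p') :
    ∃ P', P ⊆ P' ∧ Inv a b f g P' Q ∧ ∃ y ∈ P' ∪ Q, f y = p := by
  by_cases hex : ∃ y ∈ P ∪ Q, f y = p
  · exact ⟨P, subset_rfl, h, hex⟩
  push Not at hex
  have sep : ∀ u ∈ ((P ∪ Q).filter fun y => a (f y) < a p).image (fun y => b (g y)),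
      ∀ v ∈ ((P ∪ Q).filter fun y => a p < a (f y)).image (fun y => b (g y)), u < v := by
    intro u hu v hv
    obtain ⟨x, hx, rfl⟩ := mem_image.1 hu
    obtain ⟨y, hy, rfl⟩ := mem_image.1 hv
    rw [mem_filter] at hx hy
    exact (h.iso x hx.1 y hy.1).1 (hx.2.trans hy.2)
  obtain ⟨m, m1, m2⟩ := Order.exists_between_finsets _ _ sep
  obtain ⟨m', m3, m4⟩ := Order.exists_between_finsets {m} _
    (fun u hu v hv => by rw [mem_singleton.1 hu]; exact m2 v hv)
  have m5 : m < m' := m3 m (mem_singleton_self _)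
  have inf : (b ⁻¹' Set.Ioo m m').Infinite :=
    (Set.Ioo_infinite m5).preimage (by rw [hb.range_eq]; exact Set.subset_univ _)
  obtain ⟨q, hq, hq'⟩ := inf.exists_gt (P.sup g)
  obtain ⟨x, rfl, rfl⟩ := hfg p q
  have cmp : ∀ y ∈ P ∪ Q, (a (f y) < a (f x) ∧ b (g y) < b (g x)) ∨
      (a (f x) < a (f y) ∧ b (g x) < b (g y)) := by
    intro y hy
    rcases lt_trichotomy (a (f y)) (a (f x)) with l | l | l
    · exact Or.inl ⟨l, (m1 _ (mem_image_of_mem _ (mem_filter.2 ⟨hy, l⟩))).trans hq.1⟩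
    · exact absurd (ha l) (hex y hy)
    · exact Or.inr ⟨l, hq.2.trans (m4 _ (mem_image_of_mem _ (mem_filter.2 ⟨hy, l⟩)))⟩
  have mono : ∀ y ∈ P ∪ Q, y ∈ insert x P ∪ Q := fun y hy => by
    rw [insert_union]; exact mem_insert_of_mem hy
  refine ⟨insert x P, subset_insert _ _, ⟨?_, ?_, h.m1, ?_, ?_⟩, x, by simp, rfl⟩
  · rw [insert_union]
    intro y hy z hz
    rcases mem_insert.1 hy with e1 | hy' <;> rcases mem_insert.1 hz with e2 | hz'
    · simp [e1, e2]
    · rw [e1]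
      rcases cmp z hz' with c | c
      · exact iff_of_false c.1.not_gt c.2.not_gt
      · exact iff_of_true c.1 c.2
    · rw [e2]
      rcases cmp y hy' with c | c
      · exact iff_of_true c.1 c.2
      · exact iff_of_false c.1.not_gt c.2.not_gt
    · exact h.iso y hy' z hz'
  · intro y hy z hz l
    rcases mem_insert.1 hy with e1 | hy' <;> rcases mem_insert.1 hz with e2 | hz'
    · rw [e1, e2] at l; omega
    · rw [e1] at l
      obtain ⟨w, hw, e⟩ := h.i0 z hz' _ l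
      exact absurd e (hex w hw)
    · rw [e2]; exact (le_sup (f := g) hy').trans_lt hq'
    · exact h.m0 y hy' z hz' l
  · intro y hy p' l
    rcases mem_insert.1 hy with rfl | hy
    · obtain ⟨w, hw, e⟩ := hp p' l
      exact ⟨w, mono w hw, e⟩
    · obtain ⟨w, hw, e⟩ := h.i0 y hy p' l
      exact ⟨w, mono w hw, e⟩
  · intro y hy p' l
    obtain ⟨w, hw, e⟩ := h.i1 y hy p' l
    exact ⟨w, mono w hw, e⟩

theorem steps {a b : ℕ → ℚ} {f g : ℕ × ℕ → ℕ} (ha : Function.Injective a)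
    (hb : Function.Surjective b) (hfg : ∀ p q, ∃ x, f x = p ∧ g x = q) {P Q}
    (h : Inv a b f g P Q) (n : ℕ) :
    ∃ P', P ⊆ P' ∧ Inv a b f g P' Q ∧ ∀ p < n, ∃ y ∈ P' ∪ Q, f y = p := by
  induction n with
  | zero => exact ⟨P, subset_rfl, h, by simp⟩
  | succ n ih =>
    obtain ⟨P1, s1, i1, c1⟩ := ih
    obtain ⟨P2, s2, i2, c2⟩ := step ha hb hfg i1 n c1
    refine ⟨P2, s1.trans s2, i2, fun p l => ?_⟩
    rcases Nat.lt_succ_iff_lt_or_eq.1 l with l | rfl
    · obtain ⟨y, hy, e⟩ := c1 p l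
      exact ⟨y, union_subset_union s2 subset_rfl hy, e⟩
    · exact c2

theorem exists_iso {a b : ℕ → ℚ} (ha : Function.Bijective a) (hb : Function.Bijective b) :
    ∃ g ∈ pw, ∀ x y, b (g x) < b (g y) ↔ a x < a y := by
  let T := {s : Finset (ℕ × ℕ) × Finset (ℕ × ℕ) // Inv a b Prod.fst Prod.snd s.1 s.2}
  have nxt : ∀ (n : ℕ) (s : T), ∃ t : T, s.1.1 ⊆ t.1.1 ∧ s.1.2 ⊆ t.1.2 ∧
      (∃ y ∈ t.1.1 ∪ t.1.2, y.1 = n) ∧ ∃ y ∈ t.1.1 ∪ t.1.2, y.2 = n := by
    rintro n ⟨⟨P, Q⟩, h⟩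
    obtain ⟨P1, s1, i1, c1⟩ := steps ha.1 hb.2 (fun p q => ⟨(p, q), rfl, rfl⟩) h (n + 1)
    obtain ⟨Q1, s2, i2, c2⟩ := steps hb.1 ha.2 (fun p q => ⟨(q, p), rfl, rfl⟩) i1.symm (n + 1)
    refine ⟨⟨(P1, Q1), i2.symm⟩, s1, s2, ?_, ?_⟩
    · obtain ⟨y, hy, e⟩ := c1 n (by omega)
      exact ⟨y, union_subset_union subset_rfl s2 hy, e⟩
    · obtain ⟨y, hy, e⟩ := c2 n (by omega)
      exact ⟨y, by rw [union_comm]; exact hy, e⟩
  choose F h1 h2 h3 h4 using nxt
  let s0 : T := ⟨(∅, ∅), ⟨by simp, by simp, by simp, by simp, by simp⟩⟩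
  let s : ℕ → T := fun n => Nat.rec s0 F n
  have hs : ∀ n, s (n + 1) = F n (s n) := fun _ => rfl
  have mP : Monotone fun n => (s n).1.1 := monotone_nat_of_le_succ fun n => h1 n (s n)
  have mQ : Monotone fun n => (s n).1.2 := monotone_nat_of_le_succ fun n => h2 n (s n)
  let R : ℕ × ℕ → Prop := fun x => ∃ n, x ∈ (s n).1.1 ∪ (s n).1.2
  have iso : ∀ x y, R x → R y → (a x.1 < a y.1 ↔ b x.2 < b y.2) := by
    rintro x y ⟨m, hm⟩ ⟨n, hn⟩
    exact (s (max m n)).2.iso x
      (union_subset_union (mP (le_max_left _ _)) (mQ (le_max_left _ _)) hm) y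
      (union_subset_union (mP (le_max_right _ _)) (mQ (le_max_right _ _)) hn)
  have tot : ∀ p, ∃ q, R (p, q) := fun p => by
    obtain ⟨y, hy, e⟩ := h3 p (s p)
    exact ⟨y.2, p + 1, by rw [← e]; rw [← e] at hy; exact hy⟩
  choose g hg using tot
  have giso : ∀ x y, b (g x) < b (g y) ↔ a x < a y := fun x y => (iso _ _ (hg x) (hg y)).symm
  have bij : Function.Bijective g := by
    constructor
    · intro x y e
      apply ha.1
      rcases lt_trichotomy (a x) (a y) with l | l | l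
      · have := (giso x y).2 l; rw [e] at this; exact absurd this (lt_irrefl _)
      · exact l
      · have := (giso y x).2 l; rw [e] at this; exact absurd this (lt_irrefl _)
    · intro q
      obtain ⟨y, hy, e⟩ := h4 q (s q)
      have hR : R y := ⟨q + 1, hy⟩
      refine ⟨y.1, hb.1 ?_⟩
      rw [← e]
      rcases lt_trichotomy (b (g y.1)) (b y.2) with l | l | l
      · exact absurd ((iso _ _ (hg y.1) hR).2 l) (lt_irrefl _)
      · exact l
      · exact absurd ((iso _ _ hR (hg y.1)).2 l) (lt_irrefl _)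
  classical
  refine ⟨Equiv.ofBijective g bij, ⟨2, fun x => if ∃ n, (x, g x) ∈ (s n).1.1 then 0 else 1,
    fun x => ?_, fun x y e l => ?_⟩, giso⟩
  · dsimp only; split_ifs <;> omega
  · dsimp only at e
    show g x < g y
    by_cases u : ∃ n, (x, g x) ∈ (s n).1.1 <;> by_cases v : ∃ n, (y, g y) ∈ (s n).1.1
    · obtain ⟨m, hm⟩ := u
      obtain ⟨n, hn⟩ := v
      exact (s (max m n)).2.m0 _ (mP (le_max_left _ _) hm) _ (mP (le_max_right _ _) hn) l
    · rw [if_pos u, if_neg v] at e; omega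
    · rw [if_neg u, if_pos v] at e; omega
    · obtain ⟨m, hm⟩ := hg x
      obtain ⟨n, hn⟩ := hg y
      have hm' := (mem_union.1 hm).resolve_left fun c => u ⟨m, c⟩
      have hn' := (mem_union.1 hn).resolve_left fun c => v ⟨n, c⟩
      rcases lt_trichotomy (g x) (g y) with k | k | k
      · exact k
      · have := bij.1 k; omega
      · have := (s (max m n)).2.m1 _ (mQ (le_max_right _ _) hn') _ (mQ (le_max_left _ _) hm') k
        exact absurd this (by simp; omega)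

end Pool.Agent.H4PwInc
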