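import Mathlib

namespace H4ResSum

open Filter Topology

section Cauchy

variable {A : Type*} [NormedRing A] [NormedAlgebra ℂ A] [CompleteSpace A]

noncomputable def R (a : A) (w : ℂ) : A := Ring.inverse (1 - w • a)

lemma isOpen_U (a : A) : IsOpen {w : ℂ | IsUnit (1 - w • a)} := by
  have h : Continuous (fun w : ℂ => (1 : A) - w • a) := by fun_prop
  exact Units.isOpen.preimage h

omit [CompleteSpace A] in
lemma comm_R (a : A) (w : ℂ) : Commute a (R a w) := by
  unfold R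
  have h : Commute a (1 - w • a) := (Commute.one_right a).sub_right ((Commute.refl a).smul_right w)
  by_cases hu : IsUnit (1 - w • a)
  · obtain ⟨u, hu⟩ := hu
    rw [← hu] at h ⊢
    rw [Ring.inverse_unit]
    exact h.units_inv_right
  · rw [Ring.inverse_non_unit _ hu]
    exact Commute.zero_right a

lemma hasDerivAt_R (a : A) {w : ℂ} (hw : IsUnit (1 - w • a)) :
    HasDerivAt (R a) (a * R a w ^ 2) w := by
  obtain ⟨u, hu⟩ := hw
  have h1 : HasDerivAt (fun w : ℂ => (1 : A) - w • a) (-a) w := by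
    simpa using ((hasDerivAt_id w).smul_const a).const_sub 1
  have h2 := hasFDerivAt_ringInverse (𝕜 := ℂ) u
  rw [hu] at h2
  have h3 := h2.comp_hasDerivAt w h1
  have h4 : (↑u⁻¹ : A) = R a w := by
    unfold R
    rw [← hu, Ring.inverse_unit]
  have h5 : (-ContinuousLinearMap.mulLeftRight ℂ A (↑u⁻¹ : A) (↑u⁻¹ : A)) (-a) = a * R a w ^ 2 := by
    simp only [neg_apply, ContinuousLinearMap.mulLeftRight_apply, h4, mul_neg,
      neg_mul, neg_neg]
    rw [← (comm_R a w).eq, pow_two, mul_assoc]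
  rw [h5] at h3
  exact h3

lemma hasDerivAt_R_pow (a : A) {w : ℂ} (hw : IsUnit (1 - w • a)) (n : ℕ) :
    HasDerivAt (fun w => R a w ^ n) ((n : ℂ) • (a * R a w ^ (n + 1))) w := by
  induction n with
  | zero => simpa using hasDerivAt_const w (1 : A)
  | succ n ih =>
    have h := ih.mul (hasDerivAt_R a hw)
    have e1 : (fun w => R a w ^ (n + 1)) = (fun w => R a w ^ n) * R a := by
      funext w; simp [pow_succ]
    rw [e1]
    convert h using 1
    have hc : R a w ^ n * a = a * R a w ^ n := ((comm_R a w).pow_right n).eq.symm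
    rw [smul_mul_assoc, ← mul_assoc (R a w ^ n), hc, mul_assoc, mul_assoc, ← pow_succ, ← pow_add]
    push_cast
    rw [add_smul, one_smul]

lemma iter_R_pow (a : A) (n j : ℕ) : ∀ w : ℂ, IsUnit (1 - w • a) →
    iteratedDeriv j (fun w => R a w ^ n) w
      = ((n.ascFactorial j : ℕ) : ℂ) • (a ^ j * R a w ^ (n + j)) := by
  induction j with
  | zero => intro w _; simp
  | succ j ih =>
    intro w hw
    rw [iteratedDeriv_succ]
    have hev : iteratedDeriv j (fun w => R a w ^ n) =ᶠ[𝓝 w]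
        fun w => ((n.ascFactorial j : ℕ) : ℂ) • (a ^ j * R a w ^ (n + j)) := by
      filter_upwards [(isOpen_U a).mem_nhds hw] with v hv
      exact ih v hv
    rw [hev.deriv_eq]
    have h := ((hasDerivAt_R_pow a hw (n + j)).const_mul (a ^ j)).const_smul
      ((n.ascFactorial j : ℕ) : ℂ)
    have h' := h.deriv
    have e1 : (fun w => ((n.ascFactorial j : ℕ) : ℂ) • (a ^ j * R a w ^ (n + j)))
        = ((n.ascFactorial j : ℕ) : ℂ) • fun w => a ^ j * R a w ^ (n + j) := rfl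
    rw [e1, h', Nat.ascFactorial_succ, mul_smul_comm, smul_smul, ← mul_assoc, ← pow_succ]
    push_cast
    rw [mul_comm ((n : ℂ) + j)]
    rfl

lemma pow_bound (a : A) (M : ℝ) (hU : ∀ w : ℂ, ‖w‖ ≤ 1 → IsUnit (1 - w • a))
    (hM : ∀ w : ℂ, ‖w‖ = 1 → ‖R a w‖ ≤ M) (m j : ℕ) :
    ‖a ^ j‖ ≤ M ^ (m + 1) / ((m + j).choose j : ℝ) := by
  have hd : DiffContOnCl ℂ (fun w => R a w ^ (m + 1)) (Metric.ball 0 1) := by
    apply DifferentiableOn.diffContOnCl
    intro w hw
    rw [closure_ball _ one_ne_zero] at hw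
    have hw' : ‖w‖ ≤ 1 := by simpa using hw
    exact (hasDerivAt_R_pow a (hU w hw') (m + 1)).differentiableAt.differentiableWithinAt
  have hb : ∀ z ∈ Metric.sphere (0 : ℂ) 1, ‖R a z ^ (m + 1)‖ ≤ M ^ (m + 1) := by
    intro z hz
    have hz' : ‖z‖ = 1 := by simpa using hz
    exact (norm_pow_le' _ (Nat.succ_pos m)).trans
      (pow_le_pow_left₀ (norm_nonneg _) (hM z hz') _)
  have h := Complex.norm_iteratedDeriv_le_of_forall_mem_sphere_norm_le j one_pos hd hb
  rw [iter_R_pow a (m + 1) j 0 (by simp)] at h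
  have h0 : R a 0 = 1 := by simp [R]
  rw [h0, one_pow, mul_one, norm_smul, one_pow, div_one, Nat.ascFactorial_eq_factorial_mul_choose]
    at h
  have hpos : (0 : ℝ) < ((m + j).choose j : ℝ) := by
    exact_mod_cast Nat.choose_pos (Nat.le_add_left j m)
  have hf : (0 : ℝ) < (j.factorial : ℝ) := by exact_mod_cast j.factorial_pos
  rw [le_div_iff₀ hpos]
  have h2 : ‖(((j.factorial * (m + j).choose j : ℕ)) : ℂ)‖
      = (j.factorial : ℝ) * ((m + j).choose j : ℝ) := by
    rw [Complex.norm_natCast]; push_cast; ring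
  rw [h2] at h
  nlinarith

end Cauchy

section Numeric

/-- tail weight -/
noncomputable def tau (r J : ℕ) : ℝ := ((r : ℝ) + 2) / ((r : ℝ) + 1) / ((r + 1 + J).choose J : ℝ)

lemma tau_nonneg (r J : ℕ) : 0 ≤ tau r J := by unfold tau; positivity

lemma tau_step (r J : ℕ) : 1 / ((r + 2 + J).choose J : ℝ) = tau r J - tau r (J + 1) := by
  unfold tau
  have h1 : ((r + 2 + J).choose J : ℝ) * ((r : ℝ) + 2)
      = ((r + 1 + J).choose J : ℝ) * ((r : ℝ) + 2 + J) := by
    have := Nat.choose_mul_succ_eq (r + 1 + J) J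
    have e1 : r + 1 + J + 1 - J = r + 2 := by omega
    have e2 : r + 1 + J + 1 = r + 2 + J := by omega
    rw [e1, e2] at this
    exact_mod_cast this.symm
  have h2 : ((r + 1 + (J + 1)).choose (J + 1) : ℝ) * ((J : ℝ) + 1)
      = ((r + 1 + J).choose J : ℝ) * ((r : ℝ) + 2 + J) := by
    have := Nat.add_one_mul_choose_eq (r + 1 + J) J
    have e2 : r + 1 + J + 1 = r + 1 + (J + 1) := by omega
    rw [e2] at this
    have h3 : ((r + 1 + (J + 1) : ℕ) : ℝ) * ((r + 1 + J).choose J : ℝ)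
      = ((r + 1 + (J + 1)).choose (J + 1) : ℝ) * ((J + 1 : ℕ) : ℝ) := by exact_mod_cast this
    push_cast at h3
    linarith
  have p1 : (0 : ℝ) < ((r + 1 + J).choose J : ℝ) := by
    exact_mod_cast Nat.choose_pos (by omega)
  have e1 : ((r + 2 + J).choose J : ℝ)
      = ((r + 1 + J).choose J : ℝ) * ((r : ℝ) + 2 + J) / ((r : ℝ) + 2) := by
    rw [← h1]; field_simp
  have e2 : ((r + 1 + (J + 1)).choose (J + 1) : ℝ)
      = ((r + 1 + J).choose J : ℝ) * ((r : ℝ) + 2 + J) / ((J : ℝ) + 1) := by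
    rw [← h2]; field_simp
  rw [e1, e2]
  field_simp
  ring

structure Good (a : ℕ → ℝ) (M : ℝ) : Prop where
  nonneg : ∀ j, 0 ≤ a j
  hM : 0 ≤ M
  bound : ∀ m j : ℕ, a j ≤ M ^ (m + 1) / ((m + j).choose j : ℝ)

variable {a : ℕ → ℝ} {M : ℝ}

lemma block (h : Good a M) (r J d : ℕ) :
    ∑ i ∈ Finset.range d, a (i + J) ≤ M ^ (r + 3) * (tau r J - tau r (d + J)) := by
  induction d with
  | zero => simp
  | succ d ih =>
    rw [Finset.sum_range_succ]
    have h1 := h.bound (r + 2) (d + J)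
    have h2 := tau_step r (d + J)
    have h3 : M ^ (r + 2 + 1) / ((r + 2 + (d + J)).choose (d + J) : ℝ)
        = M ^ (r + 3) * (tau r (d + J) - tau r (d + J + 1)) := by
      rw [← h2]; ring
    have e : d + 1 + J = d + J + 1 := by omega
    rw [e]
    linarith

lemma block_le (h : Good a M) (r J d : ℕ) :
    ∑ i ∈ Finset.range d, a (i + J) ≤ M ^ (r + 3) * tau r J := by
  have h1 := block h r J d
  have h2 : 0 ≤ M ^ (r + 3) * tau r (d + J) := mul_nonneg (pow_nonneg h.hM _) (tau_nonneg _ _)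
  linarith

lemma summable_shift (h : Good a M) (J : ℕ) : Summable (fun i => a (i + J)) :=
  summable_of_sum_range_le (fun _ => h.nonneg _) (block_le h 0 J)

noncomputable def s (a : ℕ → ℝ) (J : ℕ) : ℝ := ∑' i, a (i + J)

lemma s_tail (h : Good a M) (r J : ℕ) : s a J ≤ M ^ (r + 3) * tau r J :=
  (summable_shift h J).tsum_le_of_sum_range_le (block_le h r J)

lemma s_split (h : Good a M) (J d : ℕ) :
    s a J = ∑ i ∈ Finset.range d, a (i + J) + s a (d + J) := by
  unfold s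
  rw [← (summable_shift h J).sum_add_tsum_nat_add d]
  congr 1
  refine tsum_congr fun i => ?_
  rw [add_assoc]

def F {K : Type} [Field K] (M : K) : List ℕ → ℕ → ℕ → K
  | [], J, r => M ^ (r + 2) * (((r : K) + 2) / ((r : K) + 1) / ((r + 1 + J).choose J : K))
  | m :: l, J, r => M ^ m / ((m + J).choose J : K) + F M l (J + 1) r

lemma s_le_F (h : Good a M) (r : ℕ) : ∀ (l : List ℕ) (J : ℕ), s a J ≤ M * F M l J r
  | [], J => by
    have := s_tail h r J
    unfold tau at this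
    unfold F
    calc s a J ≤ _ := this
      _ = _ := by ring
  | m :: l, J => by
    have h1 := s_split h J 1
    have h2 := s_le_F h r l (J + 1)
    have h3 := h.bound m J
    rw [Finset.sum_range_one, zero_add, add_comm 1 J] at h1
    unfold F
    have : M * (M ^ m / ((m + J).choose J : ℝ) + F M l (J + 1) r)
        = M ^ (m + 1) / ((m + J).choose J : ℝ) + M * F M l (J + 1) r := by ring
    linarith

lemma F_convex (r : ℕ) : ∀ (l : List ℕ) (J : ℕ),
    ConvexOn ℝ (Set.Ici (0 : ℝ)) (fun M : ℝ => F M l J r)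
  | [], J => by
    have := (convexOn_pow (𝕜 := ℝ) (r + 2)).smul
      (c := (((r : ℝ) + 2) / ((r : ℝ) + 1) / ((r + 1 + J).choose J : ℝ))) (by positivity)
    refine this.congr fun M _ => ?_
    simp only [F, smul_eq_mul]
    ring
  | m :: l, J => by
    have h1 := (convexOn_pow (𝕜 := ℝ) m).smul
      (c := (1 / ((m + J).choose J : ℝ))) (by positivity)
    have h2 := h1.add (F_convex r l (J + 1))
    refine h2.congr fun M _ => ?_
    simp only [F, smul_eq_mul, Pi.add_apply]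
    ring

lemma F_cast (q : ℚ) (r : ℕ) : ∀ (l : List ℕ) (J : ℕ),
    F (q : ℝ) l J r = ((F q l J r : ℚ) : ℝ)
  | [], J => by simp [F]
  | m :: l, J => by simp [F, F_cast q r l (J + 1)]

lemma interval (h : Good a M) (l : List ℕ) (r : ℕ) (x y E : ℝ) (hx : 0 ≤ x) (h1 : x ≤ M)
    (h2 : M ≤ y) (ex : F x l 1 r ≤ E * (x - 1)) (ey : F y l 1 r ≤ E * (y - 1)) :
    s a 1 ≤ E * M * (M - 1) := by
  have hc : ConvexOn ℝ (Set.Ici (0 : ℝ)) (fun M : ℝ => F M l 1 r - E * (M - 1)) := by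
    refine (F_convex r l 1).sub ?_
    refine ⟨convex_Ici 0, fun u _ v _ α β _ _ hab => ?_⟩
    simp only [smul_eq_mul]
    have : β = 1 - α := by linarith
    subst this
    apply le_of_eq; ring
  have h3 := hc.le_max_of_mem_Icc (x := x) (y := y) (z := M) hx (hx.trans (h1.trans h2)) ⟨h1, h2⟩
  have h4 : F M l 1 r - E * (M - 1) ≤ 0 := h3.trans (max_le (by linarith) (by linarith))
  have h5 := s_le_F h r l 1
  have h6 := h.hM
  nlinarith

lemma intervalQ (h : Good a M) (l : List ℕ) (r : ℕ) (x y : ℚ) (hx : 1 ≤ x) (h1 : (x : ℝ) ≤ M)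
    (h2 : M ≤ (y : ℝ)) (ex : F x l 1 r ≤ 2718 / 1000 * (x - 1))
    (ey : F y l 1 r ≤ 2718 / 1000 * (y - 1)) :
    s a 1 ≤ Real.exp 1 * M * (M - 1) := by
  have hx' : (1 : ℝ) ≤ x := by exact_mod_cast hx
  have ex' : F (x : ℝ) l 1 r ≤ 2718 / 1000 * ((x : ℝ) - 1) := by
    rw [F_cast]
    have := (Rat.cast_le (K := ℝ)).2 ex
    push_cast at this
    exact this
  have ey' : F (y : ℝ) l 1 r ≤ 2718 / 1000 * ((y : ℝ) - 1) := by
    rw [F_cast]
    have := (Rat.cast_le (K := ℝ)).2 ey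
    push_cast at this
    exact this
  have h3 := interval h l r x y _ (by linarith) h1 h2 ex' ey'
  have he := Real.exp_one_gt_d9
  have h4 : 0 ≤ M * (M - 1) := mul_nonneg (by linarith) (by linarith)
  nlinarith

lemma middle (h : Good a M) (h1 : 17 / 16 ≤ M) (h2 : M ≤ 8) :
    s a 1 ≤ Real.exp 1 * M * (M - 1) := by
  rcases le_total M (43 / 40) with c | h1
  · exact intervalQ h [14] 29 (17 / 16) (43 / 40) (by norm_num) (by simpa using h1)
      (by simpa using c) (by decide +kernel) (by decide +kernel)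
  rcases le_total M (11 / 10) with c | h1'
  · exact intervalQ h [11, 23, 35] 46 (43 / 40) (11 / 10) (by norm_num) (by simpa using h1)
      (by simpa using c) (by decide +kernel) (by decide +kernel)
  rcases le_total M (227 / 200) with c | h1
  · exact intervalQ h [8, 17] 25 (11 / 10) (227 / 200) (by norm_num) (by simpa using h1')
      (by simpa using c) (by decide +kernel) (by decide +kernel)
  rcases le_total M (119 / 100) with c | h1'
  · exact intervalQ h [6, 12] 17 (227 / 200) (119 / 100) (by norm_num) (by simpa using h1)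
      (by simpa using c) (by decide +kernel) (by decide +kernel)
  rcases le_total M (129 / 100) with c | h1
  · exact intervalQ h [4, 8, 12] 15 (119 / 100) (129 / 100) (by norm_num) (by simpa using h1')
      (by simpa using c) (by decide +kernel) (by decide +kernel)
  rcases le_total M (297 / 200) with c | h1'
  · exact intervalQ h [2, 5, 8, 11] 13 (129 / 100) (297 / 200) (by norm_num) (by simpa using h1)
      (by simpa using c) (by decide +kernel) (by decide +kernel)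
  rcases le_total M (37 / 20) with c | h1
  · exact intervalQ h [1, 3, 4] 5 (297 / 200) (37 / 20) (by norm_num) (by simpa using h1')
      (by simpa using c) (by decide +kernel) (by decide +kernel)
  rcases le_total M (87 / 40) with c | h1'
  · exact intervalQ h [1, 2, 3, 4, 5, 6] 6 (37 / 20) (87 / 40) (by norm_num) (by simpa using h1)
      (by simpa using c) (by decide +kernel) (by decide +kernel)
  rcases le_total M (37 / 10) with c | h1
  · exact intervalQ h [0, 1, 1, 2, 2, 3, 3, 4, 4, 5, 5, 6] 5 (87 / 40) (37 / 10) (by norm_num)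
      (by simpa using h1') (by simpa using c) (by decide +kernel) (by decide +kernel)
  rcases le_total M (29 / 4) with c | h1'
  · exact intervalQ h [0, 0, 0, 0, 1, 1, 1, 1, 2, 2, 2, 2, 2] 2 (37 / 10) (29 / 4) (by norm_num)
      (by simpa using h1) (by simpa using c) (by decide +kernel) (by decide +kernel)
  exact intervalQ h [0, 0, 0, 0, 0, 0, 1, 1, 1, 1, 1] 1 (29 / 4) 8 (by norm_num)
      (by simpa using h1') (by simpa using h2) (by decide +kernel) (by decide +kernel)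

lemma large (h : Good a M) (h8 : 8 ≤ M) : s a 1 ≤ Real.exp 1 * M * (M - 1) := by
  obtain ⟨p, hp1, hp2⟩ : ∃ p : ℕ, 3 / 2 * M ≤ (p : ℝ) + 2 ∧ (p : ℝ) + 2 ≤ 3 / 2 * M + 1 := by
    refine ⟨⌈3 / 2 * M - 2⌉₊, ?_, ?_⟩
    · have := Nat.le_ceil (3 / 2 * M - 2); linarith
    · have := Nat.ceil_lt_add_one (show 0 ≤ 3 / 2 * M - 2 by linarith); linarith
  obtain ⟨d, hd1, hd2⟩ : ∃ d : ℕ, 3 * M ≤ (d : ℝ) + p + 2 ∧ (d : ℝ) + p + 2 ≤ 3 * M + 1 := by
    refine ⟨⌈3 * M - p - 2⌉₊, ?_, ?_⟩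
    · have := Nat.le_ceil (3 * M - p - 2); linarith
    · have := Nat.ceil_lt_add_one (show 0 ≤ 3 * M - p - 2 by linarith); linarith
  have s1 := s_split h 1 p
  have s2 := s_split h (p + 1) d
  have b1 : ∑ i ∈ Finset.range p, a (i + 1) ≤ p * M := by
    have : ∀ i ∈ Finset.range p, a (i + 1) ≤ M := by
      intro i _
      simpa using h.bound 0 (i + 1)
    simpa using Finset.sum_le_card_nsmul _ _ _ this
  have b2 := block h 0 (p + 1) d
  have b3 := s_tail h 1 (d + (p + 1))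
  have t0 : ∀ J : ℕ, tau 0 J = 2 / ((J : ℝ) + 1) := by
    intro J
    unfold tau
    rw [show 0 + 1 + J = J + 1 by omega, Nat.choose_succ_self_right]
    push_cast; ring
  have t1 : ∀ J : ℕ, tau 1 J ≤ 3 / ((J : ℝ) + 1) ^ 2 := by
    intro J
    have h1 := tau_step 0 J
    rw [t0, t0] at h1
    unfold tau
    rw [show 1 + 1 + J = 0 + 2 + J by omega, div_eq_mul_one_div, h1]
    push_cast
    have : (0 : ℝ) ≤ J := Nat.cast_nonneg J
    rw [div_sub_div _ _ (by positivity) (by positivity), ← mul_div_assoc,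
      div_le_div_iff₀ (by positivity) (by positivity)]
    nlinarith
  rw [t0, t0] at b2
  have b3' := b3.trans (mul_le_mul_of_nonneg_left (t1 _) (pow_nonneg h.hM _))
  push_cast at b2 b3'
  set u : ℝ := (p : ℝ) + 1 + 1 with hu
  set v : ℝ := (d : ℝ) + ((p : ℝ) + 1) + 1 with hv
  have hu1 : 3 / 2 * M ≤ u := by linarith
  have hv1 : 3 * M ≤ v := by linarith
  have hv2 : v ≤ 3 * M + 1 := by linarith
  have c1 : M ^ 3 * (2 / u) ≤ 4 / 3 * M ^ 2 := by
    rw [← mul_div_assoc, div_le_iff₀ (by linarith)]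
    nlinarith [pow_pos (show 0 < M by linarith) 2]
  have c2 : M ^ 4 * (3 / v ^ 2) - M ^ 3 * (2 / v) ≤ -(1 / 3) * M ^ 2 + 1 / 27 := by
    have hv0 : 0 < v := by linarith
    have e : M ^ 4 * (3 / v ^ 2) - M ^ 3 * (2 / v) + (1 / 3) * M ^ 2
        = M ^ 2 * (v - 3 * M) ^ 2 / (3 * v ^ 2) := by
      field_simp; ring
    have e2 : M ^ 2 * (v - 3 * M) ^ 2 / (3 * v ^ 2) ≤ 1 / 27 := by
      rw [div_le_div_iff₀ (by positivity) (by positivity)]
      have q1 : (v - 3 * M) ^ 2 ≤ 1 := by nlinarith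
      have q2 : 9 * M ^ 2 ≤ v ^ 2 := by nlinarith
      nlinarith [sq_nonneg M]
    linarith
  have he := Real.exp_one_gt_d9
  have h4 : 0 ≤ M * (M - 1) := mul_nonneg (by linarith) (by linarith)
  have b1' : (p : ℝ) * M ≤ (3 / 2 * M - 1) * M :=
    mul_le_mul_of_nonneg_right (by linarith) h.hM
  nlinarith

lemma exp_bd (k : ℕ) (hk : 16 ≤ k) :
    (1 + 1 / (k : ℝ)) ^ k ≤ Real.exp 1 * (1 - (1 / (k : ℝ)) / 2 + 7 / 12 * (1 / (k : ℝ)) ^ 2) := by
  have hk' : (16 : ℝ) ≤ k := by exact_mod_cast hk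
  set x : ℝ := 1 / (k : ℝ) with hx
  have x0 : 0 < x := by positivity
  have x1 : x ≤ 1 / 16 := by
    rw [hx]; exact one_div_le_one_div_of_le (by norm_num) hk'
  have hkx : (k : ℝ) * x = 1 := by rw [hx]; field_simp
  set y : ℝ := x - x ^ 2 / 2 + x ^ 3 / 3 with hy
  have y0 : 0 ≤ y := by rw [hy]; nlinarith [pow_pos x0 3]
  have h1 : 1 + x ≤ Real.exp y := by
    have h := Real.sum_le_exp_of_nonneg y0 4
    simp only [Finset.sum_range_succ, Finset.sum_range_zero, Nat.factorial] at h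
    norm_num at h
    have e : 1 + y + y ^ 2 / 2 + y ^ 3 / 6 - (1 + x)
        = x ^ 4 * (5 / 24 + x / 8 - 19 / 144 * x ^ 2 + 7 / 72 * x ^ 3 - x ^ 4 / 36
          + x ^ 5 / 162) := by
      rw [hy]; ring
    have e2 : 0 ≤ x ^ 4 * (5 / 24 + x / 8 - 19 / 144 * x ^ 2 + 7 / 72 * x ^ 3 - x ^ 4 / 36
          + x ^ 5 / 162) := by
      apply mul_nonneg (by positivity)
      have p2 : x ^ 2 ≤ 1 := pow_le_one₀ x0.le (by linarith)
      have p4 : x ^ 4 ≤ 1 := pow_le_one₀ x0.le (by linarith)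
      have p3 := pow_pos x0 3
      have p5 := pow_pos x0 5
      linarith
    linarith
  set z : ℝ := x / 2 - x ^ 2 / 3 with hz
  have z0 : 0 ≤ z := by rw [hz]; nlinarith
  have h2 : (1 + x) ^ k ≤ Real.exp 1 * Real.exp (-z) := by
    calc (1 + x) ^ k ≤ Real.exp y ^ k := pow_le_pow_left₀ (by linarith) h1 k
      _ = Real.exp (k * y) := by rw [Real.exp_nat_mul]
      _ = Real.exp 1 * Real.exp (-z) := by
        rw [← Real.exp_add]
        congr 1
        have : (k : ℝ) * y = (k * x) * (1 - x / 2 + x ^ 2 / 3) := by rw [hy]; ring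
        rw [this, hkx, hz]; ring
  have h3 : Real.exp (-z) ≤ 1 - x / 2 + 7 / 12 * x ^ 2 := by
    have a1 : 1 + z ≤ Real.exp z := by linarith [Real.add_one_le_exp z]
    have a2 : Real.exp (-z) * Real.exp z = 1 := by rw [← Real.exp_add]; simp
    have a3 := Real.exp_pos (-z)
    have a4 : Real.exp (-z) * (1 + z) ≤ 1 := by nlinarith
    have a5 : Real.exp (-z) ≤ 1 - z + z ^ 2 := by
      by_contra hc
      push Not at hc
      nlinarith [pow_nonneg z0 3]
    have a6 : z ^ 2 ≤ (x / 2) ^ 2 := pow_le_pow_left₀ z0 (by rw [hz]; nlinarith) 2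
    rw [hz] at a5
    rw [hz] at a6
    nlinarith
  exact h2.trans (mul_le_mul_of_nonneg_left h3 (Real.exp_pos 1).le)

lemma F_small (t : ℕ) (x : ℝ) : F x [t + 1] 1 (2 * t + 1)
    = x ^ (t + 1) / ((t : ℝ) + 2) + x ^ (2 * t + 3) / (2 * ((t : ℝ) + 2) * ((t : ℝ) + 1)) := by
  have c1 : (t + 1 + 1).choose 1 = t + 2 := by simp
  have c2 : (2 * t + 1 + 1 + (1 + 1)).choose (1 + 1) = (t + 2) * (2 * t + 3) := by
    rw [Nat.choose_two_right]
    have : (2 * t + 1 + 1 + (1 + 1)) * (2 * t + 1 + 1 + (1 + 1) - 1)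
        = 2 * ((t + 2) * (2 * t + 3)) := by
      rw [show 2 * t + 1 + 1 + (1 + 1) - 1 = 2 * t + 3 by omega]; ring
    rw [this]; omega
  simp only [F]
  rw [c1, c2]
  push_cast
  field_simp
  ring

lemma poly1 (x E A : ℝ) (x0 : 0 < x) (x1 : x ≤ 1 / 16) (E0 : 0 < E) (E1 : E ≤ 2.7183) (A0 : 0 ≤ A)
    (hA : A ≤ E * (1 - x / 2 + 7 / 12 * x ^ 2)) :
    2 * (1 - x) * A + A ^ 2 * x ≤ 2 * E * (1 - x) * (1 + x) := by
  set u := 1 - x / 2 + 7 / 12 * x ^ 2 with hu
  have u0 : 0 ≤ u := by rw [hu]; nlinarith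
  have h1 : A ^ 2 ≤ E * (2.7183 * u ^ 2) := by
    have := pow_le_pow_left₀ A0 hA 2
    nlinarith [mul_nonneg E0.le (sq_nonneg u)]
  have h2 : 2 * (1 - x) * u + 2.7183 * u ^ 2 * x ≤ 2 * (1 - x) * (1 + x) := by
    have u1 : u ^ 2 ≤ 1 - x + 3 / 2 * x ^ 2 := by
      rw [hu]; nlinarith [pow_pos x0 2, pow_pos x0 3, pow_pos x0 4]
    rw [hu] at *
    nlinarith [pow_pos x0 2, pow_pos x0 3]
  have h3 : 2 * (1 - x) * A ≤ 2 * (1 - x) * (E * u) :=
    mul_le_mul_of_nonneg_left hA (by linarith)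
  nlinarith

lemma poly2 (x E A : ℝ) (x0 : 0 < x) (x1 : x ≤ 1 / 16) (E0 : 0 < E) (E1 : E ≤ 2.7183) (A0 : 0 ≤ A)
    (hA : A ≤ E * (1 - x / 2 + 7 / 12 * x ^ 2)) :
    2 * (1 + x) * (1 - 2 * x) * A + A ^ 2 * x ≤ 2 * E * (1 + x) ^ 3 * (1 - x) * (1 - 2 * x) := by
  set u := 1 - x / 2 + 7 / 12 * x ^ 2 with hu
  have u0 : 0 ≤ u := by rw [hu]; nlinarith
  have h1 : A ^ 2 ≤ E * (2.7183 * u ^ 2) := by
    have := pow_le_pow_left₀ A0 hA 2
    nlinarith [mul_nonneg E0.le (sq_nonneg u)]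
  have h2 : 2 * (1 + x) * (1 - 2 * x) * u + 2.7183 * u ^ 2 * x
      ≤ 2 * (1 + x) ^ 3 * (1 - x) * (1 - 2 * x) := by
    have u1 : u ^ 2 ≤ 1 - x + 3 / 2 * x ^ 2 := by
      rw [hu]; nlinarith [pow_pos x0 2, pow_pos x0 3, pow_pos x0 4]
    have u2 : 2.7183 * u ^ 2 * x ≤ 2.7183 * (1 - x + 3 / 2 * x ^ 2) * x := by nlinarith
    have p2 : x ^ 2 ≤ x / 16 := by nlinarith
    have p3 : x ^ 3 ≤ x / 256 := by nlinarith
    have p4 := pow_pos x0 4
    have p5 := pow_pos x0 5
    rw [hu]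
    rw [hu] at u2
    nlinarith
  have h3 : 2 * (1 + x) * (1 - 2 * x) * A ≤ 2 * (1 + x) * (1 - 2 * x) * (E * u) :=
    mul_le_mul_of_nonneg_left hA (mul_nonneg (by linarith) (by linarith))
  nlinarith

lemma small (h : Good a M) (h1 : 1 < M) (h2 : M ≤ 17 / 16) :
    s a 1 ≤ Real.exp 1 * M * (M - 1) := by
  have e0 : 0 < M - 1 := by linarith
  have hk : 16 ≤ ⌊1 / (M - 1)⌋₊ := by
    apply Nat.le_floor
    rw [le_div_iff₀ e0]; push_cast; linarith
  obtain ⟨t, ht⟩ : ∃ t, ⌊1 / (M - 1)⌋₊ = t + 2 := ⟨⌊1 / (M - 1)⌋₊ - 2, by omega⟩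
  have f1 := Nat.floor_le (show 0 ≤ 1 / (M - 1) by positivity)
  have f2 := Nat.lt_floor_add_one (1 / (M - 1))
  rw [ht] at f1 f2 hk
  push_cast at f1 f2
  have t0 : (14 : ℝ) ≤ t := by exact_mod_cast (by omega : 14 ≤ t)
  have g1 : 1 + 1 / ((t : ℝ) + 3) ≤ M := by
    rw [div_lt_iff₀ e0] at f2
    have : 1 / ((t : ℝ) + 3) ≤ M - 1 := by
      rw [div_le_iff₀ (by linarith)]; nlinarith
    linarith
  have g2 : M ≤ 1 + 1 / ((t : ℝ) + 2) := by
    rw [le_div_iff₀ e0] at f1
    have : M - 1 ≤ 1 / ((t : ℝ) + 2) := by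
      rw [le_div_iff₀ (by linarith)]; nlinarith
    linarith
  have E0 := Real.exp_pos 1
  have E1 : Real.exp 1 ≤ 2.7183 := by linarith [Real.exp_one_lt_d9]
  refine interval h [t + 1] (2 * t + 1) _ _ _ (by positivity) g1 g2 ?_ ?_
  · have hb := exp_bd (t + 3) (by omega)
    push_cast at hb
    rw [F_small]
    set x : ℝ := 1 / ((t : ℝ) + 3) with hx
    have x0 : 0 < x := by positivity
    have x1 : x ≤ 1 / 16 := by
      rw [hx]; exact one_div_le_one_div_of_le (by norm_num) (by linarith)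
    have hp := poly2 x _ _ x0 x1 E0 E1 (by positivity) hb
    have ht2 : (t : ℝ) + 2 = (1 - x) / x := by rw [hx]; field_simp; ring
    have ht1 : (t : ℝ) + 1 = (1 - 2 * x) / x := by rw [hx]; field_simp; ring
    set B := (1 + x) ^ (t + 1) with hB
    have q1 : (1 + x) ^ (t + 3) = B * (1 + x) ^ 2 := by rw [hB]; ring
    have q2 : (1 + x) ^ (2 * t + 3) = B ^ 2 * (1 + x) := by rw [hB]; ring
    rw [q1] at hp
    rw [q2, ht2, ht1]
    have n1 : 0 < 1 - x := by linarith
    have n2 : 0 < 1 - 2 * x := by linarith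
    have n3 : 0 < (1 + x) ^ 3 := by positivity
    have e : B / ((1 - x) / x) + B ^ 2 * (1 + x) / (2 * ((1 - x) / x) * ((1 - 2 * x) / x))
        = x * (2 * (1 + x) * (1 - 2 * x) * (B * (1 + x) ^ 2) + (B * (1 + x) ^ 2) ^ 2 * x)
          / (2 * (1 + x) ^ 3 * (1 - x) * (1 - 2 * x)) := by
      have n2' : 1 - x * 2 ≠ 0 := by linarith
      field_simp
    rw [e, div_le_iff₀ (by positivity)]
    nlinarith
  · have hb := exp_bd (t + 2) (by omega)
    push_cast at hb
    rw [F_small]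
    set x : ℝ := 1 / ((t : ℝ) + 2) with hx
    have x0 : 0 < x := by positivity
    have x1 : x ≤ 1 / 16 := by
      rw [hx]; exact one_div_le_one_div_of_le (by norm_num) (by linarith)
    have hp := poly1 x _ _ x0 x1 E0 E1 (by positivity) hb
    have ht2 : (t : ℝ) + 2 = 1 / x := by rw [hx]; field_simp
    have ht1 : (t : ℝ) + 1 = (1 - x) / x := by rw [hx]; field_simp; ring
    set B := (1 + x) ^ (t + 1) with hB
    have q1 : (1 + x) ^ (t + 2) = B * (1 + x) := by rw [hB]; ring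
    have q2 : (1 + x) ^ (2 * t + 3) = B ^ 2 * (1 + x) := by rw [hB]; ring
    rw [q1] at hp
    rw [q2, ht2, ht1]
    have n1 : 0 < 1 - x := by linarith
    have e : B / (1 / x) + B ^ 2 * (1 + x) / (2 * (1 / x) * ((1 - x) / x))
        = x * (2 * (1 - x) * (B * (1 + x)) + (B * (1 + x)) ^ 2 * x)
          / (2 * (1 + x) * (1 - x)) := by
      field_simp
    rw [e, div_le_iff₀ (by positivity)]
    nlinarith

lemma Good.mono (h : Good a M) {M' : ℝ} (hM : M ≤ M') : Good a M' :=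
  ⟨h.nonneg, h.hM.trans hM, fun m j => (h.bound m j).trans
    (div_le_div_of_nonneg_right (pow_le_pow_left₀ h.hM hM _) (Nat.cast_nonneg _))⟩

lemma main_gt (h : Good a M) (h1 : 1 < M) : s a 1 ≤ Real.exp 1 * M * (M - 1) := by
  rcases le_total M (17 / 16) with c | c
  · exact small h h1 c
  rcases le_total M 8 with d | d
  · exact middle h c d
  · exact large h d

theorem main (h : Good a M) (h1 : 1 ≤ M) : s a 1 ≤ Real.exp 1 * M * (M - 1) := by
  rcases h1.lt_or_eq with c | c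
  · exact main_gt h c
  subst c
  have hc : Tendsto (fun M : ℝ => Real.exp 1 * M * (M - 1)) (𝓝[>] 1)
      (𝓝 (Real.exp 1 * 1 * (1 - 1))) := by
    apply Tendsto.mono_left _ nhdsWithin_le_nhds
    exact Continuous.tendsto (by fun_prop) 1
  refine ge_of_tendsto hc ?_
  filter_upwards [self_mem_nhdsWithin] with M hM
  exact main_gt (h.mono (le_of_lt hM)) hM

end Numeric

end H4ResSum
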