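import Mathlib

namespace H4SL2

open Matrix MatrixGroups

variable {R : Type} [CommRing R]

def e12 (r : R) : SL(2, R) := ⟨!![1, r; 0, 1], by simp [det_fin_two]⟩
def e21 (r : R) : SL(2, R) := ⟨!![1, 0; r, 1], by simp [det_fin_two]⟩
def dg (v : Rˣ) : SL(2, R) := ⟨!![(v : R), 0; 0, ((v⁻¹ : Rˣ) : R)], by simp [det_fin_two]⟩

lemma e12_add (r s : R) : e12 r * e12 s = e12 (r + s) := by
  ext i j; fin_cases i <;> fin_cases j <;> simp [e12, Matrix.mul_apply, Fin.sum_univ_two, add_comm]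

lemma e21_add (r s : R) : e21 r * e21 s = e21 (r + s) := by
  ext i j; fin_cases i <;> fin_cases j <;> simp [e21, Matrix.mul_apply, Fin.sum_univ_two]

lemma e12_zero : e12 (0 : R) = 1 := by
  ext i j; fin_cases i <;> fin_cases j <;> simp [e12]

lemma e21_zero : e21 (0 : R) = 1 := by
  ext i j; fin_cases i <;> fin_cases j <;> simp [e21]

lemma e12_inv (r : R) : (e12 r)⁻¹ = e12 (-r) :=
  inv_eq_of_mul_eq_one_right (by rw [e12_add, add_neg_cancel, e12_zero])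

lemma e21_inv (r : R) : (e21 r)⁻¹ = e21 (-r) :=
  inv_eq_of_mul_eq_one_right (by rw [e21_add, add_neg_cancel, e21_zero])

lemma dg_mul (v w : Rˣ) : dg v * dg w = dg (v * w) := by
  ext i j; fin_cases i <;> fin_cases j <;> simp [dg, Matrix.mul_apply, Fin.sum_univ_two, mul_comm]

lemma dg_one : dg (1 : Rˣ) = 1 := by
  ext i j; fin_cases i <;> fin_cases j <;> simp [dg]

lemma dg_inv (v : Rˣ) : (dg v)⁻¹ = dg v⁻¹ :=
  inv_eq_of_mul_eq_one_right (by rw [dg_mul, mul_inv_cancel, dg_one])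

lemma dg_e12 (v : Rˣ) (r : R) : dg v * e12 r = e12 ((v : R) ^ 2 * r) * dg v := by
  ext i j; fin_cases i <;> fin_cases j <;> simp [dg, e12, Matrix.mul_apply, Fin.sum_univ_two]
  linear_combination (-(v : R) * r) * v.mul_inv

lemma dg_e21 (v : Rˣ) (r : R) : dg v * e21 r = e21 (((v⁻¹ : Rˣ) : R) ^ 2 * r) * dg v := by
  ext i j; fin_cases i <;> fin_cases j <;> simp [dg, e21, Matrix.mul_apply, Fin.sum_univ_two]
  linear_combination (-((v⁻¹ : Rˣ) : R) * r) * v.mul_inv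

lemma conj12 (v : Rˣ) (r : R) : dg v * e12 r * (dg v)⁻¹ = e12 ((v : R) ^ 2 * r) := by
  rw [dg_e12, mul_inv_cancel_right]

lemma conj21 (v : Rˣ) (r : R) : dg v * e21 r * (dg v)⁻¹ = e21 (((v⁻¹ : Rˣ) : R) ^ 2 * r) := by
  rw [dg_e21, mul_inv_cancel_right]

def wy : SL(2, R) := e12 1 * e21 (-1) * e12 1

lemma wy_e12 (r : R) : wy * e12 r = e21 (-r) * wy := by
  ext i j; fin_cases i <;> fin_cases j <;>
    simp [wy, e12, e21, Matrix.mul_apply, Fin.sum_univ_two]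

lemma dg_eq (v : Rˣ) : dg v * wy = e12 (v : R) * e21 (-((v⁻¹ : Rˣ) : R)) * e12 (v : R) := by
  ext i j; fin_cases i <;> fin_cases j <;>
    simp [wy, dg, e12, e21, Matrix.mul_apply, Fin.sum_univ_two]

section Normal

variable {G N : Subgroup SL(2, R)} (hN : ∀ g ∈ G, ∀ n ∈ N, g * n * g⁻¹ ∈ N)

def I (N : Subgroup SL(2, R)) : AddSubgroup R where
  carrier := {r | e12 r ∈ N}
  zero_mem' := by change e12 0 ∈ N; rw [e12_zero]; exact N.one_mem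
  add_mem' := fun {a b} ha hb => by
    change e12 (a + b) ∈ N; rw [← e12_add]; exact N.mul_mem ha hb
  neg_mem' := fun {a} ha => by
    change e12 (-a) ∈ N; rw [← e12_inv]; exact N.inv_mem ha

def M (N : Subgroup SL(2, R)) : Subring R where
  carrier := {r | ∀ s ∈ I N, r * s ∈ I N}
  zero_mem' := fun s _ => by rw [zero_mul]; exact (I N).zero_mem
  one_mem' := fun s hs => by rwa [one_mul]
  add_mem' := fun {a b} ha hb s hs => by rw [add_mul]; exact (I N).add_mem (ha s hs) (hb s hs)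
  neg_mem' := fun {a} ha s hs => by rw [neg_mul]; exact (I N).neg_mem (ha s hs)
  mul_mem' := fun {a b} ha hb s hs => by rw [mul_assoc]; exact ha _ (hb s hs)

include hN

lemma sq_mem {v : Rˣ} (hv : dg v ∈ G) : (v : R) ^ 2 ∈ M N := fun s hs => by
  change e12 _ ∈ N
  rw [← conj12]; exact hN _ hv _ hs

lemma e21_iff (hw : (wy : SL(2, R)) ∈ G) (r : R) : e21 r ∈ N ↔ r ∈ I N := by
  constructor
  · intro h
    have h1 := hN _ (G.inv_mem hw) _ h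
    have h2 : wy⁻¹ * e21 r * wy⁻¹⁻¹ = e12 (-r) := by
      rw [inv_inv, mul_assoc, inv_mul_eq_iff_eq_mul, wy_e12, neg_neg]
    rw [h2] at h1
    exact (neg_mem_iff (H := I N)).1 h1
  · intro h
    have h1 := hN _ hw _ ((I N).neg_mem h)
    rwa [wy_e12, neg_neg, mul_inv_cancel_right] at h1

lemma dg_mem (hw : (wy : SL(2, R)) ∈ G) (h1 : (1 : R) ∈ I N) {v : Rˣ} (hv : (v : R) ∈ I N)
    (hv' : ((v⁻¹ : Rˣ) : R) ∈ I N) : dg v ∈ N := by
  have a1 : (wy : SL(2, R)) ∈ N :=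
    N.mul_mem (N.mul_mem h1 ((e21_iff hN hw _).2 ((I N).neg_mem h1))) h1
  have a2 : dg v * wy ∈ N := by
    rw [dg_eq]
    exact N.mul_mem (N.mul_mem hv ((e21_iff hN hw _).2 ((I N).neg_mem hv'))) hv
  exact (Subgroup.mul_mem_cancel_right N a1).1 a2

lemma extract (hw : (wy : SL(2, R)) ∈ G) (t : Rˣ) (ht : (t : R) = 2) (htG : dg t ∈ G)
    (c : R) (hc : c ∈ M N) (hc1 : 45 * c = 1)
    (l m : R) (a : Rˣ) (hm : e12 m ∈ G) (ha : dg a ∈ G)
    (hl : e21 ((a : R) ^ 2 * ((((t⁻¹ : Rˣ) : R) ^ 2 - 1) * l)) ∈ G)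
    (h1 : e12 (1 : R) ∈ G)
    (hg : e21 l * dg a * e12 m ∈ N) : l ∈ I N ∧ m ∈ I N ∧ (a : R) ^ 2 - 1 ∈ I N := by
  have tt : ((t⁻¹ : Rˣ) : R) * 2 = 1 := by rw [← ht]; exact t.inv_mul
  let P : AddSubgroup (R × R) := AddSubgroup.ofSub
    {p | e21 p.1 ∈ G ∧ e21 p.1 * e12 p.2 ∈ N}
    ⟨0, by simp [e21_zero, e12_zero]⟩ (by
      rintro p ⟨hp1, hp2⟩ q ⟨hq1, hq2⟩
      refine ⟨?_, ?_⟩
      · change e21 (p.1 + -q.1) ∈ G
        rw [← e21_add, ← e21_inv]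
        exact G.mul_mem hp1 (G.inv_mem hq1)
      · have h := hN _ (G.inv_mem hq1) _ (N.mul_mem hp2 (N.inv_mem hq2))
        change e21 (p.1 + -q.1) * e12 (p.2 + -q.2) ∈ N
        rw [add_comm p.1, ← e21_add, ← e21_inv, ← e12_add, ← e12_inv]
        convert h using 1
        group)
  have Pc : ∀ v : Rˣ, dg v ∈ G → ∀ x y : R, (x, y) ∈ P →
      (((v⁻¹ : Rˣ) : R) ^ 2 * x, (v : R) ^ 2 * y) ∈ P := by
    rintro v hv x y ⟨h1, h2⟩
    refine ⟨?_, ?_⟩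
    · change e21 _ ∈ G
      rw [← conj21]
      exact G.mul_mem (G.mul_mem hv h1) (G.inv_mem hv)
    · change e21 _ * e12 _ ∈ N
      rw [← conj21, ← conj12]
      convert hN _ hv _ h2 using 1
      group
  set lam := (a : R) ^ 2 * ((((t⁻¹ : Rˣ) : R) ^ 2 - 1) * l) with hlam
  have p0 : (lam, 3 * m) ∈ P := by
    refine ⟨hl, ?_⟩
    have h2 := hN _ hm _ (N.mul_mem (N.inv_mem hg) (hN _ htG _ hg))
    have e1 : dg t * (e21 l * dg a * e12 m) * (dg t)⁻¹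
        = e21 (((t⁻¹ : Rˣ) : R) ^ 2 * l) * dg a * e12 ((t : R) ^ 2 * m) := by
      rw [← conj21, ← conj12]
      have : dg a = dg t * dg a * (dg t)⁻¹ := by
        rw [dg_inv, dg_mul, dg_mul, mul_comm t a, mul_inv_cancel_right]
      conv_rhs => rw [this]
      group
    have e2 : e21 lam = (dg a)⁻¹ * ((e21 l)⁻¹ * e21 (((t⁻¹ : Rˣ) : R) ^ 2 * l)) * dg a := by
      have := conj21 a⁻¹ (-l + ((t⁻¹ : Rˣ) : R) ^ 2 * l)
      rw [← dg_inv, inv_inv, inv_inv] at this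
      rw [e21_inv, e21_add, this, hlam]
      congr 1; ring
    have e3 : e12 (3 * m) = e12 ((t : R) ^ 2 * m) * (e12 m)⁻¹ := by
      rw [e12_inv, e12_add, ht]; congr 1; ring
    change e21 lam * e12 (3 * m) ∈ N
    rw [e1] at h2
    rw [e2, e3]
    convert h2 using 1
    group
  have p1 := P.sub_mem (P.nsmul_mem (Pc t htG _ _ p0) 4) p0
  have p2 := P.sub_mem (P.nsmul_mem (Pc t⁻¹ (by rw [← dg_inv]; exact G.inv_mem htG) _ _ p0) 4) p0
  have q1 : 4 • (((t⁻¹ : Rˣ) : R) ^ 2 * lam, (t : R) ^ 2 * (3 * m)) - (lam, 3 * m)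
      = (0, 45 * m) := by
    ext
    · simp only [Prod.smul_mk, Prod.mk_sub_mk, nsmul_eq_mul]
      push_cast
      linear_combination (lam * (((t⁻¹ : Rˣ) : R) * 2 + 1)) * tt
    · simp only [Prod.smul_mk, Prod.mk_sub_mk, nsmul_eq_mul, ht]
      push_cast
      ring
  have q2 : 4 • (((t⁻¹⁻¹ : Rˣ) : R) ^ 2 * lam, ((t⁻¹ : Rˣ) : R) ^ 2 * (3 * m)) - (lam, 3 * m)
      = (15 * lam, 0) := by
    ext
    · simp only [Prod.smul_mk, Prod.mk_sub_mk, nsmul_eq_mul, inv_inv, ht]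
      push_cast
      ring
    · simp only [Prod.smul_mk, Prod.mk_sub_mk, nsmul_eq_mul]
      push_cast
      linear_combination (3 * m * (((t⁻¹ : Rˣ) : R) * 2 + 1)) * tt
  rw [q1] at p1
  rw [q2] at p2
  have r1 : 45 * m ∈ I N := by
    have := p1.2
    simp only [e21_zero, one_mul] at this
    exact this
  have r2 : 15 * lam ∈ I N := by
    have := p2.2
    simp only [e12_zero, mul_one] at this
    exact (e21_iff hN hw _).1 this
  have s1 : m ∈ I N := by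
    have := hc _ r1
    rwa [← mul_assoc, mul_comm c, hc1, one_mul] at this
  have s2 : l ∈ I N := by
    have a1 := sq_mem hN (v := a⁻¹) (by rw [← dg_inv]; exact G.inv_mem ha)
    have a2 := (I N).nsmul_mem (hc _ (a1 _ r2)) 4
    have a3 : 4 • (c * (((a⁻¹ : Rˣ) : R) ^ 2 * (15 * lam))) = -l := by
      have aa : ((a⁻¹ : Rˣ) : R) * a = 1 := a.inv_mul
      rw [hlam, nsmul_eq_mul]
      push_cast
      have b1 : ((a⁻¹ : Rˣ) : R) ^ 2 * (a : R) ^ 2 = 1 := by rw [← mul_pow, aa, one_pow]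
      have b2 : 4 * ((t⁻¹ : Rˣ) : R) ^ 2 = 1 := by
        linear_combination (((t⁻¹ : Rˣ) : R) * 2 + 1) * tt
      linear_combination (60 * c * ((((t⁻¹ : Rˣ) : R) ^ 2 - 1) * l)) * b1
        + (15 * c * l) * b2 - l * hc1
    rw [a3] at a2
    exact (neg_mem_iff (H := I N)).1 a2
  refine ⟨s2, s1, ?_⟩
  have d1 : dg a ∈ N := by
    have := N.mul_mem (N.mul_mem (N.inv_mem ((e21_iff hN hw _).2 s2)) hg) (N.inv_mem s1)
    convert this using 1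
    group
  have d2 := N.mul_mem d1 (hN _ h1 _ (N.inv_mem d1))
  have d3 : dg a * (e12 1 * (dg a)⁻¹ * (e12 1)⁻¹) = e12 ((a : R) ^ 2 - 1) := by
    rw [← mul_assoc, ← mul_assoc, conj12, e12_inv, e12_add, mul_one, sub_eq_add_neg]
  rw [d3] at d2
  exact d2

end Normal

section Data

variable (c2 c3 c5 : Rˣ) (p q : Fin 6 → Rˣ)

def gens : Set SL(2, R) :=
  {e12 1, e21 1, dg c2, dg c3, dg c5} ∪ Set.range (fun i => dg (p i)) ∪ Set.range fun i => dg (q i)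

lemma gens_finite : (gens c2 c3 c5 p q).Finite :=
  ((Set.toFinite _).union (Set.finite_range _)).union (Set.finite_range _)

def GG : Subgroup SL(2, R) := Subgroup.closure (gens c2 c3 c5 p q)

variable {c2 c3 c5 p q}

lemma m1 : e12 1 ∈ GG c2 c3 c5 p q := Subgroup.subset_closure (by simp [gens])
lemma m2 : e21 1 ∈ GG c2 c3 c5 p q := Subgroup.subset_closure (by simp [gens])
lemma m3 : dg c2 ∈ GG c2 c3 c5 p q := Subgroup.subset_closure (by simp [gens])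
lemma m4 : dg c3 ∈ GG c2 c3 c5 p q := Subgroup.subset_closure (by simp [gens])
lemma m5 : dg c5 ∈ GG c2 c3 c5 p q := Subgroup.subset_closure (by simp [gens])
lemma m6 (i : Fin 6) : dg (p i) ∈ GG c2 c3 c5 p q :=
  Subgroup.subset_closure (Or.inl (Or.inr ⟨i, rfl⟩))
lemma m7 (i : Fin 6) : dg (q i) ∈ GG c2 c3 c5 p q := Subgroup.subset_closure (Or.inr ⟨i, rfl⟩)
lemma mw : wy ∈ GG c2 c3 c5 p q :=
  Subgroup.mul_mem _ (Subgroup.mul_mem _ m1 (by rw [← e21_inv]; exact Subgroup.inv_mem _ m2)) m1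

structure Dat (c2 c3 c5 : Rˣ) (p q : Fin 6 → Rˣ) (x : Fin 6 → R) : Prop where
  h2 : (c2 : R) = 2
  h3 : (c3 : R) = 3
  h5 : (c5 : R) = 5
  hp : ∀ i, (p i : R) = 2 + x i
  hq : ∀ i, (q i : R) = 2 - x i

variable {x : Fin 6 → R} (hd : Dat c2 c3 c5 p q x) {N : Subgroup SL(2, R)}
  (hN : ∀ g ∈ GG c2 c3 c5 p q, ∀ n ∈ N, g * n * g⁻¹ ∈ N)

include hN

lemma inv_M {v : Rˣ} (hv : dg v ∈ GG c2 c3 c5 p q) (h : (v : R) ∈ M N) :
    ((v⁻¹ : Rˣ) : R) ∈ M N := by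
  have a1 := sq_mem hN (v := v⁻¹) (by rw [← dg_inv]; exact Subgroup.inv_mem _ hv)
  have a2 := (M N).mul_mem h a1
  have : (v : R) * ((v⁻¹ : Rˣ) : R) ^ 2 = ((v⁻¹ : Rˣ) : R) := by
    rw [pow_two, ← mul_assoc, v.mul_inv, one_mul]
  rwa [this] at a2

include hd

omit hN in
lemma c2_M : (c2 : R) ∈ M N := by rw [hd.h2]; exact ofNat_mem _ 2
omit hN in
lemma c3_M : (c3 : R) ∈ M N := by rw [hd.h3]; exact ofNat_mem _ 3
omit hN in
lemma c5_M : (c5 : R) ∈ M N := by rw [hd.h5]; exact ofNat_mem _ 5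

lemma x_M (i : Fin 6) : x i ∈ M N := by
  have a1 := (M N).sub_mem (sq_mem hN (m6 i)) (sq_mem hN (m7 i))
  have a2 := (M N).mul_mem ((M N).pow_mem (inv_M hN m3 (c2_M hd)) 3) a1
  have tt : ((c2⁻¹ : Rˣ) : R) * 2 = 1 := by rw [← hd.h2]; exact c2.inv_mul
  have : ((c2⁻¹ : Rˣ) : R) ^ 3 * ((p i : R) ^ 2 - (q i : R) ^ 2) = x i := by
    rw [hd.hp, hd.hq]
    linear_combination (x i * (4 * ((c2⁻¹ : Rˣ) : R) ^ 2 + 2 * ((c2⁻¹ : Rˣ) : R) + 1)) * tt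
  rwa [this] at a2

lemma p_M (i : Fin 6) : (p i : R) ∈ M N := by
  rw [hd.hp]; exact (M N).add_mem (ofNat_mem _ 2) (x_M hd hN i)

lemma q_M (i : Fin 6) : (q i : R) ∈ M N := by
  rw [hd.hq]; exact (M N).sub_mem (ofNat_mem _ 2) (x_M hd hN i)

lemma all_of_one (h1 : (1 : R) ∈ I N) : GG c2 c3 c5 p q ≤ N := by
  have key : ∀ v : Rˣ, dg v ∈ GG c2 c3 c5 p q → (v : R) ∈ M N → dg v ∈ N := by
    intro v hv h
    refine dg_mem hN mw h1 ?_ ?_
    · simpa using h 1 h1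
    · simpa using inv_M hN hv h 1 h1
  rw [GG, Subgroup.closure_le]
  rintro g ((hg | ⟨i, rfl⟩) | ⟨i, rfl⟩)
  · simp only [Set.mem_insert_iff, Set.mem_singleton_iff] at hg
    rcases hg with rfl | rfl | rfl | rfl | rfl
    · exact h1
    · exact (e21_iff hN mw _).2 h1
    · exact key _ m3 (c2_M hd)
    · exact key _ m4 (c3_M hd)
    · exact key _ m5 (c5_M hd)
  · exact key _ (m6 i) (p_M hd hN i)
  · exact key _ (m7 i) (q_M hd hN i)

omit hN hd in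
lemma GG_norm : ∀ g ∈ GG c2 c3 c5 p q, ∀ n ∈ GG c2 c3 c5 p q, g * n * g⁻¹ ∈ GG c2 c3 c5 p q :=
  fun _ hg _ hn => Subgroup.mul_mem _ (Subgroup.mul_mem _ hg hn) (Subgroup.inv_mem _ hg)

omit hN hd in
lemma e12_G {r : R} (h : r ∈ M (GG c2 c3 c5 p q)) : e12 r ∈ GG c2 c3 c5 p q := by
  have := h 1 m1
  rwa [mul_one] at this

omit hN hd in
lemma e21_G {r : R} (h : r ∈ M (GG c2 c3 c5 p q)) : e21 r ∈ GG c2 c3 c5 p q :=
  (e21_iff GG_norm mw r).2 (e12_G h)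

omit hN hd in
def uu (p q : Fin 6 → Rˣ) (x : Fin 6 → R) (i j k : Fin 6) : SL(2, R) :=
  e21 (x i) * dg (p k * (q k)⁻¹) * e12 (x j)

omit hN hd in
lemma a_G (k : Fin 6) : dg (p k * (q k)⁻¹) ∈ GG c2 c3 c5 p q := by
  rw [← dg_mul, ← dg_inv]
  exact Subgroup.mul_mem _ (m6 k) (Subgroup.inv_mem _ (m7 k))

omit hN in
lemma uu_G (i j k : Fin 6) : uu p q x i j k ∈ GG c2 c3 c5 p q :=
  Subgroup.mul_mem _ (Subgroup.mul_mem _ (e21_G (x_M hd GG_norm i)) (a_G k))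
    (e12_G (x_M hd GG_norm j))

lemma uu_extract (i j k : Fin 6) (h : uu p q x i j k ∈ N) :
    x i ∈ I N ∧ x j ∈ I N ∧ x k ∈ I N := by
  have t2 : ((c2⁻¹ : Rˣ) : R) * 2 = 1 := by rw [← hd.h2]; exact c2.inv_mul
  have t3 : ((c3⁻¹ : Rˣ) : R) * 3 = 1 := by rw [← hd.h3]; exact c3.inv_mul
  have t5 : ((c5⁻¹ : Rˣ) : R) * 5 = 1 := by rw [← hd.h5]; exact c5.inv_mul
  have := extract hN mw c2 hd.h2 m3 (((c3⁻¹ : Rˣ) : R) ^ 2 * ((c5⁻¹ : Rˣ) : R))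
    ((M N).mul_mem ((M N).pow_mem (inv_M hN m4 (c3_M hd)) 2) (inv_M hN m5 (c5_M hd)))
    (by linear_combination (((c3⁻¹ : Rˣ) : R) * 3 + 1) * (((c5⁻¹ : Rˣ) : R) * 5) * t3 + t5)
    (x i) (x j) (p k * (q k)⁻¹) (e12_G (x_M hd GG_norm j)) (a_G k)
    (e21_G (Subring.mul_mem _ (sq_mem GG_norm (a_G k)) (Subring.mul_mem _
      (Subring.sub_mem _ (Subring.pow_mem _ (inv_M GG_norm m3 (c2_M hd)) 2) (Subring.one_mem _))
      (x_M hd GG_norm i)))) m1 h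
  refine ⟨this.1, this.2.1, ?_⟩
  have a1 := ((M N).mul_mem ((M N).pow_mem (inv_M hN m3 (c2_M hd)) 3)
    ((M N).pow_mem (q_M hd hN k) 2)) _ this.2.2
  have e : ((c2⁻¹ : Rˣ) : R) ^ 3 * (q k : R) ^ 2 * (((p k * (q k)⁻¹ : Rˣ) : R) ^ 2 - 1) = x k := by
    have qq : (q k : R) * (((q k)⁻¹ : Rˣ) : R) = 1 := (q k).mul_inv
    have b1 : (q k : R) ^ 2 * (((q k)⁻¹ : Rˣ) : R) ^ 2 = 1 := by rw [← mul_pow, qq, one_pow]
    have b2 : (p k : R) ^ 2 - (q k : R) ^ 2 = 8 * x k := by rw [hd.hp, hd.hq]; ring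
    rw [Units.val_mul]
    linear_combination (((c2⁻¹ : Rˣ) : R) ^ 3 * (p k : R) ^ 2) * b1 + ((c2⁻¹ : Rˣ) : R) ^ 3 * b2
      + (x k * (4 * ((c2⁻¹ : Rˣ) : R) ^ 2 + 2 * ((c2⁻¹ : Rˣ) : R) + 1)) * t2
  rwa [e] at a1

lemma all_of_uu (hx : ∑ i, x i ^ 2 = 1) (h1 : uu p q x 0 1 2 ∈ N) (h2 : uu p q x 3 4 5 ∈ N) :
    GG c2 c3 c5 p q ≤ N := by
  obtain ⟨a0, a1, a2⟩ := uu_extract hd hN _ _ _ h1
  obtain ⟨a3, a4, a5⟩ := uu_extract hd hN _ _ _ h2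
  refine all_of_one hd hN ?_
  rw [← hx]
  refine (I N).sum_mem fun i _ => ?_
  rw [pow_two]
  refine x_M hd hN i _ ?_
  fin_cases i
  exacts [a0, a1, a2, a3, a4, a5]

end Data

end H4SL2
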