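import Mathlib

set_option autoImplicit false

open Filter Topology OnePoint Matrix

namespace Pool.Agent.Lib.helper4.Sharp3

section Moeb

variable {K : Type} [Field K] [DecidableEq K]

/-- inversion on the projective line -/
def J (x : OnePoint K) : OnePoint K := x.elim ((0 : K) : OnePoint K) fun k => if k = 0 then ∞ else ((k⁻¹ : K) : OnePoint K)

lemma exists_three (x y z : OnePoint K) (hxy : x ≠ y) (hxz : x ≠ z) (hyz : y ≠ z) :
    ∃ g : GL (Fin 2) K, g • (∞ : OnePoint K) = x ∧ g • ((0 : K) : OnePoint K) = y ∧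
      g • ((1 : K) : OnePoint K) = z := by
  cases x with
  | infty =>
    cases y with
    | infty => exact absurd rfl hxy
    | coe b =>
      cases z with
      | infty => exact absurd rfl hxz
      | coe c =>
        have h : c - b ≠ 0 := sub_ne_zero.mpr fun h => hyz (by rw [h])
        refine ⟨GeneralLinearGroup.mkOfDetNeZero !![c - b, b; 0, 1] (by simpa [det_fin_two] using h), ?_, ?_, ?_⟩ <;>
          simp [smul_infty_eq_ite, smul_some_eq_ite]
  | coe a =>
    cases y with
    | infty =>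
      cases z with
      | infty => exact absurd rfl hyz
      | coe c =>
        have h : c - a ≠ 0 := sub_ne_zero.mpr fun h => hxz (by rw [h])
        refine ⟨GeneralLinearGroup.mkOfDetNeZero !![a, c - a; 1, 0] (by
          rw [det_fin_two]; simp only [of_apply, cons_val', cons_val_zero, cons_val_one, cons_val_fin_one]
          intro h'; apply h; linear_combination -h'), ?_, ?_, ?_⟩ <;>
          simp [smul_infty_eq_ite, smul_some_eq_ite]
    | coe b =>
      have hab : a - b ≠ 0 := sub_ne_zero.mpr fun h => hxy (by rw [h])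
      cases z with
      | infty =>
        refine ⟨GeneralLinearGroup.mkOfDetNeZero !![a, -b; 1, -1] (by
          rw [det_fin_two]; simp only [of_apply, cons_val', cons_val_zero, cons_val_one, cons_val_fin_one]
          intro h; apply hab; linear_combination -h), ?_, ?_, ?_⟩ <;>
          simp [smul_infty_eq_ite, smul_some_eq_ite]
      | coe c =>
        have h1 : c - b ≠ 0 := sub_ne_zero.mpr fun h => hyz (by rw [h])
        have h2 : a - c ≠ 0 := sub_ne_zero.mpr fun h => hxz (by rw [h])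
        refine ⟨GeneralLinearGroup.mkOfDetNeZero !![(c - b) * a, (a - c) * b; c - b, a - c] (by
          rw [det_fin_two]; simp only [of_apply, cons_val', cons_val_zero, cons_val_one, cons_val_fin_one]
          intro h; apply mul_ne_zero (mul_ne_zero h1 h2) hab; linear_combination h), ?_, ?_, ?_⟩
        · simp [smul_infty_eq_ite, h1]
        · simp [smul_some_eq_ite, h2]
        · have h3 : c - b + (a - c) ≠ 0 := by intro h; apply hab; linear_combination h
          simp only [smul_some_eq_ite, GeneralLinearGroup.mkOfDetNeZero, GeneralLinearGroup.mk',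
            unitOfDetInvertible, unitOfInvertible, of_apply, cons_val', cons_val_zero, cons_val_one,
            cons_val_fin_one, mul_one, h3, if_false, OnePoint.coe_eq_coe]
          field_simp
          ring

lemma fix_three (g : GL (Fin 2) K) (h1 : g • (∞ : OnePoint K) = ∞)
    (h2 : g • ((0 : K) : OnePoint K) = (0 : K)) (h3 : g • ((1 : K) : OnePoint K) = (1 : K)) :
    (∀ x : OnePoint K, g • x = x) ∧ ∃ u : Kˣ, GeneralLinearGroup.det g = u * u := by
  have hc : g 1 0 = 0 := smul_infty_eq_self_iff.mp h1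
  have hdet := g.det_ne_zero
  rw [det_fin_two] at hdet
  have hd : g 1 1 ≠ 0 := by
    intro h; apply hdet
    show g 0 0 * g 1 1 - g 0 1 * g 1 0 = 0
    rw [h, hc]; ring
  have hb : g 0 1 = 0 := by
    rw [smul_some_eq_ite] at h2
    simpa [hc, hd] using h2
  have ha : g 0 0 = g 1 1 := by
    rw [smul_some_eq_ite] at h3
    simp only [hc, hb, zero_add, hd, if_false, mul_one, add_zero, OnePoint.coe_eq_coe] at h3
    field_simp at h3
    exact h3
  refine ⟨fun x => ?_, Units.mk0 (g 1 1) hd, ?_⟩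
  · cases x with
    | infty => exact h1
    | coe k => rw [smul_some_eq_ite]; simp [hc, hb, ha, hd]
  · ext
    simp [det_fin_two, hc, ha]

variable [TopologicalSpace K] [IsTopologicalDivisionRing K] [T2Space K]

omit [DecidableEq K] [T2Space K] in
lemma cont_aff (a b : K) (ha : a ≠ 0) : Continuous (OnePoint.map fun k : K => a * k + b) :=
  ((Homeomorph.mulLeft₀ a ha).trans (Homeomorph.addRight b)).onePointCongr.continuous

lemma cont_J (h1 : Tendsto (fun k : K => k⁻¹) (cocompact K) (𝓝 0))
    (h2 : Tendsto (fun k : K => k⁻¹) (𝓝[≠] 0) (cocompact K)) : Continuous (J (K := K)) := by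
  rw [OnePoint.continuous_iff]
  constructor
  · rw [coclosedCompact_eq_cocompact]
    have h3 : Tendsto (fun k : K => ((k⁻¹ : K) : OnePoint K)) (cocompact K) (𝓝 ((0 : K) : OnePoint K)) :=
      (OnePoint.continuous_coe.tendsto _).comp h1
    refine h3.congr' ?_
    filter_upwards [(isCompact_singleton (x := (0 : K))).compl_mem_cocompact] with k hk
    have hk' : k ≠ 0 := hk
    simp [J, hk']
  · rw [continuous_iff_continuousAt]
    intro k
    by_cases hk : k = 0
    · subst hk
      rw [← continuousWithinAt_compl_self]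
      have h3 : Tendsto (fun k : K => ((k⁻¹ : K) : OnePoint K)) (𝓝[≠] 0) (𝓝 ∞) := by
        refine OnePoint.tendsto_coe_infty.comp ?_
        rw [coclosedCompact_eq_cocompact]; exact h2
      have e : J ((0 : K) : OnePoint K) = ∞ := by simp [J]
      show Tendsto _ _ (𝓝 (J ((0 : K) : OnePoint K)))
      rw [e]
      refine h3.congr' ?_
      filter_upwards [self_mem_nhdsWithin] with k hk
      have hk' : k ≠ 0 := hk
      simp [J, hk']
    · have h3 : ContinuousAt (fun k : K => ((k⁻¹ : K) : OnePoint K)) k :=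
        OnePoint.continuous_coe.continuousAt.comp (continuousAt_inv₀ hk)
      refine h3.congr ?_
      filter_upwards [isOpen_ne.mem_nhds hk] with k hk
      simp [J, hk]

omit [T2Space K] in
lemma cont_smul (hJ : Continuous (J (K := K))) (g : GL (Fin 2) K) :
    Continuous fun x : OnePoint K => g • x := by
  have hdet := g.det_ne_zero
  rw [det_fin_two] at hdet
  change g 0 0 * g 1 1 - g 0 1 * g 1 0 ≠ 0 at hdet
  by_cases hc : g 1 0 = 0
  · have hd : g 1 1 ≠ 0 := by intro h; apply hdet; rw [h, hc]; ring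
    have ha : g 0 0 ≠ 0 := by intro h; apply hdet; rw [h, hc]; ring
    have := cont_aff (g 0 0 / g 1 1) (g 0 1 / g 1 1) (div_ne_zero ha hd)
    refine this.congr fun x => ?_
    cases x with
    | infty => simp [smul_infty_eq_ite, hc]
    | coe k =>
      rw [smul_some_eq_ite]
      simp only [OnePoint.map_some, hc, zero_mul, zero_add, hd, if_false, OnePoint.coe_eq_coe]
      field_simp
  · have := (cont_aff (-(g 0 0 * g 1 1 - g 0 1 * g 1 0) / g 1 0) (g 0 0 / g 1 0)
      (div_ne_zero (neg_ne_zero.mpr hdet) hc)).comp (hJ.comp (cont_aff (g 1 0) (g 1 1) hc))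
    refine this.congr fun x => ?_
    cases x with
    | infty => simp [smul_infty_eq_ite, hc, J]
    | coe k =>
      rw [smul_some_eq_ite]
      by_cases hk : g 1 0 * k + g 1 1 = 0
      · simp [J, hk]
      · simp only [Function.comp, OnePoint.map_some, J, OnePoint.elim_some, hk, if_false,
          OnePoint.coe_eq_coe]
        field_simp
        ring

end Moeb

section Twist

variable {K : Type} [Field K] [DecidableEq K] {H : Type} [CommGroup H] [DecidableEq H]

/-- the permutation of the projective line induced by an involution of the field -/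
def S (σ : K →+* K) (hσ : ∀ x, σ (σ x) = x) : Equiv.Perm (OnePoint K) where
  toFun := OnePoint.map σ
  invFun := OnePoint.map σ
  left_inv x := by cases x <;> simp [hσ]
  right_inv x := by cases x <;> simp [hσ]

/-- Moebius permutations -/
abbrev T (g : GL (Fin 2) K) : Equiv.Perm (OnePoint K) := MulAction.toPermHom (GL (Fin 2) K) (OnePoint K) g

/-- twisted Moebius permutations -/
def tw (σ : K →+* K) (hσ : ∀ x, σ (σ x) = x) (χ : Kˣ →* H) (g : GL (Fin 2) K) :
    Equiv.Perm (OnePoint K) :=
  if χ (GeneralLinearGroup.det g) = 1 then T g else T g * S σ hσ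

variable (σ : K →+* K) (hσ : ∀ x, σ (σ x) = x) (χ : Kˣ →* H)

omit [DecidableEq K] in
lemma S_S : S σ hσ * S σ hσ = 1 := by
  ext x; cases x <;> simp [S, hσ]

lemma S_T (g : GL (Fin 2) K) : S σ hσ * T g = T (g.map σ) * S σ hσ := by
  ext x
  exact OnePoint.map_smul σ g x

omit [DecidableEq K] [DecidableEq H] in
lemma e_map (hχ : ∀ u : Kˣ, χ (Units.map (σ : K →* K) u) = χ u) (g : GL (Fin 2) K) :
    χ (GeneralLinearGroup.det (g.map σ)) = χ (GeneralLinearGroup.det g) := by
  rw [← hχ (GeneralLinearGroup.det g)]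
  congr 1
  ext
  simp [det_fin_two]

lemma tw_mul (hχ : ∀ u : Kˣ, χ (Units.map (σ : K →* K) u) = χ u)
    (hH : ∀ a b : H, a ≠ 1 → b ≠ 1 → a * b = 1) (g h : GL (Fin 2) K) :
    tw σ hσ χ g * tw σ hσ χ h
      = tw σ hσ χ (g * if χ (GeneralLinearGroup.det g) = 1 then h else h.map σ) := by
  by_cases hg : χ (GeneralLinearGroup.det g) = 1 <;>
    by_cases hh : χ (GeneralLinearGroup.det h) = 1
  · simp only [tw, hg, hh, if_true, map_mul, mul_one]
  · simp only [tw, hg, hh, if_true, if_false, map_mul, one_mul, mul_assoc]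
  · simp only [tw, hg, hh, if_true, if_false, map_mul, e_map σ χ hχ, mul_one, mul_assoc, S_T]
  · have := hH _ _ hg hh
    simp only [tw, hg, hh, if_true, if_false, map_mul, e_map σ χ hχ, this]
    rw [mul_assoc, ← mul_assoc (S σ hσ), S_T, mul_assoc, S_S, mul_one]

lemma tw_one : tw σ hσ χ 1 = 1 := by simp only [tw, map_one, if_true]

/-- the twisted group -/
def GG (hχ : ∀ u : Kˣ, χ (Units.map (σ : K →* K) u) = χ u)
    (hH : ∀ a b : H, a ≠ 1 → b ≠ 1 → a * b = 1) : Subgroup (Equiv.Perm (OnePoint K)) where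
  carrier := Set.range (tw σ hσ χ)
  one_mem' := ⟨1, tw_one σ hσ χ⟩
  mul_mem' := by
    rintro _ _ ⟨g, rfl⟩ ⟨h, rfl⟩
    exact ⟨_, (tw_mul σ hσ χ hχ hH g h).symm⟩
  inv_mem' := by
    rintro _ ⟨g, rfl⟩
    refine ⟨if χ (GeneralLinearGroup.det g) = 1 then g⁻¹ else g⁻¹.map σ, ?_⟩
    symm
    apply inv_eq_of_mul_eq_one_right
    rw [tw_mul σ hσ χ hχ hH]
    have : ∀ k : GL (Fin 2) K, (k.map σ).map σ = k := by
      intro k; ext i j; simp [hσ]
    by_cases hg : χ (GeneralLinearGroup.det g) = 1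
    · simp only [hg, if_true, mul_inv_cancel, tw_one]
    · simp only [hg, if_false, this, mul_inv_cancel, tw_one]

lemma tw_base (g : GL (Fin 2) K) :
    tw σ hσ χ g ∞ = g • (∞ : OnePoint K) ∧
    tw σ hσ χ g ((0 : K) : OnePoint K) = g • ((0 : K) : OnePoint K) ∧
    tw σ hσ χ g ((1 : K) : OnePoint K) = g • ((1 : K) : OnePoint K) := by
  by_cases hg : χ (GeneralLinearGroup.det g) = 1 <;> simp [tw, hg, S]

lemma tw_uniq (hH : ∀ a b : H, a ≠ 1 → b ≠ 1 → a * b = 1) (g h : GL (Fin 2) K)
    (h1 : tw σ hσ χ g ∞ = tw σ hσ χ h ∞)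
    (h2 : tw σ hσ χ g ((0 : K) : OnePoint K) = tw σ hσ χ h ((0 : K) : OnePoint K))
    (h3 : tw σ hσ χ g ((1 : K) : OnePoint K) = tw σ hσ χ h ((1 : K) : OnePoint K)) :
    tw σ hσ χ g = tw σ hσ χ h := by
  obtain ⟨a1, a2, a3⟩ := tw_base σ hσ χ g
  obtain ⟨b1, b2, b3⟩ := tw_base σ hσ χ h
  rw [a1, b1] at h1; rw [a2, b2] at h2; rw [a3, b3] at h3
  obtain ⟨hf, u, hu⟩ := fix_three (g⁻¹ * h) (by rw [mul_smul, ← h1, inv_smul_smul])
    (by rw [mul_smul, ← h2, inv_smul_smul]) (by rw [mul_smul, ← h3, inv_smul_smul])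
  have e1 : T h = T g := by
    ext x
    have := hf x
    rw [mul_smul, inv_smul_eq_iff] at this
    exact this
  have e2 : χ (GeneralLinearGroup.det h) = χ (GeneralLinearGroup.det g) := by
    have hh : h = g * (g⁻¹ * h) := by group
    have hsq : χ u * χ u = 1 := by
      by_cases hu1 : χ u = 1
      · rw [hu1, mul_one]
      · exact hH _ _ hu1 hu1
    rw [hh, map_mul, hu, map_mul, map_mul, hsq, mul_one]
  simp only [tw, e1, e2]

lemma sharp (hχ : ∀ u : Kˣ, χ (Units.map (σ : K →* K) u) = χ u)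
    (hH : ∀ a b : H, a ≠ 1 → b ≠ 1 → a * b = 1) (x y z x' y' z' : OnePoint K)
    (hxy : x ≠ y) (hxz : x ≠ z) (hyz : y ≠ z) (hxy' : x' ≠ y') (hxz' : x' ≠ z') (hyz' : y' ≠ z') :
    ∃! g : GG σ hσ χ hχ hH, g • x = x' ∧ g • y = y' ∧ g • z = z' := by
  have ex : ∀ x y z : OnePoint K, x ≠ y → x ≠ z → y ≠ z → ∃ g : GG σ hσ χ hχ hH,
      g • (∞ : OnePoint K) = x ∧ g • ((0 : K) : OnePoint K) = y ∧ g • ((1 : K) : OnePoint K) = z := by
    intro x y z h1 h2 h3
    obtain ⟨g, g1, g2, g3⟩ := exists_three x y z h1 h2 h3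
    obtain ⟨a1, a2, a3⟩ := tw_base σ hσ χ g
    exact ⟨⟨tw σ hσ χ g, g, rfl⟩, a1.trans g1, a2.trans g2, a3.trans g3⟩
  obtain ⟨p, p1, p2, p3⟩ := ex x y z hxy hxz hyz
  obtain ⟨q, q1, q2, q3⟩ := ex x' y' z' hxy' hxz' hyz'
  refine ⟨q * p⁻¹, ⟨?_, ?_, ?_⟩, ?_⟩
  · rw [← p1, mul_smul, inv_smul_smul, q1]
  · rw [← p2, mul_smul, inv_smul_smul, q2]
  · rw [← p3, mul_smul, inv_smul_smul, q3]
  · rintro r ⟨r1, r2, r3⟩
    rw [eq_mul_inv_iff_mul_eq]
    obtain ⟨g, hg⟩ := (r * p).2
    obtain ⟨h, hh⟩ := q.2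
    apply Subtype.ext
    rw [← hg, ← hh]
    apply tw_uniq σ hσ χ hH <;> rw [hg, hh]
    · show (r * p) • (∞ : OnePoint K) = q • (∞ : OnePoint K)
      rw [mul_smul, p1, r1, q1]
    · show (r * p) • ((0 : K) : OnePoint K) = q • ((0 : K) : OnePoint K)
      rw [mul_smul, p2, r2, q2]
    · show (r * p) • ((1 : K) : OnePoint K) = q • ((1 : K) : OnePoint K)
      rw [mul_smul, p3, r3, q3]

variable [TopologicalSpace K] [IsTopologicalDivisionRing K] [T2Space K]

omit [T2Space K] in
lemma cont_GG (hχ : ∀ u : Kˣ, χ (Units.map (σ : K →* K) u) = χ u)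
    (hH : ∀ a b : H, a ≠ 1 → b ≠ 1 → a * b = 1) (hJ : Continuous (J (K := K)))
    (hc : Continuous σ) (g : GG σ hσ χ hχ hH) : Continuous fun x : OnePoint K => g • x := by
  obtain ⟨_, g, rfl⟩ := g
  have hS : Continuous (OnePoint.map σ) :=
    (Homeomorph.onePointCongr ⟨⟨σ, σ, hσ, hσ⟩, hc, hc⟩).continuous
  show Continuous fun x => tw σ hσ χ g x
  by_cases hg : χ (GeneralLinearGroup.det g) = 1
  · simp only [tw, hg, if_true]; exact cont_smul hJ g
  · simp only [tw, hg, if_false]; exact (cont_smul hJ g).comp hS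

omit [TopologicalSpace K] [IsTopologicalDivisionRing K] [T2Space K] in
lemma diag_el (hχ : ∀ u : Kˣ, χ (Units.map (σ : K →* K) u) = χ u)
    (hH : ∀ a b : H, a ≠ 1 → b ≠ 1 → a * b = 1) (a : Kˣ) (ha : χ a ≠ 1) :
    ∃ g : GG σ hσ χ hχ hH, g • (∞ : OnePoint K) = ∞ ∧
      ∀ k : K, g • (k : OnePoint K) = ((a * σ k : K) : OnePoint K) := by
  let d : GL (Fin 2) K := GeneralLinearGroup.mkOfDetNeZero !![(a : K), 0; 0, 1] (by simp [det_fin_two])
  have hd : GeneralLinearGroup.det d = a := by ext; simp [d, det_fin_two]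
  refine ⟨⟨tw σ hσ χ d, d, rfl⟩, ?_, fun k => ?_⟩
  · show tw σ hσ χ d ∞ = ∞
    simp [tw, hd, ha, S, smul_infty_eq_ite, d]
  · show tw σ hσ χ d k = _
    simp [tw, hd, ha, S, smul_some_eq_ite, d]

end Twist

section Laurent

open LaurentSeries WithZero

variable {F : Type} [Field F]

/-- balls around zero -/
def B (F : Type) [Field F] (D : ℤ) : Set (LaurentSeries F) := {f | Valued.v f ≤ exp (-D)}

lemma nhds0 {s : Set (LaurentSeries F)} : s ∈ 𝓝 (0 : LaurentSeries F) ↔ ∃ D, B F D ⊆ s := by
  rw [Valued.mem_nhds_zero]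
  constructor
  · rintro ⟨γ, hγ⟩
    refine ⟨-(log (MonoidWithZeroHom.ValueGroup₀.embedding γ.1) - 1), fun f hf => hγ ?_⟩
    have hD : exp (-(-(log (MonoidWithZeroHom.ValueGroup₀.embedding γ.1) - 1)))
        < MonoidWithZeroHom.ValueGroup₀.embedding γ.1 := by
      rw [← lt_log_iff_exp_lt (by simp)]
      simp
    exact Valued.v.restrict_lt_iff_lt_embedding.mpr (lt_of_le_of_lt hf hD)
  · rintro ⟨D, hD⟩
    let x : LaurentSeries F := HahnSeries.single D 1
    have hx : Valued.v x = exp (-D) := valuation_single_zpow F D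
    have hx0 : x ≠ 0 := by
      intro h; rw [h, map_zero] at hx; exact exp_ne_zero hx.symm
    have h0 : Valued.v.restrict x ≠ 0 := by simp [hx0]
    refine ⟨Units.mk0 _ h0, fun f hf => hD ?_⟩
    have : Valued.v f < Valued.v x := Valued.v.restrict_lt_iff.mp hf
    rw [hx] at this
    exact this.le

lemma B_nhds (D : ℤ) : B F D ∈ 𝓝 (0 : LaurentSeries F) := nhds0.mpr ⟨D, subset_rfl⟩

lemma tendsto_of {α : Type} {l : Filter α} {f : α → LaurentSeries F} {x : LaurentSeries F}
    (h : ∀ D, ∀ᶠ a in l, f a - x ∈ B F D) : Tendsto f l (𝓝 x) := by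
  rw [← tendsto_sub_nhds_zero_iff]
  intro s hs
  obtain ⟨D, hD⟩ := nhds0.mp hs
  exact mem_map.mpr ((h D).mono fun a ha => hD ha)

lemma B_open (D : ℤ) : IsOpen (B F D) := by
  exact (Valuation.leAddSubgroup (Valued.v : Valuation (LaurentSeries F) _) (exp (-D))).isOpen_of_mem_nhds
    (B_nhds D)

lemma B_compact [Finite F] (D : ℤ) : IsCompact (B F D) := by
  let _ : TopologicalSpace F := ⊥
  have : DiscreteTopology F := ⟨rfl⟩
  let Φ : (ℕ → F) → LaurentSeries F := fun a => ((PowerSeries.mk a : PowerSeries F) : LaurentSeries F)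
  have hΦ : Continuous Φ := by
    rw [continuous_iff_continuousAt]
    intro a
    refine tendsto_of fun E => ?_
    have h1 : ∀ᶠ b in 𝓝 a, ∀ n ∈ Finset.range E.toNat, b n = a n := by
      rw [eventually_all_finset]
      intro n _
      exact ((continuous_apply n).tendsto a) ((isOpen_discrete {a n}).mem_nhds rfl)
    filter_upwards [h1] with b hb
    have h2 : Valued.v (((PowerSeries.mk b - PowerSeries.mk a : PowerSeries F)) : LaurentSeries F)
        ≤ exp (-(E.toNat : ℤ)) := by
      rw [intValuation_le_iff_coeff_lt_eq_zero]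
      intro n hn
      simp [hb n (Finset.mem_range.mpr hn)]
    rw [PowerSeries.coe_sub] at h2
    refine h2.trans ?_
    rw [exp_le_exp]
    omega
  let t : LaurentSeries F := HahnSeries.single D 1
  have ht : Valued.v t = exp (-D) := valuation_single_zpow F D
  have ht0 : t ≠ 0 := by
    intro h; rw [h, map_zero] at ht; exact exp_ne_zero ht.symm
  have e : B F D = Set.range fun a => t * Φ a := by
    ext f
    constructor
    · intro hf
      have : Valued.v (t⁻¹ * f) ≤ 1 := by
        rw [map_mul, map_inv₀, ht, inv_mul_le_one₀ (by simp [zero_lt_iff])]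
        exact hf
      obtain ⟨P, hP⟩ := (val_le_one_iff_eq_coe F _).mp this
      refine ⟨fun n => PowerSeries.coeff n P, ?_⟩
      have e2 : PowerSeries.mk (fun n => PowerSeries.coeff n P) = P := by ext n; simp
      show t * ((PowerSeries.mk (fun n => PowerSeries.coeff n P) : PowerSeries F) : LaurentSeries F) = f
      rw [e2, hP, mul_inv_cancel_left₀ ht0]
    · rintro ⟨a, rfl⟩
      show Valued.v (t * Φ a) ≤ _
      rw [map_mul, ht]
      exact mul_le_of_le_one_right' ((val_le_one_iff_eq_coe F _).mpr ⟨_, rfl⟩)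
  rw [e]
  exact isCompact_range (continuous_const.mul hΦ)

lemma loc_compact [Finite F] : LocallyCompactSpace (LaurentSeries F) :=
  (B_compact 0).locallyCompactSpace_of_mem_nhds_of_addGroup (B_nhds 0)

lemma exists_B (f : LaurentSeries F) : ∃ n : ℕ, f ∈ B F (-n) := by
  by_cases h : Valued.v f = 0
  · exact ⟨0, by show Valued.v f ≤ _; rw [h]; exact zero_le⟩
  · refine ⟨(log (Valued.v f)).toNat, ?_⟩
    show Valued.v f ≤ _
    rw [← log_le_iff_le_exp h]
    omega

lemma cont_J' [Finite F] [DecidableEq (LaurentSeries F)] : Continuous (J (K := LaurentSeries F)) := by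
  refine cont_J ?_ ?_
  · refine tendsto_of fun D => ?_
    filter_upwards [(B_compact (F := F) (-D)).compl_mem_cocompact] with k hk
    have hk' : exp D < Valued.v k := by
      have : ¬ Valued.v k ≤ exp (- -D) := hk
      rw [neg_neg] at this
      exact not_le.mp this
    show Valued.v (k⁻¹ - 0) ≤ _
    rw [sub_zero, map_inv₀, WithZero.exp_neg]
    exact inv_anti₀ (by simp [zero_lt_iff]) hk'.le
  · rw [hasBasis_cocompact.tendsto_right_iff]
    intro C hC
    obtain ⟨n, hn⟩ := hC.elim_directed_cover (fun n : ℕ => B F (-n)) (fun n => B_open _)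
      (fun f _ => Set.mem_iUnion.mpr (exists_B f))
      (Monotone.directed_le fun a b hab f hf => by
        have h1 : Valued.v f ≤ exp (- -(a : ℤ)) := hf
        show Valued.v f ≤ exp (- -(b : ℤ))
        exact le_trans h1 (by rw [exp_le_exp]; omega))
    filter_upwards [self_mem_nhdsWithin, nhdsWithin_le_nhds (B_nhds (F := F) (n + 1))] with k hk0 hk
    intro hkC
    have h1 : Valued.v k⁻¹ ≤ exp (- -(n : ℤ)) := hn hkC
    have h2 : Valued.v k ≤ exp (-(n + 1 : ℤ)) := hk
    have h3 := mul_le_mul' h1 h2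
    rw [← map_mul, inv_mul_cancel₀ hk0, map_one, ← exp_add, ← exp_zero, exp_le_exp] at h3
    omega

/-- coefficientwise application of a field endomorphism -/
noncomputable def sig (φ : F →+* F) : LaurentSeries F →+* LaurentSeries F where
  toFun x := x.map φ
  map_one' := HahnSeries.map_one φ.toMonoidWithZeroHom
  map_mul' _ _ := HahnSeries.map_mul (φ : F →ₙ+* F)
  map_zero' := HahnSeries.map_zero (φ : ZeroHom F F)
  map_add' _ _ := HahnSeries.map_add (φ : F →+ F)

lemma sig_coeff (φ : F →+* F) (x : LaurentSeries F) (n : ℤ) : (sig φ x).coeff n = φ (x.coeff n) := rfl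

lemma sig_cont (φ : F →+* F) : Continuous (sig φ) := by
  refine continuous_of_continuousAt_zero (sig φ) (tendsto_of fun D => ?_)
  filter_upwards [B_nhds (F := F) D] with f hf
  rw [map_zero, sub_zero]
  refine (valuation_le_iff_coeff_lt_eq_zero F).mpr fun n hn => ?_
  rw [sig_coeff, (valuation_le_iff_coeff_lt_eq_zero F).mp hf n hn, map_zero]

lemma sig_single (φ : F →+* F) (n : ℤ) (c : F) :
    sig φ (HahnSeries.single n c) = HahnSeries.single n (φ c) :=
  HahnSeries.map_single (φ : ZeroHom F F)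

lemma v_single (n : ℤ) (c : F) (hc : c ≠ 0) :
    Valued.v (HahnSeries.single n c : LaurentSeries F) = exp (-n) := by
  have le : ∀ (n : ℤ) (c : F), Valued.v (HahnSeries.single n c : LaurentSeries F) ≤ exp (-n) := by
    intro n c
    refine (valuation_le_iff_coeff_lt_eq_zero F).mpr fun m hm => ?_
    exact HahnSeries.coeff_single_of_ne hm.ne
  refine le_antisymm (le n c) ?_
  have h1 : (HahnSeries.single n c : LaurentSeries F) * HahnSeries.single 0 c⁻¹
      = HahnSeries.single n 1 := by
    rw [HahnSeries.single_mul_single, add_zero, mul_inv_cancel₀ hc]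
  rw [← valuation_single_zpow F n, ← h1, map_mul]
  refine mul_le_of_le_one_right' ?_
  simpa using le 0 c⁻¹

end Laurent

section Char

open WithZero

variable {K : Type} [Field K] (v : Valuation K (WithZero (Multiplicative ℤ)))

lemma prod_lt (u : ℕ → Kˣ) (γ : WithZero (Multiplicative ℤ)) (hγ : γ ≤ 1) (h0 : γ ≠ 0) (s : Finset ℕ)
    (hs : ∀ i ∈ s, v ((u i : K) - 1) < γ) : v (((∏ i ∈ s, u i : Kˣ) : K) - 1) < γ := by
  classical
  induction s using Finset.induction_on with
  | empty => simpa [zero_lt_iff] using h0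
  | insert a s ha ih =>
    have h1 := ih fun i hi => hs i (Finset.mem_insert_of_mem hi)
    have h2 := hs a (Finset.mem_insert_self _ _)
    rw [Finset.prod_insert ha, Units.val_mul]
    set p : K := ((∏ i ∈ s, u i : Kˣ) : K)
    have e : (u a : K) * p - 1 = ((u a : K) - 1) * (p - 1) + ((u a : K) - 1) + (p - 1) := by ring
    rw [e]
    refine v.map_add_lt (v.map_add_lt ?_ h2) h1
    rw [map_mul]
    exact lt_of_le_of_lt (mul_le_of_le_one_right' (h1.le.trans hγ)) h2

lemma not_sq [CharP K 2] (u : ℕ → Kˣ) (hu : ∀ m : ℕ, v ((u m : K) - 1) = exp (-(2 * m + 1 : ℤ)))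
    (s : Finset ℕ) (hs : s.Nonempty) (y : Kˣ) : ∏ i ∈ s, u i ≠ y * y := by
  classical
  intro h
  set m := s.min' hs
  have hm : m ∈ s := s.min'_mem hs
  have h1 : exp (-(2 * m + 1 : ℤ)) < 1 := by rw [← exp_zero, exp_lt_exp]; omega
  have h2 := prod_lt v u (exp (-(2 * m + 1 : ℤ))) h1.le exp_ne_zero (s.erase m) (by
    intro i hi
    have a := s.min'_le i (Finset.mem_of_mem_erase hi)
    have b := Finset.ne_of_mem_erase hi
    rw [hu, exp_lt_exp]; omega)
  rw [← Finset.mul_prod_erase s u hm] at h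
  have h3 := congrArg Units.val h
  rw [Units.val_mul, Units.val_mul] at h3
  set p : K := ((∏ i ∈ s.erase m, u i : Kˣ) : K)
  have e : ((y : K) - 1) * (y - 1) = ((u m : K) - 1) + (((u m : K) - 1) * (p - 1) + (p - 1)) := by
    have two : (2 : K) = 0 := CharP.cast_eq_zero K 2
    linear_combination -h3 + (1 - (y : K)) * two
  have h4 : v (((u m : K) - 1) * (p - 1) + (p - 1)) < v ((u m : K) - 1) := by
    rw [hu]
    refine v.map_add_lt ?_ h2
    rw [map_mul, hu]
    exact lt_of_le_of_lt (mul_le_of_le_one_left' h1.le) h2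
  have h5 := v.map_add_eq_of_lt_left h4
  rw [← e, hu, map_mul] at h5
  have h6 : v ((y : K) - 1) ≠ 0 := by
    intro h; rw [h, zero_mul] at h5; exact exp_ne_zero h5.symm
  rw [← exp_log h6, ← exp_add, exp_inj] at h5
  omega

lemma exists_char [CharP K 2] (u : ℕ → Kˣ)
    (hu : ∀ m : ℕ, v ((u m : K) - 1) = exp (-(2 * m + 1 : ℤ))) :
    ∃ ψ : Kˣ →* Multiplicative (ZMod 2), ∀ m, ψ (u m) ≠ 1 := by
  classical
  let N : AddSubgroup (Additive Kˣ) := (nsmulAddMonoidHom 2).range
  have h2 : ∀ x : Additive Kˣ ⧸ N, 2 • x = 0 := by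
    intro x
    induction x using QuotientAddGroup.induction_on with
    | H x =>
      rw [← QuotientAddGroup.mk_nsmul, QuotientAddGroup.eq_zero_iff]
      exact ⟨x, rfl⟩
  let _ : Module (ZMod 2) (Additive Kˣ ⧸ N) := AddCommGroup.zmodModule h2
  let w : ℕ → Additive Kˣ ⧸ N := fun m => QuotientAddGroup.mk' N (Additive.ofMul (u m))
  have hli : LinearIndependent (ZMod 2) w := by
    rw [linearIndependent_iff']
    intro s g hg i hi
    by_contra hne
    have h01 : ∀ a : ZMod 2, a ≠ 0 → a = 1 := by decide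
    have e : ∑ i ∈ s, g i • w i = ∑ i ∈ s.filter (fun i => g i ≠ 0), w i := by
      rw [Finset.sum_filter]
      refine Finset.sum_congr rfl fun j _ => ?_
      by_cases hj : g j = 0
      · simp [hj]
      · simp [h01 _ hj]
    rw [e, ← map_sum, ← ofMul_prod] at hg
    obtain ⟨y, hy⟩ := (QuotientAddGroup.eq_zero_iff _).mp hg
    refine not_sq v u hu (s.filter fun i => g i ≠ 0) ⟨i, Finset.mem_filter.mpr ⟨hi, hne⟩⟩ (Additive.toMul y) ?_
    have := congrArg Additive.toMul hy
    simp only [nsmulAddMonoidHom_apply, toMul_nsmul, toMul_ofMul] at this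
    rw [← this, pow_two]
  obtain ⟨f, hf⟩ := LinearMap.exists_extend
    ((Module.Basis.span hli).constr (ZMod 2) fun _ => (1 : ZMod 2))
  refine ⟨AddMonoidHom.toMultiplicativeRight (f.toAddMonoidHom.comp (QuotientAddGroup.mk' N)), fun m => ?_⟩
  have e := LinearMap.congr_fun hf (Module.Basis.span hli m)
  rw [Module.Basis.constr_basis, LinearMap.comp_apply, Submodule.subtype_apply,
    Module.Basis.span_apply] at e
  intro h
  have h' : f (w m) = 0 := congrArg Multiplicative.toAdd h
  rw [e] at h'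
  exact one_ne_zero h'

end Char

open WithZero in
lemma data {F : Type} [Field F] [CharP F 2] (φ : F →+* F) (hφ : ∀ c, φ (φ c) = c) (w : F)
    (hw : φ w ≠ w) :
    ∃ χ : (LaurentSeries F)ˣ →* Multiplicative (ZMod 2),
      (∀ u, χ (Units.map (sig φ : LaurentSeries F →* LaurentSeries F) u) = χ u) ∧
      ∃ a : ℕ → (LaurentSeries F)ˣ, (∀ m, χ (a m) ≠ 1) ∧
        Tendsto (fun m => (a m : LaurentSeries F)) atTop (𝓝 1) := by
  have hw0 : w ≠ 0 := by rintro rfl; exact hw (map_zero φ)
  have hφw0 : φ w ≠ 0 := by simpa using hw0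
  have hsum : w + φ w ≠ 0 := by
    intro h
    apply hw
    have two : (2 : F) = 0 := CharP.cast_eq_zero F 2
    linear_combination h - w * two
  have : CharP (LaurentSeries F) 2 :=
    charP_of_injective_ringHom (f := (HahnSeries.C : F →+* LaurentSeries F)) (RingHom.injective _) 2
  have hss : ∀ x : LaurentSeries F, sig φ (sig φ x) = x := by
    intro x; ext n; rw [sig_coeff, sig_coeff, hφ]
  have hx : ∀ m : ℕ, (1 + HahnSeries.single (2 * m + 1 : ℤ) w : LaurentSeries F) ≠ 0 := by
    intro m h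
    have h1 : (HahnSeries.single (2 * m + 1 : ℤ) w : LaurentSeries F) = -1 := by
      linear_combination h
    have h2 := v_single (2 * m + 1 : ℤ) w hw0
    rw [h1, Valuation.map_neg, map_one, ← exp_zero, exp_inj] at h2
    omega
  let a : ℕ → (LaurentSeries F)ˣ := fun m => Units.mk0 _ (hx m)
  let s : (LaurentSeries F)ˣ →* (LaurentSeries F)ˣ :=
    Units.map (sig φ : LaurentSeries F →* LaurentSeries F)
  have hs : ∀ u, s (s u) = u := by intro u; ext1; exact hss u
  obtain ⟨ψ, hψ⟩ := exists_char (Valued.v : Valuation (LaurentSeries F) _) (fun m => a m * s (a m)) (by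
    intro m
    have e : ((a m * s (a m) : (LaurentSeries F)ˣ) : LaurentSeries F) - 1
        = HahnSeries.single (2 * m + 1 : ℤ) (w + φ w)
          + HahnSeries.single ((2 * m + 1 : ℤ) + (2 * m + 1 : ℤ)) (w * φ w) := by
      show (1 + HahnSeries.single (2 * m + 1 : ℤ) w) * sig φ (1 + HahnSeries.single (2 * m + 1 : ℤ) w) - 1 = _
      rw [map_add, map_one, sig_single, ← HahnSeries.single_mul_single, HahnSeries.single_add]
      ring
    rw [e, Valuation.map_add_eq_of_lt_left, v_single _ _ hsum]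
    rw [v_single _ _ hsum, v_single _ _ (mul_ne_zero hw0 hφw0), exp_lt_exp]
    omega)
  refine ⟨ψ.comp (MonoidHom.id _ * s), fun u => ?_, a, hψ, tendsto_of fun D => ?_⟩
  · show ψ (s u * s (s u)) = ψ (u * s u)
    rw [hs, mul_comm]
  · filter_upwards [eventually_ge_atTop D.toNat] with m hm
    show Valued.v ((1 + HahnSeries.single (2 * m + 1 : ℤ) w : LaurentSeries F) - 1) ≤ _
    rw [add_sub_cancel_left, v_single _ _ hw0, exp_le_exp]
    omega

lemma gf4 : ∃ (φ : GaloisField 2 2 →+* GaloisField 2 2) (w : GaloisField 2 2),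
    (∀ c, φ (φ c) = c) ∧ φ w ≠ w := by
  classical
  have := Fintype.ofFinite (GaloisField 2 2)
  have hc : Fintype.card (GaloisField 2 2) = 4 := by
    rw [← Nat.card_eq_fintype_card, GaloisField.card 2 2 (by norm_num)]; rfl
  have h1 : ∃ w : GaloisField 2 2, w ≠ 0 ∧ w ≠ 1 := by
    by_contra h
    push Not at h
    have : (Finset.univ : Finset (GaloisField 2 2)) ⊆ {0, 1} := by
      intro w _
      by_cases h0 : w = 0
      · simp [h0]
      · simp [h w h0]
    have h2 := Finset.card_le_card this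
    have h3 : ({0, 1} : Finset (GaloisField 2 2)).card ≤ 2 := Finset.card_le_two
    rw [Finset.card_univ, hc] at h2
    omega
  obtain ⟨w, h0, h1⟩ := h1
  refine ⟨frobenius _ 2, w, fun c => ?_, fun h => ?_⟩
  · rw [frobenius_def, frobenius_def, ← pow_mul]
    have := FiniteField.pow_card c
    rwa [hc] at this
  · rw [frobenius_def, pow_two] at h
    exact h1 (mul_left_cancel₀ h0 (h.trans (mul_one w).symm))

end Pool.Agent.Lib.helper4.Sharp3
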