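import Mathlib

set_option autoImplicit false

open Set

namespace Pool.Agent.Lib.helper4.ShortOrd

theorem cnt {L : Type} [LinearOrder L] (h : ∀ S : Set L, S.WellFoundedOn (· < ·) → S.Countable)
    (I : Set L) (hI : ∀ z ∈ I, (I ∩ Iic z).Countable) : I.Countable := by
  let r : L → L → Prop := WellOrderingRel
  have hwf : WellFounded r := (inferInstance : IsWellOrder L WellOrderingRel).wf
  let W : Set L := {z | z ∈ I ∧ ∀ w ∈ I, r w z → w < z}
  have hW : W.Countable := by
    refine h W (Subrelation.wf (r := fun a b : W => r a b) ?_ (InvImage.wf _ hwf))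
    intro a b hab
    rcases trichotomous_of WellOrderingRel (a : L) b with h1 | h1 | h1
    · exact h1
    · exact absurd h1 (ne_of_lt hab)
    · exact absurd (a.2.2 b b.2.1 h1) (not_lt.2 (le_of_lt hab))
  refine (hW.biUnion fun w hw => hI w hw.1).mono fun z hz => ?_
  obtain ⟨w, hw1, hw2⟩ := hwf.has_min {w | w ∈ I ∧ z ≤ w} ⟨z, hz, le_rfl⟩
  refine mem_biUnion (x := w) ⟨hw1.1, fun v hv hvw => ?_⟩ ⟨hz, hw1.2⟩
  exact (lt_of_not_ge fun hzv => hw2 v ⟨hv, hzv⟩ hvw).trans_le hw1.2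

theorem split {L : Type} [LinearOrder L] (h : ∀ S : Set L, S.WellFoundedOn (· < ·) → S.Countable)
    (h' : ∀ S : Set L, S.WellFoundedOn (· > ·) → S.Countable) (T : Set L) (hT : ¬ T.Countable) :
    ∃ z, ¬ (T ∩ Iic z).Countable ∧ ¬ (T ∩ Ici z).Countable := by
  by_contra hn
  push Not at hn
  have h1 := cnt h {z | z ∈ T ∧ (T ∩ Iic z).Countable} fun z hz =>
    hz.2.mono fun w hw => mem_inter hw.1.1 hw.2
  have h2 := cnt (L := Lᵒᵈ) h' {z | z ∈ T ∧ (T ∩ Ici z).Countable} fun z hz =>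
    hz.2.mono fun w hw => mem_inter hw.1.1 hw.2
  refine hT ((h1.union h2).mono fun z hz => ?_)
  by_cases hc : (T ∩ Iic z).Countable
  · exact Or.inl ⟨hz, hc⟩
  · exact Or.inr ⟨hz, hn z hc⟩

/-- An uncountable short order contains a copy of `ℚ` all of whose intervals are uncountable. -/
theorem rat_copy {L : Type} [LinearOrder L]
    (h : ∀ S : Set L, S.WellFoundedOn (· < ·) → S.Countable)
    (h' : ∀ S : Set L, S.WellFoundedOn (· > ·) → S.Countable) (hL : Uncountable L) :
    ∃ e : ℚ → L, StrictMono e ∧ ∀ p q, p < q → ¬ (Icc (e p) (e q)).Countable := by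
  let r : L → L → Prop := fun a b => ¬ (Icc a b).Countable
  have hlt : ∀ a b, r a b → a < b := fun a b hab => lt_of_not_ge fun hba =>
    hab (subsingleton_Icc_of_ge hba).countable
  have hmid : ∀ a b, r a b → ∃ z, r a z ∧ r z b := by
    intro a b hab
    obtain ⟨z, h1, h2⟩ := split h h' _ hab
    exact ⟨z, fun hc => h1 (hc.mono fun w hw => mem_Icc.2 ⟨hw.1.1, hw.2⟩),
      fun hc => h2 (hc.mono fun w hw => mem_Icc.2 ⟨hw.2, hw.1.2⟩)⟩
  obtain ⟨x, -, hx⟩ := split h h' univ not_countable_univ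
  obtain ⟨y, hy, -⟩ := split h h' _ hx
  have hxy : r x y := fun hc => hy (hc.mono fun w hw => mem_Icc.2 ⟨hw.1.2, hw.2⟩)
  obtain ⟨S, hS, hxS⟩ := IsChain.exists_maxChain (r := r) (c := {x, y}) (IsChain.pair hxy)
  have hr : ∀ a ∈ S, ∀ b ∈ S, a < b → r a b := fun a ha b hb hab =>
    (hS.1 ha hb hab.ne).resolve_right fun hba => (hlt _ _ hba).not_gt hab
  have : DenselyOrdered S := ⟨fun a b hab => by
    by_contra hn
    obtain ⟨z, h1, h2⟩ := hmid _ _ (hr _ a.2 _ b.2 hab)
    have hc : IsChain r (insert z S) := hS.1.insert fun s hs _ => by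
      rcases le_or_gt s a with h3 | h3
      · exact Or.inr fun hc => h1 (hc.mono (Icc_subset_Icc_left h3))
      · have h4 : (b : L) ≤ s := le_of_not_gt fun h4 => hn ⟨⟨s, hs⟩, h3, h4⟩
        exact Or.inl fun hc => h2 (hc.mono (Icc_subset_Icc_right h4))
    have hz : z ∈ S := by rw [hS.2 hc (subset_insert _ _)]; exact mem_insert _ _
    exact hn ⟨⟨z, hz⟩, hlt _ _ h1, hlt _ _ h2⟩⟩
  have : Nontrivial S := ⟨⟨⟨x, hxS (by simp)⟩, ⟨y, hxS (by simp)⟩,
    fun he => (hlt _ _ hxy).ne (congrArg Subtype.val he)⟩⟩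
  obtain ⟨e⟩ := Order.embedding_from_countable_to_dense ℚ S
  exact ⟨fun q => e q, fun p q hpq => e.strictMono hpq,
    fun p q hpq => hr _ (e p).2 _ (e q).2 (e.strictMono hpq)⟩

theorem onto_rat {L : Type} [LinearOrder L]
    (h : ∀ S : Set L, S.WellFoundedOn (· < ·) → S.Countable)
    (h' : ∀ S : Set L, S.WellFoundedOn (· > ·) → S.Countable) (hL : Uncountable L) :
    ∃ K : Set L, Cardinal.mk K = Cardinal.aleph 1 ∧
      ∃ g : K → ℚ, Monotone g ∧ Function.Surjective g := by
  obtain ⟨e, he, he'⟩ := rat_copy h h' hL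
  have h01 : Cardinal.aleph 1 ≤ Cardinal.mk (Icc (e 0) (e 1)) := by
    rw [Cardinal.aleph_one_le_iff, ← not_le, Cardinal.le_aleph0_iff_set_countable]
    exact he' 0 1 zero_lt_one
  obtain ⟨D, hD, hD'⟩ := Cardinal.le_mk_iff_exists_subset.1 h01
  have hDne : D.Nonempty := by
    rw [← nonempty_coe_sort, ← Cardinal.mk_ne_zero_iff, hD']
    exact (Cardinal.aleph_pos 1).ne'
  let P : ℚ → Set L := fun q => if q < 0 then {e q} else if q = 0 then D else {e (q + 1)}
  have hP : ∀ p q, p < q → ∀ a ∈ P p, ∀ b ∈ P q, a < b := by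
    intro p q hpq a ha b hb
    have ha' : a ≤ e (if p < 0 then p else p + 1) := by
      simp only [P] at ha
      split_ifs at ha ⊢ with h1 h2
      · exact le_of_eq ha
      · subst h2; simpa using (hD ha).2
      · exact le_of_eq ha
    have hb' : e (if q ≤ 0 then q else q + 1) ≤ b := by
      rcases lt_trichotomy q 0 with h1 | rfl | h1
      · simp only [P, if_pos h1] at hb
        rw [if_pos h1.le]; exact le_of_eq hb.symm
      · simp only [P, lt_irrefl, if_false, if_true] at hb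
        rw [if_pos le_rfl]; exact (hD hb).1
      · simp only [P, if_neg h1.le.not_gt, if_neg h1.ne'] at hb
        rw [if_neg h1.not_ge]; exact le_of_eq hb.symm
    refine ha'.trans_lt ((he ?_).trans_le hb')
    split_ifs <;> linarith
  have hne : ∀ q, (P q).Nonempty := fun q => by
    simp only [P]; split_ifs
    · exact singleton_nonempty _
    · exact hDne
    · exact singleton_nonempty _
  refine ⟨⋃ q, P q, le_antisymm ?_ ?_, ?_⟩
  · have hsub : (⋃ q, P q) ⊆ D ∪ range e := by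
      intro a ha
      obtain ⟨q, hq⟩ := mem_iUnion.1 ha
      simp only [P] at hq
      split_ifs at hq
      · exact Or.inr ⟨_, hq.symm⟩
      · exact Or.inl hq
      · exact Or.inr ⟨_, hq.symm⟩
    refine (Cardinal.mk_le_mk_of_subset hsub).trans ((Cardinal.mk_union_le _ _).trans ?_)
    rw [hD']
    refine (Cardinal.add_eq_left (Cardinal.aleph0_le_aleph 1) ?_).le
    exact (Cardinal.le_aleph0_iff_set_countable.2 (countable_range e)).trans
      (Cardinal.aleph0_le_aleph 1)
  · rw [← hD']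
    refine Cardinal.mk_le_mk_of_subset (subset_iUnion_of_subset 0 ?_)
    simp [P]
  · have hx : ∀ y : ⋃ q, P q, ∃ q, (y : L) ∈ P q := fun y => mem_iUnion.1 y.2
    choose g hg using hx
    refine ⟨g, fun y y' hy => le_of_not_gt fun hc => (hP _ _ hc _ (hg y') _ (hg y)).not_ge hy,
      fun q => ?_⟩
    obtain ⟨a, ha⟩ := hne q
    refine ⟨⟨a, mem_iUnion.2 ⟨q, ha⟩⟩, ?_⟩
    have h1 := hg ⟨a, mem_iUnion.2 ⟨q, ha⟩⟩
    exact le_antisymm (le_of_not_gt fun hc => lt_irrefl _ (hP _ _ hc _ ha _ h1))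
      (le_of_not_gt fun hc => lt_irrefl _ (hP _ _ hc _ h1 _ ha))

end Pool.Agent.Lib.helper4.ShortOrd
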