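import Mathlib

/-! Simon's partition of a maximal almost disjoint family, and a Frechet filter that fails
the property alpha-three. -/

namespace Pool.Agent.Lib.helper4.Simon

open Set Filter

theorem exists_pi (Y : ℕ → Set ℕ) (hm : Antitone Y) (h : ∀ n, (Y n).Infinite) :
    ∃ Z : Set ℕ, Z.Infinite ∧ ∀ n, (Z \ Y n).Finite := by
  choose z h1 h2 using fun n => (h n).exists_gt n
  refine ⟨range z, infinite_of_forall_exists_gt fun n => ⟨_, ⟨n, rfl⟩, h2 n⟩, fun n => ?_⟩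
  refine ((finite_Iio n).image z).subset ?_
  rintro _ ⟨⟨m, rfl⟩, hm'⟩
  exact ⟨m, not_le.1 fun a => hm' (hm a (h1 m)), rfl⟩

/-- An almost disjoint family of infinite sets. -/
def AD (M : Set (Set ℕ)) : Prop :=
  (∀ A ∈ M, A.Infinite) ∧ ∀ A ∈ M, ∀ B ∈ M, (A ∩ B).Infinite → A = B

/-- `M` is maximal on `Y`. -/
def Mad (M : Set (Set ℕ)) (Y : Set ℕ) : Prop := ∀ T ⊆ Y, T.Infinite → ∃ A ∈ M, (A ∩ T).Infinite

/-- `Y` meets infinitely many members of `M` infinitely often. -/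
def Pos (M : Set (Set ℕ)) (Y : Set ℕ) : Prop := {A ∈ M | (A ∩ Y).Infinite}.Infinite

theorem exists_mad : ∃ M, AD M ∧ Mad M univ ∧ Pos M univ := by
  let c : ℕ → Set ℕ := fun k => range (Nat.pair k)
  have c1 : ∀ k, (c k).Infinite := fun k =>
    infinite_range_of_injective fun a b h => (Nat.pair_eq_pair.1 h).2
  have c2 : ∀ k l, (c k ∩ c l).Nonempty → k = l := by
    rintro k l ⟨_, ⟨a, rfl⟩, b, h⟩
    exact (Nat.pair_eq_pair.1 h).1.symm
  obtain ⟨M, h1, h2⟩ := zorn_subset_nonempty {M | AD M} (fun C hC hc _ => ⟨⋃₀ C,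
    ⟨fun A ⟨M, a, b⟩ => (hC a).1 A b, fun A ⟨M, a, b⟩ B ⟨N, a', b'⟩ => by
      rcases hc.total a a' with h | h
      exacts [(hC a').2 A (h b) B b', (hC a).2 A b B (h b')]⟩,
    fun s hs => subset_sUnion_of_mem hs⟩) (range c) ⟨by rintro _ ⟨k, rfl⟩; exact c1 k, by
      rintro _ ⟨k, rfl⟩ _ ⟨l, rfl⟩ h; rw [c2 k l h.nonempty]⟩
  refine ⟨M, h2.prop, fun T _ hT => by_contra fun hc => ?_, ?_⟩
  · push Not at hc
    have : T ∈ M := h2.le_of_ge (y := insert T M) ⟨?_, ?_⟩ (subset_insert _ _) (mem_insert _ _)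
    · exact hT (by simpa using hc T this)
    · rintro A (rfl | h)
      exacts [hT, h2.prop.1 A h]
    · rintro A (rfl | h) B (rfl | h') e
      exacts [rfl, absurd (inter_comm _ _ ▸ hc B h') e, absurd (hc A h) e, h2.prop.2 A h B h' e]
  · refine (infinite_range_of_injective (f := c) fun k l h => c2 k l ?_).mono fun A hA =>
      ⟨h1 hA, by simpa using h2.prop.1 A (h1 hA)⟩
    simpa [h] using (c1 l).nonempty

variable {M : Set (Set ℕ)}

theorem Pos.mono {Y Z : Set ℕ} (h : Pos M Y) (hf : (Y \ Z).Finite) : Pos M Z :=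
  Infinite.mono (fun A hA => ⟨hA.1, fun hc => hA.2 ((hc.union hf).subset fun x hx => by
    by_cases x ∈ Z <;> simp_all)⟩) h

theorem Pos.inf {Y : Set ℕ} (h : Pos M Y) : Y.Infinite := by
  obtain ⟨A, hA⟩ := Set.Infinite.nonempty h
  exact hA.2.mono inter_subset_right

theorem Pos.diff (hM : AD M) {Y : Set ℕ} (h : Pos M Y) {F : Set (Set ℕ)} (h1 : F ⊆ M)
    (h2 : F.Finite) : Pos M (Y \ ⋃₀ F) := by
  refine Infinite.mono (fun A hA => ⟨hA.1.1, ?_⟩) (Infinite.sdiff h h2)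
  have : (⋃ B ∈ F, A ∩ B).Finite := h2.biUnion fun B hB =>
    not_infinite.1 fun hc => hA.2 (hM.2 A hA.1.1 B (h1 hB) hc ▸ hB)
  refine (hA.1.2.sdiff this).mono fun x hx => ⟨hx.1.1, hx.1.2, fun ⟨B, a, b⟩ => hx.2 ?_⟩
  exact mem_biUnion a ⟨hx.1.1, b⟩

theorem pos_pi (hM : AD M) (hm : Mad M univ) (Y : ℕ → Set ℕ) (ha : Antitone Y)
    (h : ∀ n, Pos M (Y n)) : ∃ Z, Pos M Z ∧ ∀ n, (Z \ Y n).Finite := by
  have : {A ∈ M | ∃ Z ⊆ A, Z.Infinite ∧ ∀ n, (Z \ Y n).Finite}.Infinite := by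
    intro hf
    obtain ⟨Z, z1, z2⟩ := exists_pi (fun n => Y n \ ⋃₀ _) (fun a b h => sdiff_subset_sdiff_left (ha h))
      fun n => ((h n).diff hM (sep_subset _ _) hf).inf
    obtain ⟨A, a1, a2⟩ := hm Z (subset_univ _) z1
    refine a2 ((z2 0).subset fun x hx => ⟨hx.2, fun hc => hc.2 ⟨A, ⟨a1, _, inter_subset_left, a2,
      fun n => (z2 n).subset fun y hy => ⟨hy.1.2, fun hc => hy.2 hc.1⟩⟩, hx.1⟩⟩)
  let A := this.natEmbedding
  choose Z z1 z2 z3 using fun k => (A k).2.2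
  refine ⟨⋃ k, Z k ∩ Y k, ?_, fun n => ?_⟩
  · refine (infinite_range_of_injective (Subtype.val_injective.comp A.injective)).mono ?_
    rintro _ ⟨k, rfl⟩
    refine ⟨(A k).2.1, ((z2 k).sdiff (z3 k k)).mono fun x hx => ⟨z1 k hx.1, mem_iUnion.2 ⟨k, hx.1, ?_⟩⟩⟩
    by_contra hc
    exact hx.2 ⟨hx.1, hc⟩
  · refine ((finite_Iio n).biUnion fun k _ => z3 k n).subset fun x hx => ?_
    obtain ⟨k, hk⟩ := mem_iUnion.1 hx.1
    exact mem_biUnion (not_le.1 fun a => hx.2 (ha a hk.2)) ⟨hk.1, hx.2⟩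

theorem simon (hM : AD M) (hm : Mad M univ) (hp : Pos M univ) : ∃ X n, Pos M X ∧
    ∀ Y ⊆ X, Pos M Y → ¬ Mad {A ∈ M | n ∈ A} Y ∧ ¬ Mad {A ∈ M | n ∉ A} Y := by
  by_contra hc
  have : ∀ (n : ℕ) (X : {X // Pos M X}), ∃ Y : {X // Pos M X}, Y.1 ⊆ X.1 ∧
      (Mad {A ∈ M | n ∈ A} Y ∨ Mad {A ∈ M | n ∉ A} Y) := fun n X => by
    by_contra h
    refine hc ⟨X, n, X.2, fun Y a b => ?_⟩
    exact ⟨fun c => h ⟨⟨Y, b⟩, a, Or.inl c⟩, fun c => h ⟨⟨Y, b⟩, a, Or.inr c⟩⟩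
  choose g g1 g2 using this
  let Y : ℕ → {X // Pos M X} := fun n => Nat.rec ⟨univ, hp⟩ g n
  obtain ⟨Z, z1, z2⟩ := pos_pi hM hm (fun n => (Y n).1) (antitone_nat_of_succ_le fun n => g1 n _)
    fun n => (Y n).2
  obtain ⟨A, a, B, b, hAB⟩ := Set.Infinite.nontrivial z1
  have key : ∀ n (P : Set ℕ → Prop), Mad {A ∈ M | P A} (Y (n + 1)) →
      ∀ C ∈ M, (C ∩ Z).Infinite → P C := fun n P h C c1 c2 => by
    obtain ⟨D, d1, d2⟩ := h ((C ∩ Z) \ (Z \ Y (n + 1))) (fun x hx => by_contra fun hc =>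
      hx.2 ⟨hx.1.2, hc⟩) (c2.sdiff (z2 (n + 1)))
    rw [← hM.2 D d1.1 C c1 (d2.mono fun x hx => ⟨hx.1, hx.2.1.1⟩)]
    exact d1.2
  refine hAB (Set.ext fun n => ?_)
  rcases g2 n (Y n) with h | h
  · exact iff_of_true (key n _ h A a.1 a.2) (key n _ h B b.1 b.2)
  · exact iff_of_false (key n _ h A a.1 a.2) (key n _ h B b.1 b.2)

theorem exists_filter : ∃ (S : ℕ → Set ℕ) (G : Filter ℕ), (∀ k, (S k).Infinite) ∧
    (∀ k l, (S k ∩ S l).Infinite → k = l) ∧ G ≤ cofinite ∧ (∀ k, (S k)ᶜ ∈ G) ∧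
    (∀ W ∈ G, ∀ᶠ k in atTop, (S k \ W).Finite) ∧
    (∀ Y : Set ℕ, Yᶜ ∉ G → ∃ B ⊆ Y, B.Infinite ∧ ∀ W ∈ G, (B \ W).Finite) ∧
    ∀ T : Set ℕ, {k | (S k ∩ T).Infinite}.Infinite →
      ∃ W ∈ G, (T \ W).Infinite ∧ ∀ k, (S k \ W).Finite := by
  obtain ⟨M, hM, hm, hp⟩ := exists_mad
  obtain ⟨X, n, hX, h⟩ := simon hM hm hp
  have inf : {A ∈ M | n ∈ A ∧ (A ∩ X).Infinite}.Infinite := fun hf => by
    refine (h _ sdiff_subset (hX.diff hM (sep_subset _ _) hf)).2 fun T t1 t2 => ?_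
    obtain ⟨A, a1, a2⟩ := hm T (subset_univ _) t2
    refine ⟨A, ⟨a1, fun hn => ?_⟩, a2⟩
    obtain ⟨x, hx⟩ := a2.nonempty
    exact (t1 hx.2).2 ⟨A, ⟨a1, hn, a2.mono fun y hy => ⟨hy.1, (t1 hy.2).1⟩⟩, hx.1⟩
  let B : ℕ → Set ℕ := fun k => inf.natEmbedding _ k
  have bi : Function.Injective B := Subtype.val_injective.comp (inf.natEmbedding _).injective
  have bM : ∀ k, B k ∈ M ∧ n ∈ B k ∧ (B k ∩ X).Infinite := fun k => (inf.natEmbedding _ k).2
  let N : Set (Set ℕ) := {A ∈ M | n ∉ A ∨ A ∈ range B}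
  let G : Filter ℕ :=
    { sets := {W | ∃ F ⊆ N, F.Finite ∧ ((X \ W) \ ⋃₀ F).Finite}
      univ_sets := ⟨∅, empty_subset _, finite_empty, by simp⟩
      sets_of_superset := fun ⟨F, a, b, c⟩ h =>
        ⟨F, a, b, c.subset (sdiff_subset_sdiff_left (sdiff_subset_sdiff_right h))⟩
      inter_sets := fun ⟨F, a, b, c⟩ ⟨F', a', b', c'⟩ =>
        ⟨F ∪ F', union_subset a a', b.union b', (c.union c').subset fun x hx => by
          simp only [Set.mem_sdiff, mem_inter_iff, sUnion_union, mem_union] at hx ⊢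
          tauto⟩ }
  have conv : ∀ T ⊆ X, ∀ W, ∀ F : Set (Set ℕ), F.Finite → ((X \ W) \ ⋃₀ F).Finite →
      (∀ A ∈ F, (A ∩ T).Finite) → (T \ W).Finite := fun T hT W F a b c =>
    (b.union (a.biUnion c)).subset fun x hx => by
      by_cases e : x ∈ ⋃₀ F
      · obtain ⟨A, e1, e2⟩ := e
        exact Or.inr (mem_biUnion e1 ⟨e2, hx.1⟩)
      · exact Or.inl ⟨⟨hT hx.1, hx.2⟩, e⟩
  refine ⟨fun k => B k ∩ X, G, fun k => (bM k).2.2, fun k l e => bi (hM.2 _ (bM k).1 _ (bM l).1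
    (e.mono fun x hx => ⟨hx.1.1, hx.2.1⟩)), fun W hW => ⟨∅, empty_subset _, finite_empty,
      (mem_cofinite.1 hW).subset fun x hx => hx.1.2⟩, fun k => ⟨{B k}, ?_, finite_singleton _, ?_⟩,
    fun W ⟨F, a, b, c⟩ => ?_, fun Y hY => ?_, fun T hT => ?_⟩
  · exact singleton_subset_iff.2 ⟨(bM k).1, Or.inr ⟨k, rfl⟩⟩
  · refine finite_empty.subset fun x hx => hx.2 ⟨_, rfl, (not_not.1 hx.1.2).1⟩
  · rw [← Nat.cofinite_eq_atTop]
    refine mem_of_superset (b.preimage bi.injOn).compl_mem_cofinite fun k hk => ?_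
    refine conv _ inter_subset_right W F b c fun A hA => not_infinite.1 fun e => hk ?_
    rwa [hM.2 A (a hA).1 _ (bM k).1 (e.mono fun x hx => ⟨hx.1, hx.2.1⟩)] at hA
  · by_cases e : ∃ A ∈ M, A ∉ N ∧ (A ∩ (X ∩ Y)).Infinite
    · obtain ⟨A, a1, a2, a3⟩ := e
      refine ⟨_, fun x hx => hx.2.2, a3, fun W ⟨F, a, b, c⟩ => conv _ (fun x hx => hx.2.1) W F b c
        fun C hC => not_infinite.1 fun e => a2 ?_⟩
      rw [← hM.2 C (a hC).1 A a1 (e.mono fun x hx => ⟨hx.1, hx.2.1⟩)]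
      exact a hC
    push Not at e
    by_cases p : Pos M (X ∩ Y)
    · obtain ⟨Z, z1, z2⟩ := pos_pi hM hm (fun m => (X ∩ Y) \ ⋃₀ (B '' Iio m))
        (fun a b h => sdiff_subset_sdiff_right (sUnion_subset_sUnion (image_mono (Iio_subset_Iio h))))
        fun m => p.diff hM (by rintro _ ⟨k, -, rfl⟩; exact (bM k).1) ((finite_Iio m).image _)
      refine absurd (fun T t1 t2 => ?_) (h (Z ∩ (X ∩ Y)) (fun x hx => hx.2.1)
        (z1.mono ((z2 0).subset fun x hx => ⟨hx.1, fun hc => hx.2 ⟨hx.1, hc.1⟩⟩))).2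
      obtain ⟨A, a1, a2⟩ := hm T (subset_univ _) t2
      have : A ∈ N := by_contra fun hc =>
        (a2.mono fun x hx => ⟨hx.1, (t1 hx.2).2⟩ : (A ∩ (X ∩ Y)).Infinite) (e A a1 hc)
      refine ⟨A, ⟨a1, this.2.resolve_right ?_⟩, a2⟩
      rintro ⟨k, rfl⟩
      exact a2 ((z2 (k + 1)).subset fun x hx => ⟨(t1 hx.2).1, fun hc =>
        hc.2 ⟨_, ⟨k, Nat.lt_succ_self k, rfl⟩, hx.1⟩⟩)
    · refine absurd ⟨_, fun A hA => by_contra fun hc => hA.2 (e A hA.1 hc), not_infinite.1 p,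
        not_infinite.1 fun hi => ?_⟩ hY
      obtain ⟨A, a1, a2⟩ := hm _ (subset_univ _) hi
      obtain ⟨x, hx⟩ := a2.nonempty
      exact hx.2.2 ⟨A, ⟨a1, a2.mono fun y hy => ⟨hy.1, hy.2.1.1, not_not.1 hy.2.1.2⟩⟩, hx.1⟩
  · have p : Pos M (X ∩ T) := (hT.image bi.injOn).mono (by
      rintro _ ⟨k, hk, rfl⟩; exact ⟨(bM k).1, by rwa [← inter_assoc]⟩)
    have := (h _ inter_subset_left p).1
    simp only [Mad, not_forall, not_exists, not_and, not_infinite] at this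
    obtain ⟨U, u1, u2, u3⟩ := this
    obtain ⟨A, a1, a2⟩ := hm U (subset_univ _) u2
    have hn : n ∉ A := fun hn => a2 (u3 A ⟨a1, hn⟩)
    refine ⟨Aᶜ, ⟨{A}, singleton_subset_iff.2 ⟨a1, Or.inl hn⟩, finite_singleton _,
      finite_empty.subset fun x hx => hx.2 ⟨_, rfl, not_not.1 hx.1.2⟩⟩,
      a2.mono fun x hx => ⟨(u1 hx.2).2, not_not.2 hx.1⟩, fun k => not_infinite.1 fun e => hn ?_⟩
    rw [hM.2 A a1 _ (bM k).1 (e.mono fun x hx => ⟨not_not.1 hx.2, hx.1.1⟩)]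
    exact (bM k).2.1

/-- Subsets of the two-level space. -/
def mk (b : Prop) (W K : Set ℕ) : Set (Option (ℕ ⊕ ℕ))
  | none => b
  | some (.inl n) => n ∈ W
  | some (.inr k) => k ∈ K

theorem mk_compl (b : Prop) (W K : Set ℕ) : (mk b W K)ᶜ = mk (¬ b) Wᶜ Kᶜ := by
  ext (_ | _ | _) <;> rfl

theorem seq_of_inf {B : Set ℕ} (h : B.Infinite) : ∃ s : ℕ → ℕ, (∀ i, s i ∈ B) ∧
    ∀ W, (B \ W).Finite → ∀ᶠ i in atTop, s i ∈ W := by
  refine ⟨fun i => h.natEmbedding _ i, fun i => (h.natEmbedding _ i).2, fun W hW => ?_⟩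
  rw [← Nat.cofinite_eq_atTop]
  exact (hW.preimage (Subtype.val_injective.comp (h.natEmbedding _).injective).injOn).subset
    fun i hi => ⟨(h.natEmbedding _ i).2, hi⟩

theorem m0 {b W K} : none ∈ mk b W K ↔ b := Iff.rfl
theorem m1 {b W K n} : some (Sum.inl n) ∈ mk b W K ↔ n ∈ W := Iff.rfl
theorem m2 {b W K n} : some (Sum.inr n) ∈ mk b W K ↔ n ∈ K := Iff.rfl

open Topology in
theorem exists_space : ∃ _ : TopologicalSpace (Option (ℕ ⊕ ℕ)), T3Space (Option (ℕ ⊕ ℕ)) ∧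
    FrechetUrysohnSpace (Option (ℕ ⊕ ℕ)) ∧ ∀ (X : Type) [TopologicalSpace X]
      [FirstCountableTopology X] (f : X → Option (ℕ ⊕ ℕ)),
        Continuous f → IsClosedMap f → ¬ Function.Surjective f := by
  obtain ⟨S, G, s1, s2, g1, g2, g3, g4, g5⟩ := exists_filter
  let t : TopologicalSpace (Option (ℕ ⊕ ℕ)) :=
    { IsOpen := fun U => (∀ k, some (Sum.inr k) ∈ U → (S k \ {n | some (Sum.inl n) ∈ U}).Finite) ∧
        (none ∈ U → (∀ᶠ k in atTop, some (Sum.inr k) ∈ U) ∧ {n | some (Sum.inl n) ∈ U} ∈ G)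
      isOpen_univ := ⟨fun _ _ => by simp, fun _ => ⟨by simp, by simp⟩⟩
      isOpen_inter := fun U V hU hV => ⟨fun k hk => ((hU.1 k hk.1).union (hV.1 k hk.2)).subset
        fun x hx => by by_cases some (Sum.inl x) ∈ U <;> simp_all, fun h =>
          ⟨(hU.2 h.1).1.and (hV.2 h.2).1, inter_mem (hU.2 h.1).2 (hV.2 h.2).2⟩⟩
      isOpen_sUnion := fun s hs => ⟨fun k ⟨U, a, b⟩ => ((hs U a).1 k b).subset
        fun x hx => ⟨hx.1, fun h => hx.2 ⟨U, a, h⟩⟩, fun ⟨U, a, b⟩ =>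
          ⟨((hs U a).2 b).1.mono fun _ h => ⟨U, a, h⟩,
            mem_of_superset ((hs U a).2 b).2 fun _ h => ⟨U, a, h⟩⟩⟩ }
  have op : ∀ (b : Prop) (W K : Set ℕ), (∀ k ∈ K, (S k \ W).Finite) →
      (b → (∀ᶠ k in atTop, k ∈ K) ∧ W ∈ G) → IsOpen (mk b W K) := fun b W K h1 h2 => ⟨h1, h2⟩
  have cof : ∀ k : ℕ, ∀ᶠ l in atTop, l ∈ ({k}ᶜ : Set ℕ) := fun k => eventually_ne_atTop k
  have t1 : T1Space (Option (ℕ ⊕ ℕ)) := ⟨fun p => isOpen_compl_iff.1 (by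
    rcases p with _ | n | k
    · convert op False univ univ (by simp) (by simp) using 1
      ext (_ | _ | _) <;> simp [m0, m1, m2]
    · convert op True {n}ᶜ univ (fun k _ => (finite_singleton n).subset fun x hx => not_not.1 hx.2)
        (fun _ => ⟨by simp, g1 (finite_singleton n).compl_mem_cofinite⟩) using 1
      ext (_ | _ | _) <;> simp [m0, m1, m2]
    · convert op True univ {k}ᶜ (by simp) (fun _ => ⟨cof k, univ_mem⟩) using 1
      ext (_ | _ | _) <;> simp [m0, m1, m2])⟩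
  have reg : RegularSpace (Option (ℕ ⊕ ℕ)) := by
    refine RegularSpace.of_exists_mem_nhds_isClosed_subset fun p U hU => ?_
    obtain ⟨V, v1, v2, v3⟩ := mem_nhds_iff.1 hU
    suffices ∃ C, p ∈ C ∧ IsOpen C ∧ IsOpen Cᶜ ∧ C ⊆ V by
      obtain ⟨C, a, b, c, d⟩ := this
      exact ⟨C, b.mem_nhds a, isOpen_compl_iff.1 c, d.trans v1⟩
    rcases p with _ | n | k
    · have hf : {k | some (Sum.inr k) ∉ V}.Finite := by
        have := (v2.2 v3).1
        rwa [← Nat.cofinite_eq_atTop] at this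
      refine ⟨mk True ({n | some (Sum.inl n) ∈ V} ∩ ⋂ k ∈ {k | some (Sum.inr k) ∉ V}, (S k)ᶜ)
        {k | some (Sum.inr k) ∈ V}, trivial, op _ _ _ (fun k hk => ?_) fun _ => ⟨(v2.2 v3).1,
          inter_mem (v2.2 v3).2 ((biInter_mem hf).2 fun k _ => g2 k)⟩, ?_, ?_⟩
      · refine ((v2.1 k hk).union (hf.biUnion (t := fun l => S k ∩ S l) fun l hl =>
          not_infinite.1 fun e => hl (s2 k l e ▸ hk))).subset fun x hx => ?_
        by_contra hc
        simp only [mem_union, mem_iUnion, not_or, not_exists] at hc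
        exact hx.2 ⟨by_contra fun h => hc.1 ⟨hx.1, h⟩, mem_biInter fun l hl h => hc.2 l hl ⟨hx.1, h⟩⟩
      · rw [mk_compl]
        exact op _ _ _ (fun k hk => finite_empty.subset fun x hx =>
          mem_iInter₂.1 (not_not.1 hx.2).2 k hk hx.1) fun h => absurd trivial h
      · rintro (_ | _ | _) h
        exacts [v3, h.1, h]
    · refine ⟨mk False {n} ∅, rfl, op _ _ _ (by simp) (by simp), ?_, ?_⟩
      · rw [mk_compl]
        exact op _ _ _ (fun k _ => (finite_singleton n).subset fun x hx => not_not.1 hx.2)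
          fun _ => ⟨by simp, g1 (finite_singleton n).compl_mem_cofinite⟩
      · rintro (_ | _ | _) h
        exacts [h.elim, (show _ = n from h) ▸ v3, h.elim]
    · refine ⟨mk False (S k ∩ {n | some (Sum.inl n) ∈ V}) {k}, rfl, op _ _ _ ?_ (by simp), ?_, ?_⟩
      · rintro _ rfl
        exact (v2.1 _ v3).subset fun x hx => ⟨hx.1, fun h => hx.2 ⟨hx.1, h⟩⟩
      · rw [mk_compl]
        refine op _ _ _ (fun l hl => (not_infinite.1 fun e => hl (s2 l k e)).subset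
          fun x hx => ⟨hx.1, (not_not.1 hx.2).1⟩) fun _ =>
            ⟨cof k, mem_of_superset (g2 k) fun x hx h => hx h.1⟩
      · rintro (_ | _ | _) h
        exacts [h.elim, h.2, (show _ = k from h) ▸ v3]
  have c1 : ∀ (A : Set (Option (ℕ ⊕ ℕ))) k, (S k ∩ {n | some (Sum.inl n) ∈ A}).Infinite →
      some (Sum.inr k) ∈ seqClosure A := fun A k h => by
    obtain ⟨s, a, b⟩ := seq_of_inf h
    exact ⟨fun i => some (Sum.inl (s i)), fun i => (a i).2, tendsto_nhds.2 fun U hU hk =>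
      b {n | some (Sum.inl n) ∈ U} ((hU.1 k hk).subset fun x hx => ⟨hx.1.1, hx.2⟩)⟩
  have c2 : ∀ (A : Set (Option (ℕ ⊕ ℕ))), {k | some (Sum.inr k) ∈ A}.Infinite →
      none ∈ seqClosure A := fun A h => by
    obtain ⟨s, a, b⟩ := seq_of_inf h
    refine ⟨fun i => some (Sum.inr (s i)), a, tendsto_nhds.2 fun U hU hk =>
      b {k | some (Sum.inr k) ∈ U} ?_⟩
    have := (hU.2 hk).1
    rw [← Nat.cofinite_eq_atTop] at this
    exact Finite.subset this fun x hx => hx.2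
  refine ⟨t, inferInstance, ⟨fun A p hp => ?_⟩, fun X _ _ f f1 f2 f3 => ?_⟩
  · by_cases hA : p ∈ A
    · exact subset_seqClosure hA
    rcases p with _ | n | k
    · by_cases h : {k | some (Sum.inr k) ∈ A}.Infinite
      · exact c2 A h
      by_cases h' : {n | some (Sum.inl n) ∈ A}ᶜ ∈ G
      · obtain ⟨x, x1, x2⟩ := mem_closure_iff.1 hp (mk True {n | some (Sum.inl n) ∈ A}ᶜ
          {k | some (Sum.inr k) ∉ A ∧ (S k \ {n | some (Sum.inl n) ∈ A}ᶜ).Finite})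
          (op _ _ _ (fun k hk => hk.2) fun _ => ⟨Eventually.and (by
            rw [← Nat.cofinite_eq_atTop]
            exact (not_infinite.1 h).compl_mem_cofinite) (g3 _ h'), h'⟩) trivial
        rcases x with _ | _ | _
        exacts [absurd x2 hA, absurd x2 x1, absurd x2 x1.1]
      · obtain ⟨B, b1, b2, b3⟩ := g4 _ h'
        obtain ⟨s, a, b⟩ := seq_of_inf b2
        exact ⟨fun i => some (Sum.inl (s i)), fun i => b1 (a i), tendsto_nhds.2 fun U hU hk =>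
          b _ (b3 _ (hU.2 hk).2)⟩
    · obtain ⟨x, x1, x2⟩ := mem_closure_iff.1 hp (mk False {n} ∅) (op _ _ _ (by simp) (by simp)) rfl
      rcases x with _ | _ | _
      exacts [x1.elim, absurd ((show _ = n from x1) ▸ x2) hA, x1.elim]
    · refine c1 A k fun h => ?_
      obtain ⟨x, x1, x2⟩ := mem_closure_iff.1 hp (mk False {n | some (Sum.inl n) ∈ A}ᶜ {k})
        (op _ _ _ (by rintro _ rfl; simpa using h) (by simp)) rfl
      rcases x with _ | _ | _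
      exacts [x1.elim, x1 x2, hA ((show _ = k from x1) ▸ x2)]
  · choose m hm using fun n => f3 (some (Sum.inl n))
    have lift : ∀ (C : Set X) y, y ∈ seqClosure (f '' C) → ∃ x ∈ closure C, f x = y :=
      fun C y h => f2.closure_image_subset C (seqClosure_subset_closure h)
    choose c e1 e2 using fun k => lift (m '' S k) _ (c1 _ k ((s1 k).mono fun n hn =>
      ⟨hn, _, ⟨n, hn, rfl⟩, hm n⟩))
    obtain ⟨p, p1, p2⟩ := lift (range c) _ (c2 _ (infinite_univ.mono fun k _ =>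
      ⟨_, ⟨k, rfl⟩, e2 k⟩))
    obtain ⟨O, hO⟩ := (𝓝 p).exists_antitone_basis
    have : ∀ i, ∃ k > i, (S k ∩ {n | m n ∈ O i}).Infinite := fun i => by
      have o1 : IsOpen (f ⁻¹' mk True univ (Ioi i)) :=
        (op _ _ _ (by simp) fun _ => ⟨eventually_gt_atTop i, univ_mem⟩).preimage f1
      obtain ⟨_, ⟨a, b⟩, k, rfl⟩ := mem_closure_iff.1 p1 _ (isOpen_interior.inter o1)
        ⟨mem_interior_iff_mem_nhds.2 (hO.mem i), by rw [mem_preimage, p2]; trivial⟩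
      rw [mem_preimage, e2] at b
      refine ⟨k, b, fun hf => ?_⟩
      have o2 : IsOpen (f ⁻¹' mk False (S k ∩ {n | m n ∈ O i})ᶜ univ) :=
        (op _ _ _ (fun l _ => hf.subset fun x hx => not_not.1 hx.2) (by simp)).preimage f1
      obtain ⟨_, ⟨a, b⟩, n, hn, rfl⟩ := mem_closure_iff.1 (e1 k) _ (isOpen_interior.inter o2)
        ⟨a, by rw [mem_preimage, e2]; trivial⟩
      rw [mem_preimage, hm] at b
      exact b ⟨hn, interior_subset (s := O i) a⟩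
    choose k k1 k2 using this
    obtain ⟨W, w1, w2, w3⟩ := g5 (⋃ i, S (k i) ∩ {n | m n ∈ O i})
      (infinite_of_forall_exists_gt fun i => ⟨k i, (k2 i).mono fun x hx =>
        ⟨hx.1, mem_iUnion.2 ⟨i, hx⟩⟩, k1 i⟩)
    obtain ⟨i, hi⟩ := hO.mem_iff.1 (((op True W univ (fun l _ => w3 l)
      fun _ => ⟨by simp, w1⟩).preimage f1).mem_nhds (by rw [mem_preimage, p2]; trivial))
    refine w2 (((finite_Iio i).biUnion fun j _ => w3 (k j)).subset fun x hx => ?_)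
    obtain ⟨j, hj⟩ := mem_iUnion.1 hx.1
    refine mem_biUnion (x := j) (mem_Iio.2 (not_le.1 fun h => hx.2 ?_)) ⟨hj.1, hx.2⟩
    have := hi (hO.antitone h hj.2)
    rwa [mem_preimage, hm] at this

theorem semistrat (Y : Type) [TopologicalSpace Y] [T1Space Y] [Countable Y] :
    ∃ G : Set Y → ℕ → Set Y, (∀ F : Set Y, IsClosed F → ∀ n, IsOpen (G F n)) ∧
      (∀ F : Set Y, IsClosed F → ⋂ n, G F n = F) ∧
      (∀ F K : Set Y, IsClosed F → IsClosed K → F ⊆ K → ∀ n, G F n ⊆ G K n) := by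
  obtain ⟨e, he⟩ := exists_injective_nat Y
  refine ⟨fun F n => (e ⁻¹' Iic n \ F)ᶜ, fun F _ n => (((finite_Iic n).preimage he.injOn).subset
    sdiff_subset).isClosed.isOpen_compl, fun F _ => ?_, fun F K _ _ h n =>
      compl_subset_compl.2 (sdiff_subset_sdiff_right h)⟩
  ext x
  simp only [mem_iInter, mem_compl_iff, Set.mem_sdiff, mem_preimage, mem_Iic, not_and, not_not]
  exact ⟨fun h => h _ le_rfl, fun h _ _ => h⟩

end Pool.Agent.Lib.helper4.Simon
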