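import Mathlib

set_option autoImplicit false

namespace Pool.Agent.Lib.helper4

/-- The skew Laurent series ring `A((x, φ))`: the underlying additive group is that of the formal
series `∑_{i ≥ n} a_i x^i` (Hahn series over `ℤ`, i.e. coefficient functions with support bounded
below); the multiplication, defined below, extends `x a = φ(a) x`. -/
def SkewLaurent {A : Type} [Ring A] (_φ : RingAut A) : Type := HahnSeries ℤ A

namespace SkewLaurent

variable {A : Type} [Ring A] {φ : RingAut A}

noncomputable instance : AddCommGroup (SkewLaurent φ) :=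
  inferInstanceAs (AddCommGroup (HahnSeries ℤ A))

/-- The coefficient `a_n` of `x^n`. -/
def coeff (f : SkewLaurent φ) (n : ℤ) : A := HahnSeries.coeff f n

theorem ext {f g : SkewLaurent φ} (h : ∀ n, f.coeff n = g.coeff n) : f = g :=
  HahnSeries.ext (funext h)

theorem exists_bound (f : SkewLaurent φ) : ∃ N : ℤ, ∀ i, f.coeff i ≠ 0 → N ≤ i :=
  ⟨HahnSeries.order f, fun _ hi => HahnSeries.order_le_of_coeff_ne_zero hi⟩

/-- The series with coefficient function `c`, which vanishes below `N`. -/
def mk (φ : RingAut A) (c : ℤ → A) (h : ∃ N : ℤ, ∀ i, c i ≠ 0 → N ≤ i) : SkewLaurent φ :=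
  HahnSeries.ofSuppBddBelow c ⟨h.choose, fun i hi => h.choose_spec i hi⟩

@[simp] theorem coeff_mk (c : ℤ → A) (h : ∃ N : ℤ, ∀ i, c i ≠ 0 → N ≤ i) (n : ℤ) :
    (mk φ c h).coeff n = c n := rfl

/-- The monomial `a x^n`. -/
def single (φ : RingAut A) (n : ℤ) (a : A) : SkewLaurent φ :=
  mk φ (fun i => if i = n then a else 0) ⟨n, fun i hi => by
    by_contra h; exact hi (if_neg (by omega))⟩

instance : One (SkewLaurent φ) := ⟨single φ 0 1⟩

/-- Multiplication: the coefficient of `x^n` in `f g` is the (finite) sum
`∑_i f_i φ^i(g_{n-i})`, since `x^i a = φ^i(a) x^i`. -/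
noncomputable instance : Mul (SkewLaurent φ) :=
  ⟨fun f g => mk φ (fun n => ∑ᶠ i : ℤ, f.coeff i * (φ ^ i) (g.coeff (n - i))) (by
    obtain ⟨N, hN⟩ := f.exists_bound
    obtain ⟨M, hM⟩ := g.exists_bound
    refine ⟨N + M, fun n hn => ?_⟩
    by_contra h
    refine hn (finsum_eq_zero_of_forall_eq_zero fun i => ?_)
    by_cases h1 : f.coeff i = 0
    · simp [h1]
    · have h2 : g.coeff (n - i) = 0 := by
        by_contra h2
        have := hN i h1; have := hM _ h2; omega
      simp [h2])⟩

@[simp] theorem coeff_add (f g : SkewLaurent φ) (n : ℤ) :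
    (f + g).coeff n = f.coeff n + g.coeff n := rfl

@[simp] theorem coeff_zero (n : ℤ) : (0 : SkewLaurent φ).coeff n = 0 := rfl

@[simp] theorem coeff_neg (f : SkewLaurent φ) (n : ℤ) : (-f).coeff n = -f.coeff n :=
  HahnSeries.coeff_neg

@[simp] theorem coeff_sub (f g : SkewLaurent φ) (n : ℤ) :
    (f - g).coeff n = f.coeff n - g.coeff n := HahnSeries.coeff_sub

theorem coeff_single (n : ℤ) (a : A) (i : ℤ) :
    (single φ n a).coeff i = if i = n then a else 0 := rfl

theorem coeff_one (i : ℤ) : (1 : SkewLaurent φ).coeff i = if i = 0 then 1 else 0 := rfl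

theorem coeff_mul (f g : SkewLaurent φ) (n : ℤ) (S : Finset ℤ)
    (h : ∀ i, f.coeff i ≠ 0 → g.coeff (n - i) ≠ 0 → i ∈ S) :
    (f * g).coeff n = ∑ i ∈ S, f.coeff i * (φ ^ i) (g.coeff (n - i)) := by
  refine finsum_eq_sum_of_support_subset _ fun i hi => h i ?_ ?_
  · intro h0; simp [h0] at hi
  · intro h0; simp [h0] at hi

theorem coeff_single_mul (k : ℤ) (a : A) (g : SkewLaurent φ) (n : ℤ) :
    (single φ k a * g).coeff n = a * (φ ^ k) (g.coeff (n - k)) := by
  rw [coeff_mul _ _ n {k} fun i h _ => by
    by_contra hi; exact h (if_neg (by simpa using hi))]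
  simp [coeff_single]

theorem coeff_mul_single (f : SkewLaurent φ) (k : ℤ) (a : A) (n : ℤ) :
    (f * single φ k a).coeff n = f.coeff (n - k) * (φ ^ (n - k)) a := by
  rw [coeff_mul _ _ n {n - k} fun i _ h => by
    by_contra hi; exact h (if_neg (by simp at hi; omega))]
  simp [coeff_single]

theorem bound3 (f g h : SkewLaurent φ) : ∃ N : ℤ, (∀ i, f.coeff i ≠ 0 → N ≤ i) ∧
    (∀ i, g.coeff i ≠ 0 → N ≤ i) ∧ ∀ i, h.coeff i ≠ 0 → N ≤ i := by
  obtain ⟨a, ha⟩ := f.exists_bound
  obtain ⟨b, hb⟩ := g.exists_bound
  obtain ⟨c, hc⟩ := h.exists_bound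
  exact ⟨min a (min b c), fun i hi => by have := ha i hi; omega,
    fun i hi => by have := hb i hi; omega, fun i hi => by have := hc i hi; omega⟩

theorem mul_bound {f g : SkewLaurent φ} {N M : ℤ} (hN : ∀ i, f.coeff i ≠ 0 → N ≤ i)
    (hM : ∀ i, g.coeff i ≠ 0 → M ≤ i) (n : ℤ) (hn : (f * g).coeff n ≠ 0) : N + M ≤ n := by
  by_contra h
  refine hn ?_
  rw [coeff_mul f g n ∅ fun i h1 h2 => by have := hN i h1; have := hM _ h2; omega]
  simp

noncomputable instance : Ring (SkewLaurent φ) :=
  { (inferInstance : AddCommGroup (SkewLaurent φ)), (inferInstance : One (SkewLaurent φ)),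
    (inferInstance : Mul (SkewLaurent φ)) with
    one_mul := fun f => ext fun n => by
      exact (coeff_single_mul (φ := φ) 0 1 f n).trans (by simp)
    mul_one := fun f => ext fun n => by
      exact (coeff_mul_single f 0 1 n).trans (by simp)
    zero_mul := fun f => ext fun n => by
      rw [coeff_mul 0 f n ∅ fun i h _ => absurd rfl h]; simp
    mul_zero := fun f => ext fun n => by
      rw [coeff_mul f 0 n ∅ fun i _ h => absurd rfl h]; simp
    left_distrib := fun f g h => ext fun n => by
      obtain ⟨N, h1, h2, h3⟩ := bound3 f g h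
      rw [coeff_add, coeff_mul f g n (Finset.Icc N (n - N)), coeff_mul f h n (Finset.Icc N (n - N)),
        coeff_mul f (g + h) n (Finset.Icc N (n - N))]
      · simp [mul_add, Finset.sum_add_distrib]
      · intro i a b
        have := h1 i a
        have : N ≤ n - i := by
          by_contra hc
          refine b ?_
          rw [coeff_add, not_not.1 (mt (h2 _) hc), not_not.1 (mt (h3 _) hc), add_zero]
        simp; omega
      · intro i a b; have := h1 i a; have := h3 _ b; simp; omega
      · intro i a b; have := h1 i a; have := h2 _ b; simp; omega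
    right_distrib := fun f g h => ext fun n => by
      obtain ⟨N, h1, h2, h3⟩ := bound3 f g h
      rw [coeff_add, coeff_mul f h n (Finset.Icc N (n - N)), coeff_mul g h n (Finset.Icc N (n - N)),
        coeff_mul (f + g) h n (Finset.Icc N (n - N))]
      · simp [add_mul, Finset.sum_add_distrib]
      · intro i a b
        have := h3 _ b
        have : N ≤ i := by
          by_contra hc
          refine a ?_
          rw [coeff_add, not_not.1 (mt (h1 _) hc), not_not.1 (mt (h2 _) hc), add_zero]
        simp; omega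
      · intro i a b; have := h2 i a; have := h3 _ b; simp; omega
      · intro i a b; have := h1 i a; have := h3 _ b; simp; omega
    mul_assoc := fun f g h => ext fun n => by
      obtain ⟨N, h1, h2, h3⟩ := bound3 f g h
      rw [coeff_mul (f * g) h n (Finset.Icc (N + N) (n - N)) fun i a b => by
          have := mul_bound h1 h2 i a; have := h3 _ b; simp; omega,
        coeff_mul f (g * h) n (Finset.Icc N (n - (N + N))) fun i a b => by
          have := mul_bound h2 h3 _ b; have := h1 _ a; simp; omega]
      rw [Finset.sum_congr rfl fun m hm => by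
        rw [coeff_mul f g m (Finset.Icc N (n - (N + N))) fun i a b => by
          have := h1 i a; have := h2 _ b; simp at hm ⊢; omega, Finset.sum_mul]]
      rw [Finset.sum_comm]
      refine Finset.sum_congr rfl fun i hi => ?_
      rw [coeff_mul g h (n - i) ((Finset.Icc (N + N) (n - N)).image (· - i)) fun j a b => by
          have := h2 j a; have := h3 _ b
          simp only [Finset.mem_Icc] at hi
          exact Finset.mem_image.2 ⟨j + i, by simp; omega, by simp⟩,
        Finset.sum_image fun a _ b _ hab => by simpa using hab, map_sum, Finset.mul_sum]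
      refine Finset.sum_congr rfl fun m _ => ?_
      rw [map_mul, mul_assoc, show n - i - (m - i) = n - m by ring,
        show φ ^ m = φ ^ i * φ ^ (m - i) by rw [← zpow_add]; congr 1; ring]
      rfl }

theorem single_mul_single (i j : ℤ) (a b : A) :
    single φ i a * single φ j b = single φ (i + j) (a * (φ ^ i) b) := ext fun n => by
  rw [coeff_single_mul, coeff_single, coeff_single]
  by_cases h : n = i + j
  · rw [if_pos h, if_pos (by omega)]
  · rw [if_neg h, if_neg (by omega)]; simp

theorem one_def : (1 : SkewLaurent φ) = single φ 0 1 := rfl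

/-- If `f` has only positive powers of `x`, then `1 - f` has a left inverse. -/
theorem left_inv_one_sub (f : SkewLaurent φ) (hf : ∀ i, f.coeff i ≠ 0 → 1 ≤ i) :
    ∃ g : SkewLaurent φ, g * (1 - f) = 1 := by
  let c : ℕ → A := fun n => Nat.strongRec (motive := fun _ => A) (fun n ih =>
    (if n = 0 then 1 else 0) +
      ∑ i : Fin n, ih i i.2 * (φ ^ ((i : ℕ) : ℤ)) (f.coeff (n - (i : ℕ)))) n
  have hc : ∀ n, c n = (if n = 0 then 1 else 0) +
      ∑ i : Fin n, c i * (φ ^ ((i : ℕ) : ℤ)) (f.coeff (n - (i : ℕ))) := fun n => by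
    simp only [c]; rw [Nat.strongRec_eq]
  let g : SkewLaurent φ := mk φ (fun i => if 0 ≤ i then c i.toNat else 0)
    ⟨0, fun i hi => by by_contra h; exact hi (if_neg h)⟩
  have hg : ∀ i, g.coeff i ≠ 0 → 0 ≤ i := fun i hi => by by_contra h; exact hi (if_neg h)
  refine ⟨g, ?_⟩
  rw [mul_sub, mul_one, sub_eq_iff_eq_add]
  refine ext fun n => ?_
  rw [coeff_add, coeff_one]
  by_cases hn : 0 ≤ n
  · obtain ⟨m, rfl⟩ := Int.eq_ofNat_of_zero_le hn
    rw [coeff_mul g f m ((Finset.range m).image Nat.cast) fun i a b => by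
        have := hg i a; have := hf _ b
        exact Finset.mem_image.2 ⟨i.toNat, by simp; omega, by omega⟩,
      Finset.sum_image fun a _ b _ hab => by simpa using hab, Finset.sum_range]
    simp only [g, coeff_mk, Int.natCast_nonneg, if_true, Int.toNat_natCast, Nat.cast_eq_zero]
    exact hc m
  · have h1 : g.coeff n = 0 := not_not.1 (mt (hg n) hn)
    have h2 : (g * f).coeff n = 0 := by
      by_contra h; have := mul_bound hg hf n h; omega
    rw [h1, h2, if_neg (by omega), add_zero]

end SkewLaurent

end Pool.Agent.Lib.helper4
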