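import Pool.Agent.Lib.helper4.LargePart

namespace Pool.Agent.H4Small

open Cardinal hiding univ
open Set Pointwise Pool.Agent.H4Large

universe u

lemma first_finite (f : Ordinal.{u} → Ordinal.{u}) (hf : Antitone f) :
    {o | ∀ α < o, f α ≠ f o}.Finite := by
  have a1 : ((fun o => (o, f o)) '' {o | ∀ α < o, f α ≠ f o}).Finite := by
    refine WellQuasiOrderedLE.finite_of_isAntichain ?_
    rintro _ ⟨o, -, rfl⟩ _ ⟨o', ho', rfl⟩ hne ⟨h1, h2⟩
    simp only at h1 h2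
    rcases h1.lt_or_eq with h3 | h3
    · exact ho' o h3 (le_antisymm h2 (hf h1))
    · exact hne (by simp only [h3])
  exact Set.Finite.of_finite_image a1 fun a _ b _ e => congrArg Prod.fst e

lemma range_finite (f : Ordinal.{u} → Ordinal.{u}) (hf : Antitone f) : (range f).Finite := by
  refine ((first_finite f hf).image f).subset ?_
  rintro _ ⟨o, rfl⟩
  have hne : {o' | f o' = f o}.Nonempty := ⟨o, rfl⟩
  refine ⟨sInf {o' | f o' = f o}, fun α hα e => ?_, csInf_mem hne⟩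
  have : α ∈ {o' | f o' = f o} := e.trans (csInf_mem hne)
  exact absurd (csInf_le' this) (not_le.2 hα)

variable {G : Type u} [Group G]

noncomputable def mR (w : G → Ordinal.{u}) (K : Subgroup G) (g : G) : Ordinal.{u} :=
  sInf {o | ∃ k ∈ K, o = w (k * g)}

lemma mR_spec (w : G → Ordinal.{u}) (K : Subgroup G) (g : G) : ∃ k ∈ K, mR w K g = w (k * g) :=
  csInf_mem (s := {o | ∃ k ∈ K, o = w (k * g)}) ⟨_, 1, K.one_mem, rfl⟩

lemma mR_mul (w : G → Ordinal.{u}) {K : Subgroup G} {k : G} (hk : k ∈ K) (g : G) :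
    mR w K (k * g) = mR w K g := by
  refine congrArg sInf ?_
  ext o
  constructor
  · rintro ⟨a, ha, rfl⟩
    exact ⟨a * k, K.mul_mem ha hk, by rw [mul_assoc]⟩
  · rintro ⟨a, ha, rfl⟩
    exact ⟨a * k⁻¹, K.mul_mem ha (K.inv_mem hk), by congr 1; group⟩

lemma mR_anti (w : G → Ordinal.{u}) {K K' : Subgroup G} (h : K ≤ K') (g : G) :
    mR w K' g ≤ mR w K g := by
  obtain ⟨k, hk, e⟩ := mR_spec w K g
  exact csInf_le' ⟨k, h hk, e⟩

lemma mR_eq {w : G → Ordinal.{u}} (hw : Function.Injective w) {K : Subgroup G} {g g' : G}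
    (h : mR w K g = mR w K g') : g' * g⁻¹ ∈ K := by
  obtain ⟨k, hk, e⟩ := mR_spec w K g
  obtain ⟨k', hk', e'⟩ := mR_spec w K g'
  have e1 : k * g = k' * g' := hw (e.symm.trans (h.trans e'))
  have : g' * g⁻¹ = k'⁻¹ * k := by
    calc g' * g⁻¹ = k'⁻¹ * (k' * g') * g⁻¹ := by group
      _ = k'⁻¹ * k := by rw [← e1]; group
  exact this ▸ K.mul_mem (K.inv_mem hk') hk

noncomputable def suf (w : G → Ordinal.{u}) (K : Subgroup G) (g : G) : G :=
  (mR_spec w K g⁻¹).choose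

lemma suf_mem (w : G → Ordinal.{u}) (K : Subgroup G) (g : G) : suf w K g ∈ K :=
  (mR_spec w K g⁻¹).choose_spec.1

lemma suf_spec (w : G → Ordinal.{u}) (K : Subgroup G) (g : G) :
    mR w K g⁻¹ = w (suf w K g * g⁻¹) :=
  (mR_spec w K g⁻¹).choose_spec.2

lemma suf_mul {w : G → Ordinal.{u}} (hw : Function.Injective w) {K : Subgroup G} {k : G}
    (hk : k ∈ K) (g : G) : suf w K (g * k) = suf w K g * k := by
  have e1 := suf_spec w K (g * k)
  rw [mul_inv_rev, mR_mul w (K.inv_mem hk), suf_spec] at e1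
  have e2 := hw e1
  calc suf w K (g * k) = suf w K (g * k) * (k⁻¹ * g⁻¹) * (g * k) := by group
    _ = _ := by rw [← e2]; group

lemma suf_eq {w : G → Ordinal.{u}} (hw : Function.Injective w) {K K' : Subgroup G} {g : G}
    (h : mR w K g⁻¹ = mR w K' g⁻¹) : suf w K g = suf w K' g := by
  rw [suf_spec, suf_spec] at h
  exact mul_right_cancel (hw h)

noncomputable def len (w : G → Ordinal.{u}) (C : Ordinal.{u} → Subgroup G) (g : G) : ℕ :=
  (range fun o => mR w (C o) g).ncard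

lemma chain_len {w : G → Ordinal.{u}} (hw : Function.Injective w) {C : Ordinal.{u} → Subgroup G}
    (hC : Monotone C) (H : Subgroup G) (δ : ℕ → Ordinal.{u}) (hδ : Monotone δ)
    (hh : ∀ j, ∃ h ∈ H, h ∈ C (δ (j + 1)) ∧ h ∉ C (δ j)) (N : ℕ) (x : G) :
    ∃ u ∈ H, u ∈ C (δ N) ∧ ∃ S : Finset Ordinal.{u}, S.card = N ∧
      ∀ s ∈ S, (∃ j, s = mR w (C (δ j)) (u * x)) ∧ mR w (C (δ N)) x < s := by
  classical
  induction N generalizing x with
  | zero => exact ⟨1, H.one_mem, Subgroup.one_mem _, ∅, rfl, by simp⟩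
  | succ N ih =>
    have hle : C (δ N) ≤ C (δ (N + 1)) := hC (hδ (Nat.le_succ N))
    have key : ∃ v ∈ H, v ∈ C (δ (N + 1)) ∧ mR w (C (δ (N + 1))) x < mR w (C (δ N)) (v * x) := by
      obtain ⟨h, h1, h2, h3⟩ := hh N
      by_contra hn
      push Not at hn
      have a1 := hn 1 H.one_mem (Subgroup.one_mem _)
      have a2 := hn h h1 h2
      rw [one_mul] at a1
      have a3 := mR_anti w hle (h * x)
      rw [mR_mul w h2] at a3
      have a4 : mR w (C (δ N)) x = mR w (C (δ N)) (h * x) :=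
        (le_antisymm a1 (mR_anti w hle x)).trans (le_antisymm a3 a2)
      exact h3 (by simpa using mR_eq hw a4)
    obtain ⟨v, v1, v2, v3⟩ := key
    obtain ⟨u, u1, u2, S, S1, S2⟩ := ih (v * x)
    refine ⟨u * v, H.mul_mem u1 v1, Subgroup.mul_mem _ (hle u2) v2,
      insert (mR w (C (δ N)) (v * x)) S, ?_, ?_⟩
    · rw [Finset.card_insert_of_notMem (fun h => (S2 _ h).2.false), S1]
    · intro s hs
      rcases Finset.mem_insert.1 hs with rfl | hs
      · exact ⟨⟨N, by rw [mul_assoc, mR_mul w u2]⟩, v3⟩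
      · exact ⟨by simpa only [mul_assoc] using (S2 s hs).1, v3.trans (S2 s hs).2⟩

lemma limit_lemma {w : G → Ordinal.{u}} (hw : Function.Injective w)
    {C : Ordinal.{u} → Subgroup G} (hC : Monotone C) (H : Subgroup G) {μ : Cardinal.{u}}
    (hμ : μ.IsRegular) {β : Ordinal.{u}} (hβ : ∀ g ∈ C β, ∃ α < β, g ∈ C α)
    (h1 : μ ≤ #(H ⊓ C β : Subgroup G)) (h2 : ∀ α < β, #(H ⊓ C α : Subgroup G) < μ)
    (Y : Set G) (hY : Y ⊆ C β) (hYμ : #Y < μ) (n : ℕ) :
    ∃ δ < β, ∀ x, ∃ u ∈ H, u ∈ C δ ∧ ∀ y ∈ Y, n ≤ len w C (y * u * x) := by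
  have a0 : ∃ δ < β, Y ⊆ C δ := by
    choose α hα1 hα2 using fun y : Y => hβ y.1 (hY y.2)
    by_contra hn
    push Not at hn
    have b1 : ((H ⊓ C β : Subgroup G) : Set G) ⊆ ⋃ y : Y, ((H ⊓ C (α y) : Subgroup G) : Set G) := by
      rintro g ⟨g1, g2⟩
      obtain ⟨δ, hδ, g3⟩ := hβ g g2
      obtain ⟨y, y1, y2⟩ := not_subset.1 (hn δ hδ)
      refine mem_iUnion.2 ⟨⟨y, y1⟩, g1, hC ?_ g3⟩
      by_contra h
      exact y2 (hC (not_le.1 h).le (hα2 ⟨y, y1⟩))
    have b2 := (card_iUnion_lt_iff_forall_of_isRegular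
      (t := fun y : Y => ((H ⊓ C (α y) : Subgroup G) : Set G)) hμ hYμ).2 fun y => h2 _ (hα1 y)
    exact absurd (h1.trans (mk_le_mk_of_subset b1)) (not_le.2 b2)
  have a1 : ∀ δ : Iio β, ∃ δ' : Iio β, δ.1 ≤ δ'.1 ∧ ∃ h ∈ H, h ∈ C δ' ∧ h ∉ C δ := by
    rintro ⟨δ, hδ⟩
    have b1 : ¬ ((H ⊓ C β : Subgroup G) : Set G) ⊆ ((H ⊓ C δ : Subgroup G) : Set G) := fun h =>
      absurd (h1.trans (mk_le_mk_of_subset h)) (not_le.2 (h2 δ hδ))
    obtain ⟨h, ⟨b2, b3⟩, b4⟩ := not_subset.1 b1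
    obtain ⟨α, hα, b5⟩ := hβ h b3
    exact ⟨⟨max δ α, max_lt hδ hα⟩, le_max_left _ _, h, b2, hC (le_max_right _ _) b5,
      fun b6 => b4 ⟨b2, b6⟩⟩
  choose f hf1 hf2 using a1
  obtain ⟨δ0, hδ0, hY0⟩ := a0
  let δ : ℕ → Ordinal.{u} := fun j => (f^[j] ⟨δ0, hδ0⟩).1
  have hδ : Monotone δ := monotone_nat_of_le_succ fun j => by
    simp only [δ, Function.iterate_succ_apply']
    exact hf1 _
  refine ⟨δ n, (f^[n] ⟨δ0, hδ0⟩).2, fun x => ?_⟩
  obtain ⟨u, u1, u2, S, S1, S2⟩ := chain_len hw hC H δ hδ (fun j => by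
    simp only [δ, Function.iterate_succ_apply']
    exact hf2 _) n x
  refine ⟨u, u1, u2, fun y hy => ?_⟩
  rw [← S1, ← Set.ncard_coe_finset]
  refine Set.ncard_le_ncard (fun s hs => ?_)
    (range_finite _ fun a b hab => mR_anti w (hC hab) _)
  obtain ⟨j, e⟩ := (S2 s hs).1
  refine ⟨δ j, ?_⟩
  have : y ∈ C (δ j) := hC (hδ (Nat.zero_le j)) (hY0 hy)
  simp only [mul_assoc, mR_mul w this, e]

lemma exists_chain (K : Subgroup G) (hK : ℵ₀ < #K) :
    ∃ C : Ordinal.{u} → Subgroup G, Monotone C ∧ C 0 = ⊥ ∧ C (#K).ord = K ∧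
      (∀ o < (#K).ord, #(C o) < #K) ∧
      ∀ β, Order.IsSuccLimit β → ∀ g ∈ C β, ∃ α < β, g ∈ C α := by
  obtain ⟨r, wo, hr⟩ := Cardinal.exists_ord_eq K
  let C : Ordinal.{u} → Subgroup G := fun o =>
    Subgroup.closure (Subtype.val '' {k : K | Ordinal.typein r k < o})
  have hC : Monotone C := fun a b hab =>
    Subgroup.closure_mono (image_mono fun k (hk : Ordinal.typein r k < a) =>
      show Ordinal.typein r k < b from hk.trans_le hab)
  refine ⟨C, hC, by simp [C], ?_, fun o ho => ?_, fun β hβ g hg => ?_⟩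
  · have : {k : K | Ordinal.typein r k < (#K).ord} = univ :=
      eq_univ_of_forall fun k => show Ordinal.typein r k < _ from hr ▸ Ordinal.typein_lt_type r k
    simp [C, this]
  · refine (closure_card _).trans_lt (max_lt (mk_image_le.trans_lt ?_) hK)
    obtain ⟨g, hg⟩ := Ordinal.typein_surj r (o := o) (hr ▸ ho)
    have : {k : K | Ordinal.typein r k < o} = {y | r y g} := by
      ext y
      simp only [mem_ofPred_eq, ← hg, Ordinal.typein_lt_typein]
    have h2 := Cardinal.card_typein_lt g hr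
    rw [Ordinal.card_typein] at h2
    rw [this]
    exact h2
  · induction hg using Subgroup.closure_induction with
    | mem x hx =>
      obtain ⟨k, hk, rfl⟩ := hx
      exact ⟨_, hβ.succ_lt (show Ordinal.typein r k < β from hk), Subgroup.subset_closure
        ⟨k, show Ordinal.typein r k < _ from Order.lt_succ _, rfl⟩⟩
    | one => exact ⟨0, hβ.bot_lt, Subgroup.one_mem _⟩
    | mul x y _ _ hx hy =>
      obtain ⟨a, ha, hx⟩ := hx
      obtain ⟨b, hb, hy⟩ := hy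
      exact ⟨max a b, max_lt ha hb,
        Subgroup.mul_mem _ (hC (le_max_left _ _) hx) (hC (le_max_right _ _) hy)⟩
    | inv x _ hx =>
      obtain ⟨a, ha, hx⟩ := hx
      exact ⟨a, ha, Subgroup.inv_mem _ hx⟩

def Spread (K : Subgroup G) (c : G → ℕ) : Prop :=
  ∀ μ : Cardinal.{u}, μ.IsRegular → ∀ H ≤ K, μ ≤ #H → ∀ Y ⊆ (K : Set G), #Y < μ → ∀ n : ℕ,
    ∃ u ∈ H, ∀ y ∈ Y, n ≤ c (y * u)

lemma spread_countable (K : Subgroup G) (hK : #K ≤ ℵ₀) : ∃ c, Spread K c := by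
  have hc : (K : Set G).Countable := Cardinal.le_aleph0_iff_set_countable.1 hK
  obtain ⟨c, hc⟩ := Set.countable_iff_exists_injOn.1 hc
  refine ⟨c, fun μ hμ H hH h1 Y hY h2 n => ?_⟩
  have hHK : #H ≤ #K := mk_le_mk_of_subset (s := (H : Set G)) (t := (K : Set G)) hH
  have hYf : Y.Finite := lt_aleph0_iff_set_finite.1 (h2.trans_le (h1.trans (hHK.trans hK)))
  have hHi : (H : Set G).Infinite := infinite_coe_iff.1 (infinite_iff.2 (hμ.aleph0_le.trans h1))
  have hA : (c ⁻¹' (Iio n) ∩ K).Finite :=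
    Set.Finite.of_finite_image ((finite_Iio n).subset (by rintro _ ⟨x, hx, rfl⟩; exact hx.1))
      (hc.mono inter_subset_right)
  obtain ⟨u, u1, u2⟩ := hHi.exists_notMem_finite (hYf.inv.mul hA)
  refine ⟨u, u1, fun y hy => ?_⟩
  by_contra hn
  exact u2 ⟨y⁻¹, by simpa using hy, y * u, ⟨not_le.1 hn, K.mul_mem (hY hy) (hH u1)⟩, by simp⟩

lemma spread (κ : Cardinal.{u}) : ∀ K : Subgroup G, #K = κ → ∃ c, Spread K c := by
  induction κ using WellFoundedLT.induction with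
  | _ κ ih =>
  intro K hK
  rcases le_or_gt #K ℵ₀ with h0 | h0
  · exact spread_countable K h0
  obtain ⟨w, hw⟩ : ∃ w : G → Ordinal.{u}, Function.Injective w :=
    ⟨Ordinal.typein WellOrderingRel, Ordinal.typein_injective _⟩
  obtain ⟨C, hC, C0, C1, C2, C3⟩ := exists_chain K h0
  have ih' : ∀ o, ∃ c, o < (#K).ord → Spread (C o) c := by
    intro o
    by_cases ho : o < (#K).ord
    · obtain ⟨c, hc⟩ := ih _ (hK ▸ C2 o ho) (C o) rfl
      exact ⟨c, fun _ => hc⟩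
    · exact ⟨0, fun h => absurd h ho⟩
  choose c hc using ih'
  have hb : ∀ g, ∃ N : ℕ, (∀ o, len w C (suf w (C o) g) ≤ N) ∧
      ∀ o, (∀ α < o, suf w (C o) g ∉ C α) → c o (suf w (C o) g) ≤ N := by
    intro g
    have hf : Antitone fun o => mR w (C o) g⁻¹ := fun a b hab => mR_anti w (hC hab) _
    have a1 : (range fun o => suf w (C o) g).Finite := by
      refine Set.Finite.of_finite_image (f := fun k => w (k * g⁻¹))
        ((range_finite _ hf).subset ?_) fun a _ b _ e => mul_right_cancel (hw e)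
      rintro _ ⟨_, ⟨o, rfl⟩, rfl⟩
      exact ⟨o, suf_spec w _ _⟩
    have a2 : {o | ∀ α < o, suf w (C o) g ∉ C α}.Finite :=
      (first_finite _ hf).subset fun o ho α hα e => ho α hα (suf_eq hw e ▸ suf_mem w _ _)
    obtain ⟨N1, h1⟩ := (a1.image (len w C)).bddAbove
    obtain ⟨N2, h2⟩ := (a2.image fun o => c o (suf w (C o) g)).bddAbove
    exact ⟨max N1 N2, fun o => (h1 ⟨_, ⟨o, rfl⟩, rfl⟩).trans (le_max_left _ _),
      fun o ho => (h2 ⟨o, ho, rfl⟩).trans (le_max_right _ _)⟩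
  choose N hN1 hN2 using hb
  refine ⟨N, fun μ hμ H hH h1 Y _ h2 n => ?_⟩
  have hne : (#K).ord ∈ {o | μ ≤ #(H ⊓ C o : Subgroup G)} := by
    change μ ≤ #(H ⊓ C (#K).ord : Subgroup G)
    rwa [C1, inf_eq_left.2 hH]
  set β := sInf {o | μ ≤ #(H ⊓ C o : Subgroup G)} with hβ
  have b1 : μ ≤ #(H ⊓ C β : Subgroup G) :=
    csInf_mem (s := {o | μ ≤ #(H ⊓ C o : Subgroup G)}) ⟨_, hne⟩
  have b2 : ∀ α < β, #(H ⊓ C α : Subgroup G) < μ := fun α hα =>
    not_le.1 fun h => absurd (csInf_le' (show α ∈ {o | μ ≤ #(H ⊓ C o : Subgroup G)} from h))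
      (not_le.2 hα)
  have b3 : β ≤ (#K).ord := csInf_le' hne
  have hY' : (suf w (C β)) '' Y ⊆ C β := by rintro _ ⟨y, -, rfl⟩; exact suf_mem w _ _
  have hY'' : #((suf w (C β)) '' Y) < μ := mk_image_le.trans_lt h2
  rcases Ordinal.zero_or_succ_or_isSuccLimit β with h | ⟨α, h⟩ | h
  · rw [h, C0, inf_bot_eq] at b1
    exact absurd (hμ.aleph0_le.trans b1) (by simp)
  · have d1 : α < β := h ▸ Order.lt_succ α
    have d2 : β < (#K).ord := h ▸ (isSuccLimit_ord h0.le).succ_lt (d1.trans_le b3)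
    let Bad : Set G := ⋃ y : (suf w (C β)) '' Y, {v | v⁻¹ ∈ H ⊓ C β ∧ y.1 * v⁻¹ ∈ C α}
    have d3 : #Bad < μ := by
      refine (card_iUnion_lt_iff_forall_of_isRegular hμ hY'').2 fun y => ?_
      rcases eq_empty_or_nonempty {v | v⁻¹ ∈ H ⊓ C β ∧ y.1 * v⁻¹ ∈ C α} with e | ⟨v, v1, v2⟩
      · rw [e]; simpa using hμ.pos
      · refine lt_of_le_of_lt ?_ (b2 α d1)
        refine mk_le_of_injective (f := fun z => ⟨v * z.1⁻¹, ?_, ?_⟩) ?_
        · simpa using H.mul_mem (H.inv_mem v1.1) z.2.1.1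
        · have := (C α).mul_mem ((C α).inv_mem v2) z.2.2
          simpa [mul_assoc] using this
        · intro a b e
          have e' : v * a.1⁻¹ = v * b.1⁻¹ := congrArg Subtype.val e
          exact Subtype.ext (inv_injective (mul_left_cancel e'))
    obtain ⟨u, u1, u2⟩ := hc β d2 μ hμ (H ⊓ C β) inf_le_right b1 ((suf w (C β)) '' Y ∪ Bad)
      (union_subset hY' (iUnion_subset fun y v hv => by simpa using hv.1.2))
      ((mk_union_le _ _).trans_lt (add_lt_of_lt hμ.aleph0_le hY'' d3)) (max n (c β 1 + 1))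
    refine ⟨u, u1.1, fun y hy => ?_⟩
    have e1 := suf_mul hw u1.2 y
    have d4 : ∀ γ < β, suf w (C β) (y * u) ∉ C γ := by
      intro γ hγ h3
      have h4 : suf w (C β) y * u ∈ C α := e1 ▸ hC (Order.lt_succ_iff.1 (h ▸ hγ)) h3
      have h5 := u2 u⁻¹ (Or.inr (mem_iUnion.2 ⟨⟨_, y, hy, rfl⟩, by simpa using ⟨u1, h4⟩⟩))
      rw [inv_mul_cancel] at h5
      omega
    refine le_trans ?_ (hN2 _ β d4)
    rw [e1]
    exact (le_max_left _ _).trans (u2 _ (Or.inl ⟨y, hy, rfl⟩))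
  · obtain ⟨δ, hδ, h3⟩ := limit_lemma hw hC H hμ (C3 β h) b1 b2 _ hY' hY'' n
    obtain ⟨u, u1, u2, u3⟩ := h3 1
    refine ⟨u, u1, fun y hy => le_trans ?_ (hN1 _ β)⟩
    rw [suf_mul hw (hC hδ.le u2)]
    simpa using u3 _ ⟨y, hy, rfl⟩

lemma exists_thick (G : Type u) [Group G] [Infinite G] : ∃ c : G → ℕ, ∀ F : Set G, #F < #G →
    ∀ n : ℕ, ∃ F' : Set G, #F' < #G ∧ ∀ x, ∃ u ∈ F', ∀ f ∈ F, n ≤ c (f * u * x) := by
  have htop : #(⊤ : Subgroup G) = #G := mk_congr Subgroup.topEquiv.toEquiv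
  rcases (aleph0_le_mk G).lt_or_eq with h0 | h0
  · by_cases hl : ∀ ν < #G, Order.succ ν < #G
    · obtain ⟨c, hc⟩ := spread (G := G) _ ⊤ rfl
      refine ⟨c, fun F hF n => ?_⟩
      have a1 : max #F ℵ₀ < #G := max_lt hF h0
      obtain ⟨s, hs⟩ := le_mk_iff_exists_set.1 (hl _ a1).le
      have a2 : ℵ₀ ≤ Order.succ (max #F ℵ₀) := (le_max_right _ _).trans (Order.le_succ _)
      have a3 : #(Subgroup.closure s) = Order.succ (max #F ℵ₀) := by
        rw [closure_card_eq (hs ▸ a2), hs]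
      refine ⟨Subgroup.closure s, a3.trans_lt (hl _ a1), fun x => ?_⟩
      obtain ⟨u, ⟨v, v1, rfl⟩, u2⟩ := hc _ (isRegular_succ (le_max_right #F ℵ₀))
        ((Subgroup.closure s).map (MulAut.conj x⁻¹).toMonoidHom) le_top
        (by
          rw [← a3]
          exact (mk_congr (Subgroup.equivMapOfInjective _ _ (MulAut.conj x⁻¹).injective).toEquiv).le)
        ((· * x) '' F) (subset_univ _)
        (mk_image_le.trans_lt ((le_max_left _ _).trans_lt (Order.lt_succ _))) n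
      refine ⟨v, v1, fun f hf => ?_⟩
      simpa [mul_assoc] using u2 _ ⟨f, hf, rfl⟩
    · push Not at hl
      obtain ⟨ν, h1, h3⟩ := hl
      have e : #G = Order.succ ν := le_antisymm h3 (Order.succ_le_of_lt h1)
      have hreg : (#G).IsRegular := e ▸ isRegular_succ (Order.lt_succ_iff.1 (e ▸ h0))
      obtain ⟨w, hw⟩ : ∃ w : G → Ordinal.{u}, Function.Injective w :=
        ⟨Ordinal.typein WellOrderingRel, Ordinal.typein_injective _⟩
      obtain ⟨C, hC, -, C1, C2, C3⟩ := exists_chain (⊤ : Subgroup G) (htop ▸ h0)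
      rw [htop] at C1 C2
      refine ⟨len w C, fun F hF n => ?_⟩
      obtain ⟨δ, hδ, h4⟩ := limit_lemma hw hC ⊤ hreg (C3 _ (isSuccLimit_ord h0.le))
        (by rw [C1, top_inf_eq, htop]) (fun α hα => by rw [top_inf_eq]; exact C2 α hα) F
        (by rw [C1]; exact subset_univ _) hF n
      refine ⟨C δ, C2 δ hδ, fun x => ?_⟩
      obtain ⟨u, -, u2, u3⟩ := h4 x
      exact ⟨u, u2, u3⟩
  · classical
    have : Countable G := mk_le_aleph0_iff.1 h0.ge
    obtain ⟨c, hc⟩ := exists_injective_nat G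
    refine ⟨c, fun F hF n => ?_⟩
    have hFf : F.Finite := lt_aleph0_iff_set_finite.1 (h0 ▸ hF)
    have hA : (c ⁻¹' (Iio n)).Finite := (finite_Iio n).preimage hc.injOn
    have hB := hFf.inv.mul hA
    obtain ⟨T, hT⟩ := Infinite.exists_subset_card_eq G (hB.toFinset.card + 1)
    refine ⟨T, h0 ▸ T.finite_toSet.lt_aleph0, fun x => ?_⟩
    by_contra hn
    push Not at hn
    have : T.card ≤ hB.toFinset.card := by
      refine Finset.card_le_card_of_injOn (· * x) (fun u hu => ?_) fun a _ b _ e =>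
        mul_right_cancel e
      obtain ⟨f, hf, h⟩ := hn u hu
      simp only [Finite.coe_toFinset]
      exact ⟨f⁻¹, by simpa using hf, f * u * x, h, by simp [mul_assoc]⟩
    omega

lemma small_of_thick [Infinite G] {A : Set G}
    (h : ∀ F : Set G, #F < #G → ∃ F' : Set G, #F' < #G ∧ ∀ x, ∃ u ∈ F', ∀ f ∈ F, f * u * x ∉ A)
    (L : Set G) (hL : ∃ F : Set G, #F < #G ∧ ∀ g : G, ∃ x ∈ F, ∃ y ∈ L, g = x * y) :
    ∃ F : Set G, #F < #G ∧ ∀ g : G, ∃ x ∈ F, ∃ y ∈ L, y ∉ A ∧ g = x * y := by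
  obtain ⟨F, hF, h1⟩ := hL
  obtain ⟨F', hF', h2⟩ := h F⁻¹ (by simpa using hF)
  refine ⟨F'⁻¹ * F, ?_, fun g => ?_⟩
  · refine Cardinal.mk_mul_le.trans_lt (mul_lt_of_lt (aleph0_le_mk G) (by simpa using hF') hF)
  · obtain ⟨u, u1, u2⟩ := h2 g
    obtain ⟨x, hx, y, hy, e⟩ := h1 (u * g)
    refine ⟨u⁻¹ * x, Set.mul_mem_mul (by simpa using u1) hx, y, hy, ?_, ?_⟩
    · have := u2 x⁻¹ (by simpa using hx)
      rwa [mul_assoc, e, inv_mul_cancel_left] at this
    · rw [mul_assoc, ← e, inv_mul_cancel_left]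

end Pool.Agent.H4Small
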