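import Mathlib
import Pool.Agent.Lib.helper4.Smir1

/-! A zero-dimensional space with a rational flow and too few uniformly continuous functions. -/

namespace Pool.Agent.Lib.helper4.Smir

open Set Filter Topology

/-- Points of the orbit space. -/
inductive Z
  | zero
  | b (ρ : Row)
  | a (γ : ℝ) (e : End)
  | i (γ : ℝ) (e : End) (ρ : Row)

/-- Basic neighbourhoods of the distinguished point. -/
def V (n : ℕ) : Set Z := {z | match z with
  | .zero => True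
  | .b ρ => n ≤ ρ.1.1
  | .a _ e => n ≤ lev e
  | .i _ _ ρ => n ≤ ρ.1.1}

theorem V_anti {n n' : ℕ} (h : n ≤ n') : V n' ⊆ V n := by
  intro z hz
  cases z with
  | zero => trivial
  | b ρ => exact h.trans hz
  | a γ e => exact h.trans hz
  | i γ e ρ => exact h.trans hz

/-- Open sets of the orbit space. -/
structure Op (U : Set Z) : Prop where
  zero : .zero ∈ U → ∃ n, V n ⊆ U
  b : ∀ ρ, .b ρ ∈ U → {p : ℝ × End | .i p.1 p.2 ρ ∉ U}.Finite
  a : ∀ γ e, .a γ e ∈ U → ∃ m, ∀ ρ ∈ F e m, .i γ e ρ ∈ U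

instance : TopologicalSpace Z where
  IsOpen := Op
  isOpen_univ := ⟨fun _ => ⟨0, subset_univ _⟩, fun _ _ => by simp, fun _ _ _ => ⟨0, fun _ _ => trivial⟩⟩
  isOpen_inter s t hs ht := by
    refine ⟨fun h => ?_, fun ρ h => ?_, fun γ e h => ?_⟩
    · obtain ⟨n, hn⟩ := hs.zero h.1
      obtain ⟨m, hm⟩ := ht.zero h.2
      exact ⟨max n m, subset_inter ((V_anti (le_max_left _ _)).trans hn)
        ((V_anti (le_max_right _ _)).trans hm)⟩
    · refine ((hs.b ρ h.1).union (ht.b ρ h.2)).subset fun p hp => ?_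
      by_contra hc
      rw [mem_union, not_or] at hc
      exact hp ⟨not_not.1 hc.1, not_not.1 hc.2⟩
    · obtain ⟨n, hn⟩ := hs.a γ e h.1
      obtain ⟨m, hm⟩ := ht.a γ e h.2
      exact ⟨max n m, fun ρ hρ => ⟨hn ρ (F_anti e (le_max_left _ _) hρ),
        hm ρ (F_anti e (le_max_right _ _) hρ)⟩⟩
  isOpen_sUnion S hS := by
    refine ⟨fun ⟨s, hs, h⟩ => ?_, fun ρ ⟨s, hs, h⟩ => ?_, fun γ e ⟨s, hs, h⟩ => ?_⟩
    · obtain ⟨n, hn⟩ := (hS s hs).zero h
      exact ⟨n, hn.trans (subset_sUnion_of_mem hs)⟩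
    · exact ((hS s hs).b ρ h).subset fun p hp hc => hp ⟨s, hs, hc⟩
    · obtain ⟨n, hn⟩ := (hS s hs).a γ e h
      exact ⟨n, fun ρ hρ => ⟨s, hs, hn ρ hρ⟩⟩

theorem isOpen_iff {U : Set Z} : IsOpen U ↔ Op U := Iff.rfl

theorem V_open (n : ℕ) : IsOpen (V n) := by
  refine ⟨fun _ => ⟨n, Subset.rfl⟩, fun ρ h => ?_, fun γ e h => ⟨0, fun ρ hρ => ?_⟩⟩
  · convert finite_empty
    exact eq_empty_of_forall_notMem fun p hp => hp h
  · exact le_trans h (F_lev hρ).1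

theorem V_closed_compl (n : ℕ) : IsClosed (V n)ᶜ := (V_open n).isClosed_compl

instance : T1Space Z := by
  refine ⟨fun z => ⟨isOpen_iff.2 ?_⟩⟩
  cases z with
  | zero => exact ⟨fun h => absurd rfl h, fun ρ _ => by simp, fun γ e _ => ⟨0, by simp⟩⟩
  | b ρ =>
    refine ⟨fun _ => ⟨ρ.1.1 + 1, ?_⟩, fun ρ _ => by simp, fun γ e _ => ⟨0, by simp⟩⟩
    rintro z hz rfl
    exact absurd hz (by simp [V])
  | a γ e =>
    refine ⟨fun _ => ⟨lev e + 1, ?_⟩, fun ρ _ => by simp, fun γ e _ => ⟨0, by simp⟩⟩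
    rintro z hz rfl
    exact absurd hz (by simp [V])
  | i γ e ρ =>
    refine ⟨fun _ => ⟨ρ.1.1 + 1, ?_⟩, fun ρ' _ => (finite_singleton (γ, e)).subset ?_,
      fun γ' e' _ => ?_⟩
    · rintro z hz rfl
      exact absurd hz (by simp [V])
    · intro p hp
      simp at hp
      exact Prod.ext hp.1 hp.2.1
    · obtain ⟨m, hm⟩ := F_out e' ρ
      refine ⟨m, fun ρ' h e => ?_⟩
      simp at e
      exact hm (e.2.2 ▸ h)

/-- A small open neighbourhood of each point. -/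
def Nb (m : ℕ) : Z → Set Z
  | .zero => V m
  | .b ρ => insert (.b ρ) {z | ∃ γ e, z = .i γ e ρ}
  | .a γ e => insert (.a γ e) {z | ∃ ρ ∈ F e m, z = .i γ e ρ}
  | .i γ e ρ => {.i γ e ρ}

theorem Nb_open (m : ℕ) (z : Z) : IsOpen (Nb m z) := by
  cases z with
  | zero => exact V_open m
  | b ρ =>
    refine ⟨fun h => by simp [Nb] at h, fun ρ' h => ?_, fun γ e h => by simp [Nb] at h⟩
    simp [Nb] at h
    subst h
    convert finite_empty
    exact eq_empty_of_forall_notMem fun p hp => hp (Or.inr ⟨p.1, p.2, rfl⟩)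
  | a γ e =>
    refine ⟨fun h => by simp [Nb] at h, fun ρ' h => by simp [Nb] at h, fun γ' e' h => ?_⟩
    simp [Nb] at h
    obtain ⟨rfl, rfl⟩ := h
    exact ⟨m, fun ρ hρ => Or.inr ⟨ρ, hρ, rfl⟩⟩
  | i γ e ρ =>
    exact ⟨fun h => by simp [Nb] at h, fun ρ' h => by simp [Nb] at h, fun γ' e' h => by simp [Nb] at h⟩

theorem Nb_self (m : ℕ) (z : Z) : z ∈ Nb m z := by
  cases z with
  | zero => trivial
  | b ρ => exact mem_insert _ _
  | a γ e => exact mem_insert _ _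
  | i γ e ρ => rfl

theorem Nb_nhds (m : ℕ) (z : Z) : Nb m z ∈ 𝓝 z := (Nb_open m z).mem_nhds (Nb_self m z)

theorem Nb_closed {z : Z} (hz : z ≠ .zero) {W : Set Z} (h1 : z ∈ W) (h2 : W ⊆ Nb 0 z) :
    IsClosed W := by
  refine ⟨isOpen_iff.2 ?_⟩
  cases z with
  | zero => exact absurd rfl hz
  | b ρ =>
    refine ⟨fun _ => ⟨ρ.1.1 + 1, fun z hz hw => ?_⟩, fun ρ' h => ?_, fun γ e _ => ?_⟩
    · rcases h2 hw with rfl | ⟨γ, e, rfl⟩ <;> simp [V] at hz
    · convert finite_empty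
      refine eq_empty_of_forall_notMem fun p hp => hp fun hw => h ?_
      rcases h2 hw with h' | ⟨_, _, h'⟩ <;> cases h'
      exact h1
    · obtain ⟨m, hm⟩ := F_out e ρ
      refine ⟨m, fun ρ' h hw => hm ?_⟩
      rcases h2 hw with h' | ⟨_, _, h'⟩ <;> cases h'
      exact h
  | a γ e =>
    refine ⟨fun _ => ⟨lev e + 2, fun z hz hw => ?_⟩,
      fun ρ' _ => (finite_singleton (γ, e)).subset fun p hp => ?_, fun γ' e' h => ⟨0, fun ρ _ hw => h ?_⟩⟩
    · rcases h2 hw with rfl | ⟨ρ, hρ, rfl⟩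
      · simp [V] at hz
      · have := (F_lev hρ).2
        simp [V] at hz
        omega
    · obtain ⟨p1, p2⟩ := p
      rcases h2 (not_not.1 hp) with h' | ⟨_, _, h'⟩ <;> cases h'
      rfl
    · rcases h2 hw with h' | ⟨_, _, h'⟩ <;> cases h'
      exact h1
  | i γ e ρ =>
    have : W = {.i γ e ρ} := Subset.antisymm h2 (singleton_subset_iff.2 h1)
    rw [this]
    exact isOpen_iff.1 isClosed_singleton.isOpen_compl

/-- The offset of the orbit over a point. -/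
noncomputable def th : Z → ℝ
  | .a _ (.inr _) => θ
  | _ => 0

/-- The open set attached to a node for the `n`-th clopen set. -/
def S (n : ℕ) (ν : Node) : Set ℝ := {u | n < ν.1 ∨ (n = ν.1 ∧ u ∈ E ν.2)}

/-- The sections of the `n`-th clopen set. -/
def R (n : ℕ) : Z → Set ℝ
  | .zero => univ
  | .b ρ => S n ρ.1
  | .a _ (.inl ν) => S n ν
  | .a _ (.inr p) => S n (p.1, [])
  | .i _ _ ρ => S n ρ.1

theorem S_lc (n : ℕ) (ν : Node) (t : ℚ) : ∀ᶠ u in 𝓝 (t : ℝ), (u ∈ S n ν ↔ (t : ℝ) ∈ S n ν) :=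
  (E_lc ν.2 t).mono fun _ hu => or_congr Iff.rfl (and_congr Iff.rfl hu)

theorem R_in {n : ℕ} {z : Z} {u : ℝ} (h : u ∈ R n z) : z ∈ V n := by
  have : ∀ ν, u ∈ S n ν → n ≤ ν.1 := fun ν h => h.elim le_of_lt (fun h => h.1.le)
  cases z with
  | zero => trivial
  | b ρ => exact this _ h
  | a γ e => rcases e with ν | p <;> exact this _ h
  | i γ e ρ => exact this _ h

theorem R_full {n : ℕ} {z : Z} (h : z ∈ V (n + 1)) (u : ℝ) : u ∈ R n z := by
  cases z with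
  | zero => trivial
  | b ρ => exact Or.inl h
  | a γ e => rcases e with ν | p <;> exact Or.inl h
  | i γ e ρ => exact Or.inl h

theorem R_lc (n : ℕ) (z : Z) (q : ℚ) : ∃ m, ∀ᶠ u in 𝓝 (th z + q), ∀ z' ∈ Nb m z,
    (u ∈ R n z' ↔ th z + q ∈ R n z) := by
  cases z with
  | zero => exact ⟨n + 1, Eventually.of_forall fun u z' hz => iff_of_true (R_full hz u) trivial⟩
  | b ρ =>
    refine ⟨0, ?_⟩
    simp only [th, zero_add]
    refine (S_lc n ρ.1 q).mono fun u hu z' hz => ?_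
    rcases hz with rfl | ⟨γ, e, rfl⟩ <;> exact hu
  | i γ e ρ =>
    refine ⟨0, ?_⟩
    simp only [th, zero_add]
    refine (S_lc n ρ.1 q).mono fun u hu z' hz => ?_
    rw [show z' = .i γ e ρ from hz]; exact hu
  | a γ e =>
    rcases e with ν | p
    · obtain ⟨m, hm⟩ := E_conv ν.2 q
      refine ⟨m, ?_⟩
      simp only [th, zero_add]
      filter_upwards [S_lc n ν q, hm] with u hu hu' z' hz
      rcases hz with rfl | ⟨ρ, ⟨h, _⟩ | ⟨k, hk, h⟩, rfl⟩
      · exact hu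
      · show u ∈ S n ρ.1 ↔ _
        rw [h]; exact hu
      · show u ∈ S n ρ.1 ↔ _
        rw [h]; exact or_congr Iff.rfl (and_congr Iff.rfl (hu' k hk))
    · obtain ⟨m, hm⟩ := exists_theta.choose_spec.2 q p.2
      refine ⟨m, hm.mono fun u hu z' hz => ?_⟩
      rcases hz with rfl | ⟨ρ, ⟨h, _⟩ | ⟨j, hj, h⟩, rfl⟩
      · simp [R, S, E]
      · show u ∈ S n ρ.1 ↔ _
        rw [h]; simp [R, S, E]
      · show u ∈ S n ρ.1 ↔ _
        have : u ∉ E (br p.2 j) := fun x => hu (E_anti p.2 hj x)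
        rw [h]; simp [R, S, E, this]; omega

/-- The space with the rational flow. -/
def X : Type := {p : ℝ × Z // ∃ q : ℚ, p.1 = th p.2 + q}

instance : TopologicalSpace X := instTopologicalSpaceSubtype

instance : AddAction ℚ X where
  vadd q x := ⟨(q + x.1.1, x.1.2), by
    obtain ⟨r, hr⟩ := x.2
    exact ⟨q + r, by rw [hr]; push_cast; ring⟩⟩
  zero_vadd x := Subtype.ext (Prod.ext (by show ((0 : ℚ) : ℝ) + x.1.1 = _; simp) rfl)
  add_vadd p q x := Subtype.ext (Prod.ext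
    (by show ((p + q : ℚ) : ℝ) + x.1.1 = p + (q + x.1.1); push_cast; ring) rfl)

theorem cval : Continuous (fun x : X => x.1) := continuous_subtype_val

theorem X_cont : ContinuousVAdd ℚ X :=
  ⟨Continuous.subtype_mk (((Rat.continuous_coe_real.comp continuous_fst).add
    (continuous_fst.comp (cval.comp continuous_snd))).prodMk
    (continuous_snd.comp (cval.comp continuous_snd))) _⟩

theorem nhdsX {x : X} {T : Set X} (h : T ∈ 𝓝 x) : ∃ δ > 0, ∃ U, IsOpen U ∧ x.1.2 ∈ U ∧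
    ∀ y : X, |y.1.1 - x.1.1| < δ → y.1.2 ∈ U → y ∈ T := by
  obtain ⟨T', h1, h2⟩ := (mem_nhds_subtype _ _ _).1 h
  obtain ⟨A, hA, B, hB, h3⟩ := mem_nhds_prod_iff.1 (show T' ∈ 𝓝 (x.1.1, x.1.2) from h1)
  obtain ⟨δ, hδ, h4⟩ := Metric.mem_nhds_iff.1 hA
  obtain ⟨U, h5, h6, h7⟩ := mem_nhds_iff.1 hB
  exact ⟨δ, hδ, U, h6, h7, fun y a b => h2 (h3 (mk_mem_prod (h4 a) (h5 b)))⟩

theorem K_clopen (n : ℕ) : IsClopen {x : X | x.1.1 ∈ R n x.1.2} := by
  have : IsLocallyConstant (fun x : X => x.1.1 ∈ R n x.1.2) := by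
    rw [IsLocallyConstant.iff_eventually_eq]
    intro x
    obtain ⟨q, hq⟩ := x.2
    obtain ⟨m, hm⟩ := R_lc n x.1.2 q
    rw [← hq] at hm
    have h := cval.continuousAt.eventually (hm.prod_nhds (Nb_nhds m x.1.2))
    exact h.mono fun y hy => propext (hy.1 _ hy.2)
  convert this.isClopen_fiber True using 2
  simp

theorem J_clopen (r : ℚ) : IsClopen {x : X | x.1.1 < √2 + r} := by
  have hc : Continuous (fun x : X => x.1.1) := continuous_fst.comp cval
  refine ⟨?_, isOpen_lt hc continuous_const⟩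
  convert isClosed_le hc (continuous_const (y := √2 + r)) using 2
  ext x
  refine ⟨le_of_lt, fun h => lt_of_le_of_ne h fun e => ?_⟩
  obtain ⟨q, hq⟩ := x.2
  rw [hq] at e
  have : th x.1.2 = θ ∨ th x.1.2 = 0 := by
    rcases x.1.2 with _ | _ | ⟨_, _ | _⟩ | _ <;> simp [th]
  rcases this with h | h
  · exact exists_theta.choose_spec.1 (r - q) (by push_cast; rw [h] at e; unfold θ at e; linarith)
  · exact irrational_sqrt_two ⟨q - r, by push_cast; rw [h] at e; linarith⟩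

theorem X_t35 : T35Space X := by
  have : T0Space X := inferInstanceAs (T0Space {p : ℝ × Z // ∃ q : ℚ, p.1 = th p.2 + q})
  have : CompletelyRegularSpace X := by
    refine ⟨fun x K hK hx => ?_⟩
    obtain ⟨δ, hδ, U, hU, h1, h2⟩ := nhdsX (hK.isOpen_compl.mem_nhds hx)
    obtain ⟨W, w1, w2, w3⟩ : ∃ W : Set X, IsClopen W ∧ x ∈ W ∧ ∀ y ∈ W, y.1.2 ∈ U := by
      by_cases hz : x.1.2 = .zero
      · obtain ⟨n, hn⟩ := (isOpen_iff.1 hU).zero (hz ▸ h1)
        exact ⟨_, K_clopen n, by show _ ∈ R n _; rw [hz]; trivial, fun y hy => hn (R_in hy)⟩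
      · have hc : IsClopen (U ∩ Nb 0 x.1.2) :=
          ⟨Nb_closed hz ⟨h1, Nb_self _ _⟩ inter_subset_right, hU.inter (Nb_open _ _)⟩
        exact ⟨_, hc.preimage (continuous_snd.comp cval), ⟨h1, Nb_self _ _⟩, fun y hy => hy.1⟩
    obtain ⟨r, r1, r2⟩ := exists_rat_btwn (show x.1.1 - √2 < x.1.1 - √2 + δ by linarith)
    obtain ⟨s, s1, s2⟩ := exists_rat_btwn (show x.1.1 - √2 - δ < x.1.1 - √2 by linarith)
    have hc := (w1.inter (J_clopen r)).inter (J_clopen s).compl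
    refine ⟨(fun b : Bool => cond b 0 1) ∘ Set.boolIndicator _, continuous_of_discreteTopology.comp
      ((continuous_boolIndicator_iff_isClopen _).2 hc), ?_, fun y hy => ?_⟩
    · rw [Function.comp_apply, (mem_iff_boolIndicator _ _).1 (show x ∈ _ ∩ _ ∩ _ from
        ⟨⟨w2, show x.1.1 < √2 + r by linarith⟩, show ¬ x.1.1 < √2 + s from not_lt.2 (by linarith)⟩)]
      rfl
    · rw [Function.comp_apply, (notMem_iff_boolIndicator _ _).1]
      · rfl
      · rintro ⟨⟨a, b⟩, c⟩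
        have b : y.1.1 < √2 + r := b
        have c : √2 + s ≤ y.1.1 := not_lt.1 c
        exact h2 y (abs_lt.2 ⟨by linarith, by linarith⟩) (w3 y a) hy
  exact ⟨⟩

theorem no_sep (f : X → ℝ) (hf : Continuous f)
    (hu : ∀ ε > 0, ∃ δ > 0, ∀ q : ℚ, |(q : ℝ)| < δ → ∀ x, |f (q +ᵥ x) - f x| < ε)
    (h1 : 0 < f ⟨(0, .zero), 0, by simp [th]⟩) (h0 : ∀ x : X, x.1.2 ∉ V 1 → f x = 0) : False := by
  let pb : Row → X := fun ρ => ⟨(0, .b ρ), 0, by simp [th]⟩
  let pi : ℝ → End → Row → X := fun γ e ρ => ⟨(0, .i γ e ρ), 0, by simp [th]⟩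
  have near : ∀ x : X, ∀ ε > 0, ∃ δ > 0, ∃ U, IsOpen U ∧ x.1.2 ∈ U ∧
      ∀ y : X, |y.1.1 - x.1.1| < δ → y.1.2 ∈ U → |f y - f x| < ε := fun x ε hε =>
    nhdsX (hf.continuousAt.preimage_mem_nhds (Metric.ball_mem_nhds (f x) hε))
  have good : ∀ e, ∃ γ, ∀ ρ, f (pi γ e ρ) = f (pb ρ) := by
    intro e
    have : ∀ ρ (k : ℕ), {γ | 1 / ((k : ℝ) + 1) ≤ |f (pi γ e ρ) - f (pb ρ)|}.Finite := by
      intro ρ k
      obtain ⟨δ, hδ, U, hU, a, b⟩ := near (pb ρ) (1 / ((k : ℝ) + 1)) (by positivity)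
      refine (((isOpen_iff.1 hU).b ρ a).image Prod.fst).subset fun γ hγ => ⟨(γ, e), fun hc => ?_, rfl⟩
      exact absurd (b (pi γ e ρ) (by simpa [pi, pb] using hδ) hc) (not_lt.2 hγ)
    have hc : (⋃ ρ, ⋃ k : ℕ, {γ | 1 / ((k : ℝ) + 1) ≤ |f (pi γ e ρ) - f (pb ρ)|}).Countable :=
      countable_iUnion fun ρ => countable_iUnion fun k => (this ρ k).countable
    obtain ⟨γ, hγ⟩ := (hc.ae_notMem MeasureTheory.volume).exists
    refine ⟨γ, fun ρ => ?_⟩
    by_contra hne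
    obtain ⟨k, hk⟩ := exists_nat_one_div_lt (abs_pos.2 (sub_ne_zero.2 hne))
    exact hγ (mem_iUnion.2 ⟨ρ, mem_iUnion.2 ⟨k, hk.le⟩⟩)
  have cauchy : ∀ e, ∀ ε > 0, ∃ m, ∀ ρ ∈ F e m, ∀ ρ' ∈ F e m, |f (pb ρ) - f (pb ρ')| < ε := by
    intro e ε hε
    obtain ⟨γ, hγ⟩ := good e
    obtain ⟨δ, hδ, hq⟩ := hu (ε / 4) (by positivity)
    obtain ⟨q, q1, q2⟩ := exists_rat_btwn
      (show -th (.a γ e) - δ / 2 < -th (.a γ e) + δ / 2 by linarith)
    let x : X := ⟨(th (.a γ e) + q, .a γ e), q, rfl⟩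
    obtain ⟨η, hη, U, hU, a, b⟩ := near x (ε / 4) (by positivity)
    obtain ⟨m, hm⟩ := (isOpen_iff.1 hU).a γ e a
    obtain ⟨u, u1, u2⟩ := exists_rat_btwn
      (show th (.a γ e) + q < th (.a γ e) + q + min η (δ / 2) by
        have := lt_min hη (half_pos hδ); linarith)
    have m1 := min_le_left η (δ / 2)
    have m2 := min_le_right η (δ / 2)
    have key : ∀ ρ ∈ F e m, |f (pb ρ) - f x| < ε / 2 := by
      intro ρ hρ
      have k1 := hq u (abs_lt.2 ⟨by linarith, by linarith⟩) (pi γ e ρ)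
      have k2 := b (u +ᵥ pi γ e ρ) (by
        show |(u : ℝ) + 0 - (th (.a γ e) + q)| < η
        exact abs_lt.2 ⟨by linarith, by linarith⟩) (hm ρ hρ)
      rw [hγ] at k1
      rw [abs_lt] at *
      constructor <;> linarith [k1.1, k1.2, k2.1, k2.2]
    refine ⟨m, fun ρ hρ ρ' hρ' => ?_⟩
    have k1 := key ρ hρ
    have k2 := key ρ' hρ'
    rw [abs_lt] at *
    constructor <;> linarith [k1.1, k1.2, k2.1, k2.2]
  obtain ⟨δ, hδ, U, hU, a, b⟩ := near ⟨(0, .zero), 0, by simp [th]⟩ _ (half_pos h1)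
  obtain ⟨n, hn⟩ := (isOpen_iff.1 hU).zero a
  have start : ∃ a > 0, ∀ᶠ l in atTop, a ≤ f (pb ((n, []), l)) := by
    refine ⟨_, half_pos h1, Eventually.of_forall fun l => ?_⟩
    have := b (pb ((n, []), l)) (by simpa [pb] using hδ) (hn (le_refl n))
    linarith [(abs_lt.1 this).1]
  have fin : ∀ n, (∃ a > 0, ∀ᶠ l in atTop, a ≤ f (pb ((n, []), l))) → False := by
    intro n
    induction n with
    | zero =>
      rintro ⟨a, ha, h⟩
      obtain ⟨l, hl⟩ := h.exists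
      rw [h0 _ (by simp [pb, V])] at hl
      linarith
    | succ n ih => exact fun h => ih (descend (fun ρ => f (pb ρ)) cauchy n h)
  exact fin n start

end Pool.Agent.Lib.helper4.Smir
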