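import Pool.Agent.Lib.helper4.GenDer
import Pool.Agent.Lib.helper22.MkA

/-! A pseudocompact group all of whose nontrivial closed subgroups contain arcs. -/

namespace Pool.Agent.Lib.helper4.ZGrp

open Set Filter Topology Finsupp

/-- Indices. -/
inductive J
  | base : J
  | node (c : ℕ → J) (z : ℕ → ℝ) : J

/-- Children. -/
def kid : J → ℕ → J
  | .base => fun _ => .base
  | .node c _ => c

/-- Values. -/
def val : J → ℕ → ℝ
  | .base => 0
  | .node _ z => z

/-- Rank. -/
noncomputable def rk : J → Ordinal.{0}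
  | .base => 0
  | .node c _ => ⨆ k, (rk (c k) + 1)

theorem rk_lt (c z n) : rk (c n) < rk (.node c z) :=
  (lt_add_one _).trans_le (Ordinal.le_iSup (fun k => rk (c k) + 1) n)

theorem rk_le (ξ n) : rk (kid ξ n) ≤ rk ξ := by
  cases ξ
  exacts [le_rfl, (rk_lt _ _ _).le]

open Classical in
/-- The matrix. -/
noncomputable def ψ (ξ α : J) : ℝ := if h : ∃ n, kid ξ n = α then val ξ h.choose
  else if h : ∃ n, kid α n = ξ then val α h.choose else 0

theorem row (c : ℕ → J) (w : J → ℝ) : ∃ ξ, ∀ n, ψ ξ (c n) = w (c n) :=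
  ⟨.node c (w ∘ c), fun n => by
    have h : ∃ m, kid (.node c (w ∘ c)) m = c n := ⟨n, rfl⟩
    rw [ψ, dif_pos h]; exact congrArg w h.choose_spec⟩

theorem col (c : ℕ → J) (w : J → ℝ) : ∃ α, ∀ n, ψ (c n) α = w (c n) :=
  ⟨.node c (w ∘ c), fun n => by
    have h : ∃ m, kid (.node c (w ∘ c)) m = c n := ⟨n, rfl⟩
    rw [ψ, dif_neg fun ⟨m, e⟩ => (e ▸ rk_le (c n) m).not_gt (rk_lt _ _ n), dif_pos h]
    exact congrArg w h.choose_spec⟩

/-- The sequences of convergence. -/
def H (q : ℕ → ℕ × ℕ →₀ ℝ) : AddSubgroup (ℕ × ℕ → ℝ) where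
  carrier := {r | CauchySeq fun n => ((linearCombination ℝ r (q n) : ℝ) : UnitAddCircle)}
  zero_mem' := by simp [linearCombination_apply, cauchySeq_const]
  add_mem' := fun a b => by
    simpa [linearCombination_apply, sum, mul_add, Finset.sum_add_distrib, Pi.add_def] using
      CauchySeq.add a b
  neg_mem' := fun a => by
    simpa [linearCombination_apply, sum, Pi.neg_def] using CauchySeq.neg a

theorem baire (q : ℕ → ℕ × ℕ →₀ ℝ) (h : H q = ⊤) : ∃ (φ : ℕ → ℕ) (a : ℕ × ℕ →₀ ℝ),
    StrictMono φ ∧ ∀ r : ℕ × ℕ → ℝ, Tendsto (fun n => linearCombination ℝ r (q (φ n))) atTop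
      (𝓝 (linearCombination ℝ r a)) := by
  obtain ⟨m, r, hr⟩ := nonempty_interior_of_iUnion_of_closed (f := fun m => ⋂ n, ⋂ _ : m ≤ n,
    {r : ℕ × ℕ → ℝ | ‖((linearCombination ℝ r (q n - q m) : ℝ) : UnitAddCircle)‖ ≤ 1 / 8})
    (fun m => isClosed_iInter fun n => isClosed_iInter fun _ => isClosed_le
      ((AddCircle.continuous_mk' 1).comp (by
        simp only [linearCombination_apply, sum]; fun_prop)).norm continuous_const)
    (eq_univ_of_forall fun r => by
      obtain ⟨m, hm⟩ := Metric.cauchySeq_iff'.1 (show r ∈ H q from h ▸ trivial) (1 / 8)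
        (by norm_num)
      exact mem_iUnion.2 ⟨m, mem_iInter₂.2 fun n e => by
        simpa [dist_eq_norm] using (hm n e).le⟩)
  have k : ∀ n, m ≤ n → ∀ i, (q n - q m) i ≠ 0 →
      r + Pi.single i (1 / (2 * (q n - q m) i)) ∉ interior (⋂ n, ⋂ _ : m ≤ n, {r : ℕ × ℕ → ℝ |
        ‖((linearCombination ℝ r (q n - q m) : ℝ) : UnitAddCircle)‖ ≤ 1 / 8}) :=
      fun n e i hi hc => by
    have a := mem_iInter₂.1 (interior_subset hr) n e
    have b := mem_iInter₂.1 (interior_subset hc) n e
    have c : linearCombination ℝ (r + Pi.single i (1 / (2 * (q n - q m) i))) (q n - q m) =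
        linearCombination ℝ r (q n - q m) + 1 / 2 := by
      generalize q n - q m = b at *
      simp only [linearCombination_apply, sum, Pi.add_apply, smul_eq_mul, mul_add,
        Finset.sum_add_distrib, Pi.single_apply, mul_ite, mul_zero, Finset.sum_ite_eq',
        mem_support_iff.2 hi, if_true]
      field_simp
    rw [mem_ofPred_eq, c, AddCircle.coe_add] at b
    have := norm_sub_le_of_le b a
    rw [add_sub_cancel_left, (AddCircle.norm_coe_eq_abs_iff 1 one_ne_zero).2 (by norm_num)] at this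
    norm_num at this
  obtain ⟨S, u, h1, h2⟩ := isOpen_pi_iff.1 isOpen_interior r hr
  have : ∀ i, ∃ M, ∀ n, m ≤ n → q n i ∈ Icc (-M) M := fun i => by
    obtain ⟨ε, a, b⟩ := Metric.isOpen_iff.1 (isOpen_interior.preimage
      (continuous_const.add (continuous_single (A := fun _ => ℝ) i) :
        Continuous fun t : ℝ => r + Pi.single i t)) 0 (by rw [← add_zero r, ← Pi.single_zero i] at hr; exact hr)
    refine ⟨|q m i| + 1 / (2 * ε), fun n e => abs_le.1 ?_⟩
    have : |(q n - q m) i| ≤ 1 / (2 * ε) := not_lt.1 fun c => by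
      have d := abs_pos.1 ((by positivity : 0 < 1 / (2 * ε)).trans c)
      refine k n e i d (b ?_)
      rw [mem_ball_zero_iff, Real.norm_eq_abs, abs_div, abs_mul, abs_one, abs_two,
        div_lt_iff₀ (by positivity)]
      rw [div_lt_iff₀ (by positivity)] at c
      linarith
    exact (by simpa using abs_add_le (q m i) ((q n - q m) i) :
      |q n i| ≤ _).trans (add_le_add le_rfl this)
  choose M hM using this
  obtain ⟨c, -, φ, p, t⟩ := (isCompact_univ_pi fun i => isCompact_Icc).tendsto_subseq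
    (x := fun n i => q (n + m) i) fun n i _ => hM i _ (Nat.le_add_left _ _)
  have s : ∀ n, (q (n + m)).support ⊆ S ∪ (q m).support := fun n i hi => by
    by_contra e
    rw [Finset.mem_union, not_or, notMem_support_iff] at e
    refine k _ (Nat.le_add_left _ _) i (by simpa [e.2] using hi) (h2 fun j hj => ?_)
    rw [Pi.add_apply, Pi.single_eq_of_ne (by rintro rfl; exact e.1 hj), add_zero]
    exact (h1 j hj).2
  have t := tendsto_pi_nhds.1 t
  refine ⟨fun n => φ n + m, onFinset (S ∪ (q m).support) c fun i hi => by_contra fun e => hi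
    (tendsto_nhds_unique (t i) (tendsto_const_nhds.congr fun n =>
      (notMem_support_iff.1 fun h => e (s _ h)).symm)), fun a b e => Nat.add_lt_add_right (p e) m,
    fun r => ?_⟩
  rw [linearCombination_onFinset]
  exact (tendsto_finsetSum _ fun i _ => (t i).smul_const _).congr fun n =>
    (sum_of_support_subset _ (s _) (fun i a => a • r i) fun _ _ => zero_smul ℝ _).symm

theorem exD : ∃ D : Derivation ℚ ℝ ℝ, ∀ q, (∀ u : ℕ → ℝ, (fun p => D^[p.2] (u p.1)) ∈ H q) →
    H q = ⊤ := GenDer.generic (by simp [Cardinal.mk_real, max_eq_right Cardinal.aleph0_le_continuum]) H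

/-- The derivation. -/
noncomputable def D : Derivation ℚ ℝ ℝ := exD.choose

/-- Evaluation. -/
noncomputable def ev (α : J) : (J × ℕ →₀ ℝ) →ₗ[ℝ] ℝ :=
  linearCombination ℝ fun p => D^[p.2] (ψ p.1 α)

/-- The parametrisation. -/
noncomputable def Φ : (J × ℕ →₀ ℝ) →+ (J → UnitAddCircle) where
  toFun a α := ev α a
  map_zero' := by ext; simp
  map_add' a b := by ext; simp

theorem limit (a : ℕ → J × ℕ →₀ ℝ) (h : ∀ α, CauchySeq fun n => Φ (a n) α) :
    ∃ (φ : ℕ → ℕ) (b : J × ℕ →₀ ℝ), StrictMono φ ∧ ∀ r : J × ℕ → ℝ,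
      Tendsto (fun n => linearCombination ℝ r (a (φ n))) atTop (𝓝 (linearCombination ℝ r b)) := by
  obtain ⟨c, hc⟩ := ((countable_iUnion fun n => (a n).support.countable_toSet.image
    Prod.fst).insert .base).exists_eq_range (insert_nonempty _ _)
  have m : ∀ n, ∀ p ∈ (a n).support, p.1 ∈ range c := fun n p hp =>
    hc ▸ Or.inr (mem_iUnion.2 ⟨n, p, hp, rfl⟩)
  let σ := Function.invFun c
  obtain ⟨φ, b, p, q⟩ := baire (fun n => mapDomain (Prod.map σ id) (a n))
    (exD.choose_spec _ fun u => by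
      obtain ⟨α, hα⟩ := col c (u ∘ σ)
      refine (congrArg CauchySeq (funext fun n => congrArg QuotientAddGroup.mk ?_)).mpr (h α)
      rw [linearCombination_mapDomain]
      refine sum_congr fun p hp => ?_
      obtain ⟨k, hk⟩ := m n p hp
      simp [← hk, hα, D])
  refine ⟨φ, mapDomain (Prod.map c id) b, p, fun r => ?_⟩
  rw [linearCombination_mapDomain]
  refine (q _).congr fun n => ?_
  rw [linearCombination_mapDomain]
  refine sum_congr fun p hp => ?_
  simp [σ, Prod.map, Function.invFun_eq (m _ p hp)]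

theorem inj (a : J × ℕ →₀ ℝ) (h : Φ a = 0) : a = 0 := by
  classical
  obtain ⟨φ, b, p, q⟩ := limit (fun n => n • a) fun α => by simp [h, cauchySeq_const]
  ext i
  by_contra e
  have := q (Pi.single i (a i)⁻¹)
  have f : linearCombination ℝ (Pi.single i (a i)⁻¹ : J × ℕ → ℝ) a = 1 := by
    simp [linearCombination_apply, sum, Pi.single_apply, show a i ≠ 0 from e]
  simp only [map_nsmul, f, nsmul_one] at this
  exact not_tendsto_nhds_of_tendsto_atTop (tendsto_natCast_atTop_atTop.comp p.tendsto_atTop) _ this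

/-- The derived coefficients. -/
noncomputable def δ (a : J × ℕ →₀ ℝ) : J × ℕ →₀ ℝ :=
  mapRange D (map_zero _) a + mapDomain (Prod.map id (· + 1)) a

theorem ev_δ (α a) : ev α (δ a) = D (ev α a) := by
  rw [δ, map_add, ev, linearCombination_mapDomain]
  simp only [linearCombination_apply]
  rw [sum_mapRange_index (by simp)]
  simp only [sum, map_sum, ← Finset.sum_add_distrib]
  refine Finset.sum_congr rfl fun p _ => ?_
  simp [Function.iterate_succ_apply', mul_comm]

theorem δ_inj (a) (h : δ a = 0) : a = 0 := by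
  by_contra e
  obtain ⟨p, hp, m⟩ := a.support.exists_max_image Prod.snd (support_nonempty_iff.2 e)
  have := DFunLike.congr_fun h (Prod.map id (· + 1) p)
  rw [δ, Finsupp.add_apply, mapRange_apply, mapDomain_apply
    (Function.injective_id.prodMap (add_left_injective 1)),
    notMem_support_iff.1 fun h => Nat.not_succ_le_self _ (m _ h)] at this
  exact mem_support_iff.1 hp (by simpa using this)

theorem arc (K : AddSubgroup (J → UnitAddCircle)) (a) (h : Φ a ∈ K) (t : ℝ) :
    Φ (t • δ a) ∈ closure (K : Set (J → UnitAddCircle)) := by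
  refine mem_closure_iff.2 fun U p q => ?_
  obtain ⟨S, u, h1, h2⟩ := isOpen_pi_iff.1 p _ q
  let π : (J → UnitAddCircle) →+ (S → UnitAddCircle) := AddMonoidHom.pi fun i =>
    Pi.evalAddMonoidHom _ i.1
  have : π (Φ (t • δ a)) ∈ (K.map π).topologicalClosure := by
    by_contra e
    obtain ⟨c, x, y⟩ := helper22.Mk.sep _ (K.map π).isClosed_topologicalClosure _ e
    have x : ∑ i, c i • ((ev i a : ℝ) : UnitAddCircle) = 0 :=
      x _ (AddSubgroup.le_topologicalClosure _ ⟨_, h, rfl⟩)
    refine y (show ∑ i : S, c i • ((ev i (t • δ a) : ℝ) : UnitAddCircle) = 0 from ?_)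
    simp only [← AddCircle.coe_zsmul] at x ⊢
    rw [← QuotientAddGroup.mk_sum] at x ⊢
    obtain ⟨k, hk⟩ := (AddCircle.coe_eq_zero_iff _).1 x
    have := congrArg (fun z => t * D z) hk
    simp only [map_sum, map_zsmul, Derivation.map_one_eq_zero, ← ev_δ, Finset.mul_sum] at this
    have : ∑ i : S, c i • ev i (t • δ a) = 0 := by
      simpa [mul_left_comm] using this.symm
    rw [this, AddCircle.coe_zero]
  obtain ⟨_, x, g, y, rfl⟩ := mem_closure_iff.1 this (univ.pi fun i : S => u i)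
    (isOpen_set_pi finite_univ fun i _ => (h1 i i.2).1) fun i _ => (h1 i i.2).2
  exact ⟨g, h2 fun i hi => x ⟨i, hi⟩ trivial, y⟩

theorem gd {C : Set J} (h : C.Countable) (z : J → UnitAddCircle) :
    ∃ g : Φ.range, ∀ i ∈ C, g.1 i = z i := by
  obtain ⟨c, hc⟩ := (h.insert .base).exists_eq_range (insert_nonempty _ _)
  choose w hw using fun i => QuotientAddGroup.mk_surjective (z i)
  obtain ⟨ξ, hξ⟩ := row c w
  refine ⟨⟨_, single (ξ, 0) 1, rfl⟩, fun i hi => ?_⟩
  obtain ⟨n, rfl⟩ : i ∈ range c := hc ▸ Or.inr hi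
  simp [Φ, ev, hξ, hw]

theorem box {U : Set Φ.range} (h : IsOpen U) {x} (hx : x ∈ U) :
    ∃ (S : Finset J) (u : J → Set UnitAddCircle), (∀ i ∈ S, IsOpen (u i) ∧ x.1 i ∈ u i) ∧
      ∀ y : Φ.range, (∀ i ∈ S, y.1 i ∈ u i) → y ∈ U := by
  obtain ⟨V, a, rfl⟩ := isOpen_induced_iff.1 h
  obtain ⟨S, u, h1, h2⟩ := isOpen_pi_iff.1 a _ hx
  exact ⟨S, u, h1, fun y hy => h2 hy⟩

theorem pseudo (f : Φ.range → ℝ) (hf : Continuous f) : ∃ M, ∀ x, |f x| ≤ M := by
  classical
  by_contra h
  push Not at h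
  choose x hx using fun n : ℕ => h n
  choose S u h1 h2 using fun n : ℕ => box (isOpen_lt continuous_const hf.abs) (hx n)
  obtain ⟨z, hz⟩ := exists_clusterPt_of_compactSpace (map (fun n => (x n).1) atTop)
  have c := countable_iUnion fun n => (S n).countable_toSet
  obtain ⟨g, hg⟩ := gd c z
  obtain ⟨S', u', h3, h4⟩ := box (isOpen_lt hf.abs continuous_const)
    (show g ∈ {y | |f y| < |f g| + 1} from lt_add_one |f g|)
  obtain ⟨n, p, q⟩ := ((mapClusterPt_iff_frequently.1 hz _ (set_pi_mem_nhds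
    ((S'.finite_toSet).inter_of_left (⋃ n, ↑(S n))) fun i hi => (h3 i hi.1).1.mem_nhds
      (hg i hi.2 ▸ (h3 i hi.1).2))).and_eventually
    (tendsto_natCast_atTop_atTop.eventually_ge_atTop (|f g| + 1))).exists
  obtain ⟨y, hy⟩ := gd (c.union S'.countable_toSet)
    fun i => if i ∈ ⋃ n, (S n : Set J) then (x n).1 i else g.1 i
  refine (q.trans_lt (h2 n y fun i hi => ?_)).not_gt (h4 y fun i hi => ?_)
  · have : i ∈ ⋃ n, (S n : Set J) := mem_iUnion.2 ⟨n, hi⟩
    rw [hy i (Or.inl this), if_pos this]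
    exact (h1 n i hi).2
  · rw [hy i (Or.inr hi)]
    split_ifs with e
    exacts [p i ⟨hi, e⟩, (h3 i hi).2]

theorem not_metr : ¬ TopologicalSpace.MetrizableSpace Φ.range := fun _ => by
  classical
  obtain ⟨V, hV⟩ := (𝓝 (0 : Φ.range)).exists_antitone_basis
  choose S u h1 h2 using fun n => box isOpen_interior (mem_interior_iff_mem_nhds.2 (hV.mem n))
  obtain ⟨c, hc⟩ := ((countable_iUnion fun n => (S n).countable_toSet).insert
    .base).exists_eq_range (insert_nonempty _ _)
  obtain ⟨g, hg⟩ := gd ((countable_range c).insert (.node c 0))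
    (Pi.single (.node c 0) ((1 / 2 : ℝ) : UnitAddCircle))
  have : g ≠ 0 := by
    rintro rfl
    have := congrArg norm (hg _ (Or.inl rfl))
    rw [Pi.single_eq_same, (AddCircle.norm_coe_eq_abs_iff 1 one_ne_zero).2 (by norm_num)] at this
    norm_num at this
  obtain ⟨n, hn⟩ := hV.mem_iff.1 (isOpen_compl_singleton.mem_nhds this.symm)
  refine hn (interior_subset (h2 n g fun i hi => ?_)) rfl
  obtain ⟨k, rfl⟩ : i ∈ range c := hc ▸ Or.inr (mem_iUnion.2 ⟨n, hi⟩)
  rw [hg _ (Or.inr ⟨k, rfl⟩), Pi.single_eq_of_ne fun e => (rk_lt c 0 k).ne (congrArg rk e)]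
  exact (h1 n _ hi).2

theorem propZ (K : AddSubgroup Φ.range) (h : IsClosed (K : Set Φ.range))
    [TotallyDisconnectedSpace K] : K = ⊥ := by
  refine (AddSubgroup.eq_bot_iff_forall _).2 ?_
  rintro ⟨_, a, rfl⟩ ha
  have m : ∀ t : ℝ, (⟨_, t • δ a, rfl⟩ : Φ.range) ∈ K := fun t =>
    h.closure_subset (closure_subtype.2 (arc (K.map Φ.range.subtype) a ⟨_, ha, rfl⟩ t))
  have c : Continuous fun t : ℝ => (⟨_, m t⟩ : K) :=
    ((continuous_pi fun α => (AddCircle.continuous_mk' 1).comp (by
      simp only [map_smul]; fun_prop)).subtype_mk _).subtype_mk _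
  have := congrArg (fun z : K => z.1.1) (TotallyDisconnectedSpace.eq_of_continuous _ c 1 0)
  simp only [one_smul, zero_smul, map_zero] at this
  obtain rfl := δ_inj _ (inj _ this)
  exact Subtype.ext (map_zero _)

theorem seqc (x : ℕ → Φ.range) (h : Tendsto (fun p : ℕ × ℕ => x p.1 - x p.2) atTop (𝓝 0)) :
    ∃ l, Tendsto x atTop (𝓝 l) := by
  choose a ha using fun n => (x n).2
  have c : ∀ α, CauchySeq fun n => Φ (a n) α := fun α => by
    rw [cauchySeq_iff_tendsto_dist_atTop_0]
    simpa [ha, dist_eq_norm] using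
      (((continuous_apply α).comp continuous_subtype_val).tendsto 0 |>.comp h).norm
  obtain ⟨φ, b, p, q⟩ := limit a c
  refine ⟨⟨_, b, rfl⟩, tendsto_subtype_rng.2 (tendsto_pi_nhds.2 fun α => ?_)⟩
  simp only [← ha]
  exact tendsto_nhds_of_cauchySeq_of_subseq (c α) p.tendsto_atTop
    (((AddCircle.continuous_mk' 1).tendsto _).comp (q _))

end Pool.Agent.Lib.helper4.ZGrp
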